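import Pool.Agent.Lib.MP_6947cd_al.T.Frame4

/-!
Problem MP_6947cd_al (Chollet).  Geometry of three and four unit vectors: caps for the squared moduli and
lower bounds for the permanents of order 3 and 4.
-/

set_option autoImplicit false
open scoped Matrix ComplexOrder
open Matrix Finset

namespace Pool.Agent.Lib.MP_6947cd_al
namespace Fr

open Ent

theorem permanent_fin_three {R : Type} [CommRing R] (M : Matrix (Fin 3) (Fin 3) R) :
    M.permanent = M 0 0 * M 1 1 * M 2 2 + M 0 0 * M 1 2 * M 2 1 + M 0 1 * M 1 0 * M 2 2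
      + M 0 1 * M 1 2 * M 2 0 + M 0 2 * M 1 0 * M 2 1 + M 0 2 * M 1 1 * M 2 0 := by
  unfold permanent
  have h : (Finset.univ : Finset (Equiv.Perm (Fin 3))) = {1, Equiv.swap 0 1, Equiv.swap 0 2,
      Equiv.swap 1 2, Equiv.swap 0 1 * Equiv.swap 1 2, Equiv.swap 1 2 * Equiv.swap 0 1} := by decide
  rw [h]
  rw [Finset.sum_insert (by decide), Finset.sum_insert (by decide), Finset.sum_insert (by decide),
    Finset.sum_insert (by decide), Finset.sum_insert (by decide), Finset.sum_singleton]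
  simp only [Fin.prod_univ_three]
  simp only [Equiv.Perm.coe_one, id, Equiv.Perm.mul_apply]
  simp [Equiv.swap_apply_def]
  ring

section Tri
variable {κ : Type} [Fintype κ] [DecidableEq κ] (C : Matrix κ κ ℂ)

omit [Fintype κ] [DecidableEq κ] in
lemma herm_of (hC : C.PosSemidef) (i j : κ) : C j i = star (C i j) := (hC.1.apply j i).symm

omit [Fintype κ] [DecidableEq κ] in
lemma mul_star_self' (z : ℂ) : z * star z = ((‖z‖ ^ 2 : ℝ) : ℂ) := by
  rw [Complex.star_def, Complex.mul_conj, Complex.normSq_eq_norm_sq]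

omit [Fintype κ] [DecidableEq κ] in
/-- the determinant of a triple -/
theorem tri_det (hC : C.PosSemidef) (hd : ∀ i, C i i = 1) (i j k : κ) :
    0 ≤ 1 - ‖C i j‖ ^ 2 - ‖C i k‖ ^ 2 - ‖C j k‖ ^ 2 + 2 * (C i j * C j k * C k i).re := by
  have hP : (C.submatrix ![i, j, k] ![i, j, k]).PosSemidef := hC.submatrix _
  have h := hP.det_nonneg
  rw [det_fin_three] at h
  simp only [submatrix_apply, cons_val_zero, cons_val_one, cons_val_two, head_cons, tail_cons] at h
  have e1 : C j i = star (C i j) := herm_of C hC i j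
  have e2 : C k j = star (C j k) := herm_of C hC j k
  have e3 : C i k = star (C k i) := herm_of C hC k i
  have n1 := mul_star_self' (C i j)
  have n2 := mul_star_self' (C j k)
  have n3 := mul_star_self' (C k i)
  have hnk : ‖C i k‖ = ‖C k i‖ := by rw [e3, norm_star]
  rw [hnk]
  have key : C ((![i, j, k] : Fin 3 → κ) 0) ((![i, j, k] : Fin 3 → κ) 0) *
        C ((![i, j, k] : Fin 3 → κ) 1) ((![i, j, k] : Fin 3 → κ) 1) *
        C ((![i, j, k] : Fin 3 → κ) 2) ((![i, j, k] : Fin 3 → κ) 2) = 1 := by simp [hd]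
  have h2 : (0 : ℂ) ≤ 1 - ((‖C j k‖ ^ 2 : ℝ) : ℂ) - ((‖C i j‖ ^ 2 : ℝ) : ℂ) - ((‖C k i‖ ^ 2 : ℝ) : ℂ)
      + C i j * C j k * C k i + star (C i j * C j k * C k i) := by
    refine le_trans h (le_of_eq ?_)
    simp only [hd, Matrix.cons_val]
    rw [e1, e2, e3, ← n1, ← n2, ← n3, star_mul', star_mul']
    ring
  have h3 := (Complex.le_def.mp h2).1
  simp only [Complex.zero_re, Complex.add_re, Complex.sub_re, Complex.one_re, Complex.ofReal_re,
    Complex.star_def, Complex.conj_re] at h3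
  linarith

omit [Fintype κ] [DecidableEq κ] in
/-- the entries of a correlation matrix are at most one -/
theorem pair_le (hC : C.PosSemidef) (hd : ∀ i, C i i = 1) (i j : κ) : ‖C i j‖ ^ 2 ≤ 1 := by
  have hP : (C.submatrix ![i, j] ![i, j]).PosSemidef := hC.submatrix _
  have h := hP.det_nonneg
  rw [det_fin_two] at h
  have h2 : (0 : ℂ) ≤ 1 - ((‖C i j‖ ^ 2 : ℝ) : ℂ) := by
    refine le_trans h (le_of_eq ?_)
    rw [← mul_star_self', ← herm_of C hC i j]
    simp [hd]
  have h3 := (Complex.le_def.mp h2).1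
  simp only [Complex.zero_re, Complex.sub_re, Complex.one_re, Complex.ofReal_re] at h3
  linarith

/-- permanent of order three -/
theorem perm_three (hC : C.PosSemidef) (hd : ∀ i, C i i = 1) (e : Fin 3 ≃ κ) :
    C.permanent.re = 1 + ‖C (e 0) (e 1)‖ ^ 2 + ‖C (e 0) (e 2)‖ ^ 2 + ‖C (e 1) (e 2)‖ ^ 2
      + 2 * (C (e 0) (e 1) * C (e 1) (e 2) * C (e 2) (e 0)).re := by
  have h1 : C.permanent = (C.submatrix e e).permanent := (CholB.permanent_reindex e C).symm
  rw [h1, permanent_fin_three]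
  simp only [submatrix_apply, hd]
  set i := e 0
  set j := e 1
  set k := e 2
  have e1 : C j i = star (C i j) := herm_of C hC i j
  have e2 : C k j = star (C j k) := herm_of C hC j k
  have e3 : C i k = star (C k i) := herm_of C hC k i
  have n1 := mul_star_self' (C i j)
  have n2 := mul_star_self' (C j k)
  have n3 := mul_star_self' (C k i)
  have hnk : ‖C i k‖ = ‖C k i‖ := by rw [e3, norm_star]
  rw [hnk]
  have h2 : (1 : ℂ) * 1 * 1 + 1 * C j k * C k j + C i j * C j i * 1 + C i j * C j k * C k i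
      + C i k * C j i * C k j + C i k * 1 * C k i
      = 1 + ((‖C i j‖ ^ 2 : ℝ) : ℂ) + ((‖C k i‖ ^ 2 : ℝ) : ℂ) + ((‖C j k‖ ^ 2 : ℝ) : ℂ)
        + C i j * C j k * C k i + star (C i j * C j k * C k i) := by
    rw [e1, e2, e3, ← n1, ← n2, ← n3, star_mul', star_mul']
    ring
  rw [h2]
  simp only [Complex.add_re, Complex.one_re, Complex.ofReal_re, Complex.star_def, Complex.conj_re]
  ring

omit [Fintype κ] [DecidableEq κ] in
/-- the triple product is at least minus the product of the moduli -/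
lemma triple_re_ge (i j k : κ) : -(‖C i j‖ * ‖C j k‖ * ‖C k i‖) ≤ (C i j * C j k * C k i).re := by
  have h := Complex.abs_re_le_norm (C i j * C j k * C k i)
  rw [norm_mul, norm_mul] at h
  exact (abs_le.mp h).1

omit [Fintype κ] [DecidableEq κ] in
lemma triple_re_le (i j k : κ) : (C i j * C j k * C k i).re ≤ ‖C i j‖ * ‖C j k‖ * ‖C k i‖ := by
  have h := Complex.abs_re_le_norm (C i j * C j k * C k i)
  rw [norm_mul, norm_mul] at h
  exact (abs_le.mp h).2

/-- lower bounds for a permanent of order three -/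
theorem perm_three_ge (hC : C.PosSemidef) (hd : ∀ i, C i i = 1) (e : Fin 3 ≃ κ) :
    2 * (‖C (e 0) (e 1)‖ ^ 2 + ‖C (e 0) (e 2)‖ ^ 2 + ‖C (e 1) (e 2)‖ ^ 2) ≤ C.permanent.re
    ∧ 1 + ‖C (e 0) (e 1)‖ ^ 2 + ‖C (e 0) (e 2)‖ ^ 2 + ‖C (e 1) (e 2)‖ ^ 2
      - 2 * (‖C (e 0) (e 1)‖ * ‖C (e 1) (e 2)‖ * ‖C (e 0) (e 2)‖) ≤ C.permanent.re := by
  have h1 := perm_three C hC hd e
  have h2 := tri_det C hC hd (e 0) (e 1) (e 2)
  have h3 := triple_re_ge C (e 0) (e 1) (e 2)
  have h4 : ‖C (e 2) (e 0)‖ = ‖C (e 0) (e 2)‖ := by rw [herm_of C hC (e 0) (e 2), norm_star]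
  rw [h4] at h3
  constructor <;> linarith

end Tri

section Rows
variable {n : ℕ} (A : Matrix (Fin n) (Fin n) ℂ)

lemma norm_sq_row (i j : Fin n) : ‖A i j‖ ^ 2 = row A i j := rfl

lemma norm_eq_sqrt_row (i j : Fin n) : ‖A i j‖ = Real.sqrt (row A i j) := by
  rw [← norm_sq_row, Real.sqrt_sq (norm_nonneg _)]

/-- the determinant of a triple bounded through the moduli -/
theorem tri_row (hA : A.PosSemidef) (hd : ∀ i, A i i = 1) (i j k : Fin n) :
    0 ≤ 1 - row A i j - row A i k - row A j k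
      + 2 * (Real.sqrt (row A i j) * Real.sqrt (row A i k) * Real.sqrt (row A j k)) := by
  have h1 := tri_det A hA hd i j k
  have h2 := triple_re_le A i j k
  have h4 : ‖A k i‖ = ‖A i k‖ := by rw [herm_of A hA i k, norm_star]
  rw [h4] at h2
  rw [← norm_eq_sqrt_row, ← norm_eq_sqrt_row, ← norm_eq_sqrt_row]
  have e1 := norm_sq_row A i j
  have e2 := norm_sq_row A i k
  have e3 := norm_sq_row A j k
  nlinarith

/-- the two caps of a triple -/
theorem cap_abs (hA : A.PosSemidef) (hd : ∀ i, A i i = 1) (i j k : Fin n) :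
    |Real.sqrt (row A j k) - Real.sqrt (row A i j) * Real.sqrt (row A i k)|
      ≤ Real.sqrt (1 - row A i j) * Real.sqrt (1 - row A i k) := by
  have h := tri_row A hA hd i j k
  have s1 := Real.sq_sqrt (row_nonneg A i j)
  have s2 := Real.sq_sqrt (row_nonneg A i k)
  have s3 := Real.sq_sqrt (row_nonneg A j k)
  have l1 : 0 ≤ 1 - row A i j := sub_nonneg.mpr (row_le_one A hA hd i j)
  have l2 : 0 ≤ 1 - row A i k := sub_nonneg.mpr (row_le_one A hA hd i k)
  rw [← Real.sqrt_mul l1]
  refine Real.abs_le_sqrt ?_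
  set x := Real.sqrt (row A i j)
  set y := Real.sqrt (row A i k)
  set z := Real.sqrt (row A j k)
  rw [← s1, ← s2, ← s3] at h
  rw [← s1, ← s2]
  nlinarith

/-- upper cap -/
theorem cap_up (hA : A.PosSemidef) (hd : ∀ i, A i i = 1) (i j k : Fin n) :
    row A j k ≤ (Real.sqrt (row A i j * row A i k)
      + Real.sqrt ((1 - row A i j) * (1 - row A i k))) ^ 2 := by
  have h := (abs_le.mp (cap_abs A hA hd i j k)).2
  rw [Real.sqrt_mul (row_nonneg A i j),
    Real.sqrt_mul (sub_nonneg.mpr (row_le_one A hA hd i j))]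
  have s3 := Real.sq_sqrt (row_nonneg A j k)
  rw [← s3]
  exact pow_le_pow_left₀ (Real.sqrt_nonneg _) (by linarith) 2

/-- the two entries of a third vertex in the rows `j`, `k` -/
theorem sum_cap (hA : A.PosSemidef) (hd : ∀ i, A i i = 1) (j k l : Fin n) :
    row A j l + row A k l ≤ 1 + Real.sqrt (row A j k) := by
  have h := tri_row A hA hd l j k
  rw [row_symm A hA l j, row_symm A hA l k] at h
  have s1 := Real.sq_sqrt (row_nonneg A j l)
  have s2 := Real.sq_sqrt (row_nonneg A k l)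
  have s3 := Real.sq_sqrt (row_nonneg A j k)
  have l1 := row_le_one A hA hd j l
  have l2 := row_le_one A hA hd k l
  have l3 : Real.sqrt (row A j k) ≤ 1 := Real.sqrt_le_one.mpr (row_le_one A hA hd j k)
  have p3 := Real.sqrt_nonneg (row A j k)
  set x := Real.sqrt (row A j l)
  set y := Real.sqrt (row A k l)
  set z := Real.sqrt (row A j k)
  by_contra hcon
  push Not at hcon
  rcases l3.eq_or_lt with h1 | h1
  · rw [h1] at hcon; linarith
  · have h2 : (1 - z) * (row A j l + row A k l) ≤ 1 - z ^ 2 := by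
      have := mul_nonneg p3 (sq_nonneg (x - y))
      nlinarith
    nlinarith

/-- permanent of order two -/
theorem S_two (hA : A.PosSemidef) (hd : ∀ i, A i i = 1) (i j : Fin n) (hij : i ≠ j) :
    S A {i, j} = 1 + row A i j := by
  classical
  let e : Fin 2 ≃ ↥({i, j} : Finset (Fin n)) := Equiv.ofBijective
    (fun a => if a = 0 then ⟨i, by simp⟩ else ⟨j, by simp⟩) (by
      constructor
      · intro a b h
        fin_cases a <;> fin_cases b <;> simp_all [Subtype.ext_iff]
      · rintro ⟨x, hx⟩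
        rcases Finset.mem_insert.mp hx with h | h
        · exact ⟨0, by simp [h]⟩
        · exact ⟨1, by simp [Finset.mem_singleton.mp h]⟩)
  unfold S
  rw [← CholB.permanent_reindex e]
  have h : ∀ M : Matrix (Fin 2) (Fin 2) ℂ, M.permanent = M 0 0 * M 1 1 + M 0 1 * M 1 0 := by
    intro M
    unfold permanent
    have h : (Finset.univ : Finset (Equiv.Perm (Fin 2))) = {1, Equiv.swap 0 1} := by decide
    rw [h, Finset.sum_insert (by decide), Finset.sum_singleton]
    simp [Fin.prod_univ_two, mul_comm]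
  rw [h]
  have e0 : ((e 0 : ↥({i, j} : Finset (Fin n))) : Fin n) = i := rfl
  have e1 : ((e 1 : ↥({i, j} : Finset (Fin n))) : Fin n) = j := rfl
  simp only [submatrix_apply, e0, e1, hd]
  rw [herm_of A hA i j, mul_star_self', mul_one, Complex.add_re, Complex.one_re, Complex.ofReal_re]
  rfl

/-- enumeration of three vertices -/
noncomputable def e3 (i j k : Fin n) (hij : i ≠ j) (hik : i ≠ k) (hjk : j ≠ k) :
    Fin 3 ≃ ↥({i, j, k} : Finset (Fin n)) := Equiv.ofBijective
    (fun a => ⟨![i, j, k] a, by fin_cases a <;> simp⟩) (by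
      constructor
      · intro a b h
        have h' : (![i, j, k] : Fin 3 → Fin n) a = ![i, j, k] b := congrArg Subtype.val h
        fin_cases a <;> fin_cases b <;> simp_all
      · rintro ⟨x, hx⟩
        simp only [Finset.mem_insert, Finset.mem_singleton] at hx
        rcases hx with h | h | h
        · exact ⟨0, Subtype.ext h.symm⟩
        · exact ⟨1, Subtype.ext h.symm⟩
        · exact ⟨2, Subtype.ext h.symm⟩)

/-- lower bounds for the permanent of three vertices -/
theorem S_three_ge (hA : A.PosSemidef) (hd : ∀ i, A i i = 1) (i j k : Fin n)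
    (hij : i ≠ j) (hik : i ≠ k) (hjk : j ≠ k) :
    2 * (row A i j + row A i k + row A j k) ≤ S A {i, j, k}
    ∧ 1 + row A i j + row A i k + row A j k
      - 2 * Real.sqrt (row A i j * row A i k * row A j k) ≤ S A {i, j, k} := by
  have hC : (A.submatrix (fun x : ↥({i, j, k} : Finset (Fin n)) => (x : Fin n))
      (fun x : ↥({i, j, k} : Finset (Fin n)) => (x : Fin n))).PosSemidef := hA.submatrix _
  have h := perm_three_ge _ hC (fun x => hd _) (e3 i j k hij hik hjk)
  have e0 : ((e3 i j k hij hik hjk 0 : ↥({i, j, k} : Finset (Fin n))) : Fin n) = i := rfl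
  have e1 : ((e3 i j k hij hik hjk 1 : ↥({i, j, k} : Finset (Fin n))) : Fin n) = j := rfl
  have e2 : ((e3 i j k hij hik hjk 2 : ↥({i, j, k} : Finset (Fin n))) : Fin n) = k := rfl
  simp only [submatrix_apply, e0, e1, e2] at h
  refine ⟨h.1, ?_⟩
  have h2 := h.2
  have h3 : Real.sqrt (row A i j * row A i k * row A j k) = ‖A i j‖ * ‖A j k‖ * ‖A i k‖ := by
    rw [Real.sqrt_mul (mul_nonneg (row_nonneg A i j) (row_nonneg A i k)),
      Real.sqrt_mul (row_nonneg A i j), ← norm_eq_sqrt_row, ← norm_eq_sqrt_row, ← norm_eq_sqrt_row]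
    ring
  rw [h3]
  exact h2

/-- enumeration of four vertices -/
noncomputable def e4 (i j k l : Fin n) (hij : i ≠ j) (hik : i ≠ k) (hil : i ≠ l) (hjk : j ≠ k)
    (hjl : j ≠ l) (hkl : k ≠ l) :
    Fin 4 ≃ ↥({i, j, k, l} : Finset (Fin n)) := Equiv.ofBijective
    (fun a => ⟨![i, j, k, l] a, by fin_cases a <;> simp⟩) (by
      constructor
      · intro a b h
        have h' : (![i, j, k, l] : Fin 4 → Fin n) a = ![i, j, k, l] b := congrArg Subtype.val h
        fin_cases a <;> fin_cases b <;> simp_all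
      · rintro ⟨x, hx⟩
        simp only [Finset.mem_insert, Finset.mem_singleton] at hx
        rcases hx with h | h | h | h
        · exact ⟨0, Subtype.ext h.symm⟩
        · exact ⟨1, Subtype.ext h.symm⟩
        · exact ⟨2, Subtype.ext h.symm⟩
        · exact ⟨3, Subtype.ext h.symm⟩)

/-- lower bounds for the permanent of four vertices (merging `i`, `j`) -/
theorem S_four_ge (hA : A.PosSemidef) (hd : ∀ i, A i i = 1) (i j k l : Fin n) (hij : i ≠ j)
    (hik : i ≠ k) (hil : i ≠ l) (hjk : j ≠ k) (hjl : j ≠ l) (hkl : k ≠ l) (α β : ℝ)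
    (h1 : α ^ 2 + β ^ 2 = 1 / (1 + row A i j)) (h2 : α * β = ‖A i j‖ / (2 * (1 + row A i j))) :
    ∃ u c : Fin n → ℝ,
      (∀ m, m = k ∨ m = l → 0 ≤ u m ∧ u m ≤ 1
        ∧ u m = α ^ 2 * row A i m + β ^ 2 * row A j m + 2 * (α * β) * c m
        ∧ (c m) ^ 2 ≤ row A i m * row A j m
        ∧ row A i m + row A j m ≤ 1 - row A i j + 2 * ‖A i j‖ * c m) ∧
      (1 + row A i j) * (2 * (u k + u l + row A k l)) ≤ S A {i, j, k, l} ∧
      (1 + row A i j) * (1 + u k + u l + row A k l - 2 * Real.sqrt (u k * u l * row A k l))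
        ≤ S A {i, j, k, l} := by
  classical
  set e := e4 i j k l hij hik hil hjk hjl hkl with he
  have e0 : ((e 0 : ↥({i, j, k, l} : Finset (Fin n))) : Fin n) = i := rfl
  have e1 : ((e 1 : ↥({i, j, k, l} : Finset (Fin n))) : Fin n) = j := rfl
  have e2 : ((e 2 : ↥({i, j, k, l} : Finset (Fin n))) : Fin n) = k := rfl
  have e3' : ((e 3 : ↥({i, j, k, l} : Finset (Fin n))) : Fin n) = l := rfl
  set B : Matrix (Fin 4) (Fin 4) ℂ := A.submatrix (fun a => (e a : Fin n)) (fun a => (e a : Fin n))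
    with hB
  have hBp : B.PosSemidef := hA.submatrix _
  have hBd : ∀ a, B a a = 1 := fun a => hd _
  have hBS : B.permanent.re = S A {i, j, k, l} := by
    unfold S
    rw [← CholB.permanent_reindex e]
    rfl
  have r01 : row B 0 1 = row A i j := rfl
  have n01 : ‖B 0 1‖ = ‖A i j‖ := rfl
  obtain ⟨C, c, hC, hCd, hCA, hCu, hc1, hc2, hper⟩ := N3.merge_fin B hBp hBd 0 1 (by decide) α β
    (by rw [r01]; exact h1) (by rw [r01, n01]; exact h2)
  have m2 : (2 : Fin 4) ∈ (({0, 1} : Finset (Fin 4))ᶜ) := by decide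
  have m3 : (3 : Fin 4) ∈ (({0, 1} : Finset (Fin 4))ᶜ) := by decide
  let f : Fin 3 ≃ Option ↥(({0, 1} : Finset (Fin 4))ᶜ) := Equiv.ofBijective
    (fun a => if a = 0 then none else if a = 1 then some ⟨2, m2⟩ else some ⟨3, m3⟩) (by
      constructor
      · intro a b h
        fin_cases a <;> fin_cases b <;> simp_all
      · intro x
        rcases x with _ | ⟨x, hx⟩
        · exact ⟨0, rfl⟩
        · fin_cases x
          · exact absurd hx (by decide)
          · exact absurd hx (by decide)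
          · exact ⟨1, rfl⟩
          · exact ⟨2, rfl⟩)
  have f0 : f 0 = none := rfl
  have f1 : f 1 = some ⟨2, m2⟩ := rfl
  have f2 : f 2 = some ⟨3, m3⟩ := rfl
  have hp := perm_three_ge C hC hCd f
  rw [f0, f1, f2] at hp
  have hkl' : ‖C (some ⟨2, m2⟩) (some ⟨3, m3⟩)‖ ^ 2 = row A k l := by
    rw [hCA]; rfl
  have hle : ∀ x, ‖C none (some x)‖ ^ 2 ≤ 1 := fun x => pair_le C hC hCd none (some x)
  let u : Fin n → ℝ := fun m => if m = k then ‖C none (some ⟨2, m2⟩)‖ ^ 2
    else ‖C none (some ⟨3, m3⟩)‖ ^ 2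
  let c' : Fin n → ℝ := fun m => if m = k then c 2 else c 3
  have uk : u k = ‖C none (some ⟨2, m2⟩)‖ ^ 2 := if_pos rfl
  have ul : u l = ‖C none (some ⟨3, m3⟩)‖ ^ 2 := if_neg hkl.symm
  have ck : c' k = c 2 := if_pos rfl
  have cl : c' l = c 3 := if_neg hkl.symm
  refine ⟨u, c', ?_, ?_, ?_⟩
  · rintro m (rfl | rfl)
    · rw [uk, ck]
      exact ⟨by positivity, hle _, hCu ⟨2, m2⟩, hc1 2, hc2 2⟩
    · rw [ul, cl]
      exact ⟨by positivity, hle _, hCu ⟨3, m3⟩, hc1 3, hc2 3⟩
  · rw [uk, ul, ← hkl', ← hBS]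
    refine le_trans ?_ hper
    rw [r01]
    exact mul_le_mul_of_nonneg_left hp.1 (by have := row_nonneg A i j; linarith)
  · have hs : Real.sqrt (u k * u l * row A k l)
        = ‖C none (some ⟨2, m2⟩)‖ * ‖C (some ⟨2, m2⟩) (some ⟨3, m3⟩)‖ * ‖C none (some ⟨3, m3⟩)‖ := by
      rw [uk, ul, ← hkl', ← mul_pow, ← mul_pow, Real.sqrt_sq (by positivity)]
      ring
    rw [hs, uk, ul, ← hkl', ← hBS]
    refine le_trans ?_ hper
    rw [r01]
    exact mul_le_mul_of_nonneg_left hp.2 (by have := row_nonneg A i j; linarith)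

end Rows
end Fr
end Pool.Agent.Lib.MP_6947cd_al
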