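import Pool.Agent.Lib.MP_6947cd_al.T.Point

/-!
Problem MP_6947cd_al (Chollet).  Fast check of the patterns of the natural number certificates (weights
computed with natural numbers).
-/

set_option autoImplicit false
open Finset

namespace Pool.Agent.Lib.MP_6947cd_al
namespace Ent

/-- numerators of the weights over `(k + l + sum + 1)!` -/
def genN : ℕ → ℕ → List ℕ → List (ℕ × List ℕ)
  | k, l, [] => [(k.factorial * l.factorial, [])]
  | k, l, m :: ms => (List.range (m + 1)).flatMap fun c =>
      (genN (k + c) (l + (m - c)) ms).map fun t => (m.choose c * t.1, c :: t.2)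

lemma gen_genN (ms : List ℕ) : ∀ k l : ℕ, gen k l ms = (genN k l ms).map fun t : ℕ × List ℕ =>
    ((t.1 : ℚ) / ((k + l + ms.sum + 1).factorial : ℕ), t.2.map fun c : ℕ => (c : ℚ)) := by
  induction ms with
  | nil =>
    intro k l
    simp [gen, genN, Bq]
  | cons m ms ih =>
    intro k l
    simp only [gen, genN, List.map_flatMap, List.map_map, List.sum_cons]
    apply List.flatMap_congr
    intro c hc
    rw [ih, List.map_map]
    have hc' : c ≤ m := by
      rw [List.mem_range] at hc; omega
    refine List.map_congr_left fun t _ => ?_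
    simp only [Function.comp_apply, List.map_cons]
    rw [show k + c + (l + (m - c)) + ms.sum + 1 = k + l + (m + ms.sum) + 1 by omega]
    push_cast
    rw [mul_div_assoc]

/-- increase one coefficient by one -/
def incN : ℕ → List ℕ → List ℕ
  | _, [] => []
  | 0, c :: cs => (c + 1) :: cs
  | n + 1, c :: cs => c :: incN n cs

lemma inc_incN (a : ℕ) (l : List ℕ) :
    inc a (l.map fun c : ℕ => (c : ℚ)) = (incN a l).map fun c : ℕ => (c : ℚ) := by
  induction l generalizing a with
  | nil => cases a <;> rfl
  | cons c l ih =>
    cases a with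
    | zero => simp [inc, incN]
    | succ a => simp [inc, incN, ih]

/-- multiplicities of the other entries -/
def oth : List ℕ → ℕ → List ℕ
  | [], _ => []
  | m :: ms, 0 => (m - 1) :: ms
  | m :: ms, a + 1 => m :: oth ms a

lemma oth_eq (m : List ℕ) (a : ℕ) :
    (List.range m.length).map (fun c => m.getD c 0 - if c = a then 1 else 0) = oth m a := by
  induction m generalizing a with
  | nil => simp [oth]
  | cons x m ih =>
    rw [List.length_cons, List.range_succ_eq_map, List.map_cons, List.map_map]
    cases a with
    | zero =>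
      simp only [List.getD_cons_zero, if_pos, oth]
      congr 1
      have e : (List.range m.length).map ((fun c => (x :: m).getD c 0 - if c = 0 then 1 else 0) ∘ Nat.succ)
          = (List.range m.length).map (fun c => m.getD c 0) := by
        refine List.map_congr_left fun c _ => ?_
        simp
      rw [e]
      apply List.ext_getElem
      · simp
      · intro i h1 h2
        simp only [List.getElem_map, List.getElem_range]
        rw [List.getD_eq_getElem _ _ h2]
    | succ a =>
      simp only [List.getD_cons_zero, oth]
      rw [if_neg (by omega), Nat.sub_zero]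
      congr 1
      rw [← ih a]
      refine List.map_congr_left fun c _ => ?_
      simp

/-- the check of the terms of one type -/
def tyN (m : List ℕ) (D : ℕ) (a : ℕ) (l : List (ℕ × List ℕ)) : Bool :=
  decide ((genN 0 0 (oth m a)).map (fun t => (D * t.1, incN a t.2))
    = l.map fun t => (t.1 * ((oth m a).sum + 1).factorial, t.2))

lemma tyN_sound (m : List ℕ) (D : ℕ) (hD : 0 < D) (a : ℕ) (l : List (ℕ × List ℕ)) (h : tyN m D a l = true) :
    terms m.length (fun c => m.getD c 0) a
      = l.map fun t : ℕ × List ℕ => ((t.1 : ℚ) / D, t.2.map fun c : ℕ => (c : ℚ)) := by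
  unfold tyN at h
  rw [decide_eq_true_eq] at h
  unfold terms
  rw [oth_eq, gen_genN, List.map_map]
  set N := (oth m a).sum with hN
  have hf : (((N + 1).factorial : ℕ) : ℚ) ≠ 0 := by
    have := Nat.factorial_pos (N + 1)
    positivity
  have hDq : (D : ℚ) ≠ 0 := by positivity
  have h2 := congrArg (fun L : List (ℕ × List ℕ) => L.map fun t : ℕ × List ℕ =>
    ((t.1 : ℚ) / (D * ((N + 1).factorial : ℕ)), t.2.map fun c : ℕ => (c : ℚ))) h
  simp only [List.map_map] at h2
  have e1 : (genN 0 0 (oth m a)).map ((fun t : ℚ × List ℚ => (t.1, inc a t.2)) ∘ fun t : ℕ × List ℕ =>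
      ((t.1 : ℚ) / ((0 + 0 + N + 1).factorial : ℕ), t.2.map fun c : ℕ => (c : ℚ)))
      = (genN 0 0 (oth m a)).map ((fun t : ℕ × List ℕ =>
          ((t.1 : ℚ) / (D * ((N + 1).factorial : ℕ)), t.2.map fun c : ℕ => (c : ℚ))) ∘
        fun t => (D * t.1, incN a t.2)) := by
    refine List.map_congr_left fun t _ => ?_
    simp only [Function.comp_apply, inc_incN, Nat.zero_add, Nat.cast_mul]
    congr 1
    field_simp
  rw [e1, h2]
  refine List.map_congr_left fun t _ => ?_
  simp only [Function.comp_apply, Nat.cast_mul]
  congr 1
  field_simp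

/-- the terms of a pattern of multiplicities `m` with common denominator `D` of the weights, fast check -/
def patN (m : List ℕ) (D : ℕ) (tl : List (List (ℕ × List ℕ))) : Bool :=
  decide (0 < D) && decide (tl.length = m.length) &&
  (List.range m.length).all fun a => decide (m.getD a 0 = 0) ||
    (tyN m D a (tl.getD a []) && decide (((tl.getD a []).map fun t => t.1).sum = D))

theorem patOK_of_patN (m : List ℕ) (D : ℕ) (tl : List (List (ℕ × List ℕ))) (h : patN m D tl = true) :
    patOK m D tl = true := by
  unfold patN at h
  unfold patOK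
  simp only [Bool.and_eq_true, decide_eq_true_eq, List.all_eq_true, List.mem_range,
    Bool.or_eq_true] at h ⊢
  obtain ⟨⟨h1, h2⟩, h3⟩ := h
  refine ⟨⟨h1, h2⟩, fun a ha => ?_⟩
  rcases h3 a ha with h4 | ⟨h4, h5⟩
  · exact Or.inl h4
  · exact Or.inr ⟨tyN_sound m D h1 a _ h4, h5⟩

end Ent
end Pool.Agent.Lib.MP_6947cd_al
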