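import Pool.Agent.Lib.MP_6947cd_al.T.Schur

/-!
Problem MP_6947cd_al (Chollet).  Concentration of the entries outside a set `S`: the row function is at most its value
at a row whose entries outside `S` are all `0` or `m` with at most one exception.
-/

set_option autoImplicit false
open scoped Matrix
open Matrix Finset

namespace Pool.Agent.Lib.MP_6947cd_al
namespace Ent

variable {κ : Type} [Fintype κ] [DecidableEq κ]

omit [Fintype κ] in
/-- the row after a transfer, as a sum -/
lemma transfer_apply (b : κ → ℝ) (c d : κ) (hcd : c ≠ d) (s : ℝ) (k : κ) :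
    Function.update (Function.update b c (b c + s)) d (b d - s) k
      = b k + (if k = c then s else 0) - (if k = d then s else 0) := by
  by_cases hd : k = d
  · subst hd
    rw [Function.update_self, if_neg hcd.symm, if_pos rfl, add_zero]
  · rw [Function.update_of_ne hd, if_neg hd, sub_zero]
    by_cases hc : k = c
    · subst hc
      rw [Function.update_self, if_pos rfl]
    · rw [Function.update_of_ne hc, if_neg hc, add_zero]

lemma transfer_sum (b : κ → ℝ) (c d : κ) (hcd : c ≠ d) (s : ℝ) (T : Finset κ) (hc : c ∈ T)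
    (hd : d ∈ T) :
    ∑ k ∈ T, Function.update (Function.update b c (b c + s)) d (b d - s) k = ∑ k ∈ T, b k := by
  rw [Finset.sum_congr rfl fun k _ => transfer_apply b c d hcd s k, Finset.sum_sub_distrib,
    Finset.sum_add_distrib, Finset.sum_ite_eq' T c, Finset.sum_ite_eq' T d, if_pos hc, if_pos hd]
  ring

/-- the entries outside `S` strictly between `0` and `m` -/
noncomputable def inter (b : κ → ℝ) (S : Finset κ) (m : ℝ) : Finset κ := by
  classical exact Sᶜ.filter (fun k => 0 < b k ∧ b k < m)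

lemma mem_inter (b : κ → ℝ) (S : Finset κ) (m : ℝ) (k : κ) :
    k ∈ inter b S m ↔ k ∉ S ∧ 0 < b k ∧ b k < m := by
  unfold inter
  simp

/-- CONCENTRATION.  Outside `S` all entries are at most `m`; the row function is at most its value at a row with
the same entries on `S`, the same sum outside `S`, and entries `0` or `m` outside `S` with one exception. -/
theorem F_concentrate (i : κ) (S : Finset κ) (hiS : i ∈ S) (m : ℝ) (hm1 : m ≤ 1) :
    ∀ (N : ℕ) (b : κ → ℝ), (inter b S m).card = N → (∀ j, 0 ≤ b j) → (∀ j, b j ≤ 1) → b i = 1 →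
    (∀ k, k ∉ S → b k ≤ m) →
    ∃ b' : κ → ℝ, (∀ k ∈ S, b' k = b k) ∧ (∀ k, k ∉ S → 0 ≤ b' k ∧ b' k ≤ m) ∧
      ∑ k ∈ Sᶜ, b' k = ∑ k ∈ Sᶜ, b k ∧
      (∀ k l, k ∈ inter b' S m → l ∈ inter b' S m → k = l) ∧ F b ≤ F b' := by
  intro N
  induction N using Nat.strong_induction_on with
  | _ N ih =>
  intro b hN hb0 hb1 hi hm
  by_cases hu : ∀ k l, k ∈ inter b S m → l ∈ inter b S m → k = l
  · exact ⟨b, fun k _ => rfl, fun k hk => ⟨hb0 k, hm k hk⟩, rfl, hu, le_rfl⟩
  push Not at hu
  have hex : ∃ c d, c ∈ inter b S m ∧ d ∈ inter b S m ∧ c ≠ d ∧ b d ≤ b c := by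
    obtain ⟨k, l, hk, hl, hkl⟩ := hu
    rcases le_total (b l) (b k) with h | h
    · exact ⟨k, l, hk, hl, hkl, h⟩
    · exact ⟨l, k, hl, hk, hkl.symm, h⟩
  obtain ⟨c, d, hc, hd, hcd, hdc⟩ := hex
  have hc' := (mem_inter b S m c).mp hc
  have hd' := (mem_inter b S m d).mp hd
  set s : ℝ := min (b d) (m - b c) with hs
  have hs0 : 0 ≤ s := le_min hd'.2.1.le (by linarith [hc'.2.2])
  have hsd : s ≤ b d := min_le_left _ _
  have hsc : s ≤ m - b c := min_le_right _ _
  have hic : i ≠ c := fun h => hc'.1 (h ▸ hiS)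
  have hid : i ≠ d := fun h => hd'.1 (h ▸ hiS)
  have hF := F_transfer b hb0 hb1 i c d hi hic hid hcd s hs0 hsd hdc (by linarith)
  set b2 : κ → ℝ := Function.update (Function.update b c (b c + s)) d (b d - s) with hb2
  have hap : ∀ k, b2 k = b k + (if k = c then s else 0) - (if k = d then s else 0) :=
    fun k => transfer_apply b c d hcd s k
  have b2c : b2 c = b c + s := by rw [hap, if_pos rfl, if_neg hcd, sub_zero]
  have b2d : b2 d = b d - s := by rw [hap, if_neg hcd.symm, if_pos rfl, add_zero]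
  have b2k : ∀ k, k ≠ c → k ≠ d → b2 k = b k := fun k h1 h2 => by
    rw [hap, if_neg h1, if_neg h2, add_zero, sub_zero]
  have h0 : ∀ j, 0 ≤ b2 j := by
    intro j
    by_cases h1 : j = c
    · rw [h1, b2c]; have := hb0 c; linarith
    · by_cases h2 : j = d
      · rw [h2, b2d]; linarith
      · rw [b2k j h1 h2]; exact hb0 j
  have hmm : ∀ k, k ∉ S → b2 k ≤ m := by
    intro j hj
    by_cases h1 : j = c
    · rw [h1, b2c]; linarith
    · by_cases h2 : j = d
      · rw [h2, b2d]; have := hm d hd'.1; linarith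
      · rw [b2k j h1 h2]; exact hm j hj
  have h1' : ∀ j, b2 j ≤ 1 := by
    intro j
    by_cases hj : j ∈ S
    · have h1 : j ≠ c := fun h => hc'.1 (h ▸ hj)
      have h2 : j ≠ d := fun h => hd'.1 (h ▸ hj)
      rw [b2k j h1 h2]
      exact hb1 j
    · exact (hmm j hj).trans hm1
  have hi2 : b2 i = 1 := by rw [b2k i hic hid, hi]
  have hsub : inter b2 S m ⊆ inter b S m := by
    intro j hj
    have hj' := (mem_inter b2 S m j).mp hj
    by_cases h1 : j = c
    · rw [h1]; exact hc
    · by_cases h2 : j = d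
      · rw [h2]; exact hd
      · rw [b2k j h1 h2] at hj'
        exact (mem_inter b S m j).mpr hj'
  have hss : inter b2 S m ⊂ inter b S m := by
    refine Finset.ssubset_iff_subset_ne.mpr ⟨hsub, fun he => ?_⟩
    have hc2 : c ∈ inter b2 S m := by rw [he]; exact hc
    have hd2 : d ∈ inter b2 S m := by rw [he]; exact hd
    have hc3 := ((mem_inter b2 S m c).mp hc2).2.2
    have hd3 := ((mem_inter b2 S m d).mp hd2).2.1
    rw [b2c] at hc3
    rw [b2d] at hd3
    have : s < min (b d) (m - b c) := lt_min (by linarith) (by linarith)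
    linarith
  have hlt : (inter b2 S m).card < N := by rw [← hN]; exact Finset.card_lt_card hss
  obtain ⟨b', e1, e2, e3, e4, e5⟩ := ih _ hlt b2 rfl h0 h1' hi2 hmm
  refine ⟨b', fun k hk => ?_, e2, ?_, e4, hF.trans e5⟩
  · rw [e1 k hk, b2k k (fun h => hc'.1 (h ▸ hk)) (fun h => hd'.1 (h ▸ hk))]
  · rw [e3, hb2]
    exact transfer_sum b c d hcd s Sᶜ (Finset.mem_compl.mpr hc'.1) (Finset.mem_compl.mpr hd'.1)

/-- the row function of a list of entries -/
noncomputable def FL (l : List ℝ) : ℝ := F (fun k : Fin l.length => l.get k)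

end Ent
end Pool.Agent.Lib.MP_6947cd_al
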