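import Pool.Agent.Lib.MP_6947cd_al.T.Frame
import Pool.Agent.Lib.MP_6947cd_al.N1

/-!
Problem MP_6947cd_al (Chollet).  The frame with the two vertex inequality.
-/

set_option autoImplicit false
open scoped Matrix ComplexOrder
open Matrix Finset

namespace Pool.Agent.Lib.MP_6947cd_al
namespace Fr

open Ent

section TwoVertex

variable {n : ℕ}

/-- enumeration of the vertices starting with `i`, `j` -/
noncomputable def eij (i j : Fin n) (hij : i ≠ j) :
    Option (Option ↥(({i, j} : Finset (Fin n))ᶜ)) ≃ Fin n :=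
  Equiv.ofBijective (fun o => Option.elim o i (fun o' => Option.elim o' j (fun x => (x : Fin n)))) (by
    constructor
    · intro a b h
      rcases a with _ | _ | ⟨a, ha⟩ <;> rcases b with _ | _ | ⟨b, hb⟩
      · rfl
      · exact absurd h hij
      · have h' : i = b := h
        simp [← h'] at hb
      · exact absurd h.symm hij
      · rfl
      · have h' : j = b := h
        simp [← h'] at hb
      · have h' : a = i := h
        simp [h'] at ha
      · have h' : a = j := h
        simp [h'] at ha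
      · have h' : a = b := h
        subst h'
        rfl
    · intro x
      by_cases h1 : x = i
      · exact ⟨none, h1.symm⟩
      · by_cases h2 : x = j
        · exact ⟨some none, h2.symm⟩
        · exact ⟨some (some ⟨x, by simp [h1, h2]⟩), rfl⟩)

/-- enumeration of the vertices different from `i` starting with `j` -/
noncomputable def ej (i j : Fin n) (hij : i ≠ j) :
    Option ↥(({i, j} : Finset (Fin n))ᶜ) ≃ ↥(({i} : Finset (Fin n))ᶜ) :=
  Equiv.ofBijective (fun o => Option.elim o ⟨j, by simp [hij.symm]⟩ (fun x => ⟨(x : Fin n), by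
      have := x.2
      simp only [Finset.mem_compl, Finset.mem_insert, Finset.mem_singleton, not_or] at this ⊢
      exact this.1⟩)) (by
    constructor
    · intro a b h
      rcases a with _ | ⟨a, ha⟩ <;> rcases b with _ | ⟨b, hb⟩
      · rfl
      · have h' : j = b := congrArg Subtype.val h
        simp [← h'] at hb
      · have h' : a = j := congrArg Subtype.val h
        simp [h'] at ha
      · have h' : a = b := congrArg Subtype.val h
        subst h'
        rfl
    · rintro ⟨x, hx⟩
      have h1 : x ≠ i := by simpa using hx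
      by_cases h2 : x = j
      · exact ⟨none, Subtype.ext h2.symm⟩
      · exact ⟨some ⟨x, by simp [h1, h2]⟩, rfl⟩)

/-- The two vertex inequality. -/
theorem two_vertex (A : Matrix (Fin n) (Fin n) ℂ) (hA : A.PosSemidef) (hd : ∀ i, A i i = 1)
    (i j : Fin n) (hij : i ≠ j) :
    (1 - row A i j) * S A ({i}ᶜ) + 2 * row A i j * S A ({i, j}ᶜ) ≤ A.permanent.re := by
  have hB : (A.submatrix (eij i j hij) (eij i j hij)).PosSemidef := hA.submatrix _
  have h := N1.two_vertex _ hB (hd i) (hd j)
  rw [CholB.permanent_reindex] at h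
  have e1 : (A.submatrix (eij i j hij) (eij i j hij)).submatrix some some
      = (A.submatrix (fun x : ↥(({i} : Finset (Fin n))ᶜ) => (x : Fin n))
          (fun x : ↥(({i} : Finset (Fin n))ᶜ) => (x : Fin n))).submatrix (ej i j hij) (ej i j hij) := by
    have h1 : ∀ o, eij i j hij (some o) = ((ej i j hij o : ↥(({i} : Finset (Fin n))ᶜ)) : Fin n) := by
      intro o
      rcases o with _ | x <;> rfl
    ext a b
    simp only [submatrix_apply, h1]
  rw [e1, CholB.permanent_reindex] at h
  have e2 : Complex.normSq ((A.submatrix (eij i j hij) (eij i j hij)) (some none) none) = row A i j := by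
    rw [row_symm A hA]
    exact Complex.normSq_eq_norm_sq _
  rw [e2] at h
  exact h

end TwoVertex

/-- a minimal counterexample, with the minimality and the two vertex inequality -/
structure CE2 {n : ℕ} (A : Matrix (Fin n) (Fin n) ℂ) : Prop extends CE A where
  min : ∀ U : Finset (Fin n), U.Nonempty →
    ∑ k ∈ Uᶜ, F (rest (row A k) U) ≤ 2 * Real.log (S A Uᶜ)
  n1 : ∀ i j : Fin n, i ≠ j →
    (1 - row A i j) * Real.exp (-((F (row A i) + (F (row A j) - F (rest (row A j) {i}))
        + ∑ k ∈ {i, j}ᶜ, omg (row A i k)) / 2))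
      + 2 * row A i j * Real.exp (-((F (row A i) + F (row A j)
        + ∑ k ∈ {i, j}ᶜ, (omg (row A i k) + omg (row A j k))) / 2)) < 1

/-- minimality -/
theorem exists_min (n : ℕ) (A : Matrix (Fin n) (Fin n) ℂ) (hA : A.PosSemidef) (hd : ∀ i, A i i = 1)
    (hlt : 2 * Real.log A.permanent.re < ∑ i, F (row A i)) :
    ∃ (m : ℕ) (B : Matrix (Fin m) (Fin m) ℂ), B.PosSemidef ∧ (∀ i, B i i = 1) ∧
      2 * Real.log B.permanent.re < ∑ i, F (row B i) ∧
      ∀ U : Finset (Fin m), U.Nonempty → ∑ k ∈ Uᶜ, F (rest (row B k) U) ≤ 2 * Real.log (S B Uᶜ) := by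
  classical
  let P : ℕ → Prop := fun m => ∃ B : Matrix (Fin m) (Fin m) ℂ, B.PosSemidef ∧ (∀ i, B i i = 1) ∧
    2 * Real.log B.permanent.re < ∑ i, F (row B i)
  have hP : ∃ m, P m := ⟨n, A, hA, hd, hlt⟩
  obtain ⟨m, hPm, hmin'⟩ : ∃ m, P m ∧ ∀ k < m, ¬ P k :=
    ⟨Nat.find hP, Nat.find_spec hP, fun k hk => Nat.find_min hP hk⟩
  obtain ⟨B, hB, hBd, hBlt⟩ := hPm
  refine ⟨m, B, hB, hBd, hBlt, fun U hU => ?_⟩
  -- the smaller matrix
  set V : Finset (Fin m) := Uᶜ with hV
  have hcard : V.card < m := by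
    have h1 : U.card + V.card = m := by
      rw [hV, Finset.card_add_card_compl, Fintype.card_fin]
    have h2 : 0 < U.card := Finset.card_pos.mpr hU
    omega
  let e : Fin V.card ≃ V := (V.equivFin).symm
  let f : Fin V.card ↪ Fin m := e.toEmbedding.trans ⟨fun x => (x : Fin m), Subtype.val_injective⟩
  have hfV : ∀ a, f a ∈ V := fun a => (e a).2
  have hrange : ∀ j, j ∉ Set.range f → j ∉ V := by
    intro j hj hjV
    exact hj ⟨e.symm ⟨j, hjV⟩, by simp [f]⟩
  let C : Matrix (Fin V.card) (Fin V.card) ℂ := B.submatrix f f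
  have hC : C.PosSemidef := hB.submatrix f
  have hCd : ∀ i, C i i = 1 := fun i => hBd _
  have hmin : ∑ i, F (row C i) ≤ 2 * Real.log C.permanent.re := by
    by_contra hcon
    push Not at hcon
    exact hmin' _ hcard ⟨C, hC, hCd, hcon⟩
  have hCS : C.permanent.re = S B V := by
    unfold S
    have h1 : C = (B.submatrix (fun i : V => (i : Fin m)) (fun i : V => (i : Fin m))).submatrix e e :=
      rfl
    rw [h1, CholB.permanent_reindex]
  have hCF : ∀ a, F (row C a) = F (rest (row B (f a)) U) := by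
    intro a
    have h1 : row C a = fun c => rest (row B (f a)) U (f c) := by
      funext c
      have h2 : f c ∉ U := Finset.mem_compl.mp (hfV c)
      show ‖B (f a) (f c)‖ ^ 2 = rest (row B (f a)) U (f c)
      unfold rest
      rw [if_neg h2]
      rfl
    rw [h1]
    refine F_emb f _ fun j hj => ?_
    have h3 : j ∈ U := by
      have := hrange j hj
      rw [hV, Finset.mem_compl, not_not] at this
      exact this
    unfold rest
    rw [if_pos h3]
  have hsumV : ∑ a, F (row C a) = ∑ k ∈ V, F (rest (row B k) U) := by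
    rw [Finset.sum_congr rfl fun a _ => hCF a]
    have h1 : ∑ a, F (rest (row B (f a)) U) = ∑ x : V, F (rest (row B (x : Fin m)) U) :=
      Fintype.sum_equiv e _ _ fun a => rfl
    rw [h1, Finset.sum_coe_sort V (fun k => F (rest (row B k) U))]
  rw [hCS, hsumV] at hmin
  exact hmin

section Derive

variable {n : ℕ} (A : Matrix (Fin n) (Fin n) ℂ)

/-- loss of a row outside `U` -/
lemma loss (hA : A.PosSemidef) (hd : ∀ i, A i i = 1) (U : Finset (Fin n)) (k : Fin n) (hk : k ∉ U) :
    F (row A k) ≤ F (rest (row A k) U) + ∑ i ∈ U, omg (row A i k) := by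
  have h := F_rest_le' (row A k) (row_nonneg A k) (row_le_one A hA hd k) k (row_diag A hd k) U hk
  refine h.trans (le_of_eq ?_)
  congr 1
  refine Finset.sum_congr rfl fun i _ => ?_
  rw [row_symm A hA]
  rfl

/-- `NR_U` from the minimality -/
lemma nr_of_min (hA : A.PosSemidef) (hd : ∀ i, A i i = 1)
    (hlt : 2 * Real.log A.permanent.re < ∑ i, F (row A i)) (U : Finset (Fin n))
    (hmin : ∑ k ∈ Uᶜ, F (rest (row A k) U) ≤ 2 * Real.log (S A Uᶜ)) :
    2 * Real.log (S A U) < ∑ i ∈ U, (F (row A i) + ∑ k ∈ Uᶜ, omg (row A i k)) := by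
  have hdisj : Disjoint U Uᶜ := disjoint_compl_right
  have hL := CholB.lieb2 A hA hd U Uᶜ hdisj
  have hSU := one_le_S A hA hd U
  have hSV := one_le_S A hA hd Uᶜ
  have hlog : Real.log (S A U) + Real.log (S A Uᶜ) ≤ Real.log A.permanent.re := by
    rw [← Real.log_mul (by linarith) (by linarith)]
    exact Real.log_le_log (mul_pos (by linarith) (by linarith)) hL
  have h5 := Finset.sum_le_sum (fun k hk => loss A hA hd U k (Finset.mem_compl.mp hk) :
    ∀ k ∈ Uᶜ, F (row A k) ≤ F (rest (row A k) U) + ∑ i ∈ U, omg (row A i k))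
  have hsplit : ∑ i, F (row A i) = ∑ i ∈ U, F (row A i) + ∑ k ∈ Uᶜ, F (row A k) :=
    (Finset.sum_add_sum_compl U _).symm
  rw [Finset.sum_add_distrib] at h5
  have h6 : ∑ k ∈ Uᶜ, ∑ i ∈ U, omg (row A i k) = ∑ i ∈ U, ∑ k ∈ Uᶜ, omg (row A i k) :=
    Finset.sum_comm
  rw [Finset.sum_add_distrib]
  linarith

/-- the two vertex inequality from the minimality -/
lemma n1_of_min (hA : A.PosSemidef) (hd : ∀ i, A i i = 1)
    (hlt : 2 * Real.log A.permanent.re < ∑ i, F (row A i)) (i j : Fin n) (hij : i ≠ j)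
    (hmin1 : ∑ k ∈ {i}ᶜ, F (rest (row A k) {i}) ≤ 2 * Real.log (S A {i}ᶜ))
    (hmin2 : ∑ k ∈ {i, j}ᶜ, F (rest (row A k) {i, j}) ≤ 2 * Real.log (S A {i, j}ᶜ)) :
    (1 - row A i j) * Real.exp (-((F (row A i) + (F (row A j) - F (rest (row A j) {i}))
        + ∑ k ∈ {i, j}ᶜ, omg (row A i k)) / 2))
      + 2 * row A i j * Real.exp (-((F (row A i) + F (row A j)
        + ∑ k ∈ {i, j}ᶜ, (omg (row A i k) + omg (row A j k))) / 2)) < 1 := by
  classical
  set tot : ℝ := ∑ k, F (row A k) with htot
  have hP1 : 1 ≤ A.permanent.re := CholB.one_le_permanent A hA hd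
  have hP : A.permanent.re < Real.exp (tot / 2) := by
    rw [← Real.log_lt_iff_lt_exp (by linarith)]; linarith
  have hS1 := one_le_S A hA hd {i}ᶜ
  have hS2 := one_le_S A hA hd {i, j}ᶜ
  -- the two smaller sets
  have hic : ({i}ᶜ : Finset (Fin n)) = insert j ({i, j}ᶜ) := by
    ext x
    simp only [Finset.mem_compl, Finset.mem_singleton, Finset.mem_insert, not_or]
    constructor
    · intro hx
      by_cases h : x = j
      · exact Or.inl h
      · exact Or.inr ⟨hx, h⟩
    · rintro (h | h)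
      · rw [h]; exact hij.symm
      · exact h.1
  have hjn : j ∉ ({i, j}ᶜ : Finset (Fin n)) := by simp
  have hin : i ∉ ({i}ᶜ : Finset (Fin n)) := by simp
  have hsum : tot = F (row A i) + (F (row A j) + ∑ k ∈ {i, j}ᶜ, F (row A k)) := by
    rw [htot, ← Finset.sum_add_sum_compl {i}, Finset.sum_singleton, hic, Finset.sum_insert hjn]
  have h1 : tot - (F (row A i) + (F (row A j) - F (rest (row A j) {i}))
      + ∑ k ∈ {i, j}ᶜ, omg (row A i k)) ≤ 2 * Real.log (S A {i}ᶜ) := by
    refine le_trans ?_ hmin1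
    rw [hic, Finset.sum_insert hjn, hsum]
    have h3 : ∑ k ∈ {i, j}ᶜ, F (row A k) ≤ ∑ k ∈ {i, j}ᶜ, (F (rest (row A k) {i}) + omg (row A i k)) := by
      refine Finset.sum_le_sum fun k hk => ?_
      have hk' : k ∉ ({i} : Finset (Fin n)) := by
        simp only [Finset.mem_compl, Finset.mem_insert, not_or] at hk
        simpa using hk.1
      have := loss A hA hd {i} k hk'
      rwa [Finset.sum_singleton] at this
    rw [Finset.sum_add_distrib] at h3
    linarith
  have h2 : tot - (F (row A i) + F (row A j)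
      + ∑ k ∈ {i, j}ᶜ, (omg (row A i k) + omg (row A j k))) ≤ 2 * Real.log (S A {i, j}ᶜ) := by
    refine le_trans ?_ hmin2
    rw [hsum]
    have h3 : ∑ k ∈ {i, j}ᶜ, F (row A k)
        ≤ ∑ k ∈ {i, j}ᶜ, (F (rest (row A k) {i, j}) + (omg (row A i k) + omg (row A j k))) := by
      refine Finset.sum_le_sum fun k hk => ?_
      have := loss A hA hd {i, j} k (Finset.mem_compl.mp hk)
      rwa [Finset.sum_pair hij] at this
    rw [Finset.sum_add_distrib] at h3
    linarith
  set a := (F (row A i) + (F (row A j) - F (rest (row A j) {i})) + ∑ k ∈ {i, j}ᶜ, omg (row A i k))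
  set b := (F (row A i) + F (row A j) + ∑ k ∈ {i, j}ᶜ, (omg (row A i k) + omg (row A j k)))
  have h1' : Real.exp (tot / 2) * Real.exp (-(a / 2)) ≤ S A {i}ᶜ := by
    rw [← Real.exp_add, ← Real.le_log_iff_exp_le (by linarith)]
    linarith
  have h2' : Real.exp (tot / 2) * Real.exp (-(b / 2)) ≤ S A {i, j}ᶜ := by
    rw [← Real.exp_add, ← Real.le_log_iff_exp_le (by linarith)]
    linarith
  have hr0 := row_nonneg A i j
  have hr1 := row_le_one A hA hd i j
  have h3 := two_vertex A hA hd i j hij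
  have hE := Real.exp_pos (tot / 2)
  have h4 : Real.exp (tot / 2) * ((1 - row A i j) * Real.exp (-(a / 2))
      + 2 * row A i j * Real.exp (-(b / 2))) < Real.exp (tot / 2) * 1 := by
    have h5 := mul_le_mul_of_nonneg_left h1' (sub_nonneg.mpr hr1)
    have h6 := mul_le_mul_of_nonneg_left h2' (mul_nonneg zero_le_two hr0)
    calc _ = (1 - row A i j) * (Real.exp (tot / 2) * Real.exp (-(a / 2)))
          + 2 * row A i j * (Real.exp (tot / 2) * Real.exp (-(b / 2))) := by ring
      _ ≤ (1 - row A i j) * S A ({i}ᶜ) + 2 * row A i j * S A ({i, j}ᶜ) := add_le_add h5 h6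
      _ ≤ A.permanent.re := h3
      _ < Real.exp (tot / 2) := hP
      _ = _ := (mul_one _).symm
  exact lt_of_mul_lt_mul_left h4 hE.le

end Derive

theorem exists_CE2 (n : ℕ) (A : Matrix (Fin n) (Fin n) ℂ) (hA : A.PosSemidef) (hd : ∀ i, A i i = 1)
    (hlt : 2 * Real.log A.permanent.re < ∑ i, F (row A i)) :
    ∃ (m : ℕ) (B : Matrix (Fin m) (Fin m) ℂ), CE2 B := by
  obtain ⟨m, B, hB, hBd, hBlt, hmin⟩ := exists_min n A hA hd hlt
  refine ⟨m, B, ⟨⟨hB, hBd, hBlt, fun U hU => nr_of_min B hB hBd hBlt U (hmin U hU)⟩, hmin, ?_⟩⟩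
  intro i j hij
  exact n1_of_min B hB hBd hBlt i j hij (hmin {i} (Finset.singleton_nonempty i))
    (hmin {i, j} (Finset.insert_nonempty i {j}))

/-- THE REDUCTION: Chollet's conjecture follows if there is no minimal counterexample. -/
theorem chollet_of_no_CE2 (H : ∀ (n : ℕ) (A : Matrix (Fin n) (Fin n) ℂ), ¬ CE2 A)
    (n : ℕ) (A B : Matrix (Fin n) (Fin n) ℂ) (hA : A.PosSemidef) (hB : B.PosSemidef) :
    (A ⊙ B).permanent ≤ A.permanent * B.permanent := by
  have h1 : ∀ (n : ℕ) (A : Matrix (Fin n) (Fin n) ℂ), A.PosSemidef → (∀ i, A i i = 1) →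
      (A ⊙ Aᵀ).permanent.re ≤ A.permanent.re ^ 2 := by
    intro n A hA hd
    refine conj_of_row A hA hd ?_
    by_contra hcon
    push Not at hcon
    obtain ⟨m, B, hB⟩ := exists_CE2 n A hA hd hcon
    exact H m B hB
  have h2 := chollet_reduction 1 zero_le_one (fun A hA => by
    rw [one_mul]; exact conj_general h1 n A hA) A B hA hB
  simpa using h2

end Fr
end Pool.Agent.Lib.MP_6947cd_al
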