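import Pool.Agent.Lib.MP_6947cd_al.T.Loss

/-!
Problem MP_6947cd_al (Chollet).  The row function of a light row.
-/

set_option autoImplicit false
open scoped Matrix
open Matrix Finset

namespace Pool.Agent.Lib.MP_6947cd_al
namespace Ent

variable {κ : Type} [Fintype κ] [DecidableEq κ]

/-- at the maximum the value is the bracket of the diagonal -/
theorem F_eq_bracket (b p : κ → ℝ) (hp : p ∈ adm b) (hv : val b p = F b) (i : κ)
    (hpi : 0 < p i) : F b = Real.log (b i) - Real.log (p i) + ell Finset.univ p i := by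
  rw [← hv]
  unfold val
  have h1 : ∀ j, p j * (Real.log (b j) - Real.log (p j) + ell Finset.univ p j)
      = p j * (Real.log (b i) - Real.log (p i) + ell Finset.univ p i) := by
    intro j
    by_cases hij : i = j
    · rw [hij]
    rcases eq_or_lt_of_le (hp.1 j) with h0 | h0
    · rw [← h0]; simp
    · rw [kkt b p hp hv i j hij hpi h0]
  rw [Finset.sum_congr rfl fun j _ => h1 j, ← Finset.sum_mul, hp.2.1, one_mul]

/-- the value of the diagonal bracket in terms of the mass outside the diagonal -/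
noncomputable def Pc (y : ℝ) : ℝ := y / 2 - y ^ 2 / 6 + y ^ 3 / 12

theorem Pc_mono {x y : ℝ} (hxy : x ≤ y) : Pc x ≤ Pc y := by
  unfold Pc
  have h : 0 ≤ y - x := by linarith
  have e : y / 2 - y ^ 2 / 6 + y ^ 3 / 12 - (x / 2 - x ^ 2 / 6 + x ^ 3 / 12)
      = (y - x) * (1 / 2 - (x + y) / 6 + (x ^ 2 + x * y + y ^ 2) / 12) := by ring
  have h2 : 0 ≤ 1 / 2 - (x + y) / 6 + (x ^ 2 + x * y + y ^ 2) / 12 := by
    nlinarith [sq_nonneg (x + y - 4 / 3), sq_nonneg (x - y)]
  nlinarith [mul_nonneg h h2]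

theorem log_one_add_le3 {z : ℝ} (hz : 0 ≤ z) : Real.log (1 + z) ≤ z - z ^ 2 / 2 + z ^ 3 / 3 := by
  have hm : MonotoneOn (fun t : ℝ => t - t ^ 2 / 2 + t ^ 3 / 3 - Real.log (1 + t)) (Set.Ici 0) := by
    have hd : ∀ x : ℝ, 0 ≤ x → HasDerivAt
        (fun t : ℝ => t - t ^ 2 / 2 + t ^ 3 / 3 - Real.log (1 + t)) (x ^ 3 / (1 + x)) x := by
      intro x hx
      have h3 : HasDerivAt (fun t : ℝ => 1 + t) 1 x := (hasDerivAt_id x).const_add 1
      have hne : (1 : ℝ) + x ≠ 0 := by linarith
      have h1 := ((((hasDerivAt_id x).sub ((hasDerivAt_pow 2 x).div_const 2)).add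
        ((hasDerivAt_pow 3 x).div_const 3)).sub (h3.log hne))
      refine h1.congr_deriv ?_
      push_cast
      field_simp
      ring
    refine monotoneOn_of_deriv_nonneg (convex_Ici 0)
      (fun x hx => (hd x hx).continuousAt.continuousWithinAt)
      (fun x hx => ?_) fun x hx => ?_
    · rw [interior_Ici] at hx
      exact (hd x (le_of_lt hx)).differentiableAt.differentiableWithinAt
    · rw [interior_Ici] at hx
      have hx' : (0 : ℝ) < x := hx
      rw [(hd x (le_of_lt hx)).deriv]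
      positivity
  have h := hm (Set.mem_Ici.mpr le_rfl) (Set.mem_Ici.mpr hz) hz
  simp only [add_zero, Real.log_one] at h
  norm_num at h
  linarith

/-- The row function of a row of total `β` is at most `Pc (β ^ 2)`. -/
theorem F_le_Pc (b : κ → ℝ) (hb0 : ∀ j, 0 ≤ b j) (hb1 : ∀ j, b j ≤ 1) (i : κ) (hi : b i = 1) :
    F b ≤ Pc ((∑ j ∈ Finset.univ.erase i, b j) ^ 2) := by
  obtain ⟨p, hp, hv, hmax, hpi⟩ := exists_max b hb1 hb0 i hi
  have htot := total_le b p hp hv i hi hb0 hpi hmax
  refine le_trans ?_ (Pc_mono htot)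
  rw [F_eq_bracket b p hp hv i hpi, hi, Real.log_one]
  set y := 1 / p i - 1 with hy
  have hle : p i ≤ 1 := by
    have := Finset.single_le_sum (fun k _ => hp.1 k) (Finset.mem_univ i)
    rw [hp.2.1] at this
    exact this
  have hy0 : 0 ≤ y := by
    rw [hy, sub_nonneg, le_div_iff₀ hpi]
    linarith
  have hsum : ∑ k ∈ Finset.univ.erase i, p k = 1 - p i := by
    have := Finset.add_sum_erase Finset.univ p (Finset.mem_univ i)
    rw [hp.2.1] at this
    linarith
  have h1 := ell_le_split Finset.univ p i (Finset.mem_univ i) (fun k _ => hp.1 k) hpi ∅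
    (Finset.univ.erase i) (Finset.disjoint_empty_left _) (Finset.empty_union _)
  have h2 : ∫ u in (0 : ℝ)..1, bern u (∅ : Finset κ)
      (fun K => Real.log (p i + ∑ k ∈ K, p k + u * ∑ k ∈ Finset.univ.erase i, p k))
      = ∫ u in (0 : ℝ)..1, (Real.log (p i) + Real.log (1 + u * y)) := by
    refine intervalIntegral.integral_congr fun u hu => ?_
    rw [Set.uIcc_of_le zero_le_one] at hu
    have hu0 : 0 ≤ u := hu.1
    show bern u (∅ : Finset κ) _ = _
    rw [bern_empty, Finset.sum_empty, add_zero, hsum,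
      ← Real.log_mul hpi.ne' (by positivity : (1 + u * y) ≠ 0)]
    congr 1
    rw [hy]
    field_simp
  rw [h2] at h1
  have hc : IntervalIntegrable (fun u : ℝ => Real.log (1 + u * y)) MeasureTheory.volume 0 1 := by
    refine ContinuousOn.intervalIntegrable ?_
    rw [Set.uIcc_of_le zero_le_one]
    refine ContinuousOn.log (by fun_prop) fun u hu => ?_
    have := mul_nonneg hu.1 hy0
    linarith
  rw [intervalIntegral.integral_add (by simp) hc, intervalIntegral.integral_const] at h1
  have h3 : ∫ u in (0 : ℝ)..1, Real.log (1 + u * y)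
      ≤ ∫ u in (0 : ℝ)..1, (u * y - (u * y) ^ 2 / 2 + (u * y) ^ 3 / 3) := by
    refine intervalIntegral.integral_mono_on zero_le_one hc
      (Continuous.intervalIntegrable (by fun_prop) _ _) fun u hu => ?_
    exact log_one_add_le3 (mul_nonneg hu.1 hy0)
  have h4 : ∫ u in (0 : ℝ)..1, (u * y - (u * y) ^ 2 / 2 + (u * y) ^ 3 / 3) = Pc y := by
    have hd : ∀ u ∈ Set.uIcc (0 : ℝ) 1, HasDerivAt
        (fun u : ℝ => u ^ 2 / 2 * y - u ^ 3 / 3 * (y ^ 2 / 2) + u ^ 4 / 4 * (y ^ 3 / 3))
        (u * y - (u * y) ^ 2 / 2 + (u * y) ^ 3 / 3) u := by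
      intro u _
      have h := ((((hasDerivAt_pow 2 u).div_const 2).mul_const y).sub
        (((hasDerivAt_pow 3 u).div_const 3).mul_const (y ^ 2 / 2))).add
        (((hasDerivAt_pow 4 u).div_const 4).mul_const (y ^ 3 / 3))
      refine h.congr_deriv ?_
      push_cast
      ring
    rw [intervalIntegral.integral_eq_sub_of_hasDerivAt hd
      (Continuous.intervalIntegrable (by fun_prop) _ _)]
    unfold Pc
    ring
  simp only [sub_zero, one_smul] at h1
  linarith

end Ent
end Pool.Agent.Lib.MP_6947cd_al
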