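import Pool.Agent.Lib.MP_6947cd_al.T.Frame2
import Pool.Agent.Lib.MP_6947cd_al.W.Light

/-!
Problem MP_6947cd_al (Chollet).  Theorem S in a minimal counterexample with `θ = 9/10` on the light
rows (`β ≤ 3/10`) and `θ = 1` on the other rows.
-/

set_option autoImplicit false
open scoped Matrix ComplexOrder
open Matrix Finset

namespace Pool.Agent.Lib.MP_6947cd_al
namespace Fr

open Ent CholB.WM

variable {n : ℕ}

/-- the total of a row -/
noncomputable def tot (A : Matrix (Fin n) (Fin n) ℂ) (i : Fin n) : ℝ :=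
  ∑ j ∈ univ.erase i, row A i j

open Classical in
/-- the heavy rows -/
noncomputable def heavy (A : Matrix (Fin n) (Fin n) ℂ) : Finset (Fin n) :=
  univ.filter fun i => 3 / 10 < tot A i

open Classical in
/-- the parameter `θ` of a row -/
noncomputable def thr (A : Matrix (Fin n) (Fin n) ℂ) (i : Fin n) : ℝ :=
  if 3 / 10 < tot A i then 1 else 9 / 10

/-- the weighted total of a row -/
noncomputable def xi (A : Matrix (Fin n) (Fin n) ℂ) (i : Fin n) : ℝ :=
  ∑ j ∈ univ.erase i, row A i j * thr A j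

/-- lower bound of the row value of a heavy row -/
noncomputable def wmax (ξ : ℝ) : ℝ := max (max (w0 ξ) (wh ξ)) (wt ξ)

theorem wmax_mono {a b : ℝ} (ha : 0 ≤ a) (hab : a ≤ b) : wmax a ≤ wmax b := by
  have hb := ha.trans hab
  exact max_le_max (max_le_max (w0_mono ha hb hab) (wh_mono ha hb hab)) (wt_mono ha hb hab)

lemma thr_mem (A : Matrix (Fin n) (Fin n) ℂ) (i : Fin n) : 9 / 10 ≤ thr A i ∧ thr A i ≤ 1 := by
  unfold thr
  split_ifs <;> norm_num

lemma tot_nonneg (A : Matrix (Fin n) (Fin n) ℂ) (i : Fin n) : 0 ≤ tot A i :=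
  Finset.sum_nonneg fun j _ => row_nonneg A i j

lemma xi_nonneg (A : Matrix (Fin n) (Fin n) ℂ) (i : Fin n) : 0 ≤ xi A i :=
  Finset.sum_nonneg fun j _ => mul_nonneg (row_nonneg A i j) (by have := (thr_mem A j).1; linarith)

/-- THEOREM S, reduced to the heavy rows -/
theorem CE.heavy_sum {A : Matrix (Fin n) (Fin n) ℂ} (h : CE A) :
    0 < ∑ i ∈ heavy A, (F (row A i) - 2 * wmax (xi A i)) := by
  classical
  -- the value of `τ` for a heavy row
  have hτex : ∀ ξ : ℝ, 0 ≤ ξ → ∃ τ : ℝ, (0 ≤ τ ∧ τ ≤ 1) ∧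
      wmax ξ ≤ CholB.Wrow 1 τ ((1 + ξ) / 2) := by
    intro ξ hξ
    unfold wmax
    rcases le_total (max (w0 ξ) (wh ξ)) (wt ξ) with h1 | h1
    · exact ⟨3 / 4, by norm_num, by rw [max_eq_right h1]; exact wt_le hξ⟩
    · rw [max_eq_left h1]
      rcases le_total (w0 ξ) (wh ξ) with h2 | h2
      · exact ⟨1 / 2, by norm_num, by rw [max_eq_right h2]; exact wh_le hξ⟩
      · exact ⟨0, by norm_num, by rw [max_eq_left h2]; exact w0_le hξ⟩
  choose! τH hτH1 hτH2 using hτex
  let τ : Fin n → ℝ := fun i => if 3 / 10 < tot A i then τH (xi A i) else tauL (xi A i / (9 / 10))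
  have hS := h.thmS (thr A) τ
    (fun i => ⟨by have := (thr_mem A i).1; linarith, (thr_mem A i).2⟩)
    (fun i => by
      show 0 ≤ (if 3 / 10 < tot A i then τH (xi A i) else tauL (xi A i / (9 / 10))) ∧
        (if 3 / 10 < tot A i then τH (xi A i) else tauL (xi A i / (9 / 10))) ≤ 1
      split_ifs
      · exact hτH1 _ (xi_nonneg A i)
      · exact tauL_mem _)
  have hx : ∀ i, ∑ j, row A i j * (thr A j / 2) = (thr A i + xi A i) / 2 := by
    intro i
    rw [← Finset.add_sum_erase _ _ (Finset.mem_univ i), row_diag A h.diag i]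
    unfold xi
    rw [add_div, Finset.sum_div]
    congr 1
    · ring
    · exact Finset.sum_congr rfl fun j _ => by ring
  refine lt_of_lt_of_le hS ?_
  rw [← Finset.sum_filter_add_sum_filter_not univ (fun i => 3 / 10 < tot A i)]
  have hlight : ∑ i ∈ univ.filter (fun i => ¬ 3 / 10 < tot A i),
      (F (row A i) - 2 * CholB.Wrow (thr A i) (τ i) (∑ j, row A i j * (thr A j / 2))) ≤ 0 := by
    refine Finset.sum_nonpos fun i hi => ?_
    have hi' : ¬ 3 / 10 < tot A i := (Finset.mem_filter.mp hi).2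
    have hth : thr A i = 9 / 10 := by unfold thr; rw [if_neg hi']
    have hτi : τ i = tauL (xi A i / (9 / 10)) := if_neg hi'
    rw [hx i, hth, hτi]
    have e : (9 / 10 + xi A i) / 2 = 9 / 20 * (1 + xi A i / (9 / 10)) := by ring
    rw [e]
    have hup : xi A i ≤ tot A i := by
      refine Finset.sum_le_sum fun j _ => ?_
      nlinarith [row_nonneg A i j, (thr_mem A j).2]
    have hlo : 9 / 10 * tot A i ≤ xi A i := by
      unfold tot xi
      rw [Finset.mul_sum]
      refine Finset.sum_le_sum fun j _ => ?_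
      nlinarith [row_nonneg A i j, (thr_mem A j).1]
    have := light_row (row A i) (row_nonneg A i) (row_le_one A h.psd h.diag i) i
      (row_diag A h.diag i) (xi A i / (9 / 10)) (not_lt.mp hi') (by
        show tot A i ≤ _
        linarith) (by
        show _ ≤ 10 / 9 * tot A i
        linarith)
    linarith
  have hheavy : ∑ i ∈ univ.filter (fun i => 3 / 10 < tot A i),
      (F (row A i) - 2 * CholB.Wrow (thr A i) (τ i) (∑ j, row A i j * (thr A j / 2)))
      ≤ ∑ i ∈ heavy A, (F (row A i) - 2 * wmax (xi A i)) := by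
    have e : heavy A = univ.filter (fun i => 3 / 10 < tot A i) := by
      unfold heavy
      congr
    rw [e]
    refine Finset.sum_le_sum fun i hi => ?_
    have hi' : 3 / 10 < tot A i := (Finset.mem_filter.mp hi).2
    have hth : thr A i = 1 := by unfold thr; rw [if_pos hi']
    have hτi : τ i = τH (xi A i) := if_pos hi'
    rw [hx i, hth, hτi]
    have := hτH2 _ (xi_nonneg A i)
    linarith
  linarith

end Fr
end Pool.Agent.Lib.MP_6947cd_al
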