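import Pool.Agent.Lib.MP_6947cd_al.W.SlopeW
import Pool.Agent.Lib.MP_6947cd_al.T.Frame4
import Pool.Agent.Lib.MP_6947cd_al.T.Heavy

/-!
Problem MP_6947cd_al (Chollet).  Theorem S in row-only form.
-/

set_option autoImplicit false
open scoped Matrix ComplexOrder
open Matrix Finset

namespace Pool.Agent.Lib.MP_6947cd_al
namespace Fr

open Ent CholB.WM

/-- the parameter `θ` of a row with off-diagonal sum `s` -/
noncomputable def thW (s : ℝ) : ℝ := if s ≤ 21 / 50 then 17 / 20 else if s ≤ 4 / 5 then 19 / 20 else 1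

/-- the parameter `τ` of a row with off-diagonal sum `s` -/
noncomputable def taW (s : ℝ) : ℝ :=
  if s ≤ 1 / 20 then 17 / 20 else if s ≤ 1 / 5 then 3 / 4 else if s ≤ 3 / 5 then 3 / 5
  else if s ≤ 6 / 5 then 1 / 2 else 1 / 4

/-- the row value -/
noncomputable def What (s : ℝ) : ℝ :=
  2 * CholB.Wrow (thW s) (taW s) ((thW s + s) / 2) - 31 / 100 * ((1 - thW s) * s)

lemma thW_mem (s : ℝ) : 17 / 20 ≤ thW s ∧ thW s ≤ 1 := by
  unfold thW
  split_ifs <;> norm_num

lemma taW_mem (s : ℝ) : 0 ≤ taW s ∧ taW s ≤ 1 := by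
  unfold taW
  split_ifs <;> norm_num

lemma slope_lt {θ τ a b : ℝ} (h0 : 0 < θ) (h1 : θ < 1) (hτ : 0 ≤ τ) (ha : 0 ≤ a)
    (h : ∀ ξ, a ≤ ξ → ξ ≤ b → 2 * Wd θ τ ξ ≤ 31 / 100 * θ) (u s : ℝ) (h2 : a * θ ≤ u)
    (h3 : u ≤ s) (h4 : s ≤ b * θ) :
    2 * CholB.Wrow θ τ ((θ + s) / 2) - 31 / 100 * (s - u) ≤ 2 * CholB.Wrow θ τ ((θ + u) / 2) := by
  have hw := Wrow_slope (lam := 31 / 100) h0 h1 hτ ha h (u / θ) (s / θ)
    ((le_div_iff₀ h0).mpr h2) (div_le_div_of_nonneg_right h3 h0.le) ((div_le_iff₀ h0).mpr h4)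
  have e : ∀ v : ℝ, θ / 2 * (1 + v / θ) = (θ + v) / 2 := by
    intro v
    field_simp
  have e2 : ∀ v : ℝ, θ * (1 + v / θ) = θ + v := by
    intro v
    field_simp
  rw [e, e, e2, e2] at hw
  linarith

theorem slope_all (s u : ℝ) (hs : 0 ≤ s) (h1 : 17 / 20 * s ≤ u) (h2 : u ≤ s) :
    2 * CholB.Wrow (thW s) (taW s) ((thW s + s) / 2) - 31 / 100 * (s - u)
      ≤ 2 * CholB.Wrow (thW s) (taW s) ((thW s + u) / 2) := by
  unfold thW taW
  by_cases c0 : s ≤ 1 / 20
  · rw [if_pos (by linarith : s ≤ 21 / 50), if_pos c0]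
    exact slope_lt (a := 0) (b := 1 / 17) (by norm_num) (by norm_num) (by norm_num) le_rfl
      (fun ξ h3 h4 => slope0 ξ h3 h4) u s (by linarith) h2 (by linarith)
  rw [if_neg c0]
  by_cases c1 : s ≤ 1 / 5
  · rw [if_pos (by linarith : s ≤ 21 / 50), if_pos c1]
    exact slope_lt (a := 0) (b := 4 / 17) (by norm_num) (by norm_num) (by norm_num) le_rfl
      (fun ξ h3 h4 => slope1 ξ h3 h4) u s (by linarith) h2 (by linarith)
  rw [if_neg c1]
  push Not at c1
  by_cases c2 : s ≤ 21 / 50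
  · rw [if_pos c2, if_pos (by linarith : s ≤ 3 / 5)]
    exact slope_lt (a := 1 / 5) (b := 42 / 85) (by norm_num) (by norm_num) (by norm_num)
      (by norm_num) (fun ξ h3 h4 => slope2 ξ h3 h4) u s (by linarith) h2 (by linarith)
  rw [if_neg c2]
  push Not at c2
  by_cases c3 : s ≤ 3 / 5
  · rw [if_pos (by linarith : s ≤ 4 / 5), if_pos c3]
    exact slope_lt (a := 357 / 950) (b := 12 / 19) (by norm_num) (by norm_num) (by norm_num)
      (by norm_num) (fun ξ h3 h4 => slope3 ξ h3 h4) u s (by linarith) h2 (by linarith)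
  rw [if_neg c3]
  push Not at c3
  by_cases c4 : s ≤ 4 / 5
  · rw [if_pos c4, if_pos (by linarith : s ≤ 6 / 5)]
    exact slope_lt (a := 51 / 95) (b := 16 / 19) (by norm_num) (by norm_num) (by norm_num)
      (by norm_num) (fun ξ h3 h4 => slope4 ξ h3 h4) u s (by linarith) h2 (by linarith)
  rw [if_neg c4]
  push Not at c4
  by_cases c5 : s ≤ 6 / 5
  · rw [if_pos c5]
    have := Wrow_slope_one (τ := 1 / 2) (lam := 31 / 100) (a := 17 / 25) (b := 6 / 5) (by norm_num)
      (by norm_num) (fun ξ h3 h4 => slope5 ξ h3 h4) u s (by linarith) h2 c5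
    linarith
  · rw [if_neg c5]
    push Not at c5
    have := Wrow_slope_one (τ := 1 / 4) (lam := 31 / 100) (a := 51 / 50) (b := s) (by norm_num)
      (by norm_num) (fun ξ h3 _ => slope6 ξ h3) u s (by linarith) h2 le_rfl
    linarith

variable {n : ℕ} {A : Matrix (Fin n) (Fin n) ℂ} {Γ : RF}

/-- THEOREM S IN ROW-ONLY FORM, for a minimal counterexample. -/
theorem CEG.row_sum (h : CEG Γ A) :
    0 < ∑ i, (Γ.G (Fin n) (row A i) - What (tot A i)) := by
  classical
  have hS := h.thmS (fun i => thW (tot A i)) (fun i => taW (tot A i))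
    (fun i => ⟨by have := (thW_mem (tot A i)).1; linarith, (thW_mem (tot A i)).2⟩)
    (fun i => taW_mem (tot A i))
  -- the weighted total
  set u : Fin n → ℝ := fun i => ∑ j ∈ univ.erase i, row A i j * thW (tot A j) with hu
  have hx : ∀ i, ∑ j, row A i j * (thW (tot A j) / 2) = (thW (tot A i) + u i) / 2 := by
    intro i
    rw [← Finset.add_sum_erase _ _ (Finset.mem_univ i), row_diag A h.diag i, hu]
    simp only
    rw [add_div, Finset.sum_div]
    congr 1
    · ring
    · exact Finset.sum_congr rfl fun j _ => by ring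
  have ht : ∀ i, tot A i = ∑ j ∈ univ.erase i, row A i j := fun _ => rfl
  have hlo : ∀ i, 17 / 20 * tot A i ≤ u i := by
    intro i
    rw [hu, ht i]
    simp only
    rw [Finset.mul_sum]
    refine Finset.sum_le_sum fun j _ => ?_
    nlinarith [row_nonneg A i j, (thW_mem (tot A j)).1]
  have hup : ∀ i, u i ≤ tot A i := by
    intro i
    refine Finset.sum_le_sum fun j _ => ?_
    nlinarith [row_nonneg A i j, (thW_mem (tot A j)).2]
  -- exchange of the sums
  have hex : ∑ i, (tot A i - u i) = ∑ i, (1 - thW (tot A i)) * tot A i := by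
    have e1 : ∀ i, tot A i - u i = ∑ j, (if j = i then 0 else row A i j * (1 - thW (tot A j))) := by
      intro i
      rw [← Finset.add_sum_erase _ _ (Finset.mem_univ i), if_pos rfl, zero_add, ht i, hu]
      simp only
      rw [← Finset.sum_sub_distrib]
      refine Finset.sum_congr rfl fun j hj => ?_
      rw [if_neg (Finset.ne_of_mem_erase hj)]
      ring
    have e2 : ∀ j, (1 - thW (tot A j)) * tot A j
        = ∑ i, (if j = i then 0 else row A i j * (1 - thW (tot A j))) := by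
      intro j
      rw [← Finset.add_sum_erase _ _ (Finset.mem_univ j), if_pos rfl, zero_add]
      have e3 : (1 - thW (tot A j)) * tot A j
          = ∑ i ∈ univ.erase j, (1 - thW (tot A j)) * row A j i := by
        rw [← Finset.mul_sum]
        rfl
      rw [e3]
      refine Finset.sum_congr rfl fun i hi => ?_
      rw [if_neg (Finset.ne_of_mem_erase hi).symm, row_symm A h.psd j i]
      ring
    rw [Finset.sum_congr rfl fun i _ => e1 i, Finset.sum_comm]
    exact Finset.sum_congr rfl fun j _ => (e2 j).symm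
  have hkey : ∑ i, (Γ.G (Fin n) (row A i)
      - 2 * CholB.Wrow (thW (tot A i)) (taW (tot A i)) (∑ j, row A i j * (thW (tot A j) / 2)))
      ≤ ∑ i, (Γ.G (Fin n) (row A i) - What (tot A i)) := by
    have h1 : ∀ i, Γ.G (Fin n) (row A i)
        - 2 * CholB.Wrow (thW (tot A i)) (taW (tot A i)) (∑ j, row A i j * (thW (tot A j) / 2))
        ≤ (Γ.G (Fin n) (row A i) - What (tot A i))
          + (31 / 100 * (tot A i - u i) - 31 / 100 * ((1 - thW (tot A i)) * tot A i)) := by
      intro i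
      rw [hx i]
      have := slope_all (tot A i) (u i) (tot_nonneg A i) (hlo i) (hup i)
      unfold What
      linarith
    refine (Finset.sum_le_sum fun i _ => h1 i).trans (le_of_eq ?_)
    have e4 : ∑ i, (31 / 100 * (tot A i - u i) - 31 / 100 * ((1 - thW (tot A i)) * tot A i)) = 0 := by
      rw [Finset.sum_sub_distrib, ← Finset.mul_sum, ← Finset.mul_sum, hex, sub_self]
    rw [Finset.sum_add_distrib, e4, add_zero]
  exact hS.trans_le hkey

end Fr
end Pool.Agent.Lib.MP_6947cd_al
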