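import Pool.Agent.Lib.MP_6947cd_al.T.Hub
import Pool.Agent.Lib.MP_6947cd_al.W.One

/-!
Problem MP_6947cd_al (Chollet).  Rows with a large sum: the row function is below the row value minus `11/100`.
-/

set_option autoImplicit false
open scoped Matrix
open Matrix Finset

namespace Pool.Agent.Lib.MP_6947cd_al
namespace Ent

variable {κ : Type} [Fintype κ] [DecidableEq κ]

/-- value of the row with `n` off-diagonal entries `1` -/
noncomputable def Lone (n : ℕ) : ℝ := 1 / ((n : ℝ) + 1) * ∑ c ∈ Finset.range (n + 1), Real.log (1 + (c : ℝ))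

lemma F_ones (b : κ → ℝ) (i : κ) (hi : b i = 1) (U : Finset κ) (hU : Disjoint ({i} : Finset κ) U) :
    F (hub b {i} U 1) ≤ Lone U.card := by
  have hiU : i ∉ U := Finset.disjoint_singleton_left.mp hU
  have hcard : (insert i U).card = U.card + 1 := Finset.card_insert_of_notMem hiU
  refine F_le_types (α := ℕ) (hub b {i} U 1) ?_ ⟨i, ?_⟩ [0] (by simp) (fun _ => insert i U) ?_ ?_
    (fun _ => 1) (fun _ => 1) ?_ ?_ _ ?_
  · intro j
    unfold hub
    split_ifs with h1 h2
    · rw [Finset.mem_singleton.mp h1, hi]; exact zero_le_one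
    · exact zero_le_one
    · exact le_rfl
  · unfold hub
    rw [if_pos (Finset.mem_singleton_self i), hi]
    exact one_ne_zero
  · intro a ha c hc hac
    simp only [List.mem_singleton] at ha hc
    exact absurd (ha.trans hc.symm) hac
  · intro k hk
    have h := hk 0 (by simp)
    rw [Finset.mem_insert, not_or] at h
    unfold hub
    rw [if_neg (by rw [Finset.mem_singleton]; exact h.1), if_neg h.2]
  · intro a _ k hk
    unfold hub
    split_ifs with h1 h2
    · rw [Finset.mem_singleton.mp h1, hi]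
    · exact le_rfl
    · exact zero_le_one
  · intro a _; exact zero_lt_one
  · intro a ha _ _
    simp only [List.mem_singleton] at ha
    subst ha
    simp only [List.map_cons, List.map_nil, Real.log_one, sub_self, zero_add, bx, if_true]
    rw [hcard, Nat.add_sub_cancel]
    unfold Lone
    rw [Finset.mul_sum]
    refine Finset.sum_le_sum fun c hc => le_of_eq ?_
    have hcn : c ≤ U.card := Nat.lt_succ_iff.mp (Finset.mem_range.mp hc)
    have h1 : ((U.card.choose c : ℕ) : ℝ) * ((Bq c (U.card - c) : ℚ) : ℝ) = 1 / ((U.card : ℝ) + 1) := by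
      unfold Bq
      rw [show c + (U.card - c) + 1 = U.card + 1 by omega]
      push_cast
      rw [Nat.factorial_succ]
      have h2 := Nat.choose_mul_factorial_mul_factorial hcn
      have h3 : ((U.card.choose c : ℕ) : ℝ) * (c.factorial : ℝ) * ((U.card - c).factorial : ℝ)
          = (U.card.factorial : ℝ) := by exact_mod_cast h2
      have h4 : (U.card.factorial : ℝ) ≠ 0 := by exact_mod_cast Nat.factorial_ne_zero _
      have h5 : ((U.card : ℝ) + 1) ≠ 0 := by positivity
      push_cast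
      rw [mul_div_assoc', ← mul_assoc, h3]
      field_simp
    rw [← mul_assoc, h1, mul_one]

lemma Lone_le (n : ℕ) : Lone n ≤ Real.log (((n : ℝ) + 2) / 2) := by
  have hn : (0 : ℝ) < (n : ℝ) + 1 := by positivity
  have hs : ∑ c ∈ Finset.range (n + 1), (1 + (c : ℝ)) = ((n : ℝ) + 1) * (((n : ℝ) + 2) / 2) := by
    induction n with
    | zero => simp
    | succ n ih =>
      rw [Finset.sum_range_succ, ih (by positivity)]
      push_cast
      ring
  have hq : (0 : ℝ) < ((n : ℝ) + 2) / 2 := by positivity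
  have h1 : ∀ c ∈ Finset.range (n + 1), Real.log (1 + (c : ℝ)) ≤ Real.log (((n : ℝ) + 2) / 2)
      + ((1 + (c : ℝ)) / (((n : ℝ) + 2) / 2) - 1) := by
    intro c _
    have hc : (0 : ℝ) < 1 + (c : ℝ) := by positivity
    have h3 := Real.log_le_sub_one_of_pos (div_pos hc hq)
    rw [Real.log_div hc.ne' hq.ne'] at h3
    linarith
  have h2 := Finset.sum_le_sum h1
  rw [Finset.sum_add_distrib, Finset.sum_sub_distrib, ← Finset.sum_div, hs] at h2
  simp only [Finset.sum_const, Finset.card_range, nsmul_eq_mul, mul_one] at h2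
  rw [mul_div_assoc, div_self hq.ne', mul_one] at h2
  push_cast at h2
  unfold Lone
  rw [one_div, inv_mul_le_iff₀ hn]
  linarith

/-- chord bound by the total -/
theorem F_le_ones (b : κ → ℝ) (hb0 : ∀ j, 0 ≤ b j) (hb1 : ∀ j, b j ≤ 1) (i : κ) (hi : b i = 1) (n : ℕ)
    (hn : (n : ℝ) ≤ ∑ k ∈ Finset.univ.erase i, b k)
    (hn' : ∑ k ∈ Finset.univ.erase i, b k ≤ (n : ℝ) + 1) :
    F b ≤ ((n : ℝ) + 1 - ∑ k ∈ Finset.univ.erase i, b k) * Lone n
      + (∑ k ∈ Finset.univ.erase i, b k - n) * Lone (n + 1) := by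
  have e : (Finset.univ.erase i : Finset κ) = ({i} : Finset κ)ᶜ := by
    ext k; simp
  rw [e] at hn hn' ⊢
  have h := F_le_chord b hb0 hb1 i hi {i} (Finset.mem_singleton_self i) 1 zero_lt_one le_rfl
    (fun k _ => hb1 k) Lone (fun U hU => F_ones b i hi U hU) n (by linarith) (by linarith)
  rwa [div_one] at h

section Check
open IA

/-- `∑_{c ≤ n} log (1 + c)` -/
def lsE : ℕ → E
  | 0 => .cst 0 1
  | n + 1 => .add (lsE n) (.log (.cst ((n : ℤ) + 2) 1))

/-- `Lone n` -/
def loE (n : ℕ) : E := .mul (.cst 1 (n + 1)) (lsE n)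

/-- `wh` -/
def whE (s : E) : E :=
  .sub (.add (.add (.sub (.log (.div (.add (.cst 3 1) s) (.cst 4 1))) (.cst 577216 1000000))
    (.mul (.div (.cst 2 1) (.add (.cst 1 1) s)) (.log (.div (.add (.cst 3 1) s) (.cst 2 1)))))
    (.add (.log (.div (.add (.cst 4 5) s) (.add (.cst 1 1) s)))
      (.div (.cst 1 5) (.add (.cst 4 5) s))))
    (.add (.sub (.mul (.cst 2 1) (.log (.cst 5 4))) (.log (.cst 2 1))) (.cst 1 4))

/-- the tail inequality between `n` and `n + 1` -/
def taE (n : ℕ) : E :=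
  .sub (.add (.add (.mul (.sub (.cst ((n : ℤ) + 1) 1) .x0) (loE n))
    (.mul (.sub .x0 (.cst n 1)) (loE (n + 1)))) (.cst 11 100)) (.mul (.cst 2 1) (whE .x0))

/-- the tail inequality from 13 on -/
def tbE : E := .sub (.add (.log (.div (.add .x0 (.cst 3 1)) (.cst 2 1))) (.cst 11 100))
  (.mul (.cst 2 1) (whE .x0))


open T in
theorem taC6 : chk [taE 6] (s0 (s0 (d 0) (d 0)) (d 0)) ⟨6816972092211, 7696581394432⟩ ⟨0, 0⟩ ⟨0, 0⟩ = true := by decide +kernel

open T in
theorem taC7 : chk [taE 7] (d 0) ⟨7696581394432, 8796093022208⟩ ⟨0, 0⟩ ⟨0, 0⟩ = true := by decide +kernel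

open T in
theorem taC8 : chk [taE 8] (d 0) ⟨8796093022208, 9895604649984⟩ ⟨0, 0⟩ ⟨0, 0⟩ = true := by decide +kernel

open T in
theorem taC9 : chk [taE 9] (d 0) ⟨9895604649984, 10995116277760⟩ ⟨0, 0⟩ ⟨0, 0⟩ = true := by decide +kernel

open T in
theorem taC10 : chk [taE 10] (d 0) ⟨10995116277760, 12094627905536⟩ ⟨0, 0⟩ ⟨0, 0⟩ = true := by decide +kernel

open T in
theorem taC11 : chk [taE 11] (d 0) ⟨12094627905536, 13194139533312⟩ ⟨0, 0⟩ ⟨0, 0⟩ = true := by decide +kernel

open T in
theorem taC12 : chk [taE 12] (d 0) ⟨13194139533312, 14293651161088⟩ ⟨0, 0⟩ ⟨0, 0⟩ = true := by decide +kernel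

open T in
theorem tbC : chk [tbE] (s0 (s0 (s0 (s0 (d 0) (d 0)) (d 0)) (d 0)) (d 0)) ⟨14293651161088, 32985348833280⟩ ⟨0, 0⟩ ⟨0, 0⟩
    = true := by decide +kernel

/-- numerical constants -/
def tcE : E := .sub (.cst 128 100) (.log (.cst 33 8))
def tdE : E := .sub (.add (.sub (.mul (.cst 2 1) (.log (.cst 5 4))) (.log (.cst 2 1))) (.cst 1 4)) (.cst 32 10000)

theorem tcC : chk [tcE] (T.v 0) ⟨0, 0⟩ ⟨0, 0⟩ ⟨0, 0⟩ = true := by decide +kernel
theorem tdC : chk [tdE] (T.v 0) ⟨0, 0⟩ ⟨0, 0⟩ ⟨0, 0⟩ = true := by decide +kernel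

lemma lsE_ev (n : ℕ) (x y z : ℝ) : (lsE n).ev x y z = ∑ c ∈ Finset.range (n + 1), Real.log (1 + (c : ℝ)) := by
  induction n with
  | zero => simp [lsE, E.ev]
  | succ n ih =>
    rw [Finset.sum_range_succ, ← ih]
    simp only [lsE, E.ev]
    push_cast
    congr 2
    rw [div_one]
    ring

lemma loE_ev (n : ℕ) (x y z : ℝ) : (loE n).ev x y z = Lone n := by
  unfold Lone
  simp only [loE, E.ev, lsE_ev]
  push_cast
  ring

lemma whE_ev (e : E) (x y z : ℝ) : (whE e).ev x y z = CholB.WM.wh (e.ev x y z) := by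
  unfold CholB.WM.wh CholB.WM.w0
  simp only [whE, E.ev]
  push_cast
  norm_num

end Check

lemma tail_step (n : ℕ) (t : IA.T) (Xl Xh : ℤ) (h : IA.chk [taE n] t ⟨Xl, Xh⟩ ⟨0, 0⟩ ⟨0, 0⟩ = true) (s : ℝ)
    (h1 : (Xl : ℝ) ≤ s * 1099511627776) (h2 : s * 1099511627776 ≤ (Xh : ℝ)) :
    ((n : ℝ) + 1 - s) * Lone n + (s - n) * Lone (n + 1) ≤ 2 * CholB.WM.wh s - 11 / 100 := by
  obtain ⟨e, he, h⟩ := IA.chk_sound _ _ _ _ _ h s 0 0 ⟨h1, h2⟩ ⟨by simp, by simp⟩ ⟨by simp, by simp⟩
  simp only [List.mem_cons, List.not_mem_nil, or_false] at he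
  rw [he] at h
  simp only [taE, IA.E.ev, loE_ev, whE_ev] at h
  push_cast at h
  simp only [div_one] at h
  linarith

/-- TAIL LEMMA: rows with sum at least `31/5`. -/
theorem F_tail (b : κ → ℝ) (hb0 : ∀ j, 0 ≤ b j) (hb1 : ∀ j, b j ≤ 1) (i : κ) (hi : b i = 1)
    (hs : 31 / 5 ≤ ∑ k ∈ Finset.univ.erase i, b k) :
    F b ≤ 2 * CholB.WM.wh (∑ k ∈ Finset.univ.erase i, b k) - 11 / 100 := by
  set s := ∑ k ∈ Finset.univ.erase i, b k with hsdef
  have hs0 : 0 ≤ s := by linarith
  have hstep : ∀ n : ℕ, (n : ℝ) ≤ s → s ≤ (n : ℝ) + 1 →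
      F b ≤ ((n : ℝ) + 1 - s) * Lone n + (s - n) * Lone (n + 1) := fun n h1 h2 =>
    F_le_ones b hb0 hb1 i hi n h1 h2
  have e5 : (31 / 5 : ℝ) * 1099511627776 ≤ s * 1099511627776 :=
    mul_le_mul_of_nonneg_right hs (by norm_num)
  rcases le_or_gt s 7 with h7 | h7
  · refine (hstep 6 (by push_cast; linarith) (by push_cast; linarith)).trans
      (tail_step 6 _ _ _ taC6 s (by push_cast; linarith) (by push_cast; linarith))
  rcases le_or_gt s 8 with h8 | h8
  · refine (hstep 7 (by push_cast; linarith) (by push_cast; linarith)).trans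
      (tail_step 7 _ _ _ taC7 s (by push_cast; linarith) (by push_cast; linarith))
  rcases le_or_gt s 9 with h9 | h9
  · refine (hstep 8 (by push_cast; linarith) (by push_cast; linarith)).trans
      (tail_step 8 _ _ _ taC8 s (by push_cast; linarith) (by push_cast; linarith))
  rcases le_or_gt s 10 with h10 | h10
  · refine (hstep 9 (by push_cast; linarith) (by push_cast; linarith)).trans
      (tail_step 9 _ _ _ taC9 s (by push_cast; linarith) (by push_cast; linarith))
  rcases le_or_gt s 11 with h11 | h11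
  · refine (hstep 10 (by push_cast; linarith) (by push_cast; linarith)).trans
      (tail_step 10 _ _ _ taC10 s (by push_cast; linarith) (by push_cast; linarith))
  rcases le_or_gt s 12 with h12 | h12
  · refine (hstep 11 (by push_cast; linarith) (by push_cast; linarith)).trans
      (tail_step 11 _ _ _ taC11 s (by push_cast; linarith) (by push_cast; linarith))
  rcases le_or_gt s 13 with h13 | h13
  · refine (hstep 12 (by push_cast; linarith) (by push_cast; linarith)).trans
      (tail_step 12 _ _ _ taC12 s (by push_cast; linarith) (by push_cast; linarith))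
  -- large sums
  have hF : F b ≤ Real.log ((s + 3) / 2) := by
    set n := ⌊s⌋₊ with hn
    have hn1 : (n : ℝ) ≤ s := Nat.floor_le hs0
    have hn2 : s ≤ (n : ℝ) + 1 := (Nat.lt_floor_add_one s).le
    refine (hstep n hn1 hn2).trans ?_
    have hn0 : (0 : ℝ) ≤ n := Nat.cast_nonneg n
    have h1 : Lone n ≤ Real.log ((s + 3) / 2) :=
      (Lone_le n).trans (Real.log_le_log (by positivity) (by linarith))
    have h2 : Lone (n + 1) ≤ Real.log ((s + 3) / 2) := by
      refine (Lone_le (n + 1)).trans (Real.log_le_log (by positivity) ?_)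
      push_cast
      linarith
    have h3 := mul_le_mul_of_nonneg_left h1 (show 0 ≤ (n : ℝ) + 1 - s by linarith)
    have h4 := mul_le_mul_of_nonneg_left h2 (show 0 ≤ s - (n : ℝ) by linarith)
    have e : Real.log ((s + 3) / 2) = ((n : ℝ) + 1 - s) * Real.log ((s + 3) / 2)
        + (s - (n : ℝ)) * Real.log ((s + 3) / 2) := by ring
    rw [e]
    exact add_le_add h3 h4
  refine hF.trans ?_
  rcases le_or_gt s 30 with h30 | h30
  · obtain ⟨e, he, h⟩ := IA.chk_sound _ _ _ _ _ tbC s 0 0 ⟨by push_cast; linarith, by push_cast; linarith⟩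
      ⟨by simp, by simp⟩ ⟨by simp, by simp⟩
    simp only [List.mem_cons, List.not_mem_nil, or_false] at he
    rw [he] at h
    simp only [tbE, IA.E.ev, whE_ev] at h
    push_cast at h
    simp only [div_one] at h
    linarith
  · have hc : 128 / 100 ≤ Real.log (33 / 8) := by
      obtain ⟨e, he, h⟩ := IA.chk_sound _ _ _ _ _ tcC 0 0 0 ⟨by simp, by simp⟩ ⟨by simp, by simp⟩
        ⟨by simp, by simp⟩
      simp only [List.mem_cons, List.not_mem_nil, or_false] at he
      rw [he] at h
      simp only [tcE, IA.E.ev] at h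
      push_cast at h
      linarith
    have hk : 2 * Real.log (5 / 4) - Real.log 2 + 1 / 4 ≤ 32 / 10000 := by
      obtain ⟨e, he, h⟩ := IA.chk_sound _ _ _ _ _ tdC 0 0 0 ⟨by simp, by simp⟩ ⟨by simp, by simp⟩
        ⟨by simp, by simp⟩
      simp only [List.mem_cons, List.not_mem_nil, or_false] at he
      rw [he] at h
      simp only [tdE, IA.E.ev] at h
      push_cast at h
      simp only [div_one] at h
      linarith
    have h8 : Real.log (33 / 8) ≤ Real.log ((s + 3) / 8) := Real.log_le_log (by norm_num) (by linarith)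
    have e1 : Real.log ((3 + s) / 4) = Real.log ((s + 3) / 8) + Real.log 2 := by
      rw [← Real.log_mul (by positivity) (by norm_num)]
      congr 1
      ring
    have e2 : Real.log ((s + 3) / 2) = Real.log ((s + 3) / 8) + 2 * Real.log 2 := by
      have : (2 : ℝ) * Real.log 2 = Real.log 4 := by
        rw [show (4 : ℝ) = 2 ^ 2 by norm_num, Real.log_pow]
        push_cast
        ring
      rw [this, ← Real.log_mul (by positivity) (by norm_num)]
      congr 1
      ring
    have h9 : 0 ≤ 2 / (1 + s) * Real.log ((3 + s) / 2) :=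
      mul_nonneg (by positivity) (Real.log_nonneg (by rw [le_div_iff₀ (by norm_num)]; linarith))
    have h10 : 0 ≤ Real.log ((4 / 5 + s) / (1 + s)) + (1 / 5) / (4 / 5 + s) := by
      have h11 := Real.one_sub_inv_le_log_of_pos (show 0 < (4 / 5 + s) / (1 + s) by positivity)
      have h12 : 1 - ((4 / 5 + s) / (1 + s))⁻¹ = -((1 / 5) / (4 / 5 + s)) := by
        rw [inv_div]
        field_simp
        ring
      rw [h12] at h11
      linarith
    unfold CholB.WM.wh CholB.WM.w0
    rw [e1, e2]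
    norm_num at h9 h10 hk hc ⊢
    linarith

section Check2
open IA
/-- `3/5 ≤ 2 wh (31/5) - 11/100` -/
def teE : E := .sub (.cst 71 100) (.mul (.cst 2 1) (whE (.cst 31 5)))
theorem teC : chk [teE] (T.v 0) ⟨0, 0⟩ ⟨0, 0⟩ ⟨0, 0⟩ = true := by decide +kernel
end Check2

/-- the bound of the tail lemma is large -/
theorem tail_large (s : ℝ) (hs : 31 / 5 ≤ s) : 3 / 5 ≤ 2 * CholB.WM.wh s - 11 / 100 := by
  have h1 : 3 / 5 ≤ 2 * CholB.WM.wh (31 / 5) - 11 / 100 := by
    obtain ⟨e, he, h⟩ := IA.chk_sound _ _ _ _ _ teC 0 0 0 ⟨by simp, by simp⟩ ⟨by simp, by simp⟩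
      ⟨by simp, by simp⟩
    simp only [List.mem_cons, List.not_mem_nil, or_false] at he
    rw [he] at h
    simp only [teE, IA.E.ev, whE_ev] at h
    push_cast at h
    linarith
  have h2 := CholB.WM.wh_mono (show (31 / 5 : ℝ) ∈ Set.Ici 0 by simp only [Set.mem_Ici]; norm_num)
    (show s ∈ Set.Ici (0 : ℝ) by simp only [Set.mem_Ici]; linarith) hs
  linarith

end Ent
end Pool.Agent.Lib.MP_6947cd_al
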