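import Pool.Agent.Lib.MP_6947cd_al.T.Hub

/-!
Problem MP_6947cd_al (Chollet).  The row function is jointly convex in the logarithms of the entries; upper
bounds `log (p / q)` for rows with finitely many types of rational entries, checked by one comparison of
natural numbers for each type.
-/

set_option autoImplicit false
open Finset

namespace Pool.Agent.Lib.MP_6947cd_al
namespace Ent

section Conv
variable {κ : Type} [Fintype κ] [DecidableEq κ]

/-- LOG-CONVEXITY of the row function. -/
theorem F_logconv {ι : Type} (s : Finset ι) (lam : ι → ℝ) (hl : ∀ i ∈ s, 0 ≤ lam i)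
    (hs : ∑ i ∈ s, lam i = 1) (b : κ → ℝ) (hne : ∃ j, b j ≠ 0) (B : ι → κ → ℝ)
    (hB : ∀ i ∈ s, ∀ j, B i j = 0 → b j = 0)
    (hlog : ∀ j, b j ≠ 0 → Real.log (b j) ≤ ∑ i ∈ s, lam i * Real.log (B i j)) :
    F b ≤ ∑ i ∈ s, lam i * F (B i) := by
  obtain ⟨p, hp, hv⟩ := exists_val_eq_F b hne
  rw [← hv]
  have h1 : ∀ i ∈ s, val (B i) p ≤ F (B i) := fun i hi =>
    val_le_F (B i) p ⟨hp.1, hp.2.1, fun j hj => hp.2.2 j (hB i hi j hj)⟩
  refine le_trans ?_ (Finset.sum_le_sum fun i hi => mul_le_mul_of_nonneg_left (h1 i hi) (hl i hi))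
  unfold val
  have e : ∑ i ∈ s, lam i * ∑ j, p j * (Real.log (B i j) - Real.log (p j) + ell Finset.univ p j)
      = ∑ j, p j * (∑ i ∈ s, lam i * Real.log (B i j) - Real.log (p j) + ell Finset.univ p j) := by
    simp_rw [Finset.mul_sum]
    rw [Finset.sum_comm]
    refine Finset.sum_congr rfl fun j _ => ?_
    have e1 : ∀ i ∈ s, lam i * (p j * (Real.log (B i j) - Real.log (p j) + ell Finset.univ p j))
        = p j * (lam i * Real.log (B i j)) + p j * (- Real.log (p j) + ell Finset.univ p j) * lam i := by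
      intro i _; ring
    rw [Finset.sum_congr rfl e1, Finset.sum_add_distrib, ← Finset.mul_sum, ← Finset.mul_sum, hs]
    ring
  rw [e]
  refine Finset.sum_le_sum fun j _ => ?_
  by_cases hj : b j = 0
  · rw [hp.2.2 j hj, zero_mul, zero_mul]
  · refine mul_le_mul_of_nonneg_left ?_ (hp.1 j)
    have := hlog j hj
    linarith

/-- two rows -/
theorem F_logconv2 (t : ℝ) (ht0 : 0 ≤ t) (ht1 : t ≤ 1) (b B C : κ → ℝ) (hne : ∃ j, b j ≠ 0)
    (hB : ∀ j, B j = 0 → b j = 0) (hC : ∀ j, C j = 0 → b j = 0)
    (hlog : ∀ j, b j ≠ 0 → Real.log (b j) ≤ (1 - t) * Real.log (B j) + t * Real.log (C j)) :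
    F b ≤ (1 - t) * F B + t * F C := by
  have h := F_logconv (Finset.univ : Finset Bool) (fun i => cond i t (1 - t)) (by
    intro i _; cases i
    · exact sub_nonneg.mpr ht1
    · exact ht0) (by simp) b hne (fun i => cond i C B) (by
    intro i _ j hj
    cases i
    · exact hB j hj
    · exact hC j hj) (by
    intro j hj
    rw [Fintype.sum_bool]
    have := hlog j hj
    simp only [cond_true, cond_false]
    linarith)
  rw [Fintype.sum_bool] at h
  simp only [cond_true, cond_false] at h
  linarith

end Conv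

/-! ### natural number certificates -/

/-- scalar product -/
noncomputable def dotN (cs : List ℕ) : List ℕ → ℕ :=
  @List.rec ℕ (fun _ => List ℕ → ℕ) (fun _ => 0)
    (fun c _ ih X => @List.rec ℕ (fun _ => ℕ) 0 (fun x xs _ => Nat.add (Nat.mul c x) (ih xs)) X) cs

/-- product of powers -/
noncomputable def prodT (X : List ℕ) (l : List (ℕ × List ℕ)) : ℕ :=
  @List.rec (ℕ × List ℕ) (fun _ => ℕ) 1 (fun t _ r => Nat.mul (Nat.pow (dotN t.2 X) t.1) r) l

lemma dotN_nil (X : List ℕ) : dotN [] X = 0 := rfl
lemma dotN_cons_nil (c : ℕ) (cs : List ℕ) : dotN (c :: cs) [] = 0 := rfl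
lemma dotN_cons (c : ℕ) (cs : List ℕ) (x : ℕ) (X : List ℕ) :
    dotN (c :: cs) (x :: X) = c * x + dotN cs X := rfl
lemma prodT_nil (X : List ℕ) : prodT X [] = 1 := rfl
lemma prodT_cons (X : List ℕ) (t : ℕ × List ℕ) (l : List (ℕ × List ℕ)) :
    prodT X (t :: l) = dotN t.2 X ^ t.1 * prodT X l := rfl

lemma sum_map_sub' {α : Type} (l : List α) (f g : α → ℝ) :
    (l.map fun t => f t - g t).sum = (l.map f).sum - (l.map g).sum := by
  induction l with
  | nil => simp
  | cons t l ih => simp only [List.map_cons, List.sum_cons, ih]; ring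

lemma dotq_cast (cs X : List ℕ) (q : ℝ) :
    dotq (cs.map fun c : ℕ => (c : ℚ)) (X.map fun n : ℕ => (n : ℝ) / q) = (dotN cs X : ℝ) / q := by
  induction cs generalizing X with
  | nil => simp [dotq, dotN_nil]
  | cons c cs ih =>
    cases X with
    | nil => simp [dotq, dotN_cons_nil]
    | cons x X =>
      simp only [List.map_cons, dotq, dotN_cons]
      rw [ih]
      push_cast
      ring

lemma log_prodT (X : List ℕ) (l : List (ℕ × List ℕ)) (h : ∀ t ∈ l, 0 < dotN t.2 X) :
    Real.log (prodT X l) = (l.map fun t => (t.1 : ℝ) * Real.log (dotN t.2 X)).sum ∧ 0 < prodT X l := by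
  induction l with
  | nil => simp [prodT_nil]
  | cons t l ih =>
    obtain ⟨h1, h2⟩ := ih fun t' ht' => h t' (by simp [ht'])
    have h3 := h t (by simp)
    have h4 : 0 < dotN t.2 X ^ t.1 := pow_pos h3 _
    refine ⟨?_, ?_⟩
    · rw [prodT_cons, Nat.cast_mul, Real.log_mul (by exact_mod_cast h4.ne') (by exact_mod_cast h2.ne'),
        Nat.cast_pow, Real.log_pow, h1]
      simp
    · rw [prodT_cons]; exact Nat.mul_pos h4 h2

/-- the terms of a pattern of multiplicities `m` with common denominator `D` of the weights -/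
def patOK (m : List ℕ) (D : ℕ) (tl : List (List (ℕ × List ℕ))) : Bool :=
  decide (0 < D) && decide (tl.length = m.length) &&
  (List.range m.length).all fun a => decide (m.getD a 0 = 0) ||
    (decide (terms m.length (fun c => m.getD c 0) a
      = (tl.getD a []).map fun t : ℕ × List ℕ => ((t.1 : ℚ) / D, t.2.map fun c : ℕ => (c : ℚ))) &&
    decide (((tl.getD a []).map fun t => t.1).sum = D))

/-- check of one type -/
noncomputable def tyOK (D p q : ℕ) (X : List ℕ) (x : ℕ) (v : ℕ × ℕ) (l : List (ℕ × List ℕ)) : Bool :=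
  Nat.ble (Nat.mul (Nat.pow (Nat.mul v.1 q) D) (prodT X l)) (Nat.pow (Nat.mul (Nat.mul v.2 x) p) D)

/-- check of the types from the lists of multiplicities, certificate, entries, terms -/
noncomputable def ptAll (D p q : ℕ) (X : List ℕ) (m : List ℕ) :
    List ℕ → List (ℕ × ℕ) → List (List (ℕ × List ℕ)) → Bool :=
  @List.rec ℕ (fun _ => List ℕ → List (ℕ × ℕ) → List (List (ℕ × List ℕ)) → Bool)
    (fun _ _ _ => true)
    (fun k _ ih xs vs ls => @List.rec ℕ (fun _ => Bool) false (fun x xs' _ =>
      @List.rec (ℕ × ℕ) (fun _ => Bool) false (fun v vs' _ =>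
        @List.rec (List (ℕ × List ℕ)) (fun _ => Bool) false (fun l ls' _ =>
          cond (cond (Nat.beq k 0) true (tyOK D p q X x v l)) (cond (Nat.ble 1 x) (ih xs' vs' ls') false)
            false) ls) vs) xs) m

lemma ptAll_cons (D p q : ℕ) (X : List ℕ) (k : ℕ) (m : List ℕ) (x : ℕ) (xs : List ℕ) (v : ℕ × ℕ)
    (vs : List (ℕ × ℕ)) (l : List (ℕ × List ℕ)) (ls : List (List (ℕ × List ℕ))) :
    ptAll D p q X (k :: m) (x :: xs) (v :: vs) (l :: ls)
      = cond (cond (Nat.beq k 0) true (tyOK D p q X x v l)) (cond (Nat.ble 1 x) (ptAll D p q X m xs vs ls)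
        false) false := rfl

lemma ptAll_get (D p q : ℕ) (X : List ℕ) (m xs : List ℕ) (vs : List (ℕ × ℕ))
    (ls : List (List (ℕ × List ℕ))) (h1 : xs.length = m.length) (h2 : vs.length = m.length)
    (h3 : ls.length = m.length) (h : ptAll D p q X m xs vs ls = true) :
    ∀ a < m.length, 0 < xs.getD a 0 ∧
      (m.getD a 0 ≠ 0 → tyOK D p q X (xs.getD a 0) (vs.getD a (0, 0)) (ls.getD a []) = true) := by
  induction m generalizing xs vs ls with
  | nil => intro a ha; simp at ha
  | cons k m ih =>
    cases xs with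
    | nil => simp at h1
    | cons x xs =>
      cases vs with
      | nil => simp at h2
      | cons v vs =>
        cases ls with
        | nil => simp at h3
        | cons l ls =>
          rw [ptAll_cons] at h
          obtain ⟨h4, h5⟩ := IA.cond_and h
          obtain ⟨h6, h7⟩ := IA.cond_and h5
          intro a ha
          cases a with
          | zero =>
            simp only [List.getD_cons_zero]
            refine ⟨?_, fun hk => ?_⟩
            · rw [Nat.ble_eq] at h6; omega
            · cases hb : Nat.beq k 0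
              · rw [hb, cond_false] at h4; exact h4
              · exact absurd (Nat.eq_of_beq_eq_true hb) hk
          | succ a =>
            simp only [List.getD_cons_succ]
            exact ih xs vs ls (by simpa using h1) (by simpa using h2) (by simpa using h3) h7 a
              (by simpa using ha)

/-- the check of one certificate: the row has `m a` entries `v a`, the bound is `log (p / q)` -/
noncomputable def ptOK (D : ℕ) (m : List ℕ) (tl : List (List (ℕ × List ℕ))) (v : List (ℕ × ℕ))
    (X : List ℕ) (p q : ℕ) : Bool :=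
  cond (Nat.ble 1 p) (cond (Nat.ble 1 q) (ptAll D p q X m X v tl) false) false

/-- Soundness of the natural number certificates. -/
theorem pt_sound {κ : Type} [Fintype κ] [DecidableEq κ] (m : List ℕ) (D : ℕ)
    (tl : List (List (ℕ × List ℕ))) (hp : patOK m D tl = true) (v : List (ℕ × ℕ)) (X : List ℕ) (p q : ℕ)
    (h : ptOK D m tl v X p q = true) (hlX : X.length = m.length) (hlv : v.length = m.length)
    (hvd : ∀ u ∈ v, 0 < u.2)
    (b : κ → ℝ) (hb0 : ∀ j, 0 ≤ b j) (hne : ∃ j, b j ≠ 0) (S : ℕ → Finset κ)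
    (hdis : ∀ a < m.length, ∀ c < m.length, a ≠ c → Disjoint (S a) (S c))
    (hcard : ∀ a < m.length, (S a).card = m.getD a 0)
    (hout : ∀ k, (∀ a < m.length, k ∉ S a) → b k = 0)
    (hb : ∀ a < m.length, ∀ k ∈ S a, b k ≤ ((v.getD a (0, 0)).1 : ℝ) / ((v.getD a (0, 0)).2 : ℝ)) :
    F b ≤ Real.log ((p : ℝ) / q) := by
  unfold patOK at hp
  simp only [Bool.and_eq_true, decide_eq_true_eq, List.all_eq_true, List.mem_range,
    Bool.or_eq_true] at hp
  obtain ⟨⟨hD, hlt⟩, hT⟩ := hp
  unfold ptOK at h
  obtain ⟨hp1, h⟩ := IA.cond_and h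
  obtain ⟨hq1, h⟩ := IA.cond_and h
  rw [Nat.ble_eq] at hp1 hq1
  have hall := ptAll_get D p q X m X v tl hlX hlv hlt h
  have hR : 0 < m.length := by
    rcases Nat.eq_zero_or_pos m.length with h0 | h0
    · exfalso
      obtain ⟨j, hj⟩ := hne
      exact hj (hout j fun a ha => by omega)
    · exact h0
  set Q : ℝ := ((X.getD 0 0 : ℕ) : ℝ) with hQ
  have hQ0 : 0 < Q := by
    rw [hQ]
    exact_mod_cast (hall 0 hR).1
  have hDR : (0 : ℝ) < D := by exact_mod_cast hD
  have hpR : (0 : ℝ) < p := by exact_mod_cast hp1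
  have hqR : (0 : ℝ) < q := by exact_mod_cast hq1
  set x : ℕ → ℝ := fun a => ((X.getD a 0 : ℕ) : ℝ) / Q with hx
  have hx0 : ∀ a < m.length, 0 < x a := fun a ha => by
    have h1 : (0 : ℝ) < ((X.getD a 0 : ℕ) : ℝ) := by exact_mod_cast (hall a ha).1
    exact div_pos h1 hQ0
  have hXs : (List.range m.length).map x = X.map fun n : ℕ => (n : ℝ) / Q := by
    apply List.ext_getElem
    · simp [hlX]
    · intro i h1 h2
      simp only [List.length_map, List.length_range] at h1
      have h3 : i < X.length := by rw [hlX]; exact h1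
      simp only [List.getElem_map, List.getElem_range, hx]
      rw [List.getD_eq_getElem _ _ h3]
  refine F_le_atoms b hb0 hne m.length (fun c => m.getD c 0) S hdis hcard hout
    (fun a => ((v.getD a (0, 0)).1 : ℝ) / ((v.getD a (0, 0)).2 : ℝ)) x hb hx0 _ ?_
  intro a ha hma hva
  rcases hT a ha with h0 | ⟨hterms, hsum⟩
  · omega
  · have hty := (hall a ha).2 (by omega)
    have hva' : a < v.length := by rw [hlv]; exact ha
    set vn := (v.getD a (0, 0)).1 with hvn
    set vd := (v.getD a (0, 0)).2 with hvdd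
    set l := tl.getD a [] with hl
    set xa := X.getD a 0 with hxa
    have hxa0 : 0 < xa := (hall a ha).1
    have hxaR : (0 : ℝ) < xa := by exact_mod_cast hxa0
    have hvd0 : 0 < vd := by
      rw [hvdd, List.getD_eq_getElem _ _ hva']
      exact hvd _ (List.getElem_mem hva')
    have hvdR : (0 : ℝ) < vd := by exact_mod_cast hvd0
    have hvn0 : 0 < vn := by
      rcases Nat.eq_zero_or_pos vn with h1 | h1
      · exfalso
        simp only [h1, Nat.cast_zero, zero_div, lt_irrefl] at hva
      · exact h1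
    have hvnR : (0 : ℝ) < vn := by exact_mod_cast hvn0
    -- positivity of the arguments
    have hpos : ∀ t ∈ l, 0 < dotN t.2 X := by
      intro t ht
      have h1 := terms_pos m.length (fun c => m.getD c 0) x hx0 a ha
        ((t.1 : ℚ) / D, t.2.map fun c : ℕ => (c : ℚ)) (by
          rw [hterms]
          exact List.mem_map.mpr ⟨t, ht, rfl⟩)
      simp only at h1
      rw [hXs, dotq_cast] at h1
      have h2 : (0 : ℝ) < (dotN t.2 X : ℝ) := by
        have := mul_pos h1 hQ0
        rwa [div_mul_cancel₀ _ hQ0.ne'] at this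
      exact_mod_cast h2
    obtain ⟨hlog, hprod⟩ := log_prodT X l hpos
    -- the value of the terms
    have htv : tv (terms m.length (fun c => m.getD c 0) a) ((List.range m.length).map x)
        = Real.log (prodT X l) / D - Real.log Q := by
      rw [hterms, hXs, hlog]
      unfold tv
      rw [List.map_map]
      have hsumR : ((l.map fun t : ℕ × List ℕ => (t.1 : ℝ)).sum) = D := by
        rw [← hsum]
        push_cast
        rw [List.map_map]
        rfl
      have e1 : (l.map ((fun t : ℚ × List ℚ => (t.1 : ℝ) * Real.log (dotq t.2 (X.map fun n : ℕ => (n : ℝ) / Q)))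
          ∘ fun t : ℕ × List ℕ => ((t.1 : ℚ) / D, t.2.map fun c : ℕ => (c : ℚ))))
          = l.map fun t => (t.1 : ℝ) * Real.log (dotN t.2 X) / D - Real.log Q / D * (t.1 : ℝ) := by
        refine List.map_congr_left fun t ht => ?_
        have h2 : (0 : ℝ) < (dotN t.2 X : ℝ) := by exact_mod_cast hpos t ht
        simp only [Function.comp_apply]
        rw [dotq_cast, Real.log_div h2.ne' hQ0.ne']
        push_cast
        ring
      rw [e1, sum_map_sub', List.sum_map_mul_left, hsumR]
      have e2 : (l.map fun t => (t.1 : ℝ) * Real.log (dotN t.2 X) / D).sum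
          = (l.map fun t => (t.1 : ℝ) * Real.log (dotN t.2 X)).sum / D := by
        simp only [div_eq_mul_inv]
        rw [List.sum_map_mul_right]
      rw [e2]
      field_simp
    rw [htv]
    -- the integer inequality
    have hle : vn ^ D * q ^ D * prodT X l ≤ vd ^ D * xa ^ D * p ^ D := by
      unfold tyOK at hty
      rw [Nat.ble_eq] at hty
      have h1 : (vn * q) ^ D * prodT X l ≤ (vd * xa * p) ^ D := hty
      rwa [mul_pow, mul_pow, mul_pow] at h1
    have hleR : (vn : ℝ) ^ D * (q : ℝ) ^ D * (prodT X l : ℝ) ≤ (vd : ℝ) ^ D * (xa : ℝ) ^ D * (p : ℝ) ^ D := by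
      exact_mod_cast hle
    have hprodR : (0 : ℝ) < (prodT X l : ℝ) := by exact_mod_cast hprod
    have h5 := Real.log_le_log (by positivity) hleR
    rw [Real.log_mul (by positivity) hprodR.ne', Real.log_mul (by positivity) (by positivity),
      Real.log_mul (by positivity) (by positivity), Real.log_mul (by positivity) (by positivity),
      Real.log_pow, Real.log_pow, Real.log_pow, Real.log_pow, Real.log_pow] at h5
    have e3 : x a = (xa : ℝ) / Q := rfl
    show Real.log ((vn : ℝ) / (vd : ℝ)) - Real.log (x a) + _ ≤ _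
    rw [e3, Real.log_div hvnR.ne' hvdR.ne', Real.log_div hxaR.ne' hQ0.ne', Real.log_div hpR.ne' hqR.ne']
    have h6 : Real.log (prodT X l : ℝ) / D ≤ Real.log vd + Real.log xa + Real.log p - Real.log vn
        - Real.log q := by
      rw [div_le_iff₀ hDR]
      linarith
    linarith

end Ent
end Pool.Agent.Lib.MP_6947cd_al
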