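import Pool.Agent.Lib.MP_6947cd_al.T.Val

/-!
Problem MP_6947cd_al (Chollet).  A lower bound for the row function: `F b ≥ (1/2) log (∑ j, b j ^ 2)`.
-/

set_option autoImplicit false
open scoped Matrix
open Matrix Finset

namespace Pool.Agent.Lib.MP_6947cd_al
namespace Ent

variable {κ : Type} [Fintype κ] [DecidableEq κ]

/-- a random order and its reverse: `ell_j(p) ≥ (1/2) log p_j` -/
theorem half_log_le_ell (p : κ → ℝ) (hp : ∀ j, 0 ≤ p j) (hs : ∑ j, p j = 1) (j : κ) (hj : 0 < p j) :
    1 / 2 * Real.log (p j) ≤ ell Finset.univ p j := by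
  have hcard : (Finset.univ : Finset κ).card = Fintype.card κ := Finset.card_univ
  have hD : ((Finset.univ : Finset κ).erase j).card = Fintype.card κ - 1 := by
    rw [Finset.card_erase_of_mem (Finset.mem_univ j), hcard]
  -- the reversed sum
  have hrev : ell Finset.univ p j = ∑ K ∈ ((Finset.univ : Finset κ).erase j).powerset,
      w (Fintype.card κ) K.card *
        Real.log (p j + ∑ k ∈ ((Finset.univ : Finset κ).erase j) \ K, p k) := by
    unfold ell
    rw [hcard]
    refine Finset.sum_bij' (fun K _ => ((Finset.univ : Finset κ).erase j) \ K)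
      (fun K _ => ((Finset.univ : Finset κ).erase j) \ K) ?_ ?_ ?_ ?_ ?_
    · intro K _
      exact Finset.mem_powerset.mpr Finset.sdiff_subset
    · intro K _
      exact Finset.mem_powerset.mpr Finset.sdiff_subset
    · intro K hK
      rw [sdiff_sdiff_right_self]
      exact Finset.inter_eq_right.mpr (Finset.mem_powerset.mp hK)
    · intro K hK
      rw [sdiff_sdiff_right_self]
      exact Finset.inter_eq_right.mpr (Finset.mem_powerset.mp hK)
    · intro K hK
      have hK' := Finset.mem_powerset.mp hK
      have e1 : ((Finset.univ : Finset κ).erase j) \ (((Finset.univ : Finset κ).erase j) \ K) = K := by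
        rw [sdiff_sdiff_right_self]
        exact Finset.inter_eq_right.mpr hK'
      rw [e1]
      congr 1
      have e2 : (((Finset.univ : Finset κ).erase j) \ K).card = Fintype.card κ - 1 - K.card := by
        rw [Finset.card_sdiff_of_subset hK', hD]
      have e3 := Finset.card_le_card hK'
      rw [hD] at e3
      rw [e2]
      unfold w
      rw [show Fintype.card κ - 1 - (Fintype.card κ - 1 - K.card) = K.card by omega]
      ring
  have hw : ∑ K ∈ ((Finset.univ : Finset κ).erase j).powerset,
      w (Fintype.card κ) K.card * Real.log (p j) = Real.log (p j) := by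
    rw [← Finset.sum_mul, sum_w, one_mul]
  have h2 : Real.log (p j) ≤ ell Finset.univ p j + ell Finset.univ p j := by
    conv_rhs => rw [hrev]
    conv_rhs =>
      arg 2
      rw [← hrev]
    rw [← hw]
    unfold ell
    rw [hcard, ← Finset.sum_add_distrib]
    refine Finset.sum_le_sum fun K hK => ?_
    have hK' := Finset.mem_powerset.mp hK
    rw [← mul_add]
    refine mul_le_mul_of_nonneg_left ?_ (w_nonneg _ _)
    have ha : 0 ≤ ∑ k ∈ K, p k := Finset.sum_nonneg fun k _ => hp k
    have hb : 0 ≤ ∑ k ∈ ((Finset.univ : Finset κ).erase j) \ K, p k :=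
      Finset.sum_nonneg fun k _ => hp k
    have hab : ∑ k ∈ ((Finset.univ : Finset κ).erase j) \ K, p k + ∑ k ∈ K, p k = 1 - p j := by
      rw [Finset.sum_sdiff hK', ← hs, ← Finset.add_sum_erase _ _ (Finset.mem_univ j)]
      ring
    have h4 : Real.log (p j) ≤ Real.log ((p j + ∑ k ∈ ((Finset.univ : Finset κ).erase j) \ K, p k)
        * (p j + ∑ k ∈ K, p k)) := by
      refine Real.log_le_log hj ?_
      have := mul_nonneg hb ha
      nlinarith
    rwa [Real.log_mul (by positivity) (by positivity)] at h4
  linarith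

/-- lower bound for the row function -/
theorem half_log_le_F (b : κ → ℝ) (hb0 : ∀ j, 0 ≤ b j) (hb : ∃ j, b j ≠ 0) :
    1 / 2 * Real.log (∑ j, b j ^ 2) ≤ F b := by
  set Z := ∑ j, b j ^ 2 with hZ
  obtain ⟨j0, hj0⟩ := hb
  have hZ0 : 0 < Z := by
    have h1 : 0 < b j0 ^ 2 := by positivity
    exact lt_of_lt_of_le h1 (Finset.single_le_sum (f := fun j => b j ^ 2)
      (fun j _ => sq_nonneg (b j)) (Finset.mem_univ j0))
  set p : κ → ℝ := fun j => b j ^ 2 / Z with hp
  have hp0 : ∀ j, 0 ≤ p j := fun j => div_nonneg (sq_nonneg _) hZ0.le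
  have hps : ∑ j, p j = 1 := by
    rw [hp, ← Finset.sum_div]
    exact div_self hZ0.ne'
  have hadm : p ∈ adm b := ⟨hp0, hps, fun j hj => by simp [hp, hj]⟩
  refine le_trans ?_ (val_le_F b p hadm)
  unfold val
  have h1 : ∀ j, p j * (1 / 2 * Real.log Z)
      ≤ p j * (Real.log (b j) - Real.log (p j) + ell Finset.univ p j) := by
    intro j
    rcases (hb0 j).eq_or_lt with h | h
    · have : p j = 0 := by simp [hp, ← h]
      rw [this]; simp
    · have hpj : 0 < p j := by positivity
      refine mul_le_mul_of_nonneg_left ?_ hpj.le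
      have h2 := half_log_le_ell p hp0 hps j hpj
      have h3 : Real.log (p j) = 2 * Real.log (b j) - Real.log Z := by
        rw [hp]
        simp only
        rw [Real.log_div (by positivity) hZ0.ne', Real.log_pow]
        norm_num
      rw [h3] at h2 ⊢
      linarith
  calc 1 / 2 * Real.log Z = ∑ j, p j * (1 / 2 * Real.log Z) := by
        rw [← Finset.sum_mul, hps, one_mul]
    _ ≤ _ := Finset.sum_le_sum fun j _ => h1 j

end Ent
end Pool.Agent.Lib.MP_6947cd_al
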