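import Pool.Agent.Lib.MP_6947cd_al.T.GFun
import Pool.Agent.Lib.MP_6947cd_al.T.HalfLog

/-!
Problem MP_6947cd_al (Chollet).  The extension `G_e` of the row function is harmless: it is at most the row
value `W (tot)` of Theorem S or at most `F`.
-/

set_option autoImplicit false
open Finset

namespace Pool.Agent.Lib.MP_6947cd_al
namespace Fr

open Ent

/-- sum of squares of numbers in `[0,T]` with given sum -/
theorem sum_sq_cap {ι : Type} (T : ℝ) (hT : 0 ≤ T) (s : Finset ι) (x : ι → ℝ)
    (h0 : ∀ i ∈ s, 0 ≤ x i) (h1 : ∀ i ∈ s, x i ≤ T) (n : ℕ) :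
    ∑ i ∈ s, x i ^ 2 ≤ T * ∑ i ∈ s, x i
      - (∑ i ∈ s, x i - n * T) * ((n + 1) * T - ∑ i ∈ s, x i) := by
  classical
  induction s using Finset.induction_on generalizing n with
  | empty =>
    simp only [Finset.sum_empty]
    have : 0 ≤ (n : ℝ) * ((n : ℝ) + 1) * (T * T) := by positivity
    nlinarith
  | insert a s ha ih =>
    have ih' := fun n => ih (fun i hi => h0 i (Finset.mem_insert_of_mem hi))
      (fun i hi => h1 i (Finset.mem_insert_of_mem hi)) n
    have ha0 := h0 a (Finset.mem_insert_self a s)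
    have ha1 := h1 a (Finset.mem_insert_self a s)
    have hS : 0 ≤ ∑ i ∈ s, x i :=
      Finset.sum_nonneg fun i hi => h0 i (Finset.mem_insert_of_mem hi)
    rw [Finset.sum_insert ha, Finset.sum_insert ha]
    set S := ∑ i ∈ s, x i
    rcases le_total ((n : ℝ) * T) S with hc | hc
    · have h2 := ih' n
      nlinarith [mul_nonneg (sub_nonneg.mpr hc) ha0]
    · cases n with
      | zero =>
        simp only [Nat.cast_zero, zero_mul] at hc ⊢
        have h2 := ih' 0
        simp only [Nat.cast_zero, zero_mul] at h2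
        nlinarith [mul_nonneg hS ha0]
      | succ m =>
        have h2 := ih' m
        push_cast at hc h2 ⊢
        nlinarith [mul_nonneg (sub_nonneg.mpr hc) (sub_nonneg.mpr ha1)]

section Ge
variable {κ : Type} [Fintype κ] [DecidableEq κ]

/-- the capped total of a row -/
noncomputable def capS (b : κ → ℝ) (i : κ) : ℝ := ∑ j ∈ Finset.univ.erase i, min (b j) (9 / 20)

/-- the additive functional through the capped totals -/
theorem sum_gtr_eq (b : κ → ℝ) (i : κ) :
    ∑ j ∈ Finset.univ.erase i, gtr (3 / 20) (9 / 20) (b j)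
      = 43 / 200 * capS b i + 3 / 20 * ∑ j ∈ Finset.univ.erase i, (min (b j) (9 / 20)) ^ 2 := by
  unfold gtr capS
  rw [Finset.sum_add_distrib, Finset.mul_sum, Finset.mul_sum]

theorem sum_gtr_le (b : κ → ℝ) (hb0 : ∀ j, 0 ≤ b j) (i : κ) (n : ℕ) :
    ∑ j ∈ Finset.univ.erase i, gtr (3 / 20) (9 / 20) (b j)
      ≤ 43 / 200 * capS b i + 3 / 20 * (9 / 20 * capS b i
        - (capS b i - n * (9 / 20)) * ((n + 1) * (9 / 20) - capS b i)) := by
  rw [sum_gtr_eq]
  have h := sum_sq_cap (9 / 20) (by norm_num) (Finset.univ.erase i) (fun j => min (b j) (9 / 20))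
    (fun j _ => le_min (hb0 j) (by norm_num)) (fun j _ => min_le_right _ _) n
  have h2 : ∑ j ∈ Finset.univ.erase i, min (b j) (9 / 20) = capS b i := rfl
  rw [h2] at h
  linarith

theorem sum_gtr_le_lin (b : κ → ℝ) (hb0 : ∀ j, 0 ≤ b j) (i : κ) :
    ∑ j ∈ Finset.univ.erase i, gtr (3 / 20) (9 / 20) (b j) ≤ 113 / 400 * capS b i := by
  rw [sum_gtr_eq]
  have h : ∑ j ∈ Finset.univ.erase i, (min (b j) (9 / 20)) ^ 2
      ≤ ∑ j ∈ Finset.univ.erase i, 9 / 20 * min (b j) (9 / 20) := by
    refine Finset.sum_le_sum fun j _ => ?_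
    have h1 : 0 ≤ min (b j) (9 / 20) := le_min (hb0 j) (by norm_num)
    have h2 : min (b j) (9 / 20) ≤ 9 / 20 := min_le_right _ _
    nlinarith
  rw [← Finset.mul_sum] at h
  have h2 : ∑ j ∈ Finset.univ.erase i, min (b j) (9 / 20) = capS b i := rfl
  rw [h2] at h
  linarith

/-- **`G_e` is harmless**: for a function `W` above five explicit functions, the extended functional is at most
`max (F b) (W (tot b))`. -/
theorem ge_harmless (W : ℝ → ℝ)
    (w1 : ∀ s, 0 ≤ s → s ≤ 47 / 100 → 43 / 200 * s + 3 / 20 * min (s ^ 2) (18 / 100) - 6 / 125 ≤ W s)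
    (w2 : ∀ s, 47 / 100 ≤ s → s ≤ 9 / 10 → 3 / 20 * s ^ 2 + 2 / 25 * s + 51 / 4000 ≤ W s)
    (w3 : ∀ s, 9 / 10 ≤ s → s ≤ 37 / 20 → 113 / 400 * s - 6 / 125 ≤ W s)
    (w4 : ∀ s, 37 / 20 ≤ s → s ≤ 39 / 20 →
      max (3 / 20 * s ^ 2 - 13 / 40 * s + 1119 / 2000) (461 / 1000) ≤ W s)
    (w5 : ∀ s, 39 / 20 ≤ s → 1 / 2 ≤ W s)
    (b : κ → ℝ) (hb0 : ∀ j, 0 ≤ b j) (i : κ) (hi : b i = 1) :
    GG.G κ b ≤ max (F b) (W (∑ j ∈ Finset.univ.erase i, b j)) := by
  refine GG_le b i hi _ (le_max_left _ _) ?_
  set s := ∑ j ∈ Finset.univ.erase i, b j with hs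
  set X := ∑ j ∈ Finset.univ.erase i, gtr (3 / 20) (9 / 20) (b j) with hX
  have hs0 : 0 ≤ s := Finset.sum_nonneg fun j _ => hb0 j
  have hC0 : 0 ≤ capS b i := Finset.sum_nonneg fun j _ => le_min (hb0 j) (by norm_num)
  have hCs : capS b i ≤ s := Finset.sum_le_sum fun j _ => min_le_left _ _
  have hlin := sum_gtr_le_lin b hb0 i
  rw [← hX] at hlin
  -- either no entry is above the cap or the capped total is at least `9/20`
  have halt : capS b i = s ∨ 9 / 20 ≤ capS b i := by
    by_cases h : ∃ j ∈ Finset.univ.erase i, 9 / 20 < b j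
    · obtain ⟨j, hj, hjb⟩ := h
      right
      have h1 : min (b j) (9 / 20) = 9 / 20 := min_eq_right hjb.le
      rw [← h1]
      exact Finset.single_le_sum (f := fun j => min (b j) (9 / 20))
        (fun j _ => le_min (hb0 j) (by norm_num)) hj
    · push Not at h
      left
      exact Finset.sum_congr rfl fun j hj => min_eq_left (h j hj)
  rcases le_total s (47 / 100) with c1 | c1
  · -- small totals
    set Q := ∑ j ∈ Finset.univ.erase i, b j ^ 2 with hQ
    set Q' := ∑ j ∈ Finset.univ.erase i, (min (b j) (9 / 20)) ^ 2 with hQ'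
    have hQ'Q : Q' ≤ Q := Finset.sum_le_sum fun j _ =>
      pow_le_pow_left₀ (le_min (hb0 j) (by norm_num)) (min_le_left _ _) 2
    have hQ0 : 0 ≤ Q := Finset.sum_nonneg fun j _ => sq_nonneg _
    have hQs : Q ≤ s ^ 2 := by
      have h1 : Q ≤ ∑ j ∈ Finset.univ.erase i, b j * s := by
        refine Finset.sum_le_sum fun j hj => ?_
        rw [sq]
        exact mul_le_mul_of_nonneg_left (Finset.single_le_sum (fun j _ => hb0 j) hj) (hb0 j)
      rw [← Finset.sum_mul] at h1
      nlinarith
    have hXe : X = 43 / 200 * capS b i + 3 / 20 * Q' := sum_gtr_eq b i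
    have hXle : X - 6 / 125 ≤ 43 / 200 * s + 3 / 20 * Q - 6 / 125 := by
      rw [hXe]; linarith
    rcases le_total Q (18 / 100) with hq | hq
    · refine le_trans (min_le_left _ _) (le_trans ?_ (le_max_right _ _))
      refine le_trans ?_ (w1 s hs0 c1)
      have : Q ≤ min (s ^ 2) (18 / 100) := le_min hQs hq
      linarith
    · refine le_trans (min_le_left _ _) (le_trans ?_ (le_max_left _ _))
      have hF := half_log_le_F b hb0 ⟨i, by rw [hi]; exact one_ne_zero⟩
      have hZ : ∑ j, b j ^ 2 = 1 + Q := by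
        rw [← Finset.add_sum_erase _ _ (Finset.mem_univ i), hi, hQ]
        norm_num
      rw [hZ] at hF
      refine le_trans ?_ hF
      -- tangent of the logarithm
      have hQ1 : Q ≤ 2209 / 10000 := by nlinarith
      have h2 : Real.log (1 + Q) ≥ 2 * Q / (2 + Q) := by
        have := Real.le_log_one_add_of_nonneg hQ0
        rw [add_comm Q 2] at this
        exact this
      have h3 : 2 * Q / (2 + Q) ≥ 2 * (3 / 20 * Q + 43 / 200 * (47 / 100) - 6 / 125) := by
        rw [ge_iff_le, le_div_iff₀ (by linarith)]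
        nlinarith
      linarith
  · have hC9 : 9 / 20 ≤ capS b i := by
      rcases halt with h | h
      · rw [h]; linarith
      · exact h
    rcases le_total s (9 / 10) with c2 | c2
    · refine le_trans (min_le_left _ _) (le_trans ?_ (le_max_right _ _))
      refine le_trans ?_ (w2 s c1 c2)
      have h1 := sum_gtr_le b hb0 i 1
      rw [← hX] at h1
      push_cast at h1
      nlinarith [mul_nonneg (sub_nonneg.mpr hCs) (show 0 ≤ s + capS b i - 9 / 10 by linarith)]
    · rcases le_total s (37 / 20) with c3 | c3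
      · refine le_trans (min_le_left _ _) (le_trans ?_ (le_max_right _ _))
        refine le_trans ?_ (w3 s c2 c3)
        linarith
      · rcases le_total s (39 / 20) with c4 | c4
        · refine le_trans (min_le_left _ _) (le_trans ?_ (le_max_right _ _))
          refine le_trans ?_ (w4 s c3 c4)
          rcases le_total (capS b i) (9 / 5) with c5 | c5
          · refine le_trans ?_ (le_max_right _ _)
            linarith
          · refine le_trans ?_ (le_max_left _ _)
            have h1 := sum_gtr_le b hb0 i 4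
            rw [← hX] at h1
            push_cast at h1
            nlinarith [mul_nonneg (sub_nonneg.mpr hCs) (show 0 ≤ s + capS b i - 18 / 5 by linarith)]
        · exact le_trans (min_le_right _ _) (le_trans (w5 s c4) (le_max_right _ _))

end Ge
end Fr
end Pool.Agent.Lib.MP_6947cd_al
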