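import Pool.Agent.Lib.MP_6947cd_al.T.WSide

/-!
Problem MP_6947cd_al (Chollet).  Explicit lower bounds of the row value `What`.
-/

set_option autoImplicit false

namespace Pool.Agent.Lib.MP_6947cd_al
namespace Fr

open CholB.WM IA

/-- substitution of the variable `x0` -/
def sub0 (s : E) : E → E
  | .cst p q => .cst p q
  | .x0 => s
  | .x1 => .x1
  | .x2 => .x2
  | .add a b => .add (sub0 s a) (sub0 s b)
  | .sub a b => .sub (sub0 s a) (sub0 s b)
  | .mul a b => .mul (sub0 s a) (sub0 s b)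
  | .div a b => .div (sub0 s a) (sub0 s b)
  | .log a => .log (sub0 s a)
  | .exp a => .exp (sub0 s a)

theorem sub0_ev (s e : E) (x y z : ℝ) : (sub0 s e).ev x y z = e.ev (s.ev x y z) y z := by
  induction e with
  | cst p q => rfl
  | x0 => rfl
  | x1 => rfl
  | x2 => rfl
  | add a b iha ihb => simp only [sub0, E.ev, iha, ihb]
  | sub a b iha ihb => simp only [sub0, E.ev, iha, ihb]
  | mul a b iha ihb => simp only [sub0, E.ev, iha, ihb]
  | div a b iha ihb => simp only [sub0, E.ev, iha, ihb]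
  | log a iha => simp only [sub0, E.ev, iha]
  | exp a iha => simp only [sub0, E.ev, iha]

/-! ### lower bounds on the pieces -/

/-- `1/20 < s ≤ 1/5` -/
noncomputable def W1 (s : ℝ) : ℝ :=
  2 * WxL (17 / 20) (3 / 4) (137 / 10000) (s / (17 / 20)) - 93 / 2000 * s
/-- `1/5 < s ≤ 21/50` -/
noncomputable def W2 (s : ℝ) : ℝ :=
  2 * WxL (17 / 20) (3 / 5) (612 / 100000) (s / (17 / 20)) - 93 / 2000 * s
/-- `21/50 < s ≤ 3/5` -/
noncomputable def W3 (s : ℝ) : ℝ :=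
  2 * WxL (19 / 20) (3 / 5) (612 / 100000) (s / (19 / 20)) - 31 / 2000 * s
/-- `3/5 < s ≤ 4/5` -/
noncomputable def W4 (s : ℝ) : ℝ :=
  2 * WxL (19 / 20) (1 / 2) (3141 / 1000000) (s / (19 / 20)) - 31 / 2000 * s
/-- `4/5 < s ≤ 6/5` -/
noncomputable def W5 (s : ℝ) : ℝ := 2 * (w0 s + (Real.log ((4 / 5 + s) / (1 + s))
    + (1 / 5) / (4 / 5 + s)) - 3141 / 1000000)
/-- `6/5 < s` -/
noncomputable def W6 (s : ℝ) : ℝ := 2 * (w0 s + (Real.log ((8 / 9 + s) / (1 + s))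
    + (1 / 9) / (8 / 9 + s)) - 304 / 1000000)

theorem KL_half_le : CholB.KL (1 / 2) ≤ 3141 / 1000000 := by
  rw [KL_half]
  have hc : chk [.sub (.add (.sub (.mul (.cst 2 1) (.log (.cst 5 4))) (.log (.cst 2 1))) (.cst 1 4))
      (.cst 3141 1000000)] (T.v 0) ⟨0, 0⟩ ⟨0, 0⟩ ⟨0, 0⟩ = true := by decide +kernel
  obtain ⟨e, he, h⟩ := chk_sound _ _ _ _ _ hc 0 0 0 ⟨by simp, by simp⟩ ⟨by simp, by simp⟩
    ⟨by simp, by simp⟩
  simp only [List.mem_singleton] at he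
  rw [he] at h
  simp only [E.ev] at h
  push_cast at h
  simp only [div_one] at h
  linarith

theorem sx_le_one {θ τ ξ : ℝ} (h0 : 3 / 4 ≤ θ) (h1 : θ < 1) (hτ : 0 ≤ τ) (hτ1 : τ ≤ 1)
    (hξ : 0 ≤ ξ) : sx θ τ ξ ≤ 1 := by
  have hK : 1 ≤ Kx θ ξ := by unfold Kx; nlinarith
  have hq : 2 / 3 ≤ 2 / (2 + τ) := by
    rw [div_le_div_iff₀ (by norm_num) (by linarith)]
    linarith
  have hq1 : 0 < 2 / (2 + τ) + ξ := by linarith
  unfold sx
  rw [div_le_one (by positivity)]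
  have hc : 2 * (1 - θ) / θ ≤ 2 / 3 := by
    rw [div_le_div_iff₀ (by linarith) (by norm_num)]
    linarith
  have h2 : 2 * (1 - θ) / θ * (1 + ξ) ≤ 2 / 3 * (1 + ξ) :=
    mul_le_mul_of_nonneg_right hc (by linarith)
  have h3 : 1 * (2 / (2 + τ) + ξ) ≤ Kx θ ξ * (2 / (2 + τ) + ξ) :=
    mul_le_mul_of_nonneg_right hK hq1.le
  linarith

theorem What_zero (s : ℝ) (h0 : 0 ≤ s) (h1 : s ≤ 1 / 20) : s ^ 2 / 2 ≤ What s := by
  have h := near_zero s h0 h1
  unfold What thW taW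
  rw [if_pos (by linarith), if_pos h1]
  linarith

theorem What_one (s : ℝ) (h0 : 1 / 20 < s) (h1 : s ≤ 1 / 5) : W1 s ≤ What s := by
  have h := WxL_le (θ := 17 / 20) (τ := 3 / 4) (k := 137 / 10000) (ξ := s / (17 / 20))
    (by norm_num) (by norm_num) (by norm_num) (by positivity)
    (sx_le_one (by norm_num) (by norm_num) (by norm_num) (by norm_num) (by positivity))
    KL_three_quarters
  have e : 17 / 20 / 2 * (1 + s / (17 / 20)) = (17 / 20 + s) / 2 := by ring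
  rw [e] at h
  unfold What thW taW W1
  rw [if_pos (by linarith), if_neg (by linarith), if_pos h1]
  linarith

theorem What_two (s : ℝ) (h0 : 1 / 5 < s) (h1 : s ≤ 21 / 50) : W2 s ≤ What s := by
  have h := WxL_le (θ := 17 / 20) (τ := 3 / 5) (k := 612 / 100000) (ξ := s / (17 / 20))
    (by norm_num) (by norm_num) (by norm_num) (by positivity)
    (sx_le_one (by norm_num) (by norm_num) (by norm_num) (by norm_num) (by positivity))
    KL_three_fifths
  have e : 17 / 20 / 2 * (1 + s / (17 / 20)) = (17 / 20 + s) / 2 := by ring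
  rw [e] at h
  unfold What thW taW W2
  rw [if_pos h1, if_neg (by linarith), if_neg (by linarith), if_pos (by linarith)]
  linarith

theorem What_three (s : ℝ) (h0 : 21 / 50 < s) (h1 : s ≤ 3 / 5) : W3 s ≤ What s := by
  have h := WxL_le (θ := 19 / 20) (τ := 3 / 5) (k := 612 / 100000) (ξ := s / (19 / 20))
    (by norm_num) (by norm_num) (by norm_num) (by positivity)
    (sx_le_one (by norm_num) (by norm_num) (by norm_num) (by norm_num) (by positivity))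
    KL_three_fifths
  have e : 19 / 20 / 2 * (1 + s / (19 / 20)) = (19 / 20 + s) / 2 := by ring
  rw [e] at h
  unfold What thW taW W3
  rw [if_neg (by linarith), if_pos (by linarith), if_neg (by linarith), if_neg (by linarith),
    if_pos h1]
  linarith

theorem What_four (s : ℝ) (h0 : 3 / 5 < s) (h1 : s ≤ 4 / 5) : W4 s ≤ What s := by
  have h := WxL_le (θ := 19 / 20) (τ := 1 / 2) (k := 3141 / 1000000) (ξ := s / (19 / 20))
    (by norm_num) (by norm_num) (by norm_num) (by positivity)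
    (sx_le_one (by norm_num) (by norm_num) (by norm_num) (by norm_num) (by positivity))
    KL_half_le
  have e : 19 / 20 / 2 * (1 + s / (19 / 20)) = (19 / 20 + s) / 2 := by ring
  rw [e] at h
  unfold What thW taW W4
  rw [if_neg (by linarith), if_pos h1, if_neg (by linarith), if_neg (by linarith),
    if_neg (by linarith), if_pos (by linarith)]
  linarith

theorem What_five (s : ℝ) (h0 : 4 / 5 < s) (h1 : s ≤ 6 / 5) : W5 s ≤ What s := by
  have hs : 0 ≤ s := by linarith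
  unfold What thW taW W5
  rw [if_neg (by linarith), if_neg (by linarith), if_neg (by linarith), if_neg (by linarith),
    if_neg (by linarith), if_pos h1, Wrow_one (by norm_num) hs]
  have hg := IA.gamma_lt
  have hk := KL_half_le
  have e1 : (2 / (2 + 1 / 2) : ℝ) = 4 / 5 := by norm_num
  have e2 : ((1 / 2) / (2 + 1 / 2) : ℝ) = 1 / 5 := by norm_num
  rw [e1, e2]
  unfold w0
  norm_num at hg ⊢
  linarith

theorem What_six (s : ℝ) (h0 : 6 / 5 < s) : W6 s ≤ What s := by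
  have hs : 0 ≤ s := by linarith
  unfold What thW taW W6
  rw [if_neg (by linarith), if_neg (by linarith), if_neg (by linarith), if_neg (by linarith),
    if_neg (by linarith), if_neg (by linarith), Wrow_one (by norm_num) hs]
  have hg := IA.gamma_lt
  have hk := KL_quarter
  have e1 : (2 / (2 + 1 / 4) : ℝ) = 8 / 9 := by norm_num
  have e2 : ((1 / 4) / (2 + 1 / 4) : ℝ) = 1 / 9 := by norm_num
  rw [e1, e2]
  unfold w0
  norm_num at hg ⊢
  linarith

/-! ### expressions for the checker -/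

/-- `W1`..`W4` -/
def WltE (tp : ℤ) (tq : ℕ) (u k c s : E) : E :=
  .sub (.mul (.cst 2 1) (sub0 (.div s (.cst tp tq)) (WxLE (.cst tp tq) u k))) (.mul c s)
def W1E (s : E) : E := WltE 17 20 (.cst 3 4) (.cst 137 10000) (.cst 93 2000) s
def W2E (s : E) : E := WltE 17 20 (.cst 3 5) (.cst 612 100000) (.cst 93 2000) s
def W3E (s : E) : E := WltE 19 20 (.cst 3 5) (.cst 612 100000) (.cst 31 2000) s
def W4E (s : E) : E := WltE 19 20 (.cst 1 2) (.cst 3141 1000000) (.cst 31 2000) s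
/-- `W5`, `W6` -/
def WoE (p q k s : E) : E := .mul (.cst 2 1) (.sub (.add (.add (.sub
    (.log (.div (.add (.cst 3 1) s) (.cst 4 1))) (.cst 577216 1000000))
    (.mul (.div (.cst 2 1) (.add (.cst 1 1) s)) (.log (.div (.add (.cst 3 1) s) (.cst 2 1)))))
    (.add (.log (.div (.add q s) (.add (.cst 1 1) s))) (.div p (.add q s)))) k)
def W5E (s : E) : E := WoE (.cst 1 5) (.cst 4 5) (.cst 3141 1000000) s
def W6E (s : E) : E := WoE (.cst 1 9) (.cst 8 9) (.cst 304 1000000) s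

variable (s : E) (x y z : ℝ)

theorem W1E_ev : (W1E s).ev x y z = W1 (s.ev x y z) := by
  unfold W1E WltE W1
  simp only [E.ev, sub0_ev, WxLE_ev]
  push_cast
  simp only [div_one]

theorem W2E_ev : (W2E s).ev x y z = W2 (s.ev x y z) := by
  unfold W2E WltE W2
  simp only [E.ev, sub0_ev, WxLE_ev]
  push_cast
  simp only [div_one]

theorem W3E_ev : (W3E s).ev x y z = W3 (s.ev x y z) := by
  unfold W3E WltE W3
  simp only [E.ev, sub0_ev, WxLE_ev]
  push_cast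
  simp only [div_one]

theorem W4E_ev : (W4E s).ev x y z = W4 (s.ev x y z) := by
  unfold W4E WltE W4
  simp only [E.ev, sub0_ev, WxLE_ev]
  push_cast
  simp only [div_one]

theorem W5E_ev : (W5E s).ev x y z = W5 (s.ev x y z) := by
  unfold W5E WoE W5 w0
  simp only [E.ev]
  push_cast
  simp only [div_one]

theorem W6E_ev : (W6E s).ev x y z = W6 (s.ev x y z) := by
  unfold W6E WoE W6 w0
  simp only [E.ev]
  push_cast
  simp only [div_one]

/-! ### numerical inequalities for `What` -/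

theorem chk1 (e : E) (t : T) (X : I) (hc : chk [e] t X ⟨0, 0⟩ ⟨0, 0⟩ = true) (s : ℝ)
    (h1 : (X.lo : ℝ) ≤ s * 1099511627776) (h2 : s * 1099511627776 ≤ (X.hi : ℝ)) :
    e.ev s 0 0 ≤ 0 := by
  obtain ⟨e', he, h⟩ := chk_sound _ _ _ _ _ hc s 0 0 ⟨h1, h2⟩ ⟨by simp, by simp⟩
    ⟨by simp, by simp⟩
  simp only [List.mem_singleton] at he
  rwa [he] at h

def a1E (W : E → E) : E := .sub (.sub (.add (.mul (.cst 43 200) .x0)
  (.mul (.cst 3 20) (sqE .x0))) (.cst 6 125)) (W .x0)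
def a1cE (W : E → E) : E := .sub (.sub (.add (.mul (.cst 43 200) .x0)
  (.mul (.cst 3 20) (.cst 18 100))) (.cst 6 125)) (W .x0)
def a2E (W : E → E) : E := .sub (.add (.add (.mul (.cst 3 20) (sqE .x0))
  (.mul (.cst 2 25) .x0)) (.cst 51 4000)) (W .x0)
def a3E (W : E → E) : E := .sub (.sub (.mul (.cst 113 400) .x0) (.cst 6 125)) (W .x0)
def a4E (W : E → E) : E := .sub (.add (.sub (.mul (.cst 3 20) (sqE .x0))
  (.mul (.cst 13 40) .x0)) (.cst 1119 2000)) (W .x0)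
def a4cE (W : E → E) : E := .sub (.cst 461 1000) (W .x0)
def a5E (W : E → E) : E := .sub (.cst 1 2) (W .x0)
def b1E (W : E → E) : E := .sub (.add (.sub (.div (sqE .x0) (.cst 2 1))
  (.div (sqE (sqE .x0)) (.cst 6 1))) (.div (.mul (sqE .x0) (sqE (sqE .x0))) (.cst 12 1))) (W .x0)

open T in
theorem a1_W1_chk : chk [a1E W1E] (s0 (s0 (d 0) (d 0)) (s0 (d 0) (d 0))) ⟨54975581388, 219902325556⟩ ⟨0, 0⟩ ⟨0, 0⟩ = true := by
  decide +kernel

theorem a1_W1 (s : ℝ) (h0 : 1 / 20 ≤ s) (h1 : s ≤ 1 / 5) : 43 / 200 * s + 3 / 20 * s ^ 2 - 6 / 125 ≤ W1 s := by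
  have h := chk1 _ _ _ a1_W1_chk s (by push_cast; linarith) (by push_cast; linarith)
  simp only [a1E, sqE, E.ev, W1E_ev] at h
  push_cast at h
  linarith

open T in
theorem a1_W2_chk : chk [a1E W2E] (s0 (s0 (s0 (d 0) (d 0)) (s0 (d 0) (d 0))) (s0 (s0 (d 0) (d 0)) (s0 (d 0) (s0 (d 0) (d 0))))) ⟨219902325555, 461794883666⟩ ⟨0, 0⟩ ⟨0, 0⟩ = true := by
  decide +kernel

theorem a1_W2 (s : ℝ) (h0 : 1 / 5 ≤ s) (h1 : s ≤ 21 / 50) : 43 / 200 * s + 3 / 20 * s ^ 2 - 6 / 125 ≤ W2 s := by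
  have h := chk1 _ _ _ a1_W2_chk s (by push_cast; linarith) (by push_cast; linarith)
  simp only [a1E, sqE, E.ev, W2E_ev] at h
  push_cast at h
  linarith

open T in
theorem a1c_W3_chk : chk [a1cE W3E] (s0 (s0 (d 0) (d 0)) (d 0)) ⟨461794883665, 516770465055⟩ ⟨0, 0⟩ ⟨0, 0⟩ = true := by
  decide +kernel

theorem a1c_W3 (s : ℝ) (h0 : 21 / 50 ≤ s) (h1 : s ≤ 47 / 100) : 43 / 200 * s + 3 / 20 * (18 / 100) - 6 / 125 ≤ W3 s := by
  have h := chk1 _ _ _ a1c_W3_chk s (by push_cast; linarith) (by push_cast; linarith)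
  simp only [a1cE, E.ev, W3E_ev] at h
  push_cast at h
  linarith

open T in
theorem a2_W3_chk : chk [a2E W3E] (s0 (s0 (s0 (d 0) (d 0)) (s0 (d 0) (d 0))) (s0 (d 0) (d 0))) ⟨516770465054, 659706976666⟩ ⟨0, 0⟩ ⟨0, 0⟩ = true := by
  decide +kernel

theorem a2_W3 (s : ℝ) (h0 : 47 / 100 ≤ s) (h1 : s ≤ 3 / 5) : 3 / 20 * s ^ 2 + 2 / 25 * s + 51 / 4000 ≤ W3 s := by
  have h := chk1 _ _ _ a2_W3_chk s (by push_cast; linarith) (by push_cast; linarith)
  simp only [a2E, sqE, E.ev, W3E_ev] at h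
  push_cast at h
  linarith

open T in
theorem a2_W4_chk : chk [a2E W4E] (s0 (s0 (s0 (d 0) (d 0)) (s0 (d 0) (d 0))) (s0 (s0 (d 0) (d 0)) (s0 (d 0) (d 0)))) ⟨659706976665, 879609302221⟩ ⟨0, 0⟩ ⟨0, 0⟩ = true := by
  decide +kernel

theorem a2_W4 (s : ℝ) (h0 : 3 / 5 ≤ s) (h1 : s ≤ 4 / 5) : 3 / 20 * s ^ 2 + 2 / 25 * s + 51 / 4000 ≤ W4 s := by
  have h := chk1 _ _ _ a2_W4_chk s (by push_cast; linarith) (by push_cast; linarith)
  simp only [a2E, sqE, E.ev, W4E_ev] at h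
  push_cast at h
  linarith

open T in
theorem a2_W5_chk : chk [a2E W5E] (s0 (d 0) (s0 (d 0) (d 0))) ⟨879609302220, 989560464999⟩ ⟨0, 0⟩ ⟨0, 0⟩ = true := by
  decide +kernel

theorem a2_W5 (s : ℝ) (h0 : 4 / 5 ≤ s) (h1 : s ≤ 9 / 10) : 3 / 20 * s ^ 2 + 2 / 25 * s + 51 / 4000 ≤ W5 s := by
  have h := chk1 _ _ _ a2_W5_chk s (by push_cast; linarith) (by push_cast; linarith)
  simp only [a2E, sqE, E.ev, W5E_ev] at h
  push_cast at h
  linarith

open T in
theorem a3_W5_chk : chk [a3E W5E] (s0 (s0 (s0 (d 0) (d 0)) (s0 (d 0) (d 0))) (s0 (s0 (d 0) (d 0)) (d 0))) ⟨989560464998, 1319413953332⟩ ⟨0, 0⟩ ⟨0, 0⟩ = true := by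
  decide +kernel

theorem a3_W5 (s : ℝ) (h0 : 9 / 10 ≤ s) (h1 : s ≤ 6 / 5) : 113 / 400 * s - 6 / 125 ≤ W5 s := by
  have h := chk1 _ _ _ a3_W5_chk s (by push_cast; linarith) (by push_cast; linarith)
  simp only [a3E, E.ev, W5E_ev] at h
  push_cast at h
  linarith

open T in
theorem a3_W6_chk : chk [a3E W6E] (s0 (s0 (s0 (s0 (d 0) (d 0)) (d 0)) (s0 (d 0) (d 0))) (s0 (s0 (d 0) (d 0)) (s0 (s0 (d 0) (d 0)) (s0 (d 0) (d 0))))) ⟨1319413953331, 2034096511386⟩ ⟨0, 0⟩ ⟨0, 0⟩ = true := by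
  decide +kernel

theorem a3_W6 (s : ℝ) (h0 : 6 / 5 ≤ s) (h1 : s ≤ 37 / 20) : 113 / 400 * s - 6 / 125 ≤ W6 s := by
  have h := chk1 _ _ _ a3_W6_chk s (by push_cast; linarith) (by push_cast; linarith)
  simp only [a3E, E.ev, W6E_ev] at h
  push_cast at h
  linarith

open T in
theorem a4_W6_chk : chk [a4E W6E] (d 0) ⟨2034096511385, 2144047674164⟩ ⟨0, 0⟩ ⟨0, 0⟩ = true := by
  decide +kernel

theorem a4_W6 (s : ℝ) (h0 : 37 / 20 ≤ s) (h1 : s ≤ 39 / 20) : 3 / 20 * s ^ 2 - 13 / 40 * s + 1119 / 2000 ≤ W6 s := by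
  have h := chk1 _ _ _ a4_W6_chk s (by push_cast; linarith) (by push_cast; linarith)
  simp only [a4E, sqE, E.ev, W6E_ev] at h
  push_cast at h
  linarith

open T in
theorem a4c_W6_chk : chk [a4cE W6E] (d 0) ⟨2034096511385, 2144047674164⟩ ⟨0, 0⟩ ⟨0, 0⟩ = true := by
  decide +kernel

theorem a4c_W6 (s : ℝ) (h0 : 37 / 20 ≤ s) (h1 : s ≤ 39 / 20) : 461 / 1000 ≤ W6 s := by
  have h := chk1 _ _ _ a4c_W6_chk s (by push_cast; linarith) (by push_cast; linarith)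
  simp only [a4cE, E.ev, W6E_ev] at h
  push_cast at h
  linarith

open T in
theorem a5_W6_chk : chk [a5E W6E] (s0 (s0 (s0 (s0 (d 0) (d 0)) (d 0)) (d 0)) (d 0)) ⟨2144047674163, 3298534883328⟩ ⟨0, 0⟩ ⟨0, 0⟩ = true := by
  decide +kernel

theorem a5_W6 (s : ℝ) (h0 : 39 / 20 ≤ s) (h1 : s ≤ 3) : 1 / 2 ≤ W6 s := by
  have h := chk1 _ _ _ a5_W6_chk s (by push_cast; linarith) (by push_cast; linarith)
  simp only [a5E, E.ev, W6E_ev] at h
  push_cast at h
  linarith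

open T in
theorem b1_W1_chk : chk [b1E W1E] (s0 (s0 (s0 (s0 (s0 (d 0) (d 0)) (s0 (d 0) (d 0))) (s0 (d 0) (d 0))) (s0 (s0 (d 0) (d 0)) (s0 (d 0) (d 0)))) (s0 (s0 (s0 (d 0) (d 0)) (s0 (d 0) (d 0))) (s0 (d 0) (s0 (d 0) (d 0))))) ⟨54975581388, 219902325556⟩ ⟨0, 0⟩ ⟨0, 0⟩ = true := by
  decide +kernel

theorem b1_W1 (s : ℝ) (h0 : 1 / 20 ≤ s) (h1 : s ≤ 1 / 5) : s ^ 2 / 2 - s ^ 4 / 6 + s ^ 6 / 12 ≤ W1 s := by
  have h := chk1 _ _ _ b1_W1_chk s (by push_cast; linarith) (by push_cast; linarith)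
  simp only [b1E, sqE, E.ev, W1E_ev] at h
  push_cast at h
  simp only [div_one] at h
  linarith

open T in
theorem b1_W2_chk : chk [b1E W2E] (s0 (s0 (s0 (d 0) (d 0)) (s0 (d 0) (d 0))) (s0 (s0 (d 0) (d 0)) (s0 (d 0) (s0 (d 0) (d 0))))) ⟨219902325555, 329853488333⟩ ⟨0, 0⟩ ⟨0, 0⟩ = true := by
  decide +kernel

theorem b1_W2 (s : ℝ) (h0 : 1 / 5 ≤ s) (h1 : s ≤ 3 / 10) : s ^ 2 / 2 - s ^ 4 / 6 + s ^ 6 / 12 ≤ W2 s := by
  have h := chk1 _ _ _ b1_W2_chk s (by push_cast; linarith) (by push_cast; linarith)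
  simp only [b1E, sqE, E.ev, W2E_ev] at h
  push_cast at h
  simp only [div_one] at h
  linarith


theorem W6_large (s : ℝ) (hs : 3 ≤ s) : 1 / 2 ≤ W6 s := by
  have hc : chk [.sub (.cst 1 2) (.mul (.cst 2 1) (.sub (.add (.sub
    (.log (.div (.add (.cst 3 1) .x0) (.cst 4 1))) (.cst 577216 1000000))
    (.mul (.div (.cst 2 1) (.add (.cst 1 1) .x0)) (.log (.div (.add (.cst 3 1) .x0) (.cst 2 1)))))
    (.cst 304 1000000)))] (T.v 0) ⟨3298534883328, 3298534883328⟩ ⟨0, 0⟩ ⟨0, 0⟩ = true := by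
    decide +kernel
  have h := chk1 _ _ _ hc 3 (by norm_num) (by norm_num)
  simp only [E.ev] at h
  push_cast at h
  simp only [div_one] at h
  have h2 := w0_mono (show (3 : ℝ) ∈ Set.Ici 0 by simp only [Set.mem_Ici]; norm_num)
    (show s ∈ Set.Ici (0 : ℝ) by simp only [Set.mem_Ici]; linarith) hs
  have h3 : 0 ≤ Real.log ((8 / 9 + s) / (1 + s)) + (1 / 9) / (8 / 9 + s) := by
    have h11 := Real.one_sub_inv_le_log_of_pos (show 0 < (8 / 9 + s) / (1 + s) by positivity)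
    have h12 : 1 - ((8 / 9 + s) / (1 + s))⁻¹ = -((1 / 9) / (8 / 9 + s)) := by
      rw [inv_div]
      field_simp
      ring
    rw [h12] at h11
    linarith
  have h4 : w0 3 = Real.log ((3 + 3) / 4) - 577216 / 1000000 + 2 / (1 + 3) * Real.log ((3 + 3) / 2) := rfl
  unfold W6
  linarith

/-- the five bounds of `Fr.ge_harmless` -/
theorem What_w1 (s : ℝ) (h0 : 0 ≤ s) (h1 : s ≤ 47 / 100) :
    43 / 200 * s + 3 / 20 * min (s ^ 2) (18 / 100) - 6 / 125 ≤ What s := by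
  have m1 : min (s ^ 2) (18 / 100) ≤ s ^ 2 := min_le_left _ _
  have m2 : min (s ^ 2) (18 / 100) ≤ 18 / 100 := min_le_right _ _
  rcases le_or_gt s (1 / 20) with c | c
  · have := What_zero s h0 c
    nlinarith
  rcases le_or_gt s (1 / 5) with c2 | c2
  · linarith [What_one s c c2, a1_W1 s c.le c2]
  rcases le_or_gt s (21 / 50) with c3 | c3
  · linarith [What_two s c2 c3, a1_W2 s c2.le c3]
  · linarith [What_three s c3 (by linarith), a1c_W3 s c3.le h1]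

theorem What_w2 (s : ℝ) (h0 : 47 / 100 ≤ s) (h1 : s ≤ 9 / 10) :
    3 / 20 * s ^ 2 + 2 / 25 * s + 51 / 4000 ≤ What s := by
  rcases le_or_gt s (3 / 5) with c | c
  · linarith [What_three s (by linarith) c, a2_W3 s h0 c]
  rcases le_or_gt s (4 / 5) with c2 | c2
  · linarith [What_four s c c2, a2_W4 s c.le c2]
  · linarith [What_five s c2 (by linarith), a2_W5 s c2.le h1]

theorem What_w3 (s : ℝ) (h0 : 9 / 10 ≤ s) (h1 : s ≤ 37 / 20) :
    113 / 400 * s - 6 / 125 ≤ What s := by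
  rcases le_or_gt s (6 / 5) with c | c
  · linarith [What_five s (by linarith) c, a3_W5 s h0 c]
  · linarith [What_six s c, a3_W6 s c.le h1]

theorem What_w4 (s : ℝ) (h0 : 37 / 20 ≤ s) (h1 : s ≤ 39 / 20) :
    max (3 / 20 * s ^ 2 - 13 / 40 * s + 1119 / 2000) (461 / 1000) ≤ What s := by
  have h := What_six s (by linarith)
  exact max_le (by linarith [a4_W6 s h0 h1]) (by linarith [a4c_W6 s h0 h1])

theorem What_w5 (s : ℝ) (h0 : 39 / 20 ≤ s) : 1 / 2 ≤ What s := by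
  have h := What_six s (by linarith)
  rcases le_total s 3 with c | c
  · linarith [a5_W6 s h0 c]
  · linarith [W6_large s c]

end Fr
end Pool.Agent.Lib.MP_6947cd_al
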