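import Pool.Agent.Lib.MP_6947cd_al.T.RowNum

/-!
Problem MP_6947cd_al (Chollet).  The row function `F` for rows with finitely many types of entries: the
certificate inequalities are finite sums of logarithms with rational weights; terms can be merged by Jensen's
inequality; expressions for the kernel checker.
-/

set_option autoImplicit false
open Finset

namespace Pool.Agent.Lib.MP_6947cd_al
namespace Ent

/-- expectation of `log (a + jumps)`: `p.1` independent jumps `p.2`, each present with probability `u` -/
noncomputable def blm (u : ℝ) : List (ℕ × ℝ) → ℝ → ℝ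
  | [], a => Real.log a
  | p :: L, a => ∑ c ∈ range (p.1 + 1), (p.1.choose c : ℝ) *
      (u ^ c * (1 - u) ^ (p.1 - c) * blm u L (a + c * p.2))

/-- integral of `u ^ k * (1 - u) ^ l` -/
def Bq (k l : ℕ) : ℚ := (k.factorial * l.factorial : ℕ) / ((k + l + 1).factorial : ℕ)

lemma Bq_eq (k l : ℕ) : ((Bq k l : ℚ) : ℝ) = ∫ u in (0 : ℝ)..1, u ^ k * (1 - u) ^ l := by
  rw [beta_nat]
  unfold Bq
  push_cast
  rfl

/-- exact value of the integral of `u ^ k * (1 - u) ^ l * blm u L a` -/
noncomputable def bx : ℕ → ℕ → List (ℕ × ℝ) → ℝ → ℝ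
  | k, l, [], a => (Bq k l : ℝ) * Real.log a
  | k, l, p :: L, a => ∑ c ∈ range (p.1 + 1), (p.1.choose c : ℝ) *
      bx (k + c) (l + (p.1 - c)) L (a + c * p.2)

lemma blm_cont (L : List (ℕ × ℝ)) (a : ℝ) : Continuous fun u : ℝ => blm u L a := by
  induction L generalizing a with
  | nil => simp only [blm]; exact continuous_const
  | cons p L ih =>
    simp only [blm]
    refine continuous_finsetSum _ fun c _ => continuous_const.mul ?_
    exact (((continuous_id.pow c).mul ((continuous_const.sub continuous_id).pow _))).mul (ih _)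

theorem blm_int (L : List (ℕ × ℝ)) (k l : ℕ) (a : ℝ) :
    ∫ u in (0 : ℝ)..1, u ^ k * (1 - u) ^ l * blm u L a = bx k l L a := by
  induction L generalizing k l a with
  | nil =>
    simp only [blm, bx]
    rw [intervalIntegral.integral_mul_const, Bq_eq]
  | cons p L ih =>
    simp only [blm, bx]
    have e : ∀ u : ℝ, u ^ k * (1 - u) ^ l * ∑ c ∈ range (p.1 + 1), (p.1.choose c : ℝ) *
        (u ^ c * (1 - u) ^ (p.1 - c) * blm u L (a + c * p.2))
        = ∑ c ∈ range (p.1 + 1), (p.1.choose c : ℝ) *
          (u ^ (k + c) * (1 - u) ^ (l + (p.1 - c)) * blm u L (a + c * p.2)) := by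
      intro u
      rw [Finset.mul_sum]
      refine Finset.sum_congr rfl fun c _ => ?_
      rw [pow_add, pow_add]
      ring
    rw [intervalIntegral.integral_congr fun u _ => e u, intervalIntegral.integral_finsetSum]
    · refine Finset.sum_congr rfl fun c _ => ?_
      rw [intervalIntegral.integral_const_mul, ih]
    · intro c _
      refine Continuous.intervalIntegrable ?_ _ _
      exact continuous_const.mul (((continuous_id.pow _).mul
        ((continuous_const.sub continuous_id).pow _)).mul (blm_cont L _))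

section Types

variable {κ : Type} [Fintype κ] [DecidableEq κ] {α : Type} [DecidableEq α]

omit [Fintype κ] in
lemma bern_types (u : ℝ) (x : κ → ℝ) (S : α → Finset κ) (z : α → ℝ) (l : List α) (hl : l.Nodup)
    (hdis : ∀ a ∈ l, ∀ c ∈ l, a ≠ c → Disjoint (S a) (S c)) (hx : ∀ a ∈ l, ∀ k ∈ S a, x k = z a)
    (A : ℝ) : bern u (l.toFinset.biUnion S) (fun K => Real.log (A + ∑ k ∈ K, x k))
      = blm u (l.map fun a => ((S a).card, z a)) A := by
  induction l generalizing A with
  | nil => simp [bern_empty, blm]
  | cons a l ih =>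
    rw [List.nodup_cons] at hl
    have hd : Disjoint (S a) (l.toFinset.biUnion S) := by
      rw [Finset.disjoint_biUnion_right]
      intro c hc
      rw [List.mem_toFinset] at hc
      exact hdis a (by simp) c (by simp [hc]) fun h => hl.1 (h ▸ hc)
    have ih' := ih hl.2 (fun c hc d hd h => hdis c (by simp [hc]) d (by simp [hd]) h)
      (fun c hc k hk => hx c (by simp [hc]) k hk)
    rw [List.toFinset_cons, Finset.biUnion_insert, bern_union u _ _ hd]
    have e1 : ∀ K ⊆ S a, bern u (l.toFinset.biUnion S) (fun K' => Real.log (A + ∑ k ∈ K ∪ K', x k))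
        = blm u (l.map fun a => ((S a).card, z a)) (A + (K.card : ℝ) * z a) := by
      intro K hK
      rw [← ih']
      refine bern_congr u _ _ _ fun K' hK' => ?_
      rw [Finset.sum_union (Finset.disjoint_of_subset_left hK (Finset.disjoint_of_subset_right hK' hd)),
        Finset.sum_congr rfl fun k hk => hx a (by simp) k (hK hk), Finset.sum_const, nsmul_eq_mul,
        add_assoc]
    rw [bern_congr u _ _ _ e1]
    unfold bern
    rw [Finset.sum_powerset_apply_card (fun c => u ^ c * (1 - u) ^ ((S a).card - c) *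
      blm u (l.map fun a => ((S a).card, z a)) (A + (c : ℝ) * z a))]
    simp only [List.map_cons, blm, nsmul_eq_mul]

omit [Fintype κ] in
lemma bern_zero (u : ℝ) (x : κ → ℝ) (H Z : Finset κ) (hd : Disjoint H Z) (hZ : ∀ k ∈ Z, x k = 0)
    (A : ℝ) : bern u (H ∪ Z) (fun K => Real.log (A + ∑ k ∈ K, x k))
      = bern u H (fun K => Real.log (A + ∑ k ∈ K, x k)) := by
  rw [bern_union u H Z hd]
  refine bern_congr u H _ _ fun K hK => ?_
  have e1 : ∀ K' ⊆ Z, Real.log (A + ∑ k ∈ K ∪ K', x k) = Real.log (A + ∑ k ∈ K, x k) := by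
    intro K' hK'
    rw [Finset.sum_union (Finset.disjoint_of_subset_left hK (Finset.disjoint_of_subset_right hK' hd)),
      Finset.sum_eq_zero fun k hk => hZ k (hK' hk), add_zero]
  rw [bern_congr u Z _ _ e1, bern_const]

/-- Row bound for a row with finitely many types of entries. -/
theorem F_le_types (b : κ → ℝ) (hb0 : ∀ j, 0 ≤ b j) (hne : ∃ j, b j ≠ 0) (l : List α) (hl : l.Nodup)
    (S : α → Finset κ) (hdis : ∀ a ∈ l, ∀ c ∈ l, a ≠ c → Disjoint (S a) (S c))
    (hout : ∀ k, (∀ a ∈ l, k ∉ S a) → b k = 0) (v x : α → ℝ) (hv : ∀ a ∈ l, ∀ k ∈ S a, b k ≤ v a)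
    (hx : ∀ a ∈ l, 0 < x a) (V : ℝ)
    (hV : ∀ a ∈ l, (S a).Nonempty → 0 < v a → Real.log (v a) - Real.log (x a)
      + bx 0 0 (l.map fun c => ((S c).card - (if c = a then 1 else 0), x c)) (x a) ≤ V) :
    F b ≤ V := by
  classical
  -- the certificate
  set X : κ → ℝ := fun k => if h : ∃ a ∈ l, k ∈ S a then x h.choose else 0 with hX
  have hXS : ∀ a ∈ l, ∀ k ∈ S a, X k = x a := by
    intro a ha k hk
    have h : ∃ a ∈ l, k ∈ S a := ⟨a, ha, hk⟩
    simp only [hX]
    rw [dif_pos h]
    obtain ⟨h1, h2⟩ := h.choose_spec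
    by_contra hne'
    have hne2 : h.choose ≠ a := fun h3 => hne' (by rw [h3])
    exact (Finset.disjoint_left.mp (hdis _ h1 a ha hne2)) h2 hk
  have hX0 : ∀ k, (∀ a ∈ l, k ∉ S a) → X k = 0 := by
    intro k hk
    simp only [hX]
    rw [dif_neg]
    rintro ⟨a, ha, hka⟩
    exact hk a ha hka
  refine F_le_of_cert b X V hne ?_ ?_ ?_
  · intro k
    by_cases h : ∃ a ∈ l, k ∈ S a
    · obtain ⟨a, ha, hk⟩ := h
      rw [hXS a ha k hk]; exact (hx a ha).le
    · push Not at h
      rw [hX0 k h]
  · intro k hk
    by_cases h : ∃ a ∈ l, k ∈ S a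
    · obtain ⟨a, ha, hk'⟩ := h
      rw [hXS a ha k hk']; exact hx a ha
    · push Not at h
      exact absurd (hout k h) hk
  · intro k hk
    by_cases h : ∃ a ∈ l, k ∈ S a
    · obtain ⟨a, ha, hka⟩ := h
      have hbk : 0 < b k := lt_of_le_of_ne (hb0 k) (Ne.symm hk)
      have hvk := hv a ha k hka
      refine le_trans ?_ (hV a ha ⟨k, hka⟩ (lt_of_lt_of_le hbk hvk))
      rw [hXS a ha k hka]
      refine add_le_add (sub_le_sub_right (Real.log_le_log hbk hvk) _) (le_of_eq ?_)
      rw [ell_eq Finset.univ X k (Finset.mem_univ k), ← blm_int]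
      refine intervalIntegral.integral_congr fun u _ => ?_
      simp only [pow_zero, one_mul]
      set S' : α → Finset κ := fun c => (S c).erase k with hS'
      have hdis' : ∀ a ∈ l, ∀ c ∈ l, a ≠ c → Disjoint (S' a) (S' c) := fun a ha c hc hac =>
        Finset.disjoint_of_subset_left (Finset.erase_subset _ _)
          (Finset.disjoint_of_subset_right (Finset.erase_subset _ _) (hdis a ha c hc hac))
      have hx' : ∀ a ∈ l, ∀ k ∈ S' a, X k = x a := fun c hc m hm =>
        hXS c hc m (Finset.mem_of_mem_erase hm)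
      set Z : Finset κ := (Finset.univ.erase k).filter fun m => ∀ a ∈ l, m ∉ S a with hZ
      have hsplit : (Finset.univ : Finset κ).erase k = l.toFinset.biUnion S' ∪ Z := by
        ext m
        simp only [Finset.mem_erase, Finset.mem_univ, and_true, Finset.mem_union, Finset.mem_biUnion,
          List.mem_toFinset, hS', hZ, Finset.mem_filter]
        constructor
        · intro hm
          by_cases h : ∃ a ∈ l, m ∈ S a
          · obtain ⟨c, hc, hmc⟩ := h
            exact Or.inl ⟨c, hc, hm, hmc⟩
          · push Not at h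
            exact Or.inr ⟨hm, h⟩
        · rintro (⟨c, _, hm, _⟩ | ⟨hm, _⟩)
          · exact hm
          · exact hm
      have hdZ : Disjoint (l.toFinset.biUnion S') Z := by
        rw [Finset.disjoint_left]
        intro m hm hmZ
        simp only [Finset.mem_biUnion, List.mem_toFinset, hS'] at hm
        obtain ⟨c, hc, hmc⟩ := hm
        rw [hZ, Finset.mem_filter] at hmZ
        exact hmZ.2 c hc (Finset.mem_of_mem_erase hmc)
      have hXk : X k = x a := hXS a ha k hka
      rw [hsplit, hXk, bern_zero u X _ Z hdZ (fun m hm => by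
        rw [hZ, Finset.mem_filter] at hm
        exact hX0 m hm.2) (x a), bern_types u X S' x l hl hdis' hx' (x a)]
      have hcard : ∀ c ∈ l, (S' c).card = (S c).card - (if c = a then 1 else 0) := by
        intro c hc
        simp only [hS']
        by_cases hca : c = a
        · rw [if_pos hca, Finset.card_erase_of_mem (by rw [hca]; exact hka)]
        · rw [if_neg hca, Finset.erase_eq_of_notMem, Nat.sub_zero]
          intro hkc
          exact (Finset.disjoint_left.mp (hdis c hc a ha hca)) hkc hka
      rw [List.map_congr_left fun c hc => by rw [hcard c hc]]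
    · push Not at h
      exact absurd (hout k h) hk

end Types

/-! ### symbolic terms -/

/-- coefficient vectors -/
noncomputable def dotq : List ℚ → List ℝ → ℝ
  | c :: cs, x :: xs => (c : ℝ) * x + dotq cs xs
  | _, _ => 0

/-- the terms of `bx k l (ms.zip xs) a`: weights and numbers of jumps -/
def gen : ℕ → ℕ → List ℕ → List (ℚ × List ℚ)
  | k, l, [] => [(Bq k l, [])]
  | k, l, m :: ms => (List.range (m + 1)).flatMap fun c =>
      (gen (k + c) (l + (m - c)) ms).map fun t => ((m.choose c : ℚ) * t.1, (c : ℚ) :: t.2)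

lemma sum_flatMap {β γ : Type} (L : List β) (g : β → List γ) (f : γ → ℝ) :
    ((L.flatMap g).map f).sum = (L.map fun b => ((g b).map f).sum).sum := by
  induction L with
  | nil => simp
  | cons b L ih => simp [List.flatMap_cons, ih]

lemma sum_range_list (n : ℕ) (f : ℕ → ℝ) : ((List.range n).map f).sum = ∑ c ∈ range n, f c := by
  induction n with
  | zero => simp
  | succ n ih => rw [List.range_succ, Finset.sum_range_succ, List.map_append, List.sum_append, ih]; simp

lemma bx_gen (ms : List ℕ) (xs : List ℝ) (hlen : ms.length = xs.length) (k l : ℕ) (a : ℝ) :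
    bx k l (ms.zip xs) a
      = ((gen k l ms).map fun t => (t.1 : ℝ) * Real.log (a + dotq t.2 xs)).sum := by
  induction ms generalizing xs k l a with
  | nil => simp [bx, gen, dotq]
  | cons m ms ih =>
    cases xs with
    | nil => simp at hlen
    | cons x xs =>
      simp only [List.length_cons, Nat.add_right_cancel_iff] at hlen
      simp only [List.zip_cons_cons, bx, gen]
      rw [sum_flatMap, sum_range_list]
      refine Finset.sum_congr rfl fun c _ => ?_
      rw [ih xs hlen, ← List.sum_map_mul_left, List.map_map]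
      congr 1
      refine List.map_congr_left fun t _ => ?_
      simp only [Function.comp_apply, dotq]
      push_cast
      rw [show a + (c : ℝ) * x + dotq t.2 xs = a + ((c : ℝ) * x + dotq t.2 xs) by ring]
      ring

/-- increase one coefficient by one -/
def inc : ℕ → List ℚ → List ℚ
  | _, [] => []
  | 0, c :: cs => (c + 1) :: cs
  | n + 1, c :: cs => c :: inc n cs

lemma dotq_inc (i : ℕ) (cs : List ℚ) (xs : List ℝ) (h1 : i < cs.length) (h2 : i < xs.length) :
    dotq (inc i cs) xs = xs[i] + dotq cs xs := by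
  induction cs generalizing i xs with
  | nil => simp at h1
  | cons c cs ih =>
    cases xs with
    | nil => simp at h2
    | cons x xs =>
      cases i with
      | zero => simp only [inc, dotq, List.getElem_cons_zero]; push_cast; ring
      | succ i =>
        simp only [inc, dotq, List.getElem_cons_succ]
        rw [ih i xs (by simpa using h1) (by simpa using h2)]
        ring

lemma gen_length (k l : ℕ) (ms : List ℕ) : ∀ t ∈ gen k l ms, t.2.length = ms.length := by
  induction ms generalizing k l with
  | nil => intro t ht; simp only [gen, List.mem_singleton] at ht; rw [ht]; rfl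
  | cons m ms ih =>
    intro t ht
    simp only [gen, List.mem_flatMap, List.mem_map] at ht
    obtain ⟨c, _, t', ht', rfl⟩ := ht
    simp [ih _ _ t' ht']

/-- value of a list of terms -/
noncomputable def tv (T : List (ℚ × List ℚ)) (xs : List ℝ) : ℝ :=
  (T.map fun t => (t.1 : ℝ) * Real.log (dotq t.2 xs)).sum

/-- the terms of the certificate inequality of the type `a` -/
def terms (R : ℕ) (m : ℕ → ℕ) (a : ℕ) : List (ℚ × List ℚ) :=
  (gen 0 0 ((List.range R).map fun c => m c - if c = a then 1 else 0)).map fun t => (t.1, inc a t.2)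

lemma tv_terms (R : ℕ) (m : ℕ → ℕ) (x : ℕ → ℝ) (a : ℕ) (ha : a < R) :
    tv (terms R m a) ((List.range R).map x)
      = bx 0 0 ((List.range R).map fun c => (m c - (if c = a then 1 else 0), x c)) (x a) := by
  have e : (List.range R).map (fun c => (m c - (if c = a then 1 else 0), x c))
      = ((List.range R).map fun c => m c - if c = a then 1 else 0).zip ((List.range R).map x) := by
    rw [List.zip_map', ]
  rw [e, bx_gen _ _ (by simp)]
  unfold tv terms
  rw [List.map_map]
  congr 1
  refine List.map_congr_left fun t ht => ?_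
  have hlen := gen_length _ _ _ t ht
  simp only [List.length_map, List.length_range] at hlen
  simp only [Function.comp_apply]
  rw [dotq_inc a t.2 _ (by rw [hlen]; exact ha) (by simpa using ha)]
  simp

/-- Row bound for a row with finitely many types of entries, symbolic form. -/
theorem F_le_atoms {κ : Type} [Fintype κ] [DecidableEq κ] (b : κ → ℝ) (hb0 : ∀ j, 0 ≤ b j)
    (hne : ∃ j, b j ≠ 0) (R : ℕ) (m : ℕ → ℕ)
    (S : ℕ → Finset κ) (hdis : ∀ a < R, ∀ c < R, a ≠ c → Disjoint (S a) (S c))
    (hcard : ∀ a < R, (S a).card = m a)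
    (hout : ∀ k, (∀ a < R, k ∉ S a) → b k = 0) (v x : ℕ → ℝ) (hv : ∀ a < R, ∀ k ∈ S a, b k ≤ v a)
    (hx : ∀ a < R, 0 < x a) (V : ℝ)
    (hV : ∀ a < R, 0 < m a → 0 < v a → Real.log (v a) - Real.log (x a)
      + tv (terms R m a) ((List.range R).map x) ≤ V) :
    F b ≤ V := by
  refine F_le_types b hb0 hne (List.range R) List.nodup_range S ?_ ?_ v x ?_ ?_ V ?_
  · intro a ha c hc hac
    exact hdis a (List.mem_range.mp ha) c (List.mem_range.mp hc) hac
  · intro k hk
    exact hout k fun a ha => hk a (List.mem_range.mpr ha)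
  · intro a ha
    exact hv a (List.mem_range.mp ha)
  · intro a ha
    exact hx a (List.mem_range.mp ha)
  · intro a ha hne ha0
    have ha' := List.mem_range.mp ha
    have hm : 0 < m a := by rw [← hcard a ha']; exact Finset.card_pos.mpr hne
    refine le_trans (le_of_eq ?_) (hV a ha' hm ha0)
    rw [tv_terms R m x a ha']
    congr 1
    congr 1
    refine List.map_congr_left fun c hc => ?_
    rw [hcard c (List.mem_range.mp hc)]

/-! ### merging terms by Jensen's inequality -/

/-- sum of coefficient vectors -/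
def vadd : List ℚ → List ℚ → List ℚ
  | [], d => d
  | c, [] => c
  | c :: cs, d :: ds => (c + d) :: vadd cs ds

lemma dotq_vadd (c d : List ℚ) (xs : List ℝ) : dotq (vadd c d) xs = dotq c xs + dotq d xs := by
  induction c generalizing d xs with
  | nil => simp [vadd, dotq]
  | cons c cs ih =>
    cases d with
    | nil => simp [vadd, dotq]
    | cons d ds =>
      cases xs with
      | nil => simp [vadd, dotq]
      | cons x xs =>
        simp only [vadd, dotq, ih]
        push_cast
        ring

lemma dotq_smul (q : ℚ) (c : List ℚ) (xs : List ℝ) :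
    dotq (c.map fun y => q * y) xs = (q : ℝ) * dotq c xs := by
  induction c generalizing xs with
  | nil => simp [dotq]
  | cons c cs ih =>
    cases xs with
    | nil => simp [dotq]
    | cons x xs =>
      simp only [List.map_cons, dotq, ih]
      push_cast
      ring

/-- weighted sum of the coefficient vectors -/
def vsum : List (ℚ × List ℚ) → List ℚ
  | [] => []
  | t :: G => vadd (t.2.map fun y => t.1 * y) (vsum G)

/-- total weight -/
def wsum : List (ℚ × List ℚ) → ℚ
  | [] => 0
  | t :: G => t.1 + wsum G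

/-- one term which replaces a list of terms -/
def mrg (G : List (ℚ × List ℚ)) : ℚ × List ℚ := (wsum G, (vsum G).map fun y => 1 / wsum G * y)

lemma jen_aux (G : List (ℚ × List ℚ)) (xs : List ℝ) (hG : ∀ t ∈ G, 0 ≤ t.1 ∧ 0 < dotq t.2 xs)
    (s : ℝ) (hs : 0 < s) :
    tv G xs ≤ (wsum G : ℝ) * Real.log s + dotq (vsum G) xs / s - (wsum G : ℝ) := by
  induction G with
  | nil => simp [tv, wsum, vsum, dotq]
  | cons t G ih =>
    have h1 := ih fun t' ht' => hG t' (by simp [ht'])
    obtain ⟨hq, hd⟩ := hG t (by simp)
    have hqR : (0 : ℝ) ≤ (t.1 : ℝ) := by exact_mod_cast hq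
    have h2 : Real.log (dotq t.2 xs) ≤ Real.log s + dotq t.2 xs / s - 1 := by
      have h3 := Real.log_le_sub_one_of_pos (div_pos hd hs)
      rw [Real.log_div hd.ne' hs.ne'] at h3
      linarith
    have h4 := mul_le_mul_of_nonneg_left h2 hqR
    have e1 : tv (t :: G) xs = (t.1 : ℝ) * Real.log (dotq t.2 xs) + tv G xs := by simp [tv]
    rw [e1]
    simp only [wsum, vsum]
    rw [dotq_vadd, dotq_smul]
    push_cast
    have h5 : (t.1 : ℝ) * (Real.log s + dotq t.2 xs / s - 1) = (t.1 : ℝ) * Real.log s
        + (t.1 : ℝ) * dotq t.2 xs / s - (t.1 : ℝ) := by ring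
    have h6 : ((t.1 : ℝ) * dotq t.2 xs + dotq (vsum G) xs) / s
        = (t.1 : ℝ) * dotq t.2 xs / s + dotq (vsum G) xs / s := by ring
    rw [h6]
    linarith

lemma wsum_pos (G : List (ℚ × List ℚ)) (hG : ∀ t ∈ G, 0 < t.1) (hne : G ≠ []) : 0 < wsum G := by
  induction G with
  | nil => exact absurd rfl hne
  | cons t G ih =>
    simp only [wsum]
    have h1 := hG t (by simp)
    cases G with
    | nil => simp [wsum, h1]
    | cons t' G' =>
      have := ih (fun s hs => hG s (by simp [hs])) (by simp)
      linarith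

lemma vsum_pos (G : List (ℚ × List ℚ)) (xs : List ℝ) (hG : ∀ t ∈ G, 0 < t.1 ∧ 0 < dotq t.2 xs)
    (hne : G ≠ []) : 0 < dotq (vsum G) xs := by
  induction G with
  | nil => exact absurd rfl hne
  | cons t G ih =>
    simp only [vsum]
    rw [dotq_vadd, dotq_smul]
    obtain ⟨hq, hd⟩ := hG t (by simp)
    have hqR : (0 : ℝ) < (t.1 : ℝ) := by exact_mod_cast hq
    have h1 := mul_pos hqR hd
    cases G with
    | nil => simp only [vsum, dotq, add_zero]; exact h1
    | cons t' G' =>
      have := ih (fun s hs => hG s (by simp [hs])) (by simp)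
      linarith

lemma tv_le_mrg (G : List (ℚ × List ℚ)) (xs : List ℝ) (hG : ∀ t ∈ G, 0 < t.1 ∧ 0 < dotq t.2 xs) :
    tv G xs ≤ ((mrg G).1 : ℝ) * Real.log (dotq (mrg G).2 xs) := by
  by_cases hne : G = []
  · subst hne
    simp [tv, mrg, wsum]
  · have hW := wsum_pos G (fun t ht => (hG t ht).1) hne
    have hS := vsum_pos G xs hG hne
    have hWR : (0 : ℝ) < (wsum G : ℝ) := by exact_mod_cast hW
    set s : ℝ := dotq (mrg G).2 xs with hs
    have hs' : s = dotq (vsum G) xs / (wsum G : ℝ) := by
      rw [hs]
      simp only [mrg]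
      rw [dotq_smul]
      push_cast
      ring
    have hs0 : 0 < s := by rw [hs']; exact div_pos hS hWR
    have h1 := jen_aux G xs (fun t ht => ⟨(hG t ht).1.le, (hG t ht).2⟩) s hs0
    have h2 : dotq (vsum G) xs / s = (wsum G : ℝ) := by
      rw [hs']
      field_simp
    rw [h2] at h1
    have h3 : ((mrg G).1 : ℝ) = (wsum G : ℝ) := rfl
    rw [h3]
    linarith

/-- the terms with the label `i` -/
def sel (i : ℕ) : List ℕ → List (ℚ × List ℚ) → List (ℚ × List ℚ)
  | j :: ids, t :: T => if j = i then t :: sel i ids T else sel i ids T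
  | _, _ => []

/-- merge the terms with the same label -/
def group (K : ℕ) (ids : List ℕ) (T : List (ℚ × List ℚ)) : List (ℚ × List ℚ) :=
  (List.range K).map fun i => mrg (sel i ids T)

lemma sel_mem (i : ℕ) (ids : List ℕ) (T : List (ℚ × List ℚ)) : ∀ t ∈ sel i ids T, t ∈ T := by
  induction T generalizing ids with
  | nil => intro t ht; cases ids <;> simp [sel] at ht
  | cons t T ih =>
    intro s hs
    cases ids with
    | nil => simp [sel] at hs
    | cons j ids =>
      simp only [sel] at hs
      split_ifs at hs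
      · rcases List.mem_cons.mp hs with h | h
        · simp [h]
        · simp [ih ids s h]
      · simp [ih ids s hs]

lemma tv_sel (K : ℕ) (ids : List ℕ) (T : List (ℚ × List ℚ)) (xs : List ℝ)
    (hlen : ids.length = T.length) (hK : ∀ j ∈ ids, j < K) :
    tv T xs = ∑ i ∈ range K, tv (sel i ids T) xs := by
  induction T generalizing ids with
  | nil =>
    cases ids with
    | nil => simp [sel, tv]
    | cons j ids => simp at hlen
  | cons t T ih =>
    cases ids with
    | nil => simp at hlen
    | cons j ids =>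
      have h1 := ih ids (by simpa using hlen) fun j' hj' => hK j' (by simp [hj'])
      have e1 : tv (t :: T) xs = (t.1 : ℝ) * Real.log (dotq t.2 xs) + tv T xs := by simp [tv]
      have e2 : ∀ i ∈ range K, tv (sel i (j :: ids) (t :: T)) xs
          = (if j = i then (t.1 : ℝ) * Real.log (dotq t.2 xs) else 0) + tv (sel i ids T) xs := by
        intro i _
        simp only [sel]
        split_ifs
        · simp [tv]
        · simp
      rw [e1, Finset.sum_congr rfl e2, Finset.sum_add_distrib, ← h1, Finset.sum_ite_eq,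
        if_pos (Finset.mem_range.mpr (hK j (by simp)))]

/-- check of the data of a grouping -/
def goodG (K : ℕ) (ids : List ℕ) (T : List (ℚ × List ℚ)) : Bool :=
  decide (ids.length = T.length) && ids.all (fun j => decide (j < K)) &&
    T.all (fun t => decide (0 < t.1))

theorem tv_le_group (K : ℕ) (ids : List ℕ) (T : List (ℚ × List ℚ)) (h : goodG K ids T = true)
    (xs : List ℝ) (hT : ∀ t ∈ T, 0 < dotq t.2 xs) : tv T xs ≤ tv (group K ids T) xs := by
  unfold goodG at h
  simp only [Bool.and_eq_true, decide_eq_true_eq, List.all_eq_true] at h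
  obtain ⟨⟨h1, h2⟩, h3⟩ := h
  rw [tv_sel K ids T xs h1 h2]
  have e : tv (group K ids T) xs
      = ∑ i ∈ range K, ((mrg (sel i ids T)).1 : ℝ) * Real.log (dotq (mrg (sel i ids T)).2 xs) := by
    unfold tv group
    rw [List.map_map, ← sum_range_list]
    rfl
  rw [e]
  refine Finset.sum_le_sum fun i _ => tv_le_mrg _ xs fun t ht => ?_
  have := sel_mem i ids T t ht
  exact ⟨h3 t this, hT t this⟩

/-! ### positivity of the arguments -/

lemma dotq_nonneg (cs : List ℚ) (xs : List ℝ) (hc : ∀ c ∈ cs, 0 ≤ c) (hx : ∀ x ∈ xs, 0 < x) :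
    0 ≤ dotq cs xs := by
  induction cs generalizing xs with
  | nil => simp [dotq]
  | cons c cs ih =>
    cases xs with
    | nil => simp [dotq]
    | cons x xs =>
      simp only [dotq]
      have h1 : (0 : ℝ) ≤ (c : ℝ) := by exact_mod_cast hc c (by simp)
      have h2 := hx x (by simp)
      have h3 := ih xs (fun c hc' => hc c (by simp [hc'])) fun x hx' => hx x (by simp [hx'])
      have := mul_nonneg h1 h2.le
      linarith

lemma gen_nonneg (k l : ℕ) (ms : List ℕ) : ∀ t ∈ gen k l ms, ∀ c ∈ t.2, 0 ≤ c := by
  induction ms generalizing k l with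
  | nil => intro t ht; simp only [gen, List.mem_singleton] at ht; rw [ht]; simp
  | cons m ms ih =>
    intro t ht
    simp only [gen, List.mem_flatMap, List.mem_map] at ht
    obtain ⟨c, _, t', ht', rfl⟩ := ht
    intro c' hc'
    rcases List.mem_cons.mp hc' with h | h
    · rw [h]; positivity
    · exact ih _ _ t' ht' c' h

lemma terms_pos (R : ℕ) (m : ℕ → ℕ) (x : ℕ → ℝ) (hx : ∀ a < R, 0 < x a) (a : ℕ) (ha : a < R) :
    ∀ t ∈ terms R m a, 0 < dotq t.2 ((List.range R).map x) := by
  intro t ht
  unfold terms at ht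
  rw [List.mem_map] at ht
  obtain ⟨t', ht', rfl⟩ := ht
  have hlen := gen_length _ _ _ t' ht'
  simp only [List.length_map, List.length_range] at hlen
  rw [dotq_inc a t'.2 _ (by rw [hlen]; exact ha) (by simpa using ha)]
  have h1 := dotq_nonneg t'.2 ((List.range R).map x) (gen_nonneg _ _ _ t' ht') (by
    intro y hy
    rw [List.mem_map] at hy
    obtain ⟨c, hc, rfl⟩ := hy
    exact hx c (List.mem_range.mp hc))
  have h2 := hx a ha
  simp only [List.getElem_map, List.getElem_range]
  linarith

/-! ### expressions for the kernel checker -/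

open IA

/-- expression for `dotq` -/
def dotE : List ℚ → List E → E
  | c :: cs, X :: Xs => .add (.mul (cq c) X) (dotE cs Xs)
  | _, _ => .cst 0 1

lemma dotE_ev (cs : List ℚ) (Xs : List E) (x y z : ℝ) :
    (dotE cs Xs).ev x y z = dotq cs (Xs.map fun e => e.ev x y z) := by
  induction cs generalizing Xs with
  | nil => simp [dotE, dotq, E.ev]
  | cons c cs ih =>
    cases Xs with
    | nil => simp [dotE, dotq, E.ev]
    | cons X Xs => simp only [dotE, E.ev, cq_ev, List.map_cons, dotq, ih]

/-- expression for `tv` -/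
def tvE : List (ℚ × List ℚ) → List E → E
  | [], _ => .cst 0 1
  | t :: T, Xs => .add (.mul (cq t.1) (.log (dotE t.2 Xs))) (tvE T Xs)

lemma tvE_ev (T : List (ℚ × List ℚ)) (Xs : List E) (x y z : ℝ) :
    (tvE T Xs).ev x y z = tv T (Xs.map fun e => e.ev x y z) := by
  induction T with
  | nil => simp [tvE, tv, E.ev]
  | cons t T ih =>
    have e1 : (tvE (t :: T) Xs).ev x y z
        = (t.1 : ℝ) * Real.log (dotq t.2 (Xs.map fun e => e.ev x y z)) + (tvE T Xs).ev x y z := by
      simp only [tvE, E.ev, cq_ev, dotE_ev]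
    rw [e1, ih]
    simp [tv]

end Ent
end Pool.Agent.Lib.MP_6947cd_al
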