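import Pool.Agent.Lib.MP_6947cd_al.T.Path

/-!
Problem MP_6947cd_al (Chollet).  The row function is convex in every off-diagonal entry, hence its
maximum over a box of entries is attained at a vertex.
-/

set_option autoImplicit false
open scoped Matrix
open Matrix Finset

namespace Pool.Agent.Lib.MP_6947cd_al
namespace Ent

/-! ### scalar lemmas -/

lemma log_le_half (t : ℝ) (ht : 1 ≤ t) : Real.log t ≤ (t - t⁻¹) / 2 := by
  have h0 : 0 < t := by linarith
  rw [← Real.sinh_log h0]
  exact Real.self_le_sinh_iff.mpr (Real.log_nonneg ht)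

lemma entropy_up (e : ℝ) (he : 0 ≤ e) : (1 + e) * Real.log (1 + e) ≤ e + e ^ 2 / 2 := by
  have h := log_le_half (1 + e) (by linarith)
  have h0 : 0 < 1 + e := by linarith
  have h1 := mul_le_mul_of_nonneg_left h h0.le
  have h2 : (1 + e) * (((1 + e) - (1 + e)⁻¹) / 2) = ((1 + e) ^ 2 - 1) / 2 := by
    field_simp
  rw [h2] at h1
  nlinarith

lemma entropy_down (x P : ℝ) (hx : 0 ≤ x) (hP : 0 < P) (hxP : x ≤ P) :
    -(P - x) + (P - x) ^ 2 / (2 * P) ≤ x * (Real.log x - Real.log P) := by
  rcases eq_or_lt_of_le hx with h | h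
  · rw [← h]
    have : -(P - 0) + (P - 0) ^ 2 / (2 * P) = -(P / 2) := by field_simp; ring
    rw [this, zero_mul]
    linarith
  · have h1 := log_le_half (P / x) ((one_le_div h).mpr hxP)
    rw [Real.log_div hP.ne' h.ne', inv_div] at h1
    have h2 := mul_le_mul_of_nonneg_left h1 h.le
    have h3 : x * ((P / x - x / P) / 2) = (P - x) - (P - x) ^ 2 / (2 * P) := by
      field_simp
      ring
    rw [h3] at h2
    linarith

/-- A function which has, at every point, a supporting line on the left and a logarithmic support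
on the right with the same slope is convex. -/
theorem convex_of_supports (f : ℝ → ℝ)
    (H : ∀ t : ℝ, 0 < t → t ≤ 1 → ∃ m : ℝ, 0 ≤ m ∧ (∀ s, 0 ≤ s → s ≤ t → f t - m * (t - s) ≤ f s) ∧
      (∀ s, t ≤ s → s ≤ 1 → f t + m * t * (Real.log s - Real.log t) ≤ f s)) :
    ConvexOn ℝ (Set.Icc 0 1) f := by
  have hmono : ∀ s t : ℝ, 0 < s → s ≤ t → t ≤ 1 → f s ≤ f t := by
    intro s t hs hst ht
    obtain ⟨m, hm0, -, h2⟩ := H s hs (hst.trans ht)
    have := h2 t hst ht
    have h3 : 0 ≤ Real.log t - Real.log s := sub_nonneg.mpr (Real.log_le_log hs hst)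
    have h4 : 0 ≤ m * s * (Real.log t - Real.log s) := by positivity
    linarith
  -- monotone secants
  have hsec : ∀ a t t' : ℝ, 0 ≤ a → a < t → t < t' → t' ≤ 1 →
      (f t - f a) * (t' - a) ≤ (f t' - f a) * (t - a) := by
    intro a t t' ha hat htt ht'
    have ht0 : 0 < t := ha.trans_lt hat
    have ht1 : t ≤ 1 := (htt.le).trans ht'
    have hta : 0 < t - a := by linarith
    set h0 := (f t - f a) / (t - a) with hh0
    by_cases hneg : f t - f a < 0
    · have h1 := hmono t t' ht0 htt.le ht'
      nlinarith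
    push Not at hneg
    have hh0' : 0 ≤ h0 := div_nonneg hneg hta.le
    -- the discrete path
    have hn : ∀ n : ℕ, 0 < n → h0 * (t' - a) * (1 - (t' / t - 1) ^ 2 / (n * (t - a))) ≤ f t' - f a := by
      intro n hn
      have hn' : (0 : ℝ) < n := by exact_mod_cast hn
      set q := t' / t with hq
      have hq1 : 1 < q := (one_lt_div ht0).mpr htt
      set r : ℝ := q ^ (1 / (n : ℝ)) with hr
      have hr1 : 1 ≤ r := Real.one_le_rpow hq1.le (by positivity)
      have hrn : r ^ n = q := by
        rw [hr, ← Real.rpow_natCast, ← Real.rpow_mul (by linarith), one_div,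
          inv_mul_cancel₀ hn'.ne', Real.rpow_one]
      have hrb : n * (r - 1) ≤ q - 1 := by
        have := one_add_mul_le_pow (show (-2 : ℝ) ≤ r - 1 by linarith) n
        have e : 1 + (r - 1) = r := by ring
        rw [e, hrn] at this
        linarith
      set θ := (r - 1) ^ 2 / (t - a) with hθ
      have hθ0 : 0 ≤ θ := by positivity
      have hθn : n * θ ≤ (q - 1) ^ 2 / (n * (t - a)) := by
        rw [hθ, le_div_iff₀ (by positivity)]
        have e : n * ((r - 1) ^ 2 / (t - a)) * (n * (t - a)) = (n * (r - 1)) ^ 2 := by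
          field_simp
        rw [e]
        exact pow_le_pow_left₀ (by
          have : 0 ≤ r - 1 := by linarith
          positivity) hrb 2
      by_cases hθ1 : 1 < θ
      · -- trivial case
        have h1 : (1 : ℝ) ≤ n := by exact_mod_cast hn
        have h2 : 1 < n * θ := by nlinarith
        have h3 : 1 - (q - 1) ^ 2 / (n * (t - a)) < 0 := by linarith
        have h4 : h0 * (t' - a) * (1 - (q - 1) ^ 2 / (n * (t - a))) ≤ 0 :=
          mul_nonpos_of_nonneg_of_nonpos (mul_nonneg hh0' (by linarith)) h3.le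
        have h5 := hmono t t' ht0 htt.le ht'
        linarith
      push Not at hθ1
      have hk : ∀ k : ℕ, k ≤ n → h0 * (t * r ^ k - a) * (1 - θ) ^ k ≤ f (t * r ^ k) - f a := by
        intro k
        induction k with
        | zero =>
          intro _
          simp only [pow_zero, mul_one]
          rw [hh0, div_mul_cancel₀ _ hta.ne']
        | succ k ih =>
          intro hkn
          have ihk := ih (by omega)
          have hrk : 1 ≤ r ^ k := one_le_pow₀ hr1
          have hle : t * r ^ (k + 1) ≤ 1 := by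
            have h1 : r ^ (k + 1) ≤ r ^ n := pow_le_pow_right₀ hr1 hkn
            rw [hrn] at h1
            calc t * r ^ (k + 1) ≤ t * q := mul_le_mul_of_nonneg_left h1 ht0.le
              _ = t' := by rw [hq]; field_simp
              _ ≤ 1 := ht'
          set T := t * r ^ k with hT
          have hT1 : t * r ^ (k + 1) = T * r := by rw [hT, pow_succ]; ring
          rw [hT1] at hle ⊢
          have hTt : t ≤ T := by
            rw [hT]
            exact le_mul_of_one_le_right ht0.le hrk
          have hT0 : 0 < T := ht0.trans_le hTt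
          have hTle : T ≤ 1 := (le_mul_of_one_le_right hT0.le hr1).trans hle
          obtain ⟨m, hm0, hL, hR⟩ := H T hT0 hTle
          have hLa := hL a ha (by linarith)
          have hRr := hR (T * r) (le_mul_of_one_le_right hT0.le hr1) hle
          have hlog : Real.log (T * r) - Real.log T = Real.log r := by
            rw [Real.log_mul hT0.ne' (by linarith)]
            ring
          rw [hlog] at hRr
          have hlr : 1 - r⁻¹ ≤ Real.log r := Real.one_sub_inv_le_log_of_pos (by linarith)
          set ρ := (1 - θ) ^ k with hρ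
          have hρ0 : 0 ≤ ρ := pow_nonneg (by linarith) k
          have hTa : 0 < T - a := by linarith
          have hm : h0 * ρ ≤ m := by
            have h1 : h0 * ρ * (T - a) ≤ m * (T - a) := by
              calc h0 * ρ * (T - a) = h0 * (T - a) * ρ := by ring
                _ ≤ f T - f a := ihk
                _ ≤ m * (T - a) := by linarith
            exact le_of_mul_le_mul_right h1 hTa
          have hρh : 0 ≤ h0 * ρ := mul_nonneg hh0' hρ0
          have hri : 0 ≤ 1 - r⁻¹ := sub_nonneg.mpr (inv_le_one_of_one_le₀ hr1)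
          have h5 : h0 * ρ * (T * (1 - r⁻¹)) ≤ m * T * Real.log r := by
            calc h0 * ρ * (T * (1 - r⁻¹)) ≤ m * (T * (1 - r⁻¹)) :=
                  mul_le_mul_of_nonneg_right hm (mul_nonneg hT0.le hri)
              _ = m * T * (1 - r⁻¹) := by ring
              _ ≤ m * T * Real.log r := mul_le_mul_of_nonneg_left hlr (by positivity)
          have h6 : (1 - θ) * (T * r - a) ≤ (T - a) + T * (1 - r⁻¹) := by
            have hr0 : 0 < r := by linarith
            have e1 : (T - a) + T * (1 - r⁻¹) - (T * r - a) = -(T * (r - 1) ^ 2 / r) := by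
              field_simp
              ring
            have e2 : (r - 1) ^ 2 ≤ θ * (T * r - a) := by
              have h7 : t - a ≤ T * r - a := by
                have := le_mul_of_one_le_right hT0.le hr1
                linarith
              calc (r - 1) ^ 2 = θ * (t - a) := by rw [hθ]; field_simp
                _ ≤ θ * (T * r - a) := mul_le_mul_of_nonneg_left h7 hθ0
            have e3 : T * (r - 1) ^ 2 / r ≤ (r - 1) ^ 2 := by
              rw [div_le_iff₀ hr0]
              have : T ≤ r := hTle.trans hr1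
              nlinarith [sq_nonneg (r - 1)]
            nlinarith
          calc h0 * (T * r - a) * (1 - θ) ^ (k + 1)
              = h0 * ρ * ((1 - θ) * (T * r - a)) := by rw [pow_succ, hρ]; ring
            _ ≤ h0 * ρ * ((T - a) + T * (1 - r⁻¹)) := mul_le_mul_of_nonneg_left h6 hρh
            _ = h0 * (T - a) * ρ + h0 * ρ * (T * (1 - r⁻¹)) := by ring
            _ ≤ (f T - f a) + m * T * Real.log r := add_le_add ihk h5
            _ ≤ f (T * r) - f a := by linarith
      have h1 := hk n le_rfl
      have e1 : t * r ^ n = t' := by rw [hrn, hq]; field_simp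
      rw [e1] at h1
      refine le_trans ?_ h1
      have h2 : 1 - (q - 1) ^ 2 / (n * (t - a)) ≤ (1 - θ) ^ n := by
        have := one_add_mul_le_pow (show (-2 : ℝ) ≤ -θ by linarith) n
        have e : 1 + -θ = 1 - θ := by ring
        rw [e] at this
        linarith
      exact mul_le_mul_of_nonneg_left h2 (mul_nonneg hh0' (by linarith))
    have hlim : Filter.Tendsto (fun n : ℕ => h0 * (t' - a) *
        (1 - (t' / t - 1) ^ 2 / (((n : ℝ) + 1) * (t - a)))) Filter.atTop
        (nhds (h0 * (t' - a) * (1 - 0))) := by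
      refine Filter.Tendsto.const_mul _ (Filter.Tendsto.const_sub _ ?_)
      have h1 : Filter.Tendsto (fun n : ℕ => (t' / t - 1) ^ 2 / (t - a) * (1 / ((n : ℝ) + 1)))
          Filter.atTop (nhds ((t' / t - 1) ^ 2 / (t - a) * 0)) :=
        tendsto_one_div_add_atTop_nhds_zero_nat.const_mul _
      rw [mul_zero] at h1
      refine h1.congr fun n => ?_
      have : (n : ℝ) + 1 ≠ 0 := by positivity
      field_simp
    have hfin := le_of_tendsto' hlim (b := f t' - f a) fun n => by
      have := hn (n + 1) (Nat.succ_pos n)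
      push_cast at this
      exact this
    rw [sub_zero, mul_one, hh0, div_mul_eq_mul_div, div_le_iff₀ hta] at hfin
    exact hfin
  refine convexOn_of_slope_mono_adjacent (convex_Icc 0 1) ?_
  intro x y z hx hz hxy hyz
  have h := hsec x y z hx.1 hxy hyz hz.2
  rw [div_le_div_iff₀ (by linarith) (by linarith)]
  nlinarith

variable {κ : Type} [Fintype κ] [DecidableEq κ]

/-- At the maximiser all the entries carry the same value. -/
lemma F_eq_at' (b p : κ → ℝ) (hp : p ∈ adm b) (hv : val b p = F b) (i : κ) (hpi : 0 < p i) :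
    F b = Real.log (b i) - Real.log (p i) + ell Finset.univ p i := by
  rw [← hv]
  unfold val
  calc ∑ j, p j * (Real.log (b j) - Real.log (p j) + ell Finset.univ p j)
      = ∑ j, p j * (Real.log (b i) - Real.log (p i) + ell Finset.univ p i) := by
        refine Finset.sum_congr rfl fun j _ => ?_
        rcases eq_or_lt_of_le (hp.1 j) with h0 | h0
        · rw [← h0, zero_mul, zero_mul]
        · by_cases hij : i = j
          · subst hij; rfl
          · rw [kkt b p hp hv i j hij hpi h0]
    _ = _ := by rw [← Finset.sum_mul, hp.2.1, one_mul]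

/-- weighted sum over sets as an integral -/
lemma sum_w_bern (c : κ) (g : Finset κ → ℝ) :
    ∑ K ∈ ((Finset.univ : Finset κ).erase c).powerset, w (Fintype.card κ) K.card * g K
      = ∫ u in (0 : ℝ)..1, bern u (Finset.univ.erase c) g := by
  unfold bern
  have hD : ((Finset.univ : Finset κ).erase c).card = Fintype.card κ - 1 := by
    rw [Finset.card_erase_of_mem (Finset.mem_univ c), Finset.card_univ]
  have hC : 0 < Fintype.card κ := Fintype.card_pos_iff.mpr ⟨c⟩
  rw [intervalIntegral.integral_finsetSum]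
  · refine Finset.sum_congr rfl fun K hK => ?_
    have hK' := Finset.card_le_card (Finset.mem_powerset.mp hK)
    rw [intervalIntegral.integral_mul_const, w_eq _ K.card (by omega), hD]
  · intro K _
    exact Continuous.intervalIntegrable (by fun_prop) _ _

omit [Fintype κ] in
lemma bern_lin (u : ℝ) (p : κ → ℝ) (R : Finset κ) : ∀ a : ℝ,
    bern u R (fun K => a + ∑ k ∈ K, p k) = a + u * ∑ k ∈ R, p k := by
  induction R using Finset.induction_on with
  | empty => intro a; simp [bern_empty]
  | insert c R hc ih =>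
    intro a
    rw [bern_insert u c R hc, ih a]
    have e1 : bern u R (fun K => a + ∑ k ∈ insert c K, p k)
        = bern u R (fun K => (a + p c) + ∑ k ∈ K, p k) := by
      refine bern_congr u R _ _ fun K hK => ?_
      rw [Finset.sum_insert (fun h => hc (hK h)), add_assoc]
    rw [e1, ih, Finset.sum_insert hc]
    ring

/-- the sets containing `c` -/
lemma sum_sets_mem (c : κ) (g : Finset κ → ℝ) :
    ∑ A : Finset κ, (if c ∈ A then g (A.erase c) else 0)
      = ∑ K ∈ ((Finset.univ : Finset κ).erase c).powerset, g K := by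
  have h := sum_ell_form (fun (j : κ) K => if j = c then g K else 0)
  have h1 : ∑ j : κ, ∑ K ∈ ((Finset.univ : Finset κ).erase j).powerset, (if j = c then g K else 0)
      = ∑ K ∈ ((Finset.univ : Finset κ).erase c).powerset, g K := by
    rw [Finset.sum_eq_single c]
    · simp
    · intro j _ hj; simp [hj]
    · intro h; exact absurd (Finset.mem_univ c) h
  rw [h1] at h
  rw [h]
  refine Finset.sum_congr rfl fun A _ => ?_
  by_cases hc : c ∈ A
  · rw [if_pos hc, Finset.sum_eq_single c]
    · simp
    · intro j _ hj; simp [hj]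
    · intro h; exact absurd hc h
  · rw [if_neg hc]
    symm
    refine Finset.sum_eq_zero fun j hj => ?_
    rw [if_neg]
    rintro rfl
    exact hc hj

/-- the scalar integral behind the variance bound -/
lemma var_integral (d e : ℝ) (hd : 0 ≤ d) (he1 : e ≤ 1) :
    d / 2 ≤ ∫ u in (0 : ℝ)..1,
      (1 - u) * (d * (1 - e * u) ^ 2 * (1 + e * (1 - u) + (e * (1 - u)) ^ 2)) := by
  have hG : ∀ u ∈ Set.uIcc (0 : ℝ) 1, HasDerivAt
      (fun u : ℝ => d * (u * (1 + e + e ^ 2) + u ^ 2 / 2 * (-1 - 4 * e - 5 * e ^ 2 - 2 * e ^ 3)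
        + u ^ 3 / 3 * (3 * e + 8 * e ^ 2 + 7 * e ^ 3 + e ^ 4)
        + u ^ 4 / 4 * (-4 * e ^ 2 - 8 * e ^ 3 - 3 * e ^ 4)
        + u ^ 5 / 5 * (3 * e ^ 3 + 3 * e ^ 4) - u ^ 6 / 6 * e ^ 4))
      ((1 - u) * (d * (1 - e * u) ^ 2 * (1 + e * (1 - u) + (e * (1 - u)) ^ 2))) u := by
    intro u _
    have h1 := (hasDerivAt_id u).mul_const (1 + e + e ^ 2)
    have h2 := (((hasDerivAt_id u).pow 2).div_const 2).mul_const
      (-1 - 4 * e - 5 * e ^ 2 - 2 * e ^ 3)
    have h3 := (((hasDerivAt_id u).pow 3).div_const 3).mul_const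
      (3 * e + 8 * e ^ 2 + 7 * e ^ 3 + e ^ 4)
    have h4 := (((hasDerivAt_id u).pow 4).div_const 4).mul_const
      (-4 * e ^ 2 - 8 * e ^ 3 - 3 * e ^ 4)
    have h5 := (((hasDerivAt_id u).pow 5).div_const 5).mul_const (3 * e ^ 3 + 3 * e ^ 4)
    have h6 := (((hasDerivAt_id u).pow 6).div_const 6).mul_const (e ^ 4)
    have := (((((h1.add h2).add h3).add h4).add h5).sub h6).const_mul d
    refine this.congr_deriv ?_
    simp only [id]
    ring
  rw [intervalIntegral.integral_eq_sub_of_hasDerivAt hG
    (Continuous.intervalIntegrable (by fun_prop) _ _)]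
  have : d * (1 * (1 + e + e ^ 2) + 1 ^ 2 / 2 * (-1 - 4 * e - 5 * e ^ 2 - 2 * e ^ 3)
        + 1 ^ 3 / 3 * (3 * e + 8 * e ^ 2 + 7 * e ^ 3 + e ^ 4)
        + 1 ^ 4 / 4 * (-4 * e ^ 2 - 8 * e ^ 3 - 3 * e ^ 4)
        + 1 ^ 5 / 5 * (3 * e ^ 3 + 3 * e ^ 4) - 1 ^ 6 / 6 * e ^ 4)
      - d * (0 * (1 + e + e ^ 2) + 0 ^ 2 / 2 * (-1 - 4 * e - 5 * e ^ 2 - 2 * e ^ 3)
        + 0 ^ 3 / 3 * (3 * e + 8 * e ^ 2 + 7 * e ^ 3 + e ^ 4)
        + 0 ^ 4 / 4 * (-4 * e ^ 2 - 8 * e ^ 3 - 3 * e ^ 4)
        + 0 ^ 5 / 5 * (3 * e ^ 3 + 3 * e ^ 4) - 0 ^ 6 / 6 * e ^ 4)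
      = d * (1 / 2 + e ^ 2 * (1 / 6 - e / 15 + e ^ 2 / 60)) := by ring
  rw [this]
  have h1 : 0 ≤ 1 / 6 - e / 15 + e ^ 2 / 60 := by nlinarith [sq_nonneg e]
  have h2 : 0 ≤ d * (e ^ 2 * (1 / 6 - e / 15 + e ^ 2 / 60)) := by positivity
  linarith

/-- the variance bound -/
theorem var_bound (p : κ → ℝ) (hp : ∀ j, 0 ≤ p j) (hs : ∑ j, p j = 1) (i c : κ) (hic : i ≠ c)
    (hpc : 0 < p c) (hci : p c ≤ p i) :
    (1 - p c) / 2 ≤ ∑ K ∈ ((Finset.univ : Finset κ).erase c).powerset,
      w (Fintype.card κ) K.card * ((1 - (p c + ∑ k ∈ K, p k)) ^ 2 / (p c + ∑ k ∈ K, p k)) := by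
  set R : Finset κ := (Finset.univ.erase c).erase i with hR
  have hiR : i ∉ R := Finset.notMem_erase i _
  have e1 : (Finset.univ.erase c : Finset κ) = insert i R := by
    rw [hR, Finset.insert_erase]
    exact Finset.mem_erase.mpr ⟨hic, Finset.mem_univ i⟩
  have hpi : 0 < p i := hpc.trans_le hci
  set Q := ∑ k ∈ R, p k with hQ
  have hQ0 : 0 ≤ Q := Finset.sum_nonneg fun k _ => hp k
  have hsum : p c + (p i + Q) = 1 := by
    rw [hQ, hR, Finset.add_sum_erase (Finset.univ.erase c) p
      (Finset.mem_erase.mpr ⟨hic, Finset.mem_univ i⟩),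
      Finset.add_sum_erase Finset.univ p (Finset.mem_univ c)]
    exact hs
  set d := 1 - p c with hd
  have hd0 : 0 < d := by linarith
  have hdi : p i = d - Q := by linarith
  rw [sum_w_bern c (fun K => (1 - (p c + ∑ k ∈ K, p k)) ^ 2 / (p c + ∑ k ∈ K, p k))]
  have hE0 : 0 ≤ Q / d := div_nonneg hQ0 hd0.le
  have hE1 : Q / d ≤ 1 := (div_le_one hd0).mpr (by linarith)
  refine (var_integral d (Q / d) hd0.le hE1).trans ?_
  refine intervalIntegral.integral_mono_on zero_le_one
    (Continuous.intervalIntegrable (by fun_prop) _ _)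
    ((cont_bern _ _).intervalIntegrable _ _) fun u hu => ?_
  have hu1 : 0 ≤ 1 - u := sub_nonneg.mpr hu.2
  rw [e1, bern_insert u i R hiR]
  have hge : 0 ≤ u * bern u R (fun K => (1 - (p c + ∑ k ∈ insert i K, p k)) ^ 2
      / (p c + ∑ k ∈ insert i K, p k)) := by
    refine mul_nonneg hu.1 ?_
    rw [← bern_const u R 0]
    refine bern_mono u hu.1 hu.2 R _ _ fun K _ => ?_
    have : 0 ≤ ∑ k ∈ insert i K, p k := Finset.sum_nonneg fun k _ => hp k
    positivity
  -- tangent line for 1/v
  set v0 := p c + u * Q with hv0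
  have hv0' : 0 < v0 := by
    have := mul_nonneg hu.1 hQ0
    linarith
  have hJ : (1 - v0) ^ 2 / v0 ≤ bern u R (fun K => (1 - (p c + ∑ k ∈ K, p k)) ^ 2
      / (p c + ∑ k ∈ K, p k)) := by
    have h1 := bern_lin u (fun k => (1 - 1 / v0 ^ 2) * p k) R (2 / v0 - 2 + (1 - 1 / v0 ^ 2) * p c)
    have h2 : 2 / v0 - 2 + (1 - 1 / v0 ^ 2) * p c + u * ∑ k ∈ R, (1 - 1 / v0 ^ 2) * p k
        = (1 - v0) ^ 2 / v0 := by
      rw [← Finset.mul_sum, ← hQ]
      have : 2 / v0 - 2 + (1 - 1 / v0 ^ 2) * p c + u * ((1 - 1 / v0 ^ 2) * Q)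
          = 2 / v0 - 2 + (1 - 1 / v0 ^ 2) * v0 := by rw [hv0]; ring
      rw [this]
      field_simp
      ring
    rw [h2] at h1
    rw [← h1]
    refine bern_mono u hu.1 hu.2 R _ _ fun K _ => ?_
    rw [← Finset.mul_sum]
    have hK0 : 0 ≤ ∑ k ∈ K, p k := Finset.sum_nonneg fun k _ => hp k
    set v := p c + ∑ k ∈ K, p k with hv
    have hv' : 0 < v := by linarith
    have e3 : 2 / v0 - 2 + (1 - 1 / v0 ^ 2) * p c + (1 - 1 / v0 ^ 2) * ∑ k ∈ K, p k
        = 2 / v0 - 2 + (1 - 1 / v0 ^ 2) * v := by rw [hv]; ring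
    rw [e3]
    have e4 : (1 - v) ^ 2 / v - (2 / v0 - 2 + (1 - 1 / v0 ^ 2) * v) = (v0 - v) ^ 2 / (v * v0 ^ 2) := by
      field_simp
      ring
    have e5 : 0 ≤ (v0 - v) ^ 2 / (v * v0 ^ 2) := by positivity
    linarith
  have hS : d * (1 - Q / d * u) ^ 2 * (1 + Q / d * (1 - u) + (Q / d * (1 - u)) ^ 2)
      ≤ (1 - v0) ^ 2 / v0 := by
    have e6 : 1 - v0 = d * (1 - Q / d * u) := by
      rw [hv0]
      field_simp
      linarith
    have e7 : v0 ≤ d * (1 - Q / d * (1 - u)) := by
      have : d * (1 - Q / d * (1 - u)) = d - Q * (1 - u) := by field_simp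
      rw [this, hv0]
      linarith
    rw [e6, le_div_iff₀ hv0']
    set t := Q / d * (1 - u) with ht
    have ht0 : 0 ≤ t := mul_nonneg hE0 hu1
    have h8 : (1 + t + t ^ 2) * (1 - t) ≤ 1 := by nlinarith [pow_nonneg ht0 3]
    have h9 : (1 + t + t ^ 2) * v0 ≤ d := by
      calc (1 + t + t ^ 2) * v0 ≤ (1 + t + t ^ 2) * (d * (1 - t)) :=
            mul_le_mul_of_nonneg_left e7 (by positivity)
        _ = d * ((1 + t + t ^ 2) * (1 - t)) := by ring
        _ ≤ d * 1 := mul_le_mul_of_nonneg_left h8 hd0.le
        _ = d := mul_one d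
    calc d * (1 - Q / d * u) ^ 2 * (1 + t + t ^ 2) * v0
        = d * (1 - Q / d * u) ^ 2 * ((1 + t + t ^ 2) * v0) := by ring
      _ ≤ d * (1 - Q / d * u) ^ 2 * d := mul_le_mul_of_nonneg_left h9 (by positivity)
      _ = (d * (1 - Q / d * u)) ^ 2 := by ring
  have h10 := mul_le_mul_of_nonneg_left (hS.trans hJ) hu1
  linarith

/-- SUPPORTING LINE on the left: decreasing one entry costs at most its mass in proportion. -/
theorem left_support (b : κ → ℝ) (p : κ → ℝ) (hp : p ∈ adm b)
    (hv : val b p = F b) (i c : κ) (hic : i ≠ c) (hci : p c ≤ p i)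
    (hpc : 0 < p c) (hbc : 0 < b c) (s : ℝ) (hs0 : 0 ≤ s) (hs : s ≤ b c) :
    F b - p c / b c * (b c - s) ≤ F (Function.update b c s) := by
  have hpi : 0 < p i := hpc.trans_le hci
  have hp0 := hp.1
  set d := 1 - p c with hd
  have hsumc : p c + ∑ k ∈ Finset.univ.erase c, p k = 1 := by
    rw [Finset.add_sum_erase Finset.univ p (Finset.mem_univ c)]
    exact hp.2.1
  have hD : ∑ k ∈ Finset.univ.erase c, p k = d := by linarith
  have hd0 : 0 < d := by
    rw [← hD]
    exact lt_of_lt_of_le hpi (Finset.single_le_sum (fun k _ => hp0 k)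
      (Finset.mem_erase.mpr ⟨hic, Finset.mem_univ i⟩))
  set e := p c / b c * (b c - s) / d with he
  have he0 : 0 ≤ e := by
    have : 0 ≤ b c - s := by linarith
    positivity
  have hed : e * d = p c / b c * (b c - s) := by rw [he]; field_simp
  have hedc : p c / b c * (b c - s) = p c - p c * s / b c := by field_simp
  set p' : κ → ℝ := fun j => (1 + e) * p j - (if j = c then e else 0) with hp'
  have p'c : p' c = p c * s / b c := by
    have h1 : p' c = p c - e * d := by rw [hp', hd]; simp only [if_pos]; ring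
    rw [h1, hed, hedc]
    ring
  have p'j : ∀ j, j ≠ c → p' j = (1 + e) * p j := fun j hj => by
    rw [hp']; simp only [if_neg hj, sub_zero]
  have hp'0 : ∀ j, 0 ≤ p' j := by
    intro j
    by_cases hj : j = c
    · rw [hj, p'c]; positivity
    · rw [p'j j hj]
      have := hp0 j
      positivity
  have hsum' : ∀ A : Finset κ, ∑ k ∈ A, p' k
      = (1 + e) * ∑ k ∈ A, p k - (if c ∈ A then e else 0) := by
    intro A
    rw [hp', Finset.sum_sub_distrib, ← Finset.mul_sum, Finset.sum_ite_eq']
  have hs1 : ∑ j, p' j = 1 := by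
    rw [hsum', hp.2.1, if_pos (Finset.mem_univ c)]
    ring
  have hpz : ∀ j, p j = 0 → p' j = 0 := by
    intro j hj
    have hjc : j ≠ c := by
      rintro rfl
      exact hpc.ne' hj
    rw [p'j j hjc, hj, mul_zero]
  have hadm : p' ∈ adm (Function.update b c s) := by
    refine ⟨hp'0, hs1, fun j hj => ?_⟩
    by_cases hjc : j = c
    · subst hjc
      rw [Function.update_self] at hj
      rw [p'c, hj, mul_zero, zero_div]
    · rw [Function.update_of_ne hjc] at hj
      rw [p'j j hjc, hp.2.2 j hj, mul_zero]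
  refine le_trans ?_ (val_le_F _ p' hadm)
  have h1e : 0 < 1 + e := by linarith
  set L := Real.log (1 + e) with hL
  have hL0 : 0 ≤ L := Real.log_nonneg (by linarith)
  -- decomposition
  have hT : val (Function.update b c s) p' = F b + (-L * ((1 + e) * d))
      + ∑ j, p' j * (ell Finset.univ p' j - ell Finset.univ p j) := by
    have h0 : F b = ∑ j, p' j * (Real.log (b j) - Real.log (p j) + ell Finset.univ p j) := by
      have hF := F_eq_at' b p hp hv
      calc F b = ∑ j, p' j * F b := by rw [← Finset.sum_mul, hs1, one_mul]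
        _ = _ := by
          refine Finset.sum_congr rfl fun j _ => ?_
          rcases eq_or_lt_of_le (hp0 j) with h | h
          · rw [hpz j h.symm, zero_mul, zero_mul]
          · rw [hF j h]
    have h1 : -L * ((1 + e) * d) = ∑ j, (-L * (if j = c then 0 else p' j)) := by
      rw [← Finset.mul_sum, ← Finset.add_sum_erase _ _ (Finset.mem_univ c), if_pos rfl, zero_add,
        ← hD, Finset.mul_sum]
      congr 1
      refine Finset.sum_congr rfl fun j hj => ?_
      rw [if_neg (Finset.ne_of_mem_erase hj), p'j j (Finset.ne_of_mem_erase hj)]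
    rw [h0, h1, ← Finset.sum_add_distrib, ← Finset.sum_add_distrib]
    unfold val
    refine Finset.sum_congr rfl fun j _ => ?_
    by_cases hjc : j = c
    · subst hjc
      rw [Function.update_self, if_pos rfl]
      rcases eq_or_lt_of_le hs0 with h | h
      · have : p' j = 0 := by rw [p'c, ← h, mul_zero, zero_div]
        rw [this]
        ring
      · have : Real.log (p' j) = Real.log (p j) + Real.log s - Real.log (b j) := by
          rw [p'c, Real.log_div (by positivity) hbc.ne', Real.log_mul hpc.ne' h.ne']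
        rw [this]
        ring
    · rw [Function.update_of_ne hjc, if_neg hjc]
      rcases eq_or_lt_of_le (hp0 j) with h | h
      · rw [hpz j h.symm]
        ring
      · have : Real.log (p' j) = L + Real.log (p j) := by
          rw [p'j j hjc, Real.log_mul h1e.ne' h.ne']
        rw [this]
        ring
  -- the second sum over sets
  have hT2 : ∑ j, p' j * (ell Finset.univ p' j - ell Finset.univ p j)
      = ∑ A : Finset κ, w (Fintype.card κ) (A.card - 1) * ((∑ k ∈ A, p' k)
        * (Real.log (∑ k ∈ A, p' k) - Real.log (∑ k ∈ A, p k))) := by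
    have h1 : ∀ j, p' j * (ell Finset.univ p' j - ell Finset.univ p j)
        = ∑ K ∈ ((Finset.univ : Finset κ).erase j).powerset,
          w (Fintype.card κ) K.card * (p' j * (Real.log (p' j + ∑ k ∈ K, p' k)
            - Real.log (p j + ∑ k ∈ K, p k))) := by
      intro j
      unfold ell
      rw [← Finset.sum_sub_distrib, Finset.mul_sum, Finset.card_univ]
      exact Finset.sum_congr rfl fun K _ => by ring
    rw [Finset.sum_congr rfl fun j _ => h1 j, sum_ell_form]
    refine Finset.sum_congr rfl fun A _ => ?_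
    rw [Finset.sum_mul, Finset.mul_sum]
    refine Finset.sum_congr rfl fun j hj => ?_
    rw [Finset.card_erase_of_mem hj, Finset.add_sum_erase A p' hj, Finset.add_sum_erase A p hj]
  -- termwise bound
  set g : Finset κ → ℝ := fun K => w (Fintype.card κ) K.card * (-(e * (1 - (p c + ∑ k ∈ K, p k)))
    + e ^ 2 / 2 * ((1 - (p c + ∑ k ∈ K, p k)) ^ 2 / (p c + ∑ k ∈ K, p k))) with hg
  have hterm : ∀ A : Finset κ, (if c ∈ A then g (A.erase c) else 0)
      + (if c ∈ A then 0 else w (Fintype.card κ) (A.card - 1) * ((1 + e) * L * ∑ k ∈ A, p k))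
      ≤ w (Fintype.card κ) (A.card - 1) * ((∑ k ∈ A, p' k)
        * (Real.log (∑ k ∈ A, p' k) - Real.log (∑ k ∈ A, p k))) := by
    intro A
    have hw := w_nonneg (Fintype.card κ) (A.card - 1)
    have hA0 : 0 ≤ ∑ k ∈ A, p k := Finset.sum_nonneg fun k _ => hp0 k
    have hA0' : 0 ≤ ∑ k ∈ A, p' k := Finset.sum_nonneg fun k _ => hp'0 k
    by_cases hc : c ∈ A
    · rw [if_pos hc, if_pos hc, add_zero, hg]
      simp only
      rw [Finset.card_erase_of_mem hc, Finset.add_sum_erase A p hc]
      refine mul_le_mul_of_nonneg_left ?_ hw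
      have hPA : 0 < ∑ k ∈ A, p k := hpc.trans_le (Finset.single_le_sum (fun k _ => hp0 k) hc)
      have hPA1 : ∑ k ∈ A, p k ≤ 1 := by
        rw [← hp.2.1]
        exact Finset.sum_le_sum_of_subset_of_nonneg (Finset.subset_univ A) fun k _ _ => hp0 k
      set P := ∑ k ∈ A, p k with hP
      have hx : ∑ k ∈ A, p' k = P - e * (1 - P) := by
        rw [hsum', if_pos hc]
        ring
      have h1 := entropy_down (∑ k ∈ A, p' k) P hA0' hPA (by
        rw [hx]
        have : 0 ≤ e * (1 - P) := mul_nonneg he0 (by linarith)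
        linarith)
      refine le_trans (le_of_eq ?_) h1
      rw [hx]
      field_simp
      ring
    · rw [if_neg hc, if_neg hc, zero_add]
      refine mul_le_mul_of_nonneg_left (le_of_eq ?_) hw
      have hx : ∑ k ∈ A, p' k = (1 + e) * ∑ k ∈ A, p k := by
        rw [hsum', if_neg hc, sub_zero]
      rw [hx]
      rcases eq_or_lt_of_le hA0 with h | h
      · rw [← h]
        ring
      · rw [Real.log_mul h1e.ne' h.ne']
        ring
  have hsumT := Finset.sum_le_sum fun A (_ : A ∈ (Finset.univ : Finset (Finset κ))) => hterm A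
  rw [Finset.sum_add_distrib, sum_sets_mem c g] at hsumT
  -- first part
  have hlin : ∑ K ∈ ((Finset.univ : Finset κ).erase c).powerset,
      w (Fintype.card κ) K.card * (p c + ∑ k ∈ K, p k) = p c + d / 2 := by
    rw [sum_w_bern c (fun K => p c + ∑ k ∈ K, p k)]
    have h1 : ∀ u : ℝ, bern u (Finset.univ.erase c) (fun K => p c + ∑ k ∈ K, p k)
        = p c + u * d := fun u => by rw [bern_lin, hD]
    rw [intervalIntegral.integral_congr fun u _ => h1 u]
    rw [intervalIntegral.integral_add (by simp) (Continuous.intervalIntegrable (by fun_prop) _ _),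
      intervalIntegral.integral_const, intervalIntegral.integral_mul_const, integral_id]
    norm_num
    ring
  have hvar := var_bound p hp0 hp.2.1 i c hic hpc hci
  have hgsum : -(e * (d / 2)) + e ^ 2 / 2 * (d / 2)
      ≤ ∑ K ∈ ((Finset.univ : Finset κ).erase c).powerset, g K := by
    have h1 : ∑ K ∈ ((Finset.univ : Finset κ).erase c).powerset, g K
        = -(e * (∑ K ∈ ((Finset.univ : Finset κ).erase c).powerset, w (Fintype.card κ) K.card
            - ∑ K ∈ ((Finset.univ : Finset κ).erase c).powerset,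
              w (Fintype.card κ) K.card * (p c + ∑ k ∈ K, p k)))
          + e ^ 2 / 2 * ∑ K ∈ ((Finset.univ : Finset κ).erase c).powerset,
            w (Fintype.card κ) K.card * ((1 - (p c + ∑ k ∈ K, p k)) ^ 2
              / (p c + ∑ k ∈ K, p k)) := by
      rw [← Finset.sum_sub_distrib, Finset.mul_sum, Finset.mul_sum, ← Finset.sum_neg_distrib,
        ← Finset.sum_add_distrib]
      refine Finset.sum_congr rfl fun K _ => ?_
      rw [hg]
      ring
    rw [h1, sum_w, hlin]
    have h2 := mul_le_mul_of_nonneg_left hvar (show 0 ≤ e ^ 2 / 2 by positivity)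
    have h3 : 1 - (p c + d / 2) = d / 2 := by rw [hd]; ring
    rw [h3]
    linarith
  -- second part
  have hsec : ∑ A : Finset κ, (if c ∈ A then 0 else w (Fintype.card κ) (A.card - 1)
      * ((1 + e) * L * ∑ k ∈ A, p k)) = (1 + e) * L * (d / 2) := by
    have h1 : ∑ A : Finset κ, w (Fintype.card κ) (A.card - 1) * ∑ k ∈ A, p k = 1 := by
      have h := sum_ell_form (fun (j : κ) K => w (Fintype.card κ) K.card * p j)
      have h2 : ∑ j : κ, ∑ K ∈ ((Finset.univ : Finset κ).erase j).powerset,
          w (Fintype.card κ) K.card * p j = 1 := by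
        rw [← hp.2.1]
        refine Finset.sum_congr rfl fun j _ => ?_
        rw [← Finset.sum_mul, sum_w, one_mul]
      rw [h2] at h
      rw [h]
      refine Finset.sum_congr rfl fun A _ => ?_
      rw [Finset.mul_sum]
      refine Finset.sum_congr rfl fun j hj => ?_
      rw [Finset.card_erase_of_mem hj]
    have h2 : ∑ A : Finset κ, (if c ∈ A then w (Fintype.card κ) (A.card - 1) * ∑ k ∈ A, p k else 0)
        = p c + d / 2 := by
      rw [← hlin, ← sum_sets_mem c (fun K => w (Fintype.card κ) K.card * (p c + ∑ k ∈ K, p k))]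
      refine Finset.sum_congr rfl fun A _ => ?_
      by_cases hc : c ∈ A
      · rw [if_pos hc, if_pos hc, Finset.card_erase_of_mem hc, Finset.add_sum_erase A p hc]
      · rw [if_neg hc, if_neg hc]
    have h3 : ∑ A : Finset κ, (if c ∈ A then 0 else w (Fintype.card κ) (A.card - 1)
        * ((1 + e) * L * ∑ k ∈ A, p k))
        = (1 + e) * L * (∑ A : Finset κ, w (Fintype.card κ) (A.card - 1) * ∑ k ∈ A, p k
          - ∑ A : Finset κ, (if c ∈ A then w (Fintype.card κ) (A.card - 1) * ∑ k ∈ A, p k
            else 0)) := by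
      rw [← Finset.sum_sub_distrib, Finset.mul_sum]
      refine Finset.sum_congr rfl fun A _ => ?_
      by_cases hc : c ∈ A
      · rw [if_pos hc, if_pos hc]; ring
      · rw [if_neg hc, if_neg hc]; ring
    rw [h3, h1, h2]
    have h4 : 1 - (p c + d / 2) = d / 2 := by rw [hd]; ring
    rw [h4]
  rw [hsec, ← hT2] at hsumT
  have hup := entropy_up e he0
  have hfin : F b - p c / b c * (b c - s) = F b - e * d := by rw [hed]
  rw [hfin, hT]
  have h5 : (1 + e) * L * (d / 2) - L * ((1 + e) * d) = -((1 + e) * L * (d / 2)) := by ring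
  have h6 : (1 + e) * L * (d / 2) ≤ (e + e ^ 2 / 2) * (d / 2) :=
    mul_le_mul_of_nonneg_right hup (by linarith)
  have h7 : (e + e ^ 2 / 2) * (d / 2) = e * d / 2 + e ^ 2 * d / 4 := by ring
  have h8 : -(e * (d / 2)) + e ^ 2 / 2 * (d / 2) = -(e * d / 2) + e ^ 2 * d / 4 := by ring
  linarith

/-- COORDINATE CONVEXITY of the row function. -/
theorem F_convexOn (b : κ → ℝ) (hb0 : ∀ j, 0 ≤ b j) (hb1 : ∀ j, b j ≤ 1) (i c : κ)
    (hic : i ≠ c) (hi : b i = 1) :
    ConvexOn ℝ (Set.Icc 0 1) fun t => F (Function.update b c t) := by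
  refine convex_of_supports _ fun t ht0 ht1 => ?_
  have hup0 : ∀ j, 0 ≤ Function.update b c t j := by
    intro j
    by_cases hj : j = c
    · subst hj; simpa using ht0.le
    · rw [Function.update_of_ne hj]; exact hb0 j
  have hup1 : ∀ j, Function.update b c t j ≤ 1 := by
    intro j
    by_cases hj : j = c
    · subst hj; simpa using ht1
    · rw [Function.update_of_ne hj]; exact hb1 j
  obtain ⟨p, hp, hv, hmax, hpi⟩ := exists_max (Function.update b c t) hup1 hup0 i
    (by rw [Function.update_of_ne hic]; exact hi)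
  have hval : ∀ s, val (Function.update b c s) p = F (Function.update b c t)
      + p c * (Real.log s - Real.log t) := by
    intro s
    rw [← hv]
    exact val_update b p c t s
  refine ⟨p c / t, div_nonneg (hp.1 c) ht0.le, fun s hs0 hs => ?_, fun s hs hs1 => ?_⟩
  · rcases eq_or_lt_of_le (hp.1 c) with h | h
    · have hadm : p ∈ adm (Function.update b c s) := by
        refine ⟨hp.1, hp.2.1, fun j hj => ?_⟩
        by_cases hjc : j = c
        · rw [hjc, ← h]
        · refine hp.2.2 j ?_
          rw [Function.update_of_ne hjc] at hj ⊢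
          exact hj
      have h1 := val_le_F _ p hadm
      rw [hval s, ← h] at h1
      rw [← h]
      simpa using h1
    · have h1 := left_support (Function.update b c t) p hp hv i c hic (hmax c) h
        (by rw [Function.update_self]; exact ht0) s hs0 (by rw [Function.update_self]; exact hs)
      rw [Function.update_self, Function.update_idem] at h1
      exact h1
  · have hs0 : 0 < s := ht0.trans_le hs
    have hadm : p ∈ adm (Function.update b c s) := by
      refine ⟨hp.1, hp.2.1, fun j hj => ?_⟩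
      by_cases hjc : j = c
      · rw [hjc, Function.update_self] at hj
        exact absurd hj hs0.ne'
      · refine hp.2.2 j ?_
        rw [Function.update_of_ne hjc] at hj ⊢
        exact hj
    have h1 := val_le_F _ p hadm
    rw [hval s] at h1
    have h2 : p c / t * t = p c := by field_simp
    rw [h2]
    exact h1

omit [Fintype κ] in
/-- VERTEX PRINCIPLE: a function of a row which is convex in every off-diagonal entry is bounded on a
box by its value at a vertex. -/
theorem exists_vertex (G : (κ → ℝ) → ℝ) (M : κ → ℝ) (hM : ∀ c, 0 ≤ M c) (i : κ)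
    (hG : ∀ b : κ → ℝ, b i = 1 → (∀ c, c ≠ i → 0 ≤ b c ∧ b c ≤ M c) → ∀ c, c ≠ i →
      ConvexOn ℝ (Set.Icc 0 (M c)) fun t => G (Function.update b c t)) (S : Finset κ) (hS : i ∉ S) :
    ∀ b : κ → ℝ, b i = 1 → (∀ c, c ≠ i → 0 ≤ b c ∧ b c ≤ M c) →
    ∃ b' : κ → ℝ, b' i = 1 ∧ (∀ c ∈ S, b' c = 0 ∨ b' c = M c) ∧ (∀ c, c ∉ S → b' c = b c) ∧
      G b ≤ G b' := by
  induction S using Finset.induction_on with
  | empty =>
    intro b hb _
    exact ⟨b, hb, by simp, by simp, le_rfl⟩
  | insert c S hc ih =>
    intro b hb hbM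
    rw [Finset.mem_insert, not_or] at hS
    have hci : c ≠ i := fun h => hS.1 h.symm
    obtain ⟨b1, h1, h2, h3, h4⟩ := ih hS.2 b hb hbM
    have hb1 : ∀ k, k ≠ i → 0 ≤ b1 k ∧ b1 k ≤ M k := by
      intro k hk
      by_cases hkS : k ∈ S
      · rcases h2 k hkS with h | h
        · rw [h]; exact ⟨le_rfl, hM k⟩
        · rw [h]; exact ⟨hM k, le_rfl⟩
      · rw [h3 k hkS]; exact hbM k hk
    have hcv := hG b1 h1 hb1 c hci
    have hmem : b1 c ∈ Set.Icc 0 (M c) := hb1 c hci
    have hmax := hcv.le_max_of_mem_Icc (Set.left_mem_Icc.mpr (hM c))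
      (Set.right_mem_Icc.mpr (hM c)) hmem
    simp only [Function.update_eq_self] at hmax
    rcases le_max_iff.mp hmax with h | h
    · refine ⟨Function.update b1 c 0, ?_, fun k hk => ?_, fun k hk => ?_, h4.trans h⟩
      · rw [Function.update_of_ne hS.1]; exact h1
      · rcases Finset.mem_insert.mp hk with hk | hk
        · subst hk; left; simp
        · have : k ≠ c := fun h => hc (h ▸ hk)
          rw [Function.update_of_ne this]
          exact h2 k hk
      · rw [Finset.mem_insert, not_or] at hk
        rw [Function.update_of_ne hk.1]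
        exact h3 k hk.2
    · refine ⟨Function.update b1 c (M c), ?_, fun k hk => ?_, fun k hk => ?_, h4.trans h⟩
      · rw [Function.update_of_ne hS.1]; exact h1
      · rcases Finset.mem_insert.mp hk with hk | hk
        · subst hk; right; simp
        · have : k ≠ c := fun h => hc (h ▸ hk)
          rw [Function.update_of_ne this]
          exact h2 k hk
      · rw [Finset.mem_insert, not_or] at hk
        rw [Function.update_of_ne hk.1]
        exact h3 k hk.2

end Ent
end Pool.Agent.Lib.MP_6947cd_al
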