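import Pool.Agent.Lib.MP_6947cd_al.T.Val

/-!
Problem MP_6947cd_al (Chollet).  Invariance of the row function: entries equal to zero can be dropped.
-/

set_option autoImplicit false
open scoped Matrix
open Matrix Finset

namespace Pool.Agent.Lib.MP_6947cd_al
namespace Ent

/-- elements without mass do not matter -/
lemma ell_subset {κ : Type} [DecidableEq κ] (C C' : Finset κ) (hCC : C' ⊆ C) (y : κ → ℝ)
    (hy : ∀ k ∈ C, k ∉ C' → y k = 0) (j : κ) (hj : j ∈ C') : ell C y j = ell C' y j := by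
  rw [ell_eq C y j (hCC hj), ell_eq C' y j hj]
  refine intervalIntegral.integral_congr fun u _ => ?_
  have e : C.erase j = (C'.erase j) ∪ (C \ C') := by
    ext k
    simp only [Finset.mem_erase, Finset.mem_union, Finset.mem_sdiff]
    constructor
    · rintro ⟨h1, h2⟩
      by_cases h3 : k ∈ C'
      · exact Or.inl ⟨h1, h3⟩
      · exact Or.inr ⟨h2, h3⟩
    · rintro (⟨h1, h2⟩ | ⟨h1, h2⟩)
      · exact ⟨h1, hCC h2⟩
      · exact ⟨fun h => h2 (h ▸ hj), h1⟩
  have hd : Disjoint (C'.erase j) (C \ C') := by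
    rw [Finset.disjoint_left]
    intro k h1 h2
    exact (Finset.mem_sdiff.mp h2).2 (Finset.mem_of_mem_erase h1)
  show bern u (C.erase j) _ = bern u (C'.erase j) _
  rw [e, bern_union u _ _ hd]
  refine bern_congr u _ _ _ fun K hK => ?_
  have e2 : bern u (C \ C') (fun K' => Real.log (y j + ∑ k ∈ K ∪ K', y k))
      = bern u (C \ C') (fun _ => Real.log (y j + ∑ k ∈ K, y k)) := by
    refine bern_congr u _ _ _ fun K' hK' => ?_
    have hdis : Disjoint K K' :=
      Finset.disjoint_of_subset_left hK (Finset.disjoint_of_subset_right hK' hd)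
    rw [Finset.sum_union hdis]
    have : ∑ k ∈ K', y k = 0 := Finset.sum_eq_zero fun k hk =>
      hy k (Finset.mem_sdiff.mp (hK' hk)).1 (Finset.mem_sdiff.mp (hK' hk)).2
    rw [this, add_zero]
  rw [e2, bern_const]

variable {κ κ' : Type} [Fintype κ] [DecidableEq κ] [Fintype κ'] [DecidableEq κ']

lemma ell_emb (e : κ' ↪ κ) (y : κ → ℝ) (hy : ∀ j, j ∉ Set.range e → y j = 0) (a : κ') :
    ell Finset.univ y (e a) = ell Finset.univ (fun a => y (e a)) a := by
  rw [← ell_map e Finset.univ y a]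
  refine ell_subset _ _ (Finset.subset_univ _) y (fun k _ hk => hy k ?_) _ (by simp)
  rintro ⟨b, rfl⟩
  exact hk (by simp)

omit [DecidableEq κ] [DecidableEq κ'] in
lemma sum_emb (e : κ' ↪ κ) (g : κ → ℝ) (hg : ∀ j, j ∉ Set.range e → g j = 0) :
    ∑ j, g j = ∑ a, g (e a) := by
  rw [← Finset.sum_map Finset.univ e g]
  refine (Finset.sum_subset (Finset.subset_univ _) fun k _ hk => hg k ?_).symm
  rintro ⟨b, rfl⟩
  exact hk (by simp)

/-- Zero entries can be dropped. -/
theorem F_emb (e : κ' ↪ κ) (b : κ → ℝ) (hb : ∀ j, j ∉ Set.range e → b j = 0) :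
    F (fun a => b (e a)) = F b := by
  unfold F
  congr 1
  ext v
  constructor
  · rintro ⟨q, hq, rfl⟩
    set p : κ → ℝ := Function.extend e q 0 with hp
    have hpe : ∀ a, p (e a) = q a := fun a => e.injective.extend_apply q 0 a
    have hp0 : ∀ j, j ∉ Set.range e → p j = 0 := fun j hj =>
      Function.extend_apply' _ _ _ (by simpa using hj)
    refine ⟨p, ⟨fun j => ?_, ?_, fun j hj => ?_⟩, ?_⟩
    · by_cases h : j ∈ Set.range e
      · obtain ⟨a, rfl⟩ := h
        rw [hpe]; exact hq.1 a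
      · rw [hp0 j h]
    · rw [sum_emb e p hp0]
      simp only [hpe]
      exact hq.2.1
    · by_cases h : j ∈ Set.range e
      · obtain ⟨a, rfl⟩ := h
        rw [hpe]; exact hq.2.2 a hj
      · exact hp0 j h
    · unfold val
      rw [sum_emb e _ (fun j hj => by rw [hp0 j hj, zero_mul])]
      refine Finset.sum_congr rfl fun a _ => ?_
      rw [ell_emb e p hp0 a]
      simp only [hpe]
  · rintro ⟨p, hp, rfl⟩
    have hp0 : ∀ j, j ∉ Set.range e → p j = 0 := fun j hj => hp.2.2 j (hb j hj)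
    refine ⟨fun a => p (e a), ⟨fun a => hp.1 _, ?_, fun a ha => hp.2.2 _ ha⟩, ?_⟩
    · rw [← sum_emb e p hp0]
      exact hp.2.1
    · unfold val
      rw [sum_emb e _ (fun j hj => by rw [hp0 j hj, zero_mul])]
      refine Finset.sum_congr rfl fun a _ => ?_
      rw [ell_emb e p hp0 a]

end Ent
end Pool.Agent.Lib.MP_6947cd_al
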