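import Pool.Agent.Lib.MP_6947cd_al.T.Loss
import Pool.Agent.Lib.Interval.AD

/-!
Problem MP_6947cd_al (Chollet).  The slope hypothesis of the loss lemma holds with `α = 43/200`,
`β = 39/200`: removing an entry `b` from a row lowers `F` by at most `0.215 b + 0.195 b^2`.
-/

set_option autoImplicit false
open scoped Matrix
open Matrix Finset

namespace Pool.Agent.Lib.MP_6947cd_al
namespace Ent

/-- one cell of the quadrature -/
lemma cell_le (f : ℝ → ℝ) (hf : ConvexOn ℝ (Set.Ici 0) f) (a b c : ℝ) (ha : 0 ≤ a) (hac : a < c)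
    (hcb : c < b) (hb1 : b ≤ 1) (f' : ℝ) (hd : HasDerivAt f f' c)
    (hint : IntervalIntegrable (fun u => (1 - u) * f u) MeasureTheory.volume a b)
    (hcc : ((b - a) - (b ^ 2 - a ^ 2) / 2) * c = (b ^ 2 - a ^ 2) / 2 - (b ^ 3 - a ^ 3) / 3) :
    ((b - a) - (b ^ 2 - a ^ 2) / 2) * f c ≤ ∫ u in a..b, (1 - u) * f u := by
  have hab : a ≤ b := by linarith
  have h1 : ∫ u in a..b, (1 - u) * (f c + f' * (u - c))
      = ((b - a) - (b ^ 2 - a ^ 2) / 2) * f c := by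
    have hG : ∀ u ∈ Set.uIcc a b, HasDerivAt
        (fun u : ℝ => f c * (u - u ^ 2 / 2) + f' * (u ^ 2 / 2 - u ^ 3 / 3 - c * (u - u ^ 2 / 2)))
        ((1 - u) * (f c + f' * (u - c))) u := by
      intro u _
      have e1 : HasDerivAt (fun u : ℝ => u - u ^ 2 / 2) (1 - u) u := by
        have := (hasDerivAt_id u).sub (((hasDerivAt_id u).pow 2).div_const 2)
        refine this.congr_deriv ?_
        simp
      have e2 : HasDerivAt (fun u : ℝ => u ^ 2 / 2 - u ^ 3 / 3) (u - u ^ 2) u := by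
        have := (((hasDerivAt_id u).pow 2).div_const 2).sub (((hasDerivAt_id u).pow 3).div_const 3)
        refine this.congr_deriv ?_
        simp
      have := (e1.const_mul (f c)).add ((e2.sub (e1.const_mul c)).const_mul f')
      refine this.congr_deriv ?_
      ring
    rw [intervalIntegral.integral_eq_sub_of_hasDerivAt hG
      (Continuous.intervalIntegrable (by fun_prop) _ _)]
    have : f' * ((b ^ 2 / 2 - b ^ 3 / 3 - c * (b - b ^ 2 / 2))
        - (a ^ 2 / 2 - a ^ 3 / 3 - c * (a - a ^ 2 / 2))) = 0 := by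
      have : (b ^ 2 / 2 - b ^ 3 / 3 - c * (b - b ^ 2 / 2))
        - (a ^ 2 / 2 - a ^ 3 / 3 - c * (a - a ^ 2 / 2)) = 0 := by linarith
      rw [this, mul_zero]
    linarith
  rw [← h1]
  refine intervalIntegral.integral_mono_on hab
    (Continuous.intervalIntegrable (by fun_prop) _ _) hint fun u hu => ?_
  refine mul_le_mul_of_nonneg_left ?_ (by linarith [hu.2])
  have hu0 : (0 : ℝ) ≤ u := ha.trans hu.1
  have hc0 : (0 : ℝ) ≤ c := by linarith
  rcases lt_trichotomy u c with h | h | h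
  · have h2 := hf.slope_le_of_hasDerivAt hu0 hc0 h hd
    rw [slope_def_field, div_le_iff₀ (by linarith)] at h2
    linarith
  · rw [h]; simp
  · have h2 := hf.le_slope_of_hasDerivAt hc0 hu0 h hd
    rw [slope_def_field, le_div_iff₀ (by linarith)] at h2
    linarith

lemma qstep (f : ℝ → ℝ) (hf : ConvexOn ℝ (Set.Ici 0) f)
    (hcont : ContinuousOn f (Set.Icc 0 1)) (L a b c : ℝ) (ha : 0 ≤ a) (hac : a < c)
    (hcb : c < b) (hb1 : b ≤ 1) (_ha1 : a ≤ 1)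
    (hcc : ((b - a) - (b ^ 2 - a ^ 2) / 2) * c = (b ^ 2 - a ^ 2) / 2 - (b ^ 3 - a ^ 3) / 3)
    (hd : ∃ f', HasDerivAt f f' c)
    (hL : L ≤ ∫ u in (0 : ℝ)..a, (1 - u) * f u) :
    L + ((b - a) - (b ^ 2 - a ^ 2) / 2) * f c ≤ ∫ u in (0 : ℝ)..b, (1 - u) * f u := by
  obtain ⟨f', hd⟩ := hd
  have hint : ∀ p q : ℝ, 0 ≤ p → p ≤ 1 → 0 ≤ q → q ≤ 1 →
      IntervalIntegrable (fun u => (1 - u) * f u) MeasureTheory.volume p q := by
    intro p q hp hp1 hq hq1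
    refine ContinuousOn.intervalIntegrable ?_
    refine ContinuousOn.mul (by fun_prop) (hcont.mono ?_)
    intro u hu
    rcases Set.mem_uIcc.mp hu with h | h
    · exact ⟨hp.trans h.1, h.2.trans hq1⟩
    · exact ⟨hq.trans h.1, h.2.trans hp1⟩
  have h1 := cell_le f hf a b c ha hac hcb hb1 f' hd (hint a b ha (by linarith) (by linarith) hb1) hcc
  rw [← intervalIntegral.integral_add_adjacent_intervals (hint 0 a le_rfl zero_le_one ha (by linarith))
    (hint a b ha (by linarith) (by linarith) hb1)]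
  linarith

/-- quadrature lower bound for `J` -/
noncomputable def Jl (x Y : ℝ) : ℝ := (99 / 5000) * (Real.log (1 + (74 / 7425) * Y) - Real.log (x + (74 / 7425) * Y)) + (579 / 20000) * (Real.log (1 + (337 / 9650) * Y) - Real.log (x + (337 / 9650) * Y)) + (37 / 800) * (Real.log (1 + (83 / 1110) * Y) - Real.log (x + (83 / 1110) * Y)) + (43 / 625) * (Real.log (1 + (899 / 6450) * Y) - Real.log (x + (899 / 6450) * Y)) + (77 / 1000) * (Real.log (1 + (1322 / 5775) * Y) - Real.log (x + (1322 / 5775) * Y)) + (99 / 1250) * (Real.log (1 + (93 / 275) * Y) - Real.log (x + (93 / 275) * Y)) + (63 / 800) * (Real.log (1 + (33 / 70) * Y) - Real.log (x + (33 / 70) * Y)) + (7 / 100) * (Real.log (1 + (269 / 420) * Y) - Real.log (x + (269 / 420) * Y)) + (1 / 32) * (Real.log (1 + (5 / 6) * Y) - Real.log (x + (5 / 6) * Y))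

lemma Jl_le (x Y : ℝ) (hx : 0 < x) (hx1 : x ≤ 1) (hY : 0 ≤ Y) : Jl x Y ≤ J x Y := by
  set f : ℝ → ℝ := fun u => Real.log (1 + u * Y) - Real.log (x + u * Y) with hfdef
  have hf : ConvexOn ℝ (Set.Ici 0) f := by
    have h1 := (concave_log_sub x 1 hx hx1).neg
    refine ⟨convex_Ici 0, fun u hu v hv a b ha hb hab => ?_⟩
    have hu' : u * Y ∈ Set.Ici (0 : ℝ) := mul_nonneg hu hY
    have hv' : v * Y ∈ Set.Ici (0 : ℝ) := mul_nonneg hv hY
    have h2 := h1.2 hu' hv' ha hb hab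
    simp only [smul_eq_mul, Pi.neg_apply] at h2 ⊢
    have e : (a * u + b * v) * Y = a * (u * Y) + b * (v * Y) := by ring
    simp only [hfdef]
    rw [e]
    linarith
  have hcont : ContinuousOn f (Set.Icc 0 1) := by
    refine ContinuousOn.sub ?_ ?_
    · refine ContinuousOn.log (by fun_prop) fun u hu => ?_
      have := mul_nonneg hu.1 hY
      linarith
    · refine ContinuousOn.log (by fun_prop) fun u hu => ?_
      have := mul_nonneg hu.1 hY
      linarith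
  have hd : ∀ c : ℝ, 0 < c → ∃ f', HasDerivAt f f' c := by
    intro c hc
    have hcY := mul_nonneg hc.le hY
    have h1 : HasDerivAt (fun u : ℝ => 1 + u * Y) Y c := by
      simpa using ((hasDerivAt_id c).mul_const Y).const_add 1
    have h2 : HasDerivAt (fun u : ℝ => x + u * Y) Y c := by
      simpa using ((hasDerivAt_id c).mul_const Y).const_add x
    exact ⟨_, (h1.log (by linarith)).sub (h2.log (by linarith))⟩
  have h0 : (0 : ℝ) ≤ ∫ u in (0 : ℝ)..0, (1 - u) * f u := by simp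
  have h1 := qstep _ hf hcont _ 0 (1 / 50) (74 / 7425) (by norm_num) (by norm_num) (by norm_num) (by norm_num) (by norm_num)
    (by norm_num) (hd (74 / 7425) (by norm_num)) h0
  have h2 := qstep _ hf hcont _ (1 / 50) (1 / 20) (337 / 9650) (by norm_num) (by norm_num) (by norm_num) (by norm_num) (by norm_num)
    (by norm_num) (hd (337 / 9650) (by norm_num)) h1
  have h3 := qstep _ hf hcont _ (1 / 20) (1 / 10) (83 / 1110) (by norm_num) (by norm_num) (by norm_num) (by norm_num) (by norm_num)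
    (by norm_num) (hd (83 / 1110) (by norm_num)) h2
  have h4 := qstep _ hf hcont _ (1 / 10) (9 / 50) (899 / 6450) (by norm_num) (by norm_num) (by norm_num) (by norm_num) (by norm_num)
    (by norm_num) (hd (899 / 6450) (by norm_num)) h3
  have h5 := qstep _ hf hcont _ (9 / 50) (7 / 25) (1322 / 5775) (by norm_num) (by norm_num) (by norm_num) (by norm_num) (by norm_num)
    (by norm_num) (hd (1322 / 5775) (by norm_num)) h4
  have h6 := qstep _ hf hcont _ (7 / 25) (2 / 5) (93 / 275) (by norm_num) (by norm_num) (by norm_num) (by norm_num) (by norm_num)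
    (by norm_num) (hd (93 / 275) (by norm_num)) h5
  have h7 := qstep _ hf hcont _ (2 / 5) (11 / 20) (33 / 70) (by norm_num) (by norm_num) (by norm_num) (by norm_num) (by norm_num)
    (by norm_num) (hd (33 / 70) (by norm_num)) h6
  have h8 := qstep _ hf hcont _ (11 / 20) (3 / 4) (269 / 420) (by norm_num) (by norm_num) (by norm_num) (by norm_num) (by norm_num)
    (by norm_num) (hd (269 / 420) (by norm_num)) h7
  have h9 := qstep _ hf hcont _ (3 / 4) 1 (5 / 6) (by norm_num) (by norm_num) (by norm_num) (by norm_num) (by norm_num)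
    (by norm_num) (hd (5 / 6) (by norm_num)) h8
  have e : J x Y = ∫ u in (0 : ℝ)..1, (1 - u) * f u := rfl
  rw [e]
  refine le_trans (le_of_eq ?_) h9
  simp only [Jl, hfdef]
  ring

section Check
open IA

def sl1 : E := (.sub (.cst 1 1) (.mul (.mul (.exp (.add (.add (.add (.add (.add (.add (.add (.add (.mul (.cst 99 5000) (.sub (.log (.add (.cst 1 1) (.mul (.cst 74 7425) .x1))) (.log (.add .x0 (.mul (.cst 74 7425) .x1))))) (.mul (.cst 579 20000) (.sub (.log (.add (.cst 1 1) (.mul (.cst 337 9650) .x1))) (.log (.add .x0 (.mul (.cst 337 9650) .x1)))))) (.mul (.cst 37 800) (.sub (.log (.add (.cst 1 1) (.mul (.cst 83 1110) .x1))) (.log (.add .x0 (.mul (.cst 83 1110) .x1)))))) (.mul (.cst 43 625) (.sub (.log (.add (.cst 1 1) (.mul (.cst 899 6450) .x1))) (.log (.add .x0 (.mul (.cst 899 6450) .x1)))))) (.mul (.cst 77 1000) (.sub (.log (.add (.cst 1 1) (.mul (.cst 1322 5775) .x1))) (.log (.add .x0 (.mul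 (.cst 1322 5775) .x1)))))) (.mul (.cst 99 1250) (.sub (.log (.add (.cst 1 1) (.mul (.cst 93 275) .x1))) (.log (.add .x0 (.mul (.cst 93 275) .x1)))))) (.mul (.cst 63 800) (.sub (.log (.add (.cst 1 1) (.mul (.cst 33 70) .x1))) (.log (.add .x0 (.mul (.cst 33 70) .x1)))))) (.mul (.cst 7 100) (.sub (.log (.add (.cst 1 1) (.mul (.cst 269 420) .x1))) (.log (.add .x0 (.mul (.cst 269 420) .x1)))))) (.mul (.cst 1 32) (.sub (.log (.add (.cst 1 1) (.mul (.cst 5 6) .x1))) (.log (.add .x0 (.mul (.cst 5 6) .x1))))))) (.add (.add (.cst 1 1) .x0) .x1)) (.add (.cst 43 200) (.mul (.mul (.cst 39 100) .x0) (.exp (.add (.add (.add (.add (.add (.add (.add (.add (.mul (.cst 99 5000) (.sub (.log (.add (.cst 1 1) (.mul (.cst 74 7425) .x1))) (.log (.add .x0 (.mul (.cst 74 7425) .x1))))) (.mul (.cst 579 20000) (.sub (.log (.add (.cst 1 1) (.mul (.cst 337 9650) .x1))) (.log (.add .x0 (.mul (.cst 337 9650) .x1)))))) (.mul (.cst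 37 800) (.sub (.log (.add (.cst 1 1) (.mul (.cst 83 1110) .x1))) (.log (.add .x0 (.mul (.cst 83 1110) .x1)))))) (.mul (.cst 43 625) (.sub (.log (.add (.cst 1 1) (.mul (.cst 899 6450) .x1))) (.log (.add .x0 (.mul (.cst 899 6450) .x1)))))) (.mul (.cst 77 1000) (.sub (.log (.add (.cst 1 1) (.mul (.cst 1322 5775) .x1))) (.log (.add .x0 (.mul (.cst 1322 5775) .x1)))))) (.mul (.cst 99 1250) (.sub (.log (.add (.cst 1 1) (.mul (.cst 93 275) .x1))) (.log (.add .x0 (.mul (.cst 93 275) .x1)))))) (.mul (.cst 63 800) (.sub (.log (.add (.cst 1 1) (.mul (.cst 33 70) .x1))) (.log (.add .x0 (.mul (.cst 33 70) .x1)))))) (.mul (.cst 7 100) (.sub (.log (.add (.cst 1 1) (.mul (.cst 269 420) .x1))) (.log (.add .x0 (.mul (.cst 269 420) .x1)))))) (.mul (.cst 1 32) (.sub (.log (.add (.cst 1 1) (.mul (.cst 5 6) .x1))) (.log (.add .x0 (.mul (.cst 5 6) .x1)))))))))))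
def sl2 : E := (.sub (.add .x0 .x1) (.cst 23 500))
def sl3 : E := (.sub (.cst 183 50) (.add .x0 .x1))

open T in
def slT : T := s1 (s1 (s0 (s1 (s0 (s1 (s0 (s1 (s0 (s1 (s0 (s1 (s0 (s1 (v 0) (v 2)) (v 2)) (s0 (v 2) (v 2))) (s1 (s0 (v 2) (v 2)) (s0 (v 2) (v 2)))) (s0 (s1 (s0 (v 2) (v 2)) (s0 (v 2) (v 2))) (s1 (s0 (v 2) (v 2)) (s0 (v 2) (v 2))))) (s1 (s0 (s1 (s0 (v 2) (v 2)) (s0 (v 2) (v 2))) (s0 (d 2) (d 2))) (s0 (s0 (d 2) (d 2)) (s0 (d 2) (d 2))))) (s0 (s1 (s0 (s1 (s0 (v 2) (v 2)) (s0 (s1 (v 2) (v 2)) (d 2))) (s0 (d 2) (d 2))) (s0 (s1 (s0 (s0 (v 2) (v 2)) (d 2)) (s0 (s0 (v 2) (v 2)) (d 2))) (s0 (d 2) (d 2)))) (s0 (s0 (s1 (d 2) (d 2)) (s1 (d 2) (d 2))) (s0 (s1 (d 2) (d 2)) (s1 (d 2) (d 2)))))) (s1 (s0 (s0 (s1 (s0 (d 2) (d 2)) (s0 (d 2) (d 2))) (s1 (s0 (d 2) (d 2)) (d 2))) (s0 (s1 (s0 (d 2) (d 2)) (d 2)) (s1 (s0 (d 2) (d 2)) (d 2)))) (s0 (s0 (s0 (s1 (d 2) (d 2)) (d 2)) (s1 (d 2) (d 2))) (s0 (d 2) (d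 2))))) (s0 (s1 (s0 (s1 (s0 (s1 (s0 (s0 (v 2) (d 2)) (d 2)) (s0 (s0 (d 2) (d 2)) (d 2))) (s0 (s0 (d 2) (d 2)) (d 2))) (s0 (s0 (s0 (s0 (d 2) (d 2)) (d 2)) (s0 (d 2) (d 2))) (s0 (s0 (d 2) (d 2)) (d 2)))) (s0 (s0 (s1 (d 2) (d 2)) (s1 (d 2) (d 2))) (s0 (d 2) (d 2)))) (s0 (s1 (s0 (s0 (s0 (s0 (d 2) (d 2)) (s0 (d 2) (d 2))) (s0 (d 2) (d 2))) (s0 (s0 (d 2) (d 2)) (d 2))) (s0 (s0 (s0 (s0 (d 2) (d 2)) (s0 (d 2) (d 2))) (s0 (s0 (d 2) (d 2)) (d 2))) (s0 (s0 (d 2) (d 2)) (d 2)))) (s0 (s0 (s1 (d 2) (d 2)) (d 2)) (s0 (d 2) (d 2))))) (s0 (s0 (s1 (d 2) (d 2)) (s1 (d 2) (d 2))) (s0 (s1 (d 2) (d 2)) (s1 (d 2) (d 2)))))) (s1 (s0 (s0 (s1 (s0 (s1 (s0 (d 2) (d 2)) (d 2)) (s1 (s0 (d 2) (d 2)) (d 2))) (s0 (d 2) (d 2))) (s1 (s0 (s1 (d 2) (d 2)) (s1 (d 2) (d 2))) (d 2))) (s0 (s1 (s0 (s1 (d 2) (d 2)) (d 2)) (d 2)) (s1 (s0 (d 2) (d 2)) (d 2)))) (s0 (s0 (s1 (d 2) (d 2)) (d 2)) (s0 (d 2) (d 2))))) (s0 (s1 (s0 (s1 (s0 (s0 (s0 (s0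 (s1 (s0 (s0 (d 2) (d 2)) (s1 (d 2) (d 2))) (s0 (s0 (d 2) (d 2)) (s1 (d 2) (d 2)))) (s1 (s0 (d 2) (d 2)) (s0 (d 2) (d 2)))) (s0 (s1 (s0 (d 2) (d 2)) (s0 (d 2) (d 2))) (s1 (d 2) (d 2)))) (s0 (s1 (s0 (d 2) (d 2)) (d 2)) (s1 (d 2) (d 2)))) (s0 (s0 (d 2) (d 2)) (d 2))) (s0 (s0 (s0 (s0 (s1 (s0 (s0 (d 2) (d 2)) (d 2)) (s0 (d 2) (d 2))) (s1 (s0 (d 2) (d 2)) (s0 (d 2) (d 2)))) (s0 (s1 (d 2) (d 2)) (s1 (d 2) (d 2)))) (s0 (s0 (d 2) (d 2)) (d 2))) (s0 (d 2) (d 2)))) (s0 (s0 (d 2) (d 2)) (d 2))) (s0 (s0 (s0 (s0 (s1 (s0 (s0 (s1 (d 2) (d 2)) (s1 (d 2) (d 2))) (s1 (d 2) (d 2))) (s0 (d 2) (d 2))) (s1 (s0 (d 2) (d 2)) (d 2))) (s0 (s1 (d 2) (d 2)) (d 2))) (s0 (s1 (d 2) (d 2)) (d 2))) (s0 (d 2) (d 2)))) (s0 (s0 (s1 (d 2) (v 2)) (d 2)) (d 2)))) (s0 (s1 (s0 (s1 (s0 (s1 (d 2) (d 2)) (d 2)) (d 2)) (s1 (s0 (d 2) (d 2)) (d 2))) (s0 (d 2) (v 2))) (s1 (s0 (s1 (d 2) (v 2)) (d 2)) (v 2)))) (s0 (s1 (s0 (s1 (s0 (s0 (s0 (s0 (s1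 (d 2) (d 2)) (d 2)) (d 2)) (d 2)) (d 2)) (s0 (s0 (s0 (d 2) (d 2)) (d 2)) (d 2))) (s0 (d 2) (v 2))) (s0 (s0 (s0 (s0 (d 2) (d 2)) (d 2)) (d 2)) (v 2))) (s0 (v 2) (v 2)))) (s1 (s0 (s1 (s0 (s0 (s0 (d 2) (v 2)) (v 2)) (v 2)) (s0 (s0 (v 2) (v 2)) (v 2))) (v 2)) (s0 (s1 (s0 (v 2) (v 2)) (v 2)) (v 2)))

theorem slChk : chk [sl2, sl3, sl1] slT ⟨0, 1099511627776⟩ ⟨0, 4398046511104⟩ ⟨0, 0⟩ = true := by
  decide +kernel

end Check

theorem slope_num (x Y : ℝ) (hx : 0 ≤ x) (hx1 : x ≤ 1) (hY : 0 ≤ Y) (hY4 : Y ≤ 4) :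
    x + Y ≤ 46 / 1000 ∨ 366 / 100 ≤ x + Y ∨
    1 ≤ Real.exp (Jl x Y) * (1 + x + Y) * (43 / 200 + 2 * (39 / 200) * x * Real.exp (Jl x Y)) := by
  have h := IA.chk_sound _ _ _ _ _ slChk x Y 0 ⟨by simpa using hx, by simpa using hx1⟩
    ⟨by simpa using hY, by norm_num; linarith⟩ ⟨by simp, by simp⟩
  obtain ⟨e, he, h⟩ := h
  simp only [List.mem_cons, List.not_mem_nil, or_false] at he
  rcases he with he | he | he
  · left
    rw [he] at h
    simp only [sl2, IA.E.ev] at h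
    push_cast at h
    linarith
  · right; left
    rw [he] at h
    simp only [sl3, IA.E.ev] at h
    push_cast at h
    linarith
  · right; right
    rw [he] at h
    simp only [sl1, IA.E.ev] at h
    push_cast at h
    have e2 : Jl x Y = (99 / 5000) * (Real.log (1 + (74 / 7425) * Y) - Real.log (x + (74 / 7425) * Y)) + (579 / 20000) * (Real.log (1 + (337 / 9650) * Y) - Real.log (x + (337 / 9650) * Y)) + (37 / 800) * (Real.log (1 + (83 / 1110) * Y) - Real.log (x + (83 / 1110) * Y)) + (43 / 625) * (Real.log (1 + (899 / 6450) * Y) - Real.log (x + (899 / 6450) * Y)) + (77 / 1000) * (Real.log (1 + (1322 / 5775) * Y) - Real.log (x + (1322 / 5775) * Y)) + (99 / 1250) * (Real.log (1 + (93 / 275) * Y) - Real.log (x + (93 / 275) * Y)) + (63 / 800) * (Real.log (1 + (33 / 70) * Y) - Real.log (x + (33 / 70) * Y)) + (7 / 100) * (Real.log (1 + (269 / 420) * Y) - Real.log (x + (269 / 420) * Y)) + (1 / 32) * (Real.log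 (1 + (5 / 6) * Y) - Real.log (x + (5 / 6) * Y)) := rfl
    rw [e2]
    norm_num at h ⊢
    linarith

/-- the slope hypothesis -/
theorem slopeHyp (y0 : ℝ) : SlopeHyp (43 / 200) (39 / 200) y0 := by
  intro x Y hx hx1 hY _
  have hJ0 : Real.exp (J x Y) = (Real.exp (-J x Y))⁻¹ := by rw [Real.exp_neg, inv_inv]
  have hE : 0 < Real.exp (J x Y) := Real.exp_pos _
  have hpos : 0 < 1 + x + Y := by linarith
  have key : 1 ≤ Real.exp (J x Y) * (1 + x + Y)
      * (43 / 200 + 2 * (39 / 200) * x * Real.exp (J x Y)) → 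
      Real.exp (-J x Y) / (1 + x + Y) ≤ 43 / 200 + 2 * (39 / 200) * (x * Real.exp (J x Y)) := by
    intro h
    rw [Real.exp_neg, div_le_iff₀ hpos, inv_le_iff_one_le_mul₀ hE]
    linarith
  apply key
  have hJ1 : -(1 / 2 * Real.log (x + Y)) ≤ J x Y := J_ge x Y hx hY
  have hx2 : 0 ≤ 2 * (39 / 200) * x * Real.exp (J x Y) := by positivity
  rcases le_or_gt (x + Y) (46 / 1000) with hs | hs
  · -- small total
    have h1 : Real.sqrt (1 / (x + Y)) ≤ Real.exp (J x Y) := by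
      have h2 := Real.exp_le_exp.mpr hJ1
      refine le_trans (le_of_eq ?_) h2
      rw [Real.sqrt_eq_rpow, Real.rpow_def_of_pos (by positivity), one_div, Real.log_inv]
      congr 1
      ring
    have h3 : (200 / 43 : ℝ) ≤ Real.sqrt (1 / (x + Y)) := by
      apply Real.le_sqrt_of_sq_le
      rw [le_div_iff₀ (by linarith)]
      nlinarith
    have h4 : 200 / 43 ≤ Real.exp (J x Y) := h3.trans h1
    have h5 : 1 ≤ Real.exp (J x Y) * (43 / 200) := by linarith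
    calc (1 : ℝ) ≤ Real.exp (J x Y) * (43 / 200) := h5
      _ ≤ Real.exp (J x Y) * (1 + x + Y) * (43 / 200) := by
          have : Real.exp (J x Y) ≤ Real.exp (J x Y) * (1 + x + Y) :=
            le_mul_of_one_le_right hE.le (by linarith)
          linarith
      _ ≤ _ := mul_le_mul_of_nonneg_left (by linarith) (by positivity)
  have hbig : 366 / 100 ≤ x + Y → 1 ≤ Real.exp (J x Y) * (1 + x + Y)
      * (43 / 200 + 2 * (39 / 200) * x * Real.exp (J x Y)) := by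
    intro hb
    have hJp : 0 ≤ J x Y := by
      refine intervalIntegral.integral_nonneg zero_le_one fun u hu => ?_
      refine mul_nonneg (sub_nonneg.mpr hu.2) (sub_nonneg.mpr ?_)
      have := mul_nonneg hu.1 hY
      exact Real.log_le_log (by linarith) (by linarith)
    have hE1 : 1 ≤ Real.exp (J x Y) := Real.one_le_exp hJp
    calc (1 : ℝ) ≤ 1 * (466 / 100) * (43 / 200) := by norm_num
      _ ≤ Real.exp (J x Y) * (1 + x + Y) * (43 / 200) := by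
          refine mul_le_mul_of_nonneg_right (mul_le_mul hE1 (by linarith) (by norm_num) hE.le)
            (by norm_num)
      _ ≤ _ := mul_le_mul_of_nonneg_left (by linarith) (by positivity)
  rcases le_or_gt Y 4 with hY4 | hY4
  · rcases slope_num x Y hx.le hx1 hY hY4 with h | h | h
    · linarith
    · exact hbig h
    · have hle : Real.exp (Jl x Y) ≤ Real.exp (J x Y) := Real.exp_le_exp.mpr (Jl_le x Y hx hx1 hY)
      have hE' : 0 < Real.exp (Jl x Y) := Real.exp_pos _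
      refine h.trans ?_
      refine mul_le_mul (mul_le_mul_of_nonneg_right hle hpos.le) ?_ (by positivity) (by positivity)
      have := mul_le_mul_of_nonneg_left hle (show 0 ≤ 2 * (39 / 200) * x by positivity)
      linarith
  · exact hbig (by linarith)

variable {κ : Type} [Fintype κ] [DecidableEq κ]

/-- LOSS LEMMA with explicit constants -/
theorem F_rest_le' (b : κ → ℝ) (hb0 : ∀ j, 0 ≤ b j) (hb1 : ∀ j, b j ≤ 1) (i : κ) (hi : b i = 1)
    (U : Finset κ) (hiU : i ∉ U) :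
    F b ≤ F (rest b U) + ∑ k ∈ U, (43 / 200 * b k + 39 / 200 * (b k) ^ 2) :=
  F_rest_le b hb0 hb1 i hi _ _ _ (by norm_num) (by norm_num) le_rfl (slopeHyp _) U hiU

end Ent
end Pool.Agent.Lib.MP_6947cd_al
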