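import Pool.Agent.Lib.MP_6947cd_al.T.Ext
import Pool.Agent.Lib.MP_6947cd_al.T.Slope
import Pool.Agent.Lib.MP_6947cd_al.B.SB
import Pool.Agent.Lib.MP_6947cd_al.Reduce

/-!
Problem MP_6947cd_al (Chollet).  The frame of the proof: a minimal counterexample to
`2 log per A ≥ ∑ F (row i)` and the inequalities `NR_U` it satisfies.
-/

set_option autoImplicit false
open scoped Matrix ComplexOrder
open Matrix Finset

namespace Pool.Agent.Lib.MP_6947cd_al
namespace Fr

open Ent

/-- the squared moduli of a row -/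
noncomputable def row {n : ℕ} (A : Matrix (Fin n) (Fin n) ℂ) (i : Fin n) : Fin n → ℝ := fun j => ‖A i j‖ ^ 2

/-- permanent of the principal submatrix on `U` -/
noncomputable def S {n : ℕ} (A : Matrix (Fin n) (Fin n) ℂ) (U : Finset (Fin n)) : ℝ :=
  (A.submatrix (fun i : U => (i : Fin n)) (fun i : U => (i : Fin n))).permanent.re

/-- the loss of a row when an entry `b` is removed -/
noncomputable def omg (b : ℝ) : ℝ := 43 / 200 * b + 39 / 200 * b ^ 2

/-- a minimal counterexample -/
structure CE {n : ℕ} (A : Matrix (Fin n) (Fin n) ℂ) : Prop where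
  psd : A.PosSemidef
  diag : ∀ i, A i i = 1
  lt : 2 * Real.log A.permanent.re < ∑ i, F (row A i)
  nr : ∀ U : Finset (Fin n), U.Nonempty →
    2 * Real.log (S A U) < ∑ i ∈ U, (F (row A i) + ∑ k ∈ Uᶜ, omg (row A i k))

section Basic
variable {n : ℕ} (A : Matrix (Fin n) (Fin n) ℂ)

lemma row_nonneg (i j : Fin n) : 0 ≤ row A i j := by unfold row; positivity

lemma row_symm (hA : A.PosSemidef) (i j : Fin n) : row A i j = row A j i := by
  unfold row
  have h : A j i = star (A i j) := by
    have h1 := congrFun (congrFun hA.1 j) i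
    rw [conjTranspose_apply] at h1
    exact h1.symm
  rw [h, norm_star]

lemma row_diag (hd : ∀ i, A i i = 1) (i : Fin n) : row A i i = 1 := by
  unfold row; rw [hd]; simp

lemma row_le_one (hA : A.PosSemidef) (hd : ∀ i, A i i = 1) (i j : Fin n) : row A i j ≤ 1 := by
  obtain ⟨Y, rfl⟩ := exists_gram hA
  have hn : ∀ i, ∑ k, ‖Y k i‖ ^ 2 = 1 := by
    intro i
    have h := hd i
    rw [Matrix.mul_apply] at h
    have h2 : ∑ k, Yᴴ i k * Y k i = ((∑ k, ‖Y k i‖ ^ 2 : ℝ) : ℂ) := by
      push_cast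
      refine Finset.sum_congr rfl fun k _ => ?_
      rw [conjTranspose_apply, Complex.star_def, ← Complex.normSq_eq_conj_mul_self,
        Complex.normSq_eq_norm_sq]
      push_cast
      rfl
    rw [h2] at h
    exact_mod_cast h
  unfold row
  rw [Matrix.mul_apply]
  have h1 : ‖∑ k, Yᴴ i k * Y k j‖ ≤ ∑ k, ‖Y k i‖ * ‖Y k j‖ := by
    refine (norm_sum_le _ _).trans (le_of_eq ?_)
    refine Finset.sum_congr rfl fun k _ => ?_
    rw [norm_mul, conjTranspose_apply, norm_star]
  have h2 := Finset.sum_mul_sq_le_sq_mul_sq Finset.univ (fun k => ‖Y k i‖) (fun k => ‖Y k j‖)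
  rw [hn, hn, mul_one] at h2
  exact (pow_le_pow_left₀ (norm_nonneg _) h1 2).trans h2

lemma one_le_S (hA : A.PosSemidef) (hd : ∀ i, A i i = 1) (U : Finset (Fin n)) : 1 ≤ S A U :=
  CholB.one_le_permanent _ (hA.submatrix _) fun i => hd i

end Basic

/-- There is a minimal counterexample if there is a counterexample. -/
theorem exists_CE (n : ℕ) (A : Matrix (Fin n) (Fin n) ℂ) (hA : A.PosSemidef) (hd : ∀ i, A i i = 1)
    (hlt : 2 * Real.log A.permanent.re < ∑ i, F (row A i)) :
    ∃ (m : ℕ) (B : Matrix (Fin m) (Fin m) ℂ), CE B := by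
  classical
  let P : ℕ → Prop := fun m => ∃ B : Matrix (Fin m) (Fin m) ℂ, B.PosSemidef ∧ (∀ i, B i i = 1) ∧
    2 * Real.log B.permanent.re < ∑ i, F (row B i)
  have hP : ∃ m, P m := ⟨n, A, hA, hd, hlt⟩
  obtain ⟨m, hPm, hmin'⟩ : ∃ m, P m ∧ ∀ k < m, ¬ P k :=
    ⟨Nat.find hP, Nat.find_spec hP, fun k hk => Nat.find_min hP hk⟩
  obtain ⟨B, hB, hBd, hBlt⟩ := hPm
  refine ⟨m, B, ⟨hB, hBd, hBlt, fun U hU => ?_⟩⟩
  -- the smaller matrix
  set V : Finset (Fin m) := Uᶜ with hV
  have hcard : V.card < m := by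
    have h1 : U.card + V.card = m := by
      rw [hV, Finset.card_add_card_compl, Fintype.card_fin]
    have h2 : 0 < U.card := Finset.card_pos.mpr hU
    omega
  let e : Fin V.card ≃ V := (V.equivFin).symm
  let f : Fin V.card ↪ Fin m := e.toEmbedding.trans ⟨fun x => (x : Fin m), Subtype.val_injective⟩
  have hfV : ∀ a, f a ∈ V := fun a => (e a).2
  have hrange : ∀ j, j ∉ Set.range f → j ∉ V := by
    intro j hj hjV
    exact hj ⟨e.symm ⟨j, hjV⟩, by simp [f]⟩
  let C : Matrix (Fin V.card) (Fin V.card) ℂ := B.submatrix f f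
  have hC : C.PosSemidef := hB.submatrix f
  have hCd : ∀ i, C i i = 1 := fun i => hBd _
  have hmin : ∑ i, F (row C i) ≤ 2 * Real.log C.permanent.re := by
    by_contra hcon
    push Not at hcon
    exact hmin' _ hcard ⟨C, hC, hCd, hcon⟩
  have hCS : C.permanent.re = S B V := by
    unfold S
    have h1 : C = (B.submatrix (fun i : V => (i : Fin m)) (fun i : V => (i : Fin m))).submatrix e e :=
      rfl
    rw [h1, CholB.permanent_reindex]
  have hCF : ∀ a, F (row C a) = F (rest (row B (f a)) U) := by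
    intro a
    have h1 : row C a = fun c => rest (row B (f a)) U (f c) := by
      funext c
      have h2 : f c ∉ U := Finset.mem_compl.mp (hfV c)
      show ‖B (f a) (f c)‖ ^ 2 = rest (row B (f a)) U (f c)
      unfold rest
      rw [if_neg h2]
      rfl
    rw [h1]
    refine F_emb f _ fun j hj => ?_
    have h3 : j ∈ U := by
      have := hrange j hj
      rw [hV, Finset.mem_compl, not_not] at this
      exact this
    unfold rest
    rw [if_pos h3]
  have hsumV : ∑ a, F (row C a) = ∑ k ∈ V, F (rest (row B k) U) := by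
    rw [Finset.sum_congr rfl fun a _ => hCF a]
    have h1 : ∑ a, F (rest (row B (f a)) U) = ∑ x : V, F (rest (row B (x : Fin m)) U) :=
      Fintype.sum_equiv e _ _ fun a => rfl
    rw [h1, Finset.sum_coe_sort V (fun k => F (rest (row B k) U))]
  -- Lieb
  have hdisj : Disjoint U V := by rw [hV]; exact disjoint_compl_right
  have hL := CholB.lieb2 B hB hBd U V hdisj
  have hSU := one_le_S B hB hBd U
  have hSV := one_le_S B hB hBd V
  have hlog : Real.log (S B U) + Real.log (S B V) ≤ Real.log B.permanent.re := by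
    rw [← Real.log_mul (by linarith) (by linarith)]
    exact Real.log_le_log (mul_pos (by linarith) (by linarith)) hL
  -- loss
  have hloss : ∀ k ∈ V, F (row B k) ≤ F (rest (row B k) U) + ∑ i ∈ U, omg (row B k i) := by
    intro k hk
    refine F_rest_le' (row B k) (row_nonneg B k) (row_le_one B hB hBd k) k (row_diag B hBd k) U ?_
    rw [hV, Finset.mem_compl] at hk
    exact hk
  have hsplit : ∑ i, F (row B i) = ∑ i ∈ U, F (row B i) + ∑ k ∈ V, F (row B k) := by
    rw [hV]; exact (Finset.sum_add_sum_compl U _).symm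
  have h5 := Finset.sum_le_sum hloss
  rw [Finset.sum_add_distrib] at h5
  have h6 : ∑ k ∈ V, ∑ i ∈ U, omg (row B k i) = ∑ i ∈ U, ∑ k ∈ V, omg (row B i k) := by
    rw [Finset.sum_comm]
    refine Finset.sum_congr rfl fun i _ => Finset.sum_congr rfl fun k _ => ?_
    rw [row_symm B hB]
  rw [Finset.sum_add_distrib]
  rw [h6] at h5
  rw [hCS, hsumV] at hmin
  linarith

/-- The permanent of `A ∘ Aᵀ` is the permanent of the matrix of squared moduli. -/
lemma hadamard_re {n : ℕ} (A : Matrix (Fin n) (Fin n) ℂ) (hA : A.PosSemidef) :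
    (A ⊙ Aᵀ).permanent.re = (Matrix.of fun i j => row A i j : Matrix (Fin n) (Fin n) ℝ).permanent := by
  rw [permanent_hadamard_transpose hA.1]
  unfold permanent
  refine Finset.sum_congr rfl fun σ _ => ?_
  rw [← Finset.prod_pow]
  rfl

/-- Chollet's inequality for correlation matrices, from the row inequality. -/
theorem conj_of_row {n : ℕ} (A : Matrix (Fin n) (Fin n) ℂ) (hA : A.PosSemidef)
    (hd : ∀ i, A i i = 1) (h : ∑ i, F (row A i) ≤ 2 * Real.log A.permanent.re) :
    (A ⊙ Aᵀ).permanent.re ≤ A.permanent.re ^ 2 := by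
  have h1 : 1 ≤ A.permanent.re := CholB.one_le_permanent A hA hd
  rw [hadamard_re A hA]
  set M : Matrix (Fin n) (Fin n) ℝ := Matrix.of fun i j => row A i j with hM
  have hpos := permanent_pos_of_diag M (fun i j => row_nonneg A i j) (fun i => row_diag A hd i)
  have h2 := log_permanent_le_F M (fun i j => row_nonneg A i j) (fun i j => row_symm A hA i j)
    (fun i => row_diag A hd i)
  have h3 : Real.log M.permanent ≤ Real.log (A.permanent.re ^ 2) := by
    rw [Real.log_pow]
    push_cast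
    exact h2.trans h
  exact (Real.log_le_log_iff hpos (by positivity)).mp h3

/-- general matrices -/
theorem conj_general (H : ∀ (n : ℕ) (A : Matrix (Fin n) (Fin n) ℂ), A.PosSemidef →
    (∀ i, A i i = 1) → (A ⊙ Aᵀ).permanent.re ≤ A.permanent.re ^ 2)
    (n : ℕ) (A : Matrix (Fin n) (Fin n) ℂ) (hA : A.PosSemidef) :
    (A ⊙ Aᵀ).permanent.re ≤ A.permanent.re ^ 2 := by
  by_cases hz : ∃ k, A k k = 0
  · obtain ⟨k, hk⟩ := hz
    have hcol := col_eq_zero hA k hk
    have : (A ⊙ Aᵀ).permanent = 0 := by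
      unfold permanent
      refine Finset.sum_eq_zero fun σ _ => Finset.prod_eq_zero (Finset.mem_univ k) ?_
      rw [hadamard_apply, hcol, zero_mul]
    rw [this]
    simp only [Complex.zero_re]
    positivity
  · push Not at hz
    have hre : ∀ i, A i i = ((A i i).re : ℂ) := fun i => by
      have := hA.1.apply i i
      rw [Complex.star_def] at this
      exact (Complex.conj_eq_iff_re.mp this).symm
    have hpos : ∀ i, 0 < (A i i).re := by
      intro i
      have h1 : 0 ≤ A i i := hA.diag_nonneg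
      have h2 : 0 ≤ (A i i).re := (Complex.le_def.mp h1).1
      refine lt_of_le_of_ne h2 fun h3 => hz i ?_
      rw [hre i, ← h3]
      simp
    set s : Fin n → ℝ := fun i => Real.sqrt (A i i).re with hs
    have hs0 : ∀ i, 0 < s i := fun i => Real.sqrt_pos.mpr (hpos i)
    have hss : ∀ i, s i * s i = (A i i).re := fun i => Real.mul_self_sqrt (hpos i).le
    set D : Matrix (Fin n) (Fin n) ℂ := Matrix.diagonal fun i => ((s i)⁻¹ : ℂ) with hD
    set B : Matrix (Fin n) (Fin n) ℂ := Dᴴ * A * D with hB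
    have hBij : ∀ i j, B i j = (s i : ℂ)⁻¹ * A i j * (s j : ℂ)⁻¹ := by
      intro i j
      rw [hB, hD, diagonal_conjTranspose, mul_diagonal, diagonal_mul]
      simp
    have hBp : B.PosSemidef := hA.conjTranspose_mul_mul_same D
    have hBd : ∀ i, B i i = 1 := by
      intro i
      rw [hBij, hre i, ← hss i]
      have := (hs0 i).ne'
      push_cast
      field_simp
    have hAB : ∀ i j, A i j = (s i : ℂ) * B i j * (s j : ℂ) := by
      intro i j
      rw [hBij]
      have h1 : (s i : ℂ) ≠ 0 := by exact_mod_cast (hs0 i).ne'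
      have h2 : (s j : ℂ) ≠ 0 := by exact_mod_cast (hs0 j).ne'
      field_simp
    set Q : ℝ := ∏ i, s i with hQ
    have hperm : ∀ (σ : Equiv.Perm (Fin n)) (g : Fin n → ℂ),
        ∏ i, ((s (σ i) : ℂ) * g i * (s i : ℂ)) = (Q : ℂ) ^ 2 * ∏ i, g i := by
      intro σ g
      rw [Finset.prod_mul_distrib, Finset.prod_mul_distrib,
        Equiv.prod_comp σ (fun i => (s i : ℂ)), hQ]
      push_cast
      ring
    have h1 : A.permanent = (Q : ℂ) ^ 2 * B.permanent := by
      unfold permanent
      rw [Finset.mul_sum]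
      refine Finset.sum_congr rfl fun σ _ => ?_
      rw [← hperm σ]
      exact Finset.prod_congr rfl fun i _ => hAB _ _
    have h2 : (A ⊙ Aᵀ).permanent = (Q : ℂ) ^ 4 * (B ⊙ Bᵀ).permanent := by
      unfold permanent
      rw [Finset.mul_sum]
      refine Finset.sum_congr rfl fun σ _ => ?_
      have e1 : ∏ i, (A ⊙ Aᵀ) (σ i) i
          = ∏ i, ((s (σ i) : ℂ) * ((s (σ i) : ℂ) * (B ⊙ Bᵀ) (σ i) i * (s i : ℂ)) * (s i : ℂ)) := by
        refine Finset.prod_congr rfl fun i _ => ?_
        rw [hadamard_apply, hadamard_apply, transpose_apply, transpose_apply, hAB (σ i) i, hAB i (σ i)]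
        ring
      rw [e1, hperm, hperm]
      ring
    have h3 := H n B hBp hBd
    have e1 : A.permanent.re = Q ^ 2 * B.permanent.re := by
      rw [h1, ← Complex.ofReal_pow, Complex.re_ofReal_mul]
    have e2 : (A ⊙ Aᵀ).permanent.re = Q ^ 4 * (B ⊙ Bᵀ).permanent.re := by
      rw [h2, ← Complex.ofReal_pow, Complex.re_ofReal_mul]
    rw [e1, e2]
    calc Q ^ 4 * (B ⊙ Bᵀ).permanent.re ≤ Q ^ 4 * B.permanent.re ^ 2 :=
          mul_le_mul_of_nonneg_left h3 (by positivity)
      _ = (Q ^ 2 * B.permanent.re) ^ 2 := by ring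

/-- THE REDUCTION: Chollet's conjecture follows if there is no minimal counterexample. -/
theorem chollet_of_no_CE (H : ∀ (n : ℕ) (A : Matrix (Fin n) (Fin n) ℂ), ¬ CE A)
    (n : ℕ) (A B : Matrix (Fin n) (Fin n) ℂ) (hA : A.PosSemidef) (hB : B.PosSemidef) :
    (A ⊙ B).permanent ≤ A.permanent * B.permanent := by
  have h1 : ∀ (n : ℕ) (A : Matrix (Fin n) (Fin n) ℂ), A.PosSemidef → (∀ i, A i i = 1) →
      (A ⊙ Aᵀ).permanent.re ≤ A.permanent.re ^ 2 := by
    intro n A hA hd
    refine conj_of_row A hA hd ?_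
    by_contra hcon
    push Not at hcon
    obtain ⟨m, B, hB⟩ := exists_CE n A hA hd hcon
    exact H m B hB
  have h2 := chollet_reduction 1 zero_le_one (fun A hA => by
    rw [one_mul]; exact conj_general h1 n A hA) A B hA hB
  simpa using h2

/-- Theorem S in a minimal counterexample. -/
theorem CE.thmS {n : ℕ} {A : Matrix (Fin n) (Fin n) ℂ} (h : CE A) (θ τ : Fin n → ℝ)
    (hθ : ∀ i, 0 < θ i ∧ θ i ≤ 1) (hτ : ∀ i, 0 ≤ τ i ∧ τ i ≤ 1) :
    0 < ∑ i, (F (row A i) - 2 * CholB.Wrow (θ i) (τ i) (∑ j, row A i j * (θ j / 2))) := by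
  have h1 := CholB.specSB n A θ τ h.psd h.diag hθ hτ
  have h2 := h.lt
  rw [Finset.sum_sub_distrib, ← Finset.mul_sum]
  have h3 : ∑ i, CholB.Wrow (θ i) (τ i) (∑ j, row A i j * (θ j / 2))
      = ∑ i, CholB.Wrow (θ i) (τ i) (∑ j, ‖A i j‖ ^ 2 * (θ j / 2)) := rfl
  rw [h3]
  linarith

end Fr
end Pool.Agent.Lib.MP_6947cd_al
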