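import Pool.Agent.Lib.MP_6947cd_al.T.Slope

/-!
Problem MP_6947cd_al (Chollet).  Comparison of the row functions of two rows, one below the other.
-/

set_option autoImplicit false
open scoped Matrix
open Matrix Finset

namespace Pool.Agent.Lib.MP_6947cd_al
namespace Ent

variable {κ : Type} [Fintype κ] [DecidableEq κ]

/-- decreasing one entry to a positive value -/
theorem F_update_sub_aux (b : κ → ℝ) (hb0 : ∀ j, 0 ≤ b j) (hb1 : ∀ j, b j ≤ 1) (i c : κ)
    (hic : i ≠ c) (hi : b i = 1) (α β y0 : ℝ) (hα : 0 ≤ α) (hβ : 0 ≤ β)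
    (hy : (∑ j ∈ Finset.univ.erase i, b j) ^ 2 ≤ y0) (H : SlopeHyp α β y0)
    (s : ℝ) (hs0 : 0 < s) (hs : s < b c) :
    F b ≤ F (Function.update b c s) + (α * (b c - s) + β * ((b c) ^ 2 - s ^ 2)) := by
  have hc : 0 < b c := hs0.trans hs
  set q : ℝ := s / b c with hq
  have hq0 : 0 < q := div_pos hs0 hc
  have hq1 : q < 1 := (div_lt_one hc).mpr hs
  have hbq : b c * q = s := by rw [hq]; field_simp
  have hm : ∀ m : ℕ, F b ≤ F (Function.update b c s) +
      (α * (b c - s) / q ^ (1 / ((m : ℝ) + 1)) + 2 * β * ((b c) ^ 2 - s ^ 2)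
        / (q ^ (1 / ((m : ℝ) + 1)) * (1 + q ^ (1 / ((m : ℝ) + 1))))) := by
    intro m
    set t : ℝ := q ^ (1 / ((m : ℝ) + 1)) with ht
    have hm0 : (0 : ℝ) < (m : ℝ) + 1 := by positivity
    have ht0 : 0 < t := Real.rpow_pos_of_pos hq0 _
    have ht1 : t < 1 := Real.rpow_lt_one hq0.le hq1 (by positivity)
    have htm : t ^ (m + 1) = q := by
      rw [ht, ← Real.rpow_natCast, ← Real.rpow_mul hq0.le]
      push_cast
      rw [one_div, inv_mul_cancel₀ hm0.ne', Real.rpow_one]
    have h1 := path_geom b hb0 hb1 i c hic hi α β y0 hα hβ hy H t ht0 ht1 hc (m + 1)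
    rw [Function.update_eq_self, ← pow_mul, mul_comm 2 (m + 1), pow_mul, htm, hbq] at h1
    have hL : -Real.log t ≤ (1 - t) / t := by
      have := Real.one_sub_inv_le_log_of_pos ht0
      have h3 : (1 - t) / t = t⁻¹ - 1 := by field_simp
      rw [h3]
      linarith
    have h3 : 0 < 1 - t := sub_pos.mpr ht1
    have h4 : 0 < 1 - t ^ 2 := by nlinarith
    have h5 : 0 ≤ α * b c * (1 - q) / (1 - t) + 2 * β * (b c) ^ 2 * (1 - q ^ 2) / (1 - t ^ 2) := by
      have e1 : 0 ≤ 1 - q := by linarith
      have e2 : 0 ≤ 1 - q ^ 2 := by nlinarith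
      positivity
    have h6 : (α * b c * (1 - q) / (1 - t) + 2 * β * (b c) ^ 2 * (1 - q ^ 2) / (1 - t ^ 2))
        * ((1 - t) / t) = α * (b c - s) / t + 2 * β * ((b c) ^ 2 - s ^ 2) / (t * (1 + t)) := by
      rw [← hbq]
      have e : 1 - t ^ 2 = (1 - t) * (1 + t) := by ring
      rw [e]
      have : 1 + t ≠ 0 := by linarith
      field_simp
    have h7 := mul_le_mul_of_nonneg_left hL h5
    rw [h6] at h7
    linarith
  have hlim : Filter.Tendsto (fun m : ℕ => q ^ (1 / ((m : ℝ) + 1))) Filter.atTop (nhds 1) := by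
    have h1 : Filter.Tendsto (fun m : ℕ => 1 / ((m : ℝ) + 1)) Filter.atTop (nhds 0) :=
      tendsto_one_div_add_atTop_nhds_zero_nat
    have h2 := (Real.continuousAt_const_rpow (a := q) (b := 0) hq0.ne').tendsto.comp h1
    rw [Real.rpow_zero] at h2
    exact h2
  have hlim2 : Filter.Tendsto (fun m : ℕ => F (Function.update b c s) +
      (α * (b c - s) / q ^ (1 / ((m : ℝ) + 1)) + 2 * β * ((b c) ^ 2 - s ^ 2)
        / (q ^ (1 / ((m : ℝ) + 1)) * (1 + q ^ (1 / ((m : ℝ) + 1)))))) Filter.atTop
      (nhds (F (Function.update b c s) + (α * (b c - s) / 1 + 2 * β * ((b c) ^ 2 - s ^ 2)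
        / (1 * (1 + 1))))) := by
    refine tendsto_const_nhds.add (Filter.Tendsto.add ?_ ?_)
    · exact tendsto_const_nhds.div hlim one_ne_zero
    · exact tendsto_const_nhds.div (hlim.mul (tendsto_const_nhds.add hlim)) (by norm_num)
  have hfin := ge_of_tendsto' hlim2 hm
  refine hfin.trans (le_of_eq ?_)
  ring

/-- decreasing one entry -/
theorem F_update_sub (b : κ → ℝ) (hb0 : ∀ j, 0 ≤ b j) (hb1 : ∀ j, b j ≤ 1) (i c : κ)
    (hic : i ≠ c) (hi : b i = 1) (s : ℝ) (hs0 : 0 ≤ s) (hs : s ≤ b c) :
    F b ≤ F (Function.update b c s)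
      + (43 / 200 * (b c - s) + 39 / 200 * ((b c) ^ 2 - s ^ 2)) := by
  rcases eq_or_lt_of_le hs with h | h
  · rw [h, Function.update_eq_self]
    simp
  rcases eq_or_lt_of_le hs0 with h0 | h0
  · have := F_update_le b hb0 hb1 i c hic hi (43 / 200) (39 / 200) _ (by norm_num) (by norm_num)
      le_rfl (slopeHyp _)
    rw [← h0]
    simpa using this
  · exact F_update_sub_aux b hb0 hb1 i c hic hi _ _ _ (by norm_num) (by norm_num) le_rfl
      (slopeHyp _) s h0 h

/-- the row `b` with the entries of `U` replaced by those of `b'` -/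
def mix (b b' : κ → ℝ) (U : Finset κ) : κ → ℝ := fun j => if j ∈ U then b' j else b j

/-- Comparison of two rows. -/
theorem F_sub_le (b b' : κ → ℝ) (hb'0 : ∀ j, 0 ≤ b' j) (hb' : ∀ j, b' j ≤ b j)
    (hb1 : ∀ j, b j ≤ 1) (i : κ) (hi' : b' i = 1) :
    F b ≤ F b' + ∑ k, ((43 / 200 * b k + 39 / 200 * (b k) ^ 2)
      - (43 / 200 * b' k + 39 / 200 * (b' k) ^ 2)) := by
  have hi : b i = 1 := le_antisymm (hb1 i) (by rw [← hi']; exact hb' i)
  have hb0 : ∀ j, 0 ≤ b j := fun j => (hb'0 j).trans (hb' j)
  have hmain : ∀ U : Finset κ, F b ≤ F (mix b b' U) + ∑ k ∈ U, ((43 / 200 * b k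
      + 39 / 200 * (b k) ^ 2) - (43 / 200 * b' k + 39 / 200 * (b' k) ^ 2)) := by
    intro U
    induction U using Finset.induction_on with
    | empty =>
      have : mix b b' ∅ = b := by funext j; simp [mix]
      rw [this]; simp
    | insert c U hc ih =>
      rw [Finset.sum_insert hc]
      by_cases hic : i = c
      · subst hic
        have e : mix b b' (insert i U) = mix b b' U := by
          funext j
          unfold mix
          by_cases hj : j = i
          · subst hj
            rw [if_pos (Finset.mem_insert_self _ _), if_neg hc, hi', hi]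
          · simp [hj]
        rw [e, hi', hi]
        linarith
      · have hmc : mix b b' U c = b c := by unfold mix; rw [if_neg hc]
        have h1 := F_update_sub (mix b b' U) (fun j => by unfold mix; split_ifs; exacts [hb'0 j, hb0 j])
          (fun j => by
            unfold mix
            split_ifs
            · exact (hb' j).trans (hb1 j)
            · exact hb1 j) i c hic (by unfold mix; split_ifs; exacts [hi', hi]) (b' c) (hb'0 c)
          (by rw [hmc]; exact hb' c)
        have e : Function.update (mix b b' U) c (b' c) = mix b b' (insert c U) := by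
          funext j
          by_cases hj : j = c
          · subst hj
            rw [Function.update_self]
            unfold mix
            rw [if_pos (Finset.mem_insert_self _ _)]
          · rw [Function.update_of_ne hj]
            unfold mix
            simp [hj]
        rw [e, hmc] at h1
        linarith
  have h := hmain Finset.univ
  have e : mix b b' Finset.univ = b' := by funext j; simp [mix]
  rwa [e] at h

end Ent
end Pool.Agent.Lib.MP_6947cd_al
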