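import Pool.Agent.Lib.MP_6947cd_al.T.Frame2
import Pool.Agent.Lib.MP_6947cd_al.T.Path

/-!
Problem MP_6947cd_al (Chollet).  The frame with the full minimality: the row inequality holds for all
smaller correlation matrices, over an arbitrary index type.
-/

set_option autoImplicit false
open scoped Matrix ComplexOrder
open Matrix Finset

namespace Pool.Agent.Lib.MP_6947cd_al
namespace Fr

open Ent

/-- the squared moduli of a row, arbitrary index type -/
noncomputable def rowT {κ : Type} (C : Matrix κ κ ℂ) (i : κ) : κ → ℝ := fun j => ‖C i j‖ ^ 2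

/-- the row inequality -/
def Star (κ : Type) [Fintype κ] [DecidableEq κ] (C : Matrix κ κ ℂ) : Prop :=
  ∑ i, F (rowT C i) ≤ 2 * Real.log C.permanent.re

/-- a minimal counterexample, with the minimality over all smaller matrices -/
structure CE3 {n : ℕ} (A : Matrix (Fin n) (Fin n) ℂ) : Prop extends CE2 A where
  all : ∀ (κ : Type) [Fintype κ] [DecidableEq κ] (C : Matrix κ κ ℂ), Fintype.card κ < n →
    C.PosSemidef → (∀ i, C i i = 1) → Star κ C

theorem exists_CE3 (n : ℕ) (A : Matrix (Fin n) (Fin n) ℂ) (hA : A.PosSemidef) (hd : ∀ i, A i i = 1)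
    (hlt : 2 * Real.log A.permanent.re < ∑ i, F (row A i)) :
    ∃ (m : ℕ) (B : Matrix (Fin m) (Fin m) ℂ), CE3 B := by
  classical
  let P : ℕ → Prop := fun m => ∃ B : Matrix (Fin m) (Fin m) ℂ, B.PosSemidef ∧ (∀ i, B i i = 1) ∧
    2 * Real.log B.permanent.re < ∑ i, F (row B i)
  have hP : ∃ m, P m := ⟨n, A, hA, hd, hlt⟩
  obtain ⟨m, hPm, hmin'⟩ : ∃ m, P m ∧ ∀ k < m, ¬ P k :=
    ⟨Nat.find hP, Nat.find_spec hP, fun k hk => Nat.find_min hP hk⟩
  obtain ⟨B, hB, hBd, hBlt⟩ := hPm
  have hall : ∀ (κ : Type) [Fintype κ] [DecidableEq κ] (C : Matrix κ κ ℂ), Fintype.card κ < m →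
      C.PosSemidef → (∀ i, C i i = 1) → Star κ C := by
    intro κ _ _ C hcard hC hCd
    let e : Fin (Fintype.card κ) ≃ κ := (Fintype.equivFin κ).symm
    let D : Matrix (Fin (Fintype.card κ)) (Fin (Fintype.card κ)) ℂ := C.submatrix e e
    have hD : ∑ i, F (row D i) ≤ 2 * Real.log D.permanent.re := by
      by_contra hcon
      push Not at hcon
      exact hmin' _ hcard ⟨D, hC.submatrix e, fun i => hCd _, hcon⟩
    unfold Star
    have h1 : D.permanent = C.permanent := CholB.permanent_reindex e C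
    rw [h1] at hD
    have h2 : ∑ i, F (row D i) = ∑ i, F (rowT C i) := by
      refine Fintype.sum_equiv e _ _ fun a => ?_
      exact F_emb e.toEmbedding (rowT C (e a)) fun j hj => absurd ⟨e.symm j, by simp⟩ hj
    rw [h2] at hD
    exact hD
  have hmin : ∀ U : Finset (Fin m), U.Nonempty →
      ∑ k ∈ Uᶜ, F (rest (row B k) U) ≤ 2 * Real.log (S B Uᶜ) := by
    intro U hU
    have hcard : Fintype.card ↥(Uᶜ) < m := by
      have h1 : U.card + (Uᶜ).card = m := by
        rw [Finset.card_add_card_compl, Fintype.card_fin]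
      have h2 : 0 < U.card := Finset.card_pos.mpr hU
      rw [Fintype.card_coe]
      omega
    have h := hall ↥(Uᶜ) (B.submatrix (fun i : ↥(Uᶜ) => (i : Fin m)) (fun i : ↥(Uᶜ) => (i : Fin m)))
      hcard (hB.submatrix _) (fun i => hBd _)
    unfold Star at h
    refine le_trans (le_of_eq ?_) h
    rw [← Finset.sum_coe_sort Uᶜ (fun k => F (rest (row B k) U))]
    refine Finset.sum_congr rfl fun a _ => ?_
    have h1 : rowT (B.submatrix (fun i : ↥(Uᶜ) => (i : Fin m)) (fun i : ↥(Uᶜ) => (i : Fin m))) a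
        = fun c => rest (row B (a : Fin m)) U ((⟨fun x : ↥(Uᶜ) => (x : Fin m),
          Subtype.val_injective⟩ : ↥(Uᶜ) ↪ Fin m) c) := by
      funext c
      have h2 : (c : Fin m) ∉ U := Finset.mem_compl.mp c.2
      show ‖B (a : Fin m) (c : Fin m)‖ ^ 2 = rest (row B (a : Fin m)) U (c : Fin m)
      unfold rest
      rw [if_neg h2]
      rfl
    rw [h1]
    refine (F_emb _ _ fun j hj => ?_).symm
    have h3 : j ∈ U := by
      by_contra hcon
      exact hj ⟨⟨j, Finset.mem_compl.mpr hcon⟩, rfl⟩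
    unfold rest
    rw [if_pos h3]
  refine ⟨m, B, ⟨⟨⟨hB, hBd, hBlt, fun U hU => nr_of_min B hB hBd hBlt U (hmin U hU)⟩, hmin, ?_⟩,
    hall⟩⟩
  intro i j hij
  exact n1_of_min B hB hBd hBlt i j hij (hmin {i} (Finset.singleton_nonempty i))
    (hmin {i, j} (Finset.insert_nonempty i {j}))

/-- THE REDUCTION: Chollet's conjecture follows if there is no minimal counterexample. -/
theorem chollet_of_no_CE3 (H : ∀ (n : ℕ) (A : Matrix (Fin n) (Fin n) ℂ), ¬ CE3 A)
    (n : ℕ) (A B : Matrix (Fin n) (Fin n) ℂ) (hA : A.PosSemidef) (hB : B.PosSemidef) :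
    (A ⊙ B).permanent ≤ A.permanent * B.permanent := by
  have h1 : ∀ (n : ℕ) (A : Matrix (Fin n) (Fin n) ℂ), A.PosSemidef → (∀ i, A i i = 1) →
      (A ⊙ Aᵀ).permanent.re ≤ A.permanent.re ^ 2 := by
    intro n A hA hd
    refine conj_of_row A hA hd ?_
    by_contra hcon
    push Not at hcon
    obtain ⟨m, B, hB⟩ := exists_CE3 n A hA hd hcon
    exact H m B hB
  have h2 := chollet_reduction 1 zero_le_one (fun A hA => by
    rw [one_mul]; exact conj_general h1 n A hA) A B hA hB
  simpa using h2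

end Fr
end Pool.Agent.Lib.MP_6947cd_al
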