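import Pool.Agent.Lib.MP_6947cd_al.T.Frame4

/-!
Problem MP_6947cd_al (Chollet).  The inequalities `NR_U` and `NR3` (merging) of a minimal counterexample with
general losses of the other rows.
-/

set_option autoImplicit false
open scoped Matrix ComplexOrder
open Matrix Finset

namespace Pool.Agent.Lib.MP_6947cd_al
namespace Fr

open Ent

namespace CEG

variable {Γ : RF} {n : ℕ} {A : Matrix (Fin n) (Fin n) ℂ}

/-- `NR_U` with general losses of the rows outside `U` -/
theorem nr_gen (h : CEG Γ A) (U : Finset (Fin n)) (hU : U.Nonempty) (Lo : Fin n → ℝ)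
    (hLo : ∀ k, k ∉ U → Γ.G (Fin n) (row A k) ≤ Γ.G (Fin n) (rest (row A k) U) + Lo k) :
    2 * Real.log (S A U) < ∑ i ∈ U, Γ.G (Fin n) (row A i) + ∑ k ∈ Uᶜ, Lo k := by
  have hmin := h.min U hU
  have hdisj : Disjoint U Uᶜ := disjoint_compl_right
  have hL := CholB.lieb2 A h.psd h.diag U Uᶜ hdisj
  have hSU := one_le_S A h.psd h.diag U
  have hSV := one_le_S A h.psd h.diag Uᶜ
  have hlog : Real.log (S A U) + Real.log (S A Uᶜ) ≤ Real.log A.permanent.re := by
    rw [← Real.log_mul (by linarith) (by linarith)]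
    exact Real.log_le_log (mul_pos (by linarith) (by linarith)) hL
  have h5 := Finset.sum_le_sum (fun k hk => hLo k (Finset.mem_compl.mp hk) :
    ∀ k ∈ Uᶜ, Γ.G (Fin n) (row A k) ≤ Γ.G (Fin n) (rest (row A k) U) + Lo k)
  have hsplit : ∑ i, Γ.G (Fin n) (row A i)
      = ∑ i ∈ U, Γ.G (Fin n) (row A i) + ∑ k ∈ Uᶜ, Γ.G (Fin n) (row A k) :=
    (Finset.sum_add_sum_compl U _).symm
  rw [Finset.sum_add_distrib] at h5
  have hlt := h.lt
  linarith

/-- the two vertex inequality with general losses of the other rows -/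
theorem n1_gen (h : CEG Γ A) (i j : Fin n) (hij : i ≠ j) (L1 L2 : Fin n → ℝ)
    (hL1 : ∀ k, k ≠ i → k ≠ j → Γ.G (Fin n) (row A k) ≤ Γ.G (Fin n) (rest (row A k) {i}) + L1 k)
    (hL2 : ∀ k, k ≠ i → k ≠ j →
      Γ.G (Fin n) (row A k) ≤ Γ.G (Fin n) (rest (row A k) {i, j}) + L2 k) :
    (1 - row A i j) * Real.exp (-((Γ.G (Fin n) (row A i)
        + (Γ.G (Fin n) (row A j) - Γ.G (Fin n) (rest (row A j) {i}))
        + ∑ k ∈ {i, j}ᶜ, L1 k) / 2))
      + 2 * row A i j * Real.exp (-((Γ.G (Fin n) (row A i) + Γ.G (Fin n) (row A j)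
        + ∑ k ∈ {i, j}ᶜ, L2 k) / 2)) < 1 := by
  classical
  have hA := h.psd
  have hd := h.diag
  have hlt := h.lt
  have hmin1 := h.min {i} (Finset.singleton_nonempty i)
  have hmin2 := h.min {i, j} (Finset.insert_nonempty i {j})
  set tot : ℝ := ∑ k, Γ.G (Fin n) (row A k) with htot
  have hP1 : 1 ≤ A.permanent.re := CholB.one_le_permanent A hA hd
  have hP : A.permanent.re < Real.exp (tot / 2) := by
    rw [← Real.log_lt_iff_lt_exp (by linarith)]; linarith
  have hS1 := one_le_S A hA hd {i}ᶜ
  have hS2 := one_le_S A hA hd {i, j}ᶜ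
  -- the two smaller sets
  have hic : ({i}ᶜ : Finset (Fin n)) = insert j ({i, j}ᶜ) := by
    ext x
    simp only [Finset.mem_compl, Finset.mem_singleton, Finset.mem_insert, not_or]
    constructor
    · intro hx
      by_cases h : x = j
      · exact Or.inl h
      · exact Or.inr ⟨hx, h⟩
    · rintro (h | h)
      · rw [h]; exact hij.symm
      · exact h.1
  have hjn : j ∉ ({i, j}ᶜ : Finset (Fin n)) := by simp
  have hsum : tot = Γ.G (Fin n) (row A i) + (Γ.G (Fin n) (row A j)
      + ∑ k ∈ {i, j}ᶜ, Γ.G (Fin n) (row A k)) := by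
    rw [htot, ← Finset.sum_add_sum_compl {i}, Finset.sum_singleton, hic, Finset.sum_insert hjn]
  have h1 : tot - (Γ.G (Fin n) (row A i) + (Γ.G (Fin n) (row A j)
      - Γ.G (Fin n) (rest (row A j) {i})) + ∑ k ∈ {i, j}ᶜ, L1 k)
      ≤ 2 * Real.log (S A {i}ᶜ) := by
    refine le_trans ?_ hmin1
    rw [hic, Finset.sum_insert hjn, hsum]
    have h3 : ∑ k ∈ {i, j}ᶜ, Γ.G (Fin n) (row A k)
        ≤ ∑ k ∈ {i, j}ᶜ, (Γ.G (Fin n) (rest (row A k) {i}) + L1 k) := by
      refine Finset.sum_le_sum fun k hk => ?_
      simp only [Finset.mem_compl, Finset.mem_insert, Finset.mem_singleton, not_or] at hk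
      exact hL1 k hk.1 hk.2
    rw [Finset.sum_add_distrib] at h3
    linarith
  have h2 : tot - (Γ.G (Fin n) (row A i) + Γ.G (Fin n) (row A j)
      + ∑ k ∈ {i, j}ᶜ, L2 k) ≤ 2 * Real.log (S A {i, j}ᶜ) := by
    refine le_trans ?_ hmin2
    rw [hsum]
    have h3 : ∑ k ∈ {i, j}ᶜ, Γ.G (Fin n) (row A k) ≤ ∑ k ∈ {i, j}ᶜ,
        (Γ.G (Fin n) (rest (row A k) {i, j}) + L2 k) := by
      refine Finset.sum_le_sum fun k hk => ?_
      simp only [Finset.mem_compl, Finset.mem_insert, Finset.mem_singleton, not_or] at hk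
      exact hL2 k hk.1 hk.2
    rw [Finset.sum_add_distrib] at h3
    linarith
  set a := (Γ.G (Fin n) (row A i) + (Γ.G (Fin n) (row A j)
    - Γ.G (Fin n) (rest (row A j) {i})) + ∑ k ∈ {i, j}ᶜ, L1 k)
  set b := (Γ.G (Fin n) (row A i) + Γ.G (Fin n) (row A j)
    + ∑ k ∈ {i, j}ᶜ, L2 k)
  have h1' : Real.exp (tot / 2) * Real.exp (-(a / 2)) ≤ S A {i}ᶜ := by
    rw [← Real.exp_add, ← Real.le_log_iff_exp_le (by linarith)]
    linarith
  have h2' : Real.exp (tot / 2) * Real.exp (-(b / 2)) ≤ S A {i, j}ᶜ := by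
    rw [← Real.exp_add, ← Real.le_log_iff_exp_le (by linarith)]
    linarith
  have hr0 := row_nonneg A i j
  have hr1 := row_le_one A hA hd i j
  have h3 := two_vertex A hA hd i j hij
  have hE := Real.exp_pos (tot / 2)
  have h4 : Real.exp (tot / 2) * ((1 - row A i j) * Real.exp (-(a / 2))
      + 2 * row A i j * Real.exp (-(b / 2))) < Real.exp (tot / 2) * 1 := by
    have h5 := mul_le_mul_of_nonneg_left h1' (sub_nonneg.mpr hr1)
    have h6 := mul_le_mul_of_nonneg_left h2' (mul_nonneg zero_le_two hr0)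
    calc _ = (1 - row A i j) * (Real.exp (tot / 2) * Real.exp (-(a / 2)))
          + 2 * row A i j * (Real.exp (tot / 2) * Real.exp (-(b / 2))) := by ring
      _ ≤ (1 - row A i j) * S A ({i}ᶜ) + 2 * row A i j * S A ({i, j}ᶜ) := add_le_add h5 h6
      _ ≤ A.permanent.re := h3
      _ < Real.exp (tot / 2) := hP
      _ = _ := (mul_one _).symm
  exact lt_of_mul_lt_mul_left h4 hE.le

/-- THE MERGING INEQUALITY of a minimal counterexample, with general losses of the other rows. -/
theorem nr3g (h : CEG Γ A) (i j : Fin n) (hij : i ≠ j) (α β : ℝ)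
    (h1 : α ^ 2 + β ^ 2 = 1 / (1 + row A i j)) (h2 : α * β = ‖A i j‖ / (2 * (1 + row A i j)))
    (Lo : Fin n → ℝ → ℝ)
    (hLo : ∀ k, k ≠ i → k ≠ j → ∀ p q : Fin n, ({p, q} : Finset (Fin n)) = {i, j} → p ≠ q →
      row A k q ≤ row A k p → ∀ w : ℝ, 0 ≤ w → w ≤ row A k p →
      Γ.G (Fin n) (row A k)
        ≤ Γ.G (Fin n) (fun l => if l = p then w else if l = q then 0 else row A k l) + Lo k w) :
    ∃ u c : Fin n → ℝ,
      (∀ k, k ≠ i → k ≠ j → 0 ≤ u k ∧ u k ≤ 1
        ∧ u k = α ^ 2 * row A i k + β ^ 2 * row A j k + 2 * (α * β) * c k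
        ∧ (c k) ^ 2 ≤ row A i k * row A j k
        ∧ row A i k + row A j k ≤ 1 - row A i j + 2 * ‖A i j‖ * c k) ∧
      2 * Real.log (1 + row A i j) + Γ.G (Fin n) (vrow i j u)
        < Γ.G (Fin n) (row A i) + Γ.G (Fin n) (row A j)
          + ∑ k ∈ {i, j}ᶜ, Lo k (Min.min (u k) (Max.max (row A i k) (row A j k))) := by
  classical
  obtain ⟨R, hR⟩ : ∃ R : Finset (Fin n), R = ({i, j} : Finset (Fin n))ᶜ := ⟨_, rfl⟩
  have hm := N3.merge_fin A h.psd h.diag i j hij α β h1 h2
  rw [← hR] at hm ⊢
  obtain ⟨C, c, hC, hCd, hCA, hCu, hc1, hc2, hper⟩ := hm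
  -- the merged row
  have hmemR : ∀ k : Fin n, k ∈ R ↔ k ≠ i ∧ k ≠ j := by
    intro k; simp [hR]
  set u : Fin n → ℝ := fun k => if hk : k ∈ R then ‖C none (some ⟨k, hk⟩)‖ ^ 2 else 0 with hu
  have huR : ∀ k : ↥R, u (k : Fin n) = ‖C none (some k)‖ ^ 2 := by
    intro k
    simp [hu]
  have hu0 : ∀ k, 0 ≤ u k := by
    intro k
    simp only [hu]
    split_ifs
    · positivity
    · exact le_rfl
  -- entries at most one
  have hrow1 : ∀ a b, rowT C a b ≤ 1 := by
    intro a b
    let e : Fin (Fintype.card (Option ↥R)) ≃ Option ↥R := (Fintype.equivFin _).symm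
    have h3 := row_le_one (C.submatrix e e) (hC.submatrix e) (fun i => hCd _) (e.symm a) (e.symm b)
    have h4 : row (C.submatrix e e) (e.symm a) (e.symm b) = rowT C a b := by
      unfold row rowT
      rw [submatrix_apply, Equiv.apply_symm_apply, Equiv.apply_symm_apply]
    rwa [h4] at h3
  have hrow0 : ∀ a b, 0 ≤ rowT C a b := fun a b => by unfold rowT; positivity
  have hu1 : ∀ k : ↥R, u (k : Fin n) ≤ 1 := fun k => by
    rw [huR]; exact hrow1 none (some k)
  have hherm : ∀ k : ↥R, rowT C (some k) none = u (k : Fin n) := by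
    intro k
    rw [huR]
    unfold rowT
    rw [← hC.1.apply (some k) none, norm_star]
  -- the size
  have hcard : Fintype.card (Option ↥R) < n := by
    rw [Fintype.card_option, Fintype.card_coe]
    have h3 : ({i, j} : Finset (Fin n)).card + R.card = n := by
      rw [hR, Finset.card_add_card_compl, Fintype.card_fin]
    rw [Finset.card_pair hij] at h3
    omega
  have hstar := h.all _ C hcard hC hCd
  unfold StarG at hstar
  rw [Fintype.sum_option] at hstar
  -- the permanent
  have hCper : 1 ≤ C.permanent.re := by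
    exact CholB.one_le_permanent C hC hCd
  have hr0 := row_nonneg A i j
  have hlog : Real.log (1 + row A i j) + Real.log C.permanent.re ≤ Real.log A.permanent.re := by
    rw [← Real.log_mul (by linarith) (by linarith)]
    exact Real.log_le_log (mul_pos (by linarith) (by linarith)) hper
  -- the rows
  let e0 : Option ↥R ↪ Fin n := ⟨fun o => Option.elim o i (fun x => (x : Fin n)), by
    intro a b hab
    rcases a with _ | ⟨a, ha⟩ <;> rcases b with _ | ⟨b, hb⟩
    · rfl
    · have h' : i = b := hab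
      exact absurd h'.symm ((hmemR b).mp hb).1
    · have h' : a = i := hab
      exact absurd h' ((hmemR a).mp ha).1
    · have h' : a = b := hab
      subst h'
      rfl⟩
  have hvrow : Γ.G _ (rowT C none) = Γ.G (Fin n) (vrow i j u) := by
    have h3 : rowT C none = fun a => vrow i j u (e0 a) := by
      funext a
      rcases a with _ | k
      · show rowT C none none = vrow i j u i
        unfold rowT vrow
        rw [hCd, if_pos rfl]
        simp
      · show rowT C none (some k) = vrow i j u (k : Fin n)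
        unfold vrow
        rw [if_neg ((hmemR k).mp k.2).1, if_neg ((hmemR k).mp k.2).2, huR]
        rfl
    rw [h3]
    refine Γ.emb _ _ e0 (vrow i j u) fun k hk => ?_
    have hkj : k = j := by
      by_contra hcon
      by_cases hki : k = i
      · exact hk ⟨none, hki.symm⟩
      · exact hk ⟨some ⟨k, (hmemR k).mpr ⟨hki, hcon⟩⟩, rfl⟩
    unfold vrow
    rw [hkj, if_neg (Ne.symm hij), if_pos rfl]
  have hrows : ∀ k : ↥R, Γ.G (Fin n) (row A (k : Fin n)) ≤ Γ.G _ (rowT C (some k))
      + Lo k (Min.min (u k) (Max.max (row A i k) (row A j k))) := by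
    intro k
    have hki := ((hmemR k).mp k.2).1
    have hkj := ((hmemR k).mp k.2).2
    set s := row A i k with hs
    set t := row A j k with ht
    have hs' : row A k i = s := row_symm A h.psd _ _
    have ht' : row A k j = t := row_symm A h.psd _ _
    have hs0 : 0 ≤ s := row_nonneg A _ _
    have ht0 : 0 ≤ t := row_nonneg A _ _
    have hs1 : s ≤ 1 := row_le_one A h.psd h.diag _ _
    have ht1 : t ≤ 1 := row_le_one A h.psd h.diag _ _
    set w := Min.min (u k) (Max.max s t) with hw
    have hw0 : 0 ≤ w := le_min (hu0 _) (le_max_of_le_left hs0)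
    have hwu : w ≤ u k := min_le_left _ _
    -- general step: `w` is put at the place `p`, the place `q` is emptied
    have step : ∀ p q : Fin n, ({p, q} : Finset (Fin n)) = {i, j} → p ≠ q →
        row A k q ≤ row A k p → w ≤ row A k p →
        Γ.G (Fin n) (row A (k : Fin n)) ≤ Γ.G _ (rowT C (some k)) + Lo k w := by
      intro p q hpq hne hqp hwp
      have hpm : p ∈ ({i, j} : Finset (Fin n)) := by rw [← hpq]; simp
      have hqm : q ∈ ({i, j} : Finset (Fin n)) := by rw [← hpq]; simp
      have hk0 : (k : Fin n) ∉ ({p, q} : Finset (Fin n)) := by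
        rw [hpq, ← Finset.mem_compl, ← hR]
        exact k.2
      have hk1 : (k : Fin n) ≠ p ∧ (k : Fin n) ≠ q := by
        simpa only [Finset.mem_insert, Finset.mem_singleton, not_or] using hk0
      have hkp := hk1.1
      have hkq := hk1.2
      set b' : Fin n → ℝ := fun l => if l = p then w else if l = q then 0 else row A k l with hb'
      have h3 := hLo k hki hkj p q hpq hne hqp w hw0 hwp
      -- the comparison with the row of `C`
      let e1 : Option ↥R ↪ Fin n := ⟨fun o => Option.elim o p (fun x => (x : Fin n)), by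
        intro a b hab
        rcases a with _ | ⟨a, ha⟩ <;> rcases b with _ | ⟨b, hb⟩
        · rfl
        · have h' : p = b := hab
          rw [hR, ← h', Finset.mem_compl] at hb
          exact absurd hpm hb
        · have h' : a = p := hab
          rw [hR, h', Finset.mem_compl] at ha
          exact absurd hpm ha
        · have h' : a = b := hab
          subst h'
          rfl⟩
      have h5 : Γ.G (Fin n) b' = Γ.G (Option ↥R) (fun a => b' (e1 a)) := by
        refine (Γ.emb _ _ e1 b' fun l hl => ?_).symm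
        have hlq : l = q := by
          by_contra hcon
          by_cases hlp : l = p
          · exact hl ⟨none, hlp.symm⟩
          · have hlR : l ∈ R := by
              rw [hR, Finset.mem_compl, ← hpq]
              simp [hlp, hcon]
            exact hl ⟨some ⟨l, hlR⟩, rfl⟩
        simp only [hb']
        rw [hlq, if_neg (Ne.symm hne), if_pos rfl]
      have h6 : Γ.G (Option ↥R) (fun a => b' (e1 a)) ≤ Γ.G _ (rowT C (some k)) := by
        refine Γ.mono _ _ _ (fun a => ?_) (fun a => ?_) (hrow1 _) ⟨some k, ?_⟩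
        · simp only [hb']
          split_ifs
          · exact hw0
          · exact le_rfl
          · exact row_nonneg A _ _
        · rcases a with _ | l
          · show b' p ≤ rowT C (some k) none
            rw [hherm]
            simp only [hb', if_true]
            exact hwu
          · show b' (l : Fin n) ≤ rowT C (some k) (some l)
            have hl0 : (l : Fin n) ∉ ({p, q} : Finset (Fin n)) := by
              rw [hpq, ← Finset.mem_compl, ← hR]
              exact l.2
            have hl : (l : Fin n) ≠ p ∧ (l : Fin n) ≠ q := by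
              simpa only [Finset.mem_insert, Finset.mem_singleton, not_or] using hl0
            simp only [hb']
            rw [if_neg hl.1, if_neg hl.2]
            unfold rowT row
            rw [hCA]
        · show b' (k : Fin n) ≠ 0
          simp only [hb']
          rw [if_neg hkp, if_neg hkq, row_diag A h.diag]
          exact one_ne_zero
      linarith
    rcases le_total s t with hst | hst
    · exact step j i (by rw [Finset.pair_comm]) (Ne.symm hij) (by rw [ht', hs']; exact hst)
        (by rw [ht']; exact (min_le_right _ _).trans (le_of_eq (max_eq_right hst)))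
    · exact step i j rfl hij (by rw [ht', hs']; exact hst)
        (by rw [hs']; exact (min_le_right _ _).trans (le_of_eq (max_eq_left hst)))
  refine ⟨u, c, fun k hki hkj => ?_, ?_⟩
  · have hkR : k ∈ R := (hmemR k).mpr ⟨hki, hkj⟩
    refine ⟨hu0 k, hu1 ⟨k, hkR⟩, ?_, hc1 k, hc2 k⟩
    have h3 := huR ⟨k, hkR⟩
    have h4 := hCu ⟨k, hkR⟩
    rw [← h3] at h4
    exact h4
  · have hlt := h.lt
    have hsplit : ∑ l, Γ.G (Fin n) (row A l) = (Γ.G (Fin n) (row A i) + Γ.G (Fin n) (row A j))
        + ∑ k : ↥R, Γ.G (Fin n) (row A (k : Fin n)) := by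
      rw [← Finset.sum_add_sum_compl {i, j}, Finset.sum_pair hij, ← hR,
        ← Finset.sum_coe_sort R (fun k => Γ.G (Fin n) (row A k))]
    have h3 := Finset.sum_le_sum fun (k : ↥R) (_ : k ∈ Finset.univ) => hrows k
    rw [Finset.sum_add_distrib] at h3
    have h4 : ∑ k : ↥R, Lo k (Min.min (u k) (Max.max (row A i k) (row A j k)))
        = ∑ k ∈ R, Lo k (Min.min (u k) (Max.max (row A i k) (row A j k))) :=
      Finset.sum_coe_sort R (fun k => Lo k (Min.min (u k) (Max.max (row A i k) (row A j k))))
    rw [h4] at h3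
    rw [hvrow] at hstar
    linarith

end CEG

end Fr
end Pool.Agent.Lib.MP_6947cd_al
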