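import Pool.Agent.Lib.MP_6947cd_al.T.Frame3

/-!
Problem MP_6947cd_al (Chollet).  Row functionals above the entropic row function `F`, for which the
induction works as well.
-/

set_option autoImplicit false
open Finset

namespace Pool.Agent.Lib.MP_6947cd_al
namespace Fr

open Ent

/-- A row functional for the induction: above `F`, monotone, invariant under dropping zero entries,
with the loss `omg`. -/
structure RF where
  G : (κ : Type) → [Fintype κ] → [DecidableEq κ] → (κ → ℝ) → ℝ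
  F_le : ∀ (κ : Type) [Fintype κ] [DecidableEq κ] (b : κ → ℝ), F b ≤ G κ b
  mono : ∀ (κ : Type) [Fintype κ] [DecidableEq κ] (b b' : κ → ℝ), (∀ j, 0 ≤ b j) →
    (∀ j, b j ≤ b' j) → (∀ j, b' j ≤ 1) → (∃ j, b j ≠ 0) → G κ b ≤ G κ b'
  emb : ∀ (κ κ' : Type) [Fintype κ] [DecidableEq κ] [Fintype κ'] [DecidableEq κ'] (e : κ' ↪ κ)
    (b : κ → ℝ), (∀ j, j ∉ Set.range e → b j = 0) → G κ' (fun a => b (e a)) = G κ b
  sub_le : ∀ (κ : Type) [Fintype κ] [DecidableEq κ] (b b' : κ → ℝ), (∀ j, 0 ≤ b' j) →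
    (∀ j, b' j ≤ b j) → (∀ j, b j ≤ 1) → ∀ i, b' i = 1 →
    G κ b ≤ G κ b' + ∑ k, (omg (b k) - omg (b' k))

/-- The entropic row function itself. -/
noncomputable def RF.base : RF where
  G := fun _ _ _ b => F b
  F_le := fun _ _ _ _ => le_rfl
  mono := fun _ _ _ b b' h0 h _ hne => F_mono b b' h0 h hne
  emb := fun _ _ _ _ _ _ e b hb => F_emb e b hb
  sub_le := fun _ _ _ b b' h0 h h1 i hi => F_sub_le b b' h0 h h1 i hi

/-- The maximum of a row functional and of `φ (∑ g)`. -/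
noncomputable def RF.sup (Γ : RF) (g φ : ℝ → ℝ) (hg0 : g 0 = 0)
    (hg : ∀ a b : ℝ, 0 ≤ a → a ≤ b → b ≤ 1 → g a ≤ g b ∧ g b - g a ≤ omg b - omg a)
    (hφ : ∀ x y : ℝ, x ≤ y → φ x ≤ φ y ∧ φ y - φ x ≤ y - x) : RF where
  G := fun κ _ _ b => max (Γ.G κ b) (φ (∑ j, g (b j) - g 1))
  F_le := fun κ _ _ b => (Γ.F_le κ b).trans (le_max_left _ _)
  mono := fun κ _ _ b b' h0 h h1 hne => by
    refine max_le_max (Γ.mono κ b b' h0 h h1 hne) (hφ _ _ ?_).1
    have := Finset.sum_le_sum fun j (_ : j ∈ Finset.univ) => (hg (b j) (b' j) (h0 j) (h j) (h1 j)).1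
    linarith
  emb := fun κ κ' _ _ _ _ e b hb => by
    beta_reduce
    rw [Γ.emb κ κ' e b hb, sum_emb e (fun j => g (b j)) fun j hj => by rw [hb j hj, hg0]]
  sub_le := fun κ _ _ b b' h0 h h1 i hi => by
    have hs : 0 ≤ ∑ k, (omg (b k) - omg (b' k)) := by
      refine Finset.sum_nonneg fun k _ => ?_
      have h2 := hg (b' k) (b k) (h0 k) (h k) (h1 k)
      linarith [h2.1, h2.2]
    refine max_le ?_ ?_
    · have h2 := Γ.sub_le κ b b' h0 h h1 i hi
      have h3 := le_max_left (Γ.G κ b') (φ (∑ j, g (b' j) - g 1))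
      linarith
    · have h3 := le_max_right (Γ.G κ b') (φ (∑ j, g (b' j) - g 1))
      have h4 : ∑ j, g (b' j) ≤ ∑ j, g (b j) :=
        Finset.sum_le_sum fun j _ => (hg (b' j) (b j) (h0 j) (h j) (h1 j)).1
      have h5 : ∑ j, g (b j) - ∑ j, g (b' j) ≤ ∑ k, (omg (b k) - omg (b' k)) := by
        rw [← Finset.sum_sub_distrib]
        exact Finset.sum_le_sum fun j _ => (hg (b' j) (b j) (h0 j) (h j) (h1 j)).2
      have h6 := (hφ (∑ j, g (b' j) - g 1) (∑ j, g (b j) - g 1) (by linarith)).2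
      linarith

/-- removing the entries of `U` -/
theorem RF.rest_le (Γ : RF) {κ : Type} [Fintype κ] [DecidableEq κ] (b : κ → ℝ)
    (hb0 : ∀ j, 0 ≤ b j) (hb1 : ∀ j, b j ≤ 1) (i : κ) (hi : b i = 1) (U : Finset κ) (hiU : i ∉ U) :
    Γ.G κ b ≤ Γ.G κ (rest b U) + ∑ k ∈ U, omg (b k) := by
  have h := Γ.sub_le κ b (rest b U) (fun j => by unfold rest; split_ifs; exacts [le_rfl, hb0 j])
    (fun j => by unfold rest; split_ifs; exacts [hb0 j, le_rfl]) hb1 i
    (by unfold rest; rw [if_neg hiU, hi])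
  refine h.trans (le_of_eq ?_)
  congr 1
  rw [← Finset.sum_subset (Finset.subset_univ U)]
  · refine Finset.sum_congr rfl fun k hk => ?_
    unfold rest omg
    rw [if_pos hk]
    ring
  · intro k _ hk
    unfold rest
    rw [if_neg hk, sub_self]

/-! ### the standard choice -/

/-- the entry function of the standard functional: `43/200 b + γ b²` up to `τ` -/
noncomputable def gtr (γ τ b : ℝ) : ℝ := 43 / 200 * min b τ + γ * (min b τ) ^ 2

/-- the outer function of the standard functional -/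
noncomputable def phi (c0 c1 x : ℝ) : ℝ := min (x - c0) c1

lemma gtr_zero (γ τ : ℝ) (hτ : 0 ≤ τ) : gtr γ τ 0 = 0 := by
  unfold gtr
  rw [min_eq_left hτ]
  ring

lemma gtr_mono (γ τ : ℝ) (hγ0 : 0 ≤ γ) (hγ : γ ≤ 39 / 200) (hτ : 0 ≤ τ) (a b : ℝ) (ha : 0 ≤ a)
    (hab : a ≤ b) (_ : b ≤ 1) :
    gtr γ τ a ≤ gtr γ τ b ∧ gtr γ τ b - gtr γ τ a ≤ omg b - omg a := by
  unfold gtr omg
  have h1 : 0 ≤ min a τ := le_min ha hτ
  have h2 : min a τ ≤ min b τ := min_le_min_right τ hab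
  have h3 : min b τ - min a τ ≤ b - a := by
    rcases le_total a τ with h | h
    · rw [min_eq_left h]
      linarith [min_le_left b τ]
    · rw [min_eq_right h, min_eq_right (h.trans hab)]
      linarith
  have h4 : min b τ ≤ b := min_le_left _ _
  have h5 : min a τ ≤ a := min_le_left _ _
  constructor
  · nlinarith [mul_nonneg hγ0 (mul_nonneg (sub_nonneg.mpr h2) (add_nonneg h1 (h1.trans h2)))]
  · have h6 : γ * ((min b τ) ^ 2 - (min a τ) ^ 2) ≤ 39 / 200 * (b ^ 2 - a ^ 2) := by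
      have e1 : (min b τ) ^ 2 - (min a τ) ^ 2 = (min b τ - min a τ) * (min b τ + min a τ) := by ring
      have e2 : b ^ 2 - a ^ 2 = (b - a) * (b + a) := by ring
      rw [e1, e2]
      have h7 : (min b τ - min a τ) * (min b τ + min a τ) ≤ (b - a) * (b + a) :=
        mul_le_mul h3 (by linarith) (by linarith) (by linarith)
      have h8 : 0 ≤ (min b τ - min a τ) * (min b τ + min a τ) :=
        mul_nonneg (by linarith) (by linarith)
      nlinarith
    linarith

lemma phi_mono (c0 c1 x y : ℝ) (h : x ≤ y) :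
    phi c0 c1 x ≤ phi c0 c1 y ∧ phi c0 c1 y - phi c0 c1 x ≤ y - x := by
  unfold phi
  constructor
  · exact min_le_min_right _ (by linarith)
  · rcases le_total (x - c0) c1 with h1 | h1
    · rw [min_eq_left h1]
      linarith [min_le_left (y - c0) c1]
    · rw [min_eq_right h1, min_eq_right (by linarith)]
      linarith

/-- The standard extension of a row functional, with parameters `γ`, `τ`, `c0`, `c1`. -/
noncomputable def RF.ext (Γ : RF) (γ τ c0 c1 : ℝ) (hγ0 : 0 ≤ γ) (hγ : γ ≤ 39 / 200) (hτ : 0 ≤ τ) : RF :=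
  Γ.sup (gtr γ τ) (phi c0 c1) (gtr_zero γ τ hτ) (gtr_mono γ τ hγ0 hγ hτ) (phi_mono c0 c1)

/-- THE ROW FUNCTIONAL OF THE PROOF: `max (F b) (min (∑_{j ≠ i} g (b j) - 6/125) (1/2))` with
`g b = 43/200 b + 3/20 b²` up to `b = 9/20`. -/
noncomputable def GG : RF := RF.base.ext (3 / 20) (9 / 20) (6 / 125) (1 / 2) (by norm_num) (by norm_num)
  (by norm_num)

/-- the additive lower bound -/
theorem GG_ge {κ : Type} [Fintype κ] [DecidableEq κ] (b : κ → ℝ) (i : κ) (hi : b i = 1) :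
    min (∑ j ∈ Finset.univ.erase i, gtr (3 / 20) (9 / 20) (b j) - 6 / 125) (1 / 2) ≤ GG.G κ b := by
  refine le_trans (le_of_eq ?_) (le_max_right _ _)
  unfold phi
  congr 2
  rw [← Finset.add_sum_erase _ _ (Finset.mem_univ i), hi]
  ring

theorem F_le_GG {κ : Type} [Fintype κ] [DecidableEq κ] (b : κ → ℝ) : F b ≤ GG.G κ b :=
  le_max_left _ _

/-- upper bounds -/
theorem GG_le {κ : Type} [Fintype κ] [DecidableEq κ] (b : κ → ℝ) (i : κ) (hi : b i = 1) (V : ℝ)
    (h1 : F b ≤ V)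
    (h2 : min (∑ j ∈ Finset.univ.erase i, gtr (3 / 20) (9 / 20) (b j) - 6 / 125) (1 / 2) ≤ V) :
    GG.G κ b ≤ V := by
  refine max_le h1 (le_trans (le_of_eq ?_) h2)
  unfold phi
  congr 2
  rw [← Finset.add_sum_erase _ _ (Finset.mem_univ i), hi]
  ring

end Fr
end Pool.Agent.Lib.MP_6947cd_al
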