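import Pool.Agent.Lib.MP_6947cd_al.T.Convex
import Pool.Agent.Lib.MP_6947cd_al.T.Schur2
import Pool.Agent.Lib.MP_6947cd_al.T.Atoms

/-!
Problem MP_6947cd_al (Chollet).  Rows with a set `S` of special entries, all other entries at most `m`, with a
given sum: the row function is below the chord between the rows with `n` and `n + 1` entries `m`.
-/

set_option autoImplicit false
open scoped Matrix
open Matrix Finset

namespace Pool.Agent.Lib.MP_6947cd_al
namespace Ent

variable {κ : Type} [Fintype κ] [DecidableEq κ]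

/-- the row with the special entries of `b` on `S`, `m` on `U`, `0` elsewhere -/
def hub (b : κ → ℝ) (S U : Finset κ) (m : ℝ) : κ → ℝ :=
  fun k => if k ∈ S then b k else if k ∈ U then m else 0

/-- CHORD BOUND.  `L n` bounds the row function of the rows with the given special entries and `n`
other entries, all equal to `m`. -/
theorem F_le_chord (b : κ → ℝ) (hb0 : ∀ j, 0 ≤ b j) (hb1 : ∀ j, b j ≤ 1) (i : κ) (hi : b i = 1)
    (S : Finset κ) (hiS : i ∈ S) (m : ℝ) (hm0 : 0 < m) (hm1 : m ≤ 1)
    (hm : ∀ k, k ∉ S → b k ≤ m) (L : ℕ → ℝ)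
    (hL : ∀ U : Finset κ, Disjoint S U → F (hub b S U m) ≤ L U.card) (n : ℕ)
    (hn : (n : ℝ) * m ≤ ∑ k ∈ Sᶜ, b k) (hn' : ∑ k ∈ Sᶜ, b k ≤ ((n : ℝ) + 1) * m) :
    F b ≤ ((n : ℝ) + 1 - (∑ k ∈ Sᶜ, b k) / m) * L n + ((∑ k ∈ Sᶜ, b k) / m - n) * L (n + 1) := by
  classical
  obtain ⟨b', h1, h2, h3, h4, h5⟩ := F_concentrate i S hiS m hm1 _ b rfl hb0 hb1 hi hm
  refine h5.trans ?_
  set T := ∑ k ∈ Sᶜ, b k with hT
  set U : Finset κ := Sᶜ.filter (fun k => b' k = m) with hU
  have hUS : Disjoint S U := by
    rw [Finset.disjoint_left]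
    intro k hk hk'
    exact (Finset.mem_compl.mp (Finset.mem_filter.mp hk').1) hk
  have hUm : ∀ k ∈ U, b' k = m := fun k hk => (Finset.mem_filter.mp hk).2
  have hb'0 : ∀ j, 0 ≤ b' j := fun j => by
    by_cases hj : j ∈ S
    · rw [h1 j hj]; exact hb0 j
    · exact (h2 j hj).1
  have hb'1 : ∀ j, b' j ≤ 1 := fun j => by
    by_cases hj : j ∈ S
    · rw [h1 j hj]; exact hb1 j
    · exact (h2 j hj).2.trans hm1
  have hb'i : b' i = 1 := by rw [h1 i hiS, hi]
  -- no exception
  by_cases hint : ∃ k, k ∈ inter b' S m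
  · obtain ⟨c, hc⟩ := hint
    have hc' := (mem_inter b' S m c).mp hc
    have hcU : c ∉ U := fun h => by
      have := hUm c h
      linarith [hc'.2.2]
    have hz : ∀ k, k ∉ S → k ∉ U → k ≠ c → b' k = 0 := by
      intro k hkS hkU hkc
      by_contra hne
      have hpos : 0 < b' k := lt_of_le_of_ne (hb'0 k) (Ne.symm hne)
      have hlt : b' k < m := lt_of_le_of_ne (h2 k hkS).2 fun h =>
        hkU (Finset.mem_filter.mpr ⟨Finset.mem_compl.mpr hkS, h⟩)
      exact hkc (h4 k c ((mem_inter b' S m k).mpr ⟨hkS, hpos, hlt⟩) hc)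
    have hsum : T = U.card * m + b' c := by
      rw [← h3]
      have hsub : insert c U ⊆ Sᶜ := by
        intro k hk
        rcases Finset.mem_insert.mp hk with h | h
        · rw [h]; exact Finset.mem_compl.mpr hc'.1
        · exact (Finset.mem_filter.mp h).1
      rw [← Finset.sum_subset hsub]
      · rw [Finset.sum_insert hcU, Finset.sum_congr rfl hUm, Finset.sum_const, nsmul_eq_mul]
        ring
      · intro k hk hk'
        rw [Finset.mem_insert, not_or] at hk'
        exact hz k (Finset.mem_compl.mp hk) hk'.2 hk'.1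
    have hcard : U.card = n := by
      have h6 : (U.card : ℝ) * m < ((n : ℝ) + 1) * m := by linarith [hc'.2.1]
      have h7 : (n : ℝ) * m < ((U.card : ℝ) + 1) * m := by linarith [hc'.2.2]
      have h8 : (U.card : ℝ) < (n : ℝ) + 1 := lt_of_mul_lt_mul_right h6 hm0.le
      have h9 : (n : ℝ) < (U.card : ℝ) + 1 := lt_of_mul_lt_mul_right h7 hm0.le
      have h10 : U.card < n + 1 := by exact_mod_cast h8
      have h11 : n < U.card + 1 := by exact_mod_cast h9
      omega
    rw [hcard] at hsum
    have hic : i ≠ c := fun h => hc'.1 (h ▸ hiS)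
    have hcv := F_convexOn b' hb'0 hb'1 i c hic hb'i
    have hρ : T / m - n = b' c / m := by
      rw [hsum]
      field_simp
      ring
    have hρ' : (n : ℝ) + 1 - T / m = 1 - b' c / m := by rw [← hρ]; ring
    have hq0 : 0 ≤ b' c / m := div_nonneg (hb'0 c) hm0.le
    have hq1 : b' c / m ≤ 1 := (div_le_one hm0).mpr hc'.2.2.le
    have hch := hcv.2 (show (0 : ℝ) ∈ Set.Icc 0 1 by simp) (show m ∈ Set.Icc (0 : ℝ) 1 from
      ⟨hm0.le, hm1⟩) (show 0 ≤ 1 - b' c / m by linarith) hq0 (by ring)
    simp only [smul_eq_mul, mul_zero, zero_add] at hch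
    rw [div_mul_cancel₀ _ hm0.ne', Function.update_eq_self] at hch
    have e0 : Function.update b' c 0 = hub b S U m := by
      funext k
      unfold hub
      by_cases hkc : k = c
      · subst hkc
        rw [Function.update_self, if_neg hc'.1, if_neg hcU]
      · rw [Function.update_of_ne hkc]
        by_cases hkS : k ∈ S
        · rw [if_pos hkS, h1 k hkS]
        · rw [if_neg hkS]
          by_cases hkU : k ∈ U
          · rw [if_pos hkU, hUm k hkU]
          · rw [if_neg hkU, hz k hkS hkU hkc]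
    have e1 : Function.update b' c m = hub b S (insert c U) m := by
      funext k
      unfold hub
      by_cases hkc : k = c
      · subst hkc
        rw [Function.update_self, if_neg hc'.1, if_pos (Finset.mem_insert_self _ _)]
      · rw [Function.update_of_ne hkc]
        by_cases hkS : k ∈ S
        · rw [if_pos hkS, h1 k hkS]
        · rw [if_neg hkS]
          by_cases hkU : k ∈ U
          · rw [if_pos (Finset.mem_insert_of_mem hkU), hUm k hkU]
          · rw [if_neg (by rw [Finset.mem_insert, not_or]; exact ⟨hkc, hkU⟩), hz k hkS hkU hkc]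
    rw [e0, e1] at hch
    have hL0 := hL U hUS
    have hL1 := hL (insert c U) (by
      rw [Finset.disjoint_insert_right]
      exact ⟨hc'.1, hUS⟩)
    rw [Finset.card_insert_of_notMem hcU] at hL1
    rw [hcard] at hL0 hL1
    rw [hρ, hρ']
    refine hch.trans (add_le_add (mul_le_mul_of_nonneg_left hL0 (by linarith))
      (mul_le_mul_of_nonneg_left hL1 hq0))
  · push Not at hint
    have hz : ∀ k, k ∉ S → k ∉ U → b' k = 0 := by
      intro k hkS hkU
      by_contra hne
      have hpos : 0 < b' k := lt_of_le_of_ne (hb'0 k) (Ne.symm hne)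
      have hlt : b' k < m := lt_of_le_of_ne (h2 k hkS).2 fun h =>
        hkU (Finset.mem_filter.mpr ⟨Finset.mem_compl.mpr hkS, h⟩)
      exact hint k ((mem_inter b' S m k).mpr ⟨hkS, hpos, hlt⟩)
    have hsum : T = U.card * m := by
      rw [← h3]
      have hsub : U ⊆ Sᶜ := fun k hk => (Finset.mem_filter.mp hk).1
      rw [← Finset.sum_subset hsub]
      · rw [Finset.sum_congr rfl hUm, Finset.sum_const, nsmul_eq_mul]
      · intro k hk hk'
        exact hz k (Finset.mem_compl.mp hk) hk'
    have e0 : b' = hub b S U m := by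
      funext k
      unfold hub
      by_cases hkS : k ∈ S
      · rw [if_pos hkS, h1 k hkS]
      · rw [if_neg hkS]
        by_cases hkU : k ∈ U
        · rw [if_pos hkU, hUm k hkU]
        · rw [if_neg hkU, hz k hkS hkU]
    have hL0 := hL U hUS
    rw [← e0] at hL0
    have h8 : (U.card : ℝ) ≤ (n : ℝ) + 1 := le_of_mul_le_mul_right (by linarith) hm0
    have h9 : (n : ℝ) ≤ (U.card : ℝ) := le_of_mul_le_mul_right (by linarith) hm0
    have h10 : U.card ≤ n + 1 := by exact_mod_cast h8
    have h11 : n ≤ U.card := by exact_mod_cast h9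
    have hTm : T / m = U.card := by rw [hsum, mul_div_cancel_right₀ _ hm0.ne']
    rw [hTm]
    rcases Nat.eq_or_lt_of_le h11 with h | h
    · rw [← h] at hL0 ⊢
      have : ((n : ℝ) + 1 - n) * L n + ((n : ℝ) - n) * L (n + 1) = L n := by ring
      rw [this]
      exact hL0
    · have hU1 : U.card = n + 1 := by omega
      rw [hU1] at hL0 ⊢
      push_cast
      have : ((n : ℝ) + 1 - (n + 1)) * L n + ((n : ℝ) + 1 - n) * L (n + 1) = L (n + 1) := by ring
      rw [this]
      exact hL0

end Ent
end Pool.Agent.Lib.MP_6947cd_al
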