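import Pool.Agent.Lib.MP_6947cd_al.T.Val

/-!
Problem MP_6947cd_al (Chollet).  First order conditions at the maximiser of the row function and
the comparison of the availability terms of two entries.
-/

set_option autoImplicit false
open scoped Matrix
open Matrix Finset

namespace Pool.Agent.Lib.MP_6947cd_al
namespace Ent

variable {κ : Type} [Fintype κ] [DecidableEq κ]

lemma ell_comp_perm (π : Equiv.Perm κ) (p : κ → ℝ) (j : κ) :
    ell Finset.univ (fun a => p (π a)) j = ell Finset.univ p (π j) := by
  have h := ell_map π.toEmbedding (Finset.univ : Finset κ) p j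
  rw [Finset.map_univ_equiv] at h
  exact h.symm

lemma val_swap (b p : κ → ℝ) (i m : κ) :
    val b (fun a => p (Equiv.swap i m a))
      = val b p + (p m - p i) * (Real.log (b i) - Real.log (b m)) := by
  by_cases him : i = m
  · subst him; simp
  have h1 : val b (fun a => p (Equiv.swap i m a))
      = ∑ k, p k * (Real.log (b (Equiv.swap i m k)) - Real.log (p k) + ell Finset.univ p k) := by
    unfold val
    rw [← Equiv.sum_comp (Equiv.swap i m) (fun k => p k * (Real.log (b (Equiv.swap i m k))
      - Real.log (p k) + ell Finset.univ p k))]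
    refine Finset.sum_congr rfl fun j _ => ?_
    rw [ell_comp_perm, Equiv.swap_apply_self]
  have h2 : val b (fun a => p (Equiv.swap i m a)) - val b p
      = ∑ k, p k * (Real.log (b (Equiv.swap i m k)) - Real.log (b k)) := by
    rw [h1]
    unfold val
    rw [← Finset.sum_sub_distrib]
    exact Finset.sum_congr rfl fun k _ => by ring
  have h3 : ∑ k, p k * (Real.log (b (Equiv.swap i m k)) - Real.log (b k))
      = ∑ k ∈ {i, m}, p k * (Real.log (b (Equiv.swap i m k)) - Real.log (b k)) := by
    refine (Finset.sum_subset (Finset.subset_univ _) fun k _ hk => ?_).symm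
    simp only [Finset.mem_insert, Finset.mem_singleton, not_or] at hk
    rw [Equiv.swap_apply_of_ne_of_ne hk.1 hk.2, sub_self, mul_zero]
  rw [Finset.sum_pair him, Equiv.swap_apply_left, Equiv.swap_apply_right] at h3
  linarith [h2, h3, mul_comm (p m - p i) (Real.log (b i) - Real.log (b m))]

/-- There is a maximiser at which the largest entry has the largest mass. -/
theorem exists_max (b : κ → ℝ) (hb1 : ∀ j, b j ≤ 1) (hb0 : ∀ j, 0 ≤ b j) (i : κ) (hi : b i = 1) :
    ∃ p ∈ adm b, val b p = F b ∧ (∀ j, p j ≤ p i) ∧ 0 < p i := by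
  obtain ⟨p, hp, hv⟩ := exists_val_eq_F b ⟨i, by rw [hi]; exact one_ne_zero⟩
  obtain ⟨m, _, hm⟩ := Finset.exists_max_image Finset.univ p ⟨i, Finset.mem_univ i⟩
  have hpm : 0 < p m := by
    by_contra hcon
    have h0 : ∀ j, p j = 0 := fun j =>
      le_antisymm ((hm j (Finset.mem_univ j)).trans (not_lt.mp hcon)) (hp.1 j)
    have := hp.2.1
    simp [h0] at this
  have hbm : b m ≠ 0 := fun h => hpm.ne' (hp.2.2 m h)
  have hadm : (fun a => p (Equiv.swap i m a)) ∈ adm b := by
    refine ⟨fun j => hp.1 _, ?_, fun j hj => ?_⟩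
    · rw [Equiv.sum_comp (Equiv.swap i m) p]
      exact hp.2.1
    · have hji : j ≠ i := by
        intro h; rw [h, hi] at hj; exact one_ne_zero hj
      have hjm : j ≠ m := by
        intro h; rw [h] at hj; exact hbm hj
      show p (Equiv.swap i m j) = 0
      rw [Equiv.swap_apply_of_ne_of_ne hji hjm]
      exact hp.2.2 j hj
  refine ⟨fun a => p (Equiv.swap i m a), hadm, ?_, fun j => ?_, ?_⟩
  · refine le_antisymm (val_le_F b _ hadm) ?_
    rw [val_swap, hv, hi, Real.log_one]
    have h1 : 0 ≤ p m - p i := sub_nonneg.mpr (hm i (Finset.mem_univ i))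
    have h2 : Real.log (b m) ≤ 0 := Real.log_nonpos (hb0 m) (hb1 m)
    nlinarith
  · show p (Equiv.swap i m j) ≤ p (Equiv.swap i m i)
    rw [Equiv.swap_apply_left]
    exact hm _ (Finset.mem_univ _)
  · show 0 < p (Equiv.swap i m i)
    rw [Equiv.swap_apply_left]
    exact hpm

/-- First order condition. -/
theorem kkt (b p : κ → ℝ) (hp : p ∈ adm b) (hv : val b p = F b) (i c : κ) (hic : i ≠ c)
    (hpi : 0 < p i) (hpc : 0 < p c) :
    Real.log (b i) - Real.log (p i) + ell Finset.univ p i
      = Real.log (b c) - Real.log (p c) + ell Finset.univ p c := by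
  set t : κ → ℝ := fun j => if j = i then 1 else if j = c then -1 else 0 with ht
  have ti : t i = 1 := by simp [ht]
  have tc : t c = -1 := by simp [ht, Ne.symm hic]
  have t0 : ∀ j, j ≠ i → j ≠ c → t j = 0 := fun j h1 h2 => by simp [ht, h1, h2]
  have htsum : ∀ g : κ → ℝ, ∑ j, t j * g j = g i - g c := by
    intro g
    have : ∑ j, t j * g j = ∑ j ∈ {i, c}, t j * g j := by
      refine (Finset.sum_subset (Finset.subset_univ _) fun k _ hk => ?_).symm
      simp only [Finset.mem_insert, Finset.mem_singleton, not_or] at hk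
      rw [t0 k hk.1 hk.2, zero_mul]
    rw [this, Finset.sum_pair hic, ti, tc]
    ring
  have htj : ∀ j, t j ≠ 0 → 0 < p j := by
    intro j hj
    by_cases h1 : j = i
    · rw [h1]; exact hpi
    · by_cases h2 : j = c
      · rw [h2]; exact hpc
      · exact absurd (t0 j h1 h2) hj
  -- the function along the line
  have hderiv : HasDerivAt (fun ε : ℝ => val b (fun j => p j + ε * t j))
      (∑ j, t j * Real.log (b j) + ∑ A : Finset κ, w (Fintype.card κ) (A.card - 1) *
        ((∑ k ∈ A, t k) * (Real.log (∑ k ∈ A, p k) + 1)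
          - ∑ j ∈ A, t j * (Real.log (p j) + 1))) 0 := by
    have e : (fun ε : ℝ => val b (fun j => p j + ε * t j)) = fun ε =>
        ∑ j, (p j + ε * t j) * Real.log (b j)
        + ∑ A : Finset κ, w (Fintype.card κ) (A.card - 1) *
        ((∑ k ∈ A, (p k + ε * t k)) * Real.log (∑ k ∈ A, (p k + ε * t k))
          - ∑ j ∈ A, (p j + ε * t j) * Real.log (p j + ε * t j)) := funext fun ε => val_eq b _
    rw [e]
    have hlin : ∀ (s q : ℝ), (s ≠ 0 → 0 < q) →
        HasDerivAt (fun ε : ℝ => (q + ε * s) * Real.log (q + ε * s)) (s * (Real.log q + 1)) 0 := by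
      intro s q hq
      by_cases hs : s = 0
      · subst hs
        simpa using hasDerivAt_const (0 : ℝ) (q * Real.log q)
      · have h1 : HasDerivAt (fun ε : ℝ => q + ε * s) s 0 := by
          simpa using ((hasDerivAt_id (0 : ℝ)).mul_const s).const_add q
        have h2 : HasDerivAt (fun x : ℝ => x * Real.log x) (Real.log (q + 0 * s) + 1)
            (q + 0 * s) := by
          have := Real.hasDerivAt_mul_log (x := q + 0 * s) (by rw [zero_mul, add_zero]; exact (hq hs).ne')
          exact this
        have h3 := h2.comp (0 : ℝ) h1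
        rw [zero_mul, add_zero] at h3
        rw [mul_comm s]
        exact h3
    refine HasDerivAt.add ?_ ?_
    · refine HasDerivAt.fun_sum fun j _ => ?_
      have h1 : HasDerivAt (fun ε : ℝ => p j + ε * t j) (t j) 0 := by
        simpa using ((hasDerivAt_id (0 : ℝ)).mul_const (t j)).const_add (p j)
      exact h1.mul_const _
    · refine HasDerivAt.fun_sum fun A _ => ?_
      refine HasDerivAt.const_mul _ (HasDerivAt.sub ?_ ?_)
      · have h1 := hlin (∑ k ∈ A, t k) (∑ k ∈ A, p k) (by
          intro hne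
          obtain ⟨j, hj, hj'⟩ := Finset.exists_ne_zero_of_sum_ne_zero hne
          exact lt_of_lt_of_le (htj j hj') (Finset.single_le_sum (fun k _ => hp.1 k) hj))
        have e2 : (fun ε : ℝ => (∑ k ∈ A, (p k + ε * t k)) * Real.log (∑ k ∈ A, (p k + ε * t k)))
            = fun ε : ℝ => ((∑ k ∈ A, p k) + ε * (∑ k ∈ A, t k))
              * Real.log ((∑ k ∈ A, p k) + ε * (∑ k ∈ A, t k)) := by
          funext ε
          rw [Finset.sum_add_distrib, Finset.mul_sum]
        rw [e2]
        exact h1
      · exact HasDerivAt.fun_sum fun j _ => hlin (t j) (p j) (htj j)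
  have hmax : IsLocalMax (fun ε : ℝ => val b (fun j => p j + ε * t j)) 0 := by
    have hb' : ∀ᶠ ε : ℝ in nhds 0, |ε| < min (p i) (p c) := by
      have : Set.Ioo (-(min (p i) (p c))) (min (p i) (p c)) ∈ nhds (0 : ℝ) :=
        Ioo_mem_nhds (by simp [hpi, hpc]) (by simp [hpi, hpc])
      filter_upwards [this] with ε hε
      exact abs_lt.mpr hε
    filter_upwards [hb'] with ε hε
    have h0 : (fun j => p j + 0 * t j) = p := by funext j; ring
    rw [h0, hv]
    refine val_le_F b _ ⟨fun j => ?_, ?_, fun j hj => ?_⟩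
    · show 0 ≤ p j + ε * t j
      by_cases h1 : j = i
      · subst h1
        rw [ti]
        have := (abs_lt.mp (lt_of_lt_of_le hε (min_le_left _ _))).1
        linarith
      · by_cases h2 : j = c
        · subst h2
          rw [tc]
          have := (abs_lt.mp (lt_of_lt_of_le hε (min_le_right _ _))).2
          linarith
        · rw [t0 j h1 h2, mul_zero, add_zero]
          exact hp.1 j
    · rw [Finset.sum_add_distrib, ← Finset.mul_sum, hp.2.1]
      have : ∑ j, t j = 0 := by
        have := htsum (fun _ => 1)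
        simpa using this
      rw [this, mul_zero, add_zero]
    · have h3 : p j = 0 := hp.2.2 j hj
      have h4 : t j = 0 := by
        by_contra hne
        exact (htj j hne).ne' h3
      show p j + ε * t j = 0
      rw [h3, h4, mul_zero, add_zero]
  have hz := hmax.hasDerivAt_eq_zero hderiv
  have h5 := sum_ell_sub t p
  rw [htsum] at h5 hz
  have h6 : ∑ A : Finset κ, w (Fintype.card κ) (A.card - 1) *
        ((∑ k ∈ A, t k) * (Real.log (∑ k ∈ A, p k) + 1) - ∑ j ∈ A, t j * (Real.log (p j) + 1))
      = ∑ A : Finset κ, w (Fintype.card κ) (A.card - 1) *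
          ∑ j ∈ A, t j * (Real.log (∑ k ∈ A, p k) - Real.log (p j)) := by
    refine Finset.sum_congr rfl fun A _ => ?_
    congr 1
    rw [Finset.sum_mul, ← Finset.sum_sub_distrib]
    exact Finset.sum_congr rfl fun j _ => by ring
  rw [h6, ← h5] at hz
  linarith

omit [Fintype κ] in
/-- Jensen's inequality for a concave function of the random sum. -/
lemma bern_concave_le (u : ℝ) (h0 : 0 ≤ u) (h1 : u ≤ 1) (y : κ → ℝ) (ψ : ℝ → ℝ)
    (hψ : ConcaveOn ℝ (Set.Ici 0) ψ) (R : Finset κ) (hy : ∀ k ∈ R, 0 ≤ y k) : ∀ a : ℝ, 0 ≤ a →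
    bern u R (fun K => ψ (a + ∑ k ∈ K, y k)) ≤ ψ (a + u * ∑ k ∈ R, y k) := by
  induction R using Finset.induction_on with
  | empty => intro a _; simp [bern_empty]
  | insert c R hc ih =>
    intro a ha
    have hyc := hy c (Finset.mem_insert_self c R)
    have hyR : ∀ k ∈ R, 0 ≤ y k := fun k hk => hy k (Finset.mem_insert_of_mem hk)
    have ih' := ih hyR
    have hR0 : 0 ≤ ∑ k ∈ R, y k := Finset.sum_nonneg hyR
    rw [bern_insert u c R hc]
    have e1 : bern u R (fun K => ψ (a + ∑ k ∈ insert c K, y k))
        = bern u R (fun K => ψ ((a + y c) + ∑ k ∈ K, y k)) := by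
      refine bern_congr u R _ _ fun K hK => ?_
      rw [Finset.sum_insert (fun h => hc (hK h)), add_assoc]
    rw [e1, Finset.sum_insert hc]
    have h2 := ih' a ha
    have h3 := ih' (a + y c) (by linarith)
    have p1 : 0 ≤ a + u * ∑ k ∈ R, y k := by positivity
    have p2 : 0 ≤ a + y c + u * ∑ k ∈ R, y k := by positivity
    have h4 := hψ.2 (Set.mem_Ici.mpr p1) (Set.mem_Ici.mpr p2)
      (sub_nonneg.mpr h1) h0 (by ring)
    simp only [smul_eq_mul] at h4
    have h5 : (1 - u) * (a + u * ∑ k ∈ R, y k) + u * (a + y c + u * ∑ k ∈ R, y k)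
        = a + u * (y c + ∑ k ∈ R, y k) := by ring
    rw [h5] at h4
    have h6 := mul_le_mul_of_nonneg_left h2 (sub_nonneg.mpr h1)
    have h7 := mul_le_mul_of_nonneg_left h3 h0
    linarith

/-- `t ↦ log (c + t) - log (d + t)` is concave for `c ≤ d`. -/
lemma concave_log_sub (c d : ℝ) (hc : 0 < c) (hcd : c ≤ d) :
    ConcaveOn ℝ (Set.Ici 0) fun t => Real.log (c + t) - Real.log (d + t) := by
  have hpos : ∀ x : ℝ, 0 ≤ x → 0 < c + x ∧ 0 < d + x := fun x hx => ⟨by linarith, by linarith⟩
  have hd : ∀ x : ℝ, 0 ≤ x → HasDerivAt (fun t => Real.log (c + t) - Real.log (d + t))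
      (1 / (c + x) - 1 / (d + x)) x := by
    intro x hx
    have h1 : HasDerivAt (fun t : ℝ => c + t) 1 x := (hasDerivAt_id x).const_add c
    have h2 : HasDerivAt (fun t : ℝ => d + t) 1 x := (hasDerivAt_id x).const_add d
    exact (h1.log (hpos x hx).1.ne').sub (h2.log (hpos x hx).2.ne')
  refine AntitoneOn.concaveOn_of_deriv (convex_Ici 0) ?_ ?_ ?_
  · exact fun x hx => (hd x hx).continuousAt.continuousWithinAt
  · intro x hx
    rw [interior_Ici] at hx
    exact (hd x (le_of_lt hx)).differentiableAt.differentiableWithinAt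
  · rw [interior_Ici]
    intro x hx y hy hxy
    rw [(hd x (le_of_lt hx)).deriv, (hd y (le_of_lt hy)).deriv]
    have hx' : (0 : ℝ) < x := hx
    have hy' : (0 : ℝ) < y := hy
    rw [div_sub_div _ _ (by linarith) (by linarith), div_sub_div _ _ (by linarith) (by linarith),
      div_le_div_iff₀ (mul_pos (by linarith) (by linarith)) (mul_pos (by linarith) (by linarith))]
    have e1 : 1 * (d + y) - (c + y) * 1 = d - c := by ring
    have e2 : 1 * (d + x) - (c + x) * 1 = d - c := by ring
    rw [e1, e2]
    have : (c + x) * (d + x) ≤ (c + y) * (d + y) := by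
      apply mul_le_mul <;> linarith
    exact mul_le_mul_of_nonneg_left this (by linarith)

/-- Comparison of the availability terms of two entries. -/
theorem ell_sub_le (p : κ → ℝ) (hp : ∀ j, 0 ≤ p j) (i c : κ) (hic : i ≠ c) (hpc : 0 < p c)
    (hci : p c ≤ p i) :
    ell Finset.univ p c - ell Finset.univ p i
      ≤ ∫ u in (0 : ℝ)..1, (1 - u) * (Real.log (p c + u * ∑ k ∈ (Finset.univ.erase c).erase i, p k)
          - Real.log (p i + u * ∑ k ∈ (Finset.univ.erase c).erase i, p k)) := by
  set R : Finset κ := (Finset.univ.erase c).erase i with hR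
  have hpi : 0 < p i := lt_of_lt_of_le hpc hci
  have hiR : i ∉ R := Finset.notMem_erase i _
  have hcR : c ∉ R := fun h => Finset.notMem_erase c _ (Finset.mem_of_mem_erase h)
  have e1 : (Finset.univ.erase c : Finset κ) = insert i R := by
    rw [hR, Finset.insert_erase]
    exact Finset.mem_erase.mpr ⟨hic, Finset.mem_univ i⟩
  have e2 : (Finset.univ.erase i : Finset κ) = insert c R := by
    rw [hR, Finset.erase_right_comm, Finset.insert_erase]
    exact Finset.mem_erase.mpr ⟨Ne.symm hic, Finset.mem_univ c⟩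
  have hR0 : 0 ≤ ∑ k ∈ R, p k := Finset.sum_nonneg fun k _ => hp k
  rw [ell_eq _ p c (Finset.mem_univ c), ell_eq _ p i (Finset.mem_univ i)]
  have hint : ∀ S : Finset κ, ∀ g : Finset κ → ℝ,
      IntervalIntegrable (fun u : ℝ => bern u S g) MeasureTheory.volume 0 1 := fun S g =>
    (cont_bern S g).intervalIntegrable _ _
  rw [← intervalIntegral.integral_sub (hint _ _) (hint _ _)]
  refine intervalIntegral.integral_mono_on zero_le_one ((hint _ _).sub (hint _ _)) ?_ ?_
  · refine ContinuousOn.intervalIntegrable ?_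
    rw [Set.uIcc_of_le zero_le_one]
    refine ContinuousOn.mul (by fun_prop) (ContinuousOn.sub ?_ ?_)
    · refine ContinuousOn.log (by fun_prop) fun u hu => ?_
      have := mul_nonneg hu.1 hR0
      linarith
    · refine ContinuousOn.log (by fun_prop) fun u hu => ?_
      have := mul_nonneg hu.1 hR0
      linarith
  · intro u hu
    rw [e1, e2, bern_insert u i R hiR, bern_insert u c R hcR]
    have e3 : bern u R (fun K => Real.log (p c + ∑ k ∈ insert i K, p k))
        = bern u R (fun K => Real.log (p i + ∑ k ∈ insert c K, p k)) := by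
      refine bern_congr u R _ _ fun K hK => ?_
      rw [Finset.sum_insert (fun h => hiR (hK h)), Finset.sum_insert (fun h => hcR (hK h))]
      congr 1
      ring
    rw [e3]
    have e4 : bern u R (fun K => Real.log (p c + ∑ k ∈ K, p k))
        - bern u R (fun K => Real.log (p i + ∑ k ∈ K, p k))
        = bern u R (fun K => (fun t => Real.log (p c + t) - Real.log (p i + t))
            (0 + ∑ k ∈ K, p k)) := by
      unfold bern
      rw [← Finset.sum_sub_distrib]
      refine Finset.sum_congr rfl fun K _ => ?_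
      simp only [zero_add]
      ring
    have h5 := bern_concave_le u hu.1 hu.2 p _ (concave_log_sub (p c) (p i) hpc hci) R
      (fun k _ => hp k) 0 le_rfl
    rw [← e4] at h5
    simp only [zero_add] at h5
    have h6 := mul_le_mul_of_nonneg_left h5 (sub_nonneg.mpr hu.2)
    linarith

end Ent
end Pool.Agent.Lib.MP_6947cd_al
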