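import Pool.Agent.Lib.MP_6947cd_al.T.Kkt

/-!
Problem MP_6947cd_al (Chollet).  How much the row function loses when entries are removed.
-/

set_option autoImplicit false
open scoped Matrix
open Matrix Finset

namespace Pool.Agent.Lib.MP_6947cd_al
namespace Ent

variable {κ : Type} [Fintype κ] [DecidableEq κ]

/-- comparison integral -/
noncomputable def J (x Y : ℝ) : ℝ :=
  ∫ u in (0 : ℝ)..1, (1 - u) * (Real.log (1 + u * Y) - Real.log (x + u * Y))

lemma J_integrable (x Y : ℝ) (hx : 0 < x) (hY : 0 ≤ Y) : IntervalIntegrable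
    (fun u : ℝ => (1 - u) * (Real.log (1 + u * Y) - Real.log (x + u * Y)))
    MeasureTheory.volume 0 1 := by
  refine ContinuousOn.intervalIntegrable ?_
  rw [Set.uIcc_of_le zero_le_one]
  refine ContinuousOn.mul (by fun_prop) (ContinuousOn.sub ?_ ?_)
  · refine ContinuousOn.log (by fun_prop) fun u hu => ?_
    have := mul_nonneg hu.1 hY
    linarith
  · refine ContinuousOn.log (by fun_prop) fun u hu => ?_
    have := mul_nonneg hu.1 hY
    linarith

/-- `J ≥ (1/2) log (1/(x+Y))` -/
lemma J_ge (x Y : ℝ) (hx : 0 < x) (hY : 0 ≤ Y) : -(1 / 2 * Real.log (x + Y)) ≤ J x Y := by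
  have h1 : ∫ u in (0 : ℝ)..1, (1 - u) * (-Real.log (x + Y)) = -(1 / 2 * Real.log (x + Y)) := by
    have hI : ∫ u in (0 : ℝ)..1, (1 - u) = 1 / 2 := by
      rw [intervalIntegral.integral_sub (by simp) (by simp), integral_id,
        intervalIntegral.integral_const]
      norm_num
    rw [intervalIntegral.integral_mul_const, hI]
    ring
  rw [← h1]
  refine intervalIntegral.integral_mono_on zero_le_one
    (Continuous.intervalIntegrable (by fun_prop) _ _) (J_integrable x Y hx hY) fun u hu => ?_
  refine mul_le_mul_of_nonneg_left ?_ (sub_nonneg.mpr hu.2)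
  have hu0 := mul_nonneg hu.1 hY
  have h2 : Real.log (x + u * Y) ≤ Real.log ((1 + u * Y) * (x + Y)) := by
    refine Real.log_le_log (by linarith) ?_
    have h3 : u * Y ≤ Y := mul_le_of_le_one_left hY hu.2
    have h4 : 0 ≤ u * Y * (x + Y) := mul_nonneg hu0 (by linarith)
    nlinarith
  rw [Real.log_mul (by linarith) (by linarith)] at h2
  linarith

/-- The good maximiser: mass of an entry against its size. -/
theorem mass_le (b p : κ → ℝ) (hp : p ∈ adm b) (hv : val b p = F b) (i c : κ) (hic : i ≠ c)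
    (hi : b i = 1) (hb0 : ∀ j, 0 ≤ b j) (hpi : 0 < p i) (hmax : ∀ j, p j ≤ p i) (hpc : 0 < p c) :
    ∃ Y : ℝ, 0 ≤ Y ∧ 1 / p i = 1 + p c / p i + Y ∧
      p c / p i * Real.exp (J (p c / p i) Y) ≤ b c := by
  set P := ∑ k ∈ (Finset.univ.erase c).erase i, p k with hP
  have hP0 : 0 ≤ P := Finset.sum_nonneg fun k _ => hp.1 k
  have hsum : p c + (p i + P) = 1 := by
    rw [hP, Finset.add_sum_erase (Finset.univ.erase c) p
      (Finset.mem_erase.mpr ⟨hic, Finset.mem_univ i⟩),
      Finset.add_sum_erase Finset.univ p (Finset.mem_univ c)]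
    exact hp.2.1
  refine ⟨P / p i, div_nonneg hP0 hpi.le, ?_, ?_⟩
  · field_simp
    linarith
  · have hbc : 0 < b c := lt_of_le_of_ne (hb0 c) fun h => hpc.ne' (hp.2.2 c h.symm)
    have h1 := kkt b p hp hv i c hic hpi hpc
    have h2 := ell_sub_le p hp.1 i c hic hpc (hmax c)
    rw [← hP] at h2
    have h3 : ∫ u in (0 : ℝ)..1, (1 - u) * (Real.log (p c + u * P) - Real.log (p i + u * P))
        = -J (p c / p i) (P / p i) := by
      unfold J
      rw [← intervalIntegral.integral_neg]
      refine intervalIntegral.integral_congr fun u hu => ?_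
      rw [Set.uIcc_of_le zero_le_one] at hu
      have hu0 := mul_nonneg hu.1 hP0
      have e1 : p c / p i + u * (P / p i) = (p c + u * P) / p i := by field_simp
      have e2 : 1 + u * (P / p i) = (p i + u * P) / p i := by field_simp
      show (1 - u) * (Real.log (p c + u * P) - Real.log (p i + u * P))
        = -((1 - u) * (Real.log (1 + u * (P / p i)) - Real.log (p c / p i + u * (P / p i))))
      rw [e1, e2, Real.log_div (by linarith) hpi.ne', Real.log_div (by linarith) hpi.ne']
      ring
    rw [h3] at h2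
    rw [hi, Real.log_one] at h1
    have h4 : Real.log (p c / p i) + J (p c / p i) (P / p i) ≤ Real.log (b c) := by
      rw [Real.log_div hpc.ne' hpi.ne']
      linarith
    have h5 := Real.exp_le_exp.mpr h4
    rw [Real.exp_add, Real.exp_log (div_pos hpc hpi), Real.exp_log hbc] at h5
    exact h5

/-- total mass outside `i` at the good maximiser -/
theorem total_le (b p : κ → ℝ) (hp : p ∈ adm b) (hv : val b p = F b) (i : κ)
    (hi : b i = 1) (hb0 : ∀ j, 0 ≤ b j) (hpi : 0 < p i) (hmax : ∀ j, p j ≤ p i) :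
    1 / p i - 1 ≤ (∑ j ∈ Finset.univ.erase i, b j) ^ 2 := by
  set y := 1 / p i - 1 with hy
  have hle : p i ≤ 1 := by
    have := Finset.single_le_sum (fun k _ => hp.1 k) (Finset.mem_univ i)
    rw [hp.2.1] at this
    exact this
  have hy0 : 0 ≤ y := by
    rw [hy, sub_nonneg, le_div_iff₀ hpi]
    linarith
  have h1 : ∀ j ∈ Finset.univ.erase i, p j / p i ≤ b j * Real.sqrt y := by
    intro j hj
    have hij : i ≠ j := (Finset.ne_of_mem_erase hj).symm
    rcases eq_or_lt_of_le (hp.1 j) with h0 | h0
    · rw [← h0, zero_div]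
      exact mul_nonneg (hb0 j) (Real.sqrt_nonneg _)
    · obtain ⟨Y, hY, hY1, hY2⟩ := mass_le b p hp hv i j hij hi hb0 hpi hmax h0
      have hx : 0 < p j / p i := div_pos h0 hpi
      have hyy : p j / p i + Y = y := by rw [hy, hY1]; ring
      have h2 := J_ge (p j / p i) Y hx hY
      rw [hyy] at h2
      have hypos : 0 < y := by rw [← hyy]; linarith
      have h3 : Real.exp (-(1 / 2 * Real.log y)) = 1 / Real.sqrt y := by
        rw [Real.exp_neg, Real.sqrt_eq_rpow, Real.rpow_def_of_pos hypos, mul_comm (1 / 2),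
          one_div (Real.exp _)]
      have h4 := Real.exp_le_exp.mpr h2
      rw [h3] at h4
      have h5 : p j / p i * (1 / Real.sqrt y) ≤ b j :=
        (mul_le_mul_of_nonneg_left h4 hx.le).trans hY2
      have hs : 0 < Real.sqrt y := Real.sqrt_pos.mpr hypos
      rw [mul_one_div, div_le_iff₀ hs] at h5
      exact h5
  have h2 := Finset.sum_le_sum h1
  rw [← Finset.sum_div, ← Finset.sum_mul] at h2
  have h3 : ∑ k ∈ Finset.univ.erase i, p k = 1 - p i := by
    have := Finset.add_sum_erase Finset.univ p (Finset.mem_univ i)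
    rw [hp.2.1] at this
    linarith
  rw [h3] at h2
  have h4 : (1 - p i) / p i = y := by rw [hy, sub_div, div_self hpi.ne']
  rw [h4] at h2
  rcases eq_or_lt_of_le hy0 with h0 | h0
  · rw [← h0]; positivity
  · have hs : 0 < Real.sqrt y := Real.sqrt_pos.mpr h0
    have h5 : Real.sqrt y * Real.sqrt y = y := Real.mul_self_sqrt hy0
    have h6 : Real.sqrt y ≤ ∑ j ∈ Finset.univ.erase i, b j := by
      by_contra hcon
      push Not at hcon
      have := mul_lt_mul_of_pos_right hcon hs
      linarith
    calc y = Real.sqrt y ^ 2 := by rw [sq, h5]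
      _ ≤ _ := pow_le_pow_left₀ hs.le h6 2

/-- the hypothesis on the slope -/
def SlopeHyp (α β y0 : ℝ) : Prop := ∀ x Y : ℝ, 0 < x → x ≤ 1 → 0 ≤ Y → x + Y ≤ y0 →
  Real.exp (-J x Y) / (1 + x + Y) ≤ α + 2 * β * (x * Real.exp (J x Y))

/-- mass of an entry, in terms of its size -/
theorem mass_slope (b : κ → ℝ) (hb0 : ∀ j, 0 ≤ b j) (hb1 : ∀ j, b j ≤ 1) (i c : κ) (hic : i ≠ c)
    (hi : b i = 1) (α β y0 : ℝ) (hα : 0 ≤ α) (hβ : 0 ≤ β)
    (hy : (∑ j ∈ Finset.univ.erase i, b j) ^ 2 ≤ y0) (H : SlopeHyp α β y0) :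
    ∃ p ∈ adm b, val b p = F b ∧ p c ≤ b c * (α + 2 * β * b c) := by
  obtain ⟨p, hp, hv, hmax, hpi⟩ := exists_max b hb1 hb0 i hi
  refine ⟨p, hp, hv, ?_⟩
  have hbc := hb0 c
  rcases eq_or_lt_of_le (hp.1 c) with h0 | h0
  · rw [← h0]
    positivity
  obtain ⟨Y, hY, hY1, hY2⟩ := mass_le b p hp hv i c hic hi hb0 hpi hmax h0
  have ht := total_le b p hp hv i hi hb0 hpi hmax
  set x := p c / p i with hx
  have hx0 : 0 < x := div_pos h0 hpi
  have hx1 : x ≤ 1 := by rw [hx, div_le_one hpi]; exact hmax c
  have h1 := H x Y hx0 hx1 hY (by linarith)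
  have hpos : 0 < 1 + x + Y := by linarith
  have h2 : p c = x / (1 + x + Y) := by
    rw [← hY1, hx]
    field_simp
  set s := x * Real.exp (J x Y) with hs
  have hs0 : 0 < s := mul_pos hx0 (Real.exp_pos _)
  have h3 : x / (1 + x + Y) = s * (Real.exp (-J x Y) / (1 + x + Y)) := by
    rw [hs, Real.exp_neg]
    field_simp
  rw [h2, h3]
  calc s * (Real.exp (-J x Y) / (1 + x + Y)) ≤ s * (α + 2 * β * s) :=
        mul_le_mul_of_nonneg_left h1 hs0.le
    _ ≤ b c * (α + 2 * β * b c) := by
        refine mul_le_mul hY2 ?_ (by positivity) hbc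
        have := mul_le_mul_of_nonneg_left hY2 (show 0 ≤ 2 * β by positivity)
        linarith

/-- changing one entry -/
lemma val_update (b p : κ → ℝ) (c : κ) (s s' : ℝ) :
    val (Function.update b c s') p = val (Function.update b c s) p
      + p c * (Real.log s' - Real.log s) := by
  unfold val
  rw [← Finset.add_sum_erase _ _ (Finset.mem_univ c), ← Finset.add_sum_erase Finset.univ
    (fun j => p j * (Real.log (Function.update b c s j) - Real.log (p j) + ell Finset.univ p j))
    (Finset.mem_univ c)]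
  rw [Function.update_self, Function.update_self]
  have : ∑ x ∈ Finset.univ.erase c, p x * (Real.log (Function.update b c s' x) - Real.log (p x)
        + ell Finset.univ p x)
      = ∑ x ∈ Finset.univ.erase c, p x * (Real.log (Function.update b c s x) - Real.log (p x)
        + ell Finset.univ p x) := by
    refine Finset.sum_congr rfl fun x hx => ?_
    have hxc := Finset.ne_of_mem_erase hx
    rw [Function.update_of_ne hxc, Function.update_of_ne hxc]
  rw [this]
  ring

section Step
variable (b : κ → ℝ) (hb0 : ∀ j, 0 ≤ b j) (hb1 : ∀ j, b j ≤ 1) (i c : κ) (hic : i ≠ c)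
  (hi : b i = 1) (α β y0 : ℝ) (hα : 0 ≤ α) (hβ : 0 ≤ β)
  (hy : (∑ j ∈ Finset.univ.erase i, b j) ^ 2 ≤ y0) (H : SlopeHyp α β y0)

include hb0 hb1 hic hi hα hβ hy H

/-- the mass estimate along the path -/
lemma mass_path (s : ℝ) (hs0 : 0 ≤ s) (hs : s ≤ b c) :
    ∃ p ∈ adm (Function.update b c s), val (Function.update b c s) p = F (Function.update b c s) ∧
      p c ≤ s * (α + 2 * β * s) := by
  have h := mass_slope (Function.update b c s) ?_ ?_ i c hic ?_ α β y0 hα hβ ?_ H
  · simpa using h
  · intro j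
    by_cases hj : j = c
    · subst hj; simpa using hs0
    · rw [Function.update_of_ne hj]; exact hb0 j
  · intro j
    by_cases hj : j = c
    · subst hj
      rw [Function.update_self]
      exact hs.trans (hb1 _)
    · rw [Function.update_of_ne hj]; exact hb1 j
  · rw [Function.update_of_ne hic]; exact hi
  · refine le_trans (pow_le_pow_left₀ (Finset.sum_nonneg fun j _ => ?_)
      (Finset.sum_le_sum fun j _ => ?_) 2) hy
    · by_cases hj : j = c
      · subst hj; simpa using hs0
      · rw [Function.update_of_ne hj]; exact hb0 j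
    · by_cases hj : j = c
      · subst hj
        rw [Function.update_self]
        exact hs
      · rw [Function.update_of_ne hj]

lemma path_step (s s' : ℝ) (hs0 : 0 < s) (hss : s ≤ s') (hs : s' ≤ b c) :
    F (Function.update b c s') ≤ F (Function.update b c s)
      + s' * (α + 2 * β * s') * (Real.log s' - Real.log s) := by
  obtain ⟨p, hp, hv, hm⟩ := mass_path b hb0 hb1 i c hic hi α β y0 hα hβ hy H s' (by linarith) hs
  have hp' : p ∈ adm (Function.update b c s) := by
    refine ⟨hp.1, hp.2.1, fun j hj => hp.2.2 j ?_⟩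
    by_cases hjc : j = c
    · subst hjc
      rw [Function.update_self] at hj
      exact absurd hj hs0.ne'
    · rw [Function.update_of_ne hjc] at hj ⊢
      exact hj
  have h1 := val_le_F _ p hp'
  have h2 := val_update b p c s s'
  rw [hv] at h2
  have h3 : 0 ≤ Real.log s' - Real.log s := sub_nonneg.mpr (Real.log_le_log hs0 hss)
  have h4 := mul_le_mul_of_nonneg_right hm h3
  linarith

/-- the end of the path -/
lemma path_end (ε : ℝ) (hε : 0 < ε) : ∃ δ > 0, ∀ s : ℝ, 0 < s → s < δ → s ≤ b c →
    F (Function.update b c s) ≤ F (Function.update b c 0) + ε := by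
  have hcomp := isCompact_adm (Function.update b c 1)
  have huc := hcomp.uniformContinuousOn_of_continuous
    (continuous_val (Function.update b c 1)).continuousOn
  rw [Metric.uniformContinuousOn_iff] at huc
  obtain ⟨δ, hδ, huc⟩ := huc ε hε
  have hmm : 0 < α + 2 * β + 1 := by positivity
  refine ⟨min 1 (δ / (α + 2 * β + 1)), by positivity, fun s hs0 hsδ hsb => ?_⟩
  have hs1 : s < 1 := lt_of_lt_of_le hsδ (min_le_left _ _)
  have hs2 : s < δ / (α + 2 * β + 1) := lt_of_lt_of_le hsδ (min_le_right _ _)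
  rw [lt_div_iff₀ hmm] at hs2
  obtain ⟨p, hp, hv, hm⟩ := mass_path b hb0 hb1 i c hic hi α β y0 hα hβ hy H s hs0.le hsb
  have hpc0 := hp.1 c
  have hpcδ : p c < δ := by
    have h1 : α + 2 * β * s ≤ α + 2 * β * 1 := by
      have := mul_le_mul_of_nonneg_left hs1.le (show 0 ≤ 2 * β by positivity)
      linarith
    have h2 : s * (α + 2 * β * s) ≤ s * (α + 2 * β * 1) := mul_le_mul_of_nonneg_left h1 hs0.le
    nlinarith
  set q : κ → ℝ := Function.update (Function.update p c 0) i (p i + p c) with hq
  have qi : q i = p i + p c := by rw [hq, Function.update_self]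
  have qc : q c = 0 := by rw [hq, Function.update_of_ne (Ne.symm hic), Function.update_self]
  have qj : ∀ j, j ≠ i → j ≠ c → q j = p j := fun j h1 h2 => by
    rw [hq, Function.update_of_ne h1, Function.update_of_ne h2]
  have hq0 : ∀ j, 0 ≤ q j := by
    intro j
    by_cases h1 : j = i
    · rw [h1, qi]; exact add_nonneg (hp.1 i) hpc0
    · by_cases h2 : j = c
      · rw [h2, qc]
      · rw [qj j h1 h2]; exact hp.1 j
  have hsum : ∑ j, q j = 1 := by
    rw [← Finset.add_sum_erase _ _ (Finset.mem_univ c), ← Finset.add_sum_erase _ _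
      (Finset.mem_erase.mpr ⟨hic, Finset.mem_univ i⟩ : i ∈ Finset.univ.erase c), qc, qi]
    have h1 : ∑ x ∈ (Finset.univ.erase c).erase i, q x
        = ∑ x ∈ (Finset.univ.erase c).erase i, p x := by
      refine Finset.sum_congr rfl fun x hx => qj x (Finset.ne_of_mem_erase hx)
        (Finset.ne_of_mem_erase (Finset.mem_of_mem_erase hx))
    have h2 := hp.2.1
    rw [← Finset.add_sum_erase _ _ (Finset.mem_univ c), ← Finset.add_sum_erase _ _
      (Finset.mem_erase.mpr ⟨hic, Finset.mem_univ i⟩ : i ∈ Finset.univ.erase c)] at h2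
    rw [h1]
    linarith
  have hbz : ∀ j, j ≠ c → b j = 0 → p j = 0 := fun j hj h => hp.2.2 j (by
    rw [Function.update_of_ne hj]; exact h)
  have hq1 : q ∈ adm (Function.update b c 1) := by
    refine ⟨hq0, hsum, fun j hj => ?_⟩
    by_cases h2 : j = c
    · rw [h2, qc]
    · rw [Function.update_of_ne h2] at hj
      have h1 : j ≠ i := fun h => by rw [h, hi] at hj; exact one_ne_zero hj
      rw [qj j h1 h2]
      exact hbz j h2 hj
  have hqz : q ∈ adm (Function.update b c 0) := by
    refine ⟨hq0, hsum, fun j hj => ?_⟩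
    by_cases h2 : j = c
    · rw [h2, qc]
    · rw [Function.update_of_ne h2] at hj
      have h1 : j ≠ i := fun h => by rw [h, hi] at hj; exact one_ne_zero hj
      rw [qj j h1 h2]
      exact hbz j h2 hj
  have hp1 : p ∈ adm (Function.update b c 1) := by
    refine ⟨hp.1, hp.2.1, fun j hj => ?_⟩
    by_cases h2 : j = c
    · rw [h2, Function.update_self] at hj
      exact absurd hj one_ne_zero
    · rw [Function.update_of_ne h2] at hj
      exact hbz j h2 hj
  have hdist : dist p q < δ := by
    rw [dist_pi_lt_iff hδ]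
    intro j
    by_cases h1 : j = i
    · rw [h1, qi, Real.dist_eq, show p i - (p i + p c) = -p c by ring, abs_neg, abs_of_nonneg hpc0]
      exact hpcδ
    · by_cases h2 : j = c
      · rw [h2, qc, Real.dist_eq, sub_zero, abs_of_nonneg hpc0]
        exact hpcδ
      · rw [qj j h1 h2, dist_self]
        exact hδ
  have h5 := huc p hp1 q hq1 hdist
  rw [Real.dist_eq] at h5
  have h6 := (abs_lt.mp h5).2
  have h7 := val_update b p c s 1
  have h8 := val_update b q c 0 1
  have h9 := val_le_F _ q hqz
  rw [qc, zero_mul, add_zero] at h8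
  rw [hv, Real.log_one] at h7
  have h10 : 0 ≤ p c * (0 - Real.log s) :=
    mul_nonneg hpc0 (by have := Real.log_nonpos hs0.le hs1.le; linarith)
  linarith

/-- geometric path -/
lemma path_geom (t : ℝ) (ht0 : 0 < t) (ht1 : t < 1) (hc : 0 < b c) (m : ℕ) :
    F (Function.update b c (b c)) ≤ F (Function.update b c (b c * t ^ m))
      + (α * b c * (1 - t ^ m) / (1 - t) + 2 * β * (b c) ^ 2 * (1 - (t ^ 2) ^ m) / (1 - t ^ 2))
        * (-Real.log t) := by
  induction m with
  | zero => simp
  | succ m ih =>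
    have htm : 0 < t ^ m := pow_pos ht0 m
    have htm1 : t ^ m ≤ 1 := pow_le_one₀ ht0.le ht1.le
    have h1 := path_step b hb0 hb1 i c hic hi α β y0 hα hβ hy H (b c * t ^ (m + 1)) (b c * t ^ m)
      (by positivity) (by
        rw [pow_succ]
        have : t ^ m * t ≤ t ^ m := mul_le_of_le_one_right htm.le ht1.le
        exact mul_le_mul_of_nonneg_left this hc.le)
      (mul_le_of_le_one_right hc.le htm1)
    have h2 : Real.log (b c * t ^ m) - Real.log (b c * t ^ (m + 1)) = -Real.log t := by
      rw [Real.log_mul hc.ne' htm.ne', Real.log_mul hc.ne' (pow_pos ht0 _).ne', pow_succ,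
        Real.log_mul htm.ne' ht0.ne']
      ring
    rw [h2] at h1
    have h3 : 1 - t ≠ 0 := (sub_pos.mpr ht1).ne'
    have h4 : 1 - t ^ 2 ≠ 0 := by
      have : t ^ 2 < 1 := by nlinarith
      exact (sub_pos.mpr this).ne'
    have h5 : α * b c * (1 - t ^ (m + 1)) / (1 - t)
        + 2 * β * (b c) ^ 2 * (1 - (t ^ 2) ^ (m + 1)) / (1 - t ^ 2)
        = α * b c * (1 - t ^ m) / (1 - t) + 2 * β * (b c) ^ 2 * (1 - (t ^ 2) ^ m) / (1 - t ^ 2)
          + b c * t ^ m * (α + 2 * β * (b c * t ^ m)) := by
      field_simp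
      ring
    rw [h5]
    linarith

/-- removal of one entry, at the end of the path -/
lemma path_all (hc : 0 < b c) :
    F b ≤ F (Function.update b c 0) + (α * b c + β * (b c) ^ 2) := by
  have hbb : Function.update b c (b c) = b := Function.update_eq_self c b
  have hLB : ∀ t : ℝ, 0 < t → t < 1 → F b ≤ F (Function.update b c 0)
      + (α * b c / t + 2 * β * (b c) ^ 2 / (t * (1 + t))) := by
    intro t ht0 ht1
    refine le_of_forall_pos_le_add fun ε hε => ?_
    obtain ⟨δ, hδ, hend⟩ := path_end b hb0 hb1 i c hic hi α β y0 hα hβ hy H ε hε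
    obtain ⟨m, hm⟩ := exists_pow_lt_of_lt_one (show 0 < δ / b c from div_pos hδ hc) ht1
    rw [lt_div_iff₀ hc] at hm
    have h1 := path_geom b hb0 hb1 i c hic hi α β y0 hα hβ hy H t ht0 ht1 hc m
    have h2 := hend (b c * t ^ m) (by positivity) (by rw [mul_comm]; exact hm)
      (mul_le_of_le_one_right hc.le (pow_le_one₀ ht0.le ht1.le))
    rw [hbb] at h1
    have hL : -Real.log t ≤ (1 - t) / t := by
      have := Real.one_sub_inv_le_log_of_pos ht0
      have h3 : (1 - t) / t = t⁻¹ - 1 := by field_simp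
      rw [h3]
      linarith
    have h3 : 0 < 1 - t := sub_pos.mpr ht1
    have h4 : 0 < 1 - t ^ 2 := by nlinarith
    have hL0 : 0 ≤ -Real.log t := by have := Real.log_nonpos ht0.le ht1.le; linarith
    have h5 : α * b c * (1 - t ^ m) / (1 - t) + 2 * β * (b c) ^ 2 * (1 - (t ^ 2) ^ m) / (1 - t ^ 2)
        ≤ α * b c / (1 - t) + 2 * β * (b c) ^ 2 / (1 - t ^ 2) := by
      refine add_le_add (div_le_div_of_nonneg_right ?_ h3.le) (div_le_div_of_nonneg_right ?_ h4.le)
      · refine mul_le_of_le_one_right (by positivity) ?_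
        have := pow_pos ht0 m
        linarith
      · refine mul_le_of_le_one_right (by positivity) ?_
        have := pow_pos (pow_pos ht0 2) m
        linarith
    have h6 : (α * b c / (1 - t) + 2 * β * (b c) ^ 2 / (1 - t ^ 2)) * ((1 - t) / t)
        = α * b c / t + 2 * β * (b c) ^ 2 / (t * (1 + t)) := by
      have e : 1 - t ^ 2 = (1 - t) * (1 + t) := by ring
      rw [e]
      have : 1 + t ≠ 0 := by linarith
      field_simp
    have h7 : (α * b c * (1 - t ^ m) / (1 - t)
        + 2 * β * (b c) ^ 2 * (1 - (t ^ 2) ^ m) / (1 - t ^ 2)) * (-Real.log t)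
        ≤ (α * b c / (1 - t) + 2 * β * (b c) ^ 2 / (1 - t ^ 2)) * ((1 - t) / t) :=
      mul_le_mul h5 hL hL0 (by positivity)
    linarith
  have hcont : Filter.Tendsto (fun t : ℝ => F (Function.update b c 0)
      + (α * b c / t + 2 * β * (b c) ^ 2 / (t * (1 + t)))) (nhdsWithin 1 (Set.Iio 1))
      (nhds (F (Function.update b c 0) + (α * b c / 1 + 2 * β * (b c) ^ 2 / (1 * (1 + 1))))) := by
    refine Filter.Tendsto.mono_left ?_ nhdsWithin_le_nhds
    refine ContinuousAt.tendsto (f := fun t : ℝ => F (Function.update b c 0)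
      + (α * b c / t + 2 * β * (b c) ^ 2 / (t * (1 + t)))) ?_
    refine ContinuousAt.add continuousAt_const (ContinuousAt.add ?_ ?_)
    · exact ContinuousAt.div continuousAt_const continuousAt_id one_ne_zero
    · exact ContinuousAt.div continuousAt_const (by fun_prop) (by norm_num)
  have hfin := ge_of_tendsto hcont (b := F b) (by
    have : Set.Ioo (0 : ℝ) 1 ∈ nhdsWithin (1 : ℝ) (Set.Iio 1) :=
      Ioo_mem_nhdsLT zero_lt_one
    filter_upwards [this] with t ht
    exact hLB t ht.1 ht.2)
  have e : α * b c / 1 + 2 * β * (b c) ^ 2 / (1 * (1 + 1)) = α * b c + β * (b c) ^ 2 := by ring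
  rw [e] at hfin
  exact hfin

/-- LOSS, one entry -/
theorem F_update_le : F b ≤ F (Function.update b c 0) + (α * b c + β * (b c) ^ 2) := by
  rcases eq_or_lt_of_le (hb0 c) with h | h
  · have : Function.update b c 0 = b := by rw [h]; exact Function.update_eq_self c b
    rw [this, ← h]
    simp
  · exact path_all b hb0 hb1 i c hic hi α β y0 hα hβ hy H h

end Step

/-- the row restricted to the complement of `U` -/
def rest (b : κ → ℝ) (U : Finset κ) : κ → ℝ := fun j => if j ∈ U then 0 else b j

/-- LOSS LEMMA -/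
theorem F_rest_le (b : κ → ℝ) (hb0 : ∀ j, 0 ≤ b j) (hb1 : ∀ j, b j ≤ 1) (i : κ) (hi : b i = 1)
    (α β y0 : ℝ) (hα : 0 ≤ α) (hβ : 0 ≤ β)
    (hy : (∑ j ∈ Finset.univ.erase i, b j) ^ 2 ≤ y0) (H : SlopeHyp α β y0) (U : Finset κ) :
    i ∉ U → F b ≤ F (rest b U) + ∑ k ∈ U, (α * b k + β * (b k) ^ 2) := by
  induction U using Finset.induction_on with
  | empty =>
    intro _
    have : rest b ∅ = b := by funext j; simp [rest]
    rw [this]; simp
  | insert c U hc ih =>
    intro hiU
    rw [Finset.mem_insert, not_or] at hiU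
    have h1 := ih hiU.2
    have h2 := F_update_le (rest b U) (fun j => by unfold rest; split_ifs; exacts [le_rfl, hb0 j])
      (fun j => by unfold rest; split_ifs; exacts [zero_le_one, hb1 j]) i c hiU.1
      (by unfold rest; rw [if_neg hiU.2]; exact hi) α β y0 hα hβ
      (le_trans (pow_le_pow_left₀ (Finset.sum_nonneg fun j _ => by
          unfold rest; split_ifs; exacts [le_rfl, hb0 j])
        (Finset.sum_le_sum fun j _ => by
          unfold rest; split_ifs; exacts [hb0 j, le_rfl]) 2) hy) H
    have h3 : Function.update (rest b U) c 0 = rest b (insert c U) := by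
      funext j
      by_cases hj : j = c
      · subst hj; simp [rest]
      · rw [Function.update_of_ne hj]
        unfold rest
        simp [hj]
    have h4 : rest b U c = b c := by unfold rest; rw [if_neg hc]
    rw [h3, h4] at h2
    rw [Finset.sum_insert hc]
    linarith

end Ent
end Pool.Agent.Lib.MP_6947cd_al
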