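import Pool.Agent.Lib.MP_6947cd_al.T.Path

/-!
Problem MP_6947cd_al (Chollet).  The loss lemma for rich rows: if the row function is at least `f`
along the path, the mass of the diagonal is small and every entry is worth less.
-/

set_option autoImplicit false
open scoped Matrix
open Matrix Finset

namespace Pool.Agent.Lib.MP_6947cd_al
namespace Ent

variable {κ : Type} [Fintype κ] [DecidableEq κ]

/-- At the good maximiser all the entries carry the same value. -/
lemma F_eq_at (b p : κ → ℝ) (hp : p ∈ adm b) (hv : val b p = F b) (i : κ) (hpi : 0 < p i) :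
    F b = Real.log (b i) - Real.log (p i) + ell Finset.univ p i := by
  rw [← hv]
  unfold val
  calc ∑ j, p j * (Real.log (b j) - Real.log (p j) + ell Finset.univ p j)
      = ∑ j, p j * (Real.log (b i) - Real.log (p i) + ell Finset.univ p i) := by
        refine Finset.sum_congr rfl fun j _ => ?_
        rcases eq_or_lt_of_le (hp.1 j) with h0 | h0
        · rw [← h0, zero_mul, zero_mul]
        · by_cases hij : i = j
          · subst hij; rfl
          · rw [kkt b p hp hv i j hij hpi h0]
    _ = _ := by rw [← Finset.sum_mul, hp.2.1, one_mul]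

/-- The availability of the diagonal, all other masses merged continuously. -/
lemma ell_diag_le (p : κ → ℝ) (hp : ∀ j, 0 ≤ p j) (hs : ∑ j, p j = 1) (i : κ) (hpi : 0 < p i)
    (hlt : p i < 1) :
    (1 - p i) * ell Finset.univ p i ≤ -(1 - p i) - p i * Real.log (p i) := by
  set d := 1 - p i with hd
  have hd0 : 0 < d := by linarith
  have hR : ∑ k ∈ Finset.univ.erase i, p k = d := by
    have := Finset.add_sum_erase Finset.univ p (Finset.mem_univ i)
    rw [hs] at this
    linarith
  have hpos : ∀ u : ℝ, 0 ≤ u → 0 < p i + u * d := fun u hu => by positivity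
  have hcc : ConcaveOn ℝ (Set.Ici 0) fun t : ℝ => Real.log (p i + t) := by
    have h := strictConcaveOn_log_Ioi.concaveOn
    refine ⟨convex_Ici 0, fun x hx y hy a c ha hc hac => ?_⟩
    have h1 : p i + x ∈ Set.Ioi (0 : ℝ) := by
      have : (0 : ℝ) ≤ x := hx
      exact Set.mem_Ioi.mpr (by linarith)
    have h2 : p i + y ∈ Set.Ioi (0 : ℝ) := by
      have : (0 : ℝ) ≤ y := hy
      exact Set.mem_Ioi.mpr (by linarith)
    have h3 := h.2 h1 h2 ha hc hac
    simp only [smul_eq_mul] at h3 ⊢
    have e : a * (p i + x) + c * (p i + y) = p i + (a * x + c * y) := by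
      calc a * (p i + x) + c * (p i + y) = (a + c) * p i + (a * x + c * y) := by ring
        _ = _ := by rw [hac, one_mul]
    rw [e] at h3
    exact h3
  have h1 : ell Finset.univ p i ≤ ∫ u in (0 : ℝ)..1, Real.log (p i + u * d) := by
    rw [ell_eq _ p i (Finset.mem_univ i)]
    refine intervalIntegral.integral_mono_on zero_le_one
      ((cont_bern _ _).intervalIntegrable _ _) ?_ ?_
    · refine ContinuousOn.intervalIntegrable ?_
      rw [Set.uIcc_of_le zero_le_one]
      exact ContinuousOn.log (by fun_prop) fun u hu => (hpos u hu.1).ne'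
    · intro u hu
      have h2 := bern_concave_le u hu.1 hu.2 p _ hcc (Finset.univ.erase i)
        (fun k _ => hp k) 0 le_rfl
      simp only [zero_add] at h2
      rw [hR] at h2
      exact h2
  have h2 : ∫ u in (0 : ℝ)..1, Real.log (p i + u * d) = (-d - p i * Real.log (p i)) / d := by
    have hG : ∀ u ∈ Set.uIcc (0 : ℝ) 1, HasDerivAt
        (fun u : ℝ => ((p i + u * d) * Real.log (p i + u * d) - (p i + u * d)) / d)
        (Real.log (p i + u * d)) u := by
      intro u hu
      rw [Set.uIcc_of_le zero_le_one] at hu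
      have hp0 := hpos u hu.1
      have e1 : HasDerivAt (fun u : ℝ => p i + u * d) d u := by
        simpa using ((hasDerivAt_id u).mul_const d).const_add (p i)
      have := ((e1.mul (e1.log hp0.ne')).sub e1).div_const d
      refine this.congr_deriv ?_
      rw [mul_div_cancel₀ d hp0.ne', add_sub_cancel_right]
      field_simp
    rw [intervalIntegral.integral_eq_sub_of_hasDerivAt hG]
    · have e2 : p i + 1 * d = 1 := by rw [hd]; ring
      rw [e2, zero_mul, add_zero, Real.log_one]
      rw [← sub_div]
      congr 1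
      rw [hd]
      ring
    · refine ContinuousOn.intervalIntegrable ?_
      rw [Set.uIcc_of_le zero_le_one]
      exact ContinuousOn.log (by fun_prop) fun u hu => (hpos u hu.1).ne'
  rw [h2] at h1
  have h3 := mul_le_mul_of_nonneg_left h1 hd0.le
  have h4 : d * ((-d - p i * Real.log (p i)) / d) = -d - p i * Real.log (p i) := by
    field_simp
  rw [h4] at h3
  exact h3

/-- A rich row puts a small mass on the diagonal. -/
theorem rich_mass (b p : κ → ℝ) (hp : p ∈ adm b) (hv : val b p = F b) (i : κ) (hi : b i = 1)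
    (hpi : 0 < p i) :
    (F b + 1) * (1 / p i - 1) ≤ 1 / p i * Real.log (1 / p i) := by
  have hle : p i ≤ 1 := by
    have := Finset.single_le_sum (fun k _ => hp.1 k) (Finset.mem_univ i)
    rw [hp.2.1] at this
    exact this
  rcases eq_or_lt_of_le hle with h1 | h1
  · rw [h1]
    simp
  have h2 := ell_diag_le p hp.1 hp.2.1 i hpi h1
  have h3 := F_eq_at b p hp hv i hpi
  rw [hi, Real.log_one] at h3
  have h4 : 0 < 1 - p i := by linarith
  have h5 : (1 - p i) * F b ≤ -(1 - p i) - Real.log (p i) := by
    have : (1 - p i) * F b = -(1 - p i) * Real.log (p i) + (1 - p i) * ell Finset.univ p i := by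
      rw [h3]; ring
    rw [this]
    linarith
  rw [one_div, Real.log_inv]
  have e1 : (F b + 1) * ((p i)⁻¹ - 1) = ((1 - p i) * F b + (1 - p i)) / p i := by
    field_simp
  have e2 : (p i)⁻¹ * -Real.log (p i) = -Real.log (p i) / p i := by
    field_simp
  rw [e1, e2]
  exact div_le_div_of_nonneg_right (by linarith) hpi.le

/-- the slope hypothesis for rich rows -/
def RichHyp (α β f : ℝ) : Prop := ∀ x Y : ℝ, 0 < x → x ≤ 1 → 0 ≤ Y →
  (f + 1) * (x + Y) ≤ (1 + x + Y) * Real.log (1 + x + Y) →
  Real.exp (-J x Y) / (1 + x + Y) ≤ α + 2 * β * (x * Real.exp (J x Y))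

/-- mass of an entry of a rich row -/
theorem mass_rich (b : κ → ℝ) (hb0 : ∀ j, 0 ≤ b j) (hb1 : ∀ j, b j ≤ 1) (i c : κ) (hic : i ≠ c)
    (hi : b i = 1) (α β f : ℝ) (hα : 0 ≤ α) (hβ : 0 ≤ β) (hf : f ≤ F b) (H : RichHyp α β f) :
    ∃ p ∈ adm b, val b p = F b ∧ p c ≤ b c * (α + 2 * β * b c) := by
  obtain ⟨p, hp, hv, hmax, hpi⟩ := exists_max b hb1 hb0 i hi
  refine ⟨p, hp, hv, ?_⟩
  have hbc := hb0 c
  rcases eq_or_lt_of_le (hp.1 c) with h0 | h0
  · rw [← h0]
    positivity
  obtain ⟨Y, hY, hY1, hY2⟩ := mass_le b p hp hv i c hic hi hb0 hpi hmax h0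
  have ht := rich_mass b p hp hv i hi hpi
  set x := p c / p i with hx
  have hx0 : 0 < x := div_pos h0 hpi
  have hx1 : x ≤ 1 := by rw [hx, div_le_one hpi]; exact hmax c
  have h1 := H x Y hx0 hx1 hY (by
    rw [hY1] at ht
    have e : 1 + x + Y - 1 = x + Y := by ring
    rw [e] at ht
    refine le_trans ?_ ht
    exact mul_le_mul_of_nonneg_right (by linarith) (by linarith))
  have hpos : 0 < 1 + x + Y := by linarith
  have h2 : p c = x / (1 + x + Y) := by
    rw [← hY1, hx]
    field_simp
  set s := x * Real.exp (J x Y) with hs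
  have hs0 : 0 < s := mul_pos hx0 (Real.exp_pos _)
  have h3 : x / (1 + x + Y) = s * (Real.exp (-J x Y) / (1 + x + Y)) := by
    rw [hs, Real.exp_neg]
    field_simp
  rw [h2, h3]
  calc s * (Real.exp (-J x Y) / (1 + x + Y)) ≤ s * (α + 2 * β * s) :=
        mul_le_mul_of_nonneg_left h1 hs0.le
    _ ≤ b c * (α + 2 * β * b c) := by
        refine mul_le_mul hY2 ?_ (by positivity) hbc
        have := mul_le_mul_of_nonneg_left hY2 (show 0 ≤ 2 * β by positivity)
        linarith

/-- Path lemma, the masses along the path being known. -/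
theorem path_abs (b : κ → ℝ) (c : κ) (α β : ℝ) (hα : 0 ≤ α) (hβ : 0 ≤ β) (s : ℝ) (hs0 : 0 < s)
    (hs : s < b c)
    (M : ∀ r, s ≤ r → r ≤ b c → ∃ p ∈ adm (Function.update b c r),
      val (Function.update b c r) p = F (Function.update b c r) ∧ p c ≤ r * (α + 2 * β * r)) :
    F b ≤ F (Function.update b c s) + (α * (b c - s) + β * ((b c) ^ 2 - s ^ 2)) := by
  have hc : 0 < b c := hs0.trans hs
  have hstep : ∀ r r' : ℝ, s ≤ r → r ≤ r' → r' ≤ b c →
      F (Function.update b c r') ≤ F (Function.update b c r)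
        + r' * (α + 2 * β * r') * (Real.log r' - Real.log r) := by
    intro r r' hr hrr hr'
    have hr0 : 0 < r := hs0.trans_le hr
    obtain ⟨p, hp, hv, hm⟩ := M r' (hr.trans hrr) hr'
    have hp' : p ∈ adm (Function.update b c r) := by
      refine ⟨hp.1, hp.2.1, fun j hj => hp.2.2 j ?_⟩
      by_cases hjc : j = c
      · subst hjc
        rw [Function.update_self] at hj
        exact absurd hj hr0.ne'
      · rw [Function.update_of_ne hjc] at hj ⊢
        exact hj
    have h1 := val_le_F _ p hp'
    have h2 := val_update b p c r r'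
    rw [hv] at h2
    have h3 : 0 ≤ Real.log r' - Real.log r := sub_nonneg.mpr (Real.log_le_log hr0 hrr)
    have h4 := mul_le_mul_of_nonneg_right hm h3
    linarith
  have hgeom : ∀ t : ℝ, 0 < t → t < 1 → ∀ m : ℕ, s ≤ b c * t ^ m →
      F (Function.update b c (b c)) ≤ F (Function.update b c (b c * t ^ m))
      + (α * b c * (1 - t ^ m) / (1 - t) + 2 * β * (b c) ^ 2 * (1 - (t ^ 2) ^ m) / (1 - t ^ 2))
        * (-Real.log t) := by
    intro t ht0 ht1 m
    induction m with
    | zero => intro _; simp
    | succ m ih =>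
      intro hsm
      have htm : 0 < t ^ m := pow_pos ht0 m
      have htm1 : t ^ m ≤ 1 := pow_le_one₀ ht0.le ht1.le
      have hdec : b c * t ^ (m + 1) ≤ b c * t ^ m := by
        rw [pow_succ]
        have : t ^ m * t ≤ t ^ m := mul_le_of_le_one_right htm.le ht1.le
        exact mul_le_mul_of_nonneg_left this hc.le
      have ih' := ih (hsm.trans hdec)
      have h1 := hstep (b c * t ^ (m + 1)) (b c * t ^ m) hsm hdec
        (mul_le_of_le_one_right hc.le htm1)
      have h2 : Real.log (b c * t ^ m) - Real.log (b c * t ^ (m + 1)) = -Real.log t := by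
        rw [Real.log_mul hc.ne' htm.ne', Real.log_mul hc.ne' (pow_pos ht0 _).ne', pow_succ,
          Real.log_mul htm.ne' ht0.ne']
        ring
      rw [h2] at h1
      have h3 : 1 - t ≠ 0 := (sub_pos.mpr ht1).ne'
      have h4 : 1 - t ^ 2 ≠ 0 := by
        have : t ^ 2 < 1 := by nlinarith
        exact (sub_pos.mpr this).ne'
      have h5 : α * b c * (1 - t ^ (m + 1)) / (1 - t)
          + 2 * β * (b c) ^ 2 * (1 - (t ^ 2) ^ (m + 1)) / (1 - t ^ 2)
          = α * b c * (1 - t ^ m) / (1 - t) + 2 * β * (b c) ^ 2 * (1 - (t ^ 2) ^ m) / (1 - t ^ 2)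
            + b c * t ^ m * (α + 2 * β * (b c * t ^ m)) := by
        field_simp
        ring
      rw [h5]
      linarith
  set q : ℝ := s / b c with hq
  have hq0 : 0 < q := div_pos hs0 hc
  have hq1 : q < 1 := (div_lt_one hc).mpr hs
  have hbq : b c * q = s := by rw [hq]; field_simp
  have hm : ∀ m : ℕ, F b ≤ F (Function.update b c s) +
      (α * (b c - s) / q ^ (1 / ((m : ℝ) + 1)) + 2 * β * ((b c) ^ 2 - s ^ 2)
        / (q ^ (1 / ((m : ℝ) + 1)) * (1 + q ^ (1 / ((m : ℝ) + 1))))) := by
    intro m
    set t : ℝ := q ^ (1 / ((m : ℝ) + 1)) with ht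
    have hm0 : (0 : ℝ) < (m : ℝ) + 1 := by positivity
    have ht0 : 0 < t := Real.rpow_pos_of_pos hq0 _
    have ht1 : t < 1 := Real.rpow_lt_one hq0.le hq1 (by positivity)
    have htm : t ^ (m + 1) = q := by
      rw [ht, ← Real.rpow_natCast, ← Real.rpow_mul hq0.le]
      push_cast
      rw [one_div, inv_mul_cancel₀ hm0.ne', Real.rpow_one]
    have h1 := hgeom t ht0 ht1 (m + 1) (by rw [htm, hbq])
    rw [Function.update_eq_self, ← pow_mul, mul_comm 2 (m + 1), pow_mul, htm, hbq] at h1
    have hL : -Real.log t ≤ (1 - t) / t := by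
      have := Real.one_sub_inv_le_log_of_pos ht0
      have h3 : (1 - t) / t = t⁻¹ - 1 := by field_simp
      rw [h3]
      linarith
    have h3 : 0 < 1 - t := sub_pos.mpr ht1
    have h4 : 0 < 1 - t ^ 2 := by nlinarith
    have h5 : 0 ≤ α * b c * (1 - q) / (1 - t) + 2 * β * (b c) ^ 2 * (1 - q ^ 2) / (1 - t ^ 2) := by
      have e1 : 0 ≤ 1 - q := by linarith
      have e2 : 0 ≤ 1 - q ^ 2 := by nlinarith
      positivity
    have h6 : (α * b c * (1 - q) / (1 - t) + 2 * β * (b c) ^ 2 * (1 - q ^ 2) / (1 - t ^ 2))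
        * ((1 - t) / t) = α * (b c - s) / t + 2 * β * ((b c) ^ 2 - s ^ 2) / (t * (1 + t)) := by
      rw [← hbq]
      have e : 1 - t ^ 2 = (1 - t) * (1 + t) := by ring
      rw [e]
      have : 1 + t ≠ 0 := by linarith
      field_simp
    have h7 := mul_le_mul_of_nonneg_left hL h5
    rw [h6] at h7
    linarith
  have hlim : Filter.Tendsto (fun m : ℕ => q ^ (1 / ((m : ℝ) + 1))) Filter.atTop (nhds 1) := by
    have h1 : Filter.Tendsto (fun m : ℕ => 1 / ((m : ℝ) + 1)) Filter.atTop (nhds 0) :=
      tendsto_one_div_add_atTop_nhds_zero_nat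
    have h2 := (Real.continuousAt_const_rpow (a := q) (b := 0) hq0.ne').tendsto.comp h1
    rw [Real.rpow_zero] at h2
    exact h2
  have hlim2 : Filter.Tendsto (fun m : ℕ => F (Function.update b c s) +
      (α * (b c - s) / q ^ (1 / ((m : ℝ) + 1)) + 2 * β * ((b c) ^ 2 - s ^ 2)
        / (q ^ (1 / ((m : ℝ) + 1)) * (1 + q ^ (1 / ((m : ℝ) + 1)))))) Filter.atTop
      (nhds (F (Function.update b c s) + (α * (b c - s) / 1 + 2 * β * ((b c) ^ 2 - s ^ 2)
        / (1 * (1 + 1))))) := by
    refine tendsto_const_nhds.add (Filter.Tendsto.add ?_ ?_)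
    · exact tendsto_const_nhds.div hlim one_ne_zero
    · exact tendsto_const_nhds.div (hlim.mul (tendsto_const_nhds.add hlim)) (by norm_num)
  have hfin := ge_of_tendsto' hlim2 hm
  refine hfin.trans (le_of_eq ?_)
  ring

/-- decreasing one entry of a row which stays rich -/
theorem F_update_rich (b : κ → ℝ) (hb0 : ∀ j, 0 ≤ b j) (hb1 : ∀ j, b j ≤ 1) (i c : κ)
    (hic : i ≠ c) (hi : b i = 1) (α β f : ℝ) (hα : 0 ≤ α) (hβ : 0 ≤ β) (H : RichHyp α β f)
    (s : ℝ) (hs0 : 0 ≤ s) (hs : s ≤ b c) (hf : f ≤ F (Function.update b c s)) :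
    F b ≤ F (Function.update b c s) + (α * (b c - s) + β * ((b c) ^ 2 - s ^ 2)) := by
  have hup0 : ∀ r : ℝ, 0 ≤ r → ∀ j, 0 ≤ Function.update b c r j := by
    intro r hr j
    by_cases hj : j = c
    · subst hj; simpa using hr
    · rw [Function.update_of_ne hj]; exact hb0 j
  have hup1 : ∀ r : ℝ, r ≤ b c → ∀ j, Function.update b c r j ≤ 1 := by
    intro r hr j
    by_cases hj : j = c
    · subst hj
      rw [Function.update_self]
      exact hr.trans (hb1 _)
    · rw [Function.update_of_ne hj]; exact hb1 j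
  have hmono : ∀ r r' : ℝ, 0 ≤ r → r ≤ r' →
      F (Function.update b c r) ≤ F (Function.update b c r') := by
    intro r r' hr hrr
    refine F_mono _ _ (hup0 r hr) (fun j => ?_) ⟨i, ?_⟩
    · by_cases hj : j = c
      · subst hj; simpa using hrr
      · rw [Function.update_of_ne hj, Function.update_of_ne hj]
    · rw [Function.update_of_ne hic, hi]
      exact one_ne_zero
  -- positive lower end
  have hpos : ∀ s' : ℝ, s ≤ s' → 0 < s' → s' ≤ b c →
      F b ≤ F (Function.update b c s') + (α * (b c - s') + β * ((b c) ^ 2 - s' ^ 2)) := by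
    intro s' hss hs'0 hs'
    rcases eq_or_lt_of_le hs' with h | h
    · rw [h, Function.update_eq_self]
      simp
    refine path_abs b c α β hα hβ s' hs'0 h fun r hr hr' => ?_
    have h1 := mass_rich (Function.update b c r) (hup0 r (hs0.trans (hss.trans hr)))
      (hup1 r hr') i c hic (by rw [Function.update_of_ne hic]; exact hi) α β f hα hβ
      (hf.trans (hmono s r hs0 (hss.trans hr))) H
    simpa using h1
  rcases eq_or_lt_of_le hs0 with h0 | h0
  · -- lower end zero
    subst h0
    rcases eq_or_lt_of_le hs with h1 | h1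
    · rw [h1, Function.update_eq_self]
      simp
    refine le_of_forall_pos_le_add fun ε hε => ?_
    obtain ⟨δ, hδ, hend⟩ := path_end b hb0 hb1 i c hic hi (43 / 200) (39 / 200) _ (by norm_num)
      (by norm_num) le_rfl (slopeHyp _) ε hε
    set r := min (δ / 2) (b c) with hr
    have hr0 : 0 < r := lt_min (by linarith) h1
    have hrδ : r < δ := lt_of_le_of_lt (min_le_left _ _) (by linarith)
    have hrb : r ≤ b c := min_le_right _ _
    have h2 := hpos r hr0.le hr0 hrb
    have h3 := hend r hr0 hrδ hrb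
    have h4 : α * (b c - r) ≤ α * (b c - 0) := mul_le_mul_of_nonneg_left (by linarith) hα
    have h5 : β * ((b c) ^ 2 - r ^ 2) ≤ β * ((b c) ^ 2 - 0 ^ 2) :=
      mul_le_mul_of_nonneg_left (by nlinarith) hβ
    linarith
  · exact hpos s le_rfl h0 hs

/-- RICH LOSS LEMMA: comparison of two rows, the lower one being rich. -/
theorem F_sub_le_rich (b b' : κ → ℝ) (hb'0 : ∀ j, 0 ≤ b' j) (hb' : ∀ j, b' j ≤ b j)
    (hb1 : ∀ j, b j ≤ 1) (i : κ) (hi' : b' i = 1) (α β f : ℝ) (hα : 0 ≤ α) (hβ : 0 ≤ β)
    (H : RichHyp α β f) (hf : f ≤ F b') :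
    F b ≤ F b' + ∑ k, ((α * b k + β * (b k) ^ 2) - (α * b' k + β * (b' k) ^ 2)) := by
  have hi : b i = 1 := le_antisymm (hb1 i) (by rw [← hi']; exact hb' i)
  have hb0 : ∀ j, 0 ≤ b j := fun j => (hb'0 j).trans (hb' j)
  have hne : ∃ j, b' j ≠ 0 := ⟨i, by rw [hi']; exact one_ne_zero⟩
  have hmain : ∀ U : Finset κ, F b ≤ F (mix b b' U) + ∑ k ∈ U, ((α * b k + β * (b k) ^ 2)
      - (α * b' k + β * (b' k) ^ 2)) := by
    intro U
    induction U using Finset.induction_on with
    | empty =>
      have : mix b b' ∅ = b := by funext j; simp [mix]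
      rw [this]; simp
    | insert c U hc ih =>
      rw [Finset.sum_insert hc]
      by_cases hic : i = c
      · subst hic
        have e : mix b b' (insert i U) = mix b b' U := by
          funext j
          unfold mix
          by_cases hj : j = i
          · subst hj
            rw [if_pos (Finset.mem_insert_self _ _), if_neg hc, hi', hi]
          · simp [hj]
        rw [e, hi', hi]
        linarith
      · have hmc : mix b b' U c = b c := by unfold mix; rw [if_neg hc]
        have e : Function.update (mix b b' U) c (b' c) = mix b b' (insert c U) := by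
          funext j
          by_cases hj : j = c
          · subst hj
            rw [Function.update_self]
            unfold mix
            rw [if_pos (Finset.mem_insert_self _ _)]
          · rw [Function.update_of_ne hj]
            unfold mix
            simp [hj]
        have hrich : f ≤ F (Function.update (mix b b' U) c (b' c)) := by
          rw [e]
          refine hf.trans (F_mono _ _ hb'0 (fun j => ?_) hne)
          unfold mix
          split_ifs
          · exact le_rfl
          · exact hb' j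
        have h1 := F_update_rich (mix b b' U)
          (fun j => by unfold mix; split_ifs; exacts [hb'0 j, hb0 j])
          (fun j => by
            unfold mix
            split_ifs
            · exact (hb' j).trans (hb1 j)
            · exact hb1 j) i c hic (by unfold mix; split_ifs; exacts [hi', hi]) α β f hα hβ H
          (b' c) (hb'0 c) (by rw [hmc]; exact hb' c) hrich
        rw [e, hmc] at h1
        linarith
  have h := hmain Finset.univ
  have e : mix b b' Finset.univ = b' := by funext j; simp [mix]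
  rwa [e] at h

end Ent
end Pool.Agent.Lib.MP_6947cd_al
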