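import Pool.Agent.Lib.MP_6947cd_al.T.Val

/-!
Problem MP_6947cd_al (Chollet).  Explicit upper bounds for the row function `F`: a set of special entries is kept
exact, the other entries are only known through their sum and an upper bound; the integrals are replaced by finite
sums (Jensen on cells).
-/

set_option autoImplicit false
open scoped Matrix
open Matrix Finset

namespace Pool.Agent.Lib.MP_6947cd_al
namespace Ent

variable {κ : Type} [Fintype κ] [DecidableEq κ]

/-- Row bound, integral form. -/
theorem F_le_split (b x : κ → ℝ) (hb0 : ∀ j, 0 ≤ b j) (hb : ∃ j, b j ≠ 0) (H : Finset κ)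
    (hxH : ∀ j ∈ H, 0 < x j) (c m y V : ℝ) (hc : 0 < c) (hxR : ∀ k, k ∉ H → x k = c * b k)
    (hm : ∀ k, k ∉ H → b k ≤ m) (hy : c * ∑ k ∈ Hᶜ, b k ≤ y)
    (hVH : ∀ j ∈ H, b j ≠ 0 → Real.log (b j) - Real.log (x j) + ∫ u in (0 : ℝ)..1,
      bern u (H.erase j) (fun K => Real.log (x j + ∑ k ∈ K, x k + u * y)) ≤ V)
    (hVR : (∃ k, k ∉ H ∧ b k ≠ 0) → -Real.log c + ∫ u in (0 : ℝ)..1,
      bern u H (fun K => Real.log (c * m + ∑ k ∈ K, x k + u * (y - c * m))) ≤ V) :
    F b ≤ V := by
  have hx0 : ∀ j, 0 ≤ x j := by
    intro j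
    by_cases hj : j ∈ H
    · exact (hxH j hj).le
    · rw [hxR j hj]; exact mul_nonneg hc.le (hb0 j)
  have hsum : ∑ k ∈ Hᶜ, x k = c * ∑ k ∈ Hᶜ, b k := by
    rw [Finset.mul_sum]
    exact Finset.sum_congr rfl fun k hk => hxR k (Finset.mem_compl.mp hk)
  have hy' : ∑ k ∈ Hᶜ, x k ≤ y := by rw [hsum]; exact hy
  have hyy0 : 0 ≤ ∑ k ∈ Hᶜ, x k := Finset.sum_nonneg fun k _ => hx0 k
  refine F_le_of_cert b x V hb hx0 ?_ ?_
  · intro j hj
    by_cases hjH : j ∈ H
    · exact hxH j hjH
    · rw [hxR j hjH]
      exact mul_pos hc (lt_of_le_of_ne (hb0 j) (Ne.symm hj))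
  · intro j hj
    by_cases hjH : j ∈ H
    · refine le_trans (add_le_add le_rfl ?_) (hVH j hjH hj)
      have hd : Disjoint (H.erase j) Hᶜ := by
        rw [Finset.disjoint_left]
        intro a ha ha'
        exact (Finset.mem_compl.mp ha') (Finset.mem_of_mem_erase ha)
      have hu : H.erase j ∪ Hᶜ = (Finset.univ : Finset κ).erase j := by
        ext a
        simp only [Finset.mem_union, Finset.mem_erase, Finset.mem_compl, Finset.mem_univ, and_true]
        constructor
        · rintro (⟨h1, _⟩ | h1)
          · exact h1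
          · rintro rfl; exact h1 hjH
        · intro h1
          by_cases haH : a ∈ H
          · exact Or.inl ⟨h1, haH⟩
          · exact Or.inr haH
      refine (ell_le_split Finset.univ x j (Finset.mem_univ j) (fun k _ => hx0 k) (hxH j hjH)
        (H.erase j) Hᶜ hd hu).trans ?_
      refine intervalIntegral.integral_mono_on zero_le_one ?_ ?_ ?_
      · refine ContinuousOn.intervalIntegrable ?_
        refine contOn_bern _ _ _ fun K hK => ?_
        refine ContinuousOn.log (by fun_prop) fun u hu => ?_
        rw [Set.uIcc_of_le zero_le_one] at hu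
        have h1 : 0 ≤ ∑ k ∈ K, x k := Finset.sum_nonneg fun k _ => hx0 k
        have h2 := mul_nonneg hu.1 hyy0
        have h3 := hxH j hjH
        linarith
      · refine ContinuousOn.intervalIntegrable ?_
        refine contOn_bern _ _ _ fun K hK => ?_
        refine ContinuousOn.log (by fun_prop) fun u hu => ?_
        rw [Set.uIcc_of_le zero_le_one] at hu
        have h1 : 0 ≤ ∑ k ∈ K, x k := Finset.sum_nonneg fun k _ => hx0 k
        have h2 := mul_nonneg hu.1 (hyy0.trans hy')
        have h3 := hxH j hjH
        linarith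
      · intro u hu
        refine bern_mono u hu.1 hu.2 _ _ _ fun K hK => ?_
        have h1 : 0 ≤ ∑ k ∈ K, x k := Finset.sum_nonneg fun k _ => hx0 k
        have h2 := mul_nonneg hu.1 hyy0
        have h3 := hxH j hjH
        refine Real.log_le_log (by linarith) ?_
        have := mul_le_mul_of_nonneg_left hy' hu.1
        linarith
    · have hbj : 0 < b j := lt_of_le_of_ne (hb0 j) (Ne.symm hj)
      have hxj : x j = c * b j := hxR j hjH
      have hxj0 : 0 < x j := by rw [hxj]; exact mul_pos hc hbj
      have hm0 : 0 < m := lt_of_lt_of_le hbj (hm j hjH)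
      refine le_trans ?_ (hVR ⟨j, hjH, hj⟩)
      have e1 : Real.log (b j) - Real.log (x j) = -Real.log c := by
        rw [hxj, Real.log_mul hc.ne' hbj.ne']; ring
      rw [e1]
      refine add_le_add le_rfl ?_
      have hjc : j ∈ Hᶜ := Finset.mem_compl.mpr hjH
      have hd : Disjoint H (Hᶜ.erase j) := by
        rw [Finset.disjoint_left]
        intro a ha ha'
        exact (Finset.mem_compl.mp (Finset.mem_of_mem_erase ha')) ha
      have hu : H ∪ Hᶜ.erase j = (Finset.univ : Finset κ).erase j := by
        ext a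
        simp only [Finset.mem_union, Finset.mem_erase, Finset.mem_compl, Finset.mem_univ, and_true]
        constructor
        · rintro (h1 | ⟨h1, _⟩)
          · rintro rfl; exact hjH h1
          · exact h1
        · intro h1
          by_cases haH : a ∈ H
          · exact Or.inl haH
          · exact Or.inr ⟨h1, haH⟩
      refine (ell_le_split Finset.univ x j (Finset.mem_univ j) (fun k _ => hx0 k) hxj0
        H (Hᶜ.erase j) hd hu).trans ?_
      have hR : ∑ k ∈ Hᶜ.erase j, x k = ∑ k ∈ Hᶜ, x k - x j := by
        rw [← Finset.add_sum_erase Hᶜ x hjc]; ring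
      have hR0 : 0 ≤ ∑ k ∈ Hᶜ.erase j, x k := Finset.sum_nonneg fun k _ => hx0 k
      have hcm : x j ≤ c * m := by rw [hxj]; exact mul_le_mul_of_nonneg_left (hm j hjH) hc.le
      have hxy : x j ≤ y := by
        have := Finset.single_le_sum (fun k _ => hx0 k) hjc
        linarith
      refine intervalIntegral.integral_mono_on zero_le_one ?_ ?_ ?_
      · refine ContinuousOn.intervalIntegrable ?_
        refine contOn_bern _ _ _ fun K hK => ?_
        refine ContinuousOn.log (by fun_prop) fun u hu => ?_
        rw [Set.uIcc_of_le zero_le_one] at hu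
        have h1 : 0 ≤ ∑ k ∈ K, x k := Finset.sum_nonneg fun k _ => hx0 k
        have h2 := mul_nonneg hu.1 hR0
        linarith
      · refine ContinuousOn.intervalIntegrable ?_
        refine contOn_bern _ _ _ fun K hK => ?_
        refine ContinuousOn.log (by fun_prop) fun u hu => ?_
        rw [Set.uIcc_of_le zero_le_one] at hu
        have h1 : 0 ≤ ∑ k ∈ K, x k := Finset.sum_nonneg fun k _ => hx0 k
        have h2 : 0 ≤ u * y := mul_nonneg hu.1 (hxj0.le.trans hxy)
        have h3 : 0 ≤ (1 - u) * (c * m) := mul_nonneg (sub_nonneg.mpr hu.2) (mul_pos hc hm0).le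
        have h4 : c * m + ∑ k ∈ K, x k + u * (y - c * m)
            = ∑ k ∈ K, x k + (u * y + (1 - u) * (c * m)) := by ring
        rw [h4]
        have h5 : 0 < u * y + (1 - u) * (c * m) := by
          rcases eq_or_lt_of_le hu.1 with h | h
          · rw [← h]; nlinarith [mul_pos hc hm0]
          · have := mul_pos h (lt_of_lt_of_le hxj0 hxy)
            linarith
        linarith
      · intro u hu
        refine bern_mono u hu.1 hu.2 _ _ _ fun K hK => ?_
        have h1 : 0 ≤ ∑ k ∈ K, x k := Finset.sum_nonneg fun k _ => hx0 k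
        have h2 := mul_nonneg hu.1 hR0
        refine Real.log_le_log (by linarith) ?_
        rw [hR]
        have h3 := mul_le_mul_of_nonneg_left hy' hu.1
        have h4 := mul_le_mul_of_nonneg_left hcm (sub_nonneg.mpr hu.2)
        nlinarith

end Ent
end Pool.Agent.Lib.MP_6947cd_al
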