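import Pool.Agent.Lib.MP_6947cd_al.T.RowBound
import Pool.Agent.Lib.Interval.AD

/-!
Problem MP_6947cd_al (Chollet).  The integrals of the row bound are replaced by finite sums (Jensen on the cells of
a subdivision of `[0,1]`), with rational weights computed exactly.
-/

set_option autoImplicit false
open Finset

namespace Pool.Agent.Lib.MP_6947cd_al
namespace Ent

/-- integral of `u ^ k * (1 - u) ^ l` over `[s, t]` -/
def Wq (k : ℕ) : ℕ → ℚ → ℚ → ℚ
  | 0, s, t => (t ^ (k + 1) - s ^ (k + 1)) / ((k + 1 : ℕ) : ℚ)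
  | l + 1, s, t => Wq k l s t - Wq (k + 1) l s t

lemma Wq_eq (k l : ℕ) (s t : ℚ) :
    ((Wq k l s t : ℚ) : ℝ) = ∫ u in (s : ℝ)..(t : ℝ), u ^ k * (1 - u) ^ l := by
  induction l generalizing k with
  | zero =>
    simp only [Wq, pow_zero, mul_one]
    rw [integral_pow]
    push_cast
    ring
  | succ l ih =>
    have h1 : IntervalIntegrable (fun u : ℝ => u ^ k * (1 - u) ^ l) MeasureTheory.volume
        (s : ℝ) (t : ℝ) := Continuous.intervalIntegrable (by fun_prop) _ _
    have h2 : IntervalIntegrable (fun u : ℝ => u ^ (k + 1) * (1 - u) ^ l) MeasureTheory.volume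
        (s : ℝ) (t : ℝ) := Continuous.intervalIntegrable (by fun_prop) _ _
    simp only [Wq]
    push_cast
    rw [ih k, ih (k + 1), ← intervalIntegral.integral_sub h1 h2]
    refine intervalIntegral.integral_congr fun u _ => ?_
    show u ^ k * (1 - u) ^ l - u ^ (k + 1) * (1 - u) ^ l = u ^ k * (1 - u) ^ (l + 1)
    ring

/-- cells: mass and centroid -/
def cellsF (k l : ℕ) : ℚ → List ℚ → List (ℚ × ℚ)
  | _, [] => []
  | s, t :: bps => (Wq k l s t, Wq (k + 1) l s t / Wq k l s t) :: cellsF k l t bps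

/-- finite sum of logarithms over the cells -/
noncomputable def csum (C : List (ℚ × ℚ)) (a Y : ℝ) : ℝ :=
  (C.map fun p => (p.1 : ℝ) * Real.log (a + Y * (p.2 : ℝ))).sum

/-- one cell -/
lemma cell_log_le (k l : ℕ) (s t : ℚ) (hs : 0 ≤ s) (hst : s < t) (ht : t ≤ 1) (a Y : ℝ) (ha : 0 < a)
    (hY : 0 ≤ Y) :
    ∫ u in (s : ℝ)..(t : ℝ), u ^ k * (1 - u) ^ l * Real.log (a + u * Y)
      ≤ (Wq k l s t : ℝ) * Real.log (a + Y * ((Wq (k + 1) l s t / Wq k l s t : ℚ) : ℝ)) := by
  have hsR : (0 : ℝ) ≤ s := by exact_mod_cast hs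
  have hstR : (s : ℝ) < t := by exact_mod_cast hst
  have htR : (t : ℝ) ≤ 1 := by exact_mod_cast ht
  have hw : ∀ u ∈ Set.Icc (s : ℝ) t, 0 ≤ u ^ k * (1 - u) ^ l := fun u hu =>
    mul_nonneg (pow_nonneg (hsR.trans hu.1) _) (pow_nonneg (by linarith [hu.2]) _)
  have hcont : Continuous fun u : ℝ => u ^ k * (1 - u) ^ l := by fun_prop
  have hW : (0 : ℝ) < (Wq k l s t : ℝ) := by
    rw [Wq_eq]
    refine intervalIntegral.intervalIntegral_pos_of_pos_on (hcont.intervalIntegrable _ _) ?_ hstR
    intro u hu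
    have h1 : 0 < u := lt_of_le_of_lt hsR hu.1
    have h2 : 0 < 1 - u := by linarith [hu.2]
    positivity
  have hU : (0 : ℝ) ≤ (Wq (k + 1) l s t : ℝ) := by
    rw [Wq_eq]
    refine intervalIntegral.integral_nonneg hstR.le fun u hu => ?_
    exact mul_nonneg (pow_nonneg (hsR.trans hu.1) _) (pow_nonneg (by linarith [hu.2]) _)
  set c : ℝ := ((Wq (k + 1) l s t / Wq k l s t : ℚ) : ℝ) with hc
  have hcU : c * (Wq k l s t : ℝ) = (Wq (k + 1) l s t : ℝ) := by
    rw [hc]; push_cast; field_simp
  have hc0 : 0 ≤ c := by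
    rw [hc]; push_cast; exact div_nonneg hU hW.le
  have hpos : 0 < a + Y * c := by have := mul_nonneg hY hc0; linarith
  have key : ∀ u ∈ Set.Icc (s : ℝ) t, u ^ k * (1 - u) ^ l * Real.log (a + u * Y)
      ≤ (Real.log (a + Y * c) - Y * c / (a + Y * c)) * (u ^ k * (1 - u) ^ l)
        + Y / (a + Y * c) * (u ^ (k + 1) * (1 - u) ^ l) := by
    intro u hu
    have hu0 : 0 ≤ u := hsR.trans hu.1
    have h1 : 0 < a + u * Y := by have := mul_nonneg hu0 hY; linarith
    have h2 : Real.log (a + u * Y) ≤ Real.log (a + Y * c) + (a + u * Y) / (a + Y * c) - 1 := by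
      have h3 := Real.log_le_sub_one_of_pos (div_pos h1 hpos)
      rw [Real.log_div h1.ne' hpos.ne'] at h3
      linarith
    have h4 := mul_le_mul_of_nonneg_left h2 (hw u hu)
    refine h4.trans (le_of_eq ?_)
    field_simp
    ring
  have i1 : IntervalIntegrable (fun u : ℝ => u ^ k * (1 - u) ^ l * Real.log (a + u * Y))
      MeasureTheory.volume (s : ℝ) (t : ℝ) := by
    refine ContinuousOn.intervalIntegrable ?_
    refine ContinuousOn.mul (by fun_prop) (ContinuousOn.log (by fun_prop) fun u hu => ?_)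
    rw [Set.uIcc_of_le hstR.le] at hu
    have := mul_nonneg (hsR.trans hu.1) hY
    linarith
  have h2 : IntervalIntegrable (fun u : ℝ => u ^ (k + 1) * (1 - u) ^ l) MeasureTheory.volume
      (s : ℝ) (t : ℝ) := Continuous.intervalIntegrable (by fun_prop) _ _
  refine (intervalIntegral.integral_mono_on hstR.le i1
    (((hcont.intervalIntegrable _ _).const_mul _).add (h2.const_mul _)) key).trans ?_
  rw [intervalIntegral.integral_add ((hcont.intervalIntegrable _ _).const_mul _) (h2.const_mul _),
    intervalIntegral.integral_const_mul, intervalIntegral.integral_const_mul, ← Wq_eq, ← Wq_eq, ← hcU]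
  refine le_of_eq ?_
  field_simp
  ring

/-- increasing break points from `s` to `1` -/
def goodB : ℚ → List ℚ → Bool
  | s, [] => decide (s = 1)
  | s, t :: bps => decide (s < t) && goodB t bps

lemma goodB_le (s : ℚ) (bps : List ℚ) (h : goodB s bps = true) : s ≤ 1 := by
  induction bps generalizing s with
  | nil => simp only [goodB, decide_eq_true_eq] at h; exact h.le
  | cons t bps ih =>
    simp only [goodB, Bool.and_eq_true, decide_eq_true_eq] at h
    exact h.1.le.trans (ih t h.2)

lemma csum_le_aux (k l : ℕ) (bps : List ℚ) (s : ℚ) (hs : 0 ≤ s) (h : goodB s bps = true) (a Y : ℝ)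
    (ha : 0 < a) (hY : 0 ≤ Y) :
    ∫ u in (s : ℝ)..1, u ^ k * (1 - u) ^ l * Real.log (a + u * Y) ≤ csum (cellsF k l s bps) a Y := by
  induction bps generalizing s with
  | nil =>
    simp only [goodB, decide_eq_true_eq] at h
    simp [h, csum, cellsF]
  | cons t bps ih =>
    simp only [goodB, Bool.and_eq_true, decide_eq_true_eq] at h
    have ht1 := goodB_le t bps h.2
    have hsR : (0 : ℝ) ≤ s := by exact_mod_cast hs
    have hstR : (s : ℝ) < t := by exact_mod_cast h.1
    have htR : (t : ℝ) ≤ 1 := by exact_mod_cast ht1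
    have hint : ∀ p q : ℝ, 0 ≤ p → p ≤ q → IntervalIntegrable
        (fun u : ℝ => u ^ k * (1 - u) ^ l * Real.log (a + u * Y)) MeasureTheory.volume p q := by
      intro p q hp hpq
      refine ContinuousOn.intervalIntegrable ?_
      refine ContinuousOn.mul (by fun_prop) (ContinuousOn.log (by fun_prop) fun u hu => ?_)
      rw [Set.uIcc_of_le hpq] at hu
      have := mul_nonneg (hp.trans hu.1) hY
      linarith
    rw [← intervalIntegral.integral_add_adjacent_intervals (hint s t hsR hstR.le)
      (hint t 1 (hsR.trans hstR.le) htR)]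
    have h1 := cell_log_le k l s t hs h.1 ht1 a Y ha hY
    have h2 := ih t (hs.trans h.1.le) h.2
    simp only [cellsF, csum, List.map_cons, List.sum_cons]
    exact add_le_add h1 h2

theorem csum_le (k l : ℕ) (bps : List ℚ) (h : goodB 0 bps = true) (a Y : ℝ)
    (ha : 0 < a) (hY : 0 ≤ Y) :
    ∫ u in (0 : ℝ)..1, u ^ k * (1 - u) ^ l * Real.log (a + u * Y) ≤ csum (cellsF k l 0 bps) a Y := by
  have := csum_le_aux k l bps 0 le_rfl h a Y ha hY
  rwa [Rat.cast_zero] at this

/-- expectation of `log (a + random jumps)`, every jump being present with probability `u` -/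
noncomputable def bl (u : ℝ) : List ℝ → ℝ → ℝ
  | [], a => Real.log a
  | z :: L, a => (1 - u) * bl u L a + u * bl u L (a + z)

/-- upper bound of `∫ u ^ k * (1 - u) ^ l * bl u L (a + u * Y)` -/
noncomputable def up (bps : List ℚ) : ℕ → ℕ → List ℝ → ℝ → ℝ → ℝ
  | k, l, [], a, Y => csum (cellsF k l 0 bps) a Y
  | k, l, z :: L, a, Y => up bps k (l + 1) L a Y + up bps (k + 1) l L (a + z) Y

lemma bl_contOn (L : List ℝ) (hL : ∀ z ∈ L, 0 ≤ z) (a Y : ℝ) (ha : 0 < a) (hY : 0 ≤ Y) :
    ContinuousOn (fun u : ℝ => bl u L (a + u * Y)) (Set.uIcc 0 1) := by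
  induction L generalizing a with
  | nil =>
    simp only [bl]
    refine ContinuousOn.log (by fun_prop) fun u hu => ?_
    rw [Set.uIcc_of_le zero_le_one] at hu
    have := mul_nonneg hu.1 hY
    linarith
  | cons z L ih =>
    simp only [bl]
    have hz := hL z (by simp)
    have hL' : ∀ w ∈ L, 0 ≤ w := fun w hw => hL w (by simp [hw])
    have h1 := ih hL' a ha
    have h2 := ih hL' (a + z) (by linarith)
    have e : (fun u : ℝ => bl u L (a + u * Y + z)) = fun u : ℝ => bl u L (a + z + u * Y) := by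
      funext u; rw [add_right_comm]
    refine ContinuousOn.add (ContinuousOn.mul (by fun_prop) h1) (ContinuousOn.mul (by fun_prop) ?_)
    rw [e]; exact h2

theorem bl_le_up (bps : List ℚ) (h : goodB 0 bps = true) (L : List ℝ) (hL : ∀ z ∈ L, 0 ≤ z)
    (k l : ℕ) (a Y : ℝ) (ha : 0 < a) (hY : 0 ≤ Y) :
    ∫ u in (0 : ℝ)..1, u ^ k * (1 - u) ^ l * bl u L (a + u * Y) ≤ up bps k l L a Y := by
  induction L generalizing k l a with
  | nil => exact csum_le k l bps h a Y ha hY
  | cons z L ih =>
    have hz := hL z (by simp)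
    have hL' : ∀ w ∈ L, 0 ≤ w := fun w hw => hL w (by simp [hw])
    have h1 := ih hL' k (l + 1) a ha
    have h2 := ih hL' (k + 1) l (a + z) (by linarith)
    simp only [up]
    refine le_trans (le_of_eq ?_) (add_le_add h1 h2)
    rw [← intervalIntegral.integral_add]
    · refine intervalIntegral.integral_congr fun u _ => ?_
      show u ^ k * (1 - u) ^ l * ((1 - u) * bl u L (a + u * Y) + u * bl u L (a + u * Y + z))
        = u ^ k * (1 - u) ^ (l + 1) * bl u L (a + u * Y)
          + u ^ (k + 1) * (1 - u) ^ l * bl u L (a + z + u * Y)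
      rw [add_right_comm a (u * Y) z]
      ring
    · exact ((continuous_id.pow k).mul ((continuous_const.sub continuous_id).pow (l + 1))).continuousOn.mul
        (bl_contOn L hL' a Y ha hY) |>.intervalIntegrable
    · exact ((continuous_id.pow (k + 1)).mul ((continuous_const.sub continuous_id).pow l)).continuousOn.mul
        (bl_contOn L hL' (a + z) Y (by linarith) hY) |>.intervalIntegrable

variable {κ : Type} [Fintype κ] [DecidableEq κ]

omit [Fintype κ] in
lemma bern_list (u : ℝ) (x : κ → ℝ) (L : List κ) (hL : L.Nodup) (A B : ℝ) :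
    bern u L.toFinset (fun K => Real.log (A + ∑ k ∈ K, x k + B)) = bl u (L.map x) (A + B) := by
  induction L generalizing A with
  | nil => simp [bern_empty, bl]
  | cons z L ih =>
    rw [List.nodup_cons] at hL
    have hz : z ∉ L.toFinset := by simpa using hL.1
    rw [List.toFinset_cons, bern_insert u z _ hz, ih hL.2 A]
    simp only [List.map_cons, bl]
    have e : bern u L.toFinset (fun K => Real.log (A + ∑ k ∈ insert z K, x k + B))
        = bern u L.toFinset (fun K => Real.log ((A + x z) + ∑ k ∈ K, x k + B)) := by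
      refine bern_congr u _ _ _ fun K hK => ?_
      rw [Finset.sum_insert (fun h => hz (hK h))]
      congr 1
      ring
    rw [e, ih hL.2 (A + x z), add_right_comm]

/-- The row bound with finite sums: `i` the diagonal, `L` the list of the special entries. -/
theorem F_le_up (b : κ → ℝ) (hb0 : ∀ j, 0 ≤ b j) (i : κ) (hi : b i = 1) (L : List κ)
    (hL : (i :: L).Nodup) (x : κ → ℝ) (hx : ∀ j, 0 < x j) (hxi : x i = 1) (c m y V : ℝ) (hc : 0 < c)
    (hm : ∀ k, k ∉ i :: L → b k ≤ m) (hy : c * ∑ k ∈ (i :: L).toFinsetᶜ, b k ≤ y) (hmy : c * m ≤ y)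
    (B1 B2 : List ℚ) (hB1 : goodB 0 B1 = true) (hB2 : goodB 0 B2 = true)
    (h0 : up B1 0 0 (L.map x) 1 y ≤ V)
    (h1 : ∀ j ∈ L, b j ≠ 0 → Real.log (b j) - Real.log (x j)
      + up B1 0 0 (((i :: L).erase j).map x) (x j) y ≤ V)
    (h2 : 0 < m → -Real.log c + up B2 0 0 ((i :: L).map x) (c * m) (y - c * m) ≤ V) :
    F b ≤ V := by
  have hy0 : 0 ≤ y := le_trans (mul_nonneg hc.le (Finset.sum_nonneg fun k _ => hb0 k)) hy
  set x' : κ → ℝ := fun k => if k ∈ i :: L then x k else c * b k with hx'
  have hx'L : ∀ k ∈ i :: L, x' k = x k := fun k hk => by simp only [hx']; rw [if_pos hk]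
  have hmapL : ∀ l : List κ, (∀ k ∈ l, k ∈ i :: L) → l.map x' = l.map x := by
    intro l hl
    refine List.map_congr_left fun k hk => hx'L k (hl k hk)
  have hpow : ∀ (M : List ℝ) (a Y : ℝ), 0 < a → 0 ≤ Y → (∀ z ∈ M, 0 ≤ z) → ∀ B : List ℚ,
      goodB 0 B = true → ∫ u in (0 : ℝ)..1, bl u M (a + u * Y) ≤ up B 0 0 M a Y := by
    intro M a Y ha hY hM B hB
    have := bl_le_up B hB M hM 0 0 a Y ha hY
    simpa using this
  refine F_le_split b x' hb0 ⟨i, by rw [hi]; exact one_ne_zero⟩ (i :: L).toFinset ?_ c m y V hc ?_ ?_ hy ?_ ?_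
  · intro j hj
    rw [List.mem_toFinset] at hj
    rw [hx'L j hj]; exact hx j
  · intro k hk
    rw [List.mem_toFinset] at hk
    simp only [hx']; rw [if_neg hk]
  · intro k hk
    rw [List.mem_toFinset] at hk
    exact hm k hk
  · intro j hj hbj
    rw [List.mem_toFinset] at hj
    have he : (i :: L).toFinset.erase j = ((i :: L).erase j).toFinset := by
      ext a
      simp only [Finset.mem_erase, List.mem_toFinset]
      rw [hL.mem_erase_iff]
    have e1 : ∀ u : ℝ, bern u ((i :: L).toFinset.erase j)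
        (fun K => Real.log (x' j + ∑ k ∈ K, x' k + u * y))
        = bl u (((i :: L).erase j).map x) (x j + u * y) := by
      intro u
      rw [he, bern_list u x' _ (hL.erase j) (x' j) (u * y), hx'L j hj,
        hmapL _ fun k hk => List.mem_of_mem_erase hk]
    simp only [e1]
    have h3 := hpow (((i :: L).erase j).map x) (x j) y (hx j) hy0 (by
      intro z hz
      obtain ⟨k, _, rfl⟩ := List.mem_map.mp hz
      exact (hx k).le) B1 hB1
    rw [hx'L j hj]
    by_cases hji : j = i
    · rw [hji, hi, hxi, Real.log_one, sub_self, zero_add]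
      rw [hji, hxi] at h3
      rw [List.erase_cons_head] at h3 ⊢
      exact h3.trans h0
    · have hjL : j ∈ L := by
        rcases List.mem_cons.mp hj with h | h
        · exact absurd h hji
        · exact h
      exact (add_le_add le_rfl h3).trans (h1 j hjL hbj)
  · rintro ⟨k, hk, hbk⟩
    rw [List.mem_toFinset] at hk
    have hm0 : 0 < m := lt_of_lt_of_le (lt_of_le_of_ne (hb0 k) (Ne.symm hbk)) (hm k hk)
    have e1 : ∀ u : ℝ, bern u (i :: L).toFinset
        (fun K => Real.log (c * m + ∑ k ∈ K, x' k + u * (y - c * m)))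
        = bl u ((i :: L).map x) (c * m + u * (y - c * m)) := by
      intro u
      rw [bern_list u x' _ hL (c * m) (u * (y - c * m)), hmapL _ fun k hk => hk]
    simp only [e1]
    have h3 := hpow ((i :: L).map x) (c * m) (y - c * m) (mul_pos hc hm0) (by linarith) (by
      intro z hz
      obtain ⟨k, _, rfl⟩ := List.mem_map.mp hz
      exact (hx k).le) B2 hB2
    exact (add_le_add le_rfl h3).trans (h2 hm0)

/-! ### expressions for the kernel checker -/

open IA

/-- rational constant -/
def cq (q : ℚ) : E := .cst q.num q.den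

lemma cq_ev (q : ℚ) (x y z : ℝ) : (cq q).ev x y z = (q : ℝ) := by
  show ((q.num : ℤ) : ℝ) / ((q.den : ℕ) : ℝ) = (q : ℝ)
  rw [Rat.cast_def]

/-- expression for `csum` -/
def csumE : List (ℚ × ℚ) → E → E → E
  | [], _, _ => .cst 0 1
  | [p], a, Y => .mul (cq p.1) (.log (.add a (.mul Y (cq p.2))))
  | p :: q :: C, a, Y => .add (.mul (cq p.1) (.log (.add a (.mul Y (cq p.2))))) (csumE (q :: C) a Y)

lemma csumE_ev (C : List (ℚ × ℚ)) (a Y : E) (x y z : ℝ) :
    (csumE C a Y).ev x y z = csum C (a.ev x y z) (Y.ev x y z) := by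
  induction C with
  | nil => simp [csumE, csum, E.ev]
  | cons p C ih =>
    cases C with
    | nil =>
      simp only [csumE, csum, E.ev, cq_ev, List.map_cons, List.map_nil, List.sum_cons, List.sum_nil,
        add_zero]
    | cons q C =>
      have e1 : (csumE (p :: q :: C) a Y).ev x y z = (p.1 : ℝ) * Real.log (a.ev x y z
          + Y.ev x y z * (p.2 : ℝ)) + (csumE (q :: C) a Y).ev x y z := by
        simp only [csumE, E.ev, cq_ev]
      rw [e1, ih]
      simp only [csum, List.map_cons, List.sum_cons]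

/-- expression for `up` -/
def upE (bps : List ℚ) : ℕ → ℕ → List E → E → E → E
  | k, l, [], a, Y => csumE (cellsF k l 0 bps) a Y
  | k, l, z :: L, a, Y => .add (upE bps k (l + 1) L a Y) (upE bps (k + 1) l L (.add a z) Y)

lemma upE_ev (bps : List ℚ) (L : List E) (k l : ℕ) (a Y : E) (x y z : ℝ) :
    (upE bps k l L a Y).ev x y z
      = up bps k l (L.map fun e => e.ev x y z) (a.ev x y z) (Y.ev x y z) := by
  induction L generalizing k l a with
  | nil => simp only [upE, up, List.map_nil]; exact csumE_ev _ _ _ _ _ _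
  | cons w L ih =>
    simp only [upE, up, List.map_cons, E.ev]
    rw [ih, ih]
    rfl

end Ent
end Pool.Agent.Lib.MP_6947cd_al
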