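import Pool.Agent.Lib.MP_6947cd_al.T.Path
import Pool.Agent.Lib.MP_6947cd_al.T.Ext

/-!
Problem MP_6947cd_al (Chollet).  The row function is Schur convex: moving weight from a smaller entry to a
larger entry increases it.
-/

set_option autoImplicit false
open scoped Matrix
open Matrix Finset

namespace Pool.Agent.Lib.MP_6947cd_al
namespace Ent

variable {κ : Type} [Fintype κ] [DecidableEq κ]

/-- There is a maximiser at which the larger of two entries has the larger mass. -/
lemma exists_max_pair (b : κ → ℝ) (c d : κ) (hd : 0 < b d) (hdc : b d ≤ b c) :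
    ∃ p ∈ adm b, val b p = F b ∧ p d ≤ p c := by
  obtain ⟨p, hp, hv⟩ := exists_val_eq_F b ⟨d, hd.ne'⟩
  rcases le_or_gt (p d) (p c) with h | h
  · exact ⟨p, hp, hv, h⟩
  have hc : 0 < b c := lt_of_lt_of_le hd hdc
  have hadm : (fun a => p (Equiv.swap c d a)) ∈ adm b := by
    refine ⟨fun j => hp.1 _, ?_, fun j hj => ?_⟩
    · rw [Equiv.sum_comp (Equiv.swap c d) p]
      exact hp.2.1
    · have hjc : j ≠ c := by rintro rfl; exact hc.ne' hj
      have hjd : j ≠ d := by rintro rfl; exact hd.ne' hj
      show p (Equiv.swap c d j) = 0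
      rw [Equiv.swap_apply_of_ne_of_ne hjc hjd]
      exact hp.2.2 j hj
  refine ⟨fun a => p (Equiv.swap c d a), hadm, ?_, ?_⟩
  · refine le_antisymm (val_le_F b _ hadm) ?_
    rw [val_swap, hv]
    have h1 : 0 ≤ p d - p c := by linarith
    have h2 : 0 ≤ Real.log (b c) - Real.log (b d) := sub_nonneg.mpr (Real.log_le_log hd hdc)
    have := mul_nonneg h1 h2
    linarith
  · show p (Equiv.swap c d d) ≤ p (Equiv.swap c d c)
    rw [Equiv.swap_apply_left, Equiv.swap_apply_right]
    exact h.le

/-- mass over size is larger for the larger entry -/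
lemma ratio_le (b p : κ → ℝ) (hp : p ∈ adm b) (hv : val b p = F b) (c d : κ) (hcd : c ≠ d)
    (hd : 0 < b d) (hdc : b d ≤ b c) (hpp : p d ≤ p c) : p d / b d ≤ p c / b c := by
  have hc : 0 < b c := lt_of_lt_of_le hd hdc
  rcases eq_or_lt_of_le (hp.1 d) with h0 | h0
  · rw [← h0, zero_div]
    exact div_nonneg (hp.1 c) hc.le
  have hpc : 0 < p c := lt_of_lt_of_le h0 hpp
  have h1 := kkt b p hp hv c d hcd hpc h0
  have h2 := ell_sub_le p hp.1 c d hcd h0 hpp
  set S := ∑ k ∈ (Finset.univ.erase d).erase c, p k with hS
  have hS0 : 0 ≤ S := Finset.sum_nonneg fun k _ => hp.1 k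
  have h3 : ∫ u in (0 : ℝ)..1, (1 - u) * (Real.log (p d + u * S) - Real.log (p c + u * S)) ≤ 0 := by
    have h31 : ∫ u in (0 : ℝ)..1, (1 - u) * (Real.log (p d + u * S) - Real.log (p c + u * S))
        = -∫ u in (0 : ℝ)..1, (1 - u) * (Real.log (p c + u * S) - Real.log (p d + u * S)) := by
      rw [← intervalIntegral.integral_neg]
      congr 1
      funext u
      ring
    rw [h31, neg_nonpos]
    refine intervalIntegral.integral_nonneg zero_le_one fun u hu => ?_
    refine mul_nonneg (sub_nonneg.mpr hu.2) (sub_nonneg.mpr ?_)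
    have := mul_nonneg hu.1 hS0
    exact Real.log_le_log (by linarith) (by linarith)
  have h4 : Real.log (p d / b d) ≤ Real.log (p c / b c) := by
    rw [Real.log_div h0.ne' hd.ne', Real.log_div hpc.ne' hc.ne']
    linarith
  exact (Real.log_le_log_iff (div_pos h0 hd) (div_pos hpc hc)).mp h4

/-- moving a small amount from the smaller entry `d` to the larger entry `c` -/
lemma transfer_step (b : κ → ℝ) (c d : κ) (hcd : c ≠ d) (δ m : ℝ) (hδ : 0 ≤ δ) (hm : 0 < m)
    (hmd : m ≤ b d - δ) (hdc : b d ≤ b c) :
    F b ≤ F (Function.update (Function.update b c (b c + δ)) d (b d - δ))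
      + δ ^ 2 * (2 / m ^ 2) := by
  have hd : 0 < b d := by linarith
  have hc : 0 < b c := lt_of_lt_of_le hd hdc
  obtain ⟨p, hp, hv, hpp⟩ := exists_max_pair b c d hd hdc
  have hr := ratio_le b p hp hv c d hcd hd hdc hpp
  set b1 := Function.update b c (b c + δ) with hb1
  set b2 := Function.update b1 d (b d - δ) with hb2
  have hadm : p ∈ adm b2 := by
    refine ⟨hp.1, hp.2.1, fun j hj => ?_⟩
    by_cases hjd : j = d
    · subst hjd
      rw [hb2, Function.update_self] at hj
      exfalso
      linarith
    · rw [hb2, Function.update_of_ne hjd] at hj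
      by_cases hjc : j = c
      · subst hjc
        rw [hb1, Function.update_self] at hj
        exfalso
        linarith
      · rw [hb1, Function.update_of_ne hjc] at hj
        exact hp.2.2 j hj
  have h1 := val_update b p c (b c) (b c + δ)
  rw [Function.update_eq_self] at h1
  have h2 := val_update b1 p d (b d) (b d - δ)
  have e : Function.update b1 d (b d) = b1 := by
    have h5 : b d = b1 d := (Function.update_of_ne hcd.symm _ _).symm
    rw [h5, Function.update_eq_self]
  rw [e] at h2
  have h3 := val_le_F b2 p hadm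
  have hcδ : 0 < b c + δ := by linarith
  have hdδ : 0 < b d - δ := by linarith
  have l1 : δ / b c - δ ^ 2 / m ^ 2 ≤ Real.log (b c + δ) - Real.log (b c) := by
    rw [← Real.log_div hcδ.ne' hc.ne']
    refine le_trans ?_ (Real.one_sub_inv_le_log_of_pos (div_pos hcδ hc))
    have e1 : 1 - ((b c + δ) / b c)⁻¹ = δ / b c - δ ^ 2 / (b c * (b c + δ)) := by
      field_simp
      ring
    rw [e1]
    have h6 : δ ^ 2 / (b c * (b c + δ)) ≤ δ ^ 2 / m ^ 2 := by
      refine div_le_div_of_nonneg_left (sq_nonneg δ) (by positivity) ?_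
      rw [sq]
      exact mul_le_mul (by linarith) (by linarith) hm.le hc.le
    linarith
  have l2 : -(δ / b d) - δ ^ 2 / m ^ 2 ≤ Real.log (b d - δ) - Real.log (b d) := by
    rw [← Real.log_div hdδ.ne' hd.ne']
    refine le_trans ?_ (Real.one_sub_inv_le_log_of_pos (div_pos hdδ hd))
    have e1 : 1 - ((b d - δ) / b d)⁻¹ = -(δ / b d) - δ ^ 2 / (b d * (b d - δ)) := by
      field_simp
      ring
    rw [e1]
    have h6 : δ ^ 2 / (b d * (b d - δ)) ≤ δ ^ 2 / m ^ 2 := by
      refine div_le_div_of_nonneg_left (sq_nonneg δ) (by positivity) ?_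
      rw [sq]
      exact mul_le_mul (by linarith) (by linarith) hm.le hd.le
    linarith
  have hpc1 : p c ≤ 1 := by
    have := Finset.single_le_sum (fun k _ => hp.1 k) (Finset.mem_univ c)
    rw [hp.2.1] at this
    exact this
  have hpd1 : p d ≤ 1 := hpp.trans hpc1
  have m1 := mul_le_mul_of_nonneg_left l1 (hp.1 c)
  have m2 := mul_le_mul_of_nonneg_left l2 (hp.1 d)
  have hq : 0 ≤ δ ^ 2 / m ^ 2 := by positivity
  have m3 : p c * (δ ^ 2 / m ^ 2) ≤ δ ^ 2 / m ^ 2 := mul_le_of_le_one_left hq hpc1
  have m4 : p d * (δ ^ 2 / m ^ 2) ≤ δ ^ 2 / m ^ 2 := mul_le_of_le_one_left hq hpd1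
  have m5 := mul_le_mul_of_nonneg_left hr hδ
  have e2 : δ * (p d / b d) = p d * (δ / b d) := by ring
  have e3 : δ * (p c / b c) = p c * (δ / b c) := by ring
  rw [e2, e3] at m5
  have e4 : δ ^ 2 * (2 / m ^ 2) = 2 * (δ ^ 2 / m ^ 2) := by ring
  rw [e4]
  rw [mul_sub] at m1 m2
  rw [mul_neg] at m2
  linarith

lemma mono_of_quad (φ : ℝ → ℝ) (s K : ℝ) (hs : 0 ≤ s)
    (h : ∀ t t', 0 ≤ t → t ≤ t' → t' ≤ s → φ t ≤ φ t' + (t' - t) ^ 2 * K) : φ 0 ≤ φ s := by
  have hn : ∀ n : ℕ, ∀ t t', 0 ≤ t → t ≤ t' → t' ≤ s →
      φ t ≤ φ t' + (t' - t) ^ 2 * K * (1 / 2) ^ n := by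
    intro n
    induction n with
    | zero => intro t t' h0 h1 h2; simpa using h t t' h0 h1 h2
    | succ n ih =>
      intro t t' h0 h1 h2
      have a := ih t ((t + t') / 2) h0 (by linarith) (by linarith)
      have b := ih ((t + t') / 2) t' (by linarith) (by linarith) h2
      have e : ((t + t') / 2 - t) ^ 2 * K * (1 / 2) ^ n + (t' - (t + t') / 2) ^ 2 * K * (1 / 2) ^ n
          = (t' - t) ^ 2 * K * (1 / 2) ^ (n + 1) := by
        rw [pow_succ]
        ring
      linarith
  have hlim : Filter.Tendsto (fun n : ℕ => φ s + (s - 0) ^ 2 * K * (1 / 2) ^ n) Filter.atTop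
      (nhds (φ s + (s - 0) ^ 2 * K * 0)) := by
    refine tendsto_const_nhds.add (Filter.Tendsto.const_mul _ ?_)
    exact tendsto_pow_atTop_nhds_zero_of_lt_one (by norm_num) (by norm_num)
  have := ge_of_tendsto' hlim (fun n => hn n 0 s le_rfl hs le_rfl)
  linarith

omit [Fintype κ] in
lemma update_update_pair (b : κ → ℝ) (c d : κ) (hcd : c ≠ d) (x y x' y' : ℝ) :
    Function.update (Function.update (Function.update (Function.update b c x) d y) c x') d y'
      = Function.update (Function.update b c x') d y' := by
  funext j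
  by_cases hd : j = d
  · subst hd
    rw [Function.update_self, Function.update_self]
  · rw [Function.update_of_ne hd, Function.update_of_ne hd]
    by_cases hc : j = c
    · subst hc
      rw [Function.update_self, Function.update_self]
    · rw [Function.update_of_ne hc, Function.update_of_ne hc, Function.update_of_ne hd,
        Function.update_of_ne hc]

/-- Moving weight from the smaller entry `d` to the larger entry `c` (the entry `d` stays positive). -/
theorem F_transfer_pos (b : κ → ℝ) (c d : κ) (hcd : c ≠ d) (s : ℝ) (hs0 : 0 ≤ s) (hs : s < b d)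
    (hdc : b d ≤ b c) :
    F b ≤ F (Function.update (Function.update b c (b c + s)) d (b d - s)) := by
  have h := mono_of_quad (fun t => F (Function.update (Function.update b c (b c + t)) d (b d - t)))
    s (2 / (b d - s) ^ 2) hs0 ?_
  · simp only [add_zero, sub_zero, Function.update_eq_self] at h
    exact h
  · intro t t' h0 h1 h2
    have e1 : (Function.update (Function.update b c (b c + t)) d (b d - t)) c = b c + t := by
      rw [Function.update_of_ne hcd, Function.update_self]
    have e2 : (Function.update (Function.update b c (b c + t)) d (b d - t)) d = b d - t := by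
      rw [Function.update_self]
    have h3 := transfer_step (Function.update (Function.update b c (b c + t)) d (b d - t)) c d hcd
      (t' - t) (b d - s) (by linarith) (by linarith) (by rw [e2]; linarith)
      (by rw [e1, e2]; linarith)
    rw [e1, e2, update_update_pair b c d hcd] at h3
    have e3 : b c + t + (t' - t) = b c + t' := by ring
    have e4 : b d - t - (t' - t) = b d - t' := by ring
    rw [e3, e4] at h3
    exact h3

/-- Moving weight from the smaller entry `d` to the larger entry `c`. -/
theorem F_transfer (b : κ → ℝ) (hb0 : ∀ j, 0 ≤ b j) (hb1 : ∀ j, b j ≤ 1) (i c d : κ)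
    (hi : b i = 1) (hic : i ≠ c) (hid : i ≠ d) (hcd : c ≠ d) (s : ℝ) (hs0 : 0 ≤ s) (hs : s ≤ b d)
    (hdc : b d ≤ b c) (h1 : b c + s ≤ 1) :
    F b ≤ F (Function.update (Function.update b c (b c + s)) d (b d - s)) := by
  rcases lt_or_eq_of_le hs with hlt | heq
  · exact F_transfer_pos b c d hcd s hs0 hlt hdc
  rcases eq_or_lt_of_le (hb0 d) with hd0 | hd0
  · have hs' : s = 0 := by rw [heq, ← hd0]
    rw [hs', add_zero, sub_zero, Function.update_eq_self, Function.update_eq_self]
  refine le_of_forall_pos_le_add fun η hη => ?_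
  set ε : ℝ := min η (b d / 2) with hε
  have hε0 : 0 < ε := lt_min hη (by linarith)
  have hεη : ε ≤ η := min_le_left _ _
  have hεd : ε ≤ b d / 2 := min_le_right _ _
  have hbd1 := hb1 d
  have h2 := F_transfer_pos b c d hcd (b d - ε) (by linarith) (by linarith) hdc
  rw [show b d - (b d - ε) = ε by ring] at h2
  set b2 : κ → ℝ := Function.update (Function.update b c (b c + s)) d ε with hb2
  have c2 : ∀ j, b2 j = if j = d then ε else if j = c then b c + s else b j := by
    intro j
    rw [hb2]
    by_cases hjd : j = d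
    · subst hjd
      rw [Function.update_self, if_pos rfl]
    · rw [Function.update_of_ne hjd, if_neg hjd]
      by_cases hjc : j = c
      · subst hjc
        rw [Function.update_self, if_pos rfl]
      · rw [Function.update_of_ne hjc, if_neg hjc]
  have h3 : F (Function.update (Function.update b c (b c + (b d - ε))) d ε) ≤ F b2 := by
    refine F_mono _ _ (fun j => ?_) (fun j => ?_) ⟨i, ?_⟩
    · by_cases hjd : j = d
      · subst hjd
        rw [Function.update_self]
        exact hε0.le
      · rw [Function.update_of_ne hjd]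
        by_cases hjc : j = c
        · subst hjc
          rw [Function.update_self]
          have := hb0 j
          linarith
        · rw [Function.update_of_ne hjc]
          exact hb0 j
    · rw [c2]
      by_cases hjd : j = d
      · subst hjd
        rw [Function.update_self, if_pos rfl]
      · rw [Function.update_of_ne hjd, if_neg hjd]
        by_cases hjc : j = c
        · subst hjc
          rw [Function.update_self, if_pos rfl]
          linarith
        · rw [Function.update_of_ne hjc, if_neg hjc]
    · rw [Function.update_of_ne hid, Function.update_of_ne hic, hi]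
      exact one_ne_zero
  have h4 := F_update_sub b2 (fun j => by
      rw [c2]
      split_ifs
      · exact hε0.le
      · have := hb0 c
        linarith
      · exact hb0 j) (fun j => by
      rw [c2]
      split_ifs
      · linarith
      · exact h1
      · exact hb1 j) i d hid (by rw [c2, if_neg hid, if_neg hic, hi]) 0 le_rfl
      (by rw [c2, if_pos rfl]; exact hε0.le)
  have e1 : Function.update b2 d 0
      = Function.update (Function.update b c (b c + s)) d (b d - s) := by
    rw [heq, sub_self, hb2, Function.update_idem, heq]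
  rw [e1, c2, if_pos rfl] at h4
  have h5 : 43 / 200 * (ε - 0) + 39 / 200 * (ε ^ 2 - 0 ^ 2) ≤ η := by
    have : ε ^ 2 ≤ ε * 1 := by
      rw [sq]
      exact mul_le_mul_of_nonneg_left (by linarith) hε0.le
    nlinarith
  linarith

end Ent
end Pool.Agent.Lib.MP_6947cd_al
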