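import Pool.Agent.Lib.MP_6947cd_al.T.Rich
import Pool.Agent.Lib.MP_6947cd_al.T.Convex

/-!
Problem MP_6947cd_al (Chollet).  THE TWO-ENTRY LOSS: an entry `s` is worth less in a row which contains another
entry `a ≥ s`.
-/

set_option autoImplicit false
open scoped Matrix
open Matrix Finset

namespace Pool.Agent.Lib.MP_6947cd_al
namespace Ent

variable {κ : Type} [Fintype κ] [DecidableEq κ]

/-- comparison integral, one mass `d` being kept -/
noncomputable def J2 (x d Y : ℝ) : ℝ :=
  ∫ u in (0 : ℝ)..1, ((1 - u) * u * (Real.log (1 + (d + u * Y)) - Real.log (x + (d + u * Y)))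
    + (1 - u) * (1 - u) * (Real.log (1 + u * Y) - Real.log (x + u * Y)))

/-- Comparison of the availability terms of two entries, a third mass being kept. -/
theorem ell_sub_le2 (p : κ → ℝ) (hp : ∀ j, 0 ≤ p j) (i c d : κ) (hic : i ≠ c) (hid : i ≠ d)
    (hcd : c ≠ d) (hpc : 0 < p c) (hci : p c ≤ p i) :
    ell Finset.univ p c - ell Finset.univ p i
      ≤ ∫ u in (0 : ℝ)..1, ((1 - u) * u
        * (Real.log (p c + (p d + u * ∑ k ∈ ((Finset.univ.erase c).erase i).erase d, p k))
          - Real.log (p i + (p d + u * ∑ k ∈ ((Finset.univ.erase c).erase i).erase d, p k)))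
        + (1 - u) * (1 - u)
        * (Real.log (p c + u * ∑ k ∈ ((Finset.univ.erase c).erase i).erase d, p k)
          - Real.log (p i + u * ∑ k ∈ ((Finset.univ.erase c).erase i).erase d, p k))) := by
  set R : Finset κ := (Finset.univ.erase c).erase i with hR
  set R' : Finset κ := R.erase d with hR'
  have hpi : 0 < p i := lt_of_lt_of_le hpc hci
  have hiR : i ∉ R := Finset.notMem_erase i _
  have hcR : c ∉ R := fun h => Finset.notMem_erase c _ (Finset.mem_of_mem_erase h)
  have e1 : (Finset.univ.erase c : Finset κ) = insert i R := by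
    rw [hR, Finset.insert_erase]
    exact Finset.mem_erase.mpr ⟨hic, Finset.mem_univ i⟩
  have e2 : (Finset.univ.erase i : Finset κ) = insert c R := by
    rw [hR, Finset.erase_right_comm, Finset.insert_erase]
    exact Finset.mem_erase.mpr ⟨Ne.symm hic, Finset.mem_univ c⟩
  have hdR : d ∈ R := by
    rw [hR]
    exact Finset.mem_erase.mpr ⟨hid.symm, Finset.mem_erase.mpr ⟨hcd.symm, Finset.mem_univ d⟩⟩
  have e5 : R = insert d R' := by rw [hR', Finset.insert_erase hdR]
  have hdR' : d ∉ R' := Finset.notMem_erase d _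
  have hR0 : 0 ≤ ∑ k ∈ R', p k := Finset.sum_nonneg fun k _ => hp k
  have hd0 := hp d
  rw [ell_eq _ p c (Finset.mem_univ c), ell_eq _ p i (Finset.mem_univ i)]
  have hint : ∀ S : Finset κ, ∀ g : Finset κ → ℝ,
      IntervalIntegrable (fun u : ℝ => bern u S g) MeasureTheory.volume 0 1 := fun S g =>
    (cont_bern S g).intervalIntegrable _ _
  rw [← intervalIntegral.integral_sub (hint _ _) (hint _ _)]
  refine intervalIntegral.integral_mono_on zero_le_one ((hint _ _).sub (hint _ _)) ?_ ?_
  · refine ContinuousOn.intervalIntegrable ?_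
    rw [Set.uIcc_of_le zero_le_one]
    refine ContinuousOn.add (ContinuousOn.mul (by fun_prop) (ContinuousOn.sub ?_ ?_))
      (ContinuousOn.mul (by fun_prop) (ContinuousOn.sub ?_ ?_))
    · refine ContinuousOn.log (by fun_prop) fun u hu => ?_
      have := mul_nonneg hu.1 hR0
      linarith
    · refine ContinuousOn.log (by fun_prop) fun u hu => ?_
      have := mul_nonneg hu.1 hR0
      linarith
    · refine ContinuousOn.log (by fun_prop) fun u hu => ?_
      have := mul_nonneg hu.1 hR0
      linarith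
    · refine ContinuousOn.log (by fun_prop) fun u hu => ?_
      have := mul_nonneg hu.1 hR0
      linarith
  · intro u hu
    rw [e1, e2, bern_insert u i R hiR, bern_insert u c R hcR]
    have e3 : bern u R (fun K => Real.log (p c + ∑ k ∈ insert i K, p k))
        = bern u R (fun K => Real.log (p i + ∑ k ∈ insert c K, p k)) := by
      refine bern_congr u R _ _ fun K hK => ?_
      rw [Finset.sum_insert (fun h => hiR (hK h)), Finset.sum_insert (fun h => hcR (hK h))]
      congr 1
      ring
    rw [e3]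
    have e4 : bern u R (fun K => Real.log (p c + ∑ k ∈ K, p k))
        - bern u R (fun K => Real.log (p i + ∑ k ∈ K, p k))
        = bern u R (fun K => (fun t => Real.log (p c + t) - Real.log (p i + t))
            (0 + ∑ k ∈ K, p k)) := by
      unfold bern
      rw [← Finset.sum_sub_distrib]
      refine Finset.sum_congr rfl fun K _ => ?_
      simp only [zero_add]
      ring
    set ψ : ℝ → ℝ := fun t => Real.log (p c + t) - Real.log (p i + t) with hψ
    have hcc := concave_log_sub (p c) (p i) hpc hci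
    have e6 : bern u R (fun K => ψ (0 + ∑ k ∈ K, p k))
        = (1 - u) * bern u R' (fun K => ψ (0 + ∑ k ∈ K, p k))
          + u * bern u R' (fun K => ψ (p d + ∑ k ∈ K, p k)) := by
      rw [e5, bern_insert u d R' hdR']
      congr 2
      refine bern_congr u R' _ _ fun K hK => ?_
      rw [Finset.sum_insert (fun h => hdR' (hK h)), zero_add]
    have h5 := bern_concave_le u hu.1 hu.2 p ψ hcc R' (fun k _ => hp k) 0 le_rfl
    have h6 := bern_concave_le u hu.1 hu.2 p ψ hcc R' (fun k _ => hp k) (p d) hd0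
    have h7 := mul_le_mul_of_nonneg_left h5 (sub_nonneg.mpr hu.2)
    have h8 := mul_le_mul_of_nonneg_left h6 hu.1
    have h9 : bern u R (fun K => ψ (0 + ∑ k ∈ K, p k))
        ≤ (1 - u) * ψ (0 + u * ∑ k ∈ R', p k) + u * ψ (p d + u * ∑ k ∈ R', p k) := by
      rw [e6]
      linarith
    rw [← e4] at h9
    have h10 := mul_le_mul_of_nonneg_left h9 (sub_nonneg.mpr hu.2)
    simp only [hψ, zero_add] at h10
    refine le_trans (le_of_eq ?_) (h10.trans (le_of_eq ?_))
    · ring
    · ring

/-- the good maximiser, three entries -/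
theorem mass_le2 (b p : κ → ℝ) (hp : p ∈ adm b) (hv : val b p = F b) (i c d : κ) (hic : i ≠ c)
    (hid : i ≠ d) (hcd : c ≠ d) (hi : b i = 1) (hb0 : ∀ j, 0 ≤ b j) (hpi : 0 < p i)
    (hmax : ∀ j, p j ≤ p i) (hpc : 0 < p c) :
    ∃ Y : ℝ, 0 ≤ Y ∧ 1 / p i = 1 + p c / p i + p d / p i + Y ∧
      p c / p i * Real.exp (J2 (p c / p i) (p d / p i) Y) ≤ b c := by
  set P := ∑ k ∈ ((Finset.univ.erase c).erase i).erase d, p k with hP
  have hP0 : 0 ≤ P := Finset.sum_nonneg fun k _ => hp.1 k
  have hd0 := hp.1 d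
  have hsum : p c + (p i + (p d + P)) = 1 := by
    rw [hP, Finset.add_sum_erase ((Finset.univ.erase c).erase i) p
      (Finset.mem_erase.mpr ⟨hid.symm, Finset.mem_erase.mpr ⟨hcd.symm, Finset.mem_univ d⟩⟩),
      Finset.add_sum_erase (Finset.univ.erase c) p
      (Finset.mem_erase.mpr ⟨hic, Finset.mem_univ i⟩),
      Finset.add_sum_erase Finset.univ p (Finset.mem_univ c)]
    exact hp.2.1
  refine ⟨P / p i, div_nonneg hP0 hpi.le, ?_, ?_⟩
  · field_simp
    linarith
  · have hbc : 0 < b c := lt_of_le_of_ne (hb0 c) fun h => hpc.ne' (hp.2.2 c h.symm)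
    have h1 := kkt b p hp hv i c hic hpi hpc
    have h2 := ell_sub_le2 p hp.1 i c d hic hid hcd hpc (hmax c)
    rw [← hP] at h2
    have h3 : ∫ u in (0 : ℝ)..1, ((1 - u) * u
          * (Real.log (p c + (p d + u * P)) - Real.log (p i + (p d + u * P)))
          + (1 - u) * (1 - u) * (Real.log (p c + u * P) - Real.log (p i + u * P)))
        = -J2 (p c / p i) (p d / p i) (P / p i) := by
      unfold J2
      rw [← intervalIntegral.integral_neg]
      refine intervalIntegral.integral_congr fun u hu => ?_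
      rw [Set.uIcc_of_le zero_le_one] at hu
      have hu0 := mul_nonneg hu.1 hP0
      have e1 : p c / p i + u * (P / p i) = (p c + u * P) / p i := by field_simp
      have e2 : 1 + u * (P / p i) = (p i + u * P) / p i := by field_simp
      have e3 : p c / p i + (p d / p i + u * (P / p i)) = (p c + (p d + u * P)) / p i := by
        field_simp
      have e4 : 1 + (p d / p i + u * (P / p i)) = (p i + (p d + u * P)) / p i := by field_simp
      show (1 - u) * u * (Real.log (p c + (p d + u * P)) - Real.log (p i + (p d + u * P)))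
          + (1 - u) * (1 - u) * (Real.log (p c + u * P) - Real.log (p i + u * P))
        = -((1 - u) * u * (Real.log (1 + (p d / p i + u * (P / p i)))
            - Real.log (p c / p i + (p d / p i + u * (P / p i))))
          + (1 - u) * (1 - u) * (Real.log (1 + u * (P / p i))
            - Real.log (p c / p i + u * (P / p i))))
      rw [e1, e2, e3, e4, Real.log_div (by linarith) hpi.ne', Real.log_div (by linarith) hpi.ne',
        Real.log_div (by linarith) hpi.ne', Real.log_div (by linarith) hpi.ne']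
      ring
    rw [h3] at h2
    rw [hi, Real.log_one] at h1
    have h4 : Real.log (p c / p i) + J2 (p c / p i) (p d / p i) (P / p i) ≤ Real.log (b c) := by
      rw [Real.log_div hpc.ne' hpi.ne']
      linarith
    have h5 := Real.exp_le_exp.mpr h4
    rw [Real.exp_add, Real.exp_log (div_pos hpc hpi), Real.exp_log hbc] at h5
    exact h5

/-- upper bound of the difference of the availability terms by the chord -/
theorem ell_sub_chord (p : κ → ℝ) (hp : ∀ j, 0 ≤ p j) (i d : κ) (hid : i ≠ d) (hpd : 0 < p d)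
    (hdi : p d ≤ p i) :
    ell Finset.univ p i - ell Finset.univ p d
      ≤ 1 / 3 * (Real.log (p i) - Real.log (p d))
        + 1 / 6 * (Real.log (p i + ∑ k ∈ (Finset.univ.erase d).erase i, p k)
          - Real.log (p d + ∑ k ∈ (Finset.univ.erase d).erase i, p k)) := by
  set R : Finset κ := (Finset.univ.erase d).erase i with hR
  set P := ∑ k ∈ R, p k with hP
  have hpi : 0 < p i := lt_of_lt_of_le hpd hdi
  have hiR : i ∉ R := Finset.notMem_erase i _
  have hdR : d ∉ R := fun h => Finset.notMem_erase d _ (Finset.mem_of_mem_erase h)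
  have e1 : (Finset.univ.erase d : Finset κ) = insert i R := by
    rw [hR, Finset.insert_erase]
    exact Finset.mem_erase.mpr ⟨hid, Finset.mem_univ i⟩
  have e2 : (Finset.univ.erase i : Finset κ) = insert d R := by
    rw [hR, Finset.erase_right_comm, Finset.insert_erase]
    exact Finset.mem_erase.mpr ⟨Ne.symm hid, Finset.mem_univ d⟩
  have hP0 : 0 ≤ P := Finset.sum_nonneg fun k _ => hp k
  set φ : ℝ → ℝ := fun t => Real.log (p d + t) - Real.log (p i + t) with hφ
  have hcc : ConcaveOn ℝ (Set.Ici 0) φ := concave_log_sub (p d) (p i) hpd hdi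
  have hI : ∫ u in (0 : ℝ)..1, ((1 - u) * ((1 - u) * (Real.log (p i) - Real.log (p d))
        + u * (Real.log (p i + P) - Real.log (p d + P))))
      = 1 / 3 * (Real.log (p i) - Real.log (p d))
        + 1 / 6 * (Real.log (p i + P) - Real.log (p d + P)) := by
    have hG : ∀ u ∈ Set.uIcc (0 : ℝ) 1, HasDerivAt
        (fun u : ℝ => (u - u ^ 2 + u ^ 3 / 3) * (Real.log (p i) - Real.log (p d))
          + (u ^ 2 / 2 - u ^ 3 / 3) * (Real.log (p i + P) - Real.log (p d + P)))
        ((1 - u) * ((1 - u) * (Real.log (p i) - Real.log (p d))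
        + u * (Real.log (p i + P) - Real.log (p d + P)))) u := by
      intro u _
      have a1 : HasDerivAt (fun u : ℝ => u - u ^ 2 + u ^ 3 / 3) (1 - 2 * u + u ^ 2) u := by
        have := ((hasDerivAt_id u).sub ((hasDerivAt_id u).pow 2)).add
          (((hasDerivAt_id u).pow 3).div_const 3)
        refine this.congr_deriv ?_
        simp
      have a2 : HasDerivAt (fun u : ℝ => u ^ 2 / 2 - u ^ 3 / 3) (u - u ^ 2) u := by
        have := (((hasDerivAt_id u).pow 2).div_const 2).sub (((hasDerivAt_id u).pow 3).div_const 3)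
        refine this.congr_deriv ?_
        simp
      refine ((a1.mul_const _).add (a2.mul_const _)).congr_deriv ?_
      ring
    rw [intervalIntegral.integral_eq_sub_of_hasDerivAt hG
      (Continuous.intervalIntegrable (by fun_prop) _ _)]
    ring
  rw [← hI]
  rw [ell_eq _ p d (Finset.mem_univ d), ell_eq _ p i (Finset.mem_univ i)]
  have hint : ∀ S : Finset κ, ∀ g : Finset κ → ℝ,
      IntervalIntegrable (fun u : ℝ => bern u S g) MeasureTheory.volume 0 1 := fun S g =>
    (cont_bern S g).intervalIntegrable _ _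
  rw [← intervalIntegral.integral_sub (hint _ _) (hint _ _)]
  refine intervalIntegral.integral_mono_on zero_le_one ((hint _ _).sub (hint _ _))
    (Continuous.intervalIntegrable (by fun_prop) _ _) ?_
  intro u hu
  rw [e1, e2, bern_insert u i R hiR, bern_insert u d R hdR]
  have e3 : bern u R (fun K => Real.log (p d + ∑ k ∈ insert i K, p k))
      = bern u R (fun K => Real.log (p i + ∑ k ∈ insert d K, p k)) := by
    refine bern_congr u R _ _ fun K hK => ?_
    rw [Finset.sum_insert (fun h => hiR (hK h)), Finset.sum_insert (fun h => hdR (hK h))]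
    congr 1
    ring
  rw [e3]
  -- the chord
  obtain ⟨q, hq⟩ : ∃ q : ℝ, q * P = φ P - φ 0 := by
    rcases eq_or_lt_of_le hP0 with h0 | h0
    · exact ⟨0, by rw [← h0]; ring⟩
    · exact ⟨(φ P - φ 0) / P, by field_simp⟩
  have hchord : ∀ K ⊆ R, φ 0 + ∑ k ∈ K, q * p k ≤ φ (∑ k ∈ K, p k) := by
    intro K hK
    rw [← Finset.mul_sum]
    set t := ∑ k ∈ K, p k with ht
    have ht0 : 0 ≤ t := Finset.sum_nonneg fun k _ => hp k
    have htP : t ≤ P := Finset.sum_le_sum_of_subset_of_nonneg hK fun k _ _ => hp k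
    rcases eq_or_lt_of_le hP0 with h0 | h0
    · have : t = 0 := le_antisymm (by linarith) ht0
      rw [this]
      simp
    · have h1 := hcc.2 (Set.mem_Ici.mpr le_rfl) (Set.mem_Ici.mpr hP0)
        (show 0 ≤ 1 - t / P from sub_nonneg.mpr ((div_le_one h0).mpr htP))
        (show 0 ≤ t / P from div_nonneg ht0 hP0) (by ring)
      simp only [smul_eq_mul, mul_zero, zero_add] at h1
      have h2 : t / P * P = t := div_mul_cancel₀ t h0.ne'
      rw [h2] at h1
      have h3 : φ 0 + q * t = (1 - t / P) * φ 0 + t / P * φ P := by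
        have : q * t = t / P * (q * P) := by field_simp
        rw [this, hq]
        ring
      rw [h3]
      exact h1
  have h4 := bern_mono u hu.1 hu.2 R _ _ hchord
  rw [bern_lin u (fun k => q * p k) R (φ 0), ← Finset.mul_sum, ← hP, hq] at h4
  have e4 : bern u R (fun K => Real.log (p d + ∑ k ∈ K, p k))
      - bern u R (fun K => Real.log (p i + ∑ k ∈ K, p k))
      = bern u R (fun K => φ (∑ k ∈ K, p k)) := by
    unfold bern
    rw [← Finset.sum_sub_distrib]
    refine Finset.sum_congr rfl fun K _ => ?_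
    simp only [hφ]
    ring
  rw [← e4] at h4
  have h5 := mul_le_mul_of_nonneg_left h4 (sub_nonneg.mpr hu.2)
  have h6 : φ 0 = Real.log (p d) - Real.log (p i) := by simp [hφ]
  have h7 : φ P = Real.log (p d + P) - Real.log (p i + P) := rfl
  rw [h6, h7] at h5
  nlinarith

/-- lower bound of the mass of a large entry -/
theorem mass_ge (b p : κ → ℝ) (hp : p ∈ adm b) (hv : val b p = F b) (i d : κ) (hid : i ≠ d)
    (hi : b i = 1) (hpi : 0 < p i) (hmax : ∀ j, p j ≤ p i) (hpd : 0 < p d) :
    Real.log (b d) ≤ 2 / 3 * Real.log (p d / p i) + 1 / 6 * (Real.log (1 / p i - p d / p i)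
      - Real.log (1 / p i - 1)) := by
  set P := ∑ k ∈ (Finset.univ.erase d).erase i, p k with hP
  have hP0 : 0 ≤ P := Finset.sum_nonneg fun k _ => hp.1 k
  have hsum : p d + (p i + P) = 1 := by
    rw [hP, Finset.add_sum_erase (Finset.univ.erase d) p
      (Finset.mem_erase.mpr ⟨hid, Finset.mem_univ i⟩),
      Finset.add_sum_erase Finset.univ p (Finset.mem_univ d)]
    exact hp.2.1
  have h1 := kkt b p hp hv i d hid hpi hpd
  have h2 := ell_sub_chord p hp.1 i d hid hpd (hmax d)
  rw [← hP] at h2
  rw [hi, Real.log_one] at h1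
  have e1 : 1 / p i - p d / p i = (p i + P) / p i := by
    rw [← sub_div]
    congr 1
    linarith
  have e2 : 1 / p i - 1 = (p d + P) / p i := by
    rw [eq_div_iff hpi.ne', sub_mul, one_div, inv_mul_cancel₀ hpi.ne']
    linarith
  rw [e1, e2, Real.log_div hpd.ne' hpi.ne', Real.log_div (by linarith) hpi.ne',
    Real.log_div (by linarith) hpi.ne']
  linarith

/-- a good maximiser with ordered masses -/
theorem exists_max2 (b : κ → ℝ) (hb1 : ∀ j, b j ≤ 1) (hb0 : ∀ j, 0 ≤ b j) (i c d : κ)
    (hic : i ≠ c) (hid : i ≠ d) (hi : b i = 1) (hd : 0 < b d) (hcd : b c ≤ b d) :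
    ∃ p ∈ adm b, val b p = F b ∧ (∀ j, p j ≤ p i) ∧ 0 < p i ∧ p c ≤ p d := by
  obtain ⟨p, hp, hv, hmax, hpi⟩ := exists_max b hb1 hb0 i hi
  rcases le_or_gt (p c) (p d) with h | h
  · exact ⟨p, hp, hv, hmax, hpi, h⟩
  have hpc : 0 < p c := lt_of_le_of_lt (hp.1 d) h
  have hbc : 0 < b c := lt_of_le_of_ne (hb0 c) fun h => hpc.ne' (hp.2.2 c h.symm)
  have hadm : (fun a => p (Equiv.swap d c a)) ∈ adm b := by
    refine ⟨fun j => hp.1 _, ?_, fun j hj => ?_⟩
    · rw [Equiv.sum_comp (Equiv.swap d c) p]
      exact hp.2.1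
    · have hjd : j ≠ d := fun h => by rw [h] at hj; exact hd.ne' hj
      have hjc : j ≠ c := fun h => by rw [h] at hj; exact hbc.ne' hj
      show p (Equiv.swap d c j) = 0
      rw [Equiv.swap_apply_of_ne_of_ne hjd hjc]
      exact hp.2.2 j hj
  have hfix : Equiv.swap d c i = i := Equiv.swap_apply_of_ne_of_ne hid hic
  refine ⟨fun a => p (Equiv.swap d c a), hadm, ?_, fun j => ?_, ?_, ?_⟩
  · refine le_antisymm (val_le_F b _ hadm) ?_
    rw [val_swap, hv]
    have h1 : 0 ≤ p c - p d := by linarith
    have h2 : 0 ≤ Real.log (b d) - Real.log (b c) := sub_nonneg.mpr (Real.log_le_log hbc hcd)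
    have := mul_nonneg h1 h2
    linarith
  · show p (Equiv.swap d c j) ≤ p (Equiv.swap d c i)
    rw [hfix]
    exact hmax _
  · show 0 < p (Equiv.swap d c i)
    rw [hfix]
    exact hpi
  · show p (Equiv.swap d c c) ≤ p (Equiv.swap d c d)
    rw [Equiv.swap_apply_left, Equiv.swap_apply_right]
    exact h.le

/-- the slope hypothesis in the presence of an entry `≥ a` -/
def TwoHyp (a A B : ℝ) : Prop := ∀ x d Y : ℝ, 0 < x → x ≤ d → d ≤ 1 → 0 ≤ Y →
  Real.log a ≤ 2 / 3 * Real.log d + 1 / 6 * (Real.log (1 + x + Y) - Real.log (d + x + Y)) →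
  Real.exp (-J2 x d Y) / (1 + x + d + Y) ≤ A + B * (x * Real.exp (J2 x d Y))

/-- mass of an entry in the presence of a larger entry -/
theorem mass_two (b : κ → ℝ) (hb0 : ∀ j, 0 ≤ b j) (hb1 : ∀ j, b j ≤ 1) (i c d : κ) (hic : i ≠ c)
    (hid : i ≠ d) (hcd : c ≠ d) (hi : b i = 1) (a A B : ℝ) (ha : 0 < a) (had : a ≤ b d)
    (hbcd : b c ≤ b d) (hA : 0 ≤ A) (hB : 0 ≤ B) (H : TwoHyp a A B) :
    ∃ p ∈ adm b, val b p = F b ∧ p c ≤ b c * (A + B * b c) := by
  obtain ⟨p, hp, hv, hmax, hpi, hpcd⟩ := exists_max2 b hb1 hb0 i c d hic hid hi (by linarith) hbcd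
  refine ⟨p, hp, hv, ?_⟩
  have hbc := hb0 c
  rcases eq_or_lt_of_le (hp.1 c) with h0 | h0
  · rw [← h0]
    positivity
  have hpd : 0 < p d := lt_of_lt_of_le h0 hpcd
  obtain ⟨Y, hY, hY1, hY2⟩ := mass_le2 b p hp hv i c d hic hid hcd hi hb0 hpi hmax h0
  have hge := mass_ge b p hp hv i d hid hi hpi hmax hpd
  set x := p c / p i with hx
  set y := p d / p i with hy
  have hx0 : 0 < x := div_pos h0 hpi
  have hxy : x ≤ y := div_le_div_of_nonneg_right hpcd hpi.le
  have hy1 : y ≤ 1 := by rw [hy, div_le_one hpi]; exact hmax d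
  have e1 : 1 / p i - y = 1 + x + Y := by rw [hY1]; ring
  have e2 : 1 / p i - 1 = y + x + Y := by rw [hY1]; ring
  rw [e1, e2] at hge
  have h1 := H x y Y hx0 hxy hy1 hY ((Real.log_le_log ha had).trans hge)
  have hpos : 0 < 1 + x + y + Y := by linarith
  have h2 : p c = x / (1 + x + y + Y) := by
    rw [← hY1, hx]
    field_simp
  set s := x * Real.exp (J2 x y Y) with hs
  have hs0 : 0 < s := mul_pos hx0 (Real.exp_pos _)
  have h3 : x / (1 + x + y + Y) = s * (Real.exp (-J2 x y Y) / (1 + x + y + Y)) := by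
    rw [hs, Real.exp_neg]
    field_simp
  rw [h2, h3]
  calc s * (Real.exp (-J2 x y Y) / (1 + x + y + Y)) ≤ s * (A + B * s) :=
        mul_le_mul_of_nonneg_left h1 hs0.le
    _ ≤ b c * (A + B * b c) := by
        refine mul_le_mul hY2 ?_ (by positivity) hbc
        have := mul_le_mul_of_nonneg_left hY2 hB
        linarith

/-- THE TWO-ENTRY LOSS. -/
theorem F_update_two (b : κ → ℝ) (hb0 : ∀ j, 0 ≤ b j) (hb1 : ∀ j, b j ≤ 1) (i c d : κ)
    (hic : i ≠ c) (hid : i ≠ d) (hcd : c ≠ d) (hi : b i = 1) (a A B : ℝ) (ha : 0 < a)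
    (had : a ≤ b d) (hbcd : b c ≤ b d) (hA : 0 ≤ A) (hB : 0 ≤ B) (H : TwoHyp a A B)
    (s : ℝ) (hs0 : 0 ≤ s) (hs : s ≤ b c) :
    F b ≤ F (Function.update b c s) + (A * (b c - s) + B / 2 * ((b c) ^ 2 - s ^ 2)) := by
  have hup0 : ∀ r : ℝ, 0 ≤ r → ∀ j, 0 ≤ Function.update b c r j := by
    intro r hr j
    by_cases hj : j = c
    · subst hj; simpa using hr
    · rw [Function.update_of_ne hj]; exact hb0 j
  have hup1 : ∀ r : ℝ, r ≤ b c → ∀ j, Function.update b c r j ≤ 1 := by
    intro r hr j
    by_cases hj : j = c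
    · subst hj
      rw [Function.update_self]
      exact hr.trans (hb1 _)
    · rw [Function.update_of_ne hj]; exact hb1 j
  -- positive lower end
  have hpos : ∀ s' : ℝ, s ≤ s' → 0 < s' → s' ≤ b c →
      F b ≤ F (Function.update b c s') + (A * (b c - s') + B / 2 * ((b c) ^ 2 - s' ^ 2)) := by
    intro s' hss hs'0 hs'
    rcases eq_or_lt_of_le hs' with h | h
    · rw [h, Function.update_eq_self]
      simp
    refine path_abs b c A (B / 2) hA (by positivity) s' hs'0 h fun r hr hr' => ?_
    have h1 := mass_two (Function.update b c r) (hup0 r (hs0.trans (hss.trans hr)))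
      (hup1 r hr') i c d hic hid hcd (by rw [Function.update_of_ne hic]; exact hi) a A B ha
      (by rw [Function.update_of_ne hcd.symm]; exact had)
      (by rw [Function.update_self, Function.update_of_ne hcd.symm]; exact hr'.trans hbcd) hA hB H
    have e : 2 * (B / 2) = B := by ring
    rw [e]
    simpa using h1
  rcases eq_or_lt_of_le hs0 with h0 | h0
  · -- lower end zero
    subst h0
    rcases eq_or_lt_of_le hs with h1 | h1
    · rw [h1, Function.update_eq_self]
      simp
    refine le_of_forall_pos_le_add fun ε hε => ?_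
    obtain ⟨δ, hδ, hend⟩ := path_end b hb0 hb1 i c hic hi (43 / 200) (39 / 200) _ (by norm_num)
      (by norm_num) le_rfl (slopeHyp _) ε hε
    set r := min (δ / 2) (b c) with hr
    have hr0 : 0 < r := lt_min (by linarith) h1
    have hrδ : r < δ := lt_of_le_of_lt (min_le_left _ _) (by linarith)
    have hrb : r ≤ b c := min_le_right _ _
    have h2 := hpos r hr0.le hr0 hrb
    have h3 := hend r hr0 hrδ hrb
    have h4 : A * (b c - r) ≤ A * (b c - 0) := mul_le_mul_of_nonneg_left (by linarith) hA
    have h5 : B / 2 * ((b c) ^ 2 - r ^ 2) ≤ B / 2 * ((b c) ^ 2 - 0 ^ 2) :=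
      mul_le_mul_of_nonneg_left (by nlinarith) (by positivity)
    linarith
  · exact hpos s le_rfl h0 hs

end Ent
end Pool.Agent.Lib.MP_6947cd_al
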