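import Pool.Agent.Lib.MP_6947cd_al.T.TwoNum

/-!
Problem MP_6947cd_al (Chollet).  The numerical condition of the two-entry loss, level 4 / 10.
-/

set_option autoImplicit false

namespace Pool.Agent.Lib.MP_6947cd_al
namespace Ent
open IA

theorem twoC04_14 : Cov (esE 4 208 345 140) ⟨0, 137438953472⟩ ⟨0, 125344325566⟩ ⟨175921860443, 204784040672⟩ :=
  Cov.of (open T in (s0 (s1 (s0 (s2 (s1 (s0 (s1 (s2 (s0 (s1 (s2 (s0 (v 0) (v 3)) (s0 (v 0) (v 3))) (v 3)) (v 3)) (s0 (s1 (s2 (s0 (v 0) (v 3)) (s0 (v 0) (v 3))) (v 3)) (v 3))) (v 3)) (v 3)) (s0 (v 3) (v 3))) (s1 (s0 (s1 (s2 (s0 (s1 (s2 (s0 (v 0) (v 3)) (s0 (v 0) (v 3))) (v 3)) (v 3)) (s0 (s1 (s2 (s0 (v 0) (v 3)) (s0 (v 0) (v 3))) (v 3)) (v 3))) (v 3)) (v 3)) (s0 (v 3) (v 3)))) (s2 (s1 (s0 (v 3) (d 3)) (s2 (v 1)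 (s0 (d 3) (d 1)))) (s1 (s0 (v 3) (d 3)) (s0 (d 3) (d 3))))) (s2 (s0 (s1 (s2 (v 1) (s0 (v 3) (d 1))) (d 1)) (d 1)) (s0 (s1 (s2 (s0 (v 3) (d 3)) (s0 (v 3) (d 3))) (s2 (s0 (d 3) (d 3)) (s0 (d 3) (d 3)))) (s1 (s2 (s0 (d 3) (d 1)) (s0 (d 3) (d 3))) (s2 (d 1) (s0 (d 3) (d 3))))))) (s1 (s2 (s0 (s1 (s2 (v 1) (s0 (d 1) (d 1))) (d 1)) (d 1)) (s0 (s0 (d 3) (d 3)) (s0 (d 3) (s0 (d 3) (d 3))))) (s2 (v 1) (s0 (s1 (s0 (d 3) (d 3)) (s2 (v 1) (s0 (d 3) (d 1)))) (s1 (s2 (v 1) (s0 (d 3) (d 1))) (d 1))))))) (by decide +kernel)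

theorem twoC04_15 : Cov (esE 4 208 345 140) ⟨0, 137438953472⟩ ⟨0, 125344325566⟩ ⟨204784040672, 233646220901⟩ :=
  Cov.of (open T in (s0 (s1 (s0 (s2 (s1 (s0 (s1 (s2 (s0 (s1 (s2 (s0 (v 0) (v 3)) (s0 (v 0) (v 3))) (v 3)) (v 3)) (s0 (s1 (s2 (s0 (v 0) (v 3)) (s0 (v 0) (v 3))) (v 3)) (v 3))) (v 3)) (v 3)) (s0 (v 3) (v 3))) (s1 (s0 (s1 (s2 (s0 (s1 (s2 (s0 (v 0) (v 3)) (s0 (v 0) (v 3))) (v 3)) (v 3)) (s0 (s1 (s2 (s0 (v 0) (v 3)) (s0 (v 0) (v 3))) (v 3)) (v 3))) (v 3)) (v 3)) (s0 (v 3) (v 3)))) (s0 (d 3) (d 3))) (s2 (s0 (s1 (s0 (v 3) (d 3)) (s2 (s0 (d 3) (d 3)) (s0 (d 3) (d 3)))) (s0 (d 4) (d 4))) (s0 (s1 (s0 (v 3) (d 3)) (s2 (s0 (d 3) (d 3)) (s0 (d 3) (d 3)))) (s0 (d 4) (d 3))))) (s1 (s2 (s0 (s0 (d 3) (d 3)) (s0 (d 3) (d 3))) (s0 (s0 (d 3) (d 3)) (s0 (d 3) (d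 3)))) (s2 (s0 (s0 (d 4) (d 4)) (s0 (d 5) (s0 (d 3) (d 3)))) (s0 (s0 (d 3) (d 3)) (s0 (d 4) (d 4))))))) (by decide +kernel)

theorem twoC04_17 : Cov (esE 4 208 345 140) ⟨0, 137438953472⟩ ⟨125344325566, 250688651132⟩ ⟨175921860443, 204784040672⟩ :=
  Cov.of (open T in (s0 (s1 (s2 (v 1) (s0 (s1 (s2 (d 1) (s0 (s0 (d 3) (d 3)) (d 3))) (s2 (v 1) (s0 (s1 (d 3) (d 1)) (d 1)))) (s1 (s2 (v 1) (s0 (d 3) (d 1))) (d 1)))) (s2 (v 1) (d 1))) (s1 (s2 (v 1) (d 1)) (d 1)))) (by decide +kernel)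

theorem twoC04_20 : Cov (esE 4 208 345 140) ⟨0, 68719476736⟩ ⟨125344325566, 188016488349⟩ ⟨204784040672, 233646220901⟩ :=
  Cov.of (open T in (s2 (s0 (s1 (s2 (s0 (s0 (v 3) (d 3)) (d 3)) (s0 (d 3) (d 3))) (s2 (s0 (s0 (d 3) (d 3)) (d 4)) (s0 (s0 (d 3) (d 3)) (d 4)))) (s1 (s0 (d 3) (d 3)) (s0 (d 4) (d 4)))) (s0 (s1 (s2 (s0 (d 3) (d 3)) (s0 (d 3) (d 3))) (s2 (s0 (s0 (d 3) (d 3)) (d 4)) (s0 (s0 (d 3) (d 3)) (d 4)))) (s0 (d 4) (d 4))))) (by decide +kernel)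

theorem twoC04_21 : Cov (esE 4 208 345 140) ⟨0, 68719476736⟩ ⟨188016488349, 250688651132⟩ ⟨204784040672, 233646220901⟩ :=
  Cov.of (open T in (s2 (s0 (s1 (s2 (s0 (s1 (s0 (d 3) (d 3)) (s2 (d 1) (s0 (d 3) (d 3)))) (d 4)) (s0 (s0 (d 3) (d 3)) (d 4))) (s2 (s0 (s1 (s2 (d 1) (s0 (v 4) (v 4))) (s2 (v 1) (s0 (v 4) (d 1)))) (d 5)) (s0 (s1 (s0 (v 4) (d 4)) (s0 (v 4) (d 4))) (d 4)))) (s1 (s2 (s0 (d 4) (d 4)) (s0 (d 4) (d 4))) (s2 (d 1) (s0 (d 4) (d 4))))) (s0 (s1 (s2 (s0 (s0 (d 3) (d 3)) (d 4)) (s0 (s0 (d 3) (d 3)) (d 4))) (s2 (s0 (s0 (d 4) (d 4)) (d 4)) (s0 (s0 (d 4) (d 4)) (d 4)))) (s0 (s0 (d 4) (d 4)) (s0 (d 4) (d 4)))))) (by decide +kernel)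

theorem twoC04_22 : Cov (esE 4 208 345 140) ⟨68719476736, 137438953472⟩ ⟨125344325566, 250688651132⟩ ⟨204784040672, 233646220901⟩ :=
  Cov.of (open T in (s1 (s2 (s0 (s0 (s0 (d 4) (d 4)) (s0 (d 4) (d 4))) (s0 (s0 (d 4) (d 4)) (d 6))) (s0 (s0 (d 4) (d 4)) (s0 (d 4) (d 4)))) (s2 (s0 (s1 (s0 (d 4) (d 4)) (s2 (v 1) (s0 (d 4) (d 4)))) (s1 (s0 (d 4) (d 4)) (s2 (v 1) (s0 (d 4) (d 1))))) (s0 (s0 (d 6) (d 5)) (s0 (d 4) (d 4)))))) (by decide +kernel)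

theorem twoC04_24 : Cov (esE 4 208 345 140) ⟨137438953472, 274877906944⟩ ⟨0, 125344325566⟩ ⟨175921860443, 233646220901⟩ :=
  Cov.of (open T in (s2 (s0 (s1 (s2 (v 1) (s0 (s1 (s2 (d 1) (s0 (d 3) (d 3))) (s2 (v 1) (s0 (d 3) (d 1)))) (s1 (s2 (v 1) (s0 (d 1) (d 1))) (d 1)))) (s2 (v 1) (d 1))) (v 2)) (s0 (s0 (s0 (s1 (s0 (d 3) (d 3)) (s0 (d 3) (d 3))) (s1 (s0 (d 3) (d 3)) (s0 (d 3) (d 3)))) (s0 (s1 (s0 (s1 (d 3) (d 3)) (s1 (d 3) (d 3))) (s0 (d 3) (d 3))) (s1 (s0 (s1 (d 3) (d 3)) (s1 (s0 (d 3) (d 3)) (d 3))) (s0 (s1 (d 3) (d 3)) (s1 (d 3) (d 3)))))) (s0 (s0 (s1 (s0 (s1 (s0 (d 3) (s1 (d 3) (d 3))) (s0 (d 3) (d 3))) (s1 (s0 (s1 (s2 (d 3) (d 3)) (d 3)) (s1 (s2 (s0 (d 3) (v 2)) (d 3)) (s2 (d 3) (d 3)))) (s0 (d 3) (s1 (d 3) (d 3))))) (s0 (s1 (d 3) (d 3)) (s1 (d 3)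 (d 3)))) (s1 (s0 (s1 (s0 (s1 (s2 (v 2) (d 3)) (s2 (v 2) (d 3))) (s1 (s2 (v 2) (d 3)) (s2 (v 2) (d 3)))) (s0 (s1 (d 3) (d 3)) (s1 (d 5) (d 3)))) (s1 (s0 (s1 (s2 (v 2) (d 3)) (s2 (v 2) (d 3))) (v 2)) (s0 (s1 (s2 (v 2) (d 3)) (d 3)) (v 2)))) (s0 (s1 (d 3) (d 3)) (s1 (d 3) (d 3))))) (v 2))))) (by decide +kernel)

theorem twoC04_25 : Cov (esE 4 208 345 140) ⟨137438953472, 274877906944⟩ ⟨125344325566, 250688651132⟩ ⟨175921860443, 233646220901⟩ :=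
  Cov.of (open T in (s2 (d 1) (s0 (s1 (s0 (s0 (s0 (d 4) (d 4)) (s0 (d 3) (d 3))) (s0 (s0 (d 3) (d 3)) (s0 (d 3) (d 3)))) (s2 (s0 (s1 (s2 (v 1) (s0 (d 3) (d 1))) (d 1)) (d 1)) (s0 (s0 (d 4) (d 3)) (s0 (d 3) (d 3))))) (s2 (s1 (s0 (s2 (v 1) (s1 (s0 (d 3) (v 2)) (d 1))) (v 2)) (d 1)) (s0 (s0 (s1 (d 3) (d 3)) (s1 (d 3) (d 3))) (v 2)))))) (by decide +kernel)

theorem twoC04_28 : Cov (esE 4 208 345 140) ⟨0, 137438953472⟩ ⟨0, 125344325566⟩ ⟨233646220901, 291370581359⟩ :=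
  Cov.of (open T in (s0 (s2 (s1 (s0 (s1 (s2 (s0 (s1 (s2 (s0 (s1 (s2 (s0 (v 0) (v 3)) (s0 (v 0) (v 3))) (v 3)) (v 3)) (s0 (s1 (s2 (s0 (v 0) (v 3)) (s0 (v 0) (v 3))) (v 3)) (v 3))) (v 3)) (v 3)) (s0 (s1 (s2 (s0 (s1 (s2 (s0 (v 0) (v 3)) (s0 (v 0) (v 3))) (v 3)) (v 3)) (s0 (s1 (s2 (s0 (v 0) (v 3)) (s0 (v 0) (v 3))) (v 3)) (v 3))) (v 3)) (v 3))) (s2 (s0 (v 3) (v 3)) (s0 (v 3) (v 3)))) (s0 (d 3) (d 3))) (s2 (s0 (s1 (s0 (v 3) (d 3)) (s2 (s0 (d 3) (d 3)) (s0 (d 3) (d 3)))) (s0 (d 3) (d 3))) (s0 (s1 (s0 (v 3) (d 3)) (s0 (d 3) (d 3))) (s0 (d 3) (d 3))))) (s1 (s0 (s1 (s2 (s0 (s1 (s2 (s0 (s1 (s2 (s0 (v 0) (v 3)) (s0 (v 0) (v 3))) (v 3)) (v 3)) (s0 (s1 (s2 (s0 (v 0) (v 3)) (s0 (v 0) (v 3))) (v 3)) (v 3))) (v 3)) (v 3)) (s0 (s1 (s2 (s0 (s1 (s2 (s0 (v 0) (v 3)) (s0 (v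 0) (v 3))) (v 3)) (v 3)) (s0 (s1 (s2 (s0 (v 0) (v 3)) (s0 (v 0) (v 3))) (v 3)) (v 3))) (v 3)) (v 3))) (s2 (s0 (v 3) (v 3)) (s0 (v 3) (v 3)))) (s0 (d 3) (d 3))) (s0 (s2 (s1 (s0 (v 3) (d 3)) (s0 (d 3) (d 3))) (s1 (s0 (v 3) (v 3)) (s0 (d 3) (d 3)))) (s0 (d 3) (d 3))))) (s0 (s0 (s1 (d 3) (d 4)) (s1 (d 3) (d 4))) (s0 (s1 (d 3) (d 4)) (s1 (d 3) (d 4)))))) (by decide +kernel)

theorem twoC04_30 : Cov (esE 4 208 345 140) ⟨0, 137438953472⟩ ⟨125344325566, 250688651132⟩ ⟨233646220901, 262508401130⟩ :=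
  Cov.of (open T in (s0 (s1 (s2 (s0 (s1 (s0 (d 3) (d 3)) (s0 (s0 (d 3) (d 3)) (d 3))) (s0 (d 4) (d 4))) (s0 (s0 (s0 (v 4) (d 3)) (d 4)) (s0 (d 4) (d 4)))) (s2 (s0 (s1 (s0 (s0 (d 3) (d 3)) (d 4)) (s0 (s0 (d 4) (d 4)) (d 4))) (s0 (d 6) (d 5))) (s0 (s0 (s0 (d 4) (d 4)) (s0 (d 4) (d 4))) (s0 (d 4) (d 4))))) (s0 (s0 (s1 (d 4) (d 5)) (s1 (d 4) (d 4))) (s0 (s1 (d 4) (d 4)) (s1 (d 4) (d 4)))))) (by decide +kernel)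

theorem twoC04_31 : Cov (esE 4 208 345 140) ⟨0, 137438953472⟩ ⟨125344325566, 250688651132⟩ ⟨262508401130, 291370581359⟩ :=
  Cov.of (open T in (s0 (s1 (s2 (s0 (s0 (s0 (d 3) (d 3)) (d 4)) (s0 (d 4) (d 4))) (s0 (s0 (s0 (d 3) (d 3)) (d 4)) (s0 (d 4) (d 3)))) (s2 (s0 (s0 (s0 (d 4) (d 4)) (d 5)) (s0 (d 4) (d 4))) (s0 (s0 (s0 (d 4) (d 4)) (d 4)) (s0 (d 4) (d 4))))) (s0 (s0 (s1 (d 4) (d 4)) (s1 (d 3) (d 4))) (s0 (s1 (d 3) (d 3)) (d 4))))) (by decide +kernel)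

theorem twoC04_32 : Cov (esE 4 208 345 140) ⟨137438953472, 274877906944⟩ ⟨0, 250688651132⟩ ⟨233646220901, 291370581359⟩ :=
  Cov.of (open T in (s1 (s2 (s0 (s0 (s0 (s1 (d 3) (d 3)) (s1 (d 3) (d 3))) (s0 (s1 (d 3) (d 3)) (s1 (d 3) (d 3)))) (s0 (s0 (s1 (s0 (d 3) (d 3)) (d 3)) (s1 (s0 (d 3) (d 3)) (d 3))) (s0 (s1 (s0 (d 3) (s1 (d 3) (d 3))) (d 3)) (s1 (s0 (s1 (d 3) (d 3)) (v 2)) (d 3))))) (s0 (s0 (s0 (s1 (d 3) (d 3)) (s1 (d 3) (d 3))) (s0 (d 4) (s1 (d 3) (d 3)))) (s0 (s0 (s1 (d 3) (d 3)) (s1 (d 3) (d 3))) (s0 (s1 (d 3) (d 3)) (s1 (d 3) (d 3)))))) (s2 (s0 (s0 (s0 (s1 (d 3) (d 3)) (s1 (d 3) (d 3))) (s0 (s1 (d 3) (d 3)) (s1 (d 3) (d 3)))) (s0 (s0 (d 6) (d 3)) (s0 (d 3) (d 3)))) (s0 (s0 (s0 (d 4) (d 3)) (s0 (d 3) (d 3))) (s0 (s0 (d 3) (d 3)) (d 3)))))) (by decide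 +kernel)

theorem twoC04_36 : Cov (esE 4 208 345 140) ⟨0, 137438953472⟩ ⟨250688651132, 501377302265⟩ ⟨175921860443, 204784040672⟩ :=
  Cov.of (open T in (s1 (d 1) (v 1))) (by decide +kernel)

theorem twoC04_40 : Cov (esE 4 208 345 140) ⟨0, 68719476736⟩ ⟨250688651132, 313360813915⟩ ⟨204784040672, 233646220901⟩ :=
  Cov.of (open T in (s2 (s0 (s1 (s2 (d 1) (s0 (s1 (s0 (d 4) (d 4)) (s2 (s0 (d 4) (d 4)) (s0 (d 4) (d 4)))) (d 6))) (s2 (d 1) (s0 (s1 (s2 (s0 (d 4) (d 1)) (s0 (d 4) (d 4))) (s2 (d 1) (s0 (d 4) (d 4)))) (s0 (d 4) (d 4))))) (s1 (s2 (v 1) (s0 (d 5) (d 5))) (s2 (v 1) (s0 (s0 (d 4) (d 4)) (d 6))))) (s0 (s1 (s2 (s0 (s0 (d 4) (d 4)) (d 6)) (s0 (s0 (d 4) (d 4)) (d 5))) (s2 (s0 (s0 (d 4) (d 4)) (s0 (d 4) (d 4))) (s0 (s0 (d 4) (d 4)) (d 6)))) (s0 (s0 (d 4)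 (d 4)) (s0 (d 4) (d 4)))))) (by decide +kernel)

theorem twoC04_41 : Cov (esE 4 208 345 140) ⟨0, 68719476736⟩ ⟨313360813915, 376032976698⟩ ⟨204784040672, 233646220901⟩ :=
  Cov.of (open T in (s2 (s0 (s1 (s2 (v 1) (s0 (s1 (s2 (v 1) (s0 (d 4) (d 4))) (s2 (v 1) (s0 (d 4) (d 1)))) (s1 (s0 (d 4) (d 1)) (d 1)))) (d 1)) (d 1)) (s0 (s1 (s2 (s0 (s1 (s0 (d 4) (d 4)) (s2 (s0 (d 4) (d 4)) (s0 (d 4) (d 4)))) (s0 (d 4) (d 4))) (s0 (s0 (d 4) (d 4)) (s0 (d 4) (d 4)))) (s2 (s0 (s1 (s2 (s0 (d 4) (d 4)) (s0 (d 4) (d 4))) (s2 (s0 (d 4) (d 4)) (s0 (d 4) (d 4)))) (s0 (d 4) (d 4))) (s0 (s0 (d 4) (d 4)) (s0 (d 4) (d 4))))) (s0 (s0 (d 6) (d 6)) (s0 (d 5) (d 5)))))) (by decide +kernel)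

theorem twoC04_42 : Cov (esE 4 208 345 140) ⟨68719476736, 137438953472⟩ ⟨250688651132, 376032976698⟩ ⟨204784040672, 233646220901⟩ :=
  Cov.of (open T in (s2 (s1 (s0 (s1 (s2 (v 1) (s0 (d 4) (d 4))) (d 1)) (d 1)) (d 1)) (s1 (s0 (s0 (s0 (d 4) (d 4)) (d 5)) (s0 (d 4) (d 4))) (s0 (s0 (s0 (d 4) (d 4)) (d 5)) (s0 (d 4) (d 4)))))) (by decide +kernel)

theorem twoC04_45 : Cov (esE 4 208 345 140) ⟨0, 68719476736⟩ ⟨376032976698, 501377302265⟩ ⟨204784040672, 219215130786⟩ :=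
  Cov.of (open T in (d 1)) (by decide +kernel)

theorem twoC04_48 : Cov (esE 4 208 345 140) ⟨0, 34359738368⟩ ⟨376032976698, 438705139481⟩ ⟨219215130786, 233646220901⟩ :=
  Cov.of (open T in (s2 (s1 (s0 (s2 (s1 (s0 (d 4) (d 4)) (s0 (d 4) (d 1))) (s1 (s0 (d 4) (d 4)) (s0 (d 4) (d 4)))) (s0 (d 5) (d 5))) (s0 (s2 (d 1) (s1 (s0 (d 4) (d 5)) (s0 (d 5) (d 5)))) (s2 (d 1) (s1 (s0 (d 5) (d 5)) (s0 (d 5) (d 5)))))) (s1 (s0 (s0 (d 4) (d 5)) (s0 (d 5) (d 5))) (s0 (s2 (s1 (s0 (d 4) (d 5)) (s0 (d 5) (d 5))) (s1 (s0 (d 4) (d 4)) (s0 (d 4) (d 5)))) (s0 (d 5) (d 5)))))) (by decide +kernel)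

theorem twoC04_49 : Cov (esE 4 208 345 140) ⟨34359738368, 68719476736⟩ ⟨376032976698, 438705139481⟩ ⟨219215130786, 233646220901⟩ :=
  Cov.of (open T in (s2 (s1 (s0 (s0 (d 5) (d 5)) (d 6)) (s0 (s2 (v 1) (s0 (d 5) (d 5))) (d 6))) (s1 (s0 (s0 (d 4) (d 4)) (d 6)) (s0 (s0 (d 5) (d 5)) (d 6))))) (by decide +kernel)

theorem twoC04_51 : Cov (esE 4 208 345 140) ⟨0, 34359738368⟩ ⟨438705139481, 501377302265⟩ ⟨219215130786, 233646220901⟩ :=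
  Cov.of (open T in (s2 (s1 (s0 (s2 (v 1) (s1 (s0 (d 6) (d 5)) (s0 (d 6) (d 1)))) (s2 (v 1) (s1 (s0 (d 5) (d 1)) (d 1)))) (d 1)) (s1 (s0 (s2 (s1 (s0 (d 6) (d 5)) (s0 (d 6) (d 5))) (s1 (s0 (d 5) (d 5)) (s0 (d 6) (d 5)))) (s0 (d 6) (d 5))) (s0 (s2 (s1 (s0 (d 6) (d 6)) (s0 (d 6) (d 6))) (s1 (s0 (d 6) (d 5)) (s0 (d 6) (d 6)))) (s0 (d 6) (d 6)))))) (by decide +kernel)

theorem twoC04_52 : Cov (esE 4 208 345 140) ⟨34359738368, 68719476736⟩ ⟨438705139481, 501377302265⟩ ⟨219215130786, 233646220901⟩ :=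
  Cov.of (open T in (s2 (d 1) (s1 (s0 (s0 (d 5) (d 5)) (d 6)) (s0 (s0 (d 5) (d 5)) (d 6))))) (by decide +kernel)

theorem twoC04_53 : Cov (esE 4 208 345 140) ⟨68719476736, 137438953472⟩ ⟨376032976698, 501377302265⟩ ⟨204784040672, 233646220901⟩ :=
  Cov.of (open T in (s2 (d 1) (s1 (s0 (s0 (s0 (d 4) (d 4)) (d 5)) (s0 (d 4) (d 4))) (s2 (d 1) (s0 (s1 (s0 (d 4) (d 4)) (s0 (d 4) (d 4))) (d 6)))))) (by decide +kernel)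

theorem twoC04_54 : Cov (esE 4 208 345 140) ⟨137438953472, 274877906944⟩ ⟨250688651132, 501377302265⟩ ⟨175921860443, 233646220901⟩ :=
  Cov.of (open T in (s2 (v 1) (s1 (s0 (s2 (d 1) (s1 (s0 (s0 (d 4) (d 3)) (d 4)) (s0 (d 6) (d 3)))) (s2 (d 1) (s1 (s0 (d 3) (v 2)) (s0 (d 3) (v 2))))) (s2 (d 1) (s0 (s1 (s2 (d 1) (s0 (d 4) (d 3))) (s2 (v 1) (s0 (d 4) (d 3)))) (s0 (d 3) (v 2))))))) (by decide +kernel)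

theorem twoC04_60 : Cov (esE 4 208 345 140) ⟨0, 68719476736⟩ ⟨250688651132, 313360813915⟩ ⟨233646220901, 262508401130⟩ :=
  Cov.of (open T in (s2 (s0 (s1 (s2 (s0 (s0 (d 4) (d 4)) (d 4)) (s0 (s0 (d 4) (d 4)) (d 4))) (s2 (s0 (s0 (d 4) (d 4)) (d 6)) (s0 (s0 (d 4) (d 4)) (d 5)))) (s0 (s0 (d 4) (d 4)) (d 6))) (s0 (s1 (s0 (s0 (d 4) (d 4)) (d 4)) (s0 (s0 (d 4) (d 4)) (d 5))) (s0 (d 6) (d 5))))) (by decide +kernel)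

theorem twoC04_61 : Cov (esE 4 208 345 140) ⟨0, 68719476736⟩ ⟨313360813915, 376032976698⟩ ⟨233646220901, 262508401130⟩ :=
  Cov.of (open T in (s2 (s0 (s1 (s2 (s0 (s0 (d 4) (d 4)) (s0 (d 4) (d 4))) (s0 (s0 (d 4) (d 4)) (d 6))) (s2 (s0 (s0 (d 4) (d 4)) (s0 (d 4) (d 4))) (s0 (s0 (d 4) (d 4)) (s0 (d 4) (d 4))))) (s0 (s0 (d 5) (d 4)) (d 6))) (s0 (s1 (s0 (s0 (d 4) (d 4)) (d 6)) (s0 (s0 (d 4) (d 4)) (s0 (d 4) (d 4)))) (s0 (s0 (d 4) (d 4)) (d 5))))) (by decide +kernel)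

theorem twoC04_62 : Cov (esE 4 208 345 140) ⟨68719476736, 137438953472⟩ ⟨250688651132, 376032976698⟩ ⟨233646220901, 262508401130⟩ :=
  Cov.of (open T in (s0 (s0 (s1 (d 6) (d 6)) (s1 (d 4) (d 4))) (s0 (s1 (d 4) (d 4)) (s1 (d 4) (d 4))))) (by decide +kernel)

theorem twoC04_63 : Cov (esE 4 208 345 140) ⟨0, 137438953472⟩ ⟨250688651132, 376032976698⟩ ⟨262508401130, 291370581359⟩ :=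
  Cov.of (open T in (s0 (s1 (s2 (s0 (s0 (s0 (d 4) (d 4)) (s0 (d 4) (d 4))) (s0 (d 5) (d 4))) (s0 (s0 (s0 (d 4) (d 4)) (d 6)) (s0 (d 4) (d 4)))) (s2 (s0 (s0 (s0 (d 4) (d 4)) (s0 (d 4) (d 4))) (s0 (d 6) (d 4))) (s0 (s0 (s0 (d 4) (d 4)) (s0 (d 4) (d 4))) (s0 (d 4) (d 4))))) (s0 (s0 (s1 (d 4) (d 4)) (d 5)) (s0 (d 4) (d 4))))) (by decide +kernel)

theorem twoC04_68 : Cov (esE 4 208 345 140) ⟨0, 68719476736⟩ ⟨376032976698, 438705139481⟩ ⟨233646220901, 248077311015⟩ :=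
  Cov.of (open T in (s0 (s1 (s2 (s0 (s0 (d 4) (d 4)) (s0 (d 4) (d 4))) (s0 (s0 (d 4) (d 4)) (s0 (d 4) (d 4)))) (s2 (s0 (s0 (d 6) (d 5)) (s0 (d 5) (d 5))) (s0 (s0 (d 5) (d 5)) (s0 (d 5) (d 4))))) (s0 (s0 (d 6) (d 5)) (s0 (d 5) (d 4))))) (by decide +kernel)

theorem twoC04_69 : Cov (esE 4 208 345 140) ⟨0, 68719476736⟩ ⟨438705139481, 501377302265⟩ ⟨233646220901, 248077311015⟩ :=
  Cov.of (open T in (s0 (s2 (s1 (s0 (s0 (d 6) (d 5)) (s0 (d 5) (d 5))) (s0 (s0 (d 6) (d 6)) (s0 (d 6) (d 5)))) (s1 (s0 (s0 (d 6) (d 5)) (s0 (d 5) (d 5))) (s0 (s0 (d 6) (d 5)) (s0 (d 5) (d 5))))) (s0 (s0 (d 6) (d 5)) (s0 (d 5) (d 4))))) (by decide +kernel)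

end Ent
end Pool.Agent.Lib.MP_6947cd_al
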