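import Pool.Agent.Lib.MP_6947cd_al.T.TwoNum

/-!
Problem MP_6947cd_al (Chollet).  The numerical condition of the two-entry loss, level 4 / 10.
-/

set_option autoImplicit false

namespace Pool.Agent.Lib.MP_6947cd_al
namespace Ent
open IA

theorem twoC04_70 : Cov (esE 4 208 345 140) ⟨0, 68719476736⟩ ⟨376032976698, 501377302265⟩ ⟨248077311015, 262508401130⟩ :=
  Cov.of (open T in (s1 (s0 (s1 (s0 (s0 (d 4) (d 4)) (s0 (d 4) (d 4))) (s0 (s0 (d 4) (d 4)) (s0 (d 4) (d 4)))) (s0 (s0 (d 5) (d 4)) (d 6))) (s0 (s0 (s0 (s0 (d 5) (d 5)) (d 6)) (s0 (d 6) (d 5))) (s0 (s0 (d 5) (d 4)) (d 6))))) (by decide +kernel)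

theorem twoC04_71 : Cov (esE 4 208 345 140) ⟨68719476736, 137438953472⟩ ⟨376032976698, 501377302265⟩ ⟨233646220901, 262508401130⟩ :=
  Cov.of (open T in (s2 (s1 (s0 (s0 (d 5) (d 4)) (s0 (d 4) (d 4))) (s0 (s0 (d 5) (d 4)) (d 5))) (s0 (s0 (s1 (d 4) (d 4)) (d 6)) (s0 (d 4) (d 4))))) (by decide +kernel)

theorem twoC04_72 : Cov (esE 4 208 345 140) ⟨0, 137438953472⟩ ⟨376032976698, 501377302265⟩ ⟨262508401130, 291370581359⟩ :=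
  Cov.of (open T in (s0 (s1 (s2 (s0 (s0 (s0 (d 6) (d 5)) (s0 (d 4) (d 4))) (s0 (d 6) (d 4))) (s0 (s0 (s0 (d 4) (d 4)) (s0 (d 4) (d 4))) (s0 (d 5) (d 4)))) (s2 (s0 (s0 (s0 (d 6) (d 5)) (s0 (d 5) (d 5))) (s0 (d 6) (d 4))) (s0 (s0 (s0 (d 6) (d 5)) (s0 (d 4) (d 4))) (s0 (d 5) (d 4))))) (s0 (s0 (s1 (d 4) (d 4)) (d 4)) (s0 (d 4) (d 4))))) (by decide +kernel)

theorem twoC04_73 : Cov (esE 4 208 345 140) ⟨137438953472, 274877906944⟩ ⟨250688651132, 501377302265⟩ ⟨233646220901, 291370581359⟩ :=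
  Cov.of (open T in (s2 (s1 (s0 (s0 (s0 (d 5) (d 4)) (s0 (d 3) (d 3))) (s0 (d 4) (d 3))) (s2 (s0 (s0 (d 6) (d 3)) (s0 (d 3) (d 3))) (s0 (s0 (d 4) (d 3)) (d 4)))) (s1 (s0 (s0 (s0 (d 4) (d 3)) (d 4)) (s0 (d 3) (d 3))) (s0 (s0 (d 4) (d 3)) (d 4))))) (by decide +kernel)

theorem twoC04_74 : Cov (esE 4 208 345 140) ⟨274877906944, 549755813888⟩ ⟨0, 501377302265⟩ ⟨175921860443, 291370581359⟩ :=
  Cov.of (open T in (s2 (v 2) (s1 (s0 (s0 (s0 (s1 (s0 (s1 (s0 (s1 (s2 (v 2) (d 3)) (d 3)) (s1 (s2 (v 2) (d 3)) (d 3))) (d 3)) (s1 (s0 (s1 (d 3) (d 3)) (v 2)) (d 3))) (s0 (d 3) (d 3))) (v 2)) (v 2)) (v 2)) (s2 (v 2) (s0 (s0 (s0 (d 3) (v 2)) (v 2)) (v 2)))))) (by decide +kernel)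

theorem twoC04_80 : Cov (esE 4 208 345 140) ⟨0, 137438953472⟩ ⟨0, 125344325566⟩ ⟨291370581359, 349094941817⟩ :=
  Cov.of (open T in (s0 (s2 (s1 (s0 (s1 (s2 (s0 (s1 (s2 (s0 (s1 (s2 (s0 (v 0) (v 3)) (s0 (v 0) (v 3))) (v 3)) (v 3)) (s0 (s1 (s2 (s0 (v 0) (v 3)) (s0 (v 0) (v 3))) (v 3)) (v 3))) (v 3)) (v 3)) (s0 (s1 (s2 (s0 (s1 (s2 (s0 (v 0) (v 3)) (s0 (v 0) (v 3))) (v 3)) (v 3)) (s0 (s1 (s2 (s0 (v 0) (v 3)) (s0 (v 0) (v 3))) (v 3)) (v 3))) (v 3)) (v 3))) (s2 (s0 (v 3) (v 3)) (s0 (v 3) (v 3)))) (s0 (d 3) (d 3))) (s0 (s2 (s1 (s0 (v 3) (v 3)) (s0 (d 3) (d 3))) (s1 (s0 (v 3) (v 3)) (s0 (v 3) (d 3)))) (s0 (d 3) (d 3)))) (s1 (s0 (s1 (s2 (s0 (s1 (s2 (s0 (s1 (s2 (s0 (v 0) (v 3)) (s0 (v 0) (v 3))) (v 3)) (v 3)) (s0 (s1 (s2 (s0 (v 0) (v 3)) (s0 (v 0) (v 3))) (v 3)) (v 3))) (v 3)) (v 3))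 (s0 (s1 (s2 (s0 (s1 (s2 (s0 (v 0) (v 3)) (s0 (v 0) (v 3))) (v 3)) (v 3)) (s0 (s1 (s2 (s0 (v 0) (v 3)) (s0 (v 0) (v 3))) (v 3)) (v 3))) (v 3)) (v 3))) (s2 (s0 (v 3) (v 3)) (s0 (v 3) (v 3)))) (s0 (d 3) (d 3))) (s0 (s0 (v 4) (d 3)) (s0 (d 3) (d 3))))) (s0 (s0 (s1 (d 3) (d 3)) (s1 (d 3) (d 3))) (s0 (s1 (d 3) (d 3)) (s1 (d 3) (d 3)))))) (by decide +kernel)

theorem twoC04_81 : Cov (esE 4 208 345 140) ⟨0, 137438953472⟩ ⟨125344325566, 250688651132⟩ ⟨291370581359, 349094941817⟩ :=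
  Cov.of (open T in (s2 (s0 (s1 (s2 (s0 (s0 (s0 (d 3) (d 3)) (d 4)) (s0 (d 3) (d 3))) (s0 (s0 (s0 (d 3) (d 3)) (d 4)) (s0 (d 3) (d 3)))) (s2 (s0 (s0 (s0 (d 4) (d 4)) (d 4)) (s0 (d 4) (d 4))) (s0 (s0 (s0 (v 4) (d 4)) (d 4)) (s0 (d 4) (d 4))))) (s0 (s0 (s1 (d 3) (d 4)) (d 4)) (s0 (d 4) (d 3)))) (s0 (s1 (s2 (s0 (s0 (s0 (d 3) (d 3)) (d 3)) (s0 (d 3) (d 3))) (s0 (s0 (s0 (d 3) (d 3)) (d 3)) (s0 (d 3) (d 3)))) (s0 (s0 (s0 (v 4) (d 4)) (d 4)) (s0 (d 4) (d 3)))) (s0 (s0 (d 4) (d 4)) (s0 (d 3) (d 3)))))) (by decide +kernel)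

theorem twoC04_82 : Cov (esE 4 208 345 140) ⟨0, 137438953472⟩ ⟨0, 250688651132⟩ ⟨349094941817, 406819302276⟩ :=
  Cov.of (open T in (s1 (s0 (s1 (s2 (s0 (s1 (s2 (s0 (s1 (s2 (s0 (s1 (s2 (s0 (v 0) (v 3)) (s0 (v 0) (v 3))) (v 3)) (v 3)) (s0 (s1 (s2 (s0 (v 0) (v 3)) (s0 (v 0) (v 3))) (v 3)) (v 3))) (v 3)) (v 3)) (s0 (s1 (s2 (s0 (s1 (s2 (s0 (v 0) (v 3)) (s0 (v 0) (v 3))) (v 3)) (v 3)) (s0 (s1 (s2 (s0 (v 0) (v 3)) (s0 (v 0) (v 3))) (v 3)) (v 3))) (v 3)) (v 3))) (s2 (s0 (v 3) (v 3)) (s0 (v 3) (v 3)))) (s0 (d 3) (d 3))) (s0 (s1 (s2 (s0 (s1 (s2 (s0 (s1 (s2 (s0 (v 0) (v 3)) (s0 (v 0) (v 3))) (v 3)) (v 3)) (s0 (s1 (s2 (s0 (v 0) (v 3)) (s0 (v 0) (v 3))) (v 3)) (v 3))) (v 3)) (v 3)) (s0 (s1 (s2 (s0 (s1 (s2 (s0 (v 0) (v 3)) (s0 (v 0) (v 3))) (v 3)) (v 3)) (s0 (s1 (s2 (s0 (v 0) (v 3)) (s0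 (v 0) (v 3))) (v 3)) (v 3))) (v 3)) (v 3))) (s2 (s0 (v 3) (v 3)) (s0 (v 3) (v 3)))) (s0 (v 3) (d 3)))) (s2 (s0 (s0 (v 4) (d 3)) (s0 (d 3) (d 3))) (s0 (s0 (v 3) (d 3)) (s0 (d 3) (d 3))))) (s0 (s0 (s1 (d 3) (d 3)) (d 3)) (s0 (d 3) (d 3)))) (s2 (s0 (s1 (s0 (s0 (s0 (d 3) (d 3)) (d 3)) (s0 (d 3) (d 3))) (s0 (s0 (s0 (d 3) (d 3)) (d 4)) (s0 (d 3) (d 3)))) (s0 (s0 (d 4) (d 3)) (d 4))) (s0 (s1 (s0 (s0 (s0 (d 3) (d 3)) (d 3)) (s0 (d 3) (d 3))) (s0 (s0 (s0 (d 3) (d 3)) (d 3)) (s0 (d 3) (d 3)))) (s0 (s0 (d 3) (d 3)) (d 3)))))) (by decide +kernel)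

theorem twoC04_83 : Cov (esE 4 208 345 140) ⟨137438953472, 274877906944⟩ ⟨0, 250688651132⟩ ⟨291370581359, 406819302276⟩ :=
  Cov.of (open T in (s0 (s0 (s1 (s0 (s1 (d 3) (d 3)) (s1 (d 3) (d 3))) (s0 (s1 (d 3) (d 3)) (d 6))) (s1 (s0 (s1 (d 3) (d 3)) (s1 (d 3) (d 3))) (s0 (d 4) (d 3)))) (s0 (s1 (s0 (s1 (d 3) (d 3)) (s1 (d 3) (d 3))) (s0 (d 3) (d 3))) (s1 (s0 (s1 (d 3) (d 3)) (s1 (d 3) (d 3))) (s0 (d 3) (d 3)))))) (by decide +kernel)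

theorem twoC04_87 : Cov (esE 4 208 345 140) ⟨0, 137438953472⟩ ⟨250688651132, 376032976698⟩ ⟨291370581359, 349094941817⟩ :=
  Cov.of (open T in (s2 (s0 (s1 (s2 (s0 (s0 (s0 (d 4) (d 4)) (d 4)) (s0 (d 4) (d 4))) (s0 (s0 (s0 (d 4) (d 4)) (d 4)) (s0 (d 4) (d 4)))) (s2 (s0 (s0 (s0 (d 4) (d 4)) (d 6)) (s0 (d 4) (d 4))) (s0 (s0 (s0 (d 4) (d 4)) (d 4)) (s0 (d 4) (d 4))))) (s0 (s0 (d 4) (d 4)) (s0 (d 4) (d 3)))) (s0 (s1 (s0 (s0 (s0 (d 4) (d 4)) (d 4)) (s0 (d 4) (d 4))) (s0 (s0 (s0 (d 4) (d 4)) (d 4)) (s0 (d 4) (d 4)))) (s0 (s0 (d 4) (d 4)) (d 6))))) (by decide +kernel)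

theorem twoC04_88 : Cov (esE 4 208 345 140) ⟨0, 137438953472⟩ ⟨376032976698, 501377302265⟩ ⟨291370581359, 349094941817⟩ :=
  Cov.of (open T in (s2 (s0 (s1 (s2 (s0 (s0 (s0 (d 4) (d 4)) (d 6)) (s0 (d 4) (d 4))) (s0 (s0 (s0 (d 4) (d 4)) (d 5)) (s0 (d 4) (d 4)))) (s2 (s0 (s0 (s0 (d 4) (d 4)) (d 6)) (s0 (d 4) (d 4))) (s0 (s0 (s0 (d 4) (d 4)) (d 5)) (s0 (d 4) (d 4))))) (s0 (s0 (d 4) (d 4)) (d 6))) (s0 (s0 (s0 (s0 (s0 (d 4) (d 4)) (d 5)) (s0 (d 4) (d 4))) (s0 (d 5) (d 4))) (s0 (s0 (d 4) (d 4)) (d 4))))) (by decide +kernel)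

theorem twoC04_89 : Cov (esE 4 208 345 140) ⟨137438953472, 274877906944⟩ ⟨250688651132, 501377302265⟩ ⟨291370581359, 349094941817⟩ :=
  Cov.of (open T in (s0 (s0 (s1 (s0 (d 3) (d 3)) (d 4)) (s1 (d 4) (d 3))) (s0 (s1 (d 3) (d 3)) (d 3)))) (by decide +kernel)

theorem twoC04_90 : Cov (esE 4 208 345 140) ⟨0, 274877906944⟩ ⟨250688651132, 501377302265⟩ ⟨349094941817, 406819302276⟩ :=
  Cov.of (open T in (s0 (s1 (s2 (s0 (s0 (s0 (s0 (s1 (d 4) (d 4)) (d 4)) (s0 (d 4) (d 4))) (s0 (d 4) (d 4))) (s0 (s0 (d 4) (d 3)) (d 4))) (s0 (s0 (s0 (s0 (d 4) (d 4)) (d 6)) (s0 (d 4) (d 4))) (s0 (d 4) (d 3)))) (s2 (s0 (s0 (s0 (s0 (d 6) (d 4)) (d 6)) (s0 (d 4) (d 4))) (s0 (d 6) (d 4))) (s0 (s0 (s0 (s0 (d 4) (d 4)) (d 4)) (s0 (d 4) (d 4))) (s0 (d 4) (d 3))))) (s0 (s0 (s1 (d 3) (d 3)) (d 6)) (s0 (d 3)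 (d 3))))) (by decide +kernel)

theorem twoC04_91 : Cov (esE 4 208 345 140) ⟨274877906944, 549755813888⟩ ⟨0, 501377302265⟩ ⟨291370581359, 406819302276⟩ :=
  Cov.of (open T in (s1 (s2 (s0 (s0 (s0 (s1 (s0 (d 3) (d 3)) (d 3)) (s1 (s0 (d 3) (d 3)) (d 3))) (s0 (s1 (d 3) (d 3)) (v 2))) (v 2)) (s0 (s0 (s0 (s1 (d 3) (d 3)) (s1 (d 3) (d 3))) (s0 (d 3) (d 3))) (v 2))) (s0 (s0 (s0 (d 3) (d 3)) (d 3)) (v 2)))) (by decide +kernel)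

theorem twoC04_97 : Cov (esE 4 208 345 140) ⟨0, 274877906944⟩ ⟨501377302265, 752065953398⟩ ⟨175921860443, 204784040672⟩ :=
  Cov.of (open T in (v 1)) (by decide +kernel)

theorem twoC04_101 : Cov (esE 4 208 345 140) ⟨0, 137438953472⟩ ⟨501377302265, 626721627831⟩ ⟨204784040672, 219215130786⟩ :=
  Cov.of (open T in (d 1)) (by decide +kernel)

theorem twoC04_104 : Cov (esE 4 208 345 140) ⟨0, 68719476736⟩ ⟨501377302265, 564049465048⟩ ⟨219215130786, 233646220901⟩ :=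
  Cov.of (open T in (s2 (d 1) (s0 (s1 (s0 (s2 (s1 (s0 (d 6) (d 6)) (s0 (d 6) (d 6))) (s1 (s0 (d 6) (d 6)) (s0 (d 6) (d 6)))) (s0 (d 6) (d 6))) (s0 (s2 (s1 (s0 (d 6) (d 1)) (d 1)) (s1 (s0 (d 6) (d 6)) (s0 (d 6) (d 6)))) (s0 (d 6) (d 6)))) (s1 (s2 (s0 (s1 (d 1) (d 1)) (d 1)) (s0 (s0 (d 5) (d 5)) (d 5))) (s2 (d 1) (s0 (s0 (d 5) (d 5)) (d 5))))))) (by decide +kernel)

theorem twoC04_105 : Cov (esE 4 208 345 140) ⟨0, 68719476736⟩ ⟨564049465048, 626721627831⟩ ⟨219215130786, 233646220901⟩ :=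
  Cov.of (open T in (s2 (d 1) (s0 (s1 (s2 (d 1) (s0 (s1 (s2 (s0 (d 6) (d 6)) (s0 (d 6) (d 6))) (s2 (d 1) (s0 (d 6) (d 6)))) (s1 (s0 (d 6) (d 5)) (s2 (d 1) (s0 (d 6) (d 5)))))) (s2 (d 1) (s0 (s1 (s2 (d 1) (s0 (d 6) (d 6))) (s2 (d 1) (s0 (d 6) (d 6)))) (s1 (s2 (v 1) (s0 (d 6) (d 5))) (d 1))))) (s1 (s2 (d 1) (s0 (s0 (d 5) (d 5)) (d 5))) (s2 (v 1) (d 1)))))) (by decide +kernel)

theorem twoC04_106 : Cov (esE 4 208 345 140) ⟨68719476736, 137438953472⟩ ⟨501377302265, 626721627831⟩ ⟨219215130786, 233646220901⟩ :=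
  Cov.of (open T in (s1 (s2 (d 1) (s0 (s1 (s0 (d 4) (d 4)) (s0 (d 4) (d 4))) (d 4))) (s2 (v 1) (s0 (s1 (d 1) (d 1)) (d 1))))) (by decide +kernel)

theorem twoC04_107 : Cov (esE 4 208 345 140) ⟨0, 137438953472⟩ ⟨626721627831, 752065953398⟩ ⟨204784040672, 233646220901⟩ :=
  Cov.of (open T in (s2 (v 1) (s0 (s1 (s2 (v 1) (s0 (s1 (s2 (v 1) (s0 (s1 (d 1) (d 1)) (d 1))) (d 1)) (d 1))) (d 1)) (d 1)))) (by decide +kernel)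

theorem twoC04_108 : Cov (esE 4 208 345 140) ⟨137438953472, 274877906944⟩ ⟨501377302265, 752065953398⟩ ⟨204784040672, 233646220901⟩ :=
  Cov.of (open T in (s1 (s2 (v 1) (s0 (s1 (s2 (v 1) (d 1)) (d 1)) (d 1))) (d 1))) (by decide +kernel)

theorem twoC04_109 : Cov (esE 4 208 345 140) ⟨0, 274877906944⟩ ⟨752065953398, 1002754604531⟩ ⟨175921860443, 233646220901⟩ :=
  Cov.of (open T in (s2 (v 1) (s0 (d 1) (d 1)))) (by decide +kernel)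

theorem twoC04_110 : Cov (esE 4 208 345 140) ⟨274877906944, 549755813888⟩ ⟨501377302265, 1002754604531⟩ ⟨175921860443, 233646220901⟩ :=
  Cov.of (open T in (v 2)) (by decide +kernel)

theorem twoC04_119 : Cov (esE 4 208 345 140) ⟨0, 68719476736⟩ ⟨501377302265, 564049465048⟩ ⟨233646220901, 248077311015⟩ :=
  Cov.of (open T in (s0 (s2 (s1 (s0 (s0 (d 6) (d 6)) (s0 (d 6) (d 5))) (s0 (s0 (s0 (d 5) (d 5)) (d 6)) (s0 (d 6) (d 5)))) (s1 (s0 (s0 (d 6) (d 6)) (s0 (d 5) (d 5))) (s0 (s0 (d 6) (d 6)) (s0 (d 5) (d 5))))) (s0 (s0 (d 6) (d 5)) (d 6)))) (by decide +kernel)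

theorem twoC04_122 : Cov (esE 4 208 345 140) ⟨0, 34359738368⟩ ⟨564049465048, 626721627831⟩ ⟨233646220901, 240861765958⟩ :=
  Cov.of (open T in (s1 (s2 (s0 (s1 (s0 (d 6) (d 6)) (s2 (s0 (d 6) (d 6)) (s0 (d 6) (d 6)))) (s0 (d 6) (d 5))) (s0 (s0 (d 6) (d 6)) (s0 (d 5) (d 5)))) (s2 (s0 (s1 (s2 (s0 (d 6) (d 6)) (s0 (d 6) (d 6))) (s2 (s0 (d 6) (d 6)) (s0 (d 6) (d 6)))) (s0 (d 6) (d 5))) (s0 (s0 (d 6) (d 6)) (s0 (d 6) (d 5)))))) (by decide +kernel)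

theorem twoC04_123 : Cov (esE 4 208 345 140) ⟨34359738368, 68719476736⟩ ⟨564049465048, 626721627831⟩ ⟨233646220901, 240861765958⟩ :=
  Cov.of (open T in (s1 (s0 (d 6) (d 5)) (s2 (s0 (d 6) (d 4)) (s0 (d 6) (d 4))))) (by decide +kernel)

theorem twoC04_124 : Cov (esE 4 208 345 140) ⟨0, 68719476736⟩ ⟨564049465048, 626721627831⟩ ⟨240861765958, 248077311015⟩ :=
  Cov.of (open T in (s0 (s1 (s0 (s0 (d 6) (d 6)) (s0 (d 5) (d 5))) (s2 (s0 (s0 (d 6) (d 6)) (s0 (d 5) (d 5))) (s0 (s0 (d 6) (d 5)) (s0 (d 5) (d 5))))) (s0 (s0 (d 5) (d 4)) (d 5)))) (by decide +kernel)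

theorem twoC04_125 : Cov (esE 4 208 345 140) ⟨68719476736, 137438953472⟩ ⟨501377302265, 626721627831⟩ ⟨233646220901, 248077311015⟩ :=
  Cov.of (open T in (s1 (s2 (s0 (s0 (d 4) (d 4)) (d 4)) (s0 (s0 (d 4) (d 4)) (d 4))) (s2 (s0 (s0 (d 4) (d 4)) (d 4)) (s0 (s0 (d 4) (d 4)) (d 4))))) (by decide +kernel)

theorem twoC04_126 : Cov (esE 4 208 345 140) ⟨0, 137438953472⟩ ⟨501377302265, 626721627831⟩ ⟨248077311015, 262508401130⟩ :=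
  Cov.of (open T in (s0 (s1 (s0 (s0 (s0 (s0 (d 5) (d 5)) (d 6)) (s0 (d 6) (d 5))) (s0 (s0 (d 5) (d 4)) (d 5))) (s0 (s0 (s0 (s0 (d 5) (d 5)) (d 6)) (s0 (d 6) (d 5))) (s0 (s0 (d 5) (d 4)) (d 5)))) (s0 (s0 (d 6) (d 4)) (d 5)))) (by decide +kernel)

theorem twoC04_133 : Cov (esE 4 208 345 140) ⟨0, 34359738368⟩ ⟨626721627831, 658057709222⟩ ⟨233646220901, 240861765958⟩ :=
  Cov.of (open T in (s2 (s0 (s1 (s2 (s0 (d 6) (d 6)) (s0 (d 6) (d 6))) (s2 (s0 (d 6) (d 6)) (s0 (d 6) (d 5)))) (s0 (d 6) (d 5))) (s0 (s0 (d 6) (d 6)) (s0 (d 5) (d 5))))) (by decide +kernel)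

theorem twoC04_134 : Cov (esE 4 208 345 140) ⟨0, 34359738368⟩ ⟨658057709222, 689393790614⟩ ⟨233646220901, 240861765958⟩ :=
  Cov.of (open T in (s2 (s0 (s1 (s2 (s0 (d 6) (d 5)) (s0 (d 6) (d 5))) (s2 (s0 (d 6) (d 1)) (s0 (d 6) (d 5)))) (s0 (d 5) (d 5))) (s0 (s1 (s0 (d 6) (d 5)) (s0 (d 6) (d 5))) (s0 (d 5) (d 5))))) (by decide +kernel)

theorem twoC04_135 : Cov (esE 4 208 345 140) ⟨34359738368, 68719476736⟩ ⟨626721627831, 689393790614⟩ ⟨233646220901, 240861765958⟩ :=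
  Cov.of (open T in (s1 (s2 (s0 (d 6) (d 4)) (s0 (d 6) (d 4))) (s2 (s0 (d 5) (d 4)) (s0 (d 5) (d 4))))) (by decide +kernel)

theorem twoC04_136 : Cov (esE 4 208 345 140) ⟨0, 68719476736⟩ ⟨626721627831, 689393790614⟩ ⟨240861765958, 248077311015⟩ :=
  Cov.of (open T in (s0 (s1 (s2 (s0 (s0 (d 6) (d 5)) (s0 (d 5) (d 5))) (s0 (s0 (d 6) (d 5)) (s0 (d 5) (d 5)))) (s2 (s0 (s0 (d 6) (d 5)) (s0 (d 5) (d 5))) (s0 (s0 (d 6) (d 5)) (d 6)))) (s0 (d 6) (d 4)))) (by decide +kernel)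

theorem twoC04_138 : Cov (esE 4 208 345 140) ⟨0, 68719476736⟩ ⟨689393790614, 752065953398⟩ ⟨233646220901, 240861765958⟩ :=
  Cov.of (open T in (s0 (s1 (s2 (s0 (s1 (s2 (d 1) (s0 (d 6) (d 5))) (s2 (d 1) (s0 (d 6) (d 5)))) (s0 (d 5) (d 5))) (s0 (s1 (s0 (d 6) (d 5)) (s0 (d 6) (d 5))) (s0 (d 5) (d 5)))) (s2 (s0 (s1 (s2 (v 1) (s0 (d 6) (d 5))) (d 1)) (d 1)) (s0 (s1 (s0 (d 6) (d 5)) (s0 (d 5) (d 5))) (d 6)))) (s1 (s2 (s0 (d 5) (d 1)) (s0 (d 5) (d 4))) (s2 (d 1) (s0 (d 5) (d 4)))))) (by decide +kernel)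

end Ent
end Pool.Agent.Lib.MP_6947cd_al
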