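import Pool.Agent.Lib.MP_6947cd_al.T.TwoNum

/-!
Problem MP_6947cd_al (Chollet).  The numerical condition of the two-entry loss, level 4 / 10.
-/

set_option autoImplicit false

namespace Pool.Agent.Lib.MP_6947cd_al
namespace Ent
open IA

theorem twoC04_139 : Cov (esE 4 208 345 140) ⟨0, 68719476736⟩ ⟨689393790614, 752065953398⟩ ⟨240861765958, 248077311015⟩ :=
  Cov.of (open T in (s0 (s1 (s2 (s0 (s0 (d 6) (d 5)) (d 6)) (s0 (s0 (d 6) (d 5)) (d 6))) (s2 (s0 (s0 (d 6) (d 5)) (d 6)) (s0 (s0 (d 5) (d 5)) (d 6)))) (s0 (d 5) (d 4)))) (by decide +kernel)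

theorem twoC04_140 : Cov (esE 4 208 345 140) ⟨68719476736, 137438953472⟩ ⟨626721627831, 752065953398⟩ ⟨233646220901, 248077311015⟩ :=
  Cov.of (open T in (s1 (s2 (s0 (d 6) (d 4)) (s0 (d 5) (d 4))) (s2 (s0 (d 4) (d 4)) (s0 (d 4) (d 4))))) (by decide +kernel)

theorem twoC04_143 : Cov (esE 4 208 345 140) ⟨0, 68719476736⟩ ⟨626721627831, 689393790614⟩ ⟨248077311015, 262508401130⟩ :=
  Cov.of (open T in (s2 (s0 (s1 (s2 (s0 (s0 (d 6) (d 5)) (d 6)) (s0 (s0 (d 6) (d 5)) (d 6))) (s2 (s0 (s0 (d 6) (d 5)) (d 6)) (s0 (s0 (d 5) (d 5)) (d 6)))) (s0 (d 6) (d 4))) (s0 (s0 (s0 (d 6) (d 5)) (s0 (d 5) (d 5))) (s0 (d 5) (d 4))))) (by decide +kernel)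

theorem twoC04_144 : Cov (esE 4 208 345 140) ⟨0, 68719476736⟩ ⟨689393790614, 752065953398⟩ ⟨248077311015, 262508401130⟩ :=
  Cov.of (open T in (s2 (s0 (s1 (s2 (s0 (s0 (d 5) (d 5)) (d 6)) (s0 (s0 (d 5) (d 5)) (d 6))) (s0 (s0 (d 5) (d 5)) (d 6))) (s0 (d 5) (d 4))) (s0 (s0 (s0 (d 6) (d 5)) (d 6)) (s0 (d 5) (d 4))))) (by decide +kernel)

theorem twoC04_145 : Cov (esE 4 208 345 140) ⟨68719476736, 137438953472⟩ ⟨626721627831, 752065953398⟩ ⟨248077311015, 262508401130⟩ :=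
  Cov.of (open T in (s0 (s0 (d 4) (d 4)) (d 4))) (by decide +kernel)

theorem twoC04_146 : Cov (esE 4 208 345 140) ⟨137438953472, 274877906944⟩ ⟨501377302265, 752065953398⟩ ⟨233646220901, 262508401130⟩ :=
  Cov.of (open T in (s1 (s2 (s0 (s0 (d 4) (d 3)) (d 3)) (s0 (s0 (d 4) (d 3)) (d 3))) (s2 (s0 (d 5) (d 3)) (s0 (d 4) (d 3))))) (by decide +kernel)

theorem twoC04_149 : Cov (esE 4 208 345 140) ⟨0, 137438953472⟩ ⟨501377302265, 626721627831⟩ ⟨262508401130, 291370581359⟩ :=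
  Cov.of (open T in (s0 (s2 (s1 (s0 (s0 (s0 (d 6) (d 5)) (s0 (d 5) (d 5))) (s0 (d 6) (d 4))) (s0 (s0 (s0 (d 6) (d 5)) (s0 (d 5) (d 5))) (s0 (d 6) (d 4)))) (s1 (s0 (s0 (s0 (d 6) (d 5)) (d 6)) (s0 (d 5) (d 4))) (s0 (s0 (s0 (d 5) (d 5)) (d 6)) (s0 (d 5) (d 4))))) (s0 (s0 (d 5) (d 4)) (d 4)))) (by decide +kernel)

theorem twoC04_151 : Cov (esE 4 208 345 140) ⟨0, 137438953472⟩ ⟨626721627831, 752065953398⟩ ⟨262508401130, 276939491244⟩ :=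
  Cov.of (open T in (s0 (s1 (s2 (s0 (s0 (s0 (d 6) (d 5)) (s0 (d 5) (d 4))) (s0 (d 5) (d 4))) (s0 (s0 (s0 (d 5) (d 5)) (d 6)) (s0 (d 5) (d 4)))) (s2 (s0 (s0 (s0 (d 5) (d 5)) (d 6)) (s0 (d 4) (d 4))) (s0 (s0 (s0 (d 5) (d 5)) (d 6)) (s0 (d 4) (d 4))))) (s0 (s0 (d 4) (d 4)) (d 4)))) (by decide +kernel)

theorem twoC04_152 : Cov (esE 4 208 345 140) ⟨0, 137438953472⟩ ⟨626721627831, 752065953398⟩ ⟨276939491244, 291370581359⟩ :=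
  Cov.of (open T in (s0 (s1 (s0 (s0 (s0 (d 5) (d 5)) (d 6)) (s0 (d 4) (d 4))) (s2 (s0 (s0 (s0 (d 5) (d 5)) (d 5)) (s0 (d 4) (d 4))) (s0 (s0 (s0 (d 5) (d 4)) (d 5)) (s0 (d 4) (d 4))))) (s0 (d 6) (d 4)))) (by decide +kernel)

theorem twoC04_153 : Cov (esE 4 208 345 140) ⟨137438953472, 274877906944⟩ ⟨501377302265, 752065953398⟩ ⟨262508401130, 291370581359⟩ :=
  Cov.of (open T in (s1 (s0 (s0 (d 3) (d 3)) (d 3)) (s0 (d 4) (d 3)))) (by decide +kernel)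

theorem twoC04_160 : Cov (esE 4 208 345 140) ⟨0, 68719476736⟩ ⟨752065953398, 814738116181⟩ ⟨233646220901, 248077311015⟩ :=
  Cov.of (open T in (s2 (s0 (s1 (s2 (d 1) (s0 (s0 (d 5) (d 5)) (d 6))) (s2 (d 1) (s0 (s0 (d 5) (d 5)) (d 6)))) (s1 (s2 (d 1) (s0 (d 4) (d 4))) (s0 (d 4) (d 4)))) (s0 (s1 (s2 (s0 (s0 (d 5) (d 5)) (d 6)) (s0 (s0 (d 5) (d 5)) (d 6))) (s2 (s0 (s0 (d 5) (d 5)) (d 5)) (s0 (s0 (d 5) (d 5)) (d 5)))) (s0 (d 5) (d 4))))) (by decide +kernel)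

theorem twoC04_161 : Cov (esE 4 208 345 140) ⟨0, 68719476736⟩ ⟨814738116181, 877410278964⟩ ⟨233646220901, 248077311015⟩ :=
  Cov.of (open T in (s2 (s0 (s1 (s2 (v 1) (s0 (s0 (d 5) (d 5)) (d 5))) (s2 (v 1) (s0 (d 6) (d 5)))) (s1 (d 6) (d 1))) (s0 (s1 (s2 (s0 (s0 (d 5) (d 5)) (d 5)) (s0 (d 6) (d 5))) (s2 (s0 (d 6) (d 5)) (s0 (d 6) (d 5)))) (s0 (d 4) (d 4))))) (by decide +kernel)

theorem twoC04_162 : Cov (esE 4 208 345 140) ⟨68719476736, 137438953472⟩ ⟨752065953398, 877410278964⟩ ⟨233646220901, 248077311015⟩ :=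
  Cov.of (open T in (s1 (s2 (s0 (d 4) (d 3)) (s0 (d 4) (d 3))) (s0 (d 4) (d 3)))) (by decide +kernel)

theorem twoC04_163 : Cov (esE 4 208 345 140) ⟨0, 137438953472⟩ ⟨752065953398, 877410278964⟩ ⟨248077311015, 262508401130⟩ :=
  Cov.of (open T in (s0 (s1 (s2 (s0 (s0 (s0 (d 5) (d 5)) (d 6)) (s0 (d 4) (d 4))) (s0 (s0 (s0 (d 5) (d 5)) (d 6)) (s0 (d 4) (d 4)))) (s2 (s0 (s0 (s0 (d 5) (d 5)) (d 5)) (d 6)) (s0 (s0 (s0 (d 5) (d 5)) (d 5)) (d 6)))) (s0 (d 4) (d 4)))) (by decide +kernel)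

theorem twoC04_164 : Cov (esE 4 208 345 140) ⟨0, 137438953472⟩ ⟨877410278964, 1002754604531⟩ ⟨233646220901, 262508401130⟩ :=
  Cov.of (open T in (s2 (s0 (s1 (s2 (d 1) (s0 (s1 (s2 (s0 (d 6) (d 5)) (s0 (d 5) (d 4))) (s2 (s0 (d 5) (d 4)) (s0 (d 5) (d 4)))) (d 5))) (s2 (d 1) (s0 (s1 (s2 (s0 (d 5) (d 4)) (s0 (d 5) (d 4))) (s2 (s0 (d 5) (d 4)) (s0 (d 5) (d 4)))) (d 4)))) (s1 (s0 (d 4) (d 3)) (d 5))) (s0 (s1 (s2 (s0 (s0 (d 6) (d 5)) (d 5)) (s0 (s0 (d 6) (d 4)) (d 5))) (s2 (s0 (s0 (d 5) (d 4)) (d 4)) (s0 (s0 (d 5) (d 4)) (d 4)))) (s0 (d 4) (d 3))))) (by decide +kernel)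

theorem twoC04_165 : Cov (esE 4 208 345 140) ⟨137438953472, 274877906944⟩ ⟨752065953398, 1002754604531⟩ ⟨233646220901, 262508401130⟩ :=
  Cov.of (open T in (s1 (s2 (s0 (d 4) (d 3)) (s0 (d 4) (d 3))) (s0 (d 3) (d 3)))) (by decide +kernel)

theorem twoC04_168 : Cov (esE 4 208 345 140) ⟨0, 137438953472⟩ ⟨752065953398, 877410278964⟩ ⟨262508401130, 291370581359⟩ :=
  Cov.of (open T in (s2 (s0 (s1 (s2 (s0 (s0 (s0 (d 5) (d 5)) (d 5)) (s0 (d 4) (d 4))) (s0 (s0 (s0 (d 5) (d 5)) (d 5)) (s0 (d 4) (d 4)))) (s2 (s0 (s0 (d 6) (d 5)) (d 6)) (s0 (s0 (d 6) (d 5)) (d 5)))) (s0 (d 4) (d 4))) (s0 (s1 (s2 (s0 (s0 (s0 (d 5) (d 4)) (d 5)) (d 6)) (s0 (s0 (d 6) (d 5)) (d 6))) (s2 (s0 (s0 (d 6) (d 4)) (d 5)) (s0 (s0 (d 5) (d 4)) (d 5)))) (s0 (d 4) (d 3))))) (by decide +kernel)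

theorem twoC04_169 : Cov (esE 4 208 345 140) ⟨0, 137438953472⟩ ⟨877410278964, 1002754604531⟩ ⟨262508401130, 291370581359⟩ :=
  Cov.of (open T in (s2 (s0 (s1 (s2 (s0 (s0 (d 5) (d 4)) (d 5)) (s0 (s0 (d 5) (d 4)) (d 4))) (s2 (s0 (s0 (d 5) (d 4)) (d 4)) (s0 (s0 (d 5) (d 4)) (d 4)))) (s0 (d 4) (d 3))) (s0 (s1 (s2 (s0 (s0 (d 5) (d 4)) (d 4)) (s0 (s0 (d 5) (d 4)) (d 4))) (s0 (s0 (d 5) (d 4)) (d 4))) (s0 (d 4) (d 3))))) (by decide +kernel)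

theorem twoC04_170 : Cov (esE 4 208 345 140) ⟨137438953472, 274877906944⟩ ⟨752065953398, 1002754604531⟩ ⟨262508401130, 291370581359⟩ :=
  Cov.of (open T in (s0 (d 4) (d 3))) (by decide +kernel)

theorem twoC04_171 : Cov (esE 4 208 345 140) ⟨274877906944, 549755813888⟩ ⟨501377302265, 1002754604531⟩ ⟨233646220901, 291370581359⟩ :=
  Cov.of (open T in (s1 (s2 (v 2) (s0 (s0 (d 3) (v 2)) (v 2))) (s2 (v 2) (s0 (d 3) (v 2))))) (by decide +kernel)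

theorem twoC04_178 : Cov (esE 4 208 345 140) ⟨0, 137438953472⟩ ⟨501377302265, 626721627831⟩ ⟨291370581359, 320232761588⟩ :=
  Cov.of (open T in (s0 (s2 (s1 (s0 (s0 (s0 (d 5) (d 4)) (d 5)) (s0 (d 4) (d 4))) (s0 (s0 (s0 (d 5) (d 4)) (d 5)) (s0 (d 4) (d 4)))) (s1 (s0 (s0 (s0 (d 4) (d 4)) (d 5)) (s0 (d 4) (d 4))) (s0 (s0 (s0 (d 4) (d 4)) (d 5)) (s0 (d 4) (d 4))))) (s0 (s0 (d 4) (d 4)) (d 4)))) (by decide +kernel)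

theorem twoC04_179 : Cov (esE 4 208 345 140) ⟨0, 137438953472⟩ ⟨626721627831, 752065953398⟩ ⟨291370581359, 320232761588⟩ :=
  Cov.of (open T in (s0 (s2 (s1 (s0 (s0 (s0 (d 5) (d 4)) (d 5)) (s0 (d 4) (d 4))) (s0 (s0 (s0 (d 4) (d 4)) (d 5)) (s0 (d 4) (d 4)))) (s1 (s0 (s0 (s0 (d 4) (d 4)) (d 5)) (s0 (d 4) (d 4))) (s0 (s0 (d 6) (d 4)) (d 6)))) (s0 (d 5) (d 4)))) (by decide +kernel)

theorem twoC04_180 : Cov (esE 4 208 345 140) ⟨0, 137438953472⟩ ⟨501377302265, 752065953398⟩ ⟨320232761588, 349094941817⟩ :=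
  Cov.of (open T in (s1 (s0 (s0 (s0 (s0 (d 6) (d 5)) (d 6)) (s0 (d 5) (d 4))) (s0 (d 6) (d 4))) (s0 (s0 (s0 (s0 (d 5) (d 4)) (d 6)) (s0 (d 4) (d 4))) (s0 (d 4) (d 3))))) (by decide +kernel)

theorem twoC04_181 : Cov (esE 4 208 345 140) ⟨137438953472, 274877906944⟩ ⟨501377302265, 752065953398⟩ ⟨291370581359, 349094941817⟩ :=
  Cov.of (open T in (s0 (s0 (d 4) (d 3)) (d 4))) (by decide +kernel)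

theorem twoC04_183 : Cov (esE 4 208 345 140) ⟨0, 274877906944⟩ ⟨752065953398, 1002754604531⟩ ⟨291370581359, 320232761588⟩ :=
  Cov.of (open T in (s0 (s1 (s2 (s0 (s1 (s0 (s0 (d 6) (d 4)) (d 6)) (s0 (s0 (d 5) (d 4)) (d 5))) (s0 (d 4) (d 3))) (s0 (s0 (s0 (s0 (d 5) (d 4)) (d 5)) (s0 (d 4) (d 4))) (s0 (d 4) (d 3)))) (s2 (s0 (s0 (s0 (d 5) (d 4)) (d 5)) (s0 (d 4) (d 3))) (s0 (s0 (s0 (d 5) (d 4)) (d 4)) (d 6)))) (s0 (d 4) (d 3)))) (by decide +kernel)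

theorem twoC04_184 : Cov (esE 4 208 345 140) ⟨0, 274877906944⟩ ⟨752065953398, 1002754604531⟩ ⟨320232761588, 349094941817⟩ :=
  Cov.of (open T in (s0 (s1 (s0 (s0 (s0 (d 6) (d 5)) (s0 (d 4) (d 4))) (s0 (d 4) (d 3))) (s2 (s0 (s0 (s0 (d 5) (d 4)) (d 4)) (d 5)) (s0 (s0 (s0 (d 5) (d 4)) (d 4)) (d 4)))) (s0 (d 4) (d 3)))) (by decide +kernel)

theorem twoC04_186 : Cov (esE 4 208 345 140) ⟨0, 274877906944⟩ ⟨501377302265, 752065953398⟩ ⟨349094941817, 406819302276⟩ :=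
  Cov.of (open T in (s0 (s1 (s2 (s0 (s0 (s0 (s0 (d 4) (d 4)) (d 5)) (s0 (d 4) (d 4))) (s0 (d 4) (d 3))) (s0 (s0 (s0 (s0 (d 4) (d 4)) (d 4)) (s0 (d 4) (d 4))) (s0 (d 4) (d 3)))) (s2 (s0 (s0 (s0 (s0 (d 4) (d 4)) (d 4)) (s0 (d 4) (d 4))) (s0 (d 4) (d 3))) (s0 (s0 (s0 (d 4) (d 4)) (d 6)) (s0 (d 4) (d 3))))) (s0 (s0 (d 4) (d 3)) (d 3)))) (by decide +kernel)

theorem twoC04_187 : Cov (esE 4 208 345 140) ⟨0, 274877906944⟩ ⟨752065953398, 1002754604531⟩ ⟨349094941817, 406819302276⟩ :=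
  Cov.of (open T in (s0 (s2 (s1 (s0 (s0 (s0 (d 5) (d 4)) (d 5)) (s0 (d 4) (d 3))) (s2 (s0 (s0 (s0 (d 4) (d 4)) (d 4)) (d 4)) (s0 (s0 (s0 (d 4) (d 4)) (d 4)) (d 4)))) (s1 (s0 (s0 (s0 (d 4) (d 4)) (d 4)) (s0 (d 4) (d 3))) (s0 (s0 (s0 (d 4) (d 4)) (d 4)) (d 4)))) (s0 (d 4) (d 3)))) (by decide +kernel)

theorem twoC04_188 : Cov (esE 4 208 345 140) ⟨274877906944, 549755813888⟩ ⟨501377302265, 1002754604531⟩ ⟨291370581359, 406819302276⟩ :=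
  Cov.of (open T in (s0 (s0 (s1 (d 3) (d 3)) (d 3)) (v 2))) (by decide +kernel)

theorem twoC04_189 : Cov (esE 4 208 345 140) ⟨549755813888, 1099511627776⟩ ⟨0, 1002754604531⟩ ⟨175921860443, 406819302276⟩ :=
  Cov.of (open T in (v 2)) (by decide +kernel)

theorem twoC04_195 : Cov (esE 4 208 345 140) ⟨0, 274877906944⟩ ⟨0, 250688651132⟩ ⟨406819302276, 522268023192⟩ :=
  Cov.of (open T in (s0 (s2 (s1 (s0 (s1 (s2 (s0 (s1 (s2 (s0 (s1 (s2 (s0 (s1 (s2 (s0 (v 0) (v 3)) (s0 (v 0) (v 3))) (v 3)) (v 3)) (s0 (s1 (s2 (s0 (v 0) (v 3)) (s0 (v 0) (v 3))) (v 3)) (v 3))) (v 3)) (v 3)) (s0 (s1 (s2 (s0 (s1 (s2 (s0 (v 0) (v 3)) (s0 (v 0) (v 3))) (v 3)) (v 3)) (s0 (s1 (s2 (s0 (v 0) (v 3)) (s0 (v 0) (v 3))) (v 3)) (v 3))) (v 3)) (v 3))) (s2 (s0 (v 3) (v 3)) (v 4))) (s0 (v 3) (v 3))) (s0 (s1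 (s2 (s0 (s1 (s2 (s0 (s1 (s2 (s0 (v 0) (v 3)) (s0 (v 0) (v 3))) (v 3)) (v 3)) (s0 (s1 (s2 (s0 (v 0) (v 3)) (s0 (v 0) (v 3))) (v 3)) (v 3))) (v 3)) (v 3)) (s0 (s1 (s2 (s0 (s1 (s2 (s0 (v 0) (v 3)) (s0 (v 0) (v 3))) (v 3)) (v 3)) (s0 (s1 (s2 (s0 (v 0) (v 3)) (s0 (v 0) (v 3))) (v 3)) (v 3))) (v 3)) (v 3))) (v 4)) (s0 (v 3) (v 3)))) (s2 (s0 (s0 (v 3) (d 3)) (s0 (d 3) (d 3))) (s0 (s0 (v 3) (v 3)) (d 4)))) (s0 (s0 (d 3) (d 3)) (s0 (d 3) (d 3)))) (s0 (s0 (s0 (s1 (v 6) (s0 (d 3) (d 3))) (s1 (d 3) (d 3))) (s0 (d 4) (d 4))) (s0 (s0 (d 3) (d 3)) (d 3)))) (s1 (s0 (s1 (s2 (s0 (s1 (s2 (s0 (s1 (s2 (s0 (s1 (s2 (s0 (v 0) (v 3)) (s0 (v 0) (v 3))) (v 3)) (v 3)) (s0 (s1 (s2 (s0 (v 0) (v 3)) (s0 (v 0) (v 3))) (v 3)) (v 3))) (v 3)) (v 3)) (s0 (s1 (s2 (s0 (s1 (s2 (s0 (v 0) (v 3)) (s0 (v 0) (v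 3))) (v 3)) (v 3)) (s0 (s1 (s2 (s0 (v 0) (v 3)) (s0 (v 0) (v 3))) (v 3)) (v 3))) (v 3)) (v 3))) (v 3)) (s0 (v 3) (v 3))) (s0 (s1 (s2 (s0 (s1 (s2 (s0 (s1 (s2 (s0 (v 0) (v 3)) (s0 (v 0) (v 3))) (v 3)) (v 3)) (s0 (s1 (s2 (s0 (v 0) (v 3)) (s0 (v 0) (v 3))) (v 3)) (v 3))) (v 3)) (v 3)) (s0 (s1 (s2 (s0 (s1 (s2 (s0 (v 0) (v 3)) (s0 (v 0) (v 3))) (v 3)) (v 3)) (s0 (s1 (s2 (s0 (v 0) (v 3)) (s0 (v 0) (v 3))) (v 3)) (v 3))) (v 3)) (v 3))) (v 3)) (s0 (v 3) (v 3)))) (s2 (s0 (s0 (v 3) (v 3)) (d 3)) (s0 (s0 (v 3) (v 3)) (d 3)))) (s0 (s0 (d 3) (d 3)) (d 3))) (s0 (s0 (s0 (s1 (d 3) (d 3)) (d 4)) (s0 (d 3) (d 3))) (s0 (d 3) (d 3))))) (s0 (s0 (s1 (d 3) (d 3)) (s1 (d 3) (d 3))) (s0 (s1 (d 3) (d 3)) (s1 (d 3) (d 3)))))) (by decide +kernel)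

theorem twoC04_197 : Cov (esE 4 208 345 140) ⟨0, 274877906944⟩ ⟨250688651132, 501377302265⟩ ⟨406819302276, 464543662734⟩ :=
  Cov.of (open T in (s0 (s1 (s2 (s0 (s0 (s0 (s0 (d 4) (d 4)) (d 4)) (s0 (d 4) (d 4))) (s0 (d 4) (d 3))) (s0 (s0 (s0 (s0 (d 4) (d 4)) (d 4)) (s0 (d 4) (d 3))) (s0 (d 4) (d 3)))) (s2 (s0 (s0 (s0 (s0 (d 4) (d 4)) (d 4)) (d 6)) (s0 (d 4) (d 3))) (s0 (s0 (s0 (s0 (d 4) (d 4)) (d 4)) (d 4)) (s0 (d 4) (d 3))))) (s0 (s0 (d 4) (d 3)) (s0 (d 3) (d 3))))) (by decide +kernel)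

theorem twoC04_198 : Cov (esE 4 208 345 140) ⟨0, 274877906944⟩ ⟨250688651132, 501377302265⟩ ⟨464543662734, 522268023192⟩ :=
  Cov.of (open T in (s0 (s1 (s2 (s0 (s0 (s0 (s0 (d 4) (d 4)) (d 4)) (d 4)) (s0 (d 3) (d 3))) (s0 (s0 (s0 (s0 (d 4) (d 4)) (d 4)) (d 4)) (s0 (d 3) (d 3)))) (s2 (s0 (s0 (s0 (d 4) (d 4)) (d 4)) (s0 (d 3) (d 3))) (s0 (s0 (s0 (d 4) (d 4)) (d 4)) (s0 (d 3) (d 3))))) (s0 (s0 (d 3) (d 3)) (d 3)))) (by decide +kernel)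

theorem twoC04_200 : Cov (esE 4 208 345 140) ⟨0, 274877906944⟩ ⟨0, 250688651132⟩ ⟨522268023192, 637716744109⟩ :=
  Cov.of (open T in (s0 (s1 (s2 (s0 (s1 (s2 (s0 (s1 (s2 (s0 (s1 (s2 (s0 (s1 (s2 (s0 (v 0) (v 3)) (s0 (v 0) (v 3))) (v 3)) (v 3)) (s0 (s1 (s2 (s0 (v 0) (v 3)) (s0 (v 0) (v 3))) (v 3)) (v 3))) (v 3)) (v 3)) (s0 (s1 (s2 (s0 (s1 (s2 (s0 (v 0) (v 3)) (s0 (v 0) (v 3))) (v 3)) (v 3)) (s0 (s1 (s2 (s0 (v 0) (v 3)) (s0 (v 0) (v 3))) (v 3)) (v 3))) (v 3)) (v 3))) (v 3)) (s0 (v 3) (v 3))) (s0 (s1 (s2 (s0 (s1 (s2 (s0 (s1 (s2 (s0 (v 0) (v 3)) (s0 (v 0) (v 3))) (v 3)) (v 3)) (s0 (s1 (s2 (s0 (v 0) (v 3)) (s0 (v 0) (v 3))) (v 3)) (v 3))) (v 3)) (v 3)) (s0 (s1 (s2 (s0 (s1 (s2 (s0 (v 0) (v 3)) (s0 (v 0) (v 3))) (v 3)) (v 3)) (s0 (s1 (s2 (s0 (v 0) (v 3)) (s0 (v 0) (v 3))) (v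 3)) (v 3))) (v 3)) (v 3))) (v 3)) (d 3))) (s2 (s0 (s0 (v 3) (v 3)) (d 3)) (s0 (s0 (v 3) (v 3)) (d 3)))) (s0 (d 3) (d 3))) (s0 (s1 (s2 (s0 (s1 (s2 (s0 (s1 (s2 (s0 (s1 (s2 (s0 (v 0) (v 3)) (s0 (v 0) (v 3))) (v 3)) (v 3)) (s0 (s1 (s2 (s0 (v 0) (v 3)) (s0 (v 0) (v 3))) (v 3)) (v 3))) (v 3)) (v 3)) (s0 (s1 (s2 (s0 (s1 (s2 (s0 (v 0) (v 3)) (s0 (v 0) (v 3))) (v 3)) (v 3)) (s0 (s1 (s2 (s0 (v 0) (v 3)) (s0 (v 0) (v 3))) (v 3)) (v 3))) (v 3)) (v 3))) (v 3)) (v 3)) (s0 (s1 (s2 (s0 (s1 (s2 (s0 (s1 (s2 (s0 (v 0) (v 3)) (s0 (v 0) (v 3))) (v 3)) (v 3)) (s0 (s1 (s2 (s0 (v 0) (v 3)) (s0 (v 0) (v 3))) (v 3)) (v 3))) (v 3)) (v 3)) (s0 (s1 (s2 (s0 (s1 (s2 (s0 (v 0) (v 3)) (s0 (v 0) (v 3))) (v 3)) (v 3)) (s0 (s1 (s2 (s0 (v 0) (v 3)) (s0 (v 0) (v 3))) (v 3)) (v 3))) (v 3)) (v 3))) (v 3)) (v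 3))) (s2 (s0 (v 5) (d 3)) (s0 (v 4) (d 3)))) (s0 (d 3) (d 3)))) (s2 (s0 (s0 (s0 (s1 (d 3) (d 3)) (d 4)) (s0 (d 3) (d 3))) (s0 (d 3) (d 3))) (s0 (s0 (s0 (v 5) (d 3)) (d 4)) (s0 (d 3) (d 3))))) (s0 (s0 (d 3) (d 3)) (s0 (d 3) (d 3))))) (by decide +kernel)

end Ent
end Pool.Agent.Lib.MP_6947cd_al
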