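import Pool.Agent.Lib.MP_6947cd_al.T.TwoNum

/-!
Problem MP_6947cd_al (Chollet).  The numerical condition of the two-entry loss, level 4 / 10.
-/

set_option autoImplicit false

namespace Pool.Agent.Lib.MP_6947cd_al
namespace Ent
open IA

theorem twoC04_201 : Cov (esE 4 208 345 140) ⟨0, 274877906944⟩ ⟨250688651132, 501377302265⟩ ⟨522268023192, 637716744109⟩ :=
  Cov.of (open T in (s2 (s0 (s1 (s0 (s0 (s0 (s0 (d 4) (d 4)) (d 4)) (d 4)) (s0 (d 3) (d 3))) (s2 (s0 (s0 (s0 (d 4) (d 4)) (d 4)) (s0 (d 3) (d 3))) (s0 (s0 (s0 (d 4) (d 4)) (d 4)) (d 4)))) (s0 (s0 (d 3) (d 3)) (d 3))) (s0 (s1 (s0 (s0 (s0 (d 4) (d 3)) (d 3)) (d 5)) (s0 (s0 (s0 (d 4) (d 4)) (d 4)) (d 4))) (s0 (d 3) (d 3))))) (by decide +kernel)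

theorem twoC04_202 : Cov (esE 4 208 345 140) ⟨274877906944, 549755813888⟩ ⟨0, 501377302265⟩ ⟨406819302276, 637716744109⟩ :=
  Cov.of (open T in (s0 (s0 (s1 (s0 (s1 (d 3) (d 3)) (s1 (d 3) (d 3))) (s0 (d 3) (d 3))) (s1 (s0 (s1 (d 3) (d 3)) (d 3)) (d 3))) (s0 (s1 (s0 (d 3) (d 3)) (d 3)) (s1 (d 3) (d 3))))) (by decide +kernel)

theorem twoC04_206 : Cov (esE 4 208 345 140) ⟨0, 274877906944⟩ ⟨501377302265, 752065953398⟩ ⟨406819302276, 522268023192⟩ :=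
  Cov.of (open T in (s2 (s0 (s1 (s2 (s0 (s0 (s0 (s0 (d 4) (d 4)) (d 4)) (d 6)) (s0 (d 4) (d 3))) (s0 (s0 (s0 (d 4) (d 4)) (d 4)) (s0 (d 4) (d 3)))) (s2 (s0 (s0 (s0 (d 4) (d 4)) (d 4)) (s0 (d 4) (d 3))) (s0 (s0 (s0 (d 4) (d 4)) (d 4)) (s0 (d 3) (d 3))))) (s0 (s0 (d 3) (d 3)) (d 3))) (s0 (s1 (s2 (s0 (s0 (s0 (d 4) (d 4)) (d 4)) (s0 (d 3) (d 3))) (s0 (s0 (s0 (d 4) (d 4)) (d 4)) (s0 (d 3) (d 3)))) (s2 (s0 (s0 (s0 (d 4) (d 4)) (d 4)) (d 5)) (s0 (s0 (s0 (d 4) (d 4)) (d 4)) (d 4)))) (s0 (d 4) (d 3))))) (by decide +kernel)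

theorem twoC04_207 : Cov (esE 4 208 345 140) ⟨0, 274877906944⟩ ⟨752065953398, 1002754604531⟩ ⟨406819302276, 522268023192⟩ :=
  Cov.of (open T in (s2 (s0 (s2 (s1 (s0 (s0 (s0 (d 4) (d 4)) (d 4)) (d 5)) (s0 (s0 (d 6) (d 4)) (d 4))) (s1 (s0 (s0 (s0 (d 4) (d 4)) (d 4)) (d 4)) (s0 (s0 (d 5) (d 4)) (d 4)))) (s0 (d 3) (d 3))) (s0 (s1 (s0 (s0 (s0 (d 4) (d 4)) (d 4)) (d 4)) (s0 (s0 (d 5) (d 4)) (d 4))) (s0 (d 3) (d 3))))) (by decide +kernel)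

theorem twoC04_208 : Cov (esE 4 208 345 140) ⟨274877906944, 549755813888⟩ ⟨501377302265, 1002754604531⟩ ⟨406819302276, 522268023192⟩ :=
  Cov.of (open T in (s0 (s0 (d 3) (d 3)) (d 3))) (by decide +kernel)

theorem twoC04_209 : Cov (esE 4 208 345 140) ⟨0, 549755813888⟩ ⟨501377302265, 1002754604531⟩ ⟨522268023192, 637716744109⟩ :=
  Cov.of (open T in (s0 (s1 (s2 (s0 (s1 (s0 (s0 (s0 (d 4) (d 4)) (d 4)) (d 6)) (s0 (s0 (d 4) (d 4)) (d 4))) (s0 (d 3) (d 3))) (s0 (s1 (s0 (s0 (d 4) (d 4)) (d 4)) (s0 (s0 (d 4) (d 4)) (d 4))) (s0 (d 3) (d 3)))) (s2 (s0 (s0 (s0 (s0 (d 4) (d 4)) (d 4)) (d 5)) (s0 (d 3) (v 3))) (s0 (s0 (s0 (d 5) (d 4)) (d 4)) (s0 (d 3) (v 3))))) (s0 (s0 (d 3) (d 3)) (d 3)))) (by decide +kernel)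

theorem twoC04_210 : Cov (esE 4 208 345 140) ⟨549755813888, 1099511627776⟩ ⟨0, 1002754604531⟩ ⟨406819302276, 637716744109⟩ :=
  Cov.of (open T in (s2 (v 2) (s1 (s0 (s0 (s0 (d 3) (d 3)) (v 2)) (v 2)) (s0 (d 3) (v 2))))) (by decide +kernel)

theorem twoC04_214 : Cov (esE 4 208 345 140) ⟨0, 1099511627776⟩ ⟨1002754604531, 2005509209063⟩ ⟨175921860443, 233646220901⟩ :=
  Cov.of (open T in (s0 (s1 (s2 (v 1) (d 1)) (d 1)) (v 2))) (by decide +kernel)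

theorem twoC04_222 : Cov (esE 4 208 345 140) ⟨0, 137438953472⟩ ⟨1002754604531, 1128098930097⟩ ⟨233646220901, 262508401130⟩ :=
  Cov.of (open T in (s2 (s0 (s1 (s2 (d 1) (s0 (s1 (s2 (s0 (d 5) (d 4)) (s0 (d 5) (d 4))) (s0 (d 5) (d 4))) (d 4))) (s2 (v 1) (s0 (s1 (s0 (d 4) (d 4)) (d 6)) (d 4)))) (d 6)) (s0 (s1 (s2 (s0 (s0 (d 5) (d 4)) (d 4)) (s0 (s0 (d 5) (d 4)) (d 4))) (s2 (s0 (s0 (d 4) (d 4)) (d 4)) (s0 (s0 (d 4) (d 4)) (d 4)))) (d 5)))) (by decide +kernel)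

theorem twoC04_223 : Cov (esE 4 208 345 140) ⟨0, 137438953472⟩ ⟨1128098930097, 1253443255664⟩ ⟨233646220901, 262508401130⟩ :=
  Cov.of (open T in (s2 (s0 (s1 (s2 (v 1) (s0 (d 6) (d 4))) (s2 (v 1) (s0 (d 5) (d 4)))) (d 4)) (s0 (s1 (s2 (s0 (d 6) (d 4)) (s0 (d 6) (d 4))) (s2 (s0 (d 5) (d 4)) (s0 (d 5) (d 4)))) (d 4)))) (by decide +kernel)

theorem twoC04_224 : Cov (esE 4 208 345 140) ⟨137438953472, 274877906944⟩ ⟨1002754604531, 1253443255664⟩ ⟨233646220901, 262508401130⟩ :=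
  Cov.of (open T in (s2 (s1 (s0 (d 3) (v 3)) (d 4)) (s0 (d 3) (d 3)))) (by decide +kernel)

theorem twoC04_225 : Cov (esE 4 208 345 140) ⟨0, 274877906944⟩ ⟨1002754604531, 1253443255664⟩ ⟨262508401130, 291370581359⟩ :=
  Cov.of (open T in (s0 (s1 (s2 (s0 (s1 (s2 (s0 (s0 (d 5) (d 4)) (d 4)) (s0 (s0 (d 4) (d 4)) (d 4))) (s2 (s0 (s0 (d 4) (d 4)) (d 4)) (s0 (d 6) (d 4)))) (d 4)) (s0 (s1 (s0 (s0 (d 4) (d 4)) (d 4)) (s0 (d 6) (d 4))) (d 4))) (s2 (s0 (s1 (s2 (s0 (d 5) (d 4)) (s0 (d 5) (d 4))) (s0 (d 5) (d 4))) (d 4)) (s0 (s0 (s0 (d 4) (d 4)) (d 4)) (d 4)))) (s0 (d 3) (d 3)))) (by decide +kernel)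

theorem twoC04_226 : Cov (esE 4 208 345 140) ⟨0, 274877906944⟩ ⟨1253443255664, 1504131906797⟩ ⟨233646220901, 291370581359⟩ :=
  Cov.of (open T in (s2 (s0 (s2 (s1 (s0 (s2 (v 1) (d 1)) (d 1)) (d 1)) (s1 (s0 (s1 (s2 (s0 (d 4) (d 4)) (s0 (d 4) (d 4))) (s2 (s0 (d 4) (v 4)) (s0 (d 4) (v 4)))) (d 4)) (s0 (s2 (s1 (s0 (d 4) (v 4)) (s0 (d 4) (v 4))) (s1 (s0 (d 4) (v 4)) (s0 (d 4) (d 3)))) (d 3)))) (d 4)) (s0 (s1 (s2 (s0 (s0 (d 5) (d 4)) (d 4)) (s0 (s0 (d 5) (d 4)) (d 4))) (s2 (s0 (s0 (d 4) (v 4)) (d 3)) (s0 (s0 (d 4) (v 4)) (d 3)))) (d 4)))) (by decide +kernel)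

theorem twoC04_227 : Cov (esE 4 208 345 140) ⟨274877906944, 549755813888⟩ ⟨1002754604531, 1504131906797⟩ ⟨233646220901, 291370581359⟩ :=
  Cov.of (open T in (s2 (v 2) (s1 (s0 (v 3) (v 2)) (d 6)))) (by decide +kernel)

theorem twoC04_228 : Cov (esE 4 208 345 140) ⟨0, 549755813888⟩ ⟨1504131906797, 2005509209063⟩ ⟨233646220901, 291370581359⟩ :=
  Cov.of (open T in (s2 (s0 (s1 (s2 (d 1) (s0 (s1 (s0 (s0 (d 4) (d 3)) (d 3)) (s0 (d 5) (v 3))) (d 3))) (s2 (d 1) (s0 (s1 (s2 (s0 (d 4) (v 3)) (s0 (d 4) (v 3))) (s2 (d 1) (s0 (v 4) (v 3)))) (v 3)))) (v 2)) (s0 (s1 (s0 (s2 (s1 (s0 (s0 (d 4) (d 3)) (d 3)) (s0 (d 5) (v 3))) (s1 (s0 (s0 (d 4) (d 3)) (d 3)) (s0 (d 5) (v 3)))) (d 3)) (s2 (s0 (s1 (s2 (s0 (d 4) (v 3)) (s0 (d 4) (v 3))) (s2 (s0 (v 4)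 (v 3)) (s0 (v 4) (v 3)))) (v 3)) (s0 (s1 (s0 (d 4) (v 3)) (s2 (s0 (v 4) (v 3)) (s0 (v 4) (v 3)))) (v 3)))) (v 3)))) (by decide +kernel)

theorem twoC04_229 : Cov (esE 4 208 345 140) ⟨549755813888, 1099511627776⟩ ⟨1002754604531, 2005509209063⟩ ⟨233646220901, 291370581359⟩ :=
  Cov.of (open T in (v 2)) (by decide +kernel)

theorem twoC04_235 : Cov (esE 4 208 345 140) ⟨0, 274877906944⟩ ⟨1002754604531, 1253443255664⟩ ⟨291370581359, 349094941817⟩ :=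
  Cov.of (open T in (s2 (s0 (s1 (s2 (s0 (s0 (s0 (d 5) (d 4)) (d 4)) (d 4)) (s0 (s0 (s0 (d 4) (d 4)) (d 4)) (d 4))) (s2 (s0 (s0 (d 6) (d 4)) (d 4)) (s0 (s0 (d 5) (d 4)) (d 4)))) (s0 (d 3) (v 3))) (s0 (s1 (s2 (s0 (s0 (s0 (d 4) (d 4)) (d 4)) (d 4)) (s0 (s0 (s0 (d 4) (d 4)) (d 4)) (d 4))) (s2 (s0 (s0 (d 5) (d 4)) (d 4)) (s0 (s0 (d 5) (d 4)) (d 4)))) (s0 (d 3) (v 3))))) (by decide +kernel)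

theorem twoC04_236 : Cov (esE 4 208 345 140) ⟨0, 274877906944⟩ ⟨1253443255664, 1504131906797⟩ ⟨291370581359, 349094941817⟩ :=
  Cov.of (open T in (s2 (s0 (s1 (s2 (s0 (s0 (d 4) (d 4)) (d 4)) (s0 (s0 (d 4) (d 4)) (d 3))) (s2 (s0 (s0 (d 4) (v 4)) (d 3)) (s0 (s0 (d 4) (v 4)) (d 3)))) (d 4)) (s0 (s1 (s2 (s0 (s0 (d 4) (d 4)) (d 3)) (s0 (s0 (d 4) (d 4)) (d 3))) (s2 (s0 (s0 (d 4) (d 3)) (d 3)) (s0 (s0 (d 4) (d 3)) (d 3)))) (d 4)))) (by decide +kernel)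

theorem twoC04_237 : Cov (esE 4 208 345 140) ⟨274877906944, 549755813888⟩ ⟨1002754604531, 1504131906797⟩ ⟨291370581359, 349094941817⟩ :=
  Cov.of (open T in (s0 (d 3) (v 2))) (by decide +kernel)

theorem twoC04_238 : Cov (esE 4 208 345 140) ⟨0, 549755813888⟩ ⟨1002754604531, 1504131906797⟩ ⟨349094941817, 406819302276⟩ :=
  Cov.of (open T in (s0 (s1 (s2 (s0 (s1 (s2 (s0 (s0 (d 6) (d 4)) (d 4)) (s0 (s0 (d 5) (d 4)) (d 4))) (s2 (s0 (s0 (d 4) (d 4)) (d 4)) (s0 (s0 (d 4) (d 4)) (d 4)))) (s0 (d 3) (v 3))) (s0 (s1 (s2 (s0 (s0 (d 5) (d 4)) (d 4)) (s0 (s0 (d 5) (d 4)) (d 4))) (s2 (s0 (s0 (d 4) (d 4)) (d 3)) (s0 (s0 (d 4) (d 4)) (d 3)))) (s0 (d 3) (v 3)))) (s2 (s0 (s1 (s2 (s0 (s0 (d 4) (v 4)) (d 3)) (s0 (s0 (d 4) (v 4)) (d 3))) (s0 (s0 (d 4)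 (d 3)) (d 3))) (d 3)) (s0 (s1 (s0 (s0 (d 4) (v 4)) (d 3)) (s0 (s0 (d 4) (d 3)) (d 3))) (d 3)))) (s0 (d 3) (v 2)))) (by decide +kernel)

theorem twoC04_239 : Cov (esE 4 208 345 140) ⟨0, 549755813888⟩ ⟨1504131906797, 2005509209063⟩ ⟨291370581359, 406819302276⟩ :=
  Cov.of (open T in (s2 (s0 (s2 (s1 (s0 (s1 (s2 (s0 (s0 (d 4) (d 3)) (d 3)) (s0 (d 6) (d 3))) (s2 (s0 (d 4) (v 3)) (s0 (d 4) (v 3)))) (d 3)) (s0 (s2 (s1 (s0 (d 4) (v 3)) (s0 (v 4) (v 3))) (s1 (s0 (d 4) (v 3)) (s0 (v 4) (v 3)))) (v 3))) (s1 (s0 (s1 (s0 (d 6) (d 3)) (s0 (d 4) (v 3))) (v 3)) (s0 (s0 (d 4) (v 3)) (v 3)))) (v 3)) (s0 (s1 (s2 (s0 (s0 (s0 (d 4) (d 3)) (d 3)) (v 3)) (s0 (s0 (s0 (d 4) (d 3)) (d 3)) (v 3))) (s2 (s0 (s0 (d 4) (v 3)) (v 3)) (s0 (s0 (d 4) (v 3)) (v 3))))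 (v 3)))) (by decide +kernel)

theorem twoC04_240 : Cov (esE 4 208 345 140) ⟨549755813888, 1099511627776⟩ ⟨1002754604531, 2005509209063⟩ ⟨291370581359, 406819302276⟩ :=
  Cov.of (open T in (v 2)) (by decide +kernel)

theorem twoC04_242 : Cov (esE 4 208 345 140) ⟨0, 1099511627776⟩ ⟨1002754604531, 2005509209063⟩ ⟨406819302276, 522268023192⟩ :=
  Cov.of (open T in (s0 (s1 (s2 (s0 (s1 (s0 (s2 (s1 (s0 (s0 (d 4) (d 4)) (d 4)) (s0 (s0 (d 4) (d 4)) (d 3))) (s1 (s0 (s0 (d 4) (d 4)) (d 4)) (s0 (s0 (d 4) (v 4)) (d 3)))) (s0 (d 3) (v 3))) (s2 (s0 (s0 (s0 (d 4) (d 4)) (d 3)) (d 3)) (s0 (s0 (s0 (d 4) (d 4)) (d 3)) (d 3)))) (s0 (d 3) (v 3))) (s0 (s1 (s0 (s0 (s0 (d 6) (d 4)) (d 4)) (d 4)) (s2 (s0 (s0 (s0 (d 4) (d 3)) (d 3)) (d 3)) (s0 (s0 (s0 (d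 4) (d 3)) (d 3)) (d 3)))) (s0 (v 3) (v 3)))) (s2 (s0 (s1 (s2 (s0 (s0 (s0 (d 4) (d 3)) (d 3)) (v 3)) (s0 (s0 (d 5) (d 3)) (v 3))) (s2 (s0 (s0 (d 4) (v 3)) (v 3)) (s0 (s0 (v 4) (v 3)) (v 3)))) (v 3)) (s0 (s1 (s2 (s0 (s0 (d 5) (v 3)) (v 3)) (s0 (s0 (d 4) (v 3)) (v 3))) (s2 (s0 (s0 (v 4) (v 3)) (v 3)) (s0 (s0 (v 4) (v 3)) (v 3)))) (v 3)))) (v 2))) (by decide +kernel)

theorem twoC04_243 : Cov (esE 4 208 345 140) ⟨0, 1099511627776⟩ ⟨1002754604531, 2005509209063⟩ ⟨522268023192, 637716744109⟩ :=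
  Cov.of (open T in (s0 (s1 (s0 (s2 (s1 (s0 (s0 (s0 (d 4) (d 4)) (d 4)) (d 4)) (s0 (s0 (s0 (d 4) (d 3)) (d 3)) (v 3))) (s1 (s0 (s0 (s0 (d 4) (d 3)) (d 3)) (d 3)) (s0 (s0 (s0 (d 4) (d 3)) (d 3)) (v 3)))) (s0 (v 3) (v 3))) (s2 (s0 (s1 (s2 (s0 (s0 (d 4) (v 3)) (v 3)) (s0 (s0 (d 4) (v 3)) (v 3))) (s2 (s0 (s0 (v 4) (v 3)) (v 3)) (s0 (s0 (v 4) (v 3)) (v 3)))) (v 3)) (s0 (s1 (s0 (s0 (d 4) (v 3)) (v 3)) (s2 (s0 (s0 (v 4) (v 3)) (v 3)) (s0 (s0 (d 3) (v 3)) (v 3)))) (v 3)))) (s0 (v 3) (v 2)))) (by decide +kernel)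

theorem twoC04_250 : Cov (esE 4 208 345 140) ⟨0, 274877906944⟩ ⟨0, 250688651132⟩ ⟨637716744109, 868614185942⟩ :=
  Cov.of (open T in (s2 (s0 (s1 (s2 (s0 (s1 (s2 (s0 (s1 (s2 (s0 (s1 (s2 (s0 (s1 (s2 (s0 (v 0) (v 3)) (s0 (v 0) (v 3))) (v 3)) (v 3)) (s0 (s1 (s2 (s0 (v 0) (v 3)) (s0 (v 0) (v 3))) (v 3)) (v 3))) (v 3)) (v 3)) (s0 (s1 (s2 (s0 (s1 (s2 (s0 (v 0) (v 3)) (s0 (v 0) (v 3))) (v 3)) (v 3)) (s0 (s1 (s2 (s0 (v 0) (v 3)) (s0 (v 0) (v 3))) (v 3)) (v 3))) (v 3)) (v 3))) (v 3)) (v 3)) (s0 (s1 (s2 (s0 (s1 (s2 (s0 (s1 (s2 (s0 (v 0) (v 3)) (s0 (v 0) (v 3))) (v 3)) (v 3)) (s0 (s1 (s2 (s0 (v 0) (v 3)) (s0 (v 0) (v 3))) (v 3)) (v 3))) (v 3)) (v 3)) (s0 (s1 (s2 (s0 (s1 (s2 (s0 (v 0) (v 3)) (s0 (v 0) (v 3))) (v 3)) (v 3)) (s0 (s1 (s2 (s0 (v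 0) (v 3)) (s0 (v 0) (v 3))) (v 3)) (v 3))) (v 3)) (v 3))) (v 3)) (v 3))) (s0 (v 3) (d 3))) (s0 (d 3) (d 3))) (s0 (s1 (s2 (s0 (s1 (s2 (s0 (s1 (s2 (s0 (s1 (s2 (s0 (v 0) (v 3)) (s0 (v 0) (v 3))) (v 3)) (v 3)) (s0 (s1 (s2 (s0 (v 0) (v 3)) (s0 (v 0) (v 3))) (v 3)) (v 3))) (v 3)) (v 3)) (s0 (s1 (s2 (s0 (s1 (s2 (s0 (v 0) (v 3)) (s0 (v 0) (v 3))) (v 3)) (v 3)) (s0 (s1 (s2 (s0 (v 0) (v 3)) (s0 (v 0) (v 3))) (v 3)) (v 3))) (v 3)) (v 3))) (v 3)) (v 3)) (s0 (s1 (s2 (s0 (s1 (s2 (s0 (s1 (s2 (s0 (v 0) (v 3)) (s0 (v 0) (v 3))) (v 3)) (v 3)) (s0 (s1 (s2 (s0 (v 0) (v 3)) (s0 (v 0) (v 3))) (v 3)) (v 3))) (v 3)) (v 3)) (s0 (s1 (s2 (s0 (s1 (s2 (s0 (v 0) (v 3)) (s0 (v 0) (v 3))) (v 3)) (v 3)) (s0 (s1 (s2 (s0 (v 0) (v 3)) (s0 (v 0) (v 3))) (v 3)) (v 3)))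 (v 3)) (v 3))) (v 3)) (v 3))) (s0 (v 3) (v 3))) (s0 (d 3) (d 3)))) (s2 (s0 (s0 (s0 (v 4) (d 3)) (d 3)) (d 4)) (s0 (s0 (s0 (v 4) (d 3)) (d 3)) (d 3)))) (s0 (s0 (d 3) (d 3)) (d 3))) (s0 (s1 (s2 (s0 (s1 (s2 (s0 (s1 (s2 (s0 (s1 (s2 (s0 (s1 (s2 (s0 (v 0) (v 3)) (s0 (v 0) (v 3))) (v 3)) (v 3)) (s0 (s1 (s2 (s0 (v 0) (v 3)) (s0 (v 0) (v 3))) (v 3)) (v 3))) (v 3)) (v 3)) (s0 (s1 (s2 (s0 (s1 (s2 (s0 (v 0) (v 3)) (s0 (v 0) (v 3))) (v 3)) (v 3)) (s0 (s1 (s2 (s0 (v 0) (v 3)) (s0 (v 0) (v 3))) (v 3)) (v 3))) (v 3)) (v 3))) (v 3)) (v 3)) (s0 (s1 (s2 (s0 (s1 (s2 (s0 (s1 (s2 (s0 (v 0) (v 3)) (s0 (v 0) (v 3))) (v 3)) (v 3)) (s0 (s1 (s2 (s0 (v 0) (v 3)) (s0 (v 0) (v 3))) (v 3)) (v 3))) (v 3)) (v 3)) (s0 (s1 (s2 (s0 (s1 (s2 (s0 (v 0) (v 3)) (s0 (v 0)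 (v 3))) (v 3)) (v 3)) (s0 (s1 (s2 (s0 (v 0) (v 3)) (s0 (v 0) (v 3))) (v 3)) (v 3))) (v 3)) (v 3))) (v 3)) (v 3))) (s0 (v 3) (v 3))) (s0 (v 3) (v 3))) (s0 (s1 (s2 (s0 (s1 (s2 (s0 (s1 (s2 (s0 (s1 (s2 (s0 (v 0) (v 3)) (s0 (v 0) (v 3))) (v 3)) (v 3)) (s0 (s1 (s2 (s0 (v 0) (v 3)) (s0 (v 0) (v 3))) (v 3)) (v 3))) (v 3)) (v 3)) (s0 (s1 (s2 (s0 (s1 (s2 (s0 (v 0) (v 3)) (s0 (v 0) (v 3))) (v 3)) (v 3)) (s0 (s1 (s2 (s0 (v 0) (v 3)) (s0 (v 0) (v 3))) (v 3)) (v 3))) (v 3)) (v 3))) (v 3)) (v 3)) (s0 (s1 (s2 (s0 (s1 (s2 (s0 (s1 (s2 (s0 (v 0) (v 3)) (s0 (v 0) (v 3))) (v 3)) (v 3)) (s0 (s1 (s2 (s0 (v 0) (v 3)) (s0 (v 0) (v 3))) (v 3)) (v 3))) (v 3)) (v 3)) (s0 (s1 (s2 (s0 (s1 (s2 (s0 (v 0) (v 3)) (s0 (v 0) (v 3))) (v 3)) (v 3)) (s0 (s1 (s2 (s0 (v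 0) (v 3)) (s0 (v 0) (v 3))) (v 3)) (v 3))) (v 3)) (v 3))) (v 3)) (v 3))) (s0 (v 3) (v 3))) (d 3))) (s0 (s0 (s0 (v 3) (v 3)) (d 3)) (d 3))) (s0 (d 3) (d 3))))) (by decide +kernel)

theorem twoC04_251 : Cov (esE 4 208 345 140) ⟨0, 274877906944⟩ ⟨250688651132, 501377302265⟩ ⟨637716744109, 868614185942⟩ :=
  Cov.of (open T in (s2 (s0 (s2 (s1 (s0 (s0 (s0 (d 3) (d 3)) (d 3)) (d 4)) (s0 (s0 (s0 (d 4) (d 3)) (d 3)) (d 3))) (s0 (s0 (s1 (s0 (d 3) (d 3)) (d 4)) (d 4)) (s0 (d 3) (d 3)))) (s0 (d 3) (d 3))) (s0 (s0 (s0 (s1 (s0 (d 3) (d 3)) (d 4)) (d 4)) (d 4)) (s0 (d 3) (d 3))))) (by decide +kernel)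

theorem twoC04_252 : Cov (esE 4 208 345 140) ⟨274877906944, 549755813888⟩ ⟨0, 501377302265⟩ ⟨637716744109, 868614185942⟩ :=
  Cov.of (open T in (s0 (s0 (s1 (d 3) (d 3)) (s1 (d 3) (d 3))) (s0 (d 3) (d 3)))) (by decide +kernel)

theorem twoC04_253 : Cov (esE 4 208 345 140) ⟨0, 549755813888⟩ ⟨501377302265, 1002754604531⟩ ⟨637716744109, 868614185942⟩ :=
  Cov.of (open T in (s2 (s0 (s1 (s2 (s0 (s0 (s0 (s0 (d 4) (d 4)) (d 4)) (d 5)) (s0 (d 3) (d 3))) (s0 (s0 (s0 (d 4) (d 3)) (d 4)) (s0 (d 3) (v 3)))) (s2 (s0 (s0 (s0 (d 4) (d 4)) (d 4)) (d 4)) (s0 (s0 (s0 (d 4) (d 3)) (d 3)) (d 3)))) (s0 (d 4) (v 3))) (s0 (s1 (s0 (s0 (s0 (d 4) (d 3)) (d 4)) (s0 (d 3) (v 3))) (s2 (s0 (s0 (s0 (d 4) (d 3)) (d 3)) (d 3)) (s0 (s0 (s0 (d 4) (d 3)) (d 3)) (d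 3)))) (s0 (d 3) (v 3))))) (by decide +kernel)

theorem twoC04_255 : Cov (esE 4 208 345 140) ⟨0, 549755813888⟩ ⟨0, 501377302265⟩ ⟨868614185942, 1099511627776⟩ :=
  Cov.of (open T in (s0 (s1 (s2 (s0 (s1 (s2 (s0 (s1 (s2 (s0 (s1 (s2 (s0 (s1 (s2 (s0 (s1 (s2 (s0 (v 0) (v 3)) (s0 (v 0) (v 3))) (v 3)) (v 3)) (s0 (s1 (s2 (s0 (v 0) (v 3)) (s0 (v 0) (v 3))) (v 3)) (v 3))) (v 3)) (v 3)) (s0 (s1 (s2 (s0 (s1 (s2 (s0 (v 0) (v 3)) (s0 (v 0) (v 3))) (v 3)) (v 3)) (s0 (s1 (s2 (s0 (v 0) (v 3)) (s0 (v 0) (v 3))) (v 3)) (v 3))) (v 3)) (v 3))) (v 3)) (v 3)) (s0 (s1 (s2 (s0 (s1 (s2 (s0 (s1 (s2 (s0 (v 0) (v 3)) (s0 (v 0) (v 3))) (v 3)) (v 3)) (s0 (s1 (s2 (s0 (v 0) (v 3)) (s0 (v 0) (v 3))) (v 3)) (v 3))) (v 3)) (v 3)) (s0 (s1 (s2 (s0 (s1 (s2 (s0 (v 0) (v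 3)) (s0 (v 0) (v 3))) (v 3)) (v 3)) (s0 (s1 (s2 (s0 (v 0) (v 3)) (s0 (v 0) (v 3))) (v 3)) (v 3))) (v 3)) (v 3))) (v 3)) (v 3))) (s0 (v 3) (v 3))) (d 3)) (s0 (s1 (s2 (s0 (s1 (s2 (s0 (s1 (s2 (s0 (s1 (s2 (s0 (v 0) (v 3)) (s0 (v 0) (v 3))) (v 3)) (v 3)) (s0 (s1 (s2 (s0 (v 0) (v 3)) (s0 (v 0) (v 3))) (v 3)) (v 3))) (v 3)) (v 3)) (s0 (s1 (s2 (s0 (s1 (s2 (s0 (v 0) (v 3)) (s0 (v 0) (v 3))) (v 3)) (v 3)) (s0 (s1 (s2 (s0 (v 0) (v 3)) (s0 (v 0) (v 3))) (v 3)) (v 3))) (v 3)) (v 3))) (v 3)) (v 3)) (s0 (s1 (s2 (s0 (s1 (s2 (s0 (s1 (s2 (s0 (v 0) (v 3)) (s0 (v 0) (v 3))) (v 3)) (v 3)) (s0 (s1 (s2 (s0 (v 0) (v 3)) (s0 (v 0) (v 3))) (v 3)) (v 3))) (v 3)) (v 3)) (s0 (s1 (s2 (s0 (s1 (s2 (s0 (v 0) (v 3)) (s0 (v 0) (v 3))) (v 3)) (v 3)) (s0 (s1 (s2 (s0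 (v 0) (v 3)) (s0 (v 0) (v 3))) (v 3)) (v 3))) (v 3)) (v 3))) (v 3)) (v 3))) (s0 (v 3) (v 3))) (d 3))) (s0 (s0 (v 4) (v 3)) (d 3))) (s0 (d 3) (d 3))) (s0 (s1 (s2 (s0 (s1 (s2 (s0 (s1 (s2 (s0 (s1 (s2 (s0 (s1 (s2 (s0 (v 0) (v 3)) (s0 (v 0) (v 3))) (v 3)) (v 3)) (s0 (s1 (s2 (s0 (v 0) (v 3)) (s0 (v 0) (v 3))) (v 3)) (v 3))) (v 3)) (v 3)) (s0 (s1 (s2 (s0 (s1 (s2 (s0 (v 0) (v 3)) (s0 (v 0) (v 3))) (v 3)) (v 3)) (s0 (s1 (s2 (s0 (v 0) (v 3)) (s0 (v 0) (v 3))) (v 3)) (v 3))) (v 3)) (v 3))) (v 3)) (v 3)) (s0 (s1 (s2 (s0 (s1 (s2 (s0 (s1 (s2 (s0 (v 0) (v 3)) (s0 (v 0) (v 3))) (v 3)) (v 3)) (s0 (s1 (s2 (s0 (v 0) (v 3)) (s0 (v 0) (v 3))) (v 3)) (v 3))) (v 3)) (v 3)) (s0 (s1 (s2 (s0 (s1 (s2 (s0 (v 0) (v 3)) (s0 (v 0) (v 3))) (v 3)) (v 3)) (s0 (s1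 (s2 (s0 (v 0) (v 3)) (s0 (v 0) (v 3))) (v 3)) (v 3))) (v 3)) (v 3))) (v 3)) (v 3))) (v 3)) (v 3)) (s0 (s1 (s2 (s0 (s1 (s2 (s0 (s1 (s2 (s0 (s1 (s2 (s0 (v 0) (v 3)) (s0 (v 0) (v 3))) (v 3)) (v 3)) (s0 (s1 (s2 (s0 (v 0) (v 3)) (s0 (v 0) (v 3))) (v 3)) (v 3))) (v 3)) (v 3)) (s0 (s1 (s2 (s0 (s1 (s2 (s0 (v 0) (v 3)) (s0 (v 0) (v 3))) (v 3)) (v 3)) (s0 (s1 (s2 (s0 (v 0) (v 3)) (s0 (v 0) (v 3))) (v 3)) (v 3))) (v 3)) (v 3))) (v 3)) (v 3)) (s0 (s1 (s2 (s0 (s1 (s2 (s0 (s1 (s2 (s0 (v 0) (v 3)) (s0 (v 0) (v 3))) (v 3)) (v 3)) (s0 (s1 (s2 (s0 (v 0) (v 3)) (s0 (v 0) (v 3))) (v 3)) (v 3))) (v 3)) (v 3)) (s0 (s1 (s2 (s0 (s1 (s2 (s0 (v 0) (v 3)) (s0 (v 0) (v 3))) (v 3)) (v 3)) (s0 (s1 (s2 (s0 (v 0) (v 3)) (s0 (v 0) (v 3))) (v 3)) (v 3))) (v 3)) (v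 3))) (v 3)) (v 3))) (v 3)) (v 3))) (s0 (s0 (v 3) (v 3)) (d 3))) (s0 (d 3) (v 3)))) (s2 (s0 (s0 (s0 (s1 (d 3) (d 3)) (d 3)) (d 3)) (s0 (d 3) (v 3))) (s0 (s0 (s0 (s1 (v 3) (d 3)) (d 3)) (d 3)) (d 3)))) (s0 (s0 (d 3) (d 3)) (d 3)))) (by decide +kernel)

theorem twoC04_256 : Cov (esE 4 208 345 140) ⟨0, 549755813888⟩ ⟨501377302265, 1002754604531⟩ ⟨868614185942, 1099511627776⟩ :=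
  Cov.of (open T in (s0 (s2 (s1 (s0 (s0 (s0 (d 4) (d 3)) (d 3)) (d 3)) (s2 (s0 (s0 (s0 (d 3) (d 3)) (d 3)) (d 3)) (s0 (s0 (d 4) (d 3)) (v 3)))) (s1 (s0 (s0 (s0 (d 3) (d 3)) (d 3)) (d 3)) (s0 (s0 (d 4) (v 3)) (v 3)))) (s0 (d 3) (v 3)))) (by decide +kernel)

theorem twoC04_257 : Cov (esE 4 208 345 140) ⟨549755813888, 1099511627776⟩ ⟨0, 1002754604531⟩ ⟨637716744109, 1099511627776⟩ :=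
  Cov.of (open T in (s0 (s0 (s1 (s0 (d 3) (d 3)) (v 3)) (s1 (d 3) (v 3))) (s1 (s0 (v 3) (v 3)) (v 3)))) (by decide +kernel)

theorem twoC04_258 : Cov (esE 4 208 345 140) ⟨0, 1099511627776⟩ ⟨1002754604531, 2005509209063⟩ ⟨637716744109, 1099511627776⟩ :=
  Cov.of (open T in (s2 (s0 (s1 (s2 (s0 (s1 (s2 (s0 (s0 (s0 (d 4) (d 3)) (d 3)) (d 3)) (s0 (s0 (s0 (d 4) (d 3)) (d 3)) (d 3))) (s2 (s0 (s0 (d 5) (v 3)) (v 3)) (s0 (s0 (d 4) (v 3)) (v 3)))) (s0 (v 3) (v 3))) (s0 (s1 (s2 (s0 (s0 (d 6) (d 3)) (v 3)) (s0 (s0 (d 4) (v 3)) (v 3))) (s2 (s0 (s0 (d 4) (v 3)) (v 3)) (s0 (s0 (v 4) (v 3)) (v 3)))) (v 3))) (s2 (s0 (s2 (s1 (s0 (s0 (v 4) (v 3)) (v 3)) (s0 (s0 (d 3) (v 3)) (v 3))) (s1 (s0 (s0 (v 4) (v 3)) (v 3)) (s0 (v 4) (v 3)))) (v 3)) (s0 (s1 (s0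 (s0 (v 4) (v 3)) (v 3)) (s0 (v 4) (v 3))) (v 3)))) (s0 (v 3) (v 3))) (s0 (s1 (s2 (s0 (s1 (s2 (s0 (s0 (d 4) (v 3)) (v 3)) (s0 (s0 (d 4) (v 3)) (v 3))) (s0 (s0 (v 4) (v 3)) (v 3))) (v 3)) (s0 (s1 (s0 (s0 (v 4) (v 3)) (v 3)) (s0 (s0 (d 3) (v 3)) (v 3))) (v 3))) (s2 (s0 (s0 (s0 (v 4) (v 3)) (v 3)) (v 3)) (s0 (s0 (s0 (v 4) (v 3)) (v 3)) (v 3)))) (v 3)))) (by decide +kernel)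

theorem twoC04_259 : Cov (esE 4 208 345 140) ⟨0, 1099511627776⟩ ⟨2005509209063, 4011018418127⟩ ⟨175921860443, 1099511627776⟩ :=
  Cov.of (open T in (s2 (s2 (s2 (s2 (s1 (d 1) (v 1)) (s1 (s0 (s1 (s2 (s0 (s1 (s2 (d 1) (s0 (s1 (s2 (d 1) (s0 (v 4) (v 3))) (v 6)) (v 3))) (s2 (v 1) (s0 (v 5) (v 3)))) (v 2)) (s0 (s1 (s2 (s0 (s1 (s2 (s0 (v 4) (v 3)) (s0 (v 4) (v 3))) (v 5)) (v 3)) (s0 (s1 (s0 (v 4) (v 3)) (v 5)) (v 3))) (s2 (s0 (v 5) (v 3)) (s0 (v 4) (v 3)))) (v 3))) (s2 (s0 (s1 (s2 (v 1) (s0 (v 4) (v 3))) (v 4)) (v 2)) (s0 (s1 (s2 (s0 (v 4) (v 3)) (s0 (v 4) (v 3))) (v 4)) (v 3)))) (v 2)) (s0 (s2 (s1 (s0 (v 4) (v 2)) (v 3)) (s1 (s0 (v 3) (v 3)) (v 3))) (v 2)))) (s1 (s2 (s0 (s1 (s2 (s0 (s1 (s2 (s0 (s0 (v 4) (v 3)) (v 3)) (s0 (s0 (v 4) (v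 3)) (v 3))) (s2 (s0 (v 4) (v 3)) (s0 (v 4) (v 3)))) (v 3)) (s0 (s1 (s0 (s0 (v 4) (v 3)) (v 3)) (s2 (s0 (v 4) (v 3)) (s0 (v 4) (v 3)))) (v 3))) (s2 (s0 (s1 (s2 (s0 (v 3) (v 3)) (s0 (v 3) (v 3))) (v 4)) (v 3)) (s0 (s1 (s2 (s0 (v 3) (v 3)) (s0 (v 3) (v 3))) (v 4)) (v 3)))) (v 2)) (s0 (s1 (s0 (s2 (s1 (s0 (s0 (v 4) (v 3)) (v 3)) (s0 (v 4) (v 3))) (s1 (s0 (s0 (v 4) (v 3)) (v 3)) (s0 (v 4) (v 3)))) (v 3)) (s2 (s0 (s1 (s2 (s0 (v 3) (v 3)) (s0 (v 3) (v 3))) (v 3)) (v 3)) (s0 (s1 (s0 (v 3) (v 3)) (v 3)) (v 3)))) (v 2))) (s2 (s0 (s1 (s2 (s0 (v 3) (v 3)) (s0 (v 3) (v 3))) (v 3)) (v 2)) (s0 (s1 (s2 (s0 (v 3) (v 3)) (s0 (v 3) (v 3))) (v 3)) (v 2))))) (s2 (s1 (s0 (s1 (s2 (s0 (s1 (s2 (s0 (s0 (v 4) (v 3)) (v 3)) (s0 (s0 (v 4) (v 3)) (v 3))) (s2 (s0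 (v 4) (v 3)) (s0 (v 4) (v 3)))) (v 3)) (s0 (s1 (s2 (s0 (v 5) (v 3)) (s0 (v 4) (v 3))) (s0 (v 4) (v 3))) (v 3))) (s2 (s0 (s2 (s1 (v 5) (v 3)) (s1 (v 4) (v 3))) (v 3)) (s0 (s0 (v 3) (v 3)) (v 3)))) (v 2)) (s2 (s0 (s1 (s2 (s0 (v 3) (v 3)) (s0 (v 3) (v 3))) (v 3)) (v 2)) (s0 (s1 (s0 (v 3) (v 3)) (v 3)) (v 2)))) (s1 (s0 (s1 (s2 (s0 (s1 (s2 (s0 (v 4) (v 3)) (s0 (v 4) (v 3))) (s0 (v 3) (v 3))) (v 3)) (s0 (s1 (s0 (v 4) (v 3)) (s0 (v 3) (v 3))) (v 3))) (s2 (s0 (v 6) (v 3)) (s0 (v 4) (v 3)))) (v 3)) (s0 (s2 (s1 (s0 (v 3) (v 3)) (v 3)) (s1 (v 5) (v 3))) (v 3))))) (s2 (s1 (s2 (s0 (s1 (s2 (s0 (s0 (v 4) (v 3)) (v 3)) (s0 (s0 (v 4) (v 3)) (v 3))) (s2 (s0 (v 4) (v 3)) (s0 (v 4) (v 3)))) (v 3)) (s0 (s1 (s0 (s0 (v 4) (v 3)) (v 3)) (s2 (s0 (v 3) (v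 3)) (s0 (v 3) (v 3)))) (v 3))) (s2 (s0 (s1 (v 4) (v 3)) (v 3)) (s0 (s1 (v 3) (v 3)) (v 3)))) (s1 (s0 (s2 (s1 (s0 (s0 (v 4) (v 3)) (v 3)) (s0 (v 3) (v 3))) (s1 (s0 (v 6) (v 3)) (s0 (v 3) (v 3)))) (v 3)) (s2 (s0 (v 4) (v 3)) (s0 (v 3) (v 3))))))) (by decide +kernel)

end Ent
end Pool.Agent.Lib.MP_6947cd_al
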