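import Pool.Agent.Lib.MP_6947cd_al.T.TwoNum

/-!
Problem MP_6947cd_al (Chollet).  The numerical condition of the two-entry loss, level 5 / 10.
-/

set_option autoImplicit false

namespace Pool.Agent.Lib.MP_6947cd_al
namespace Ent
open IA

theorem twoC05_13 : Cov (esE 5 202 340 160) ⟨0, 137438953472⟩ ⟨0, 127165391699⟩ ⟨274877906943, 326417514495⟩ :=
  Cov.of (open T in (s0 (s1 (s2 (s0 (s1 (s2 (s0 (s1 (s2 (s0 (s1 (v 0) (v 3)) (v 3)) (s0 (s1 (v 0) (v 3)) (v 3))) (v 3)) (v 3)) (s0 (s1 (s2 (s0 (s1 (v 0) (v 3)) (v 3)) (s0 (s1 (v 0) (v 3)) (v 3))) (v 3)) (v 3))) (s2 (s0 (v 3) (v 3)) (s0 (v 3) (v 3)))) (s1 (s2 (s0 (v 3) (d 3)) (s0 (v 3) (d 3))) (s2 (s0 (d 1) (d 1)) (s0 (d 3) (d 3))))) (s0 (s1 (s2 (s0 (s1 (s2 (s0 (s1 (v 0) (v 3)) (v 3)) (s0 (s1 (v 0) (v 3)) (v 3)))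 (v 3)) (v 3)) (s0 (s1 (s2 (s0 (s1 (v 0) (v 3)) (v 3)) (s0 (s1 (v 0) (v 3)) (v 3))) (v 3)) (v 3))) (s2 (s0 (v 3) (v 3)) (s0 (v 3) (v 3)))) (s1 (s0 (v 3) (d 3)) (s0 (d 3) (d 3))))) (s2 (s0 (s1 (s2 (s0 (v 3) (d 1)) (s0 (v 3) (d 3))) (s2 (d 1) (s0 (v 5) (d 3)))) (s2 (d 1) (s1 (s0 (d 3) (d 3)) (s0 (d 3) (d 3))))) (s0 (s1 (s2 (s0 (v 3) (d 3)) (s0 (v 3) (d 3))) (s2 (s0 (d 3) (d 3)) (s0 (d 3) (d 3)))) (s0 (d 4) (d 4))))) (s2 (s1 (s0 (s1 (s0 (d 3) (d 3)) (s2 (d 1) (s0 (d 3) (d 3)))) (s2 (d 1) (s1 (s0 (d 3) (d 3)) (s0 (d 3) (d 1))))) (s0 (s2 (v 1) (s1 (s0 (d 3) (d 1)) (d 1))) (d 1))) (s1 (s0 (s0 (d 3) (d 3)) (s0 (d 3) (d 3))) (s0 (s0 (d 4) (d 4)) (s0 (d 4) (d 4))))))) (by decide +kernel)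

theorem twoC05_14 : Cov (esE 5 202 340 160) ⟨0, 137438953472⟩ ⟨0, 127165391699⟩ ⟨326417514495, 377957122047⟩ :=
  Cov.of (open T in (s0 (s1 (s2 (s0 (s1 (s2 (s0 (s1 (s2 (s0 (s1 (v 0) (v 3)) (v 3)) (s0 (s1 (v 0) (v 3)) (v 3))) (v 3)) (v 3)) (s0 (s1 (s2 (s0 (s1 (v 0) (v 3)) (v 3)) (s0 (s1 (v 0) (v 3)) (v 3))) (v 3)) (v 3))) (s2 (s0 (v 3) (v 3)) (s0 (v 3) (v 3)))) (s0 (d 3) (d 3))) (s0 (s1 (s2 (s0 (s1 (s2 (s0 (s1 (v 0) (v 3)) (v 3)) (s0 (s1 (v 0) (v 3)) (v 3))) (v 3)) (v 3)) (s0 (s1 (s2 (s0 (s1 (v 0) (v 3)) (v 3)) (s0 (s1 (v 0) (v 3)) (v 3))) (v 3)) (v 3))) (s2 (s0 (v 3) (v 3)) (s0 (v 3) (v 3)))) (s0 (d 3) (d 3)))) (s2 (s0 (s1 (s2 (s0 (v 3) (d 3)) (s0 (v 3) (d 3))) (s2 (s0 (d 3) (d 3)) (s0 (d 3) (d 3)))) (s0 (d 4) (d 3))) (s0 (s1 (s2 (s0 (v 3) (d 3)) (s0 (v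 3) (v 3))) (s0 (d 3) (d 3))) (s0 (d 3) (d 3))))) (s1 (s0 (s0 (d 3) (d 3)) (s0 (d 3) (d 3))) (s0 (s0 (d 3) (d 3)) (s0 (d 3) (d 3)))))) (by decide +kernel)

theorem twoC05_17 : Cov (esE 5 202 340 160) ⟨0, 137438953472⟩ ⟨127165391699, 254330783399⟩ ⟨274877906943, 300647710719⟩ :=
  Cov.of (open T in (s0 (s1 (s0 (s2 (v 1) (s1 (s0 (s2 (d 1) (s0 (d 3) (d 3))) (d 3)) (d 1))) (s2 (v 1) (d 1))) (d 1)) (d 1))) (by decide +kernel)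

theorem twoC05_19 : Cov (esE 5 202 340 160) ⟨0, 68719476736⟩ ⟨127165391699, 254330783399⟩ ⟨300647710719, 326417514495⟩ :=
  Cov.of (open T in (s1 (s0 (s2 (s1 (s0 (s0 (d 3) (d 3)) (d 3)) (s0 (s0 (d 3) (d 3)) (d 4))) (s1 (s0 (s0 (v 3) (d 3)) (d 3)) (s0 (s0 (d 3) (d 3)) (d 4)))) (s2 (s1 (s0 (d 3) (d 3)) (s0 (d 4) (d 4))) (s1 (s0 (d 3) (d 3)) (s0 (d 4) (d 4))))) (s2 (s0 (s1 (s0 (s2 (s1 (s0 (d 3) (d 3)) (d 1)) (s1 (s0 (d 3) (d 3)) (s0 (d 3) (d 3)))) (d 4)) (s2 (d 1) (s0 (s1 (s0 (v 4) (d 4)) (s2 (d 1) (s0 (v 4) (d 4)))) (d 4)))) (s1 (s2 (d 1) (s0 (d 4) (d 4))) (s2 (v 1) (s0 (d 4) (d 1))))) (s0 (s1 (s0 (s0 (v 4) (d 4)) (d 4)) (s2 (s0 (s1 (s0 (v 4) (v 4)) (s0 (v 4) (d 4))) (d 4)) (s0 (s0 (v 4) (d 4)) (d 4)))) (s1 (s0 (d 4) (d 4)) (s2 (s0 (d 4) (d 4)) (s0 (d 4)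 (d 4)))))))) (by decide +kernel)

theorem twoC05_20 : Cov (esE 5 202 340 160) ⟨68719476736, 137438953472⟩ ⟨127165391699, 254330783399⟩ ⟨300647710719, 326417514495⟩ :=
  Cov.of (open T in (s1 (s2 (s0 (s1 (s0 (d 3) (d 3)) (s2 (d 1) (s0 (d 4) (d 3)))) (s1 (s0 (d 3) (d 3)) (s2 (v 1) (s0 (d 3) (d 1))))) (s0 (s0 (d 4) (d 4)) (s0 (d 4) (d 3)))) (s2 (s0 (s1 (s2 (v 1) (s0 (d 4) (d 1))) (d 1)) (d 1)) (s0 (s0 (d 5) (d 4)) (s0 (d 4) (d 4)))))) (by decide +kernel)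

theorem twoC05_21 : Cov (esE 5 202 340 160) ⟨0, 137438953472⟩ ⟨127165391699, 254330783399⟩ ⟨326417514495, 377957122047⟩ :=
  Cov.of (open T in (s0 (s2 (s1 (s0 (s2 (s1 (s0 (d 3) (d 3)) (s0 (s0 (d 3) (d 3)) (d 4))) (s1 (s0 (d 3) (d 3)) (s0 (s0 (d 3) (d 3)) (d 3)))) (s0 (d 4) (d 4))) (s0 (s2 (s1 (s0 (s0 (d 3) (d 3)) (d 4)) (s0 (s0 (v 4) (d 4)) (d 4))) (s1 (s0 (s0 (d 3) (d 3)) (d 4)) (s0 (s0 (v 4) (d 4)) (d 4)))) (s0 (s0 (d 4) (d 4)) (d 5)))) (s1 (s0 (s1 (s0 (d 3) (d 3)) (s0 (s0 (d 3) (d 3)) (d 3))) (s0 (d 4) (d 4))) (s0 (s0 (s0 (d 4) (d 4)) (d 6)) (s0 (d 4) (d 4))))) (s0 (s0 (s1 (d 4) (d 6)) (s1 (d 4) (d 4))) (s0 (s1 (d 4) (d 4)) (s1 (d 3) (d 4)))))) (by decide +kernel)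

theorem twoC05_23 : Cov (esE 5 202 340 160) ⟨137438953472, 274877906944⟩ ⟨0, 254330783399⟩ ⟨274877906943, 326417514495⟩ :=
  Cov.of (open T in (s1 (s2 (s0 (s1 (s0 (s2 (v 1) (s1 (s0 (d 3) (d 1)) (d 1))) (d 1)) (d 1)) (d 1)) (s0 (s1 (s0 (s0 (d 3) (s0 (d 3) (d 3))) (s0 (s0 (d 3) (d 3)) (s0 (d 3) (d 3)))) (s2 (s0 (s0 (d 4) (d 3)) (s1 (s0 (d 3) (d 3)) (s2 (v 1) (d 1)))) (s0 (s0 (d 3) (d 3)) (s0 (d 3) (d 3))))) (s1 (s2 (s0 (s0 (s0 (d 3) (d 3)) (s0 (d 3) (d 3))) (s1 (s2 (d 1) (s0 (d 3) (d 3))) (d 1))) (s0 (s0 (d 3) (d 3)) (s0 (d 3) (d 3)))) (s2 (s0 (s1 (s2 (v 1) (d 1)) (d 1)) (d 1)) (s0 (s0 (d 3) (d 3)) (s0 (d 3) (d 3))))))) (s2 (d 1) (s0 (s1 (s2 (s0 (s1 (s2 (v 1) (d 6)) (d 1)) (d 1)) (s0 (s0 (d 3) (d 3)) (s0 (d 3) (d 3)))) (s2 (d 1) (s0 (s0 (d 3) (d 3)) (d 4))))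 (s1 (s2 (d 1) (s0 (d 3) (d 3))) (s2 (v 1) (s0 (d 3) (d 3)))))))) (by decide +kernel)

theorem twoC05_24 : Cov (esE 5 202 340 160) ⟨137438953472, 274877906944⟩ ⟨0, 254330783399⟩ ⟨326417514495, 377957122047⟩ :=
  Cov.of (open T in (s1 (s0 (s0 (s0 (s1 (d 3) (d 3)) (s1 (d 3) (d 3))) (s0 (s1 (d 3) (d 3)) (s1 (d 3) (d 3)))) (s0 (s0 (s1 (d 3) (d 3)) (s1 (d 3) (d 3))) (s0 (s1 (d 3) (d 3)) (s1 (d 3) (d 3))))) (s2 (s0 (s0 (s0 (d 4) (d 4)) (s0 (d 3) (d 3))) (s0 (s0 (d 3) (d 3)) (d 3))) (s0 (s0 (s0 (d 3) (d 3)) (s0 (d 3) (d 3))) (s0 (d 3) (d 3)))))) (by decide +kernel)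

theorem twoC05_29 : Cov (esE 5 202 340 160) ⟨0, 137438953472⟩ ⟨254330783399, 381496175099⟩ ⟨274877906943, 300647710719⟩ :=
  Cov.of (open T in (d 1)) (by decide +kernel)

theorem twoC05_32 : Cov (esE 5 202 340 160) ⟨0, 68719476736⟩ ⟨254330783399, 317913479249⟩ ⟨300647710719, 326417514495⟩ :=
  Cov.of (open T in (s2 (s0 (s1 (s2 (v 1) (s0 (s1 (s2 (d 1) (s0 (v 4) (d 4))) (d 1)) (d 1))) (d 1)) (d 1)) (s0 (s1 (s2 (s0 (s1 (s2 (s0 (v 4) (d 4)) (s0 (v 4) (d 4))) (s2 (s0 (d 4) (d 4)) (s0 (d 4) (d 4)))) (d 6)) (s0 (s0 (d 4) (d 4)) (d 5))) (s2 (s0 (s1 (s2 (s0 (d 4) (d 4)) (s0 (d 4) (d 4))) (s2 (d 1) (s0 (d 4) (d 4)))) (s0 (d 4) (d 4))) (s0 (s1 (s0 (d 4) (d 4)) (s0 (d 4) (d 4))) (d 6)))) (s1 (s2 (s0 (d 4) (d 4)) (s0 (d 4) (d 4))) (s2 (s0 (d 6) (d 4)) (s0 (d 5) (d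 4))))))) (by decide +kernel)

theorem twoC05_33 : Cov (esE 5 202 340 160) ⟨0, 68719476736⟩ ⟨317913479249, 381496175099⟩ ⟨300647710719, 326417514495⟩ :=
  Cov.of (open T in (s2 (d 1) (s0 (s1 (s2 (s0 (s1 (s2 (d 1) (s0 (d 4) (d 4))) (s2 (v 1) (s0 (d 4) (d 1)))) (s1 (d 6) (d 1))) (s0 (s1 (s2 (s0 (d 4) (d 4)) (s0 (d 4) (d 4))) (s2 (s0 (d 4) (d 4)) (s0 (d 4) (d 4)))) (s0 (d 4) (d 4)))) (s2 (d 1) (s0 (s1 (s2 (s0 (d 4) (d 4)) (s0 (d 4) (d 4))) (s2 (s0 (d 4) (d 4)) (s0 (d 4) (d 4)))) (s0 (d 4) (d 4))))) (s1 (s2 (d 1) (s0 (d 6) (d 4))) (s2 (d 1) (s0 (d 6) (d 5))))))) (by decide +kernel)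

theorem twoC05_34 : Cov (esE 5 202 340 160) ⟨68719476736, 137438953472⟩ ⟨254330783399, 381496175099⟩ ⟨300647710719, 326417514495⟩ :=
  Cov.of (open T in (s1 (s2 (d 1) (s0 (s1 (s0 (d 4) (d 4)) (s0 (d 4) (d 4))) (s0 (d 4) (d 4)))) (s2 (v 1) (s0 (s1 (s2 (d 1) (s0 (d 4) (d 4))) (s2 (v 1) (s0 (d 4) (d 4)))) (s1 (s0 (d 4) (d 4)) (d 1)))))) (by decide +kernel)

theorem twoC05_35 : Cov (esE 5 202 340 160) ⟨0, 137438953472⟩ ⟨381496175099, 508661566799⟩ ⟨274877906943, 326417514495⟩ :=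
  Cov.of (open T in (s2 (v 1) (s0 (s1 (s2 (d 1) (s0 (s1 (s2 (d 1) (s0 (s1 (s2 (s0 (d 4) (d 1)) (s0 (d 4) (d 4))) (s2 (d 1) (s0 (d 4) (d 4)))) (s1 (s0 (d 4) (d 4)) (s2 (d 1) (s0 (d 4) (d 4)))))) (s2 (v 1) (s0 (s1 (s2 (d 1) (s0 (d 4) (d 4))) (s2 (v 1) (s0 (d 5) (d 5)))) (s1 (s2 (v 1) (s0 (d 4) (d 1))) (d 1))))) (s1 (s2 (v 1) (s0 (d 6) (d 5))) (d 1)))) (s2 (v 1) (s0 (s1 (s2 (v 1) (d 1)) (d 1)) (d 1)))) (s1 (s2 (v 1) (s0 (d 1) (d 1))) (d 1))))) (by decide +kernel)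

theorem twoC05_36 : Cov (esE 5 202 340 160) ⟨137438953472, 274877906944⟩ ⟨254330783399, 508661566799⟩ ⟨274877906943, 326417514495⟩ :=
  Cov.of (open T in (s1 (s2 (v 1) (s0 (s1 (s2 (v 1) (s0 (d 6) (d 3))) (s2 (v 1) (d 1))) (s1 (s2 (v 1) (d 1)) (d 1)))) (s2 (v 1) (d 1)))) (by decide +kernel)

theorem twoC05_42 : Cov (esE 5 202 340 160) ⟨0, 68719476736⟩ ⟨254330783399, 317913479249⟩ ⟨326417514495, 352187318271⟩ :=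
  Cov.of (open T in (s2 (s0 (s1 (s2 (s0 (s0 (d 4) (d 4)) (d 4)) (s0 (s0 (d 4) (d 4)) (d 4))) (s2 (s0 (s0 (d 4) (d 4)) (d 6)) (s0 (s0 (d 4) (d 4)) (d 5)))) (s0 (s0 (d 4) (d 4)) (d 6))) (s0 (s1 (s2 (s0 (s0 (d 4) (d 4)) (d 4)) (s0 (s0 (d 4) (d 4)) (d 4))) (s2 (s0 (s0 (d 4) (d 4)) (d 4)) (s0 (s0 (d 4) (d 4)) (d 4)))) (s0 (d 6) (d 4))))) (by decide +kernel)

theorem twoC05_43 : Cov (esE 5 202 340 160) ⟨0, 68719476736⟩ ⟨317913479249, 381496175099⟩ ⟨326417514495, 352187318271⟩ :=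
  Cov.of (open T in (s2 (s0 (s1 (s2 (s0 (s0 (d 4) (d 4)) (s0 (d 4) (d 4))) (s0 (s0 (d 4) (d 4)) (d 6))) (s2 (s0 (s1 (s0 (d 4) (d 4)) (s0 (d 4) (d 4))) (s0 (d 4) (d 4))) (s0 (s0 (d 4) (d 4)) (s0 (d 4) (d 4))))) (s0 (s0 (d 4) (d 4)) (d 6))) (s0 (s1 (s2 (s0 (s0 (d 4) (d 4)) (d 6)) (s0 (s0 (d 4) (d 4)) (d 5))) (s2 (s0 (s0 (d 4) (d 4)) (d 6)) (s0 (s0 (d 4) (d 4)) (d 6)))) (s0 (s0 (d 4) (d 4)) (d 5))))) (by decide +kernel)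

theorem twoC05_44 : Cov (esE 5 202 340 160) ⟨68719476736, 137438953472⟩ ⟨254330783399, 381496175099⟩ ⟨326417514495, 352187318271⟩ :=
  Cov.of (open T in (s1 (s2 (s0 (s0 (d 4) (d 4)) (s0 (d 4) (d 3))) (s0 (s0 (d 4) (d 4)) (s0 (d 4) (d 3)))) (s2 (s0 (s0 (d 4) (d 4)) (s0 (d 4) (d 4))) (s0 (s0 (d 4) (d 4)) (d 6))))) (by decide +kernel)

theorem twoC05_46 : Cov (esE 5 202 340 160) ⟨0, 68719476736⟩ ⟨254330783399, 381496175099⟩ ⟨352187318271, 377957122047⟩ :=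
  Cov.of (open T in (s1 (s2 (s0 (s1 (s0 (s0 (d 4) (d 4)) (d 4)) (s2 (s0 (s0 (d 4) (d 4)) (d 4)) (s0 (s0 (d 4) (d 4)) (d 4)))) (s0 (d 4) (d 4))) (s0 (s1 (s0 (s0 (d 4) (d 4)) (d 4)) (s0 (s0 (d 4) (d 4)) (d 4))) (s0 (d 4) (d 4)))) (s2 (s0 (s1 (s2 (s0 (s0 (d 4) (d 4)) (d 4)) (s0 (s0 (d 4) (d 4)) (d 4))) (s2 (s0 (s0 (d 4) (d 4)) (d 5)) (s0 (s0 (d 4) (d 4)) (d 4)))) (s0 (d 5) (d 4))) (s0 (s1 (s0 (s0 (d 4) (d 4)) (d 4)) (s0 (s0 (d 4) (d 4)) (d 4))) (s0 (d 4) (d 4)))))) (by decide +kernel)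

theorem twoC05_47 : Cov (esE 5 202 340 160) ⟨68719476736, 137438953472⟩ ⟨254330783399, 381496175099⟩ ⟨352187318271, 377957122047⟩ :=
  Cov.of (open T in (s0 (s0 (s1 (d 4) (d 4)) (d 4)) (s0 (d 4) (d 4)))) (by decide +kernel)

theorem twoC05_52 : Cov (esE 5 202 340 160) ⟨0, 68719476736⟩ ⟨381496175099, 445078870949⟩ ⟨326417514495, 339302416383⟩ :=
  Cov.of (open T in (s0 (s1 (s2 (s0 (s1 (s2 (s0 (d 4) (d 4)) (s0 (d 4) (d 4))) (s2 (s0 (d 4) (d 4)) (s0 (d 4) (d 4)))) (s0 (d 4) (d 4))) (s0 (s0 (d 4) (d 4)) (s0 (d 4) (d 4)))) (s2 (s0 (s1 (s2 (s0 (d 4) (d 4)) (s0 (d 4) (d 4))) (s2 (s0 (d 4) (d 5)) (s0 (d 4) (d 4)))) (s0 (d 5) (d 5))) (s0 (s1 (s0 (d 4) (d 4)) (s0 (d 4) (d 4))) (s0 (d 4) (d 4))))) (s1 (s0 (d 6) (d 5)) (s2 (s0 (d 6) (d 5)) (s0 (d 6) (d 4)))))) (by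 decide +kernel)

theorem twoC05_53 : Cov (esE 5 202 340 160) ⟨0, 68719476736⟩ ⟨381496175099, 445078870949⟩ ⟨339302416383, 352187318271⟩ :=
  Cov.of (open T in (s0 (s1 (s2 (s0 (s0 (d 4) (d 4)) (s0 (d 4) (d 4))) (s0 (s0 (d 4) (d 4)) (d 6))) (s2 (s0 (s0 (d 4) (d 4)) (s0 (d 4) (d 4))) (s0 (s0 (d 4) (d 4)) (d 6)))) (s0 (s0 (d 4) (d 4)) (d 5)))) (by decide +kernel)

theorem twoC05_57 : Cov (esE 5 202 340 160) ⟨0, 34359738368⟩ ⟨445078870949, 476870218874⟩ ⟨326417514495, 339302416383⟩ :=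
  Cov.of (open T in (s2 (s0 (s1 (s2 (s0 (d 5) (d 5)) (s0 (d 5) (d 5))) (s2 (s0 (d 6) (d 5)) (s0 (d 5) (d 5)))) (s0 (d 5) (d 5))) (s0 (s1 (s0 (d 4) (d 4)) (s2 (s0 (d 5) (d 5)) (s0 (d 5) (d 5)))) (s0 (d 5) (d 5))))) (by decide +kernel)

theorem twoC05_58 : Cov (esE 5 202 340 160) ⟨0, 34359738368⟩ ⟨476870218874, 508661566799⟩ ⟨326417514495, 339302416383⟩ :=
  Cov.of (open T in (s2 (s0 (s1 (s2 (s0 (d 6) (d 5)) (s0 (d 6) (d 5))) (s2 (s0 (d 6) (d 1)) (s0 (d 6) (d 5)))) (s0 (d 6) (d 5))) (s0 (s1 (s2 (s0 (d 5) (d 5)) (s0 (d 5) (d 5))) (s2 (s0 (d 6) (d 5)) (s0 (d 5) (d 5)))) (s0 (d 5) (d 5))))) (by decide +kernel)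

theorem twoC05_59 : Cov (esE 5 202 340 160) ⟨34359738368, 68719476736⟩ ⟨445078870949, 508661566799⟩ ⟨326417514495, 339302416383⟩ :=
  Cov.of (open T in (s1 (s2 (s0 (d 6) (d 5)) (s0 (d 6) (d 4))) (s2 (s0 (s0 (d 5) (d 4)) (d 5)) (s0 (d 6) (d 4))))) (by decide +kernel)

end Ent
end Pool.Agent.Lib.MP_6947cd_al
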