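import Pool.Agent.Lib.MP_6947cd_al.T.TwoNum

/-!
Problem MP_6947cd_al (Chollet).  The numerical condition of the two-entry loss, level 5 / 10.
-/

set_option autoImplicit false

namespace Pool.Agent.Lib.MP_6947cd_al
namespace Ent
open IA

theorem twoC05_60 : Cov (esE 5 202 340 160) ⟨0, 68719476736⟩ ⟨445078870949, 508661566799⟩ ⟨339302416383, 352187318271⟩ :=
  Cov.of (open T in (s0 (s1 (s2 (s0 (s0 (d 5) (d 5)) (s0 (d 5) (d 4))) (s0 (s0 (d 4) (d 4)) (d 6))) (s2 (s0 (s0 (d 6) (d 5)) (s0 (d 5) (d 5))) (s0 (s0 (d 5) (d 5)) (d 6)))) (s0 (s0 (d 5) (d 4)) (d 5)))) (by decide +kernel)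

theorem twoC05_61 : Cov (esE 5 202 340 160) ⟨68719476736, 137438953472⟩ ⟨381496175099, 508661566799⟩ ⟨326417514495, 352187318271⟩ :=
  Cov.of (open T in (s1 (s2 (s0 (s0 (d 4) (d 4)) (d 6)) (s0 (s0 (d 4) (d 4)) (d 4))) (s2 (s0 (s0 (d 4) (d 4)) (d 4)) (s0 (s0 (d 4) (d 4)) (d 4))))) (by decide +kernel)

theorem twoC05_64 : Cov (esE 5 202 340 160) ⟨0, 68719476736⟩ ⟨381496175099, 445078870949⟩ ⟨352187318271, 377957122047⟩ :=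
  Cov.of (open T in (s2 (s0 (s1 (s2 (s0 (s0 (d 4) (d 4)) (d 6)) (s0 (s0 (d 4) (d 4)) (d 5))) (s2 (s0 (s0 (d 4) (d 4)) (d 6)) (s0 (s0 (d 4) (d 4)) (d 5)))) (s0 (d 6) (d 4))) (s0 (s0 (s0 (d 4) (d 4)) (s0 (d 4) (d 4))) (s0 (d 5) (d 4))))) (by decide +kernel)

theorem twoC05_65 : Cov (esE 5 202 340 160) ⟨0, 68719476736⟩ ⟨445078870949, 508661566799⟩ ⟨352187318271, 377957122047⟩ :=
  Cov.of (open T in (s2 (s0 (s1 (s2 (s0 (s0 (d 4) (d 4)) (d 6)) (s0 (s0 (d 4) (d 4)) (d 6))) (s2 (s0 (s0 (d 5) (d 4)) (d 6)) (s0 (s0 (d 4) (d 4)) (d 6)))) (s0 (d 6) (d 4))) (s0 (s0 (s0 (d 6) (d 5)) (s0 (d 4) (d 4))) (s0 (d 5) (d 4))))) (by decide +kernel)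

theorem twoC05_66 : Cov (esE 5 202 340 160) ⟨68719476736, 137438953472⟩ ⟨381496175099, 508661566799⟩ ⟨352187318271, 377957122047⟩ :=
  Cov.of (open T in (s0 (s0 (d 6) (d 4)) (s0 (d 4) (d 4)))) (by decide +kernel)

theorem twoC05_67 : Cov (esE 5 202 340 160) ⟨137438953472, 274877906944⟩ ⟨254330783399, 508661566799⟩ ⟨326417514495, 377957122047⟩ :=
  Cov.of (open T in (s1 (s2 (s0 (s0 (s0 (d 4) (d 3)) (d 4)) (s0 (d 3) (d 3))) (s0 (s0 (s0 (d 3) (d 3)) (d 3)) (s0 (d 3) (d 3)))) (s2 (s0 (s0 (d 4) (d 3)) (d 4)) (s0 (s0 (d 4) (d 3)) (d 3))))) (by decide +kernel)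

theorem twoC05_68 : Cov (esE 5 202 340 160) ⟨274877906944, 549755813888⟩ ⟨0, 508661566799⟩ ⟨274877906943, 377957122047⟩ :=
  Cov.of (open T in (s1 (s2 (s0 (s1 (s2 (d 1) (s0 (s1 (s2 (s0 (d 1) (d 1)) (s0 (s0 (d 3) (d 3)) (s0 (d 3) (d 3)))) (s2 (d 1) (s0 (d 3) (d 3)))) (v 2))) (s2 (v 1) (s0 (s1 (s2 (v 1) (s0 (d 3) (d 3))) (d 4)) (v 2)))) (v 2)) (s0 (s1 (s0 (s0 (s0 (s1 (d 3) (d 3)) (s1 (d 3) (d 3))) (s0 (s1 (d 3) (d 3)) (d 3))) (s0 (s0 (d 3) (d 3)) (d 3))) (s0 (s0 (d 3) (d 3)) (d 3))) (v 2))) (s2 (s0 (s1 (s2 (v 1) (d 1)) (d 1)) (v 2)) (s0 (s0 (s0 (d 3) (d 3)) (d 3)) (v 2))))) (by decide +kernel)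

theorem twoC05_73 : Cov (esE 5 202 340 160) ⟨0, 137438953472⟩ ⟨0, 127165391699⟩ ⟨377957122047, 481036337151⟩ :=
  Cov.of (open T in (s2 (s0 (s1 (s2 (s0 (s1 (s2 (s0 (s1 (s2 (s0 (s1 (v 0) (v 3)) (v 3)) (s0 (s1 (v 0) (v 3)) (v 3))) (v 3)) (v 3)) (s0 (s1 (s2 (s0 (s1 (v 0) (v 3)) (v 3)) (s0 (s1 (v 0) (v 3)) (v 3))) (v 3)) (v 3))) (s2 (s0 (v 3) (v 3)) (s0 (v 3) (v 3)))) (s0 (d 3) (d 3))) (s0 (s1 (s2 (s0 (s1 (s2 (s0 (s1 (v 0) (v 3)) (v 3)) (s0 (s1 (v 0) (v 3)) (v 3))) (v 3)) (v 3)) (s0 (s1 (s2 (s0 (s1 (v 0) (v 3)) (v 3)) (s0 (s1 (v 0) (v 3)) (v 3))) (v 3)) (v 3))) (s2 (s0 (v 3) (v 3)) (s0 (v 3) (v 3)))) (s0 (d 3) (d 3)))) (s2 (s0 (s1 (s2 (s0 (v 3) (v 3)) (s0 (v 3) (v 3))) (s0 (d 3) (d 3))) (s0 (d 3) (d 3))) (s0 (s1 (s0 (v 3) (v 3)) (s0 (v 3) (d 3))) (s0 (d 3) (d 3))))) (s0 (s0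 (s1 (d 3) (d 3)) (s1 (d 3) (d 3))) (s0 (s1 (d 3) (d 3)) (d 3)))) (s0 (s1 (s2 (s0 (s1 (s2 (s0 (s1 (s2 (s0 (s1 (v 0) (v 3)) (v 3)) (s0 (s1 (v 0) (v 3)) (v 3))) (v 3)) (v 3)) (s0 (s1 (s2 (s0 (s1 (v 0) (v 3)) (v 3)) (s0 (s1 (v 0) (v 3)) (v 3))) (v 3)) (v 3))) (s2 (s0 (v 3) (v 3)) (s0 (v 3) (v 3)))) (s0 (v 3) (d 3))) (s0 (s1 (s2 (s0 (s1 (s2 (s0 (s1 (v 0) (v 3)) (v 3)) (s0 (s1 (v 0) (v 3)) (v 3))) (v 3)) (v 3)) (s0 (s1 (s2 (s0 (s1 (v 0) (v 3)) (v 3)) (s0 (s1 (v 0) (v 3)) (v 3))) (v 3)) (v 3))) (s2 (s0 (v 3) (v 3)) (s0 (v 3) (v 3)))) (s0 (v 3) (d 3)))) (s2 (s0 (s1 (s0 (v 3) (v 3)) (s0 (v 3) (d 3))) (s0 (d 3) (d 3))) (s0 (s1 (s0 (v 3) (v 3)) (s0 (v 3) (v 3))) (s0 (d 3) (d 3))))) (s0 (s0 (s1 (d 3) (d 3)) (d 3)) (s0 (d 3) (d 3)))))) (by decide +kernel)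

theorem twoC05_74 : Cov (esE 5 202 340 160) ⟨0, 137438953472⟩ ⟨127165391699, 254330783399⟩ ⟨377957122047, 481036337151⟩ :=
  Cov.of (open T in (s2 (s0 (s2 (s1 (s0 (s0 (s0 (d 3) (d 3)) (d 4)) (s0 (d 3) (d 3))) (s0 (s0 (s0 (d 4) (d 4)) (d 4)) (s0 (d 4) (d 4)))) (s1 (s0 (s0 (s0 (d 3) (d 3)) (d 4)) (s0 (d 3) (d 3))) (s0 (s0 (s0 (v 4) (d 4)) (d 4)) (s0 (d 4) (d 3))))) (s0 (s0 (s1 (d 3) (d 4)) (d 4)) (s0 (d 4) (d 3)))) (s0 (s1 (s2 (s0 (s0 (s0 (d 3) (d 3)) (d 3)) (s0 (d 3) (d 3))) (s0 (s0 (s0 (d 3) (d 3)) (d 3)) (s0 (d 3) (d 3)))) (s2 (s0 (s0 (s0 (d 3) (d 3)) (d 4)) (s0 (d 3) (d 3))) (s0 (s0 (s0 (d 3) (d 3)) (d 3)) (s0 (d 3) (d 3))))) (s0 (s0 (d 4) (d 3)) (d 4))))) (by decide +kernel)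

theorem twoC05_75 : Cov (esE 5 202 340 160) ⟨137438953472, 274877906944⟩ ⟨0, 254330783399⟩ ⟨377957122047, 481036337151⟩ :=
  Cov.of (open T in (s2 (s1 (s0 (s0 (s0 (d 3) (d 3)) (s0 (d 3) (d 3))) (s0 (s0 (d 3) (d 3)) (s0 (d 3) (d 3)))) (s0 (s0 (s0 (d 3) (d 3)) (d 4)) (s0 (d 3) (d 3)))) (s0 (s0 (s1 (d 3) (d 3)) (s1 (d 3) (d 3))) (s0 (s1 (d 3) (d 3)) (s1 (d 3) (d 3)))))) (by decide +kernel)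

theorem twoC05_79 : Cov (esE 5 202 340 160) ⟨0, 137438953472⟩ ⟨254330783399, 381496175099⟩ ⟨377957122047, 429496729599⟩ :=
  Cov.of (open T in (s2 (s0 (s1 (s0 (s0 (s0 (d 4) (d 4)) (d 5)) (s0 (d 4) (d 4))) (s2 (s0 (s0 (s0 (d 4) (d 4)) (d 6)) (s0 (d 4) (d 4))) (s0 (s0 (s0 (d 4) (d 4)) (d 4)) (s0 (d 4) (d 4))))) (s0 (s0 (d 4) (d 4)) (s0 (d 4) (d 3)))) (s0 (s1 (s0 (s0 (s0 (d 4) (d 4)) (d 4)) (s0 (d 4) (d 4))) (s2 (s0 (s0 (s0 (d 4) (d 4)) (d 4)) (s0 (d 4) (d 4))) (s0 (s0 (s0 (d 4) (d 4)) (d 4)) (s0 (d 4) (d 4))))) (s0 (s0 (d 4) (d 4)) (d 4))))) (by decide +kernel)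

theorem twoC05_81 : Cov (esE 5 202 340 160) ⟨0, 137438953472⟩ ⟨381496175099, 508661566799⟩ ⟨377957122047, 403726925823⟩ :=
  Cov.of (open T in (s0 (s1 (s2 (s0 (s0 (s0 (d 4) (d 4)) (d 6)) (s0 (d 4) (d 4))) (s0 (s0 (s0 (d 4) (d 4)) (d 5)) (s0 (d 4) (d 4)))) (s2 (s0 (s0 (s0 (d 4) (d 4)) (d 6)) (s0 (d 4) (d 4))) (s0 (s0 (s0 (d 4) (d 4)) (d 5)) (s0 (d 4) (d 4))))) (s0 (s0 (d 4) (d 4)) (d 4)))) (by decide +kernel)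

theorem twoC05_82 : Cov (esE 5 202 340 160) ⟨0, 137438953472⟩ ⟨381496175099, 508661566799⟩ ⟨403726925823, 429496729599⟩ :=
  Cov.of (open T in (s0 (s1 (s2 (s0 (s0 (s0 (d 4) (d 4)) (d 4)) (s0 (d 4) (d 4))) (s0 (s0 (s0 (d 4) (d 4)) (d 4)) (s0 (d 4) (d 4)))) (s2 (s0 (s0 (s0 (d 4) (d 4)) (d 4)) (s0 (d 4) (d 4))) (s0 (s0 (s0 (d 4) (d 4)) (d 4)) (s0 (d 4) (d 4))))) (s0 (s0 (d 4) (d 4)) (d 4)))) (by decide +kernel)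

theorem twoC05_83 : Cov (esE 5 202 340 160) ⟨137438953472, 274877906944⟩ ⟨254330783399, 508661566799⟩ ⟨377957122047, 429496729599⟩ :=
  Cov.of (open T in (s1 (s0 (s0 (d 4) (d 3)) (s0 (d 3) (d 3))) (s0 (s0 (d 4) (d 3)) (d 3)))) (by decide +kernel)

theorem twoC05_85 : Cov (esE 5 202 340 160) ⟨0, 137438953472⟩ ⟨254330783399, 508661566799⟩ ⟨429496729599, 481036337151⟩ :=
  Cov.of (open T in (s1 (s0 (s2 (s1 (s0 (s0 (s0 (d 4) (d 4)) (d 4)) (s0 (d 4) (d 4))) (s0 (s0 (s0 (d 4) (d 4)) (d 4)) (s0 (d 4) (d 4)))) (s1 (s0 (s0 (s0 (d 4) (d 4)) (d 4)) (d 5)) (s0 (s0 (s0 (d 4) (d 4)) (d 4)) (d 4)))) (s0 (s0 (d 4) (d 4)) (d 4))) (s2 (s0 (s1 (s2 (s0 (s0 (s0 (d 4) (d 4)) (d 4)) (d 6)) (s0 (s0 (s0 (d 4) (d 4)) (d 4)) (d 5))) (s0 (s0 (s0 (d 4) (d 4)) (d 4)) (s0 (d 4) (d 4)))) (s0 (d 6) (d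 4))) (s0 (s0 (s0 (s0 (d 4) (d 4)) (d 4)) (s0 (d 4) (d 4))) (s0 (d 4) (d 3)))))) (by decide +kernel)

theorem twoC05_86 : Cov (esE 5 202 340 160) ⟨137438953472, 274877906944⟩ ⟨254330783399, 508661566799⟩ ⟨429496729599, 481036337151⟩ :=
  Cov.of (open T in (s0 (s0 (s1 (d 3) (d 3)) (d 4)) (s0 (d 3) (d 3)))) (by decide +kernel)

theorem twoC05_87 : Cov (esE 5 202 340 160) ⟨274877906944, 549755813888⟩ ⟨0, 508661566799⟩ ⟨377957122047, 481036337151⟩ :=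
  Cov.of (open T in (s1 (s2 (s0 (s0 (s0 (s1 (d 3) (d 3)) (s1 (d 3) (d 3))) (s0 (s1 (d 3) (d 3)) (d 3))) (s0 (s0 (d 3) (v 2)) (v 2))) (s0 (s0 (s0 (s1 (d 3) (d 3)) (d 3)) (s0 (d 3) (d 3))) (s0 (d 3) (d 3)))) (s2 (s0 (s0 (s0 (d 3) (d 3)) (d 3)) (d 6)) (s0 (s0 (d 3) (d 3)) (d 3))))) (by decide +kernel)

theorem twoC05_91 : Cov (esE 5 202 340 160) ⟨0, 274877906944⟩ ⟨508661566799, 1017323133599⟩ ⟨274877906943, 326417514495⟩ :=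
  Cov.of (open T in (s1 (s0 (s1 (s2 (v 1) (d 1)) (d 1)) (d 1)) (d 1))) (by decide +kernel)

theorem twoC05_101 : Cov (esE 5 202 340 160) ⟨0, 34359738368⟩ ⟨508661566799, 540452914724⟩ ⟨326417514495, 339302416383⟩ :=
  Cov.of (open T in (s2 (s0 (s1 (s2 (d 1) (s0 (d 6) (d 5))) (s2 (d 1) (s0 (d 6) (d 6)))) (s1 (s0 (d 5) (d 5)) (s2 (v 1) (s0 (d 5) (d 5))))) (s0 (s1 (s2 (s0 (d 6) (d 5)) (s0 (d 6) (d 5))) (s2 (s0 (d 6) (d 5)) (s0 (d 6) (d 5)))) (s0 (d 5) (d 5))))) (by decide +kernel)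

theorem twoC05_102 : Cov (esE 5 202 340 160) ⟨0, 34359738368⟩ ⟨540452914724, 572244262649⟩ ⟨326417514495, 339302416383⟩ :=
  Cov.of (open T in (s2 (s0 (s1 (s2 (v 1) (s0 (d 6) (d 6))) (s2 (v 1) (s0 (d 6) (d 1)))) (s1 (s2 (v 1) (s0 (d 5) (d 1))) (d 1))) (s0 (s1 (s2 (s0 (d 6) (d 5)) (s0 (d 6) (d 5))) (s2 (s0 (d 6) (d 5)) (s0 (d 6) (d 5)))) (s0 (d 5) (d 5))))) (by decide +kernel)

theorem twoC05_103 : Cov (esE 5 202 340 160) ⟨34359738368, 68719476736⟩ ⟨508661566799, 572244262649⟩ ⟨326417514495, 339302416383⟩ :=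
  Cov.of (open T in (s1 (s2 (s0 (s0 (d 5) (d 4)) (d 5)) (s0 (d 6) (d 4))) (s2 (d 1) (s0 (d 6) (d 4))))) (by decide +kernel)

theorem twoC05_104 : Cov (esE 5 202 340 160) ⟨0, 68719476736⟩ ⟨508661566799, 572244262649⟩ ⟨339302416383, 352187318271⟩ :=
  Cov.of (open T in (s0 (s1 (s2 (s0 (s0 (d 6) (d 5)) (s0 (d 5) (d 5))) (s0 (s0 (d 6) (d 5)) (d 6))) (s2 (s0 (s0 (d 6) (d 5)) (s0 (d 5) (d 5))) (s0 (s0 (d 6) (d 5)) (d 6)))) (s0 (s0 (d 5) (d 4)) (d 5)))) (by decide +kernel)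

theorem twoC05_106 : Cov (esE 5 202 340 160) ⟨0, 68719476736⟩ ⟨572244262649, 635826958499⟩ ⟨326417514495, 339302416383⟩ :=
  Cov.of (open T in (s0 (s1 (s2 (d 1) (s0 (s1 (s2 (s0 (d 6) (d 6)) (s0 (d 6) (d 5))) (s2 (s0 (d 6) (d 6)) (s0 (d 6) (d 5)))) (s0 (d 5) (d 5)))) (s2 (d 1) (s0 (s1 (s2 (s0 (d 6) (d 5)) (s0 (d 6) (d 5))) (s2 (s0 (d 6) (d 5)) (s0 (d 6) (d 5)))) (s0 (d 5) (d 5))))) (s1 (s2 (d 1) (s0 (d 6) (d 4))) (s2 (d 1) (s0 (d 6) (d 4)))))) (by decide +kernel)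

theorem twoC05_107 : Cov (esE 5 202 340 160) ⟨0, 68719476736⟩ ⟨572244262649, 635826958499⟩ ⟨339302416383, 352187318271⟩ :=
  Cov.of (open T in (s0 (s1 (s2 (s0 (s0 (d 6) (d 5)) (s0 (d 5) (d 5))) (s0 (s0 (d 6) (d 5)) (d 6))) (s2 (s0 (s0 (d 6) (d 5)) (s0 (d 5) (d 5))) (s0 (s0 (d 6) (d 5)) (d 6)))) (s0 (d 6) (d 4)))) (by decide +kernel)

theorem twoC05_108 : Cov (esE 5 202 340 160) ⟨68719476736, 137438953472⟩ ⟨508661566799, 635826958499⟩ ⟨326417514495, 352187318271⟩ :=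
  Cov.of (open T in (s1 (s2 (s0 (s0 (d 4) (d 4)) (d 4)) (s0 (s0 (d 4) (d 4)) (d 4))) (s2 (s0 (s0 (d 4) (d 4)) (d 4)) (s0 (d 6) (d 4))))) (by decide +kernel)

theorem twoC05_111 : Cov (esE 5 202 340 160) ⟨0, 68719476736⟩ ⟨508661566799, 572244262649⟩ ⟨352187318271, 377957122047⟩ :=
  Cov.of (open T in (s2 (s0 (s1 (s2 (s0 (s0 (d 5) (d 5)) (d 6)) (s0 (s0 (d 5) (d 4)) (d 6))) (s2 (s0 (s0 (d 5) (d 5)) (d 6)) (s0 (s0 (d 5) (d 4)) (d 6)))) (s0 (d 6) (d 4))) (s0 (s0 (s0 (d 6) (d 5)) (d 6)) (s0 (d 5) (d 4))))) (by decide +kernel)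

theorem twoC05_112 : Cov (esE 5 202 340 160) ⟨0, 68719476736⟩ ⟨572244262649, 635826958499⟩ ⟨352187318271, 377957122047⟩ :=
  Cov.of (open T in (s2 (s0 (s1 (s2 (s0 (s0 (d 5) (d 5)) (d 6)) (s0 (s0 (d 5) (d 5)) (d 6))) (s2 (s0 (s0 (d 5) (d 5)) (d 6)) (s0 (s0 (d 5) (d 5)) (d 6)))) (s0 (d 6) (d 4))) (s0 (s0 (s0 (d 6) (d 5)) (d 6)) (s0 (d 5) (d 4))))) (by decide +kernel)

end Ent
end Pool.Agent.Lib.MP_6947cd_al
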