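import Pool.Agent.Lib.MP_6947cd_al.T.TwoNum

/-!
Problem MP_6947cd_al (Chollet).  The numerical condition of the two-entry loss, level 5 / 10.
-/

set_option autoImplicit false

namespace Pool.Agent.Lib.MP_6947cd_al
namespace Ent
open IA

theorem twoC05_113 : Cov (esE 5 202 340 160) ⟨68719476736, 137438953472⟩ ⟨508661566799, 635826958499⟩ ⟨352187318271, 377957122047⟩ :=
  Cov.of (open T in (s0 (s0 (d 4) (d 4)) (d 4))) (by decide +kernel)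

theorem twoC05_118 : Cov (esE 5 202 340 160) ⟨0, 68719476736⟩ ⟨635826958499, 699409654349⟩ ⟨326417514495, 339302416383⟩ :=
  Cov.of (open T in (s0 (s1 (s2 (d 1) (s0 (s1 (s2 (d 1) (s0 (d 6) (d 5))) (s2 (d 1) (s0 (d 6) (d 5)))) (s0 (d 5) (d 5)))) (s2 (v 1) (s0 (s1 (s2 (d 1) (s0 (d 6) (d 5))) (s2 (v 1) (s0 (d 6) (d 5)))) (s0 (d 5) (d 5))))) (s1 (s2 (v 1) (s0 (d 5) (d 4))) (s2 (v 1) (s0 (d 5) (d 1)))))) (by decide +kernel)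

theorem twoC05_119 : Cov (esE 5 202 340 160) ⟨0, 68719476736⟩ ⟨635826958499, 699409654349⟩ ⟨339302416383, 352187318271⟩ :=
  Cov.of (open T in (s0 (s1 (s2 (s0 (s0 (d 6) (d 5)) (s0 (d 5) (d 5))) (s0 (s0 (d 6) (d 5)) (d 6))) (s2 (s0 (s0 (d 6) (d 5)) (d 6)) (s0 (s0 (d 6) (d 5)) (d 6)))) (s0 (d 6) (d 4)))) (by decide +kernel)

theorem twoC05_120 : Cov (esE 5 202 340 160) ⟨0, 68719476736⟩ ⟨699409654349, 762992350199⟩ ⟨326417514495, 352187318271⟩ :=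
  Cov.of (open T in (s2 (s0 (s1 (s2 (v 1) (s0 (s1 (s2 (v 1) (s0 (d 6) (d 5))) (d 1)) (d 1))) (d 1)) (d 1)) (s0 (s1 (s2 (s0 (s0 (d 6) (d 5)) (d 6)) (s0 (s0 (d 5) (d 5)) (d 6))) (s2 (s0 (s0 (d 5) (d 5)) (d 6)) (s0 (s0 (d 5) (d 5)) (d 6)))) (s0 (d 5) (d 4))))) (by decide +kernel)

theorem twoC05_121 : Cov (esE 5 202 340 160) ⟨68719476736, 137438953472⟩ ⟨635826958499, 762992350199⟩ ⟨326417514495, 352187318271⟩ :=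
  Cov.of (open T in (s1 (s2 (s0 (d 5) (d 1)) (s0 (d 4) (d 4))) (s2 (d 1) (s0 (d 4) (d 3))))) (by decide +kernel)

theorem twoC05_123 : Cov (esE 5 202 340 160) ⟨0, 68719476736⟩ ⟨635826958499, 762992350199⟩ ⟨352187318271, 377957122047⟩ :=
  Cov.of (open T in (s1 (s2 (s0 (s1 (s2 (s0 (s0 (d 5) (d 5)) (d 6)) (s0 (s0 (d 5) (d 5)) (d 6))) (s2 (s0 (s0 (d 5) (d 5)) (d 6)) (s0 (s0 (d 5) (d 5)) (d 5)))) (s0 (d 5) (d 4))) (s0 (s0 (s0 (d 5) (d 5)) (d 6)) (s0 (d 4) (d 4)))) (s2 (s0 (s1 (s0 (s0 (d 5) (d 5)) (d 6)) (s0 (s0 (d 5) (d 5)) (d 5))) (s0 (d 4) (d 4))) (s0 (s0 (s0 (d 5) (d 5)) (d 6)) (s0 (d 4) (d 4)))))) (by decide +kernel)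

theorem twoC05_124 : Cov (esE 5 202 340 160) ⟨68719476736, 137438953472⟩ ⟨635826958499, 762992350199⟩ ⟨352187318271, 377957122047⟩ :=
  Cov.of (open T in (s0 (s0 (d 4) (d 4)) (d 4))) (by decide +kernel)

theorem twoC05_125 : Cov (esE 5 202 340 160) ⟨137438953472, 274877906944⟩ ⟨508661566799, 762992350199⟩ ⟨326417514495, 377957122047⟩ :=
  Cov.of (open T in (s1 (s2 (s0 (s0 (d 4) (d 3)) (d 3)) (s0 (s0 (d 3) (d 3)) (d 3))) (s2 (s0 (d 4) (d 3)) (s0 (d 4) (d 3))))) (by decide +kernel)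

theorem twoC05_129 : Cov (esE 5 202 340 160) ⟨0, 137438953472⟩ ⟨762992350199, 890157741899⟩ ⟨326417514495, 352187318271⟩ :=
  Cov.of (open T in (s0 (s2 (d 1) (s1 (s0 (s1 (s2 (s0 (s0 (d 5) (d 5)) (d 6)) (s0 (s0 (d 5) (d 5)) (d 5))) (s2 (s0 (s0 (d 5) (d 5)) (d 5)) (s0 (s0 (d 5) (d 5)) (d 5)))) (s0 (d 4) (d 4))) (s0 (s2 (s1 (s0 (d 6) (d 5)) (s0 (d 6) (d 5))) (s1 (s0 (d 6) (d 5)) (s0 (d 6) (d 4)))) (s0 (d 4) (d 4))))) (s2 (d 1) (s1 (s0 (d 4) (d 3)) (s0 (d 4) (d 3)))))) (by decide +kernel)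

theorem twoC05_130 : Cov (esE 5 202 340 160) ⟨0, 137438953472⟩ ⟨890157741899, 1017323133599⟩ ⟨326417514495, 352187318271⟩ :=
  Cov.of (open T in (s0 (s2 (d 1) (s1 (s0 (s2 (s1 (s0 (d 5) (d 4)) (d 1)) (s1 (s0 (d 5) (d 4)) (s0 (d 5) (d 4)))) (d 5)) (s0 (s2 (d 1) (s1 (s0 (d 5) (d 4)) (s0 (d 5) (d 4)))) (d 4)))) (s2 (d 1) (s1 (s0 (d 4) (d 3)) (d 4))))) (by decide +kernel)

theorem twoC05_131 : Cov (esE 5 202 340 160) ⟨0, 137438953472⟩ ⟨762992350199, 1017323133599⟩ ⟨352187318271, 377957122047⟩ :=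
  Cov.of (open T in (s1 (s0 (s1 (s2 (s0 (s0 (s0 (d 5) (d 5)) (d 6)) (s0 (d 4) (d 4))) (s0 (s0 (s0 (d 5) (d 5)) (d 5)) (d 6))) (s2 (s0 (s0 (d 6) (d 5)) (d 6)) (s0 (s0 (d 6) (d 5)) (d 5)))) (s0 (d 4) (d 3))) (s0 (s2 (s1 (s0 (s0 (d 6) (d 4)) (d 5)) (s0 (s0 (d 5) (d 4)) (d 4))) (s1 (s0 (s0 (d 5) (d 4)) (d 4)) (s0 (s0 (d 5) (d 4)) (d 4)))) (s0 (d 4) (d 3))))) (by decide +kernel)

theorem twoC05_132 : Cov (esE 5 202 340 160) ⟨137438953472, 274877906944⟩ ⟨762992350199, 1017323133599⟩ ⟨326417514495, 377957122047⟩ :=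
  Cov.of (open T in (s2 (s1 (s0 (d 4) (d 3)) (s2 (d 1) (s0 (d 3) (v 3)))) (s1 (s0 (d 3) (d 3)) (s0 (d 3) (v 3))))) (by decide +kernel)

theorem twoC05_133 : Cov (esE 5 202 340 160) ⟨274877906944, 549755813888⟩ ⟨508661566799, 1017323133599⟩ ⟨274877906943, 377957122047⟩ :=
  Cov.of (open T in (s2 (d 1) (s1 (s0 (s0 (d 3) (d 3)) (v 2)) (s2 (s0 (d 3) (v 2)) (s0 (d 3) (v 2)))))) (by decide +kernel)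

theorem twoC05_140 : Cov (esE 5 202 340 160) ⟨0, 137438953472⟩ ⟨508661566799, 635826958499⟩ ⟨377957122047, 403726925823⟩ :=
  Cov.of (open T in (s0 (s1 (s2 (s0 (s0 (s0 (d 5) (d 4)) (d 6)) (s0 (d 4) (d 4))) (s0 (s0 (s0 (d 4) (d 4)) (d 5)) (s0 (d 4) (d 4)))) (s2 (s0 (s0 (s0 (d 5) (d 4)) (d 6)) (s0 (d 4) (d 4))) (s0 (s0 (s0 (d 4) (d 4)) (d 5)) (s0 (d 4) (d 4))))) (s0 (s0 (d 4) (d 4)) (d 4)))) (by decide +kernel)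

theorem twoC05_141 : Cov (esE 5 202 340 160) ⟨0, 137438953472⟩ ⟨508661566799, 635826958499⟩ ⟨403726925823, 429496729599⟩ :=
  Cov.of (open T in (s0 (s1 (s2 (s0 (s0 (s0 (d 4) (d 4)) (d 4)) (s0 (d 4) (d 4))) (s0 (s0 (s0 (d 4) (d 4)) (d 4)) (s0 (d 4) (d 4)))) (s2 (s0 (s0 (s0 (d 4) (d 4)) (d 4)) (s0 (d 4) (d 4))) (s0 (s0 (s0 (d 4) (d 4)) (d 4)) (d 6)))) (s0 (d 6) (d 4)))) (by decide +kernel)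

theorem twoC05_142 : Cov (esE 5 202 340 160) ⟨0, 137438953472⟩ ⟨635826958499, 762992350199⟩ ⟨377957122047, 429496729599⟩ :=
  Cov.of (open T in (s2 (s0 (s1 (s2 (s0 (s0 (s0 (d 5) (d 4)) (d 5)) (s0 (d 4) (d 4))) (s0 (s0 (s0 (d 4) (d 4)) (d 5)) (s0 (d 4) (d 4)))) (s2 (s0 (s0 (s0 (d 5) (d 4)) (d 5)) (s0 (d 4) (d 4))) (s0 (s0 (s0 (d 4) (d 4)) (d 4)) (d 6)))) (s0 (d 4) (d 4))) (s0 (s1 (s2 (s0 (s0 (s0 (d 4) (d 4)) (d 4)) (d 6)) (s0 (s0 (d 6) (d 4)) (d 6))) (s2 (s0 (s0 (d 6) (d 4)) (d 5)) (s0 (s0 (d 5) (d 4)) (d 5)))) (s0 (d 4) (d 3))))) (by decide +kernel)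

theorem twoC05_143 : Cov (esE 5 202 340 160) ⟨137438953472, 274877906944⟩ ⟨508661566799, 762992350199⟩ ⟨377957122047, 429496729599⟩ :=
  Cov.of (open T in (s0 (s0 (d 4) (d 3)) (d 3))) (by decide +kernel)

theorem twoC05_144 : Cov (esE 5 202 340 160) ⟨0, 274877906944⟩ ⟨508661566799, 762992350199⟩ ⟨429496729599, 481036337151⟩ :=
  Cov.of (open T in (s0 (s1 (s2 (s0 (s1 (s0 (s0 (s0 (d 4) (d 4)) (d 4)) (s0 (d 4) (d 4))) (s0 (s0 (s0 (d 4) (d 4)) (d 4)) (d 6))) (s0 (d 4) (d 3))) (s0 (s0 (s0 (s0 (d 4) (d 4)) (d 4)) (s0 (d 4) (d 4))) (s0 (d 4) (d 3)))) (s2 (s0 (s0 (s0 (s0 (d 4) (d 4)) (d 5)) (s0 (d 4) (d 4))) (s0 (d 4) (d 3))) (s0 (s0 (s0 (d 6) (d 4)) (d 6)) (s0 (d 4) (d 3))))) (s0 (s0 (d 3) (d 3)) (d 3)))) (by decide +kernel)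

theorem twoC05_148 : Cov (esE 5 202 340 160) ⟨0, 137438953472⟩ ⟨762992350199, 890157741899⟩ ⟨377957122047, 429496729599⟩ :=
  Cov.of (open T in (s2 (s0 (s1 (s2 (s0 (s0 (d 6) (d 5)) (d 6)) (s0 (s0 (d 6) (d 4)) (d 5))) (s2 (s0 (s0 (d 5) (d 4)) (d 5)) (s0 (s0 (d 5) (d 4)) (d 4)))) (s0 (d 4) (d 3))) (s0 (s1 (s0 (s0 (d 5) (d 4)) (d 5)) (s0 (s0 (d 5) (d 4)) (d 4))) (s0 (d 4) (d 3))))) (by decide +kernel)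

theorem twoC05_149 : Cov (esE 5 202 340 160) ⟨0, 137438953472⟩ ⟨890157741899, 1017323133599⟩ ⟨377957122047, 429496729599⟩ :=
  Cov.of (open T in (s2 (s0 (s1 (s2 (s0 (s0 (d 5) (d 4)) (d 4)) (s0 (s0 (d 5) (d 4)) (d 4))) (s2 (s0 (s0 (d 5) (d 4)) (d 4)) (s0 (s0 (d 4) (d 4)) (d 4)))) (s0 (d 4) (d 3))) (s0 (s1 (s0 (s0 (d 4) (d 4)) (d 4)) (s0 (s0 (d 4) (d 4)) (d 4))) (d 6)))) (by decide +kernel)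

theorem twoC05_150 : Cov (esE 5 202 340 160) ⟨137438953472, 274877906944⟩ ⟨762992350199, 1017323133599⟩ ⟨377957122047, 429496729599⟩ :=
  Cov.of (open T in (s0 (d 4) (d 3))) (by decide +kernel)

theorem twoC05_151 : Cov (esE 5 202 340 160) ⟨0, 274877906944⟩ ⟨762992350199, 1017323133599⟩ ⟨429496729599, 481036337151⟩ :=
  Cov.of (open T in (s0 (s1 (s2 (s0 (s0 (s0 (d 5) (d 4)) (d 5)) (s0 (d 4) (d 3))) (s0 (s0 (s0 (d 4) (d 4)) (d 4)) (s0 (d 4) (d 3)))) (s2 (s0 (s0 (s0 (d 5) (d 4)) (d 4)) (d 4)) (s0 (s0 (s0 (d 4) (d 4)) (d 4)) (d 4)))) (s0 (d 4) (d 3)))) (by decide +kernel)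

theorem twoC05_152 : Cov (esE 5 202 340 160) ⟨274877906944, 549755813888⟩ ⟨508661566799, 1017323133599⟩ ⟨377957122047, 481036337151⟩ :=
  Cov.of (open T in (s2 (s1 (s0 (s0 (d 3) (d 3)) (d 3)) (s0 (d 3) (v 3))) (s1 (s0 (d 5) (d 3)) (s0 (d 3) (v 3))))) (by decide +kernel)

theorem twoC05_153 : Cov (esE 5 202 340 160) ⟨549755813888, 1099511627776⟩ ⟨0, 1017323133599⟩ ⟨274877906943, 481036337151⟩ :=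
  Cov.of (open T in (v 2)) (by decide +kernel)

theorem twoC05_159 : Cov (esE 5 202 340 160) ⟨0, 274877906944⟩ ⟨0, 254330783399⟩ ⟨481036337151, 584115552255⟩ :=
  Cov.of (open T in (s0 (s1 (s2 (s0 (s1 (s2 (s0 (s1 (s2 (s0 (s1 (s2 (s0 (s1 (v 0) (v 3)) (v 3)) (s0 (s1 (v 0) (v 3)) (v 3))) (v 3)) (v 3)) (s0 (s1 (s2 (s0 (s1 (v 0) (v 3)) (v 3)) (s0 (s1 (v 0) (v 3)) (v 3))) (v 3)) (v 3))) (s2 (s0 (v 3) (v 3)) (v 4))) (s0 (v 3) (v 3))) (s0 (s1 (s2 (s0 (s1 (s2 (s0 (s1 (v 0) (v 3)) (v 3)) (s0 (s1 (v 0) (v 3)) (v 3))) (v 3)) (v 3)) (s0 (s1 (s2 (s0 (s1 (v 0) (v 3)) (v 3)) (s0 (s1 (v 0) (v 3)) (v 3))) (v 3)) (v 3))) (v 4)) (s0 (v 3) (v 3)))) (s2 (s0 (s0 (v 3) (d 3)) (s0 (d 3) (d 3))) (s0 (s0 (v 3) (v 3)) (d 4)))) (s0 (s0 (d 3) (d 3)) (d 3))) (s0 (s1 (s2 (s0 (s1 (s2 (s0 (s1 (s2 (s0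 (s1 (v 0) (v 3)) (v 3)) (s0 (s1 (v 0) (v 3)) (v 3))) (v 3)) (v 3)) (s0 (s1 (s2 (s0 (s1 (v 0) (v 3)) (v 3)) (s0 (s1 (v 0) (v 3)) (v 3))) (v 3)) (v 3))) (v 3)) (s0 (v 3) (v 3))) (s0 (s1 (s2 (s0 (s1 (s2 (s0 (s1 (v 0) (v 3)) (v 3)) (s0 (s1 (v 0) (v 3)) (v 3))) (v 3)) (v 3)) (s0 (s1 (s2 (s0 (s1 (v 0) (v 3)) (v 3)) (s0 (s1 (v 0) (v 3)) (v 3))) (v 3)) (v 3))) (v 3)) (s0 (v 3) (v 3)))) (s2 (s0 (s0 (v 3) (v 3)) (d 3)) (s0 (s0 (v 3) (v 3)) (d 3)))) (s0 (s0 (d 3) (d 3)) (d 3)))) (s2 (s0 (s1 (s0 (s0 (v 6) (d 3)) (s0 (d 3) (d 3))) (s0 (s0 (s0 (d 3) (d 3)) (d 3)) (d 4))) (s0 (d 6) (d 3))) (s0 (s1 (s0 (s0 (d 3) (d 3)) (d 3)) (s0 (s0 (d 3) (d 3)) (d 3))) (s0 (d 3) (d 3))))) (s0 (s0 (s1 (d 3) (d 3)) (s1 (d 3) (d 3))) (s0 (s1 (d 3) (d 3)) (d 3))))) (by decide +kernel)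

theorem twoC05_160 : Cov (esE 5 202 340 160) ⟨0, 274877906944⟩ ⟨0, 254330783399⟩ ⟨584115552255, 687194767359⟩ :=
  Cov.of (open T in (s0 (s1 (s2 (s0 (s1 (s2 (s0 (s1 (s2 (s0 (s1 (s2 (s0 (s1 (v 0) (v 3)) (v 3)) (s0 (s1 (v 0) (v 3)) (v 3))) (v 3)) (v 3)) (s0 (s1 (s2 (s0 (s1 (v 0) (v 3)) (v 3)) (s0 (s1 (v 0) (v 3)) (v 3))) (v 3)) (v 3))) (v 3)) (s0 (v 3) (v 3))) (s0 (s1 (s2 (s0 (s1 (s2 (s0 (s1 (v 0) (v 3)) (v 3)) (s0 (s1 (v 0) (v 3)) (v 3))) (v 3)) (v 3)) (s0 (s1 (s2 (s0 (s1 (v 0) (v 3)) (v 3)) (s0 (s1 (v 0) (v 3)) (v 3))) (v 3)) (v 3))) (v 3)) (d 4))) (s2 (s0 (s0 (v 3) (v 3)) (d 3)) (s0 (s0 (v 3) (v 3)) (d 3)))) (s0 (d 3) (d 3))) (s0 (s1 (s2 (s0 (s1 (s2 (s0 (s1 (s2 (s0 (s1 (v 0) (v 3)) (v 3)) (s0 (s1 (v 0) (v 3)) (v 3))) (v 3)) (v 3)) (s0 (s1 (s2 (s0 (s1 (v 0) (v 3)) (v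 3)) (s0 (s1 (v 0) (v 3)) (v 3))) (v 3)) (v 3))) (v 3)) (v 3)) (s0 (s1 (s2 (s0 (s1 (s2 (s0 (s1 (v 0) (v 3)) (v 3)) (s0 (s1 (v 0) (v 3)) (v 3))) (v 3)) (v 3)) (s0 (s1 (s2 (s0 (s1 (v 0) (v 3)) (v 3)) (s0 (s1 (v 0) (v 3)) (v 3))) (v 3)) (v 3))) (v 3)) (v 3))) (s2 (s0 (s0 (v 3) (v 3)) (d 3)) (s0 (v 4) (d 3)))) (s0 (d 3) (d 3)))) (s2 (s0 (s0 (s0 (s1 (d 3) (d 3)) (d 4)) (s0 (d 3) (d 3))) (s0 (d 3) (d 3))) (s0 (s0 (s0 (s1 (v 3) (d 3)) (d 3)) (d 4)) (s0 (d 3) (d 3))))) (s0 (s0 (d 3) (d 3)) (s0 (d 3) (d 3))))) (by decide +kernel)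

theorem twoC05_162 : Cov (esE 5 202 340 160) ⟨0, 274877906944⟩ ⟨254330783399, 508661566799⟩ ⟨481036337151, 584115552255⟩ :=
  Cov.of (open T in (s0 (s2 (s1 (s0 (s2 (s1 (s0 (s0 (d 4) (d 4)) (d 4)) (s0 (s0 (d 4) (d 4)) (d 4))) (s0 (s0 (s0 (d 4) (d 4)) (d 4)) (s0 (d 4) (d 3)))) (s0 (d 4) (d 3))) (s2 (s0 (s0 (s0 (s0 (d 4) (d 4)) (d 4)) (d 6)) (s0 (d 4) (d 3))) (s0 (s0 (s0 (s0 (d 4) (d 4)) (d 4)) (d 4)) (s0 (d 4) (d 3))))) (s1 (s0 (s0 (s0 (s0 (d 4) (d 4)) (d 4)) (d 6)) (s0 (d 4) (d 3))) (s0 (s0 (s0 (s0 (d 4) (d 4)) (d 4)) (d 4)) (s0 (d 4) (d 3))))) (s0 (s0 (d 6) (d 3)) (s0 (d 3) (d 3))))) (by decide +kernel)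

theorem twoC05_163 : Cov (esE 5 202 340 160) ⟨0, 274877906944⟩ ⟨254330783399, 508661566799⟩ ⟨584115552255, 687194767359⟩ :=
  Cov.of (open T in (s0 (s1 (s2 (s0 (s0 (s0 (s0 (d 4) (d 4)) (d 4)) (d 4)) (s0 (d 3) (d 3))) (s0 (s0 (s0 (d 4) (d 3)) (d 4)) (s0 (d 3) (d 3)))) (s2 (s0 (s0 (s0 (d 4) (d 4)) (d 4)) (s0 (d 3) (d 3))) (s0 (s0 (s0 (d 4) (d 4)) (d 4)) (d 4)))) (s0 (s0 (d 3) (d 3)) (d 3)))) (by decide +kernel)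

theorem twoC05_164 : Cov (esE 5 202 340 160) ⟨274877906944, 549755813888⟩ ⟨0, 508661566799⟩ ⟨481036337151, 687194767359⟩ :=
  Cov.of (open T in (s2 (s1 (s0 (s0 (s0 (d 3) (d 3)) (s0 (d 3) (d 3))) (s0 (d 3) (d 3))) (s0 (s0 (d 3) (d 3)) (d 3))) (s0 (s0 (s1 (d 3) (d 3)) (s1 (d 3) (d 3))) (s0 (d 3) (d 3))))) (by decide +kernel)

theorem twoC05_168 : Cov (esE 5 202 340 160) ⟨0, 274877906944⟩ ⟨508661566799, 762992350199⟩ ⟨481036337151, 584115552255⟩ :=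
  Cov.of (open T in (s2 (s0 (s1 (s2 (s0 (s0 (s0 (s0 (d 4) (d 4)) (d 4)) (d 6)) (s0 (d 4) (d 3))) (s0 (s0 (s0 (d 4) (d 4)) (d 4)) (s0 (d 4) (d 3)))) (s2 (s0 (s0 (s0 (d 4) (d 4)) (d 4)) (s0 (d 4) (d 3))) (s0 (s0 (s0 (d 4) (d 4)) (d 4)) (s0 (d 4) (d 3))))) (s0 (s0 (d 3) (d 3)) (d 3))) (s0 (s1 (s2 (s0 (s0 (s0 (d 4) (d 4)) (d 4)) (s0 (d 3) (d 3))) (s0 (s0 (s0 (d 4) (d 4)) (d 4)) (s0 (d 3) (d 3)))) (s2 (s0 (s0 (s0 (d 4) (d 4)) (d 4)) (d 6)) (s0 (s0 (s0 (d 4) (d 4)) (d 4)) (d 4)))) (s0 (d 4) (d 3))))) (by decide +kernel)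

end Ent
end Pool.Agent.Lib.MP_6947cd_al
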