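import Pool.Agent.Lib.MP_6947cd_al.T.TwoNum

/-!
Problem MP_6947cd_al (Chollet).  The numerical condition of the two-entry loss, level 5 / 10.
-/

set_option autoImplicit false

namespace Pool.Agent.Lib.MP_6947cd_al
namespace Ent
open IA

theorem twoC05_169 : Cov (esE 5 202 340 160) ⟨0, 274877906944⟩ ⟨762992350199, 1017323133599⟩ ⟨481036337151, 584115552255⟩ :=
  Cov.of (open T in (s2 (s0 (s1 (s2 (s0 (s0 (s0 (d 4) (d 4)) (d 4)) (d 5)) (s0 (s0 (s0 (d 4) (d 4)) (d 4)) (d 4))) (s2 (s0 (s0 (s0 (d 4) (d 4)) (d 4)) (d 4)) (s0 (s0 (d 6) (d 4)) (d 4)))) (s0 (d 3) (d 3))) (s0 (s1 (s2 (s0 (s0 (s0 (d 4) (d 4)) (d 4)) (d 4)) (s0 (s0 (d 5) (d 4)) (d 4))) (s2 (s0 (s0 (d 5) (d 4)) (d 4)) (s0 (s0 (d 4) (d 4)) (d 4)))) (s0 (d 3) (d 3))))) (by decide +kernel)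

theorem twoC05_170 : Cov (esE 5 202 340 160) ⟨274877906944, 549755813888⟩ ⟨508661566799, 1017323133599⟩ ⟨481036337151, 584115552255⟩ :=
  Cov.of (open T in (s0 (s0 (d 3) (d 3)) (d 3))) (by decide +kernel)

theorem twoC05_171 : Cov (esE 5 202 340 160) ⟨0, 549755813888⟩ ⟨508661566799, 1017323133599⟩ ⟨584115552255, 687194767359⟩ :=
  Cov.of (open T in (s0 (s1 (s2 (s0 (s1 (s0 (s0 (s0 (d 4) (d 4)) (d 4)) (s0 (d 3) (d 3))) (s2 (s0 (s0 (s0 (d 4) (d 4)) (d 4)) (d 4)) (s0 (s0 (d 4) (d 4)) (d 4)))) (s0 (d 3) (d 3))) (s0 (s1 (s0 (s0 (s0 (d 4) (d 4)) (d 4)) (d 4)) (s2 (s0 (s0 (d 4) (d 4)) (d 4)) (s0 (s0 (d 4) (d 3)) (d 3)))) (s0 (d 3) (d 3)))) (s2 (s0 (s1 (s2 (s0 (s0 (d 4) (d 4)) (d 4)) (s0 (s0 (d 4) (d 4)) (d 4))) (s0 (s0 (d 4) (d 4)) (d 4))) (s0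 (d 3) (v 3))) (s0 (s1 (s0 (s0 (d 4) (d 4)) (d 4)) (s0 (s0 (d 4) (d 3)) (d 3))) (s0 (d 3) (v 3))))) (s0 (s0 (d 3) (d 3)) (d 3)))) (by decide +kernel)

theorem twoC05_172 : Cov (esE 5 202 340 160) ⟨549755813888, 1099511627776⟩ ⟨0, 1017323133599⟩ ⟨481036337151, 687194767359⟩ :=
  Cov.of (open T in (s1 (s2 (s0 (s0 (s0 (d 3) (v 2)) (v 2)) (v 2)) (s0 (s0 (s0 (d 3) (d 3)) (d 3)) (v 2))) (s0 (s0 (v 3) (v 3)) (v 2)))) (by decide +kernel)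

theorem twoC05_178 : Cov (esE 5 202 340 160) ⟨0, 549755813888⟩ ⟨1017323133599, 1525984700399⟩ ⟨274877906943, 326417514495⟩ :=
  Cov.of (open T in (d 1)) (by decide +kernel)

theorem twoC05_182 : Cov (esE 5 202 340 160) ⟨0, 274877906944⟩ ⟨1017323133599, 1271653916999⟩ ⟨326417514495, 352187318271⟩ :=
  Cov.of (open T in (s0 (s1 (s2 (d 1) (s0 (s1 (s0 (s2 (d 1) (s1 (s0 (d 5) (d 4)) (s0 (d 4) (d 4)))) (d 4)) (s2 (d 1) (s0 (s1 (d 6) (d 6)) (d 4)))) (d 5))) (s2 (v 1) (s0 (s1 (s2 (d 1) (s0 (d 6) (d 4))) (s2 (v 1) (d 1))) (d 4)))) (s1 (s2 (v 1) (s0 (d 3) (v 3))) (d 1)))) (by decide +kernel)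

theorem twoC05_183 : Cov (esE 5 202 340 160) ⟨0, 274877906944⟩ ⟨1017323133599, 1271653916999⟩ ⟨352187318271, 377957122047⟩ :=
  Cov.of (open T in (s0 (s1 (s0 (s2 (s1 (s0 (s0 (d 5) (d 4)) (d 4)) (s0 (s0 (d 4) (d 4)) (d 4))) (s1 (s0 (s0 (d 4) (d 4)) (d 4)) (s0 (s0 (d 4) (d 4)) (d 4)))) (d 4)) (s2 (s0 (s1 (s2 (s0 (d 6) (d 4)) (s0 (d 5) (d 4))) (s2 (s0 (d 5) (d 4)) (s0 (d 5) (d 4)))) (d 4)) (s0 (s1 (s0 (d 5) (d 4)) (s2 (s0 (d 5) (d 4)) (s0 (d 4) (d 4)))) (d 4)))) (s0 (d 3) (v 3)))) (by decide +kernel)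

theorem twoC05_184 : Cov (esE 5 202 340 160) ⟨0, 274877906944⟩ ⟨1271653916999, 1525984700399⟩ ⟨326417514495, 377957122047⟩ :=
  Cov.of (open T in (s2 (s0 (s1 (s2 (v 1) (d 1)) (d 1)) (d 1)) (s0 (s1 (s2 (s0 (s1 (s2 (s0 (d 4) (d 4)) (s0 (d 4) (d 4))) (s2 (s0 (d 4) (v 4)) (s0 (d 4) (v 4)))) (d 4)) (s0 (s1 (s2 (s0 (d 4) (v 4)) (s0 (d 4) (v 4))) (s0 (d 4) (v 4))) (d 4))) (s2 (s0 (s1 (s2 (s0 (d 4) (v 4)) (s0 (d 4) (v 4))) (s0 (d 4) (d 3))) (d 3)) (s0 (s0 (d 4) (v 4)) (d 3)))) (d 4)))) (by decide +kernel)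

theorem twoC05_185 : Cov (esE 5 202 340 160) ⟨274877906944, 549755813888⟩ ⟨1017323133599, 1525984700399⟩ ⟨326417514495, 377957122047⟩ :=
  Cov.of (open T in (s1 (s2 (s0 (v 3) (v 2)) (s0 (v 3) (v 2))) (s0 (v 3) (v 2)))) (by decide +kernel)

theorem twoC05_186 : Cov (esE 5 202 340 160) ⟨0, 549755813888⟩ ⟨1525984700399, 2034646267199⟩ ⟨274877906943, 377957122047⟩ :=
  Cov.of (open T in (s2 (d 1) (s0 (s1 (s2 (d 1) (s0 (s1 (s2 (s0 (s1 (d 6) (d 5)) (d 3)) (s0 (s0 (d 4) (d 3)) (d 3))) (s2 (s0 (d 5) (v 3)) (s0 (d 5) (v 3)))) (d 3))) (s2 (d 1) (s0 (s1 (s2 (s0 (d 4) (v 3)) (s0 (d 4) (v 3))) (s2 (s0 (v 4) (v 3)) (s0 (v 4) (v 3)))) (v 3)))) (v 3)))) (by decide +kernel)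

theorem twoC05_187 : Cov (esE 5 202 340 160) ⟨549755813888, 1099511627776⟩ ⟨1017323133599, 2034646267199⟩ ⟨274877906943, 377957122047⟩ :=
  Cov.of (open T in (v 2)) (by decide +kernel)

theorem twoC05_193 : Cov (esE 5 202 340 160) ⟨0, 274877906944⟩ ⟨1017323133599, 1271653916999⟩ ⟨377957122047, 429496729599⟩ :=
  Cov.of (open T in (s0 (s2 (s1 (s0 (s2 (s1 (s0 (s0 (d 4) (d 4)) (d 4)) (s0 (d 6) (d 4))) (s1 (s0 (s0 (d 4) (d 4)) (d 4)) (s0 (d 5) (d 4)))) (d 4)) (s0 (s2 (s1 (s0 (d 5) (d 4)) (s0 (d 4) (d 4))) (s0 (d 6) (d 4))) (d 4))) (s1 (s0 (s0 (s0 (d 4) (d 4)) (d 4)) (d 4)) (s0 (s0 (d 5) (d 4)) (d 4)))) (s0 (d 3) (v 3)))) (by decide +kernel)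

theorem twoC05_194 : Cov (esE 5 202 340 160) ⟨0, 274877906944⟩ ⟨1271653916999, 1525984700399⟩ ⟨377957122047, 429496729599⟩ :=
  Cov.of (open T in (s2 (s0 (s1 (s2 (s0 (s0 (d 4) (d 4)) (d 4)) (s0 (s0 (d 4) (d 4)) (d 3))) (s2 (s0 (s0 (d 4) (v 4)) (d 3)) (s0 (s0 (d 4) (v 4)) (d 3)))) (d 4)) (s0 (s1 (s0 (s0 (d 4) (d 4)) (d 3)) (s2 (s0 (s0 (d 4) (v 4)) (d 3)) (s0 (s0 (d 4) (d 3)) (d 3)))) (d 4)))) (by decide +kernel)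

theorem twoC05_195 : Cov (esE 5 202 340 160) ⟨274877906944, 549755813888⟩ ⟨1017323133599, 1525984700399⟩ ⟨377957122047, 429496729599⟩ :=
  Cov.of (open T in (s1 (s0 (v 3) (v 3)) (v 4))) (by decide +kernel)

theorem twoC05_196 : Cov (esE 5 202 340 160) ⟨0, 549755813888⟩ ⟨1017323133599, 1525984700399⟩ ⟨429496729599, 481036337151⟩ :=
  Cov.of (open T in (s0 (s1 (s0 (s1 (s2 (s0 (s0 (s0 (d 4) (d 4)) (d 4)) (d 4)) (s0 (s0 (d 6) (d 4)) (d 4))) (s2 (s0 (s0 (d 5) (d 4)) (d 4)) (s0 (s0 (d 4) (d 4)) (d 4)))) (s0 (d 3) (v 3))) (s0 (s2 (s1 (s0 (s0 (d 4) (d 4)) (d 3)) (s0 (s0 (d 4) (d 3)) (d 3))) (s1 (s0 (s0 (d 4) (v 4)) (d 3)) (s0 (s0 (d 4) (d 3)) (d 3)))) (d 4))) (s0 (d 3) (v 3)))) (by decide +kernel)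

theorem twoC05_197 : Cov (esE 5 202 340 160) ⟨0, 549755813888⟩ ⟨1525984700399, 2034646267199⟩ ⟨377957122047, 481036337151⟩ :=
  Cov.of (open T in (s2 (s0 (s1 (s2 (s0 (s1 (s2 (s0 (s0 (d 4) (d 3)) (d 3)) (s0 (s0 (d 4) (d 3)) (d 3))) (s2 (s0 (d 4) (v 3)) (s0 (d 4) (v 3)))) (d 3)) (s0 (s1 (s2 (s0 (d 6) (d 3)) (s0 (d 6) (d 3))) (s2 (s0 (d 4) (v 3)) (s0 (d 4) (v 3)))) (v 3))) (s2 (s0 (s1 (s2 (s0 (d 4) (v 3)) (s0 (d 4) (v 3))) (s2 (s0 (v 4) (v 3)) (s0 (v 4) (v 3)))) (v 3)) (s0 (s1 (s2 (s0 (d 4) (v 3)) (s0 (d 4) (v 3))) (s0 (v 4) (v 3))) (v 3)))) (v 3)) (s0 (s1 (s2 (s0 (s1 (s2 (s0 (d 5) (v 3)) (s0 (d 5) (v 3))) (s2 (s0 (d 4) (v 3)) (s0 (d 4) (v 3)))) (v 3)) (s0 (s1 (s0 (d 5) (v 3)) (s0 (d 4) (v 3))) (v 3))) (s2 (s0 (s1 (s0 (d 4) (v 3)) (s0 (v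 4) (v 3))) (v 3)) (s0 (s0 (d 4) (v 3)) (v 3)))) (v 3)))) (by decide +kernel)

theorem twoC05_198 : Cov (esE 5 202 340 160) ⟨549755813888, 1099511627776⟩ ⟨1017323133599, 2034646267199⟩ ⟨377957122047, 481036337151⟩ :=
  Cov.of (open T in (v 2)) (by decide +kernel)

theorem twoC05_201 : Cov (esE 5 202 340 160) ⟨0, 549755813888⟩ ⟨1017323133599, 2034646267199⟩ ⟨481036337151, 584115552255⟩ :=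
  Cov.of (open T in (s1 (s0 (s1 (s2 (s0 (s1 (s2 (s0 (s0 (d 5) (d 4)) (d 4)) (s0 (s0 (d 4) (d 4)) (d 4))) (s2 (s0 (s0 (d 4) (d 4)) (d 3)) (s0 (s0 (d 4) (d 4)) (d 3)))) (s0 (d 3) (v 3))) (s0 (s1 (s2 (s0 (s0 (d 4) (d 4)) (d 3)) (s0 (s0 (d 4) (d 4)) (d 3))) (s0 (s0 (d 4) (v 4)) (d 3))) (d 4))) (s2 (s0 (s2 (s1 (s0 (s0 (d 4) (d 3)) (d 3)) (s0 (s0 (d 4) (d 3)) (d 3))) (s1 (s0 (s0 (d 4) (d 3)) (d 3)) (s0 (d 6) (d 3)))) (d 3)) (s0 (s0 (s0 (d 4) (d 4)) (d 3)) (d 3)))) (s0 (d 3) (v 3))) (s2 (s0 (s1 (s0 (s0 (s0 (d 4) (d 3)) (d 3)) (v 3)) (s2 (s0 (s0 (d 4) (v 3)) (v 3)) (s0 (s0 (d 4) (v 3)) (v 3)))) (v 3)) (s0 (s1 (s0 (s0 (d 6) (d 3)) (v 3)) (s0 (s0 (d 4) (v 3)) (v 3))) (v 3))))) (by decide +kernel)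

theorem twoC05_202 : Cov (esE 5 202 340 160) ⟨0, 549755813888⟩ ⟨1017323133599, 2034646267199⟩ ⟨584115552255, 687194767359⟩ :=
  Cov.of (open T in (s1 (s0 (s1 (s2 (s0 (s1 (s0 (s0 (d 4) (d 4)) (d 3)) (s0 (s0 (d 4) (d 3)) (d 3))) (d 4)) (s0 (s0 (s0 (d 4) (d 4)) (d 3)) (d 3))) (s2 (s0 (s0 (s0 (d 4) (d 3)) (d 3)) (d 3)) (s0 (s0 (s0 (d 4) (d 3)) (d 3)) (v 3)))) (s0 (v 3) (v 3))) (s0 (s2 (s1 (s0 (s0 (d 4) (v 3)) (v 3)) (s0 (s0 (v 4) (v 3)) (v 3))) (s1 (s0 (s0 (d 4) (v 3)) (v 3)) (s0 (s0 (v 4) (v 3)) (v 3)))) (v 3)))) (by decide +kernel)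

theorem twoC05_203 : Cov (esE 5 202 340 160) ⟨549755813888, 1099511627776⟩ ⟨1017323133599, 2034646267199⟩ ⟨481036337151, 687194767359⟩ :=
  Cov.of (open T in (s0 (v 3) (v 2))) (by decide +kernel)

theorem twoC05_210 : Cov (esE 5 202 340 160) ⟨0, 274877906944⟩ ⟨0, 254330783399⟩ ⟨687194767359, 893353197567⟩ :=
  Cov.of (open T in (s2 (s0 (s1 (s2 (s0 (s1 (s2 (s0 (s1 (s2 (s0 (s1 (s2 (s0 (s1 (v 0) (v 3)) (v 3)) (s0 (s1 (v 0) (v 3)) (v 3))) (v 3)) (v 3)) (s0 (s1 (s2 (s0 (s1 (v 0) (v 3)) (v 3)) (s0 (s1 (v 0) (v 3)) (v 3))) (v 3)) (v 3))) (v 3)) (v 3)) (s0 (s1 (s2 (s0 (s1 (s2 (s0 (s1 (v 0) (v 3)) (v 3)) (s0 (s1 (v 0) (v 3)) (v 3))) (v 3)) (v 3)) (s0 (s1 (s2 (s0 (s1 (v 0) (v 3)) (v 3)) (s0 (s1 (v 0) (v 3)) (v 3))) (v 3)) (v 3))) (v 3)) (v 3)))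 (s2 (s0 (v 4) (d 3)) (s0 (v 3) (v 3)))) (s0 (d 3) (d 3))) (s0 (s1 (s2 (s0 (s1 (s2 (s0 (s1 (s2 (s0 (s1 (v 0) (v 3)) (v 3)) (s0 (s1 (v 0) (v 3)) (v 3))) (v 3)) (v 3)) (s0 (s1 (s2 (s0 (s1 (v 0) (v 3)) (v 3)) (s0 (s1 (v 0) (v 3)) (v 3))) (v 3)) (v 3))) (v 3)) (v 3)) (s0 (s1 (s2 (s0 (s1 (s2 (s0 (s1 (v 0) (v 3)) (v 3)) (s0 (s1 (v 0) (v 3)) (v 3))) (v 3)) (v 3)) (s0 (s1 (s2 (s0 (s1 (v 0) (v 3)) (v 3)) (s0 (s1 (v 0) (v 3)) (v 3))) (v 3)) (v 3))) (v 3)) (v 3))) (s2 (s0 (v 3) (v 3)) (s0 (v 3) (v 3)))) (s0 (d 3) (d 3)))) (s2 (s0 (s0 (s0 (v 4) (d 3)) (d 3)) (d 4)) (s0 (s0 (s0 (v 4) (d 3)) (d 3)) (d 3)))) (s0 (s0 (d 3) (d 3)) (d 3))) (s0 (s1 (s2 (s0 (s1 (s2 (s0 (s1 (s2 (s0 (s1 (s2 (s0 (s1 (v 0) (v 3)) (v 3)) (s0 (s1 (v 0) (v 3)) (v 3))) (v 3)) (v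 3)) (s0 (s1 (s2 (s0 (s1 (v 0) (v 3)) (v 3)) (s0 (s1 (v 0) (v 3)) (v 3))) (v 3)) (v 3))) (v 3)) (v 3)) (s0 (s1 (s2 (s0 (s1 (s2 (s0 (s1 (v 0) (v 3)) (v 3)) (s0 (s1 (v 0) (v 3)) (v 3))) (v 3)) (v 3)) (s0 (s1 (s2 (s0 (s1 (v 0) (v 3)) (v 3)) (s0 (s1 (v 0) (v 3)) (v 3))) (v 3)) (v 3))) (v 3)) (v 3))) (s2 (s0 (v 3) (v 3)) (s0 (v 3) (v 3)))) (s0 (d 3) (d 3))) (s0 (s1 (s2 (s0 (s1 (s2 (s0 (s1 (s2 (s0 (s1 (v 0) (v 3)) (v 3)) (s0 (s1 (v 0) (v 3)) (v 3))) (v 3)) (v 3)) (s0 (s1 (s2 (s0 (s1 (v 0) (v 3)) (v 3)) (s0 (s1 (v 0) (v 3)) (v 3))) (v 3)) (v 3))) (v 3)) (v 3)) (s0 (s1 (s2 (s0 (s1 (s2 (s0 (s1 (v 0) (v 3)) (v 3)) (s0 (s1 (v 0) (v 3)) (v 3))) (v 3)) (v 3)) (s0 (s1 (s2 (s0 (s1 (v 0) (v 3)) (v 3)) (s0 (s1 (v 0) (v 3)) (v 3))) (v 3)) (v 3))) (v 3))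 (v 3))) (s0 (v 3) (v 3))) (s0 (v 3) (v 3)))) (s2 (s0 (s0 (s0 (v 3) (v 3)) (d 3)) (d 3)) (s0 (s0 (s0 (v 3) (v 3)) (d 3)) (d 3)))) (s0 (d 3) (d 3))))) (by decide +kernel)

theorem twoC05_211 : Cov (esE 5 202 340 160) ⟨0, 274877906944⟩ ⟨254330783399, 508661566799⟩ ⟨687194767359, 893353197567⟩ :=
  Cov.of (open T in (s2 (s0 (s1 (s2 (s0 (s0 (s0 (d 4) (d 3)) (d 3)) (d 4)) (s0 (s0 (s0 (d 3) (d 3)) (d 3)) (d 3))) (s2 (s0 (s0 (s0 (d 4) (d 3)) (d 3)) (d 4)) (s0 (s0 (s0 (d 4) (d 3)) (d 3)) (d 3)))) (s0 (d 3) (d 3))) (s0 (s1 (s0 (s0 (s0 (d 3) (d 3)) (d 3)) (d 3)) (s0 (s0 (d 4) (d 3)) (d 3))) (s0 (d 3) (d 3))))) (by decide +kernel)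

theorem twoC05_212 : Cov (esE 5 202 340 160) ⟨274877906944, 549755813888⟩ ⟨0, 508661566799⟩ ⟨687194767359, 893353197567⟩ :=
  Cov.of (open T in (s0 (s0 (s1 (d 3) (d 3)) (s1 (d 3) (d 3))) (s0 (d 3) (d 3)))) (by decide +kernel)

theorem twoC05_213 : Cov (esE 5 202 340 160) ⟨0, 549755813888⟩ ⟨0, 508661566799⟩ ⟨893353197567, 1099511627776⟩ :=
  Cov.of (open T in (s0 (s1 (s2 (s0 (s1 (s2 (s0 (s1 (s2 (s0 (s1 (s2 (s0 (s1 (s2 (s0 (s1 (v 0) (v 3)) (v 3)) (s0 (s1 (v 0) (v 3)) (v 3))) (v 3)) (v 3)) (s0 (s1 (s2 (s0 (s1 (v 0) (v 3)) (v 3)) (s0 (s1 (v 0) (v 3)) (v 3))) (v 3)) (v 3))) (v 3)) (v 3)) (s0 (s1 (s2 (s0 (s1 (s2 (s0 (s1 (v 0) (v 3)) (v 3)) (s0 (s1 (v 0) (v 3)) (v 3))) (v 3)) (v 3)) (s0 (s1 (s2 (s0 (s1 (v 0) (v 3)) (v 3)) (s0 (s1 (v 0) (v 3))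 (v 3))) (v 3)) (v 3))) (v 3)) (v 3))) (s0 (v 3) (v 3))) (d 3)) (s0 (s1 (s2 (s0 (s1 (s2 (s0 (s1 (s2 (s0 (s1 (v 0) (v 3)) (v 3)) (s0 (s1 (v 0) (v 3)) (v 3))) (v 3)) (v 3)) (s0 (s1 (s2 (s0 (s1 (v 0) (v 3)) (v 3)) (s0 (s1 (v 0) (v 3)) (v 3))) (v 3)) (v 3))) (v 3)) (v 3)) (s0 (s1 (s2 (s0 (s1 (s2 (s0 (s1 (v 0) (v 3)) (v 3)) (s0 (s1 (v 0) (v 3)) (v 3))) (v 3)) (v 3)) (s0 (s1 (s2 (s0 (s1 (v 0) (v 3)) (v 3)) (s0 (s1 (v 0) (v 3)) (v 3))) (v 3)) (v 3))) (v 3)) (v 3))) (s0 (v 3) (v 3))) (d 3))) (s2 (s0 (s0 (v 4) (d 3)) (d 3)) (s0 (s0 (v 4) (v 3)) (d 3)))) (s0 (d 3) (d 3))) (s0 (s1 (s2 (s0 (s1 (s2 (s0 (s1 (s2 (s0 (s1 (s2 (s0 (s1 (v 0) (v 3)) (v 3)) (s0 (s1 (v 0) (v 3)) (v 3))) (v 3)) (v 3)) (s0 (s1 (s2 (s0 (s1 (v 0) (v 3)) (v 3)) (s0 (s1 (v 0) (v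 3)) (v 3))) (v 3)) (v 3))) (v 3)) (v 3)) (s0 (s1 (s2 (s0 (s1 (s0 (s2 (s1 (v 0) (v 3)) (s1 (v 0) (v 3))) (v 3)) (v 3)) (v 3)) (s0 (s1 (s0 (s2 (s1 (v 0) (v 3)) (s1 (v 0) (v 3))) (v 3)) (v 3)) (v 3))) (v 3)) (v 3))) (s0 (v 3) (v 3))) (d 3)) (s0 (s1 (s2 (s0 (s1 (s0 (s2 (s1 (s0 (s2 (s1 (v 0) (v 3)) (s1 (v 0) (v 3))) (v 3)) (v 3)) (s1 (s0 (s2 (s1 (v 0) (v 3)) (s1 (v 0) (v 3))) (v 3)) (v 3))) (v 3)) (v 3)) (v 3)) (s0 (s1 (s0 (s2 (s1 (s0 (s2 (s1 (v 0) (v 3)) (s1 (v 0) (v 3))) (v 3)) (v 3)) (s1 (s0 (s2 (s1 (v 0) (v 3)) (s1 (v 0) (v 3))) (v 3)) (v 3))) (v 3)) (v 3)) (v 3))) (v 4)) (v 3))) (s0 (s0 (v 3) (v 3)) (d 3))) (s0 (d 3) (d 3)))) (s2 (s0 (s0 (s0 (s1 (d 3) (d 3)) (d 3)) (d 3)) (s0 (d 3) (v 3))) (s0 (s0 (s0 (s1 (d 3) (d 3)) (d 3)) (d 3)) (s0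 (d 3) (v 3))))) (s0 (s0 (d 3) (d 3)) (d 3)))) (by decide +kernel)

theorem twoC05_214 : Cov (esE 5 202 340 160) ⟨0, 549755813888⟩ ⟨508661566799, 1017323133599⟩ ⟨687194767359, 1099511627776⟩ :=
  Cov.of (open T in (s2 (s0 (s2 (s1 (s0 (s2 (s1 (s0 (s0 (d 4) (d 3)) (d 4)) (s0 (s0 (d 4) (d 3)) (d 3))) (s1 (s0 (s0 (d 4) (d 3)) (d 3)) (s0 (s0 (d 4) (d 3)) (d 3)))) (s0 (d 3) (d 3))) (s2 (s0 (s0 (s0 (d 4) (d 4)) (d 4)) (d 4)) (s0 (s0 (s0 (d 4) (d 3)) (d 3)) (d 4)))) (s1 (s0 (s0 (s0 (d 4) (d 3)) (d 4)) (s0 (d 3) (v 3))) (s0 (s0 (s0 (d 4) (d 3)) (d 3)) (d 4)))) (s0 (s0 (d 3) (v 3)) (d 3))) (s0 (s1 (s2 (s0 (s0 (s0 (d 4) (d 3)) (d 3)) (d 4)) (s0 (s0 (s0 (d 4) (d 3)) (d 3)) (d 3))) (s2 (s0 (s0 (s0 (d 4) (d 3)) (d 3)) (d 3)) (s0 (s0 (d 5) (d 3)) (v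 3)))) (s0 (d 3) (v 3))))) (by decide +kernel)

theorem twoC05_215 : Cov (esE 5 202 340 160) ⟨549755813888, 1099511627776⟩ ⟨0, 1017323133599⟩ ⟨687194767359, 1099511627776⟩ :=
  Cov.of (open T in (s2 (s1 (s0 (s0 (d 3) (d 3)) (d 3)) (s0 (v 3) (v 3))) (s0 (s0 (s1 (d 3) (v 3)) (d 3)) (s1 (v 3) (v 3))))) (by decide +kernel)

theorem twoC05_216 : Cov (esE 5 202 340 160) ⟨0, 1099511627776⟩ ⟨1017323133599, 2034646267199⟩ ⟨687194767359, 1099511627776⟩ :=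
  Cov.of (open T in (s2 (s0 (s1 (s2 (s0 (s1 (s2 (s0 (s0 (s0 (d 4) (d 3)) (d 3)) (d 3)) (s0 (s0 (s0 (d 4) (d 3)) (d 3)) (d 3))) (s2 (s0 (s0 (d 6) (d 3)) (v 3)) (s0 (s0 (d 4) (v 3)) (v 3)))) (s0 (v 3) (v 3))) (s0 (s1 (s2 (s0 (s0 (s0 (d 4) (d 3)) (d 3)) (v 3)) (s0 (s0 (d 6) (d 3)) (v 3))) (s2 (s0 (s0 (d 4) (v 3)) (v 3)) (s0 (s0 (d 4) (v 3)) (v 3)))) (v 4))) (s2 (s0 (s1 (s2 (s0 (s0 (d 4) (v 3)) (v 3)) (s0 (s0 (v 4) (v 3)) (v 3))) (s2 (s0 (s0 (v 4) (v 3)) (v 3)) (s0 (s0 (d 3) (v 3)) (v 3)))) (v 3)) (s0 (s1 (s2 (s0 (s0 (v 4) (v 3)) (v 3)) (s0 (s0 (v 4) (v 3)) (v 3))) (s2 (s0 (v 4) (v 3)) (s0 (v 4) (v 3)))) (v 3)))) (s0 (v 3) (v 3))) (s0 (s1 (s2 (s0 (s1 (s0 (s0 (d 5) (d 3)) (v 3)) (s2 (s0 (s0 (d 4) (v 3)) (v 3)) (s0 (s0 (v 4) (v 3)) (v 3))))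 (v 3)) (s0 (s1 (s0 (s0 (d 4) (v 3)) (v 3)) (s2 (s0 (s0 (v 4) (v 3)) (v 3)) (s0 (s0 (d 3) (v 3)) (v 3)))) (v 3))) (s2 (s0 (s1 (s2 (s0 (s0 (d 3) (v 3)) (v 3)) (s0 (s0 (d 3) (v 3)) (v 3))) (s0 (v 4) (v 3))) (v 3)) (s0 (s1 (s0 (v 5) (v 3)) (s0 (v 4) (v 3))) (v 3)))) (v 3)))) (by decide +kernel)

theorem twoC05_217 : Cov (esE 5 202 340 160) ⟨0, 1099511627776⟩ ⟨2034646267199, 4069292534399⟩ ⟨274877906943, 1099511627776⟩ :=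
  Cov.of (open T in (s2 (s2 (s2 (s1 (s2 (d 1) (s0 (s1 (s0 (s2 (d 1) (s1 (s0 (s1 (s2 (s0 (v 4) (v 3)) (s0 (v 4) (v 3))) (v 6)) (v 3)) (s0 (v 5) (v 3)))) (v 3)) (s2 (d 1) (s0 (s1 (s0 (v 4) (v 3)) (v 4)) (v 3)))) (v 2))) (s2 (v 1) (s0 (s1 (s2 (d 1) (s0 (v 3) (v 3))) (v 3)) (v 2)))) (s1 (s0 (s1 (s2 (s0 (s1 (s2 (s0 (s1 (s0 (v 4) (v 3)) (v 5)) (v 3)) (s0 (s0 (v 4) (v 3)) (v 3))) (s2 (s0 (v 4) (v 3)) (s0 (v 4) (v 3)))) (v 3)) (s0 (s1 (s2 (s0 (s0 (v 4) (v 3)) (v 3)) (s0 (s0 (v 4) (v 3)) (v 3))) (s2 (s0 (v 4) (v 3)) (s0 (v 4) (v 3)))) (v 3))) (s2 (s0 (s2 (s1 (s0 (v 4) (v 3)) (v 4)) (s1 (s0 (v 3) (v 3)) (v 4))) (v 3)) (s0 (s1 (s2 (s0 (v 3) (v 3)) (s0 (v 3) (v 3))) (v 4)) (v 3)))) (v 2)) (s2 (s0 (s1 (s2 (s0 (v 3) (v 3)) (s0 (v 3) (v 3))) (v 3))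 (v 2)) (s0 (s1 (s0 (v 3) (v 3)) (v 3)) (v 2))))) (s1 (s2 (s0 (s1 (s2 (s0 (s1 (s2 (s0 (s0 (v 4) (v 3)) (v 3)) (s0 (s0 (v 4) (v 3)) (v 3))) (s2 (s0 (v 4) (v 3)) (s0 (v 4) (v 3)))) (v 3)) (s0 (s1 (s2 (s0 (s0 (v 4) (v 3)) (v 3)) (s0 (v 5) (v 3))) (s2 (s0 (v 4) (v 3)) (s0 (v 4) (v 3)))) (v 3))) (s2 (s0 (s1 (s2 (v 6) (v 5)) (v 3)) (v 3)) (s0 (s1 (v 4) (v 3)) (v 3)))) (v 3)) (s0 (s1 (s2 (s0 (s1 (s2 (s0 (v 4) (v 3)) (s0 (v 4) (v 3))) (s2 (s0 (v 4) (v 3)) (s0 (v 3) (v 3)))) (v 3)) (s0 (s1 (s0 (v 4) (v 3)) (s0 (v 3) (v 3))) (v 3))) (s2 (s0 (s1 (v 4) (v 3)) (v 3)) (s0 (v 5) (v 3)))) (v 3))) (s2 (s0 (s2 (s1 (s0 (v 3) (v 3)) (v 3)) (s1 (s0 (v 3) (v 3)) (v 3))) (v 3)) (s0 (s1 (s2 (s0 (v 3) (v 3)) (s0 (v 3) (v 3))) (v 3)) (v 3))))) (s2 (s1 (s0 (s2 (s1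 (s0 (s2 (s1 (s0 (v 4) (v 3)) (s0 (v 3) (v 3))) (s1 (s0 (v 4) (v 3)) (v 5))) (v 3)) (s2 (s0 (v 4) (v 3)) (s0 (v 4) (v 3)))) (s1 (s0 (s1 (s0 (v 4) (v 3)) (v 4)) (v 3)) (s0 (v 4) (v 3)))) (v 3)) (s2 (s0 (s1 (v 6) (v 3)) (v 3)) (s0 (s1 (v 4) (v 3)) (v 3)))) (s1 (s0 (s1 (s2 (s0 (s0 (v 4) (v 3)) (v 3)) (s0 (s0 (v 3) (v 3)) (v 3))) (s2 (s0 (v 3) (v 3)) (s0 (v 3) (v 3)))) (v 3)) (s0 (v 6) (v 3)))))) (by decide +kernel)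

end Ent
end Pool.Agent.Lib.MP_6947cd_al
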