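import Pool.Agent.Lib.MP_6947cd_al.T.TwoNum

/-!
Problem MP_6947cd_al (Chollet).  The numerical condition of the two-entry loss, level 6 / 10.
-/

set_option autoImplicit false

namespace Pool.Agent.Lib.MP_6947cd_al
namespace Ent
open IA

theorem twoC06_13 : Cov (esE 6 194 330 183) ⟨0, 137438953472⟩ ⟨0, 130395207106⟩ ⟨395824185998, 439804651109⟩ :=
  Cov.of (open T in (s0 (s1 (s2 (s0 (s1 (s2 (s0 (s1 (s2 (s0 (s1 (v 0) (v 3)) (v 3)) (s0 (s1 (v 0) (v 3)) (v 3))) (v 3)) (v 3)) (s0 (s1 (s2 (s0 (s1 (v 0) (v 3)) (v 3)) (s0 (s1 (v 0) (v 3)) (v 3))) (v 3)) (v 3))) (s2 (s0 (v 3) (v 3)) (s0 (v 3) (v 3)))) (s1 (s2 (s0 (v 3) (d 3)) (s0 (v 3) (d 3))) (s2 (d 1) (s0 (d 3) (d 3))))) (s0 (s1 (s2 (s0 (s1 (s2 (s0 (s1 (v 0) (v 3)) (v 3)) (s0 (s1 (v 0) (v 3))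 (v 3))) (v 3)) (v 3)) (s0 (s1 (s2 (s0 (s1 (v 0) (v 3)) (v 3)) (s0 (s1 (v 0) (v 3)) (v 3))) (v 3)) (v 3))) (s2 (s0 (v 3) (v 3)) (s0 (v 3) (v 3)))) (s1 (s0 (v 3) (d 3)) (s0 (d 3) (d 3))))) (s2 (s0 (s1 (s2 (d 1) (s0 (v 3) (d 3))) (s2 (d 1) (s0 (v 4) (d 3)))) (s1 (s2 (d 1) (s0 (d 3) (d 3))) (s2 (v 1) (s0 (d 3) (d 1))))) (s0 (s1 (s2 (s0 (v 3) (d 3)) (s0 (v 3) (d 3))) (s2 (s0 (d 3) (d 3)) (s0 (d 3) (d 3)))) (s1 (s0 (d 3) (d 3)) (s0 (d 3) (d 3)))))) (s1 (s2 (s0 (s1 (s0 (d 3) (d 3)) (s2 (d 1) (s0 (d 3) (d 3)))) (s1 (s2 (d 1) (s0 (d 3) (d 3))) (s2 (v 1) (s0 (d 3) (d 1))))) (s0 (s0 (d 3) (d 3)) (s0 (d 3) (d 3)))) (s2 (s0 (s1 (s2 (v 1) (s0 (d 3) (d 1))) (d 1)) (d 1)) (s0 (s0 (d 4) (d 4)) (s0 (d 4) (d 3))))))) (by decide +kernel)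

theorem twoC06_14 : Cov (esE 6 194 330 183) ⟨0, 137438953472⟩ ⟨0, 130395207106⟩ ⟨439804651109, 483785116220⟩ :=
  Cov.of (open T in (s0 (s1 (s2 (s0 (s1 (s2 (s0 (s1 (s2 (s0 (s1 (v 0) (v 3)) (v 3)) (s0 (s1 (v 0) (v 3)) (v 3))) (v 3)) (v 3)) (s0 (s1 (s2 (s0 (s1 (v 0) (v 3)) (v 3)) (s0 (s1 (v 0) (v 3)) (v 3))) (v 3)) (v 3))) (s2 (s0 (v 3) (v 3)) (s0 (v 3) (v 3)))) (s1 (s0 (v 3) (d 3)) (s0 (d 3) (d 3)))) (s0 (s1 (s2 (s0 (s1 (s2 (s0 (s1 (v 0) (v 3)) (v 3)) (s0 (s1 (v 0) (v 3)) (v 3))) (v 3)) (v 3)) (s0 (s1 (s2 (s0 (s1 (v 0) (v 3)) (v 3)) (s0 (s1 (v 0) (v 3)) (v 3))) (v 3)) (v 3))) (s2 (s0 (v 3) (v 3)) (s0 (v 3) (v 3)))) (s0 (d 3) (d 3)))) (s2 (s0 (s1 (s2 (s0 (v 3) (d 3)) (s0 (v 3) (d 3))) (s2 (s0 (d 3) (d 3)) (s0 (d 3) (d 3)))) (s0 (d 4) (d 3)))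 (s0 (s1 (s2 (s0 (v 3) (d 3)) (s0 (v 3) (v 3))) (s2 (s0 (d 3) (d 3)) (s0 (d 3) (d 3)))) (s0 (d 3) (d 3))))) (s1 (s2 (s0 (s0 (d 3) (d 3)) (s0 (d 3) (d 3))) (s0 (s0 (d 3) (d 3)) (s0 (d 3) (d 3)))) (s2 (s0 (s0 (d 3) (d 3)) (s0 (d 3) (d 3))) (s0 (s0 (d 3) (d 3)) (s0 (d 3) (d 3))))))) (by decide +kernel)

theorem twoC06_17 : Cov (esE 6 194 330 183) ⟨0, 68719476736⟩ ⟨130395207106, 260790414213⟩ ⟨395824185998, 439804651109⟩ :=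
  Cov.of (open T in (s1 (s2 (s0 (s1 (s2 (v 1) (s0 (s1 (d 3) (d 1)) (d 1))) (d 1)) (d 1)) (s0 (s1 (s2 (s0 (s0 (d 3) (d 3)) (d 3)) (s0 (s0 (d 3) (d 3)) (d 3))) (s2 (s0 (s1 (d 3) (s0 (d 3) (d 3))) (d 4)) (s0 (s0 (d 3) (d 3)) (d 4)))) (s1 (s2 (s0 (d 3) (d 3)) (s0 (d 3) (d 3))) (s2 (s0 (d 4) (d 4)) (s0 (d 4) (d 4)))))) (s2 (d 1) (s0 (s1 (s2 (s0 (s1 (s2 (d 1) (s0 (d 3) (d 3))) (s2 (d 1) (s0 (d 3) (v 4)))) (d 4)) (s0 (s1 (s0 (d 3) (d 3)) (s0 (d 3) (d 3))) (d 4))) (s2 (s0 (s1 (s2 (v 1) (s0 (v 4) (d 1))) (d 1)) (d 1)) (s0 (s1 (s0 (v 4) (d 4)) (s2 (s0 (v 4) (d 4)) (s0 (v 4) (d 4)))) (d 4)))) (s1 (s2 (s0 (d 4) (d 1)) (s0 (d 4) (d 4))) (s2 (d 1) (s0 (d 4) (d 4)))))))) (by decide +kernel)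

theorem twoC06_18 : Cov (esE 6 194 330 183) ⟨68719476736, 137438953472⟩ ⟨130395207106, 260790414213⟩ ⟨395824185998, 439804651109⟩ :=
  Cov.of (open T in (s1 (s2 (d 1) (s0 (s1 (s0 (d 3) (d 3)) (s0 (d 4) (d 4))) (s0 (d 4) (d 4)))) (s2 (d 1) (s0 (s1 (s2 (d 1) (s0 (d 4) (d 4))) (s2 (d 1) (s0 (d 4) (d 4)))) (s1 (s0 (d 4) (d 4)) (s2 (v 1) (s0 (d 4) (d 3)))))))) (by decide +kernel)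

theorem twoC06_20 : Cov (esE 6 194 330 183) ⟨0, 68719476736⟩ ⟨130395207106, 260790414213⟩ ⟨439804651109, 483785116220⟩ :=
  Cov.of (open T in (s1 (s2 (s0 (s1 (s2 (s0 (d 3) (d 3)) (s0 (d 3) (d 3))) (s2 (s0 (s0 (d 3) (d 3)) (d 4)) (s0 (s0 (d 3) (d 3)) (d 3)))) (s0 (d 4) (d 4))) (s0 (s1 (s2 (s0 (d 3) (d 3)) (s0 (d 3) (d 3))) (s0 (s0 (d 3) (d 3)) (d 3))) (s0 (d 4) (d 4)))) (s2 (s0 (s1 (s2 (s0 (s0 (v 4) (d 4)) (d 4)) (s0 (s0 (d 3) (d 3)) (d 4))) (s2 (s0 (s0 (d 4) (d 4)) (d 4)) (s0 (s0 (v 4) (d 4)) (d 4)))) (s0 (s0 (d 4) (d 4)) (d 6))) (s0 (s1 (s0 (s0 (d 3) (d 3)) (d 4)) (s2 (s0 (s0 (v 4) (d 4)) (d 4)) (s0 (s0 (v 4) (d 4)) (d 4)))) (s0 (d 4) (d 4)))))) (by decide +kernel)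

theorem twoC06_21 : Cov (esE 6 194 330 183) ⟨68719476736, 137438953472⟩ ⟨130395207106, 260790414213⟩ ⟨439804651109, 483785116220⟩ :=
  Cov.of (open T in (s1 (s2 (s0 (s0 (d 4) (d 4)) (s0 (d 3) (d 3))) (s0 (s0 (d 3) (d 3)) (d 6))) (s2 (s0 (s0 (d 4) (d 4)) (s0 (d 4) (d 3))) (s0 (s0 (d 4) (d 4)) (d 4))))) (by decide +kernel)

theorem twoC06_22 : Cov (esE 6 194 330 183) ⟨137438953472, 274877906944⟩ ⟨0, 260790414213⟩ ⟨395824185998, 483785116220⟩ :=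
  Cov.of (open T in (s1 (s2 (s0 (s1 (s2 (s0 (s1 (s2 (v 1) (s0 (d 1) (d 1))) (d 1)) (d 1)) (s0 (s0 (d 3) (d 3)) (s0 (d 3) (d 3)))) (s2 (d 1) (s0 (s0 (d 3) (d 3)) (s0 (d 3) (d 3))))) (s1 (s2 (d 1) (s0 (s0 (d 3) (d 3)) (s0 (d 3) (d 3)))) (s2 (d 1) (s0 (s0 (d 3) (d 3)) (d 4))))) (s0 (s0 (s0 (s1 (d 3) (d 3)) (s1 (d 3) (d 3))) (s0 (d 4) (d 3))) (s0 (s0 (s1 (d 3) (d 3)) (s1 (d 3) (d 3))) (s0 (d 3) (d 3))))) (s2 (s0 (s1 (s2 (d 1) (s0 (s0 (d 3) (d 3)) (s0 (d 3) (d 3)))) (s2 (v 1) (s0 (s1 (s0 (d 3) (d 3)) (d 6)) (d 4)))) (s2 (v 1) (s1 (s0 (d 3) (d 3)) (d 1)))) (s0 (s0 (s0 (d 4) (d 4)) (s0 (d 3) (d 3))) (s0 (s0 (d 3) (d 3)) (d 3)))))) (by decide +kernel)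

theorem twoC06_25 : Cov (esE 6 194 330 183) ⟨0, 137438953472⟩ ⟨0, 130395207106⟩ ⟨483785116220, 571746046442⟩ :=
  Cov.of (open T in (s2 (s0 (s1 (s2 (s0 (s1 (s2 (s0 (s1 (s2 (s0 (s1 (v 0) (v 3)) (v 3)) (s0 (s1 (v 0) (v 3)) (v 3))) (v 3)) (v 3)) (s0 (s1 (s2 (s0 (s1 (v 0) (v 3)) (v 3)) (s0 (s1 (v 0) (v 3)) (v 3))) (v 3)) (v 3))) (s2 (s0 (v 3) (v 3)) (s0 (v 3) (v 3)))) (s0 (d 3) (d 3))) (s0 (s1 (s2 (s0 (s1 (s2 (s0 (s1 (v 0) (v 3)) (v 3)) (s0 (s1 (v 0) (v 3)) (v 3))) (v 3)) (v 3)) (s0 (s1 (s2 (s0 (s1 (v 0) (v 3)) (v 3)) (s0 (s1 (v 0) (v 3)) (v 3))) (v 3)) (v 3))) (s2 (s0 (v 3) (v 3)) (s0 (v 3) (v 3)))) (s0 (d 3) (d 3)))) (s2 (s0 (s1 (s2 (s0 (v 3) (v 3)) (s0 (v 3) (v 3))) (s2 (s0 (d 3) (d 3)) (s0 (v 3) (d 3)))) (s0 (d 3) (d 3))) (s0 (s1 (s2 (s0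 (v 3) (v 3)) (s0 (v 3) (v 3))) (s0 (v 3) (d 3))) (s0 (d 3) (d 3))))) (s1 (s0 (s0 (d 3) (d 3)) (s0 (d 3) (d 3))) (s0 (s0 (d 3) (d 3)) (d 4)))) (s0 (s1 (s2 (s0 (s1 (s2 (s0 (s1 (s2 (s0 (s1 (v 0) (v 3)) (v 3)) (s0 (s1 (v 0) (v 3)) (v 3))) (v 3)) (v 3)) (s0 (s1 (s2 (s0 (s1 (v 0) (v 3)) (v 3)) (s0 (s1 (v 0) (v 3)) (v 3))) (v 3)) (v 3))) (s2 (s0 (v 3) (v 3)) (s0 (v 3) (v 3)))) (s0 (v 3) (d 3))) (s0 (s1 (s2 (s0 (s1 (s2 (s0 (s1 (v 0) (v 3)) (v 3)) (s0 (s1 (v 0) (v 3)) (v 3))) (v 3)) (v 3)) (s0 (s1 (s2 (s0 (s1 (v 0) (v 3)) (v 3)) (s0 (s1 (v 0) (v 3)) (v 3))) (v 3)) (v 3))) (s2 (s0 (v 3) (v 3)) (s0 (v 3) (v 3)))) (s0 (v 3) (d 3)))) (s2 (s0 (s1 (s2 (s0 (v 3) (v 3)) (s0 (v 3) (v 3))) (s0 (v 3) (d 3))) (s0 (d 3) (d 3))) (s0 (s1 (s2 (s0 (v 3) (v 3)) (s0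 (v 3) (v 3))) (s0 (v 3) (v 3))) (s0 (d 3) (d 3))))) (s0 (s0 (s1 (d 3) (d 3)) (d 3)) (s0 (d 3) (d 3)))))) (by decide +kernel)

theorem twoC06_26 : Cov (esE 6 194 330 183) ⟨0, 137438953472⟩ ⟨130395207106, 260790414213⟩ ⟨483785116220, 571746046442⟩ :=
  Cov.of (open T in (s2 (s0 (s1 (s2 (s0 (s1 (s0 (d 3) (d 3)) (s0 (d 3) (d 3))) (s0 (d 4) (d 3))) (s0 (s1 (s0 (d 3) (d 3)) (s0 (d 3) (d 3))) (s0 (d 3) (d 3)))) (s2 (s0 (s1 (s0 (s0 (d 3) (d 3)) (d 4)) (s0 (s0 (v 4) (d 4)) (d 4))) (s0 (d 4) (d 4))) (s0 (s0 (s0 (v 4) (d 4)) (d 4)) (s0 (d 4) (d 4))))) (s0 (s0 (s1 (d 3) (d 4)) (d 4)) (s0 (d 4) (d 3)))) (s0 (s1 (s2 (s0 (s0 (s0 (d 3) (d 3)) (d 3)) (s0 (d 3) (d 3))) (s0 (s0 (s0 (d 3) (d 3)) (d 3)) (s0 (d 3) (d 3)))) (s2 (s0 (s0 (s0 (v 4) (d 4)) (d 4))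 (s0 (d 4) (d 3))) (s0 (s0 (s0 (d 3) (d 3)) (d 4)) (s0 (d 3) (d 3))))) (s0 (s0 (d 4) (d 3)) (d 4))))) (by decide +kernel)

theorem twoC06_27 : Cov (esE 6 194 330 183) ⟨137438953472, 274877906944⟩ ⟨0, 260790414213⟩ ⟨483785116220, 571746046442⟩ :=
  Cov.of (open T in (s1 (s2 (s0 (s0 (s0 (d 3) (d 3)) (s0 (d 3) (d 3))) (s0 (d 3) (d 3))) (s0 (s0 (d 3) (d 3)) (s0 (d 3) (d 3)))) (s2 (s0 (s0 (s0 (d 3) (d 3)) (d 3)) (s0 (d 3) (d 3))) (s0 (s0 (d 3) (d 3)) (s0 (d 3) (d 3)))))) (by decide +kernel)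

theorem twoC06_31 : Cov (esE 6 194 330 183) ⟨0, 137438953472⟩ ⟨260790414213, 521580828426⟩ ⟨395824185998, 439804651109⟩ :=
  Cov.of (open T in (s1 (s0 (s1 (s2 (d 1) (s0 (s1 (s2 (d 1) (s0 (s1 (s2 (s0 (v 4) (d 4)) (s0 (v 4) (d 4))) (s2 (s0 (d 4) (d 4)) (s0 (d 4) (d 4)))) (d 6))) (s2 (d 1) (s0 (s1 (s2 (d 1) (s0 (d 4) (d 4))) (s2 (d 1) (s0 (d 4) (d 4)))) (s0 (d 4) (d 4))))) (s1 (s2 (d 1) (s0 (d 5) (d 4))) (s2 (v 1) (s0 (d 6) (d 5)))))) (s2 (v 1) (s0 (s1 (s2 (v 1) (s0 (s1 (s2 (d 1) (s0 (d 4) (d 4))) (s2 (v 1) (s0 (d 4) (d 4)))) (s1 (s0 (d 4) (d 4)) (s2 (v 1) (s0 (d 4) (d 1)))))) (s2 (v 1) (s0 (s1 (s2 (v 1) (s0 (d 4) (d 1))) (d 1)) (d 1)))) (s2 (v 1) (s1 (s0 (s1 (d 6) (d 1)) (d 1)) (d 1)))))) (s2 (d 1) (s1 (s0 (s1 (s2 (v 1) (s0 (d 4) (d 4)))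 (s2 (v 1) (s0 (d 4) (d 1)))) (s2 (v 1) (s1 (s0 (d 4) (d 1)) (d 1)))) (d 1)))) (s0 (s2 (v 1) (s1 (d 1) (d 1))) (d 1)))) (by decide +kernel)

theorem twoC06_35 : Cov (esE 6 194 330 183) ⟨0, 68719476736⟩ ⟨260790414213, 325988017766⟩ ⟨439804651109, 483785116220⟩ :=
  Cov.of (open T in (s2 (s0 (s1 (s2 (s0 (s0 (d 4) (d 4)) (d 5)) (s0 (s0 (d 4) (d 4)) (d 4))) (s2 (s0 (s1 (s0 (d 4) (d 4)) (s0 (d 4) (d 4))) (s0 (d 4) (d 4))) (s0 (s0 (d 4) (d 4)) (d 6)))) (s0 (s0 (d 4) (d 4)) (s0 (d 4) (d 4)))) (s0 (s1 (s2 (s0 (s0 (d 4) (d 4)) (d 4)) (s0 (s0 (d 4) (d 4)) (d 4))) (s2 (s0 (s0 (d 4) (d 4)) (d 4)) (s0 (s0 (d 4) (d 4)) (d 4)))) (s0 (d 6) (d 4))))) (by decide +kernel)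

theorem twoC06_37 : Cov (esE 6 194 330 183) ⟨0, 68719476736⟩ ⟨325988017766, 391185621319⟩ ⟨439804651109, 461794883664⟩ :=
  Cov.of (open T in (s0 (s1 (s2 (s0 (s1 (s2 (s0 (d 4) (d 4)) (s0 (d 4) (d 4))) (s2 (s0 (d 4) (d 4)) (s0 (d 4) (d 4)))) (s0 (d 4) (d 4))) (s0 (s0 (d 4) (d 4)) (s0 (d 4) (d 4)))) (s2 (s0 (s1 (s2 (s0 (d 4) (d 4)) (s0 (d 4) (d 4))) (s2 (s0 (d 4) (d 4)) (s0 (d 4) (d 4)))) (s0 (d 4) (d 4))) (s0 (s0 (d 4) (d 4)) (s0 (d 4) (d 4))))) (s1 (s0 (d 6) (d 5)) (s0 (s0 (d 4) (d 4)) (d 6))))) (by decide +kernel)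

theorem twoC06_38 : Cov (esE 6 194 330 183) ⟨0, 68719476736⟩ ⟨325988017766, 391185621319⟩ ⟨461794883664, 483785116220⟩ :=
  Cov.of (open T in (s0 (s1 (s2 (s0 (s0 (d 4) (d 4)) (d 6)) (s0 (s0 (d 4) (d 4)) (d 4))) (s2 (s0 (s0 (d 4) (d 4)) (d 6)) (s0 (s0 (d 4) (d 4)) (d 5)))) (s0 (d 6) (d 4)))) (by decide +kernel)

theorem twoC06_39 : Cov (esE 6 194 330 183) ⟨68719476736, 137438953472⟩ ⟨260790414213, 391185621319⟩ ⟨439804651109, 483785116220⟩ :=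
  Cov.of (open T in (s1 (s2 (s0 (s0 (d 4) (d 4)) (s0 (d 4) (d 4))) (s0 (s0 (d 4) (d 4)) (d 5))) (s2 (s0 (s0 (d 5) (d 4)) (s0 (d 4) (d 4))) (s0 (s0 (d 4) (d 4)) (d 4))))) (by decide +kernel)

theorem twoC06_44 : Cov (esE 6 194 330 183) ⟨0, 34359738368⟩ ⟨391185621319, 456383224872⟩ ⟨439804651109, 461794883664⟩ :=
  Cov.of (open T in (s2 (s1 (s0 (s1 (s2 (s0 (d 4) (d 4)) (s0 (d 4) (d 4))) (s2 (s0 (d 4) (d 4)) (s0 (d 4) (d 4)))) (s0 (d 5) (d 5))) (s0 (s2 (s1 (s0 (d 5) (d 5)) (s0 (d 6) (d 1))) (s1 (s0 (d 4) (d 4)) (s0 (d 5) (d 5)))) (s2 (s1 (s0 (d 5) (d 1)) (d 1)) (s0 (d 5) (d 5))))) (s1 (s0 (s1 (s0 (d 4) (d 4)) (s0 (d 4) (d 4))) (s0 (d 4) (d 4))) (s0 (s2 (s1 (s0 (d 4) (d 4)) (s0 (d 4) (d 4))) (s1 (s0 (d 4) (d 4)) (s0 (d 4) (d 4)))) (s0 (d 5)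 (d 4)))))) (by decide +kernel)

theorem twoC06_45 : Cov (esE 6 194 330 183) ⟨34359738368, 68719476736⟩ ⟨391185621319, 456383224872⟩ ⟨439804651109, 461794883664⟩ :=
  Cov.of (open T in (s2 (s1 (s0 (s0 (d 4) (d 4)) (d 6)) (s0 (s0 (d 5) (d 5)) (d 6))) (s1 (s0 (d 6) (d 4)) (s0 (d 6) (d 4))))) (by decide +kernel)

theorem twoC06_48 : Cov (esE 6 194 330 183) ⟨0, 34359738368⟩ ⟨456383224872, 521580828426⟩ ⟨439804651109, 450799767386⟩ :=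
  Cov.of (open T in (s1 (s0 (s2 (d 1) (s1 (s0 (d 6) (d 5)) (s0 (d 6) (d 5)))) (s2 (d 1) (s1 (s0 (d 5) (d 5)) (s0 (d 5) (d 5))))) (s0 (s2 (d 1) (s1 (s0 (d 6) (d 6)) (s0 (d 6) (d 6)))) (s2 (d 1) (s1 (s0 (d 6) (d 5)) (s0 (d 6) (d 5))))))) (by decide +kernel)

theorem twoC06_49 : Cov (esE 6 194 330 183) ⟨0, 34359738368⟩ ⟨456383224872, 521580828426⟩ ⟨450799767386, 461794883664⟩ :=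
  Cov.of (open T in (s1 (s0 (s2 (s1 (s0 (d 5) (d 5)) (s0 (d 6) (d 5))) (s1 (s0 (d 4) (d 4)) (s0 (d 5) (d 5)))) (s0 (d 5) (d 5))) (s0 (s2 (s1 (s0 (d 6) (d 5)) (s0 (d 6) (d 6))) (s1 (s0 (d 5) (d 5)) (s0 (d 6) (d 5)))) (s0 (d 6) (d 5))))) (by decide +kernel)

theorem twoC06_50 : Cov (esE 6 194 330 183) ⟨34359738368, 68719476736⟩ ⟨456383224872, 521580828426⟩ ⟨439804651109, 461794883664⟩ :=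
  Cov.of (open T in (s2 (s1 (s0 (s0 (d 6) (d 5)) (d 6)) (s0 (s2 (d 1) (s0 (d 5) (d 4))) (d 6))) (s1 (s0 (d 6) (d 5)) (s0 (d 6) (d 5))))) (by decide +kernel)

end Ent
end Pool.Agent.Lib.MP_6947cd_al
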