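import Pool.Agent.Lib.MP_6947cd_al.T.TwoNum

/-!
Problem MP_6947cd_al (Chollet).  The numerical condition of the two-entry loss, level 6 / 10.
-/

set_option autoImplicit false

namespace Pool.Agent.Lib.MP_6947cd_al
namespace Ent
open IA

theorem twoC06_51 : Cov (esE 6 194 330 183) ⟨0, 68719476736⟩ ⟨391185621319, 521580828426⟩ ⟨461794883664, 483785116220⟩ :=
  Cov.of (open T in (s1 (s0 (s1 (s2 (s0 (s0 (d 4) (d 4)) (s0 (d 4) (d 4))) (s0 (s0 (d 4) (d 4)) (d 6))) (s2 (s0 (s0 (d 4) (d 4)) (s0 (d 4) (d 4))) (s0 (s0 (d 4) (d 4)) (d 6)))) (s0 (s0 (d 4) (d 4)) (d 5))) (s0 (s2 (s1 (s0 (s0 (d 6) (d 5)) (s0 (d 4) (d 4))) (s0 (s0 (d 6) (d 5)) (s0 (d 5) (d 5)))) (s1 (s0 (s0 (d 4) (d 4)) (d 6)) (s0 (s0 (d 5) (d 5)) (d 6)))) (s0 (s0 (d 5) (d 4)) (d 5))))) (by decide +kernel)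

theorem twoC06_52 : Cov (esE 6 194 330 183) ⟨68719476736, 137438953472⟩ ⟨391185621319, 521580828426⟩ ⟨439804651109, 483785116220⟩ :=
  Cov.of (open T in (s2 (s1 (s0 (s0 (d 5) (d 4)) (d 6)) (s0 (s0 (d 5) (d 4)) (d 4))) (s1 (s0 (s0 (d 4) (d 4)) (d 4)) (s0 (s0 (d 4) (d 4)) (d 4))))) (by decide +kernel)

theorem twoC06_53 : Cov (esE 6 194 330 183) ⟨137438953472, 274877906944⟩ ⟨260790414213, 521580828426⟩ ⟨395824185998, 483785116220⟩ :=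
  Cov.of (open T in (s2 (s1 (s0 (s2 (v 1) (s1 (d 1) (d 1))) (d 1)) (d 1)) (s1 (s0 (s0 (s0 (d 4) (d 3)) (d 4)) (s0 (d 3) (d 3))) (s2 (s0 (s1 (s0 (d 4) (d 3)) (s0 (d 3) (d 3))) (d 4)) (s0 (s0 (d 4) (d 3)) (d 3)))))) (by decide +kernel)

theorem twoC06_57 : Cov (esE 6 194 330 183) ⟨0, 137438953472⟩ ⟨260790414213, 391185621319⟩ ⟨483785116220, 527765581331⟩ :=
  Cov.of (open T in (s0 (s1 (s2 (s0 (s1 (s0 (s0 (d 4) (d 4)) (d 4)) (s2 (s0 (s0 (d 4) (d 4)) (d 4)) (s0 (s0 (d 4) (d 4)) (d 4)))) (s0 (d 4) (d 4))) (s0 (s0 (s0 (d 4) (d 4)) (d 4)) (s0 (d 4) (d 4)))) (s2 (s0 (s1 (s2 (s0 (s0 (d 4) (d 4)) (d 4)) (s0 (s0 (d 4) (d 4)) (d 4))) (s2 (s0 (s0 (d 4) (d 4)) (d 4)) (s0 (s0 (d 4) (d 4)) (d 4)))) (s0 (d 4) (d 4))) (s0 (s0 (s0 (d 4) (d 4)) (d 4)) (s0 (d 4) (d 4))))) (s0 (s0 (d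 6) (d 4)) (s0 (d 4) (d 3))))) (by decide +kernel)

theorem twoC06_58 : Cov (esE 6 194 330 183) ⟨0, 137438953472⟩ ⟨260790414213, 391185621319⟩ ⟨527765581331, 571746046442⟩ :=
  Cov.of (open T in (s0 (s1 (s2 (s0 (s0 (s0 (d 4) (d 4)) (d 4)) (s0 (d 4) (d 4))) (s0 (s0 (s0 (d 4) (d 4)) (d 4)) (s0 (d 4) (d 3)))) (s2 (s0 (s0 (s0 (d 4) (d 4)) (d 4)) (s0 (d 4) (d 4))) (s0 (s0 (s0 (d 4) (d 4)) (d 4)) (d 6)))) (s0 (s0 (d 4) (d 4)) (d 4)))) (by decide +kernel)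

theorem twoC06_60 : Cov (esE 6 194 330 183) ⟨0, 137438953472⟩ ⟨391185621319, 521580828426⟩ ⟨483785116220, 527765581331⟩ :=
  Cov.of (open T in (s0 (s1 (s2 (s0 (s1 (s0 (s0 (d 4) (d 4)) (d 5)) (s0 (s0 (d 4) (d 4)) (d 5))) (s0 (d 5) (d 4))) (s0 (s0 (s0 (d 4) (d 4)) (d 5)) (s0 (d 4) (d 4)))) (s2 (s0 (s2 (s1 (s0 (s0 (d 4) (d 4)) (d 5)) (s0 (s0 (d 4) (d 4)) (d 5))) (s0 (s0 (d 5) (d 4)) (d 6))) (s0 (d 5) (d 4))) (s0 (s0 (s0 (d 4) (d 4)) (d 5)) (s0 (d 4) (d 4))))) (s0 (s0 (d 4) (d 4)) (d 6)))) (by decide +kernel)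

theorem twoC06_61 : Cov (esE 6 194 330 183) ⟨0, 137438953472⟩ ⟨391185621319, 521580828426⟩ ⟨527765581331, 571746046442⟩ :=
  Cov.of (open T in (s0 (s1 (s2 (s0 (s0 (s0 (d 4) (d 4)) (d 4)) (s0 (d 4) (d 4))) (s0 (s0 (s0 (d 4) (d 4)) (d 4)) (d 6))) (s2 (s0 (s0 (s0 (d 4) (d 4)) (d 4)) (s0 (d 4) (d 4))) (s0 (s0 (s0 (d 4) (d 4)) (d 4)) (d 6)))) (s0 (s0 (d 4) (d 4)) (d 4)))) (by decide +kernel)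

theorem twoC06_62 : Cov (esE 6 194 330 183) ⟨137438953472, 274877906944⟩ ⟨260790414213, 521580828426⟩ ⟨483785116220, 571746046442⟩ :=
  Cov.of (open T in (s2 (s1 (s0 (s0 (d 4) (d 3)) (s0 (d 3) (d 3))) (s0 (s0 (d 4) (d 3)) (d 3))) (s1 (s0 (s0 (d 3) (d 3)) (d 3)) (s0 (s0 (d 3) (d 3)) (d 3))))) (by decide +kernel)

theorem twoC06_63 : Cov (esE 6 194 330 183) ⟨274877906944, 549755813888⟩ ⟨0, 521580828426⟩ ⟨395824185998, 571746046442⟩ :=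
  Cov.of (open T in (s2 (s1 (s0 (s2 (s1 (s0 (s1 (s2 (d 1) (s0 (s0 (d 3) (d 3)) (d 3))) (s2 (v 1) (s0 (d 3) (d 3)))) (s2 (v 1) (s1 (s0 (d 3) (d 3)) (d 1)))) (s0 (s2 (v 1) (d 1)) (d 1))) (s1 (s0 (s0 (s0 (d 3) (d 3)) (s0 (d 3) (d 3))) (s0 (d 3) (d 3))) (s0 (s0 (d 3) (d 3)) (d 3)))) (s2 (s1 (s0 (s2 (v 1) (d 1)) (v 2)) (d 1)) (s1 (s0 (d 3) (d 3)) (s0 (d 3) (d 3))))) (s2 (s0 (d 1) (d 1)) (s0 (s1 (s0 (d 3) (d 3)) (s0 (d 3) (d 3))) (s0 (d 3) (d 3))))) (s1 (s0 (s0 (s0 (s1 (d 3) (d 3)) (s1 (d 3) (d 3))) (s0 (s1 (d 3) (d 3)) (d 3))) (s0 (s0 (d 3) (d 3)) (d 3))) (s2 (s0 (s0 (d 4) (d 3)) (d 3)) (s0 (s0 (d 3) (d 3)) (d 3)))))) (by decide +kernel)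

theorem twoC06_68 : Cov (esE 6 194 330 183) ⟨0, 137438953472⟩ ⟨0, 260790414213⟩ ⟨571746046442, 659706976664⟩ :=
  Cov.of (open T in (s1 (s2 (s0 (s1 (s2 (s0 (s1 (s2 (s0 (s1 (s2 (s0 (s1 (v 0) (v 3)) (v 3)) (s0 (s1 (v 0) (v 3)) (v 3))) (v 3)) (v 3)) (s0 (s1 (s2 (s0 (s1 (v 0) (v 3)) (v 3)) (s0 (s1 (v 0) (v 3)) (v 3))) (v 3)) (v 3))) (s2 (s0 (v 3) (v 3)) (s0 (v 3) (v 3)))) (s0 (v 3) (v 3))) (s0 (s1 (s2 (s0 (s1 (s2 (s0 (s1 (v 0) (v 3)) (v 3)) (s0 (s1 (v 0) (v 3)) (v 3))) (v 3)) (v 3)) (s0 (s1 (s2 (s0 (s1 (v 0) (v 3)) (v 3)) (s0 (s1 (v 0) (v 3)) (v 3))) (v 3)) (v 3))) (v 4)) (s0 (v 3) (v 3)))) (s2 (s0 (s1 (s0 (v 3) (v 3)) (s0 (v 3) (v 3))) (s0 (d 3) (d 3))) (s0 (s1 (s0 (v 3) (v 3)) (s0 (v 3) (v 3))) (s0 (d 3) (d 3))))) (s0 (s0 (d 3) (d 3)) (s0 (d 3) (d 3)))) (s0 (s1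 (s2 (s0 (s1 (s2 (s0 (s1 (s2 (s0 (s1 (v 0) (v 3)) (v 3)) (s0 (s1 (v 0) (v 3)) (v 3))) (v 3)) (v 3)) (s0 (s1 (s2 (s0 (s1 (v 0) (v 3)) (v 3)) (s0 (s1 (v 0) (v 3)) (v 3))) (v 3)) (v 3))) (v 3)) (s0 (v 3) (v 3))) (s0 (s1 (s2 (s0 (s1 (s2 (s0 (s1 (v 0) (v 3)) (v 3)) (s0 (s1 (v 0) (v 3)) (v 3))) (v 3)) (v 3)) (s0 (s1 (s2 (s0 (s1 (v 0) (v 3)) (v 3)) (s0 (s1 (v 0) (v 3)) (v 3))) (v 3)) (v 3))) (v 3)) (s0 (v 3) (v 3)))) (s2 (s0 (s1 (s0 (v 3) (v 3)) (s0 (v 3) (v 3))) (d 4)) (s0 (s1 (s0 (v 3) (v 3)) (s0 (v 3) (v 3))) (d 3)))) (s0 (s0 (d 3) (d 3)) (d 3)))) (s2 (s0 (s1 (s2 (s0 (s0 (v 5) (d 3)) (s0 (d 3) (d 3))) (s0 (s0 (v 4) (d 3)) (d 4))) (s2 (s0 (s0 (s0 (d 3) (d 3)) (d 3)) (d 4)) (s0 (s0 (s0 (d 3) (d 3)) (d 3)) (d 4)))) (s0 (s0 (d 3) (d 3)) (d 3))) (s0 (s1 (s2 (s0 (s0 (d 3)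 (d 3)) (d 3)) (s0 (s0 (d 3) (d 3)) (d 3))) (s0 (s0 (s0 (d 3) (d 3)) (d 3)) (d 4))) (s0 (d 4) (d 3)))))) (by decide +kernel)

theorem twoC06_69 : Cov (esE 6 194 330 183) ⟨137438953472, 274877906944⟩ ⟨0, 260790414213⟩ ⟨571746046442, 659706976664⟩ :=
  Cov.of (open T in (s0 (s0 (s1 (d 3) (d 3)) (s1 (d 3) (d 3))) (s0 (s1 (d 3) (d 3)) (d 3)))) (by decide +kernel)

theorem twoC06_70 : Cov (esE 6 194 330 183) ⟨0, 274877906944⟩ ⟨0, 260790414213⟩ ⟨659706976664, 747667906887⟩ :=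
  Cov.of (open T in (s0 (s1 (s2 (s0 (s1 (s2 (s0 (s1 (s2 (s0 (s1 (s2 (s0 (s1 (v 0) (v 3)) (v 3)) (s0 (s1 (v 0) (v 3)) (v 3))) (v 3)) (v 3)) (s0 (s1 (s2 (s0 (s1 (v 0) (v 3)) (v 3)) (s0 (s1 (v 0) (v 3)) (v 3))) (v 3)) (v 3))) (v 3)) (s0 (v 3) (v 3))) (s0 (s1 (s2 (s0 (s1 (s2 (s0 (s1 (v 0) (v 3)) (v 3)) (s0 (s1 (v 0) (v 3)) (v 3))) (v 3)) (v 3)) (s0 (s1 (s0 (s2 (s1 (v 0) (v 3)) (s1 (v 0) (v 3))) (v 3)) (v 3)) (v 3))) (v 3)) (s0 (v 3) (v 3)))) (s2 (s0 (s0 (v 3) (v 3)) (d 3)) (s0 (s0 (v 3) (v 3)) (d 3)))) (s0 (s0 (d 3) (d 3)) (d 3))) (s0 (s1 (s2 (s0 (s1 (s2 (s0 (s1 (s0 (s2 (s1 (v 0) (v 3)) (s1 (v 0) (v 3))) (v 3)) (v 3)) (v 3)) (s0 (s1 (s0 (s2 (s1 (v 0) (v 3)) (s1 (v 0) (v 3))) (v 3)) (v 3)) (v 3))) (v 3)) (s0 (v 3) (v 3))) (s0 (s1 (s0 (s2 (s1 (s0 (s2 (s1 (v 0) (v 3))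 (s1 (v 0) (v 3))) (v 3)) (v 3)) (s1 (s0 (s2 (s1 (v 0) (v 3)) (s1 (v 0) (v 3))) (v 3)) (v 3))) (v 3)) (v 3)) (d 3))) (s2 (s0 (s0 (v 3) (v 3)) (d 3)) (s0 (s0 (v 3) (v 3)) (d 3)))) (s0 (d 3) (d 3)))) (s2 (s0 (s1 (s0 (s0 (d 3) (d 3)) (d 3)) (s0 (s0 (d 3) (d 3)) (d 3))) (s0 (d 3) (d 3))) (s0 (s1 (s0 (s0 (v 3) (d 3)) (d 3)) (s0 (s0 (d 3) (d 3)) (d 3))) (s0 (d 3) (d 3))))) (s0 (s0 (d 3) (d 3)) (s0 (d 3) (d 3))))) (by decide +kernel)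

theorem twoC06_72 : Cov (esE 6 194 330 183) ⟨0, 274877906944⟩ ⟨260790414213, 521580828426⟩ ⟨571746046442, 659706976664⟩ :=
  Cov.of (open T in (s0 (s1 (s2 (s0 (s1 (s2 (s0 (s0 (s0 (v 4) (d 4)) (d 4)) (d 4)) (s0 (s0 (d 4) (d 4)) (d 4))) (s2 (s0 (s0 (s0 (d 4) (d 4)) (d 4)) (d 4)) (s0 (s0 (d 4) (d 4)) (d 4)))) (s0 (d 4) (d 3))) (s0 (s1 (s0 (s0 (d 4) (d 4)) (d 4)) (s0 (s0 (d 4) (d 4)) (d 4))) (s0 (d 4) (d 3)))) (s2 (s0 (s1 (s2 (s0 (s0 (d 4) (d 4)) (d 4)) (s0 (s0 (d 4) (d 4)) (d 4))) (s0 (s0 (s0 (d 4) (d 4)) (d 4)) (d 5))) (s0 (d 4) (d 3))) (s0 (s0 (s0 (s0 (d 4) (d 4)) (d 4)) (d 6)) (s0 (d 4) (d 3))))) (s0 (s0 (d 6) (d 3)) (s0 (d 3) (d 3))))) (by decide +kernel)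

theorem twoC06_73 : Cov (esE 6 194 330 183) ⟨0, 274877906944⟩ ⟨260790414213, 521580828426⟩ ⟨659706976664, 747667906887⟩ :=
  Cov.of (open T in (s0 (s1 (s2 (s0 (s0 (s0 (s0 (d 4) (d 4)) (d 4)) (d 4)) (s0 (d 3) (d 3))) (s0 (s0 (s0 (s0 (d 4) (d 4)) (d 4)) (d 4)) (s0 (d 3) (d 3)))) (s2 (s0 (s0 (s0 (d 4) (d 4)) (d 4)) (s0 (d 3) (d 3))) (s0 (s0 (s0 (d 4) (d 4)) (d 4)) (s0 (d 3) (d 3))))) (s0 (s0 (d 3) (d 3)) (d 3)))) (by decide +kernel)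

theorem twoC06_74 : Cov (esE 6 194 330 183) ⟨274877906944, 549755813888⟩ ⟨0, 521580828426⟩ ⟨571746046442, 747667906887⟩ :=
  Cov.of (open T in (s1 (s2 (s0 (s0 (s0 (d 3) (d 3)) (s0 (d 3) (d 3))) (s0 (d 3) (d 3))) (s0 (s0 (d 3) (d 3)) (s0 (d 3) (d 3)))) (s0 (s0 (d 3) (d 3)) (d 3)))) (by decide +kernel)

theorem twoC06_80 : Cov (esE 6 194 330 183) ⟨0, 274877906944⟩ ⟨521580828426, 782371242639⟩ ⟨395824185998, 439804651109⟩ :=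
  Cov.of (open T in (s0 (d 1) (d 1))) (by decide +kernel)

theorem twoC06_87 : Cov (esE 6 194 330 183) ⟨0, 34359738368⟩ ⟨521580828426, 586778431979⟩ ⟨439804651109, 461794883664⟩ :=
  Cov.of (open T in (s2 (s1 (s0 (s2 (d 1) (s1 (s0 (d 6) (d 6)) (s0 (d 6) (d 6)))) (s2 (v 1) (s1 (s0 (d 6) (d 1)) (d 1)))) (d 1)) (s1 (s0 (s2 (s1 (s0 (d 6) (d 6)) (s0 (d 6) (d 6))) (s1 (s0 (d 6) (d 5)) (s0 (d 6) (d 5)))) (s0 (d 6) (d 5))) (s0 (s2 (s1 (s0 (d 6) (d 6)) (s0 (d 6) (d 6))) (s1 (s0 (d 6) (d 6)) (s0 (d 6) (d 6)))) (s0 (d 6) (d 6)))))) (by decide +kernel)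

theorem twoC06_88 : Cov (esE 6 194 330 183) ⟨34359738368, 68719476736⟩ ⟨521580828426, 586778431979⟩ ⟨439804651109, 461794883664⟩ :=
  Cov.of (open T in (s2 (s1 (d 1) (d 1)) (s1 (s0 (d 6) (d 4)) (s0 (d 6) (d 4))))) (by decide +kernel)

theorem twoC06_90 : Cov (esE 6 194 330 183) ⟨0, 68719476736⟩ ⟨586778431979, 651976035532⟩ ⟨439804651109, 450799767386⟩ :=
  Cov.of (open T in (d 1)) (by decide +kernel)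

theorem twoC06_93 : Cov (esE 6 194 330 183) ⟨0, 34359738368⟩ ⟨586778431979, 619377233755⟩ ⟨450799767386, 461794883664⟩ :=
  Cov.of (open T in (s0 (s2 (s1 (s0 (d 6) (d 6)) (s0 (d 6) (d 6))) (s1 (s0 (d 6) (d 6)) (s0 (d 6) (d 6)))) (s0 (d 6) (d 6)))) (by decide +kernel)

theorem twoC06_94 : Cov (esE 6 194 330 183) ⟨0, 34359738368⟩ ⟨619377233755, 651976035532⟩ ⟨450799767386, 461794883664⟩ :=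
  Cov.of (open T in (s2 (s0 (s1 (s2 (d 1) (s0 (d 6) (d 6))) (s2 (d 1) (s0 (d 6) (d 6)))) (s1 (s2 (d 1) (s0 (d 5) (d 5))) (s2 (d 1) (s0 (d 5) (d 5))))) (s0 (s1 (s2 (s0 (d 6) (d 6)) (s0 (d 6) (d 5))) (s2 (s0 (d 6) (d 6)) (s0 (d 6) (d 5)))) (s0 (d 6) (d 5))))) (by decide +kernel)

theorem twoC06_95 : Cov (esE 6 194 330 183) ⟨34359738368, 68719476736⟩ ⟨586778431979, 651976035532⟩ ⟨450799767386, 461794883664⟩ :=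
  Cov.of (open T in (s1 (s2 (s0 (d 6) (d 4)) (s0 (d 6) (d 4))) (s2 (s0 (d 6) (d 1)) (s0 (d 6) (d 4))))) (by decide +kernel)

theorem twoC06_96 : Cov (esE 6 194 330 183) ⟨68719476736, 137438953472⟩ ⟨521580828426, 651976035532⟩ ⟨439804651109, 461794883664⟩ :=
  Cov.of (open T in (s1 (s2 (d 1) (s0 (s0 (d 4) (d 4)) (d 4))) (s2 (d 1) (s0 (d 6) (d 4))))) (by decide +kernel)

theorem twoC06_99 : Cov (esE 6 194 330 183) ⟨0, 68719476736⟩ ⟨521580828426, 586778431979⟩ ⟨461794883664, 483785116220⟩ :=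
  Cov.of (open T in (s0 (s2 (s1 (s0 (s0 (d 6) (d 6)) (s0 (d 5) (d 5))) (s0 (s0 (d 6) (d 6)) (s0 (d 5) (d 5)))) (s1 (s0 (s0 (d 6) (d 5)) (d 6)) (s0 (s0 (d 6) (d 5)) (d 6)))) (s0 (s0 (d 5) (d 4)) (d 5)))) (by decide +kernel)

theorem twoC06_100 : Cov (esE 6 194 330 183) ⟨0, 68719476736⟩ ⟨586778431979, 651976035532⟩ ⟨461794883664, 483785116220⟩ :=
  Cov.of (open T in (s0 (s2 (s1 (s0 (s0 (d 6) (d 6)) (s0 (d 5) (d 5))) (s2 (s0 (s1 (s0 (d 6) (d 5)) (s0 (d 6) (d 5))) (s0 (d 5) (d 5))) (s0 (s0 (d 6) (d 5)) (d 6)))) (s1 (s0 (s0 (d 6) (d 5)) (d 6)) (s0 (s0 (d 6) (d 5)) (d 6)))) (s0 (s0 (d 5) (d 4)) (d 4)))) (by decide +kernel)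

theorem twoC06_101 : Cov (esE 6 194 330 183) ⟨68719476736, 137438953472⟩ ⟨521580828426, 651976035532⟩ ⟨461794883664, 483785116220⟩ :=
  Cov.of (open T in (s1 (s0 (s0 (d 4) (d 4)) (d 4)) (s2 (s0 (d 6) (d 4)) (s0 (d 4) (d 4))))) (by decide +kernel)

end Ent
end Pool.Agent.Lib.MP_6947cd_al
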