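import Pool.Agent.Lib.MP_6947cd_al.T.TwoNum

/-!
Problem MP_6947cd_al (Chollet).  The numerical condition of the two-entry loss, level 6 / 10.
-/

set_option autoImplicit false

namespace Pool.Agent.Lib.MP_6947cd_al
namespace Ent
open IA

theorem twoC06_105 : Cov (esE 6 194 330 183) ⟨0, 68719476736⟩ ⟨651976035532, 717173639085⟩ ⟨439804651109, 461794883664⟩ :=
  Cov.of (open T in (s2 (d 1) (s0 (s1 (s2 (s0 (s1 (s2 (d 1) (s0 (d 6) (d 6))) (d 1)) (s1 (d 1) (d 1))) (s0 (s1 (s2 (s0 (d 6) (d 6)) (s0 (d 6) (d 5))) (s2 (s0 (d 6) (d 5)) (s0 (d 6) (d 5)))) (s0 (d 6) (d 5)))) (s2 (d 1) (s0 (s1 (s2 (s0 (d 6) (d 5)) (s0 (d 6) (d 5))) (s2 (s0 (d 6) (d 5)) (s0 (d 6) (d 5)))) (s0 (d 5) (d 5))))) (s1 (s2 (d 1) (s0 (d 5) (d 4))) (s2 (d 1) (s0 (d 5) (d 4))))))) (by decide +kernel)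

theorem twoC06_106 : Cov (esE 6 194 330 183) ⟨0, 68719476736⟩ ⟨717173639085, 782371242639⟩ ⟨439804651109, 461794883664⟩ :=
  Cov.of (open T in (s2 (d 1) (s0 (s1 (s2 (d 1) (s0 (s1 (s2 (s0 (d 6) (d 5)) (s0 (d 6) (d 5))) (s2 (s0 (d 6) (d 1)) (s0 (d 6) (d 5)))) (s0 (d 5) (d 5)))) (s2 (d 1) (s0 (s1 (s2 (d 1) (s0 (d 6) (d 5))) (s2 (d 1) (s0 (d 6) (d 5)))) (d 6)))) (s1 (s2 (d 1) (s0 (d 5) (d 4))) (s2 (d 1) (s0 (d 4) (d 4))))))) (by decide +kernel)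

theorem twoC06_107 : Cov (esE 6 194 330 183) ⟨68719476736, 137438953472⟩ ⟨651976035532, 782371242639⟩ ⟨439804651109, 461794883664⟩ :=
  Cov.of (open T in (s1 (s2 (d 1) (s0 (d 5) (d 4))) (s2 (v 1) (s0 (d 4) (d 4))))) (by decide +kernel)

theorem twoC06_111 : Cov (esE 6 194 330 183) ⟨0, 68719476736⟩ ⟨651976035532, 717173639085⟩ ⟨461794883664, 472789999942⟩ :=
  Cov.of (open T in (s0 (s1 (s2 (s0 (s1 (s0 (d 6) (d 5)) (s0 (d 6) (d 5))) (s0 (d 5) (d 5))) (s0 (s0 (d 6) (d 5)) (d 6))) (s2 (s0 (s1 (s0 (d 6) (d 5)) (s0 (d 6) (d 5))) (d 6)) (s0 (s0 (d 6) (d 5)) (d 6)))) (s0 (d 6) (d 4)))) (by decide +kernel)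

theorem twoC06_112 : Cov (esE 6 194 330 183) ⟨0, 68719476736⟩ ⟨651976035532, 717173639085⟩ ⟨472789999942, 483785116220⟩ :=
  Cov.of (open T in (s0 (s1 (s2 (s0 (s0 (d 6) (d 5)) (d 6)) (s0 (s0 (d 5) (d 5)) (d 6))) (s2 (s0 (s0 (d 5) (d 5)) (d 6)) (s0 (s0 (d 5) (d 5)) (d 6)))) (s0 (d 5) (d 4)))) (by decide +kernel)

theorem twoC06_113 : Cov (esE 6 194 330 183) ⟨0, 68719476736⟩ ⟨717173639085, 782371242639⟩ ⟨461794883664, 483785116220⟩ :=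
  Cov.of (open T in (s2 (s0 (s1 (s2 (s0 (s0 (d 6) (d 5)) (d 6)) (s0 (s0 (d 6) (d 5)) (d 6))) (s2 (s0 (s0 (d 6) (d 5)) (d 6)) (s0 (s0 (d 5) (d 5)) (d 6)))) (s0 (d 5) (d 4))) (s0 (s1 (s2 (s0 (s0 (d 5) (d 5)) (d 6)) (s0 (s0 (d 5) (d 5)) (d 5))) (s2 (s0 (s0 (d 5) (d 5)) (d 5)) (s0 (s0 (d 5) (d 5)) (d 5)))) (s0 (d 4) (d 4))))) (by decide +kernel)

theorem twoC06_114 : Cov (esE 6 194 330 183) ⟨68719476736, 137438953472⟩ ⟨651976035532, 782371242639⟩ ⟨461794883664, 483785116220⟩ :=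
  Cov.of (open T in (s1 (s2 (s0 (d 4) (d 4)) (s0 (d 4) (d 4))) (s0 (d 4) (d 3)))) (by decide +kernel)

theorem twoC06_115 : Cov (esE 6 194 330 183) ⟨137438953472, 274877906944⟩ ⟨521580828426, 782371242639⟩ ⟨439804651109, 483785116220⟩ :=
  Cov.of (open T in (s1 (s2 (s0 (s1 (d 6) (d 4)) (d 3)) (s0 (s0 (d 3) (d 3)) (d 3))) (s2 (s0 (d 4) (d 3)) (s0 (d 4) (d 3))))) (by decide +kernel)

theorem twoC06_117 : Cov (esE 6 194 330 183) ⟨0, 274877906944⟩ ⟨782371242639, 1043161656852⟩ ⟨395824185998, 439804651109⟩ :=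
  Cov.of (open T in (d 1)) (by decide +kernel)

theorem twoC06_121 : Cov (esE 6 194 330 183) ⟨0, 137438953472⟩ ⟨782371242639, 912766449745⟩ ⟨439804651109, 461794883664⟩ :=
  Cov.of (open T in (s0 (s1 (s2 (v 1) (s0 (s1 (s2 (d 1) (s0 (s1 (s2 (d 1) (s0 (d 5) (d 5))) (s2 (d 1) (s0 (d 5) (d 5)))) (d 6))) (s2 (v 1) (s0 (s1 (s2 (v 1) (s0 (d 5) (d 1))) (d 1)) (d 1)))) (s1 (s2 (v 1) (s0 (d 4) (d 1))) (d 1)))) (d 1)) (s1 (d 1) (d 1)))) (by decide +kernel)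

theorem twoC06_124 : Cov (esE 6 194 330 183) ⟨0, 68719476736⟩ ⟨782371242639, 847568846192⟩ ⟨461794883664, 483785116220⟩ :=
  Cov.of (open T in (s2 (s0 (s1 (s2 (s0 (s0 (d 5) (d 5)) (d 6)) (s0 (s0 (d 5) (d 5)) (d 5))) (s2 (s0 (s0 (d 5) (d 5)) (d 5)) (s0 (s0 (d 5) (d 5)) (d 5)))) (s0 (d 4) (d 4))) (s0 (s1 (s2 (s0 (s0 (d 5) (d 5)) (d 5)) (s0 (s0 (d 5) (d 5)) (d 5))) (s2 (s0 (d 6) (d 5)) (s0 (d 6) (d 5)))) (s0 (d 4) (d 4))))) (by decide +kernel)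

theorem twoC06_125 : Cov (esE 6 194 330 183) ⟨0, 68719476736⟩ ⟨847568846192, 912766449745⟩ ⟨461794883664, 483785116220⟩ :=
  Cov.of (open T in (s2 (s0 (s1 (s2 (s0 (d 6) (d 5)) (s0 (d 6) (d 5))) (s2 (s0 (d 6) (d 5)) (s0 (d 6) (d 5)))) (s0 (d 4) (d 4))) (s0 (s1 (s2 (s0 (d 6) (d 5)) (s0 (d 6) (d 4))) (s2 (s0 (d 6) (d 4)) (s0 (d 5) (d 4)))) (d 6)))) (by decide +kernel)

theorem twoC06_126 : Cov (esE 6 194 330 183) ⟨68719476736, 137438953472⟩ ⟨782371242639, 912766449745⟩ ⟨461794883664, 483785116220⟩ :=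
  Cov.of (open T in (s1 (s0 (d 4) (d 3)) (s0 (d 4) (d 3)))) (by decide +kernel)

theorem twoC06_127 : Cov (esE 6 194 330 183) ⟨0, 137438953472⟩ ⟨912766449745, 1043161656852⟩ ⟨439804651109, 483785116220⟩ :=
  Cov.of (open T in (s2 (d 1) (s0 (s1 (s2 (s0 (s1 (s2 (s0 (d 6) (d 4)) (s0 (d 6) (d 4))) (s2 (s0 (d 5) (d 4)) (s0 (d 5) (d 4)))) (d 5)) (s0 (s1 (s0 (d 5) (d 4)) (s0 (d 5) (d 4))) (d 5))) (s2 (s0 (s1 (s2 (s0 (d 5) (d 4)) (s0 (d 5) (d 4))) (s2 (d 1) (s0 (d 5) (d 4)))) (d 4)) (s0 (s0 (d 5) (d 4)) (d 4)))) (s0 (d 4) (d 3))))) (by decide +kernel)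

theorem twoC06_128 : Cov (esE 6 194 330 183) ⟨137438953472, 274877906944⟩ ⟨782371242639, 1043161656852⟩ ⟨439804651109, 483785116220⟩ :=
  Cov.of (open T in (s1 (s2 (d 1) (s0 (d 3) (d 3))) (s2 (d 1) (s0 (d 3) (v 3))))) (by decide +kernel)

theorem twoC06_129 : Cov (esE 6 194 330 183) ⟨274877906944, 549755813888⟩ ⟨521580828426, 1043161656852⟩ ⟨395824185998, 483785116220⟩ :=
  Cov.of (open T in (s1 (s2 (d 1) (s0 (s0 (d 3) (d 3)) (d 3))) (s2 (d 1) (s0 (d 3) (v 3))))) (by decide +kernel)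

theorem twoC06_135 : Cov (esE 6 194 330 183) ⟨0, 137438953472⟩ ⟨521580828426, 651976035532⟩ ⟨483785116220, 527765581331⟩ :=
  Cov.of (open T in (s0 (s2 (s1 (s0 (s0 (s0 (d 6) (d 5)) (s0 (d 5) (d 4))) (s0 (d 5) (d 4))) (s0 (s0 (s0 (d 6) (d 5)) (s0 (d 5) (d 4))) (s0 (d 5) (d 4)))) (s1 (s0 (s0 (s0 (d 5) (d 4)) (d 5)) (s0 (d 4) (d 4))) (s0 (s0 (s0 (d 5) (d 4)) (d 5)) (s0 (d 4) (d 4))))) (s0 (s0 (d 4) (d 4)) (d 4)))) (by decide +kernel)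

theorem twoC06_137 : Cov (esE 6 194 330 183) ⟨0, 137438953472⟩ ⟨651976035532, 782371242639⟩ ⟨483785116220, 505775348775⟩ :=
  Cov.of (open T in (s0 (s1 (s2 (s0 (s1 (s0 (s0 (d 5) (d 5)) (d 6)) (s0 (s0 (d 5) (d 5)) (d 5))) (s0 (d 4) (d 4))) (s0 (s0 (s0 (d 5) (d 5)) (d 6)) (s0 (d 4) (d 4)))) (s2 (s0 (s1 (s0 (s0 (d 5) (d 5)) (d 5)) (s0 (s0 (d 5) (d 5)) (d 5))) (s0 (d 4) (d 4))) (s0 (s0 (s0 (d 5) (d 5)) (d 5)) (s0 (d 4) (d 4))))) (s0 (d 5) (d 4)))) (by decide +kernel)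

theorem twoC06_138 : Cov (esE 6 194 330 183) ⟨0, 137438953472⟩ ⟨651976035532, 782371242639⟩ ⟨505775348775, 527765581331⟩ :=
  Cov.of (open T in (s0 (s1 (s0 (s0 (s0 (d 5) (d 4)) (d 5)) (s0 (d 4) (d 4))) (s2 (s0 (s0 (s0 (d 5) (d 4)) (d 5)) (d 6)) (s0 (s0 (d 6) (d 4)) (d 6)))) (s0 (d 4) (d 4)))) (by decide +kernel)

theorem twoC06_139 : Cov (esE 6 194 330 183) ⟨0, 137438953472⟩ ⟨521580828426, 782371242639⟩ ⟨527765581331, 571746046442⟩ :=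
  Cov.of (open T in (s1 (s0 (s2 (s1 (s0 (s0 (s0 (d 4) (d 4)) (d 4)) (s0 (d 4) (d 4))) (s0 (s0 (s0 (d 4) (d 4)) (d 4)) (s0 (d 4) (d 4)))) (s1 (s0 (s0 (s0 (d 4) (d 4)) (d 4)) (d 6)) (s0 (s0 (s0 (d 4) (d 4)) (d 4)) (d 6)))) (s0 (d 6) (d 4))) (s0 (s2 (s1 (s0 (s0 (s0 (d 4) (d 4)) (d 4)) (d 6)) (s0 (s0 (d 6) (d 4)) (d 5))) (s1 (s0 (s0 (d 4) (d 4)) (d 5)) (s0 (s0 (d 4) (d 4)) (d 4)))) (s0 (d 4) (d 3))))) (by decide +kernel)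

theorem twoC06_140 : Cov (esE 6 194 330 183) ⟨137438953472, 274877906944⟩ ⟨521580828426, 782371242639⟩ ⟨483785116220, 571746046442⟩ :=
  Cov.of (open T in (s2 (s1 (s2 (s0 (d 6) (d 3)) (s0 (d 4) (d 3))) (s0 (d 4) (d 3))) (s0 (s0 (d 3) (d 3)) (d 3)))) (by decide +kernel)

theorem twoC06_144 : Cov (esE 6 194 330 183) ⟨0, 137438953472⟩ ⟨782371242639, 912766449745⟩ ⟨483785116220, 527765581331⟩ :=
  Cov.of (open T in (s2 (s0 (s1 (s2 (s0 (s0 (s0 (d 5) (d 5)) (d 5)) (s0 (d 4) (d 4))) (s0 (s0 (s0 (d 5) (d 4)) (d 5)) (d 6))) (s2 (s0 (s0 (d 6) (d 5)) (d 5)) (s0 (s0 (d 6) (d 4)) (d 5)))) (s0 (d 4) (d 3))) (s0 (s1 (s2 (s0 (s0 (d 6) (d 4)) (d 5)) (s0 (s0 (d 5) (d 4)) (d 5))) (s2 (s0 (s0 (d 5) (d 4)) (d 4)) (s0 (s0 (d 5) (d 4)) (d 4)))) (s0 (d 4) (d 3))))) (by decide +kernel)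

theorem twoC06_145 : Cov (esE 6 194 330 183) ⟨0, 137438953472⟩ ⟨912766449745, 1043161656852⟩ ⟨483785116220, 527765581331⟩ :=
  Cov.of (open T in (s2 (s0 (s1 (s2 (s0 (s0 (d 5) (d 4)) (d 4)) (s0 (s0 (d 5) (d 4)) (d 4))) (s2 (s0 (s0 (d 5) (d 4)) (d 4)) (s0 (s0 (d 5) (d 4)) (d 4)))) (s0 (d 4) (d 3))) (s0 (s1 (s2 (s0 (s0 (d 5) (d 4)) (d 4)) (s0 (s0 (d 5) (d 4)) (d 4))) (s2 (s0 (s0 (d 5) (d 4)) (d 4)) (s0 (s0 (d 4) (d 4)) (d 4)))) (s0 (d 4) (d 3))))) (by decide +kernel)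

theorem twoC06_146 : Cov (esE 6 194 330 183) ⟨137438953472, 274877906944⟩ ⟨782371242639, 1043161656852⟩ ⟨483785116220, 527765581331⟩ :=
  Cov.of (open T in (s1 (s0 (d 3) (d 3)) (s0 (d 3) (v 3)))) (by decide +kernel)

theorem twoC06_147 : Cov (esE 6 194 330 183) ⟨0, 274877906944⟩ ⟨782371242639, 1043161656852⟩ ⟨527765581331, 571746046442⟩ :=
  Cov.of (open T in (s0 (s1 (s2 (s0 (s1 (s2 (s0 (s0 (d 5) (d 4)) (d 4)) (s0 (s0 (d 5) (d 4)) (d 4))) (s2 (s0 (s0 (d 5) (d 4)) (d 4)) (s0 (s0 (d 4) (d 4)) (d 4)))) (s0 (d 4) (d 3))) (s0 (s1 (s0 (s0 (d 4) (d 4)) (d 4)) (s0 (s0 (d 4) (d 4)) (d 4))) (s0 (d 4) (d 3)))) (s2 (s0 (s1 (s2 (s0 (s0 (d 4) (d 4)) (d 4)) (s0 (s0 (d 4) (d 4)) (d 4))) (s0 (s0 (d 4) (d 4)) (d 4))) (d 5)) (s0 (s0 (s0 (d 5) (d 4)) (d 4)) (d 4)))) (s0 (d 4) (d 3)))) (by decide +kernel)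

theorem twoC06_148 : Cov (esE 6 194 330 183) ⟨274877906944, 549755813888⟩ ⟨521580828426, 1043161656852⟩ ⟨483785116220, 571746046442⟩ :=
  Cov.of (open T in (s1 (s2 (s0 (s0 (d 3) (d 3)) (d 3)) (s0 (d 4) (d 3))) (s0 (d 3) (v 3)))) (by decide +kernel)

theorem twoC06_152 : Cov (esE 6 194 330 183) ⟨0, 274877906944⟩ ⟨521580828426, 782371242639⟩ ⟨571746046442, 659706976664⟩ :=
  Cov.of (open T in (s0 (s2 (s1 (s0 (s1 (s0 (s0 (d 4) (d 4)) (d 5)) (s0 (s0 (d 4) (d 4)) (d 5))) (s0 (d 4) (d 3))) (s0 (s0 (s0 (d 6) (d 4)) (s0 (d 4) (d 4))) (s0 (d 4) (d 3)))) (s1 (s0 (s0 (s0 (s0 (d 4) (d 4)) (d 4)) (d 5)) (s0 (d 4) (d 3))) (s0 (s0 (s0 (d 4) (d 4)) (d 4)) (s0 (d 4) (d 3))))) (s0 (s0 (d 3) (d 3)) (d 3)))) (by decide +kernel)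

end Ent
end Pool.Agent.Lib.MP_6947cd_al
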