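import Pool.Agent.Lib.MP_6947cd_al.T.TwoNum

/-!
Problem MP_6947cd_al (Chollet).  The numerical condition of the two-entry loss, level 6 / 10.
-/

set_option autoImplicit false

namespace Pool.Agent.Lib.MP_6947cd_al
namespace Ent
open IA

theorem twoC06_153 : Cov (esE 6 194 330 183) ⟨0, 274877906944⟩ ⟨782371242639, 1043161656852⟩ ⟨571746046442, 659706976664⟩ :=
  Cov.of (open T in (s2 (s0 (s1 (s0 (s0 (s0 (d 5) (d 4)) (d 4)) (s0 (d 4) (d 3))) (s2 (s0 (s0 (s0 (d 4) (d 4)) (d 4)) (d 4)) (s0 (s0 (s0 (d 4) (d 4)) (d 4)) (d 4)))) (s0 (d 3) (d 3))) (s0 (s1 (s0 (s0 (s0 (d 4) (d 4)) (d 4)) (d 4)) (s2 (s0 (s0 (d 6) (d 4)) (d 4)) (s0 (s0 (d 5) (d 4)) (d 4)))) (s0 (d 3) (d 3))))) (by decide +kernel)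

theorem twoC06_154 : Cov (esE 6 194 330 183) ⟨0, 274877906944⟩ ⟨521580828426, 1043161656852⟩ ⟨659706976664, 747667906887⟩ :=
  Cov.of (open T in (s1 (s0 (s1 (s2 (s0 (s0 (s0 (d 4) (d 4)) (d 4)) (s0 (d 3) (d 3))) (s0 (s0 (s0 (d 4) (d 4)) (d 4)) (d 5))) (s2 (s0 (s0 (s0 (d 4) (d 4)) (d 4)) (d 5)) (s0 (s0 (s0 (d 4) (d 4)) (d 4)) (d 4)))) (s0 (d 4) (d 3))) (s0 (s2 (s1 (s0 (s0 (s0 (d 4) (d 4)) (d 4)) (d 4)) (s0 (s0 (d 5) (d 4)) (d 4))) (s1 (s0 (s0 (d 4) (d 4)) (d 4)) (s0 (s0 (d 4) (d 4)) (d 4)))) (s0 (d 3) (d 3))))) (by decide +kernel)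

theorem twoC06_155 : Cov (esE 6 194 330 183) ⟨274877906944, 549755813888⟩ ⟨521580828426, 1043161656852⟩ ⟨571746046442, 747667906887⟩ :=
  Cov.of (open T in (s0 (s0 (d 3) (d 3)) (d 3))) (by decide +kernel)

theorem twoC06_156 : Cov (esE 6 194 330 183) ⟨549755813888, 1099511627776⟩ ⟨0, 1043161656852⟩ ⟨395824185998, 747667906887⟩ :=
  Cov.of (open T in (s2 (s1 (s2 (v 2) (s0 (s1 (s0 (s0 (d 3) (v 2)) (v 2)) (s0 (d 3) (v 2))) (v 2))) (s2 (v 2) (s0 (s0 (d 3) (v 2)) (v 2)))) (s1 (s0 (s0 (s0 (d 3) (d 3)) (d 3)) (v 2)) (s2 (s0 (s0 (v 3) (v 2)) (v 2)) (s0 (d 3) (v 2)))))) (by decide +kernel)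

theorem twoC06_162 : Cov (esE 6 194 330 183) ⟨0, 274877906944⟩ ⟨0, 260790414213⟩ ⟨747667906887, 923589767331⟩ :=
  Cov.of (open T in (s2 (s0 (s1 (s2 (s0 (s1 (s0 (s2 (s1 (s0 (s2 (s1 (s0 (s2 (s1 (v 0) (v 3)) (s1 (v 0) (v 3))) (v 3)) (v 3)) (s1 (s0 (s2 (s1 (v 0) (v 3)) (s1 (v 0) (v 3))) (v 3)) (v 3))) (v 3)) (v 3)) (s1 (s0 (s2 (s1 (s0 (s2 (s1 (v 0) (v 3)) (s1 (v 0) (v 3))) (v 3)) (v 3)) (s1 (s0 (s2 (s1 (v 0) (v 3)) (s1 (v 0) (v 3))) (v 3)) (v 3))) (v 3)) (v 3))) (v 3)) (s2 (s0 (v 6) (d 3)) (s0 (v 4) (d 3)))) (s0 (d 3) (d 3))) (s0 (s1 (s0 (s2 (s1 (s0 (s2 (s1 (s0 (s2 (s1 (v 0) (v 3)) (s1 (v 0) (v 3))) (v 3)) (v 3)) (s1 (s0 (s2 (s1 (v 0) (v 3)) (s1 (v 0) (v 3))) (v 3)) (v 3))) (v 3)) (v 3)) (s1 (s0 (s2 (s1 (s0 (s2 (s1 (v 0) (v 3)) (s1 (v 0)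 (v 3))) (v 3)) (v 3)) (s1 (s0 (s2 (s1 (v 0) (v 3)) (s1 (v 0) (v 3))) (v 3)) (v 3))) (v 3)) (v 3))) (v 3)) (s2 (s0 (v 4) (d 3)) (s0 (v 3) (v 3)))) (s0 (d 3) (d 3)))) (s2 (s0 (s1 (s0 (s0 (v 3) (v 3)) (d 3)) (s0 (s0 (d 3) (d 3)) (d 3))) (s0 (d 3) (d 3))) (s0 (s0 (s0 (v 4) (d 3)) (d 3)) (d 4)))) (s0 (s0 (d 3) (d 3)) (d 3))) (s0 (s1 (s0 (s2 (s1 (s0 (s2 (s1 (s0 (s2 (s1 (s0 (s2 (s1 (v 0) (v 3)) (s1 (v 0) (v 3))) (v 3)) (v 3)) (s1 (s0 (s2 (s1 (v 0) (v 3)) (s1 (v 0) (v 3))) (v 3)) (v 3))) (v 3)) (v 3)) (s1 (s0 (s2 (s1 (s0 (s2 (s1 (v 0) (v 3)) (s1 (v 0) (v 3))) (v 3)) (v 3)) (s1 (s0 (s2 (s1 (v 0) (v 3)) (s1 (v 0) (v 3))) (v 3)) (v 3))) (v 3)) (v 3))) (v 3)) (s0 (v 3) (v 3))) (s1 (s0 (s2 (s1 (s0 (s2 (s1 (s0 (s2 (s1 (v 0) (v 3)) (s1 (v 0) (v 3)))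 (v 3)) (v 3)) (s1 (s0 (s2 (s1 (v 0) (v 3)) (s1 (v 0) (v 3))) (v 3)) (v 3))) (v 3)) (v 3)) (s1 (s0 (s2 (s1 (s0 (s2 (s1 (v 0) (v 3)) (s1 (v 0) (v 3))) (v 3)) (v 3)) (s1 (s0 (s2 (s1 (v 0) (v 3)) (s1 (v 0) (v 3))) (v 3)) (v 3))) (v 3)) (v 3))) (v 3)) (s0 (v 3) (v 3)))) (s0 (d 3) (d 3))) (s2 (s0 (s0 (s0 (v 4) (d 3)) (d 3)) (d 3)) (s0 (s0 (s0 (v 4) (d 3)) (d 3)) (d 3)))) (s0 (d 3) (d 3))))) (by decide +kernel)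

theorem twoC06_163 : Cov (esE 6 194 330 183) ⟨0, 274877906944⟩ ⟨260790414213, 521580828426⟩ ⟨747667906887, 923589767331⟩ :=
  Cov.of (open T in (s2 (s0 (s1 (s2 (s0 (s0 (s0 (d 4) (d 3)) (d 4)) (d 4)) (s0 (s0 (s0 (d 4) (d 3)) (d 3)) (d 4))) (s2 (s0 (s0 (s0 (d 4) (d 4)) (d 4)) (d 4)) (s0 (s0 (s0 (d 4) (d 3)) (d 3)) (d 4)))) (s0 (d 4) (d 3))) (s0 (s1 (s2 (s0 (s0 (s0 (d 3) (d 3)) (d 3)) (d 3)) (s0 (s0 (s0 (d 3) (d 3)) (d 3)) (d 3))) (s2 (s0 (s0 (s0 (d 4) (d 3)) (d 3)) (d 3)) (s0 (s0 (d 4) (d 3)) (d 3)))) (s0 (d 3) (d 3))))) (by decide +kernel)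

theorem twoC06_164 : Cov (esE 6 194 330 183) ⟨274877906944, 549755813888⟩ ⟨0, 521580828426⟩ ⟨747667906887, 923589767331⟩ :=
  Cov.of (open T in (s0 (s0 (s1 (d 3) (d 3)) (s1 (d 3) (d 3))) (s0 (d 3) (d 3)))) (by decide +kernel)

theorem twoC06_165 : Cov (esE 6 194 330 183) ⟨0, 549755813888⟩ ⟨0, 521580828426⟩ ⟨923589767331, 1099511627776⟩ :=
  Cov.of (open T in (s0 (s1 (s0 (s2 (s1 (s0 (s2 (s1 (s0 (s2 (s1 (s0 (s2 (s1 (s0 (s2 (s1 (v 0) (v 3)) (s1 (v 0) (v 3))) (v 3)) (v 3)) (s1 (s0 (s2 (s1 (v 0) (v 3)) (s1 (v 0) (v 3))) (v 3)) (v 3))) (v 3)) (v 3)) (s1 (s0 (s2 (s1 (s0 (s2 (s1 (v 0) (v 3)) (s1 (v 0) (v 3))) (v 3)) (v 3)) (s1 (s0 (s1 (v 0) (v 3)) (v 3)) (v 3))) (v 3)) (v 3))) (v 3)) (s0 (v 3) (v 3))) (s1 (s0 (s2 (s1 (s0 (s1 (s2 (s0 (s1 (v 0)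 (v 3)) (v 3)) (s0 (s1 (v 0) (v 3)) (v 3))) (v 3)) (v 3)) (v 3)) (s1 (s0 (s1 (s2 (s0 (s1 (v 0) (v 3)) (v 3)) (s0 (s1 (v 0) (v 3)) (v 3))) (v 3)) (v 3)) (v 3))) (v 3)) (s0 (v 3) (v 3)))) (s0 (v 3) (v 3))) (s2 (s0 (s0 (s0 (v 3) (v 3)) (d 3)) (d 3)) (s0 (s0 (v 6) (d 3)) (d 3)))) (s1 (s0 (s2 (s1 (s0 (s1 (s2 (s0 (s1 (s2 (s0 (s1 (v 0) (v 3)) (v 3)) (s0 (s1 (v 0) (v 3)) (v 3))) (v 3)) (v 3)) (s0 (s1 (s2 (s0 (s1 (v 0) (v 3)) (v 3)) (s0 (s1 (v 0) (v 3)) (v 3))) (v 3)) (v 3))) (v 3)) (v 3)) (s0 (v 3) (v 3))) (s1 (s0 (s1 (s2 (s0 (s1 (s2 (s0 (s1 (v 0) (v 3)) (v 3)) (s0 (s1 (v 0) (v 3)) (v 3))) (v 3)) (v 3)) (s0 (s1 (s2 (s0 (s1 (v 0) (v 3)) (v 3)) (s0 (s1 (v 0) (v 3)) (v 3))) (v 3)) (v 3))) (v 3)) (v 3)) (s0 (v 3) (v 3)))) (d 3)) (s0 (s0 (v 4) (d 3))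 (d 3)))) (s0 (d 3) (d 3))) (s2 (s0 (s1 (s2 (s0 (s0 (s0 (d 3) (d 3)) (d 3)) (d 3)) (s0 (s0 (d 3) (d 3)) (d 3))) (s0 (s0 (d 4) (d 3)) (d 3))) (s0 (d 3) (d 3))) (s0 (s1 (s0 (s0 (d 3) (d 3)) (d 3)) (s0 (s0 (d 3) (d 3)) (d 3))) (s0 (d 3) (v 3))))) (s0 (s0 (d 3) (d 3)) (d 3)))) (by decide +kernel)

theorem twoC06_167 : Cov (esE 6 194 330 183) ⟨0, 549755813888⟩ ⟨521580828426, 1043161656852⟩ ⟨747667906887, 923589767331⟩ :=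
  Cov.of (open T in (s0 (s1 (s2 (s0 (s1 (s2 (s0 (s0 (s0 (d 4) (d 4)) (d 4)) (d 4)) (s0 (s0 (d 4) (d 3)) (d 4))) (s2 (s0 (s0 (d 4) (d 4)) (d 4)) (s0 (s0 (d 4) (d 3)) (d 3)))) (s0 (d 3) (d 3))) (s0 (s1 (s2 (s0 (s0 (d 4) (d 3)) (d 3)) (s0 (s0 (d 4) (d 3)) (d 3))) (s0 (s0 (d 4) (d 3)) (d 3))) (s0 (d 3) (d 3)))) (s2 (s0 (s1 (s2 (s0 (s0 (d 4) (d 4)) (d 4)) (s0 (s0 (d 4) (d 3)) (d 3))) (s2 (s0 (s0 (d 4) (d 4)) (d 3)) (s0 (s0 (d 4) (d 3)) (d 3)))) (s0 (d 3) (v 3))) (s0 (s1 (s0 (s0 (d 4) (d 3)) (d 3)) (s0 (s0 (d 4) (d 3)) (d 3))) (d 4)))) (s0 (s0 (d 3) (d 3)) (d 3)))) (by decide +kernel)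

theorem twoC06_168 : Cov (esE 6 194 330 183) ⟨0, 549755813888⟩ ⟨521580828426, 1043161656852⟩ ⟨923589767331, 1099511627776⟩ :=
  Cov.of (open T in (s0 (s1 (s2 (s0 (s1 (s0 (s0 (d 4) (d 3)) (d 3)) (s0 (s0 (d 4) (d 3)) (d 3))) (s0 (d 3) (v 3))) (s0 (s0 (s0 (d 4) (d 3)) (d 3)) (d 4))) (s2 (s0 (s0 (s0 (d 4) (d 3)) (d 3)) (d 3)) (s0 (s0 (s0 (d 4) (d 3)) (d 3)) (d 3)))) (s0 (d 3) (v 3)))) (by decide +kernel)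

theorem twoC06_169 : Cov (esE 6 194 330 183) ⟨549755813888, 1099511627776⟩ ⟨0, 1043161656852⟩ ⟨747667906887, 1099511627776⟩ :=
  Cov.of (open T in (s1 (s2 (s0 (s0 (d 3) (d 3)) (d 3)) (s0 (s0 (d 3) (v 3)) (v 3))) (s0 (s0 (v 3) (v 3)) (v 3)))) (by decide +kernel)

theorem twoC06_176 : Cov (esE 6 194 330 183) ⟨0, 274877906944⟩ ⟨1043161656852, 1564742485278⟩ ⟨395824185998, 483785116220⟩ :=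
  Cov.of (open T in (s1 (s2 (d 1) (s0 (s1 (s2 (d 1) (s0 (s1 (s2 (s0 (s1 (s2 (d 1) (s0 (d 5) (d 4))) (s2 (d 1) (s0 (d 5) (d 4)))) (d 4)) (s0 (s0 (d 5) (d 4)) (d 4))) (s2 (s0 (s1 (s2 (d 1) (s0 (d 4) (d 4))) (s0 (d 4) (d 4))) (d 4)) (s0 (s0 (d 4) (d 4)) (d 4)))) (d 5))) (s2 (d 1) (s0 (s1 (s2 (s0 (s0 (d 4) (d 4)) (d 4)) (s0 (d 6) (d 4))) (s2 (s0 (d 5) (d 1)) (s0 (d 5) (d 4)))) (d 4)))) (s1 (s0 (d 3) (v 3)) (d 4)))) (s2 (v 1) (s0 (s1 (s2 (d 1) (s0 (s1 (s2 (d 1) (s0 (d 4) (d 4))) (s2 (d 1) (s0 (d 4) (v 4)))) (d 4))) (s2 (v 1) (s0 (s1 (s2 (d 1) (s0 (d 4) (v 4))) (s2 (d 1) (s0 (d 4) (v 4)))) (d 3)))) (d 4))))) (by decide +kernel)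

theorem twoC06_177 : Cov (esE 6 194 330 183) ⟨274877906944, 549755813888⟩ ⟨1043161656852, 1564742485278⟩ ⟨395824185998, 483785116220⟩ :=
  Cov.of (open T in (s2 (d 1) (s1 (s0 (v 3) (v 3)) (d 5)))) (by decide +kernel)

theorem twoC06_178 : Cov (esE 6 194 330 183) ⟨0, 549755813888⟩ ⟨1564742485278, 2086323313705⟩ ⟨395824185998, 483785116220⟩ :=
  Cov.of (open T in (s2 (d 1) (s0 (s1 (s0 (s2 (d 1) (s1 (s0 (s1 (s0 (d 4) (d 3)) (d 6)) (d 3)) (s0 (d 6) (v 3)))) (d 3)) (s2 (d 1) (s0 (s1 (s0 (d 4) (v 3)) (s0 (d 4) (v 3))) (v 3)))) (v 3)))) (by decide +kernel)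

theorem twoC06_183 : Cov (esE 6 194 330 183) ⟨0, 274877906944⟩ ⟨1043161656852, 1303952071065⟩ ⟨483785116220, 527765581331⟩ :=
  Cov.of (open T in (s0 (s1 (s2 (s0 (s1 (s2 (s0 (s0 (d 5) (d 4)) (d 4)) (s0 (s0 (d 4) (d 4)) (d 4))) (s2 (s0 (s0 (d 4) (d 4)) (d 4)) (s0 (d 6) (d 4)))) (d 4)) (s0 (s1 (s2 (s0 (s0 (d 4) (d 4)) (d 4)) (s0 (s0 (d 4) (d 4)) (d 4))) (s2 (s0 (d 6) (d 4)) (s0 (d 6) (d 4)))) (d 4))) (s2 (s0 (s1 (s2 (s0 (d 6) (d 4)) (s0 (d 5) (d 4))) (s2 (s0 (d 5) (d 4)) (s0 (d 5) (d 4)))) (d 4)) (s0 (s1 (s0 (d 5) (d 4)) (s0 (d 4) (d 4))) (d 4)))) (s0 (d 3) (v 3)))) (by decide +kernel)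

theorem twoC06_184 : Cov (esE 6 194 330 183) ⟨0, 274877906944⟩ ⟨1043161656852, 1303952071065⟩ ⟨527765581331, 571746046442⟩ :=
  Cov.of (open T in (s0 (s1 (s2 (s0 (s1 (s0 (d 6) (d 4)) (s0 (d 5) (d 4))) (d 4)) (s0 (s0 (s0 (d 4) (d 4)) (d 4)) (d 4))) (s2 (s0 (s0 (d 6) (d 4)) (d 4)) (s0 (s0 (d 5) (d 4)) (d 4)))) (s0 (d 3) (v 3)))) (by decide +kernel)

theorem twoC06_185 : Cov (esE 6 194 330 183) ⟨0, 274877906944⟩ ⟨1303952071065, 1564742485278⟩ ⟨483785116220, 571746046442⟩ :=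
  Cov.of (open T in (s2 (s0 (s1 (s2 (s0 (s1 (s2 (s0 (d 4) (d 4)) (s0 (d 4) (v 4))) (s0 (d 4) (v 4))) (d 4)) (s0 (s0 (d 5) (d 4)) (d 4))) (s2 (s0 (s1 (s0 (d 4) (v 4)) (s0 (d 4) (d 3))) (d 3)) (s0 (s0 (d 4) (v 4)) (d 3)))) (d 4)) (s0 (s1 (s2 (s0 (s0 (d 4) (d 4)) (d 3)) (s0 (s0 (d 4) (d 4)) (d 3))) (s2 (s0 (s0 (d 4) (v 4)) (d 3)) (s0 (s0 (d 4) (d 3)) (d 3)))) (d 4)))) (by decide +kernel)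

theorem twoC06_186 : Cov (esE 6 194 330 183) ⟨274877906944, 549755813888⟩ ⟨1043161656852, 1564742485278⟩ ⟨483785116220, 571746046442⟩ :=
  Cov.of (open T in (s1 (s0 (v 3) (v 3)) (v 4))) (by decide +kernel)

theorem twoC06_187 : Cov (esE 6 194 330 183) ⟨0, 549755813888⟩ ⟨1564742485278, 2086323313705⟩ ⟨483785116220, 571746046442⟩ :=
  Cov.of (open T in (s0 (s2 (s1 (s0 (s1 (s2 (s0 (s0 (d 4) (d 3)) (d 3)) (s0 (s0 (d 4) (d 3)) (d 3))) (s2 (s0 (d 5) (v 3)) (s0 (d 5) (v 3)))) (d 3)) (s0 (s2 (s1 (s0 (d 4) (v 3)) (s0 (v 4) (v 3))) (s1 (s0 (d 4) (v 3)) (s0 (v 4) (v 3)))) (v 3))) (s1 (s0 (s1 (s2 (s0 (s0 (d 4) (d 3)) (d 3)) (s0 (d 6) (v 3))) (s2 (s0 (d 4) (v 3)) (s0 (d 4) (v 3)))) (v 3)) (s0 (s2 (s1 (s0 (d 4) (v 3)) (s0 (v 4) (v 3))) (s1 (s0 (d 4)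 (v 3)) (s0 (v 4) (v 3)))) (v 3)))) (v 3))) (by decide +kernel)

theorem twoC06_188 : Cov (esE 6 194 330 183) ⟨549755813888, 1099511627776⟩ ⟨1043161656852, 2086323313705⟩ ⟨395824185998, 571746046442⟩ :=
  Cov.of (open T in (s2 (v 2) (s1 (s0 (v 3) (v 2)) (v 3)))) (by decide +kernel)

theorem twoC06_192 : Cov (esE 6 194 330 183) ⟨0, 549755813888⟩ ⟨1043161656852, 1564742485278⟩ ⟨571746046442, 659706976664⟩ :=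
  Cov.of (open T in (s0 (s1 (s2 (s0 (s1 (s2 (s0 (s0 (d 6) (d 4)) (d 4)) (s0 (s0 (d 5) (d 4)) (d 4))) (s2 (s0 (s0 (d 4) (d 4)) (d 4)) (s0 (s0 (d 4) (d 4)) (d 3)))) (s0 (d 3) (v 3))) (s0 (s1 (s2 (s0 (s0 (d 5) (d 4)) (d 4)) (s0 (s0 (d 4) (d 4)) (d 4))) (s2 (s0 (s0 (d 4) (d 4)) (d 3)) (s0 (s0 (d 4) (v 4)) (d 3)))) (d 4))) (s2 (s0 (s1 (s2 (s0 (s0 (d 4) (v 4)) (d 3)) (s0 (s0 (d 4) (v 4)) (d 3))) (s2 (s0 (s0 (d 4) (d 3)) (d 3)) (s0 (s0 (d 4) (d 3)) (d 3)))) (d 3)) (s0 (s1 (s2 (s0 (s0 (d 4) (d 3)) (d 3)) (s0 (s0 (d 4) (d 3)) (d 3))) (s2 (s0 (s0 (d 4) (d 3)) (d 3)) (s0 (d 6) (v 3)))) (d 3)))) (s0 (d 3) (v 3)))) (by decide +kernel)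

theorem twoC06_193 : Cov (esE 6 194 330 183) ⟨0, 549755813888⟩ ⟨1043161656852, 1564742485278⟩ ⟨659706976664, 747667906887⟩ :=
  Cov.of (open T in (s0 (s1 (s2 (s0 (s1 (s2 (s0 (s0 (d 4) (d 4)) (d 3)) (s0 (s0 (d 4) (d 4)) (d 3))) (s2 (s0 (s0 (d 4) (v 4)) (d 3)) (s0 (s0 (d 4) (d 3)) (d 3)))) (d 4)) (s0 (s1 (s0 (s0 (d 4) (d 4)) (d 3)) (s0 (s0 (d 4) (d 3)) (d 3))) (d 4))) (s2 (s0 (s1 (s0 (s0 (d 4) (d 3)) (d 3)) (s0 (d 5) (v 3))) (d 3)) (s0 (s0 (s0 (d 4) (d 3)) (d 3)) (v 3)))) (s0 (v 3) (v 3)))) (by decide +kernel)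

theorem twoC06_194 : Cov (esE 6 194 330 183) ⟨0, 549755813888⟩ ⟨1564742485278, 2086323313705⟩ ⟨571746046442, 747667906887⟩ :=
  Cov.of (open T in (s2 (s0 (s1 (s2 (s0 (s1 (s2 (s0 (d 5) (v 3)) (s0 (d 4) (v 3))) (s0 (d 4) (v 3))) (v 3)) (s0 (s1 (s0 (d 4) (v 3)) (s0 (d 4) (v 3))) (v 3))) (s2 (s0 (s1 (s0 (d 4) (v 3)) (s0 (v 4) (v 3))) (v 3)) (s0 (s0 (d 4) (v 3)) (v 3)))) (v 3)) (s0 (s1 (s2 (s0 (s0 (d 6) (d 3)) (v 3)) (s0 (s0 (d 4) (v 3)) (v 3))) (s2 (s0 (s0 (d 4) (v 3)) (v 3)) (s0 (s0 (v 4) (v 3)) (v 3)))) (v 3)))) (by decide +kernel)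

theorem twoC06_195 : Cov (esE 6 194 330 183) ⟨549755813888, 1099511627776⟩ ⟨1043161656852, 2086323313705⟩ ⟨571746046442, 747667906887⟩ :=
  Cov.of (open T in (s1 (s0 (v 3) (v 2)) (v 3))) (by decide +kernel)

theorem twoC06_196 : Cov (esE 6 194 330 183) ⟨0, 1099511627776⟩ ⟨1043161656852, 2086323313705⟩ ⟨747667906887, 1099511627776⟩ :=
  Cov.of (open T in (s2 (s0 (s1 (s2 (s0 (s1 (s0 (s2 (s1 (s0 (s0 (d 4) (d 3)) (d 3)) (s0 (s0 (d 4) (d 3)) (d 3))) (s0 (s0 (d 4) (d 3)) (d 3))) (d 3)) (s2 (s0 (s0 (s0 (d 4) (d 3)) (d 3)) (v 3)) (s0 (s0 (s0 (d 4) (d 3)) (d 3)) (v 3)))) (s0 (v 3) (v 3))) (s0 (s1 (s0 (s0 (s0 (d 4) (d 3)) (d 3)) (d 3)) (s0 (s0 (s0 (d 4) (d 3)) (d 3)) (v 3))) (s0 (v 3) (v 3)))) (s2 (s0 (s1 (s2 (s0 (s0 (d 4) (v 3)) (v 3)) (s0 (s0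 (d 4) (v 3)) (v 3))) (s2 (s0 (s0 (v 4) (v 3)) (v 3)) (s0 (s0 (v 4) (v 3)) (v 3)))) (v 3)) (s0 (s1 (s2 (s0 (s0 (d 4) (v 3)) (v 3)) (s0 (s0 (v 4) (v 3)) (v 3))) (s2 (s0 (s0 (v 4) (v 3)) (v 3)) (s0 (s0 (d 3) (v 3)) (v 3)))) (v 3)))) (s0 (v 3) (v 3))) (s0 (s1 (s0 (s1 (s2 (s0 (s0 (s0 (d 4) (d 3)) (d 3)) (v 3)) (s0 (s0 (d 5) (d 3)) (v 3))) (s2 (s0 (s0 (d 4) (v 3)) (v 3)) (s0 (s0 (d 4) (v 3)) (v 3)))) (v 4)) (s2 (s0 (s1 (s2 (s0 (s0 (v 4) (v 3)) (v 3)) (s0 (s0 (v 4) (v 3)) (v 3))) (s2 (s0 (v 4) (v 3)) (s0 (v 4) (v 3)))) (v 3)) (s0 (s1 (s0 (s0 (v 4) (v 3)) (v 3)) (s2 (s0 (v 4) (v 3)) (s0 (v 4) (v 3)))) (v 3)))) (v 3)))) (by decide +kernel)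

theorem twoC06_197 : Cov (esE 6 194 330 183) ⟨0, 1099511627776⟩ ⟨2086323313705, 4172646627410⟩ ⟨395824185998, 1099511627776⟩ :=
  Cov.of (open T in (s2 (s2 (s1 (s2 (s0 (s1 (s2 (v 1) (s0 (s1 (s2 (v 1) (s0 (s1 (s2 (v 1) (s0 (d 1) (d 1))) (d 1)) (d 1))) (s2 (v 1) (d 1))) (v 3))) (s2 (v 1) (s0 (s1 (d 1) (d 1)) (d 1)))) (v 2)) (s0 (s1 (s2 (s0 (s1 (s2 (s0 (s1 (s2 (s0 (v 4) (v 3)) (s0 (v 4) (v 3))) (v 6)) (v 3)) (s0 (s1 (s0 (v 4) (v 3)) (v 5)) (v 3))) (s2 (s0 (v 5) (v 3)) (s0 (v 4) (v 3)))) (v 3)) (s0 (s1 (s0 (s0 (v 4) (v 3)) (v 3)) (s2 (s0 (v 4) (v 3)) (s0 (v 4) (v 3)))) (v 3))) (s2 (s0 (s1 (s2 (s0 (v 4) (v 3)) (s0 (v 4) (v 3))) (v 4)) (v 3)) (s0 (s1 (s2 (s0 (v 3) (v 3)) (s0 (v 3) (v 3))) (v 4)) (v 3)))) (v 3))) (s2 (s0 (s2 (v 1) (s1 (d 1)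 (d 1))) (v 2)) (s0 (s1 (s2 (s0 (v 4) (v 3)) (s0 (v 3) (v 3))) (v 3)) (v 3)))) (s1 (s0 (s2 (s1 (s0 (s2 (s1 (s0 (s0 (v 4) (v 3)) (v 3)) (s0 (v 4) (v 3))) (s1 (s0 (s0 (v 4) (v 3)) (v 3)) (s0 (v 4) (v 3)))) (v 3)) (s2 (s0 (s1 (s2 (s0 (v 3) (v 3)) (s0 (v 3) (v 3))) (v 4)) (v 3)) (s0 (s1 (s0 (v 3) (v 3)) (v 3)) (v 3)))) (s1 (s0 (s1 (s2 (s0 (s0 (v 4) (v 3)) (v 3)) (s0 (v 5) (v 3))) (s2 (s0 (v 4) (v 3)) (s0 (v 4) (v 3)))) (v 3)) (s0 (s2 (s1 (v 4) (v 3)) (s1 (v 4) (v 3))) (v 3)))) (v 3)) (s2 (s0 (s1 (s2 (s0 (v 3) (v 3)) (s0 (v 3) (v 3))) (v 3)) (v 3)) (s0 (s1 (s2 (s0 (v 3) (v 3)) (s0 (v 3) (v 3))) (v 3)) (v 3))))) (s1 (s2 (s0 (s1 (s2 (s0 (s1 (s2 (s0 (v 4) (v 3)) (s0 (v 4) (v 3))) (s2 (s0 (v 3) (v 3)) (s0 (v 3) (v 3)))) (v 3)) (s0 (s1 (s2 (s0 (v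 4) (v 3)) (s0 (v 4) (v 3))) (s0 (v 3) (v 3))) (v 3))) (s2 (s0 (s1 (v 4) (v 3)) (v 3)) (s0 (v 4) (v 3)))) (v 3)) (s0 (s1 (s2 (s0 (s1 (s0 (v 4) (v 3)) (v 4)) (v 3)) (s0 (s1 (s0 (v 3) (v 3)) (v 4)) (v 3))) (s2 (s0 (v 4) (v 3)) (s0 (v 3) (v 3)))) (v 3))) (s2 (s2 (s0 (s1 (s0 (v 3) (v 3)) (v 3)) (v 3)) (s0 (s1 (v 4) (v 3)) (v 3))) (s0 (s1 (v 4) (v 3)) (v 3)))))) (by decide +kernel)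

end Ent
end Pool.Agent.Lib.MP_6947cd_al
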