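import Pool.Agent.Lib.MP_6947cd_al.T.TwoNum

/-!
Problem MP_6947cd_al (Chollet).  The numerical condition of the two-entry loss, level 7 / 10.
-/

set_option autoImplicit false

namespace Pool.Agent.Lib.MP_6947cd_al
namespace Ent
open IA

theorem twoC07_12 : Cov (esE 7 186 310 212) ⟨0, 137438953472⟩ ⟨0, 133556303036⟩ ⟨538760697609, 608854563879⟩ :=
  Cov.of (open T in (s0 (s2 (s1 (s0 (s1 (s2 (s0 (s1 (s2 (s0 (s1 (v 0) (v 3)) (v 3)) (s0 (s1 (v 0) (v 3)) (v 3))) (v 3)) (v 3)) (s0 (s1 (s2 (s0 (s1 (v 0) (v 3)) (v 3)) (s0 (s1 (v 0) (v 3)) (v 3))) (v 3)) (v 3))) (s2 (s0 (v 3) (v 3)) (s0 (v 3) (v 3)))) (s2 (s1 (s0 (v 3) (d 3)) (s0 (d 3) (d 3))) (s1 (s0 (v 3) (d 3)) (s0 (d 3) (d 3))))) (s0 (s2 (s1 (s0 (v 3) (d 3)) (s0 (v 4) (d 3))) (s1 (s0 (v 3) (d 3)) (s0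 (d 3) (d 3)))) (s2 (s1 (s0 (d 3) (d 3)) (s0 (d 1) (d 1))) (s1 (s0 (d 3) (d 3)) (s0 (d 3) (d 3)))))) (s1 (s0 (s1 (s2 (s0 (s1 (s2 (s0 (s1 (v 0) (v 3)) (v 3)) (s0 (s1 (v 0) (v 3)) (v 3))) (v 3)) (v 3)) (s0 (s1 (s2 (s0 (s1 (v 0) (v 3)) (v 3)) (s0 (s1 (v 0) (v 3)) (v 3))) (v 3)) (v 3))) (s2 (s0 (v 3) (v 3)) (s0 (v 3) (v 3)))) (s1 (s0 (v 3) (d 3)) (s0 (d 3) (d 3)))) (s0 (s2 (s1 (s0 (v 3) (d 3)) (s0 (d 3) (d 3))) (s1 (s0 (v 3) (v 3)) (s0 (d 3) (d 3)))) (s0 (d 4) (d 3))))) (s2 (s1 (s0 (s2 (s1 (s0 (d 3) (d 3)) (s0 (d 3) (d 3))) (s1 (s0 (d 3) (d 3)) (s0 (d 3) (d 3)))) (s2 (s1 (s0 (d 3) (d 3)) (d 1)) (s0 (d 3) (d 3)))) (s2 (s0 (s1 (d 1) (d 1)) (d 1)) (s0 (s1 (s0 (d 3) (d 3)) (s0 (d 3) (d 3))) (s0 (d 3) (d 3))))) (s1 (s0 (s0 (d 3) (d 3)) (s0 (d 3) (d 3)))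 (s0 (s0 (d 3) (d 3)) (s0 (d 3) (d 3))))))) (by decide +kernel)

theorem twoC07_14 : Cov (esE 7 186 310 212) ⟨0, 137438953472⟩ ⟨133556303036, 267112606072⟩ ⟨538760697609, 573807630744⟩ :=
  Cov.of (open T in (s0 (s1 (s2 (s0 (s1 (s0 (d 1) (d 1)) (d 1)) (d 1)) (s0 (s1 (s0 (s0 (v 3) (d 3)) (d 3)) (s2 (s0 (s1 (d 3) (d 3)) (d 4)) (s0 (s0 (d 3) (d 3)) (d 4)))) (s1 (s2 (s0 (d 3) (d 3)) (s0 (d 3) (d 3))) (s2 (s0 (d 4) (d 1)) (s0 (d 4) (d 4)))))) (s2 (d 1) (s0 (s1 (s2 (s0 (s1 (s2 (d 1) (s0 (d 3) (d 3))) (d 1)) (d 1)) (s0 (s1 (s0 (d 3) (d 3)) (s0 (d 3) (d 3))) (d 4))) (s2 (d 1) (s0 (s1 (s2 (s0 (v 4) (v 4)) (s0 (v 4) (v 4))) (s2 (s0 (v 4) (d 4)) (s0 (v 4) (v 4)))) (d 4)))) (s1 (s2 (d 1) (s0 (d 4) (d 4))) (s2 (d 1) (s0 (d 4) (d 4))))))) (s1 (s2 (d 1) (s0 (s1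 (s2 (s0 (d 3) (d 1)) (s0 (d 3) (d 3))) (s2 (d 1) (s0 (d 4) (d 3)))) (s1 (s0 (d 3) (d 3)) (s0 (d 3) (d 3))))) (s2 (d 1) (s0 (s1 (s2 (d 1) (s0 (d 4) (d 4))) (s2 (d 1) (s0 (d 4) (d 4)))) (s1 (s2 (d 1) (s0 (d 4) (d 3))) (d 1))))))) (by decide +kernel)

theorem twoC07_16 : Cov (esE 7 186 310 212) ⟨0, 68719476736⟩ ⟨133556303036, 267112606072⟩ ⟨573807630744, 608854563879⟩ :=
  Cov.of (open T in (s1 (s0 (s2 (s1 (s0 (d 3) (d 3)) (s0 (s0 (d 3) (d 3)) (d 4))) (s1 (s0 (d 3) (d 3)) (s0 (s0 (d 3) (d 3)) (d 3)))) (s0 (d 4) (d 4))) (s2 (s0 (s1 (s2 (s0 (s1 (s0 (d 3) (d 3)) (s0 (d 3) (d 3))) (d 4)) (s0 (s0 (d 3) (d 3)) (d 4))) (s2 (s0 (s1 (s0 (v 4) (v 4)) (s0 (v 4) (v 4))) (d 4)) (s0 (s0 (v 4) (d 4)) (d 4)))) (s1 (s0 (d 4) (d 4)) (s2 (s0 (d 4) (d 4)) (s0 (d 4) (d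 4))))) (s0 (s1 (s2 (s0 (s0 (d 3) (d 3)) (d 4)) (s0 (s0 (d 3) (d 3)) (d 4))) (s2 (s0 (s0 (v 4) (d 4)) (d 4)) (s0 (s0 (v 4) (v 4)) (d 4)))) (s0 (d 4) (d 4)))))) (by decide +kernel)

theorem twoC07_17 : Cov (esE 7 186 310 212) ⟨68719476736, 137438953472⟩ ⟨133556303036, 267112606072⟩ ⟨573807630744, 608854563879⟩ :=
  Cov.of (open T in (s1 (s2 (s0 (s0 (d 4) (d 4)) (s0 (d 3) (d 3))) (s0 (s0 (d 4) (d 3)) (s0 (d 3) (d 3)))) (s2 (s0 (s0 (d 4) (d 4)) (s0 (d 4) (d 4))) (s0 (s0 (d 4) (d 4)) (d 6))))) (by decide +kernel)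

theorem twoC07_19 : Cov (esE 7 186 310 212) ⟨0, 137438953472⟩ ⟨0, 133556303036⟩ ⟨608854563879, 678948430150⟩ :=
  Cov.of (open T in (s0 (s1 (s2 (s0 (s1 (s2 (s0 (s1 (s2 (s0 (s1 (v 0) (v 3)) (v 3)) (s0 (s1 (v 0) (v 3)) (v 3))) (v 3)) (v 3)) (s0 (s1 (s2 (s0 (s1 (v 0) (v 3)) (v 3)) (s0 (s1 (v 0) (v 3)) (v 3))) (v 3)) (v 3))) (s2 (s0 (v 3) (v 3)) (s0 (v 3) (v 3)))) (s0 (d 3) (d 3))) (s0 (s1 (s2 (s0 (s1 (s2 (s0 (s1 (v 0) (v 3)) (v 3)) (s0 (s1 (v 0) (v 3)) (v 3))) (v 3)) (v 3)) (s0 (s1 (s2 (s0 (s1 (v 0) (v 3)) (v 3)) (s0 (s1 (v 0) (v 3)) (v 3))) (v 3)) (v 3))) (s2 (s0 (v 3) (v 3)) (s0 (v 3) (v 3)))) (s0 (v 3) (d 3)))) (s2 (s0 (s2 (s1 (s0 (v 3) (v 3)) (s0 (v 3) (d 3))) (s1 (s0 (v 3) (v 3)) (s0 (v 3) (d 3)))) (s0 (d 3) (d 3))) (s0 (s1 (s2 (s0 (v 3) (v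 3)) (s0 (v 3) (v 3))) (s0 (v 3) (d 3))) (s0 (d 3) (d 3))))) (s2 (s1 (s0 (s0 (d 3) (d 3)) (s0 (d 3) (d 3))) (s0 (s0 (d 3) (d 3)) (d 6))) (s1 (s0 (s0 (d 3) (d 3)) (d 3)) (s0 (d 4) (d 3)))))) (by decide +kernel)

theorem twoC07_20 : Cov (esE 7 186 310 212) ⟨0, 137438953472⟩ ⟨133556303036, 267112606072⟩ ⟨608854563879, 678948430150⟩ :=
  Cov.of (open T in (s0 (s2 (s1 (s0 (s2 (s1 (s0 (d 3) (d 3)) (s0 (d 3) (d 3))) (s1 (s0 (d 3) (d 3)) (s0 (d 3) (d 3)))) (s0 (d 4) (d 3))) (s2 (s0 (s1 (s0 (s0 (d 3) (d 3)) (d 4)) (s2 (s0 (s0 (v 4) (v 4)) (d 4)) (s0 (s0 (v 4) (v 4)) (d 4)))) (s0 (d 4) (d 4))) (s0 (s1 (s0 (s0 (d 3) (d 3)) (d 3)) (s0 (s0 (d 3) (d 3)) (d 4))) (s0 (d 4) (d 4))))) (s1 (s0 (s2 (s1 (s0 (d 3) (d 3)) (s0 (d 3) (d 3))) (s1 (s0 (d 3) (d 3)) (s0 (d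 3) (d 3)))) (s0 (d 3) (d 3))) (s0 (s0 (s0 (v 4) (d 4)) (d 4)) (s0 (d 4) (d 3))))) (s0 (s0 (s1 (d 3) (d 4)) (s1 (d 3) (d 4))) (s0 (d 4) (d 4))))) (by decide +kernel)

theorem twoC07_21 : Cov (esE 7 186 310 212) ⟨137438953472, 274877906944⟩ ⟨0, 267112606072⟩ ⟨538760697609, 678948430150⟩ :=
  Cov.of (open T in (s2 (s1 (s2 (s0 (s1 (s2 (s0 (s1 (d 1) (d 1)) (d 1)) (s0 (s0 (d 3) (d 3)) (s0 (d 3) (d 3)))) (s2 (d 1) (s0 (s0 (d 3) (d 3)) (s0 (d 3) (d 3))))) (s1 (s2 (d 1) (s0 (s0 (d 3) (d 3)) (s0 (d 3) (d 3)))) (s2 (d 1) (s0 (s0 (d 3) (d 3)) (d 3))))) (s0 (s1 (s0 (s0 (d 3) (d 3)) (s0 (d 3) (d 3))) (s0 (s0 (d 3) (d 3)) (d 4))) (s0 (s0 (d 3) (d 3)) (s0 (d 3) (d 3))))) (s2 (s0 (s1 (s2 (d 1) (s0 (s0 (d 3) (d 3)) (s0 (d 3) (d 3)))) (s2 (v 1) (s0 (s1 (d 1) (d 1))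 (d 1)))) (s1 (s2 (v 1) (s0 (d 1) (d 1))) (d 1))) (s0 (s1 (s0 (s0 (d 3) (d 3)) (d 4)) (s0 (s0 (d 3) (d 3)) (d 3))) (s0 (s0 (d 3) (d 3)) (d 3))))) (s1 (s0 (s0 (s0 (d 3) (d 3)) (s0 (d 3) (d 3))) (s0 (s0 (d 3) (d 3)) (s0 (d 3) (d 3)))) (s2 (s0 (s0 (s0 (d 3) (d 3)) (d 3)) (s0 (d 3) (d 3))) (s0 (s0 (d 3) (d 3)) (s0 (d 3) (d 3))))))) (by decide +kernel)

theorem twoC07_26 : Cov (esE 7 186 310 212) ⟨0, 137438953472⟩ ⟨267112606072, 400668909108⟩ ⟨538760697609, 573807630744⟩ :=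
  Cov.of (open T in (s0 (s1 (s2 (d 1) (s0 (s1 (s2 (d 1) (s0 (s1 (s2 (d 1) (s0 (v 4) (d 4))) (s2 (d 1) (s0 (v 4) (d 4)))) (d 6))) (s2 (d 1) (s0 (s1 (s2 (d 1) (s0 (d 4) (d 4))) (s2 (d 1) (s0 (d 4) (d 1)))) (s1 (d 5) (d 1))))) (s1 (s2 (d 1) (s0 (d 4) (d 4))) (d 1)))) (s2 (d 1) (s0 (s1 (d 1) (d 1)) (d 1)))) (s1 (s2 (d 1) (s0 (s1 (d 1) (d 1)) (d 1))) (d 1)))) (by decide +kernel)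

theorem twoC07_29 : Cov (esE 7 186 310 212) ⟨0, 68719476736⟩ ⟨267112606072, 333890757590⟩ ⟨573807630744, 608854563879⟩ :=
  Cov.of (open T in (s2 (s0 (s1 (s2 (s0 (s1 (s0 (v 4) (d 4)) (s0 (v 4) (d 4))) (d 4)) (s0 (s0 (d 4) (d 4)) (d 4))) (s2 (s0 (s1 (s2 (s0 (d 4) (d 4)) (s0 (d 4) (d 4))) (s2 (s0 (d 4) (d 4)) (s0 (d 4) (d 4)))) (d 6)) (s0 (s0 (d 4) (d 4)) (d 5)))) (s1 (s2 (s0 (d 4) (d 4)) (s0 (d 4) (d 4))) (s2 (s0 (d 5) (d 4)) (s0 (d 4) (d 4))))) (s0 (s1 (s2 (s0 (s0 (d 4) (d 4)) (d 4)) (s0 (s0 (v 4) (d 4)) (d 4))) (s2 (s0 (s0 (d 4) (d 4)) (d 4)) (s0 (s0 (d 4) (d 4)) (d 4)))) (s0 (d 6) (d 4))))) (by decide +kernel)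

theorem twoC07_32 : Cov (esE 7 186 310 212) ⟨0, 34359738368⟩ ⟨333890757590, 400668909108⟩ ⟨573807630744, 591331097311⟩ :=
  Cov.of (open T in (s1 (s2 (s0 (s1 (s2 (s0 (d 4) (d 4)) (s0 (d 4) (d 4))) (s2 (s0 (d 4) (d 4)) (s0 (d 4) (d 4)))) (s0 (d 4) (d 4))) (s0 (s1 (s0 (d 4) (d 4)) (s0 (d 4) (d 4))) (d 6))) (s2 (s0 (s1 (s2 (s0 (d 4) (d 4)) (s0 (d 4) (d 4))) (s2 (s0 (d 4) (d 1)) (s0 (d 4) (d 4)))) (s0 (d 4) (d 4))) (s0 (s1 (s2 (s0 (d 4) (d 4)) (s0 (d 4) (d 4))) (s2 (s0 (d 4) (d 4)) (s0 (d 4) (d 4)))) (s0 (d 4) (d 4)))))) (by decide +kernel)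

theorem twoC07_33 : Cov (esE 7 186 310 212) ⟨34359738368, 68719476736⟩ ⟨333890757590, 400668909108⟩ ⟨573807630744, 591331097311⟩ :=
  Cov.of (open T in (s1 (s2 (s0 (d 6) (d 4)) (s0 (d 5) (d 4))) (s2 (s0 (d 6) (d 5)) (s0 (d 6) (d 4))))) (by decide +kernel)

theorem twoC07_34 : Cov (esE 7 186 310 212) ⟨0, 68719476736⟩ ⟨333890757590, 400668909108⟩ ⟨591331097311, 608854563879⟩ :=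
  Cov.of (open T in (s0 (s1 (s2 (s0 (s0 (d 4) (d 4)) (d 6)) (s0 (s0 (d 4) (d 4)) (d 4))) (s2 (s0 (s0 (d 4) (d 4)) (d 6)) (s0 (s0 (d 4) (d 4)) (d 6)))) (s0 (s0 (d 4) (d 4)) (d 5)))) (by decide +kernel)

theorem twoC07_35 : Cov (esE 7 186 310 212) ⟨68719476736, 137438953472⟩ ⟨267112606072, 400668909108⟩ ⟨573807630744, 608854563879⟩ :=
  Cov.of (open T in (s1 (s2 (s0 (s0 (d 4) (d 4)) (s0 (d 4) (d 4))) (s0 (s0 (d 4) (d 4)) (d 6))) (s2 (s0 (s1 (s0 (d 4) (d 4)) (s0 (d 4) (d 4))) (s0 (d 4) (d 4))) (s0 (s0 (d 4) (d 4)) (d 5))))) (by decide +kernel)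

theorem twoC07_37 : Cov (esE 7 186 310 212) ⟨0, 137438953472⟩ ⟨400668909108, 534225212145⟩ ⟨538760697609, 573807630744⟩ :=
  Cov.of (open T in (s0 (d 1) (d 1))) (by decide +kernel)

theorem twoC07_42 : Cov (esE 7 186 310 212) ⟨0, 34359738368⟩ ⟨400668909108, 467447060626⟩ ⟨573807630744, 591331097311⟩ :=
  Cov.of (open T in (s1 (s2 (s0 (s1 (s2 (d 1) (s0 (d 4) (d 4))) (s2 (d 1) (s0 (d 4) (d 4)))) (s1 (s0 (d 4) (d 4)) (s2 (d 1) (s0 (d 4) (d 4))))) (s0 (s1 (s2 (s0 (d 4) (d 4)) (s0 (d 4) (d 4))) (s2 (s0 (d 4) (d 4)) (s0 (d 4) (d 4)))) (s0 (d 4) (d 4)))) (s2 (s0 (s1 (s2 (d 1) (s0 (d 4) (d 4))) (s2 (d 1) (s0 (d 4) (d 5)))) (s1 (s2 (d 1) (s0 (d 4) (d 4))) (s2 (v 1) (s0 (d 1) (d 1))))) (s0 (s1 (s2 (s0 (d 4) (d 4)) (s0 (d 4) (d 4))) (s2 (s0 (d 4) (d 4))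 (s0 (d 4) (d 4)))) (s0 (d 5) (d 5)))))) (by decide +kernel)

theorem twoC07_43 : Cov (esE 7 186 310 212) ⟨34359738368, 68719476736⟩ ⟨400668909108, 467447060626⟩ ⟨573807630744, 591331097311⟩ :=
  Cov.of (open T in (s1 (s2 (s0 (s0 (d 4) (d 4)) (d 6)) (s0 (d 6) (d 5))) (s2 (s0 (s1 (d 6) (d 1)) (d 1)) (s0 (d 6) (d 5))))) (by decide +kernel)

theorem twoC07_44 : Cov (esE 7 186 310 212) ⟨0, 68719476736⟩ ⟨400668909108, 467447060626⟩ ⟨591331097311, 608854563879⟩ :=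
  Cov.of (open T in (s0 (s1 (s2 (s0 (s1 (s0 (d 4) (d 4)) (s0 (d 4) (d 4))) (s0 (d 4) (d 4))) (s0 (s0 (d 4) (d 4)) (d 6))) (s2 (s0 (s1 (s0 (d 4) (d 4)) (s0 (d 4) (d 4))) (s0 (d 4) (d 4))) (s0 (s0 (d 4) (d 4)) (d 6)))) (s0 (s0 (d 4) (d 4)) (d 6)))) (by decide +kernel)

theorem twoC07_46 : Cov (esE 7 186 310 212) ⟨0, 68719476736⟩ ⟨467447060626, 534225212145⟩ ⟨573807630744, 591331097311⟩ :=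
  Cov.of (open T in (s0 (s1 (s2 (s0 (s1 (s2 (v 1) (s0 (d 5) (d 1))) (d 1)) (d 1)) (s0 (s1 (s2 (s0 (d 5) (d 5)) (s0 (d 4) (d 4))) (s2 (s0 (d 5) (d 5)) (s0 (d 5) (d 5)))) (s0 (d 5) (d 5)))) (s2 (d 1) (s0 (s1 (s2 (s0 (d 6) (d 5)) (s0 (d 5) (d 5))) (s2 (s0 (d 6) (d 6)) (s0 (d 6) (d 5)))) (s0 (d 6) (d 5))))) (s1 (s2 (d 1) (s0 (d 6) (d 5))) (s2 (d 1) (s0 (s0 (d 5) (d 4)) (d 5)))))) (by decide +kernel)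

theorem twoC07_47 : Cov (esE 7 186 310 212) ⟨0, 68719476736⟩ ⟨467447060626, 534225212145⟩ ⟨591331097311, 608854563879⟩ :=
  Cov.of (open T in (s0 (s1 (s2 (s0 (s1 (s2 (s0 (d 4) (d 4)) (s0 (d 4) (d 4))) (s2 (s0 (d 4) (d 4)) (s0 (d 4) (d 4)))) (s0 (d 5) (d 4))) (s0 (s0 (d 4) (d 4)) (d 6))) (s2 (s0 (s1 (s2 (s0 (d 5) (d 5)) (s0 (d 4) (d 4))) (s2 (s0 (d 5) (d 5)) (s0 (d 5) (d 5)))) (s0 (d 5) (d 5))) (s0 (s0 (d 5) (d 5)) (s0 (d 4) (d 4))))) (s1 (s0 (d 6) (d 4)) (s0 (d 6) (d 4))))) (by decide +kernel)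

end Ent
end Pool.Agent.Lib.MP_6947cd_al
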