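import Pool.Agent.Lib.MP_6947cd_al.T.TwoNum

/-!
Problem MP_6947cd_al (Chollet).  The numerical condition of the two-entry loss, level 7 / 10.
-/

set_option autoImplicit false

namespace Pool.Agent.Lib.MP_6947cd_al
namespace Ent
open IA

theorem twoC07_48 : Cov (esE 7 186 310 212) ⟨68719476736, 137438953472⟩ ⟨400668909108, 534225212145⟩ ⟨573807630744, 608854563879⟩ :=
  Cov.of (open T in (s1 (s2 (s0 (s1 (s0 (d 4) (d 4)) (s2 (d 1) (s0 (d 4) (d 4)))) (s0 (d 4) (d 4))) (s0 (s0 (d 4) (d 4)) (d 4))) (s2 (s0 (s1 (s2 (d 1) (s0 (d 4) (d 4))) (s2 (d 1) (s0 (d 4) (d 4)))) (d 4)) (s0 (s0 (d 4) (d 4)) (d 4))))) (by decide +kernel)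

theorem twoC07_49 : Cov (esE 7 186 310 212) ⟨137438953472, 274877906944⟩ ⟨267112606072, 534225212145⟩ ⟨538760697609, 608854563879⟩ :=
  Cov.of (open T in (s1 (s2 (s0 (d 1) (d 1)) (s0 (s1 (s0 (d 4) (d 3)) (s0 (d 4) (d 3))) (s0 (d 3) (d 3)))) (s2 (d 1) (s0 (s1 (s0 (d 4) (d 3)) (s0 (d 4) (d 3))) (d 4))))) (by decide +kernel)

theorem twoC07_55 : Cov (esE 7 186 310 212) ⟨0, 68719476736⟩ ⟨267112606072, 333890757590⟩ ⟨608854563879, 643901497014⟩ :=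
  Cov.of (open T in (s2 (s0 (s1 (s2 (s0 (s0 (v 4) (d 4)) (d 4)) (s0 (s0 (v 4) (d 4)) (d 4))) (s2 (s0 (s0 (d 4) (d 4)) (d 4)) (s0 (s0 (d 4) (d 4)) (d 4)))) (s0 (d 4) (d 4))) (s0 (s1 (s2 (s0 (s0 (v 4) (d 4)) (d 4)) (s0 (d 4) (d 4))) (s2 (s0 (s0 (d 4) (d 4)) (d 4)) (s0 (s0 (v 4) (d 4)) (d 4)))) (s0 (d 4) (d 4))))) (by decide +kernel)

theorem twoC07_56 : Cov (esE 7 186 310 212) ⟨0, 68719476736⟩ ⟨333890757590, 400668909108⟩ ⟨608854563879, 643901497014⟩ :=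
  Cov.of (open T in (s2 (s0 (s1 (s2 (s0 (s0 (d 4) (d 4)) (d 4)) (s0 (s0 (d 4) (d 4)) (d 4))) (s2 (s0 (s0 (d 4) (d 4)) (d 4)) (s0 (s0 (d 4) (d 4)) (d 4)))) (s0 (d 5) (d 4))) (s0 (s1 (s2 (s0 (s0 (d 4) (d 4)) (d 4)) (s0 (s0 (d 4) (d 4)) (d 4))) (s2 (s0 (s0 (d 4) (d 4)) (d 4)) (s0 (s0 (d 4) (d 4)) (d 4)))) (s0 (d 4) (d 4))))) (by decide +kernel)

theorem twoC07_57 : Cov (esE 7 186 310 212) ⟨68719476736, 137438953472⟩ ⟨267112606072, 400668909108⟩ ⟨608854563879, 643901497014⟩ :=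
  Cov.of (open T in (s1 (s0 (s0 (d 4) (d 4)) (d 4)) (s0 (s0 (d 4) (d 4)) (d 4)))) (by decide +kernel)

theorem twoC07_58 : Cov (esE 7 186 310 212) ⟨0, 137438953472⟩ ⟨267112606072, 400668909108⟩ ⟨643901497014, 678948430150⟩ :=
  Cov.of (open T in (s0 (s1 (s2 (s0 (s1 (s0 (d 4) (d 4)) (s2 (s0 (d 4) (d 4)) (s0 (d 4) (d 4)))) (s0 (d 4) (d 4))) (s0 (s0 (s0 (d 4) (d 4)) (d 4)) (s0 (d 4) (d 4)))) (s2 (s0 (s1 (s0 (s0 (d 4) (d 4)) (d 4)) (s0 (s0 (d 4) (d 4)) (d 4))) (s0 (d 4) (d 4))) (s0 (s0 (s0 (d 4) (d 4)) (d 4)) (s0 (d 4) (d 4))))) (s0 (s0 (d 4) (d 4)) (d 4)))) (by decide +kernel)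

theorem twoC07_62 : Cov (esE 7 186 310 212) ⟨0, 68719476736⟩ ⟨400668909108, 467447060626⟩ ⟨608854563879, 643901497014⟩ :=
  Cov.of (open T in (s2 (s0 (s1 (s2 (s0 (s0 (d 4) (d 4)) (d 5)) (s0 (s0 (d 4) (d 4)) (d 4))) (s2 (s0 (s0 (d 4) (d 4)) (d 6)) (s0 (s0 (d 4) (d 4)) (d 5)))) (s0 (d 5) (d 4))) (s0 (s1 (s2 (s0 (s0 (d 4) (d 4)) (d 4)) (s0 (s0 (d 4) (d 4)) (d 4))) (s2 (s0 (s0 (d 4) (d 4)) (d 4)) (s0 (s0 (d 4) (d 4)) (d 4)))) (s0 (d 4) (d 4))))) (by decide +kernel)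

theorem twoC07_63 : Cov (esE 7 186 310 212) ⟨0, 68719476736⟩ ⟨467447060626, 534225212145⟩ ⟨608854563879, 643901497014⟩ :=
  Cov.of (open T in (s2 (s0 (s1 (s2 (s0 (s0 (d 4) (d 4)) (d 6)) (s0 (s0 (d 4) (d 4)) (d 5))) (s2 (s0 (s0 (d 4) (d 4)) (d 6)) (s0 (s0 (d 4) (d 4)) (d 5)))) (s0 (d 6) (d 4))) (s0 (s1 (s2 (s0 (s0 (d 4) (d 4)) (d 4)) (s0 (s0 (d 4) (d 4)) (d 4))) (s0 (s0 (d 4) (d 4)) (d 5))) (s0 (d 4) (d 4))))) (by decide +kernel)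

theorem twoC07_64 : Cov (esE 7 186 310 212) ⟨68719476736, 137438953472⟩ ⟨400668909108, 534225212145⟩ ⟨608854563879, 643901497014⟩ :=
  Cov.of (open T in (s1 (s0 (s0 (d 4) (d 4)) (d 4)) (s0 (s0 (d 4) (d 4)) (d 4)))) (by decide +kernel)

theorem twoC07_65 : Cov (esE 7 186 310 212) ⟨0, 137438953472⟩ ⟨400668909108, 534225212145⟩ ⟨643901497014, 678948430150⟩ :=
  Cov.of (open T in (s0 (s1 (s2 (s0 (s1 (s0 (s0 (d 4) (d 4)) (d 4)) (s0 (s0 (d 4) (d 4)) (d 4))) (s0 (d 4) (d 4))) (s0 (s0 (s0 (d 4) (d 4)) (d 4)) (s0 (d 4) (d 4)))) (s2 (s0 (s0 (s0 (d 4) (d 4)) (d 4)) (s0 (d 4) (d 4))) (s0 (s0 (s0 (d 4) (d 4)) (d 4)) (s0 (d 4) (d 4))))) (s0 (s0 (d 4) (d 4)) (d 4)))) (by decide +kernel)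

theorem twoC07_66 : Cov (esE 7 186 310 212) ⟨137438953472, 274877906944⟩ ⟨267112606072, 534225212145⟩ ⟨608854563879, 678948430150⟩ :=
  Cov.of (open T in (s1 (s2 (s0 (s0 (d 4) (d 3)) (s0 (d 3) (d 3))) (s0 (s0 (d 3) (d 3)) (d 3))) (s2 (s0 (s0 (d 4) (d 3)) (d 3)) (s0 (s0 (d 3) (d 3)) (d 3))))) (by decide +kernel)

theorem twoC07_67 : Cov (esE 7 186 310 212) ⟨274877906944, 549755813888⟩ ⟨0, 534225212145⟩ ⟨538760697609, 678948430150⟩ :=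
  Cov.of (open T in (s1 (s2 (s0 (s1 (s2 (s0 (s1 (s2 (d 1) (s0 (s0 (d 3) (d 3)) (d 3))) (s2 (v 1) (s0 (d 1) (d 1)))) (s1 (s2 (v 1) (s0 (d 1) (d 1))) (d 1))) (s0 (s0 (s0 (d 3) (d 3)) (s0 (d 3) (d 3))) (s0 (d 3) (d 3)))) (s2 (d 1) (s0 (s0 (d 3) (d 3)) (d 3)))) (s1 (s2 (d 1) (s0 (d 3) (d 3))) (s0 (d 3) (d 3)))) (s0 (s1 (s0 (s0 (d 3) (d 3)) (s0 (d 3) (d 3))) (s0 (s0 (d 3) (d 3)) (d 3))) (s0 (s0 (d 3) (d 3)) (d 3)))) (s2 (s0 (s1 (s2 (d 1) (s0 (d 3) (d 3))) (s2 (d 1) (s0 (d 3) (d 3)))) (s0 (d 3) (d 3))) (s0 (s0 (s0 (d 3) (d 3)) (d 3)) (d 4))))) (by decide +kernel)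

theorem twoC07_71 : Cov (esE 7 186 310 212) ⟨0, 137438953472⟩ ⟨0, 267112606072⟩ ⟨678948430150, 819136162692⟩ :=
  Cov.of (open T in (s1 (s2 (s0 (s1 (s2 (s0 (s1 (s2 (s0 (s1 (s2 (s0 (s1 (v 0) (v 3)) (v 3)) (s0 (s1 (v 0) (v 3)) (v 3))) (v 3)) (v 3)) (s0 (s1 (s2 (s0 (s1 (v 0) (v 3)) (v 3)) (s0 (s1 (v 0) (v 3)) (v 3))) (v 3)) (v 3))) (s2 (s0 (v 3) (v 3)) (v 4))) (s0 (v 3) (d 3))) (s0 (s1 (s2 (s0 (s1 (s2 (s0 (s1 (v 0) (v 3)) (v 3)) (s0 (s1 (v 0) (v 3)) (v 3))) (v 3)) (v 3)) (s0 (s1 (s2 (s0 (s1 (v 0) (v 3)) (v 3)) (s0 (s1 (v 0) (v 3)) (v 3))) (v 3)) (v 3))) (v 4)) (s0 (v 3) (v 3)))) (s2 (s0 (s1 (s2 (s0 (v 3) (v 3)) (s0 (v 3) (v 3))) (s0 (v 3) (v 3))) (s0 (d 3) (d 3))) (s0 (s1 (s2 (s0 (v 3) (v 3)) (s0 (v 3) (v 3))) (s0 (v 3) (v 3))) (s0 (d 3) (d 3))))) (s0 (s0 (d 4) (d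 3)) (s0 (d 3) (d 3)))) (s0 (s1 (s2 (s0 (s1 (s2 (s0 (s1 (s2 (s0 (s1 (v 0) (v 3)) (v 3)) (s0 (s1 (v 0) (v 3)) (v 3))) (v 3)) (v 3)) (s0 (s1 (s2 (s0 (s1 (v 0) (v 3)) (v 3)) (s0 (s1 (v 0) (v 3)) (v 3))) (v 3)) (v 3))) (v 3)) (s0 (v 3) (v 3))) (s0 (s1 (s2 (s0 (s1 (s2 (s0 (s1 (v 0) (v 3)) (v 3)) (s0 (s1 (v 0) (v 3)) (v 3))) (v 3)) (v 3)) (s0 (s1 (s2 (s0 (s1 (v 0) (v 3)) (v 3)) (s0 (s1 (v 0) (v 3)) (v 3))) (v 3)) (v 3))) (v 3)) (s0 (v 3) (v 3)))) (s2 (s0 (s1 (s0 (v 3) (v 3)) (s0 (v 3) (v 3))) (d 4)) (s0 (s1 (v 4) (s0 (v 3) (v 3))) (d 3)))) (s0 (s0 (d 3) (d 3)) (d 3)))) (s2 (s0 (s2 (s1 (s0 (s0 (v 6) (d 3)) (s0 (d 3) (d 3))) (s0 (s0 (s0 (d 3) (d 3)) (d 4)) (s0 (d 3) (d 3)))) (s1 (s0 (s0 (v 4) (d 3)) (d 4)) (s0 (s0 (s0 (d 3) (d 3)) (d 3)) (d 4)))) (s0 (s0 (d 4) (d 3)) (d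 4))) (s0 (s1 (s2 (s0 (s0 (d 3) (d 3)) (d 3)) (s0 (s0 (d 3) (d 3)) (d 3))) (s0 (s0 (d 4) (d 3)) (d 4))) (s0 (d 4) (d 3)))))) (by decide +kernel)

theorem twoC07_72 : Cov (esE 7 186 310 212) ⟨137438953472, 274877906944⟩ ⟨0, 267112606072⟩ ⟨678948430150, 819136162692⟩ :=
  Cov.of (open T in (s2 (s1 (s0 (s0 (d 3) (d 3)) (s0 (d 3) (d 3))) (s0 (s0 (d 3) (d 3)) (s0 (d 3) (d 3)))) (s0 (s0 (s1 (d 3) (d 3)) (d 3)) (s0 (d 3) (d 3))))) (by decide +kernel)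

theorem twoC07_76 : Cov (esE 7 186 310 212) ⟨0, 137438953472⟩ ⟨267112606072, 400668909108⟩ ⟨678948430150, 749042296421⟩ :=
  Cov.of (open T in (s2 (s0 (s1 (s2 (s0 (s0 (s0 (d 4) (d 4)) (d 4)) (s0 (d 4) (d 3))) (s0 (s0 (s0 (v 4) (d 4)) (d 4)) (d 4))) (s2 (s0 (s0 (s0 (d 4) (d 4)) (d 4)) (d 6)) (s0 (s0 (d 4) (d 4)) (d 4)))) (s0 (d 6) (d 4))) (s0 (s1 (s0 (s0 (d 4) (d 4)) (d 4)) (s2 (s0 (s0 (d 4) (d 4)) (d 4)) (s0 (s0 (d 4) (d 4)) (d 4)))) (s0 (d 4) (d 3))))) (by decide +kernel)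

theorem twoC07_77 : Cov (esE 7 186 310 212) ⟨0, 137438953472⟩ ⟨400668909108, 534225212145⟩ ⟨678948430150, 749042296421⟩ :=
  Cov.of (open T in (s2 (s0 (s1 (s2 (s0 (s0 (s0 (d 4) (d 4)) (d 4)) (d 6)) (s0 (s0 (d 4) (d 4)) (d 4))) (s2 (s0 (s0 (s0 (d 4) (d 4)) (d 4)) (d 6)) (s0 (s0 (d 4) (d 4)) (d 4)))) (s0 (d 5) (d 4))) (s0 (s1 (s2 (s0 (s0 (d 4) (d 4)) (d 4)) (s0 (s0 (d 4) (d 4)) (d 4))) (s2 (s0 (s0 (d 4) (d 4)) (d 4)) (s0 (s0 (d 4) (d 4)) (d 4)))) (s0 (d 4) (d 3))))) (by decide +kernel)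

theorem twoC07_78 : Cov (esE 7 186 310 212) ⟨137438953472, 274877906944⟩ ⟨267112606072, 534225212145⟩ ⟨678948430150, 749042296421⟩ :=
  Cov.of (open T in (s1 (s0 (s0 (d 3) (d 3)) (d 3)) (s0 (s0 (d 3) (d 3)) (d 3)))) (by decide +kernel)

theorem twoC07_79 : Cov (esE 7 186 310 212) ⟨0, 274877906944⟩ ⟨267112606072, 534225212145⟩ ⟨749042296421, 819136162692⟩ :=
  Cov.of (open T in (s0 (s1 (s0 (s2 (s1 (s0 (s0 (d 4) (d 3)) (d 4)) (s0 (s0 (d 4) (d 4)) (d 4))) (s1 (s0 (s0 (d 4) (d 3)) (d 4)) (s0 (s0 (d 4) (d 4)) (d 4)))) (s0 (d 4) (d 3))) (s2 (s0 (s1 (s2 (s0 (s0 (d 4) (d 4)) (d 4)) (s0 (s0 (d 4) (d 4)) (d 4))) (s0 (s0 (d 4) (d 4)) (d 4))) (s0 (d 4) (d 3))) (s0 (s0 (s0 (d 4) (d 4)) (d 4)) (s0 (d 4) (d 3))))) (s0 (s0 (d 3) (d 3)) (d 3)))) (by decide +kernel)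

theorem twoC07_80 : Cov (esE 7 186 310 212) ⟨274877906944, 549755813888⟩ ⟨0, 534225212145⟩ ⟨678948430150, 819136162692⟩ :=
  Cov.of (open T in (s1 (s2 (s0 (s0 (s0 (d 3) (d 3)) (s0 (d 3) (d 3))) (s0 (d 3) (d 3))) (s0 (s0 (s0 (d 3) (d 3)) (d 3)) (s0 (d 3) (d 3)))) (s2 (s0 (s0 (d 3) (d 3)) (d 3)) (s0 (s0 (d 3) (d 3)) (d 3))))) (by decide +kernel)

theorem twoC07_88 : Cov (esE 7 186 310 212) ⟨0, 137438953472⟩ ⟨534225212145, 667781515181⟩ ⟨538760697609, 573807630744⟩ :=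
  Cov.of (open T in (d 1)) (by decide +kernel)

theorem twoC07_92 : Cov (esE 7 186 310 212) ⟨0, 68719476736⟩ ⟨534225212145, 601003363663⟩ ⟨573807630744, 591331097311⟩ :=
  Cov.of (open T in (s0 (s1 (s2 (d 1) (s0 (s1 (s2 (s0 (d 6) (d 6)) (s0 (d 6) (d 5))) (s2 (s0 (d 6) (d 1)) (s0 (d 6) (d 6)))) (s1 (s0 (d 6) (d 5)) (s0 (d 6) (d 5))))) (s2 (d 1) (s0 (s1 (s2 (d 1) (s0 (d 6) (d 6))) (s2 (d 1) (s0 (d 6) (d 6)))) (s1 (s0 (d 6) (d 5)) (s2 (d 1) (s0 (d 5) (d 5))))))) (s1 (s2 (d 1) (s0 (s0 (d 5) (d 4)) (d 5))) (s2 (d 1) (s0 (s0 (d 5) (d 4)) (d 5)))))) (by decide +kernel)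

theorem twoC07_93 : Cov (esE 7 186 310 212) ⟨0, 68719476736⟩ ⟨534225212145, 601003363663⟩ ⟨591331097311, 608854563879⟩ :=
  Cov.of (open T in (s0 (s1 (s2 (s0 (s1 (s2 (s0 (d 6) (d 5)) (s0 (d 5) (d 5))) (s2 (s0 (d 6) (d 5)) (s0 (d 5) (d 5)))) (s0 (d 5) (d 5))) (s0 (s0 (d 6) (d 5)) (d 6))) (s2 (s0 (s1 (s2 (s0 (d 6) (d 5)) (s0 (d 6) (d 5))) (s2 (s0 (d 6) (d 6)) (s0 (d 6) (d 5)))) (s0 (d 5) (d 5))) (s0 (s0 (d 6) (d 5)) (d 6)))) (s1 (s0 (d 6) (d 4)) (s0 (d 6) (d 4))))) (by decide +kernel)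

theorem twoC07_95 : Cov (esE 7 186 310 212) ⟨0, 68719476736⟩ ⟨601003363663, 667781515181⟩ ⟨573807630744, 591331097311⟩ :=
  Cov.of (open T in (s0 (s1 (s2 (d 1) (s0 (s1 (s2 (d 1) (s0 (d 6) (d 6))) (s2 (d 1) (s0 (d 6) (d 6)))) (s1 (s2 (d 1) (s0 (d 6) (d 5))) (s2 (d 1) (s0 (d 6) (d 5)))))) (s2 (v 1) (s0 (s1 (s2 (d 1) (s0 (d 6) (d 6))) (s2 (v 1) (s0 (d 6) (d 6)))) (s1 (s2 (v 1) (s0 (d 6) (d 5))) (d 1))))) (s1 (s2 (v 1) (s0 (d 6) (d 4))) (s2 (v 1) (d 1))))) (by decide +kernel)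

theorem twoC07_97 : Cov (esE 7 186 310 212) ⟨0, 34359738368⟩ ⟨601003363663, 667781515181⟩ ⟨591331097311, 608854563879⟩ :=
  Cov.of (open T in (s1 (s2 (s0 (s1 (s2 (s0 (d 6) (d 6)) (s0 (d 6) (d 5))) (s2 (s0 (d 6) (d 6)) (s0 (d 6) (d 5)))) (s0 (d 6) (d 5))) (s0 (s0 (d 6) (d 5)) (d 6))) (s2 (s0 (s1 (s2 (s0 (d 6) (d 6)) (s0 (d 6) (d 5))) (s2 (s0 (d 6) (d 6)) (s0 (d 6) (d 5)))) (s0 (d 6) (d 5))) (s0 (s0 (d 6) (d 5)) (d 6))))) (by decide +kernel)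

end Ent
end Pool.Agent.Lib.MP_6947cd_al
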