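import Pool.Agent.Lib.MP_6947cd_al.T.TwoNum

/-!
Problem MP_6947cd_al (Chollet).  The numerical condition of the two-entry loss, level 7 / 10.
-/

set_option autoImplicit false

namespace Pool.Agent.Lib.MP_6947cd_al
namespace Ent
open IA

theorem twoC07_98 : Cov (esE 7 186 310 212) ⟨34359738368, 68719476736⟩ ⟨601003363663, 667781515181⟩ ⟨591331097311, 608854563879⟩ :=
  Cov.of (open T in (s1 (s0 (d 6) (d 4)) (s0 (d 6) (d 4)))) (by decide +kernel)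

theorem twoC07_99 : Cov (esE 7 186 310 212) ⟨68719476736, 137438953472⟩ ⟨534225212145, 667781515181⟩ ⟨573807630744, 608854563879⟩ :=
  Cov.of (open T in (s1 (s2 (s0 (s1 (s2 (d 1) (s0 (d 4) (d 4))) (s2 (v 1) (d 6))) (d 4)) (s0 (s0 (d 4) (d 4)) (d 4))) (s2 (s0 (s1 (s2 (v 1) (d 1)) (d 1)) (d 1)) (s0 (d 6) (d 4))))) (by decide +kernel)

theorem twoC07_101 : Cov (esE 7 186 310 212) ⟨0, 137438953472⟩ ⟨667781515181, 801337818218⟩ ⟨538760697609, 573807630744⟩ :=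
  Cov.of (open T in (d 1)) (by decide +kernel)

theorem twoC07_105 : Cov (esE 7 186 310 212) ⟨0, 68719476736⟩ ⟨667781515181, 734559666699⟩ ⟨573807630744, 591331097311⟩ :=
  Cov.of (open T in (s0 (s1 (s2 (v 1) (d 1)) (d 1)) (d 1))) (by decide +kernel)

theorem twoC07_107 : Cov (esE 7 186 310 212) ⟨0, 34359738368⟩ ⟨667781515181, 734559666699⟩ ⟨591331097311, 608854563879⟩ :=
  Cov.of (open T in (s1 (s2 (s0 (s1 (s2 (s0 (d 6) (d 6)) (s0 (d 6) (d 5))) (s2 (s0 (d 6) (d 5)) (s0 (d 6) (d 5)))) (s0 (d 6) (d 5))) (s0 (s0 (d 6) (d 5)) (d 6))) (s2 (s0 (s1 (s2 (s0 (d 6) (d 5)) (s0 (d 6) (d 5))) (s2 (s0 (d 6) (d 5)) (s0 (d 6) (d 5)))) (s0 (d 5) (d 5))) (s0 (s0 (d 6) (d 5)) (d 6))))) (by decide +kernel)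

theorem twoC07_108 : Cov (esE 7 186 310 212) ⟨34359738368, 68719476736⟩ ⟨667781515181, 734559666699⟩ ⟨591331097311, 608854563879⟩ :=
  Cov.of (open T in (s1 (s0 (d 6) (d 4)) (s0 (d 5) (d 4)))) (by decide +kernel)

theorem twoC07_109 : Cov (esE 7 186 310 212) ⟨0, 68719476736⟩ ⟨734559666699, 801337818218⟩ ⟨573807630744, 608854563879⟩ :=
  Cov.of (open T in (s2 (d 1) (s0 (s1 (s2 (s0 (s1 (s2 (s0 (d 6) (d 5)) (s0 (d 6) (d 5))) (s2 (s0 (d 6) (d 5)) (s0 (d 6) (d 5)))) (s0 (d 5) (d 5))) (s0 (s0 (d 6) (d 5)) (d 6))) (s2 (s0 (s1 (s2 (s0 (d 6) (d 5)) (s0 (d 6) (d 5))) (s2 (s0 (d 1) (d 1)) (s0 (d 5) (d 5)))) (d 6)) (s0 (s0 (d 5) (d 5)) (d 6)))) (s1 (s0 (d 5) (d 4)) (s0 (d 5) (d 4)))))) (by decide +kernel)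

theorem twoC07_110 : Cov (esE 7 186 310 212) ⟨68719476736, 137438953472⟩ ⟨667781515181, 801337818218⟩ ⟨573807630744, 608854563879⟩ :=
  Cov.of (open T in (s1 (s2 (d 1) (s0 (d 5) (d 4))) (s2 (d 1) (s0 (d 4) (d 4))))) (by decide +kernel)

theorem twoC07_111 : Cov (esE 7 186 310 212) ⟨137438953472, 274877906944⟩ ⟨534225212145, 801337818218⟩ ⟨538760697609, 608854563879⟩ :=
  Cov.of (open T in (s1 (s2 (d 1) (s0 (s0 (d 4) (d 3)) (d 3))) (s2 (d 1) (s0 (d 4) (d 3))))) (by decide +kernel)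

theorem twoC07_117 : Cov (esE 7 186 310 212) ⟨0, 68719476736⟩ ⟨534225212145, 601003363663⟩ ⟨608854563879, 643901497014⟩ :=
  Cov.of (open T in (s2 (s0 (s1 (s2 (s0 (s0 (d 5) (d 5)) (d 6)) (s0 (s0 (d 4) (d 4)) (d 5))) (s2 (s0 (s0 (d 5) (d 5)) (d 6)) (s0 (s0 (d 5) (d 4)) (d 5)))) (s0 (d 6) (d 4))) (s0 (s1 (s0 (s0 (d 4) (d 4)) (d 5)) (s0 (s0 (d 4) (d 4)) (d 5))) (s0 (d 4) (d 4))))) (by decide +kernel)

theorem twoC07_118 : Cov (esE 7 186 310 212) ⟨0, 68719476736⟩ ⟨601003363663, 667781515181⟩ ⟨608854563879, 643901497014⟩ :=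
  Cov.of (open T in (s2 (s0 (s1 (s2 (s0 (s0 (d 5) (d 5)) (d 6)) (s0 (s0 (d 5) (d 4)) (d 6))) (s2 (s0 (s0 (d 6) (d 5)) (d 6)) (s0 (s0 (d 5) (d 5)) (d 6)))) (s0 (d 6) (d 4))) (s0 (s1 (s0 (s0 (d 4) (d 4)) (d 5)) (s0 (s0 (d 5) (d 4)) (d 5))) (s0 (d 4) (d 4))))) (by decide +kernel)

theorem twoC07_119 : Cov (esE 7 186 310 212) ⟨68719476736, 137438953472⟩ ⟨534225212145, 667781515181⟩ ⟨608854563879, 643901497014⟩ :=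
  Cov.of (open T in (s1 (s0 (s0 (d 4) (d 4)) (d 4)) (s0 (d 5) (d 4)))) (by decide +kernel)

theorem twoC07_120 : Cov (esE 7 186 310 212) ⟨0, 137438953472⟩ ⟨534225212145, 667781515181⟩ ⟨643901497014, 678948430150⟩ :=
  Cov.of (open T in (s0 (s1 (s2 (s0 (s0 (s0 (d 4) (d 4)) (d 5)) (s0 (d 4) (d 4))) (s0 (s0 (s0 (d 4) (d 4)) (d 4)) (s0 (d 4) (d 4)))) (s2 (s0 (s0 (s0 (d 4) (d 4)) (d 5)) (s0 (d 4) (d 4))) (s0 (s0 (s0 (d 4) (d 4)) (d 4)) (s0 (d 4) (d 4))))) (s0 (s0 (d 4) (d 4)) (d 4)))) (by decide +kernel)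

theorem twoC07_124 : Cov (esE 7 186 310 212) ⟨0, 68719476736⟩ ⟨667781515181, 734559666699⟩ ⟨608854563879, 643901497014⟩ :=
  Cov.of (open T in (s2 (s0 (s1 (s2 (s0 (s0 (d 5) (d 5)) (d 6)) (s0 (s0 (d 5) (d 5)) (d 6))) (s2 (s0 (s0 (d 5) (d 5)) (d 6)) (s0 (s0 (d 5) (d 5)) (d 5)))) (s0 (d 5) (d 4))) (s0 (s1 (s0 (s0 (d 5) (d 4)) (d 5)) (s0 (s0 (d 5) (d 4)) (d 5))) (s0 (d 4) (d 4))))) (by decide +kernel)

theorem twoC07_125 : Cov (esE 7 186 310 212) ⟨0, 68719476736⟩ ⟨734559666699, 801337818218⟩ ⟨608854563879, 643901497014⟩ :=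
  Cov.of (open T in (s2 (s0 (s1 (s2 (s0 (s0 (d 5) (d 5)) (d 6)) (s0 (s0 (d 5) (d 5)) (d 5))) (s2 (s0 (s0 (d 5) (d 5)) (d 5)) (s0 (s0 (d 5) (d 5)) (d 5)))) (s0 (d 4) (d 4))) (s0 (s0 (s0 (d 5) (d 5)) (d 6)) (s0 (d 4) (d 4))))) (by decide +kernel)

theorem twoC07_126 : Cov (esE 7 186 310 212) ⟨68719476736, 137438953472⟩ ⟨667781515181, 801337818218⟩ ⟨608854563879, 643901497014⟩ :=
  Cov.of (open T in (s0 (d 6) (d 4))) (by decide +kernel)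

theorem twoC07_127 : Cov (esE 7 186 310 212) ⟨0, 137438953472⟩ ⟨667781515181, 801337818218⟩ ⟨643901497014, 678948430150⟩ :=
  Cov.of (open T in (s0 (s1 (s2 (s0 (s0 (s0 (d 4) (d 4)) (d 5)) (s0 (d 4) (d 4))) (s0 (s0 (s0 (d 4) (d 4)) (d 4)) (d 6))) (s2 (s0 (s0 (s0 (d 4) (d 4)) (d 5)) (d 6)) (s0 (s0 (d 6) (d 4)) (d 5)))) (s0 (d 4) (d 4)))) (by decide +kernel)

theorem twoC07_128 : Cov (esE 7 186 310 212) ⟨137438953472, 274877906944⟩ ⟨534225212145, 801337818218⟩ ⟨608854563879, 678948430150⟩ :=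
  Cov.of (open T in (s1 (s2 (s0 (s0 (d 3) (d 3)) (d 3)) (s0 (d 4) (d 3))) (s0 (d 4) (d 3)))) (by decide +kernel)

theorem twoC07_133 : Cov (esE 7 186 310 212) ⟨0, 137438953472⟩ ⟨801337818218, 934894121254⟩ ⟨538760697609, 573807630744⟩ :=
  Cov.of (open T in (d 1)) (by decide +kernel)

theorem twoC07_135 : Cov (esE 7 186 310 212) ⟨0, 68719476736⟩ ⟨801337818218, 934894121254⟩ ⟨573807630744, 608854563879⟩ :=
  Cov.of (open T in (s1 (s2 (d 1) (s0 (s1 (s2 (s0 (s1 (s2 (d 1) (s0 (d 5) (d 5))) (s2 (d 1) (s0 (d 5) (d 5)))) (d 6)) (s0 (s0 (d 5) (d 5)) (d 6))) (s2 (s0 (s1 (s2 (d 1) (s0 (d 5) (d 5))) (s0 (d 5) (d 5))) (d 6)) (s0 (s0 (d 5) (d 5)) (d 5)))) (s0 (d 5) (d 4)))) (s2 (d 1) (s0 (s1 (s2 (s0 (s1 (s0 (d 5) (d 5)) (d 6)) (d 5)) (s0 (d 6) (d 5))) (s2 (s0 (d 6) (d 5)) (s0 (d 6) (d 5)))) (s0 (d 4) (d 4)))))) (by decide +kernel)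

theorem twoC07_136 : Cov (esE 7 186 310 212) ⟨68719476736, 137438953472⟩ ⟨801337818218, 934894121254⟩ ⟨573807630744, 608854563879⟩ :=
  Cov.of (open T in (s1 (s2 (d 1) (s0 (d 4) (d 3))) (s2 (d 1) (s0 (d 4) (d 3))))) (by decide +kernel)

theorem twoC07_137 : Cov (esE 7 186 310 212) ⟨0, 137438953472⟩ ⟨934894121254, 1068450424291⟩ ⟨538760697609, 608854563879⟩ :=
  Cov.of (open T in (s2 (v 1) (s0 (s1 (s2 (d 1) (s0 (s1 (s2 (s0 (d 6) (d 1)) (s0 (d 6) (d 4))) (s2 (d 1) (s0 (d 5) (d 4)))) (d 6))) (s2 (d 1) (s0 (s1 (s2 (d 1) (s0 (d 5) (d 4))) (s2 (d 1) (s0 (d 5) (d 4)))) (d 4)))) (s2 (d 1) (s1 (s0 (d 4) (d 3)) (d 5)))))) (by decide +kernel)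

theorem twoC07_138 : Cov (esE 7 186 310 212) ⟨137438953472, 274877906944⟩ ⟨801337818218, 1068450424291⟩ ⟨538760697609, 608854563879⟩ :=
  Cov.of (open T in (s2 (d 1) (s1 (s0 (d 4) (d 3)) (s0 (d 3) (d 3))))) (by decide +kernel)

theorem twoC07_142 : Cov (esE 7 186 310 212) ⟨0, 137438953472⟩ ⟨801337818218, 934894121254⟩ ⟨608854563879, 643901497014⟩ :=
  Cov.of (open T in (s0 (s1 (s2 (s0 (s1 (s2 (s0 (s0 (d 5) (d 5)) (d 5)) (s0 (d 6) (d 5))) (s2 (s0 (d 6) (d 5)) (s0 (d 6) (d 5)))) (s0 (d 4) (d 4))) (s0 (s0 (s0 (d 5) (d 5)) (d 5)) (d 6))) (s2 (s0 (s1 (s0 (d 6) (d 5)) (s0 (d 6) (d 4))) (d 6)) (s0 (s0 (d 6) (d 4)) (d 5)))) (s0 (d 4) (d 4)))) (by decide +kernel)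

theorem twoC07_143 : Cov (esE 7 186 310 212) ⟨0, 137438953472⟩ ⟨801337818218, 934894121254⟩ ⟨643901497014, 678948430150⟩ :=
  Cov.of (open T in (s0 (s1 (s2 (s0 (s0 (d 6) (d 4)) (d 5)) (s0 (s0 (d 5) (d 4)) (d 4))) (s2 (s0 (s0 (d 5) (d 4)) (d 4)) (s0 (s0 (d 5) (d 4)) (d 4)))) (s0 (d 4) (d 3)))) (by decide +kernel)

theorem twoC07_144 : Cov (esE 7 186 310 212) ⟨0, 137438953472⟩ ⟨934894121254, 1068450424291⟩ ⟨608854563879, 678948430150⟩ :=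
  Cov.of (open T in (s2 (s0 (s1 (s2 (s0 (s1 (s0 (d 5) (d 4)) (s0 (d 5) (d 4))) (d 5)) (s0 (s0 (d 5) (d 4)) (d 4))) (s2 (s0 (s0 (d 5) (d 4)) (d 4)) (s0 (s0 (d 5) (d 4)) (d 4)))) (s0 (d 4) (d 3))) (s0 (s1 (s2 (s0 (s0 (d 5) (d 4)) (d 4)) (s0 (s0 (d 4) (d 4)) (d 4))) (s2 (s0 (s0 (d 5) (d 4)) (d 4)) (s0 (s0 (d 4) (d 4)) (d 4)))) (s0 (d 4) (d 3))))) (by decide +kernel)

theorem twoC07_145 : Cov (esE 7 186 310 212) ⟨137438953472, 274877906944⟩ ⟨801337818218, 1068450424291⟩ ⟨608854563879, 678948430150⟩ :=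
  Cov.of (open T in (s1 (s0 (d 4) (d 3)) (s0 (d 3) (v 3)))) (by decide +kernel)

theorem twoC07_146 : Cov (esE 7 186 310 212) ⟨274877906944, 549755813888⟩ ⟨534225212145, 1068450424291⟩ ⟨538760697609, 678948430150⟩ :=
  Cov.of (open T in (s2 (s1 (s0 (s1 (s0 (d 3) (d 3)) (d 3)) (d 3)) (s0 (d 3) (v 3))) (s1 (s0 (s0 (d 3) (d 3)) (d 3)) (s0 (d 3) (v 3))))) (by decide +kernel)

theorem twoC07_152 : Cov (esE 7 186 310 212) ⟨0, 137438953472⟩ ⟨534225212145, 667781515181⟩ ⟨678948430150, 749042296421⟩ :=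
  Cov.of (open T in (s2 (s0 (s1 (s2 (s0 (s0 (s0 (d 4) (d 4)) (d 4)) (d 6)) (s0 (s0 (d 4) (d 4)) (d 4))) (s2 (s0 (s0 (d 6) (d 4)) (d 6)) (s0 (s0 (d 4) (d 4)) (d 4)))) (s0 (d 4) (d 4))) (s0 (s1 (s2 (s0 (s0 (d 4) (d 4)) (d 4)) (s0 (s0 (d 4) (d 4)) (d 4))) (s0 (s0 (d 4) (d 4)) (d 4))) (s0 (d 4) (d 3))))) (by decide +kernel)

theorem twoC07_153 : Cov (esE 7 186 310 212) ⟨0, 137438953472⟩ ⟨667781515181, 801337818218⟩ ⟨678948430150, 749042296421⟩ :=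
  Cov.of (open T in (s2 (s0 (s1 (s2 (s0 (s0 (d 4) (d 4)) (d 5)) (s0 (s0 (d 4) (d 4)) (d 4))) (s2 (s0 (s0 (d 4) (d 4)) (d 4)) (s0 (s0 (d 4) (d 4)) (d 4)))) (s0 (d 4) (d 3))) (s0 (s1 (s0 (s0 (d 4) (d 4)) (d 4)) (s0 (s0 (d 4) (d 4)) (d 4))) (s0 (d 4) (d 3))))) (by decide +kernel)

end Ent
end Pool.Agent.Lib.MP_6947cd_al
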