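import Pool.Agent.Lib.MP_6947cd_al.T.TwoNum

/-!
Problem MP_6947cd_al (Chollet).  The numerical condition of the two-entry loss, level 7 / 10.
-/

set_option autoImplicit false

namespace Pool.Agent.Lib.MP_6947cd_al
namespace Ent
open IA

theorem twoC07_154 : Cov (esE 7 186 310 212) ⟨137438953472, 274877906944⟩ ⟨534225212145, 801337818218⟩ ⟨678948430150, 749042296421⟩ :=
  Cov.of (open T in (s0 (s0 (d 3) (d 3)) (d 3))) (by decide +kernel)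

theorem twoC07_155 : Cov (esE 7 186 310 212) ⟨0, 274877906944⟩ ⟨534225212145, 801337818218⟩ ⟨749042296421, 819136162692⟩ :=
  Cov.of (open T in (s0 (s1 (s2 (s0 (s0 (s0 (d 4) (d 4)) (d 4)) (s0 (d 4) (d 3))) (s0 (s0 (s0 (d 4) (d 4)) (d 4)) (s0 (d 3) (d 3)))) (s2 (s0 (s0 (s0 (d 4) (d 4)) (d 4)) (s0 (d 4) (d 3))) (s0 (s0 (s0 (d 4) (d 4)) (d 4)) (d 5)))) (s0 (d 4) (d 3)))) (by decide +kernel)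

theorem twoC07_157 : Cov (esE 7 186 310 212) ⟨0, 274877906944⟩ ⟨801337818218, 1068450424291⟩ ⟨678948430150, 749042296421⟩ :=
  Cov.of (open T in (s0 (s1 (s2 (s0 (s1 (s2 (s0 (s0 (d 4) (d 4)) (d 4)) (s0 (s0 (d 4) (d 4)) (d 4))) (s2 (s0 (s0 (d 4) (d 4)) (d 4)) (s0 (s0 (d 4) (d 4)) (d 4)))) (s0 (d 4) (d 3))) (s0 (s0 (s0 (d 4) (d 4)) (d 4)) (s0 (d 4) (d 3)))) (s2 (s0 (s1 (s0 (s0 (d 4) (d 4)) (d 4)) (s0 (s0 (d 4) (d 4)) (d 4))) (d 4)) (s0 (s0 (s0 (d 4) (d 4)) (d 4)) (d 4)))) (s0 (d 4) (d 3)))) (by decide +kernel)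

theorem twoC07_158 : Cov (esE 7 186 310 212) ⟨0, 274877906944⟩ ⟨801337818218, 1068450424291⟩ ⟨749042296421, 819136162692⟩ :=
  Cov.of (open T in (s0 (s1 (s2 (s0 (s0 (s0 (d 4) (d 4)) (d 4)) (d 4)) (s0 (s0 (s0 (d 4) (d 4)) (d 4)) (d 4))) (s2 (s0 (s0 (d 6) (d 4)) (d 4)) (s0 (s0 (d 5) (d 4)) (d 4)))) (s0 (d 3) (d 3)))) (by decide +kernel)

theorem twoC07_159 : Cov (esE 7 186 310 212) ⟨274877906944, 549755813888⟩ ⟨534225212145, 1068450424291⟩ ⟨678948430150, 819136162692⟩ :=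
  Cov.of (open T in (s1 (s0 (s0 (d 3) (d 3)) (d 3)) (s0 (d 3) (v 3)))) (by decide +kernel)

theorem twoC07_160 : Cov (esE 7 186 310 212) ⟨549755813888, 1099511627776⟩ ⟨0, 1068450424291⟩ ⟨538760697609, 819136162692⟩ :=
  Cov.of (open T in (s1 (s2 (s0 (s1 (s2 (s0 (s0 (d 3) (v 2)) (v 2)) (s0 (s0 (d 3) (d 3)) (v 2))) (s0 (d 3) (v 2))) (v 2)) (s0 (s0 (s0 (d 3) (d 3)) (d 3)) (v 2))) (s2 (s2 (s0 (s1 (d 3) (v 3)) (v 2)) (s0 (s0 (d 3) (v 2)) (v 2))) (s0 (s0 (v 3) (v 3)) (v 2))))) (by decide +kernel)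

theorem twoC07_166 : Cov (esE 7 186 310 212) ⟨0, 274877906944⟩ ⟨0, 267112606072⟩ ⟨819136162692, 959323895234⟩ :=
  Cov.of (open T in (s0 (s1 (s2 (s0 (s1 (s2 (s0 (s1 (s2 (s0 (s1 (s2 (s0 (s1 (v 0) (v 3)) (v 3)) (s0 (s1 (v 0) (v 3)) (v 3))) (v 3)) (v 3)) (s0 (s1 (s2 (s0 (s1 (v 0) (v 3)) (v 3)) (s0 (s1 (v 0) (v 3)) (v 3))) (v 3)) (v 3))) (v 3)) (s0 (v 3) (v 3))) (s0 (s1 (s2 (s0 (s1 (s2 (s0 (s1 (v 0) (v 3)) (v 3)) (s0 (s1 (v 0) (v 3)) (v 3))) (v 3)) (v 3)) (s0 (s1 (s2 (s0 (s1 (v 0) (v 3)) (v 3)) (s0 (s1 (v 0) (v 3)) (v 3))) (v 3)) (v 3))) (v 3)) (v 3))) (s2 (s0 (s1 (v 3) (v 4)) (d 3)) (s0 (s0 (v 3) (v 3)) (d 3)))) (s0 (d 4) (d 3))) (s0 (s1 (s2 (s0 (s1 (s2 (s0 (s1 (s2 (s0 (s1 (v 0) (v 3)) (v 3)) (s0 (s1 (v 0) (v 3)) (v 3))) (v 3)) (v 3)) (s0 (s1 (s2 (s0 (s1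 (v 0) (v 3)) (v 3)) (s0 (s1 (v 0) (v 3)) (v 3))) (v 3)) (v 3))) (v 3)) (v 3)) (s0 (s1 (s2 (s0 (s1 (s2 (s0 (s1 (v 0) (v 3)) (v 3)) (s0 (s1 (v 0) (v 3)) (v 3))) (v 3)) (v 3)) (s0 (s1 (s2 (s0 (s1 (v 0) (v 3)) (v 3)) (s0 (s1 (v 0) (v 3)) (v 3))) (v 3)) (v 3))) (v 3)) (v 3))) (s2 (s0 (v 4) (d 3)) (s0 (v 3) (v 3)))) (s0 (d 3) (d 3)))) (s2 (s0 (s1 (s2 (s0 (s0 (v 3) (d 3)) (d 3)) (s0 (s0 (v 3) (v 3)) (d 3))) (s0 (s0 (d 3) (d 3)) (d 3))) (s0 (d 3) (d 3))) (s0 (s1 (s0 (s0 (v 3) (v 3)) (d 3)) (s0 (s0 (d 3) (d 3)) (d 3))) (s0 (d 3) (d 3))))) (s0 (s0 (d 3) (d 3)) (s0 (d 3) (d 3))))) (by decide +kernel)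

theorem twoC07_167 : Cov (esE 7 186 310 212) ⟨0, 274877906944⟩ ⟨0, 267112606072⟩ ⟨959323895234, 1099511627776⟩ :=
  Cov.of (open T in (s0 (s1 (s2 (s0 (s1 (s2 (s0 (s1 (s2 (s0 (s1 (s2 (s0 (s1 (v 0) (v 3)) (v 3)) (s0 (s1 (v 0) (v 3)) (v 3))) (v 3)) (v 3)) (s0 (s1 (s2 (s0 (s1 (v 0) (v 3)) (v 3)) (s0 (s1 (v 0) (v 3)) (v 3))) (v 3)) (v 3))) (v 3)) (v 3)) (s0 (s1 (s2 (s0 (s1 (s2 (s0 (s1 (v 0) (v 3)) (v 3)) (s0 (s1 (v 0) (v 3)) (v 3))) (v 3)) (v 3)) (s0 (s1 (s2 (s0 (s1 (v 0) (v 3)) (v 3)) (s0 (s1 (v 0) (v 3)) (v 3))) (v 3)) (v 3))) (v 3)) (v 3))) (s2 (s0 (v 3) (v 3)) (s0 (v 3) (v 3)))) (s0 (d 3) (d 3))) (s0 (s1 (s2 (s0 (s1 (s2 (s0 (s1 (s2 (s0 (s1 (v 0) (v 3)) (v 3)) (s0 (s1 (v 0) (v 3)) (v 3))) (v 3)) (v 3)) (s0 (s1 (s2 (s0 (s1 (v 0) (v 3)) (v 3)) (s0 (s1 (v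 0) (v 3)) (v 3))) (v 3)) (v 3))) (v 3)) (v 3)) (s0 (s1 (s2 (s0 (s1 (s2 (s0 (s1 (v 0) (v 3)) (v 3)) (s0 (s1 (v 0) (v 3)) (v 3))) (v 3)) (v 3)) (s0 (s1 (s2 (s0 (s1 (v 0) (v 3)) (v 3)) (s0 (s1 (v 0) (v 3)) (v 3))) (v 3)) (v 3))) (v 3)) (v 3))) (s2 (s0 (v 3) (v 3)) (s0 (v 3) (v 3)))) (s0 (d 3) (v 3)))) (s2 (s0 (s0 (s0 (v 4) (d 3)) (d 3)) (d 3)) (s0 (s0 (s0 (v 3) (v 3)) (d 3)) (d 3)))) (s0 (d 6) (d 3)))) (by decide +kernel)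

theorem twoC07_168 : Cov (esE 7 186 310 212) ⟨0, 274877906944⟩ ⟨267112606072, 534225212145⟩ ⟨819136162692, 1099511627776⟩ :=
  Cov.of (open T in (s2 (s0 (s2 (s1 (s0 (s0 (s0 (s0 (d 4) (d 4)) (d 4)) (d 4)) (s0 (d 3) (d 3))) (s2 (s0 (s0 (s0 (d 4) (d 4)) (d 4)) (s0 (d 3) (d 3))) (s0 (s0 (s0 (d 4) (d 4)) (d 4)) (d 5)))) (s1 (s0 (s0 (s0 (d 4) (d 3)) (d 4)) (d 4)) (s0 (s0 (s0 (d 4) (d 4)) (d 4)) (d 4)))) (s0 (s0 (d 3) (d 3)) (d 3))) (s0 (s1 (s2 (s0 (s0 (s0 (d 3) (d 3)) (d 3)) (d 4)) (s0 (s0 (s0 (d 3) (d 3)) (d 3)) (d 3))) (s2 (s0 (s0 (s0 (d 4) (d 3)) (d 3)) (d 3)) (s0 (s0 (d 4) (d 3)) (d 3)))) (s0 (d 3) (d 3))))) (by decide +kernel)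

theorem twoC07_169 : Cov (esE 7 186 310 212) ⟨274877906944, 549755813888⟩ ⟨0, 534225212145⟩ ⟨819136162692, 1099511627776⟩ :=
  Cov.of (open T in (s2 (s1 (s0 (s0 (d 3) (d 3)) (s0 (d 3) (d 3))) (s0 (s0 (d 3) (d 3)) (d 3))) (s0 (s0 (s1 (d 3) (d 3)) (d 3)) (s0 (d 3) (d 3))))) (by decide +kernel)

theorem twoC07_173 : Cov (esE 7 186 310 212) ⟨0, 274877906944⟩ ⟨534225212145, 801337818218⟩ ⟨819136162692, 959323895234⟩ :=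
  Cov.of (open T in (s2 (s0 (s1 (s2 (s0 (s0 (s0 (d 4) (d 4)) (d 4)) (d 6)) (s0 (s0 (s0 (d 4) (d 4)) (d 4)) (d 4))) (s2 (s0 (s0 (s0 (d 4) (d 4)) (d 4)) (d 4)) (s0 (s0 (d 4) (d 4)) (d 4)))) (s0 (d 3) (d 3))) (s0 (s1 (s2 (s0 (s0 (d 4) (d 4)) (d 4)) (s0 (s0 (d 4) (d 4)) (d 4))) (s2 (s0 (s0 (d 4) (d 4)) (d 4)) (s0 (s0 (d 4) (d 3)) (d 3)))) (s0 (d 3) (d 3))))) (by decide +kernel)

theorem twoC07_174 : Cov (esE 7 186 310 212) ⟨0, 274877906944⟩ ⟨801337818218, 1068450424291⟩ ⟨819136162692, 959323895234⟩ :=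
  Cov.of (open T in (s2 (s0 (s1 (s2 (s0 (s0 (d 5) (d 4)) (d 4)) (s0 (s0 (d 4) (d 4)) (d 4))) (s2 (s0 (s0 (d 4) (d 4)) (d 4)) (s0 (s0 (d 4) (d 4)) (d 3)))) (s0 (d 3) (v 3))) (s0 (s1 (s2 (s0 (s0 (d 4) (d 4)) (d 3)) (s0 (s0 (d 4) (d 3)) (d 3))) (s2 (s0 (s0 (d 4) (d 4)) (d 3)) (s0 (s0 (d 4) (d 3)) (d 3)))) (s0 (d 3) (v 3))))) (by decide +kernel)

theorem twoC07_175 : Cov (esE 7 186 310 212) ⟨274877906944, 549755813888⟩ ⟨534225212145, 1068450424291⟩ ⟨819136162692, 959323895234⟩ :=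
  Cov.of (open T in (s0 (s0 (d 3) (d 3)) (d 3))) (by decide +kernel)

theorem twoC07_176 : Cov (esE 7 186 310 212) ⟨0, 549755813888⟩ ⟨534225212145, 1068450424291⟩ ⟨959323895234, 1099511627776⟩ :=
  Cov.of (open T in (s0 (s1 (s2 (s0 (s1 (s0 (s0 (d 4) (d 3)) (d 3)) (s2 (s0 (s0 (d 4) (d 3)) (d 3)) (s0 (s0 (d 4) (d 3)) (d 3)))) (s0 (d 3) (d 3))) (s0 (s1 (s0 (s0 (d 4) (d 3)) (d 3)) (s0 (s0 (d 4) (d 3)) (d 3))) (s0 (d 3) (v 3)))) (s2 (s0 (s1 (s2 (s0 (s0 (d 4) (d 3)) (d 3)) (s0 (s0 (d 4) (d 3)) (d 3))) (s0 (s0 (d 4) (d 3)) (d 3))) (d 4)) (s0 (s1 (s0 (s0 (d 4) (d 3)) (d 3)) (s0 (s0 (d 4) (d 3)) (d 3))) (d 3)))) (s0 (d 3) (v 3)))) (by decide +kernel)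

theorem twoC07_177 : Cov (esE 7 186 310 212) ⟨549755813888, 1099511627776⟩ ⟨0, 1068450424291⟩ ⟨819136162692, 1099511627776⟩ :=
  Cov.of (open T in (s1 (s2 (s0 (s0 (s0 (d 3) (d 3)) (d 3)) (d 3)) (s0 (s0 (d 3) (v 3)) (d 3))) (s0 (s0 (v 3) (v 3)) (v 3)))) (by decide +kernel)

theorem twoC07_183 : Cov (esE 7 186 310 212) ⟨0, 549755813888⟩ ⟨1068450424291, 1602675636437⟩ ⟨538760697609, 608854563879⟩ :=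
  Cov.of (open T in (s0 (s1 (s0 (s2 (d 1) (s1 (s0 (s2 (d 1) (s1 (s0 (s2 (d 1) (s1 (s0 (d 5) (d 4)) (s0 (d 5) (d 4)))) (d 4)) (s0 (s2 (d 1) (s1 (s0 (d 4) (d 4)) (d 6))) (d 4)))) (s0 (d 4) (d 3))) (s0 (s2 (d 1) (s1 (s0 (s0 (d 4) (d 4)) (d 4)) (s0 (d 6) (d 4)))) (d 4)))) (s2 (v 1) (s1 (s0 (d 3) (v 3)) (d 4)))) (s2 (d 1) (s0 (s1 (s2 (d 1) (s0 (s1 (s0 (d 5) (d 1)) (d 1)) (d 1))) (s2 (v 1) (d 1))) (d 4)))) (s1 (s2 (v 1) (s0 (v 3) (v 3))) (s2 (v 1) (d 4))))) (by decide +kernel)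

theorem twoC07_188 : Cov (esE 7 186 310 212) ⟨0, 137438953472⟩ ⟨1068450424291, 1335563030364⟩ ⟨608854563879, 643901497014⟩ :=
  Cov.of (open T in (s1 (s0 (s1 (s2 (s0 (s0 (d 5) (d 4)) (d 4)) (s0 (s0 (d 5) (d 4)) (d 4))) (s2 (s0 (s0 (d 4) (d 4)) (d 4)) (s0 (s0 (d 4) (d 4)) (d 4)))) (d 4)) (s0 (s2 (s1 (s0 (d 6) (d 4)) (s0 (d 5) (d 4))) (s1 (s0 (d 5) (d 4)) (s0 (d 5) (d 4)))) (d 4)))) (by decide +kernel)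

theorem twoC07_189 : Cov (esE 7 186 310 212) ⟨0, 137438953472⟩ ⟨1068450424291, 1335563030364⟩ ⟨643901497014, 678948430150⟩ :=
  Cov.of (open T in (s1 (s0 (s1 (s2 (s0 (s0 (d 4) (d 4)) (d 4)) (s0 (d 6) (d 4))) (s2 (s0 (d 6) (d 4)) (s0 (d 5) (d 4)))) (d 4)) (s0 (s2 (s1 (s0 (d 5) (d 4)) (s0 (d 4) (d 4))) (s1 (s0 (d 5) (d 4)) (s0 (d 4) (d 4)))) (d 4)))) (by decide +kernel)

theorem twoC07_190 : Cov (esE 7 186 310 212) ⟨137438953472, 274877906944⟩ ⟨1068450424291, 1335563030364⟩ ⟨608854563879, 678948430150⟩ :=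
  Cov.of (open T in (s0 (d 3) (d 3))) (by decide +kernel)

theorem twoC07_191 : Cov (esE 7 186 310 212) ⟨0, 274877906944⟩ ⟨1335563030364, 1602675636437⟩ ⟨608854563879, 678948430150⟩ :=
  Cov.of (open T in (s2 (s0 (s1 (s0 (s2 (s1 (s0 (d 4) (d 4)) (s2 (s0 (d 4) (v 4)) (s0 (d 4) (v 4)))) (s1 (s0 (d 4) (d 4)) (s0 (d 4) (v 4)))) (d 4)) (s2 (s0 (s1 (s2 (s0 (d 4) (v 4)) (s0 (d 4) (v 4))) (s0 (d 4) (v 4))) (d 3)) (s0 (s1 (s0 (d 4) (v 4)) (s0 (d 4) (v 4))) (d 3)))) (d 4)) (s0 (s1 (s0 (s0 (d 5) (d 4)) (d 4)) (s2 (s0 (s0 (d 4) (v 4)) (d 3)) (s0 (s0 (d 4) (v 4)) (d 3)))) (d 4)))) (by decide +kernel)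

theorem twoC07_192 : Cov (esE 7 186 310 212) ⟨274877906944, 549755813888⟩ ⟨1068450424291, 1602675636437⟩ ⟨608854563879, 678948430150⟩ :=
  Cov.of (open T in (s1 (s0 (v 3) (v 3)) (d 4))) (by decide +kernel)

theorem twoC07_193 : Cov (esE 7 186 310 212) ⟨0, 549755813888⟩ ⟨1602675636437, 2136900848583⟩ ⟨538760697609, 678948430150⟩ :=
  Cov.of (open T in (s2 (s0 (s1 (s2 (v 1) (s0 (d 1) (d 1))) (d 1)) (v 4)) (s0 (s1 (s2 (s0 (s1 (s2 (s0 (s1 (s0 (d 4) (d 3)) (d 5)) (d 3)) (s0 (s0 (d 4) (d 3)) (d 3))) (s2 (s0 (d 5) (v 3)) (s0 (d 5) (v 3)))) (d 3)) (s0 (s1 (s2 (s0 (s0 (d 4) (d 3)) (d 3)) (s0 (s0 (d 4) (d 3)) (d 3))) (s2 (s0 (d 4) (v 3)) (s0 (d 4) (v 3)))) (d 3))) (s2 (s0 (s1 (s2 (s0 (d 4) (v 3)) (s0 (d 4) (v 3))) (s2 (s0 (v 4) (v 3)) (s0 (v 4) (v 3)))) (v 3))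 (s0 (s1 (s2 (s0 (d 4) (v 3)) (s0 (d 4) (v 3))) (s2 (s0 (v 4) (v 3)) (s0 (v 4) (v 3)))) (v 3)))) (v 3)))) (by decide +kernel)

theorem twoC07_194 : Cov (esE 7 186 310 212) ⟨549755813888, 1099511627776⟩ ⟨1068450424291, 2136900848583⟩ ⟨538760697609, 678948430150⟩ :=
  Cov.of (open T in (s1 (s2 (s0 (v 3) (v 2)) (s0 (v 3) (v 2))) (v 3))) (by decide +kernel)

theorem twoC07_199 : Cov (esE 7 186 310 212) ⟨0, 274877906944⟩ ⟨1068450424291, 1335563030364⟩ ⟨678948430150, 819136162692⟩ :=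
  Cov.of (open T in (s2 (s0 (s1 (s2 (s0 (s0 (s0 (d 4) (d 4)) (d 4)) (d 4)) (s0 (s0 (d 6) (d 4)) (d 4))) (s2 (s0 (s0 (d 5) (d 4)) (d 4)) (s0 (s0 (d 4) (d 4)) (d 4)))) (s0 (d 3) (v 3))) (s0 (s1 (s2 (s0 (s0 (d 5) (d 4)) (d 4)) (s0 (s0 (d 4) (d 4)) (d 4))) (s2 (s0 (s0 (d 4) (d 4)) (d 3)) (s0 (s0 (d 4) (v 4)) (d 3)))) (d 6)))) (by decide +kernel)

theorem twoC07_200 : Cov (esE 7 186 310 212) ⟨0, 274877906944⟩ ⟨1335563030364, 1602675636437⟩ ⟨678948430150, 819136162692⟩ :=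
  Cov.of (open T in (s2 (s0 (s2 (s1 (s0 (s0 (d 4) (d 4)) (d 3)) (s0 (s0 (d 4) (v 4)) (d 3))) (s1 (s0 (s0 (d 4) (v 4)) (d 3)) (s0 (s0 (d 4) (d 3)) (d 3)))) (d 4)) (s0 (s1 (s2 (s0 (s0 (d 4) (v 4)) (d 3)) (s0 (s0 (d 4) (d 3)) (d 3))) (s2 (s0 (s0 (d 4) (d 3)) (d 3)) (s0 (d 5) (d 3)))) (d 3)))) (by decide +kernel)

theorem twoC07_201 : Cov (esE 7 186 310 212) ⟨274877906944, 549755813888⟩ ⟨1068450424291, 1602675636437⟩ ⟨678948430150, 819136162692⟩ :=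
  Cov.of (open T in (s0 (d 3) (v 3))) (by decide +kernel)

theorem twoC07_202 : Cov (esE 7 186 310 212) ⟨0, 549755813888⟩ ⟨1602675636437, 2136900848583⟩ ⟨678948430150, 819136162692⟩ :=
  Cov.of (open T in (s2 (s0 (s1 (s2 (s0 (s1 (s2 (s0 (d 6) (d 3)) (s0 (d 5) (v 3))) (s2 (s0 (d 4) (v 3)) (s0 (d 4) (v 3)))) (v 3)) (s0 (s1 (s0 (d 5) (v 3)) (s2 (s0 (d 4) (v 3)) (s0 (d 4) (v 3)))) (v 3))) (s2 (s0 (s1 (s2 (s0 (d 4) (v 3)) (s0 (d 4) (v 3))) (s0 (v 4) (v 3))) (v 3)) (s0 (s1 (s0 (v 4) (v 3)) (s0 (v 4) (v 3))) (v 3)))) (v 3)) (s0 (s1 (s0 (s2 (s1 (s0 (d 4) (v 3)) (s0 (d 4) (v 3))) (s1 (s0 (d 4) (v 3)) (s0 (d 4) (v 3)))) (v 3)) (s2 (s0 (s0 (d 4) (v 3)) (v 3)) (s0 (s0 (d 4) (v 3)) (v 3)))) (v 3)))) (by decide +kernel)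

theorem twoC07_203 : Cov (esE 7 186 310 212) ⟨549755813888, 1099511627776⟩ ⟨1068450424291, 2136900848583⟩ ⟨678948430150, 819136162692⟩ :=
  Cov.of (open T in (s1 (s0 (v 3) (v 2)) (v 3))) (by decide +kernel)

theorem twoC07_204 : Cov (esE 7 186 310 212) ⟨0, 1099511627776⟩ ⟨1068450424291, 2136900848583⟩ ⟨819136162692, 1099511627776⟩ :=
  Cov.of (open T in (s0 (s1 (s2 (s0 (s1 (s2 (s0 (s1 (s2 (s0 (s0 (d 4) (d 4)) (d 3)) (s0 (s0 (d 4) (v 4)) (d 3))) (s2 (s0 (s0 (d 4) (d 3)) (d 3)) (s0 (s0 (d 4) (d 3)) (d 3)))) (d 4)) (s0 (s1 (s0 (s0 (d 4) (d 3)) (d 3)) (s0 (s0 (d 4) (d 3)) (d 3))) (d 3))) (s2 (s0 (s1 (s0 (s0 (d 4) (d 3)) (d 3)) (s0 (d 5) (v 3))) (d 3)) (s0 (s0 (s0 (d 4) (d 3)) (d 3)) (v 3)))) (s0 (v 3) (v 3))) (s0 (s1 (s2 (s0 (s0 (s0 (d 4) (d 3)) (d 3)) (d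 3)) (s0 (s0 (s0 (d 4) (d 3)) (d 3)) (d 3))) (s2 (s0 (s0 (d 6) (d 3)) (v 3)) (s0 (s0 (d 4) (v 3)) (v 3)))) (s0 (v 3) (v 3)))) (s2 (s0 (s2 (s1 (s0 (s0 (d 5) (d 3)) (v 3)) (s0 (s0 (d 4) (v 3)) (v 3))) (s1 (s0 (s0 (d 4) (v 3)) (v 3)) (s0 (s0 (v 4) (v 3)) (v 3)))) (v 3)) (s0 (s1 (s2 (s0 (s0 (d 4) (v 3)) (v 3)) (s0 (s0 (v 4) (v 3)) (v 3))) (s2 (s0 (s0 (v 4) (v 3)) (v 3)) (s0 (s0 (d 3) (v 3)) (v 3)))) (v 3)))) (s0 (v 3) (v 3)))) (by decide +kernel)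

theorem twoC07_205 : Cov (esE 7 186 310 212) ⟨0, 1099511627776⟩ ⟨2136900848583, 4273801697166⟩ ⟨538760697609, 1099511627776⟩ :=
  Cov.of (open T in (s2 (s1 (s2 (s0 (s1 (s2 (s0 (d 1) (d 1)) (s0 (s1 (s2 (s0 (s1 (s2 (s0 (v 4) (v 3)) (s0 (v 4) (v 3))) (s2 (s0 (v 4) (v 3)) (v 6))) (v 3)) (s0 (s1 (s0 (v 4) (v 3)) (v 5)) (v 3))) (s2 (s0 (v 6) (v 3)) (s0 (v 4) (v 3)))) (v 3))) (s2 (d 1) (s0 (s1 (s2 (s0 (v 4) (v 3)) (s0 (v 4) (v 3))) (v 4)) (v 3)))) (v 3)) (s0 (s1 (s2 (s0 (s1 (s2 (s0 (s0 (v 4) (v 3)) (v 3)) (s0 (s0 (v 4) (v 3)) (v 3))) (s2 (s0 (v 4) (v 3)) (s0 (v 4) (v 3)))) (v 3)) (s0 (s1 (s2 (s0 (s0 (v 4) (v 3)) (v 3)) (s0 (s0 (v 4) (v 3)) (v 3))) (s2 (s0 (v 4) (v 3)) (s0 (v 4) (v 3)))) (v 3))) (s2 (s0 (s1 (s2 (s0 (v 3) (v 3)) (s0 (v 3) (v 3))) (v 4)) (v 3))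 (s0 (s1 (s2 (s0 (v 3) (v 3)) (v 5)) (v 3)) (v 3)))) (v 3))) (s2 (s2 (s0 (d 1) (d 1)) (s0 (s1 (s0 (v 4) (v 3)) (v 3)) (v 3))) (s0 (s1 (s2 (s0 (v 3) (v 3)) (s0 (v 3) (v 3))) (v 3)) (v 3)))) (s1 (s2 (s0 (s1 (s2 (s0 (s1 (s2 (s0 (v 6) (v 3)) (s0 (v 5) (v 3))) (s2 (s0 (v 4) (v 3)) (s0 (v 4) (v 3)))) (v 3)) (s0 (s1 (s0 (v 4) (v 3)) (s2 (s0 (v 4) (v 3)) (s0 (v 3) (v 3)))) (v 3))) (s2 (s0 (s1 (v 4) (v 3)) (v 3)) (s0 (s1 (v 4) (v 3)) (v 3)))) (v 3)) (s0 (s1 (s0 (s2 (s1 (s0 (v 4) (v 3)) (s2 (s0 (v 3) (v 3)) (s0 (v 3) (v 3)))) (s1 (s0 (v 4) (v 3)) (v 5))) (v 3)) (s2 (s0 (v 4) (v 3)) (s0 (v 4) (v 3)))) (v 3))) (s2 (s0 (s1 (s2 (s0 (v 3) (v 3)) (s0 (v 3) (v 3))) (v 3)) (v 3)) (s0 (s1 (s2 (s0 (v 3) (v 3)) (v 4)) (v 3)) (v 3)))))) (by decide +kernel)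

end Ent
end Pool.Agent.Lib.MP_6947cd_al
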