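import Pool.Agent.Lib.MP_6947cd_al.T.TwoNum

/-!
Problem MP_6947cd_al (Chollet).  The numerical condition of the two-entry loss, level 8 / 10.
-/

set_option autoImplicit false

namespace Pool.Agent.Lib.MP_6947cd_al
namespace Ent
open IA

theorem twoC08_12 : Cov (esE 8 178 285 248) ⟨0, 137438953472⟩ ⟨0, 136683039227⟩ ⟨703687441776, 753165465026⟩ :=
  Cov.of (open T in (s0 (s1 (s2 (s0 (s1 (s2 (s0 (s1 (s2 (s0 (v 0) (v 3)) (s0 (v 0) (v 3))) (v 3)) (v 3)) (s0 (s1 (s2 (s0 (v 0) (v 3)) (s0 (v 0) (v 3))) (v 3)) (v 3))) (s2 (s0 (v 3) (v 3)) (s0 (v 3) (v 3)))) (s1 (s2 (s0 (v 3) (v 3)) (s0 (v 3) (v 3))) (s2 (s0 (v 3) (d 3)) (s0 (v 3) (d 3))))) (s0 (s1 (s2 (s0 (s1 (s2 (s0 (v 0) (v 3)) (s0 (v 0) (v 3))) (v 3)) (v 3)) (s0 (s1 (s2 (s0 (v 0) (v 3)) (s0 (v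 0) (v 3))) (v 3)) (v 3))) (s2 (s0 (v 3) (v 3)) (s0 (v 3) (v 3)))) (s1 (s0 (v 3) (v 3)) (s0 (v 3) (d 3))))) (s2 (s0 (s1 (s2 (s0 (v 3) (v 3)) (s0 (v 3) (v 3))) (s2 (s0 (d 3) (d 3)) (s0 (d 3) (d 3)))) (s1 (s2 (s0 (d 3) (d 3)) (s0 (d 3) (d 3))) (s2 (d 1) (s0 (d 3) (d 3))))) (s0 (s1 (s2 (s0 (v 3) (v 3)) (s0 (v 3) (v 3))) (s2 (s0 (v 3) (d 3)) (s0 (v 3) (d 3)))) (s1 (s0 (d 3) (d 3)) (s0 (d 3) (d 3)))))) (s1 (s2 (s0 (s1 (s0 (d 3) (d 3)) (s0 (d 3) (d 3))) (s1 (s0 (d 3) (d 3)) (s0 (d 3) (d 3)))) (s0 (s0 (d 3) (d 3)) (s0 (d 3) (d 3)))) (s2 (s0 (s1 (s0 (d 3) (d 3)) (s2 (d 1) (s0 (d 3) (d 3)))) (s1 (s0 (d 3) (d 3)) (s2 (d 1) (s0 (d 3) (d 3))))) (s0 (s0 (d 3) (d 3)) (s0 (d 3) (d 3))))))) (by decide +kernel)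

theorem twoC08_13 : Cov (esE 8 178 285 248) ⟨0, 137438953472⟩ ⟨0, 136683039227⟩ ⟨753165465026, 802643488276⟩ :=
  Cov.of (open T in (s0 (s1 (s2 (s0 (s1 (s2 (s0 (s1 (s2 (s0 (v 0) (v 3)) (s0 (v 0) (v 3))) (v 3)) (v 3)) (s0 (s1 (s2 (s0 (v 0) (v 3)) (s0 (v 0) (v 3))) (v 3)) (v 3))) (s2 (s0 (v 3) (v 3)) (s0 (v 3) (v 3)))) (s1 (s0 (v 3) (v 3)) (s0 (v 3) (v 3)))) (s0 (s1 (s2 (s0 (s1 (s2 (s0 (v 0) (v 3)) (s0 (v 0) (v 3))) (v 3)) (v 3)) (s0 (s1 (s2 (s0 (v 0) (v 3)) (s0 (v 0) (v 3))) (v 3)) (v 3))) (s2 (s0 (v 3) (v 3)) (s0 (v 3) (v 3)))) (s1 (s0 (v 3) (v 3)) (s0 (v 3) (v 3))))) (s2 (s0 (s1 (s2 (s0 (v 3) (v 3)) (s0 (v 3) (v 3))) (s2 (s0 (v 3) (d 3)) (s0 (v 3) (d 3)))) (s0 (d 3) (d 3))) (s0 (s1 (s2 (s0 (v 3) (v 3)) (s0 (v 3) (v 3))) (s2 (s0 (v 3) (v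 3)) (s0 (v 3) (v 3)))) (s0 (d 3) (d 3))))) (s1 (s2 (s0 (s0 (d 3) (d 3)) (s0 (d 3) (d 3))) (s0 (s0 (d 3) (d 3)) (d 3))) (s2 (s0 (s0 (d 3) (d 3)) (s0 (d 3) (d 3))) (s0 (s0 (d 3) (d 3)) (d 3)))))) (by decide +kernel)

theorem twoC08_16 : Cov (esE 8 178 285 248) ⟨0, 68719476736⟩ ⟨136683039227, 273366078455⟩ ⟨703687441776, 753165465026⟩ :=
  Cov.of (open T in (s1 (s2 (s0 (s1 (s2 (d 1) (s0 (d 3) (d 3))) (s2 (d 1) (s0 (s0 (d 3) (d 3)) (d 3)))) (s1 (s2 (d 1) (s0 (d 3) (d 3))) (s2 (d 1) (s0 (d 3) (d 4))))) (s0 (s1 (s2 (s0 (d 3) (d 3)) (s0 (d 3) (d 3))) (s2 (s0 (d 3) (d 3)) (s0 (d 3) (d 3)))) (s1 (s0 (d 3) (d 3)) (s0 (d 3) (d 3))))) (s2 (s0 (s1 (s2 (d 1) (s0 (s1 (d 3) (d 4)) (d 4))) (s2 (d 1) (s0 (s1 (d 4) (s0 (v 4) (v 4))) (d 4)))) (s1 (s2 (d 1) (s0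 (d 4) (d 4))) (s2 (d 1) (s0 (d 4) (d 4))))) (s0 (s1 (s2 (s0 (s0 (d 3) (d 3)) (d 4)) (s0 (s0 (d 3) (d 3)) (d 4))) (s2 (s0 (s0 (v 4) (v 4)) (d 4)) (s0 (s0 (v 4) (v 4)) (d 4)))) (s1 (s0 (d 4) (d 4)) (s0 (d 4) (d 4))))))) (by decide +kernel)

theorem twoC08_17 : Cov (esE 8 178 285 248) ⟨68719476736, 137438953472⟩ ⟨136683039227, 273366078455⟩ ⟨703687441776, 753165465026⟩ :=
  Cov.of (open T in (s1 (s2 (s0 (s1 (s2 (d 1) (s0 (d 3) (d 3))) (s2 (d 1) (s0 (d 4) (d 3)))) (s1 (s2 (d 1) (s0 (d 3) (d 3))) (s2 (d 1) (s0 (d 3) (d 3))))) (s0 (s0 (d 4) (d 4)) (s0 (d 4) (d 3)))) (s2 (s0 (s1 (s2 (d 1) (s0 (d 4) (d 4))) (s2 (d 1) (s0 (d 1) (d 1)))) (s1 (s2 (d 1) (s0 (d 1) (d 1))) (d 1))) (s0 (s0 (d 4) (d 4)) (s0 (d 4) (d 4)))))) (by decide +kernel)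

theorem twoC08_18 : Cov (esE 8 178 285 248) ⟨0, 137438953472⟩ ⟨136683039227, 273366078455⟩ ⟨753165465026, 802643488276⟩ :=
  Cov.of (open T in (s0 (s1 (s2 (s0 (s1 (s2 (s0 (d 3) (d 3)) (s0 (d 3) (d 3))) (s2 (s0 (d 3) (d 3)) (s0 (d 3) (d 3)))) (s0 (d 4) (d 3))) (s0 (s1 (s2 (s0 (d 3) (d 3)) (s0 (d 3) (d 3))) (s0 (d 3) (d 3))) (s0 (d 3) (d 3)))) (s2 (s0 (s1 (s2 (s0 (s0 (d 3) (d 3)) (d 3)) (s0 (d 3) (d 3))) (s2 (s0 (s0 (v 4) (v 4)) (d 4)) (s0 (d 4) (d 4)))) (s0 (d 4) (d 4))) (s0 (s1 (s0 (d 3) (d 3)) (s0 (d 4) (d 4))) (s0 (d 4) (d 4))))) (s1 (s2 (s0 (s0 (d 3) (d 3)) (d 5)) (s0 (s0 (d 3) (d 3)) (d 3))) (s2 (s0 (s0 (d 4) (d 4)) (d 4)) (s0 (d 6) (d 4)))))) (by decide +kernel)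

theorem twoC08_20 : Cov (esE 8 178 285 248) ⟨137438953472, 274877906944⟩ ⟨0, 136683039227⟩ ⟨703687441776, 802643488276⟩ :=
  Cov.of (open T in (s2 (s0 (s1 (s2 (s0 (s1 (s0 (d 3) (d 3)) (s0 (d 3) (d 3))) (s1 (s0 (d 3) (d 3)) (s0 (d 3) (d 3)))) (s0 (s0 (d 3) (d 3)) (s0 (d 3) (d 3)))) (s2 (s0 (s1 (s0 (d 3) (d 3)) (s2 (d 1) (d 4))) (s1 (s0 (d 3) (d 3)) (s0 (d 3) (d 3)))) (s0 (s0 (d 3) (d 3)) (d 3)))) (s1 (s2 (s0 (s1 (s0 (d 3) (d 3)) (s0 (d 3) (d 3))) (s1 (s2 (d 1) (d 3)) (s0 (d 3) (d 3)))) (s0 (s0 (d 3) (d 3)) (d 3))) (s2 (s0 (s1 (s0 (d 3) (d 3)) (d 4)) (s1 (d 3) (d 1))) (s0 (d 3) (d 3))))) (s0 (s0 (s0 (d 4) (d 3)) (s0 (d 3) (d 3))) (s0 (s0 (d 3) (d 3)) (s0 (d 3) (d 3)))))) (by decide +kernel)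

theorem twoC08_21 : Cov (esE 8 178 285 248) ⟨137438953472, 274877906944⟩ ⟨136683039227, 273366078455⟩ ⟨703687441776, 802643488276⟩ :=
  Cov.of (open T in (s2 (s0 (s1 (s2 (s0 (s1 (s2 (d 1) (d 4)) (s2 (d 1) (d 4))) (s1 (s2 (d 1) (d 3)) (d 1))) (s0 (d 5) (d 4))) (s2 (d 1) (s0 (d 6) (d 3)))) (s1 (s2 (d 1) (s0 (d 3) (d 3))) (s2 (d 1) (s0 (d 3) (d 3))))) (s0 (s0 (s0 (d 4) (d 3)) (s0 (d 3) (d 3))) (s0 (d 3) (d 3))))) (by decide +kernel)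

theorem twoC08_24 : Cov (esE 8 178 285 248) ⟨0, 137438953472⟩ ⟨0, 136683039227⟩ ⟨802643488276, 901599534776⟩ :=
  Cov.of (open T in (s2 (s0 (s1 (s2 (s0 (s1 (s2 (s0 (s1 (s2 (s0 (v 0) (v 3)) (s0 (v 0) (v 3))) (v 3)) (v 3)) (s0 (s1 (s2 (s0 (v 0) (v 3)) (s0 (v 0) (v 3))) (v 3)) (v 3))) (s2 (v 4) (v 4))) (s0 (v 3) (d 3))) (s0 (s1 (s2 (s0 (s1 (s2 (s0 (v 0) (v 3)) (s0 (v 0) (v 3))) (v 3)) (v 3)) (s0 (s1 (s2 (s0 (v 0) (v 3)) (s0 (v 0) (v 3))) (v 3)) (v 3))) (v 3)) (s0 (v 3) (v 3)))) (s2 (s0 (s1 (s2 (s0 (v 3) (v 3)) (s0 (v 3) (v 3))) (s2 (s0 (v 3) (v 3)) (s0 (v 3) (v 3)))) (s0 (d 3) (d 3))) (s0 (s1 (s2 (s0 (v 3) (v 3)) (s0 (v 3) (v 3))) (s0 (v 3) (v 3))) (s0 (d 3) (d 3))))) (s1 (s0 (s0 (d 3) (d 3)) (d 3)) (s0 (d 4) (d 3)))) (s0 (s1 (s2 (s0 (s1 (s2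 (s0 (s1 (s2 (s0 (v 0) (v 3)) (s0 (v 0) (v 3))) (v 3)) (v 3)) (s0 (s1 (s2 (s0 (v 0) (v 3)) (s0 (v 0) (v 3))) (v 3)) (v 3))) (v 3)) (s0 (v 3) (v 3))) (s0 (s1 (s2 (s0 (s1 (s2 (s0 (v 0) (v 3)) (s0 (v 0) (v 3))) (v 3)) (v 3)) (s0 (s1 (s2 (s0 (v 0) (v 3)) (s0 (v 0) (v 3))) (v 3)) (v 3))) (v 3)) (s0 (v 3) (v 3)))) (s2 (s0 (s1 (s2 (s0 (v 3) (v 3)) (v 6)) (s0 (v 3) (v 3))) (s0 (d 3) (d 3))) (s0 (s1 (v 4) (s0 (v 3) (v 3))) (d 4)))) (s0 (s0 (d 3) (d 3)) (s0 (d 3) (d 3)))))) (by decide +kernel)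

theorem twoC08_25 : Cov (esE 8 178 285 248) ⟨0, 137438953472⟩ ⟨136683039227, 273366078455⟩ ⟨802643488276, 901599534776⟩ :=
  Cov.of (open T in (s2 (s0 (s1 (s2 (s0 (s1 (s0 (d 3) (d 3)) (s0 (d 3) (d 3))) (s0 (d 3) (d 3))) (s0 (s1 (s0 (v 3) (d 3)) (s0 (d 3) (d 3))) (s0 (d 3) (d 3)))) (s2 (s0 (s1 (s0 (d 3) (d 3)) (s0 (d 4) (d 3))) (s0 (d 4) (d 3))) (s0 (s0 (s0 (d 3) (d 3)) (d 4)) (s0 (d 3) (d 3))))) (s0 (s0 (d 4) (d 4)) (s0 (d 3) (d 3)))) (s0 (s1 (s2 (s0 (s0 (d 3) (d 3)) (d 4)) (s0 (s0 (d 3) (d 3)) (d 4))) (s2 (s0 (s0 (s0 (d 3) (d 3)) (d 3)) (d 4)) (s0 (s0 (d 3) (d 3)) (d 4)))) (s0 (s0 (d 3) (d 3)) (d 3))))) (by decide +kernel)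

theorem twoC08_26 : Cov (esE 8 178 285 248) ⟨137438953472, 274877906944⟩ ⟨0, 273366078455⟩ ⟨802643488276, 901599534776⟩ :=
  Cov.of (open T in (s1 (s2 (s0 (s0 (s0 (d 3) (d 3)) (d 3)) (s0 (d 3) (d 3))) (s0 (s0 (d 3) (d 3)) (s0 (d 3) (d 3)))) (s2 (s0 (s0 (d 3) (d 3)) (s0 (d 3) (d 3))) (s0 (s0 (d 3) (d 3)) (d 3))))) (by decide +kernel)

theorem twoC08_33 : Cov (esE 8 178 285 248) ⟨0, 68719476736⟩ ⟨273366078455, 341707598069⟩ ⟨703687441776, 753165465026⟩ :=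
  Cov.of (open T in (s2 (s0 (s1 (s2 (d 1) (s0 (s1 (s2 (d 1) (s0 (v 4) (v 4))) (s2 (d 1) (s0 (v 4) (d 4)))) (d 4))) (s2 (d 1) (s0 (d 1) (d 1)))) (s1 (s2 (d 1) (s0 (d 1) (d 1))) (d 1))) (s0 (s1 (s2 (s0 (s1 (d 4) (s0 (v 4) (d 4))) (d 4)) (s0 (s0 (v 4) (d 4)) (d 4))) (s2 (s0 (s1 (s0 (v 4) (d 4)) (s0 (d 4) (d 4))) (d 4)) (s0 (s0 (d 4) (d 4)) (d 4)))) (s1 (s2 (s0 (d 4) (d 4)) (s0 (d 4) (d 4))) (s2 (s0 (d 4) (d 4)) (s0 (d 4) (d 4))))))) (by decide +kernel)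

theorem twoC08_34 : Cov (esE 8 178 285 248) ⟨0, 68719476736⟩ ⟨341707598069, 410049117683⟩ ⟨703687441776, 753165465026⟩ :=
  Cov.of (open T in (s2 (d 1) (s0 (s1 (s2 (s0 (s1 (s0 (d 4) (d 4)) (s2 (s0 (d 4) (d 4)) (s0 (d 4) (d 4)))) (d 6)) (s0 (s0 (d 4) (d 4)) (d 4))) (s2 (s0 (s1 (s2 (s0 (d 4) (d 4)) (s0 (d 4) (d 4))) (s2 (s0 (d 4) (d 4)) (s0 (d 4) (d 4)))) (s0 (d 4) (d 4))) (s0 (s0 (d 4) (d 4)) (d 6)))) (s1 (s2 (s0 (d 5) (d 4)) (s0 (d 4) (d 4))) (s2 (s0 (d 6) (d 4)) (s0 (d 4) (d 4))))))) (by decide +kernel)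

theorem twoC08_35 : Cov (esE 8 178 285 248) ⟨68719476736, 137438953472⟩ ⟨273366078455, 410049117683⟩ ⟨703687441776, 753165465026⟩ :=
  Cov.of (open T in (s1 (s2 (d 1) (s0 (s0 (d 4) (d 4)) (s0 (d 4) (d 4)))) (s2 (d 1) (s0 (s0 (d 5) (d 4)) (s0 (d 4) (d 4)))))) (by decide +kernel)

theorem twoC08_38 : Cov (esE 8 178 285 248) ⟨0, 68719476736⟩ ⟨273366078455, 341707598069⟩ ⟨753165465026, 802643488276⟩ :=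
  Cov.of (open T in (s2 (s0 (s1 (s2 (s0 (s0 (v 4) (d 4)) (d 4)) (s0 (d 4) (d 4))) (s2 (s0 (s0 (d 4) (d 4)) (d 4)) (s0 (s0 (v 4) (d 4)) (d 4)))) (s0 (d 4) (d 4))) (s0 (s1 (s2 (s0 (d 4) (d 4)) (s0 (d 4) (d 4))) (s2 (s0 (d 4) (d 4)) (s0 (d 4) (d 4)))) (s0 (d 4) (d 4))))) (by decide +kernel)

theorem twoC08_39 : Cov (esE 8 178 285 248) ⟨0, 68719476736⟩ ⟨341707598069, 410049117683⟩ ⟨753165465026, 802643488276⟩ :=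
  Cov.of (open T in (s2 (s0 (s1 (s2 (s0 (s0 (d 4) (d 4)) (d 4)) (s0 (s0 (d 4) (d 4)) (d 4))) (s2 (s0 (s0 (d 4) (d 4)) (d 4)) (s0 (s0 (d 4) (d 4)) (d 4)))) (s0 (d 6) (d 4))) (s0 (s1 (s2 (s0 (d 4) (d 4)) (s0 (d 4) (d 4))) (s2 (s0 (s0 (d 4) (d 4)) (d 4)) (s0 (d 4) (d 4)))) (s0 (d 4) (d 4))))) (by decide +kernel)

theorem twoC08_40 : Cov (esE 8 178 285 248) ⟨68719476736, 137438953472⟩ ⟨273366078455, 410049117683⟩ ⟨753165465026, 802643488276⟩ :=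
  Cov.of (open T in (s1 (s2 (s0 (s0 (d 4) (d 4)) (d 4)) (s0 (d 5) (d 4))) (s2 (s0 (s0 (d 4) (d 4)) (d 4)) (s0 (d 6) (d 4))))) (by decide +kernel)

theorem twoC08_44 : Cov (esE 8 178 285 248) ⟨0, 68719476736⟩ ⟨410049117683, 478390637297⟩ ⟨703687441776, 753165465026⟩ :=
  Cov.of (open T in (s2 (d 1) (s0 (s1 (s2 (s0 (s1 (s2 (s0 (d 4) (d 4)) (s0 (d 4) (d 4))) (s2 (d 1) (s0 (d 4) (d 4)))) (s0 (d 4) (d 4))) (s0 (s1 (s0 (d 4) (d 4)) (s0 (d 4) (d 4))) (d 6))) (s2 (s0 (s1 (s2 (d 1) (s0 (d 4) (d 4))) (s2 (d 1) (s0 (d 4) (d 4)))) (s1 (s0 (d 4) (d 4)) (s0 (d 4) (d 4)))) (s0 (s1 (s0 (d 4) (d 4)) (s2 (s0 (d 4) (d 4)) (s0 (d 4) (d 4)))) (s0 (d 4) (d 4))))) (s1 (s2 (s0 (d 6) (d 5)) (s0 (d 5) (d 4))) (s2 (s0 (d 6) (d 6)) (s0 (d 5) (d 4))))))) (by decide +kernel)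

end Ent
end Pool.Agent.Lib.MP_6947cd_al
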