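import Pool.Agent.Lib.MP_6947cd_al.T.TwoNum

/-!
Problem MP_6947cd_al (Chollet).  The numerical condition of the two-entry loss, level 8 / 10.
-/

set_option autoImplicit false

namespace Pool.Agent.Lib.MP_6947cd_al
namespace Ent
open IA

theorem twoC08_46 : Cov (esE 8 178 285 248) ⟨0, 68719476736⟩ ⟨478390637297, 546732156911⟩ ⟨703687441776, 728426453401⟩ :=
  Cov.of (open T in (d 1)) (by decide +kernel)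

theorem twoC08_48 : Cov (esE 8 178 285 248) ⟨0, 34359738368⟩ ⟨478390637297, 546732156911⟩ ⟨728426453401, 753165465026⟩ :=
  Cov.of (open T in (s1 (s2 (s0 (s1 (s2 (d 1) (s0 (d 4) (d 4))) (s2 (d 1) (s0 (d 4) (d 4)))) (s1 (s2 (d 1) (s0 (d 4) (d 4))) (s2 (d 1) (s0 (d 4) (d 4))))) (s0 (s1 (s2 (s0 (d 4) (d 4)) (s0 (d 4) (d 4))) (s2 (s0 (d 4) (d 4)) (s0 (d 4) (d 4)))) (s0 (d 4) (d 4)))) (s2 (s0 (s1 (s2 (d 1) (s0 (d 4) (d 5))) (s2 (d 1) (s0 (d 5) (d 5)))) (s1 (s2 (d 1) (s0 (d 5) (d 4))) (s2 (d 1) (s0 (d 5) (d 5))))) (s0 (s1 (s2 (s0 (d 4) (d 4)) (s0 (d 4) (d 4))) (s2 (s0 (d 4) (d 4)) (s0 (d 4) (d 4)))) (s0 (d 5) (d 4)))))) (by decide +kernel)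

theorem twoC08_49 : Cov (esE 8 178 285 248) ⟨34359738368, 68719476736⟩ ⟨478390637297, 546732156911⟩ ⟨728426453401, 753165465026⟩ :=
  Cov.of (open T in (s1 (s2 (s0 (d 6) (d 6)) (s0 (d 6) (d 4))) (s2 (s0 (s0 (d 5) (d 5)) (d 6)) (s0 (d 6) (d 4))))) (by decide +kernel)

theorem twoC08_50 : Cov (esE 8 178 285 248) ⟨68719476736, 137438953472⟩ ⟨410049117683, 546732156911⟩ ⟨703687441776, 753165465026⟩ :=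
  Cov.of (open T in (s1 (s2 (d 1) (s0 (s0 (d 5) (d 4)) (s0 (d 4) (d 4)))) (s2 (d 1) (s0 (s1 (s0 (d 4) (d 4)) (s0 (d 4) (d 4))) (d 5))))) (by decide +kernel)

theorem twoC08_53 : Cov (esE 8 178 285 248) ⟨0, 68719476736⟩ ⟨410049117683, 478390637297⟩ ⟨753165465026, 802643488276⟩ :=
  Cov.of (open T in (s2 (s0 (s1 (s2 (s0 (s0 (d 4) (d 4)) (d 5)) (s0 (s0 (d 4) (d 4)) (d 4))) (s2 (s0 (s0 (d 4) (d 4)) (d 6)) (s0 (s0 (d 4) (d 4)) (d 4)))) (s0 (d 6) (d 4))) (s0 (s1 (s2 (s0 (s0 (d 4) (d 4)) (d 4)) (s0 (s0 (d 4) (d 4)) (d 4))) (s2 (s0 (s0 (d 4) (d 4)) (d 4)) (s0 (s0 (d 4) (d 4)) (d 4)))) (s0 (d 4) (d 4))))) (by decide +kernel)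

theorem twoC08_54 : Cov (esE 8 178 285 248) ⟨0, 68719476736⟩ ⟨478390637297, 546732156911⟩ ⟨753165465026, 802643488276⟩ :=
  Cov.of (open T in (s2 (s0 (s1 (s2 (s0 (s0 (d 4) (d 4)) (d 6)) (s0 (s0 (d 4) (d 4)) (d 5))) (s2 (s0 (s0 (d 4) (d 4)) (d 6)) (s0 (s0 (d 4) (d 4)) (d 5)))) (s0 (d 6) (d 4))) (s0 (s1 (s2 (s0 (s0 (d 4) (d 4)) (d 4)) (s0 (s0 (d 4) (d 4)) (d 4))) (s2 (s0 (s0 (d 4) (d 4)) (d 4)) (s0 (s0 (d 4) (d 4)) (d 4)))) (s0 (d 4) (d 4))))) (by decide +kernel)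

theorem twoC08_55 : Cov (esE 8 178 285 248) ⟨68719476736, 137438953472⟩ ⟨410049117683, 546732156911⟩ ⟨753165465026, 802643488276⟩ :=
  Cov.of (open T in (s1 (s2 (s0 (s0 (d 4) (d 4)) (d 4)) (s0 (d 6) (d 4))) (s2 (s0 (s0 (d 4) (d 4)) (d 4)) (s0 (d 6) (d 4))))) (by decide +kernel)

theorem twoC08_56 : Cov (esE 8 178 285 248) ⟨137438953472, 274877906944⟩ ⟨273366078455, 546732156911⟩ ⟨703687441776, 802643488276⟩ :=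
  Cov.of (open T in (s1 (s2 (s0 (s1 (s2 (d 1) (s0 (d 4) (d 3))) (s2 (d 1) (s0 (d 4) (d 3)))) (s1 (s0 (d 3) (d 3)) (s0 (d 3) (d 3)))) (s0 (s0 (s0 (d 3) (d 3)) (d 4)) (s0 (d 3) (d 3)))) (s2 (s0 (s1 (s2 (d 1) (s0 (d 4) (d 3))) (s2 (d 1) (s0 (d 4) (d 3)))) (s0 (d 3) (d 3))) (s0 (s0 (d 4) (d 3)) (d 4))))) (by decide +kernel)

theorem twoC08_59 : Cov (esE 8 178 285 248) ⟨0, 137438953472⟩ ⟨273366078455, 410049117683⟩ ⟨802643488276, 901599534776⟩ :=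
  Cov.of (open T in (s2 (s0 (s1 (s2 (s0 (s1 (s0 (d 4) (d 4)) (s0 (d 4) (d 4))) (s0 (d 4) (d 4))) (s0 (s0 (s0 (v 4) (d 4)) (d 4)) (s0 (d 4) (d 4)))) (s2 (s0 (s1 (s0 (d 4) (d 4)) (s0 (d 4) (d 4))) (s0 (d 4) (d 4))) (s0 (s0 (s0 (d 4) (d 4)) (d 4)) (d 6)))) (s0 (s0 (d 4) (d 4)) (d 4))) (s0 (s1 (s2 (s0 (s0 (d 4) (d 4)) (d 4)) (s0 (s0 (d 4) (d 4)) (d 4))) (s2 (s0 (s0 (d 4) (d 4)) (d 4)) (s0 (s0 (d 4) (d 4)) (d 4)))) (s0 (d 4) (d 4))))) (by decide +kernel)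

theorem twoC08_60 : Cov (esE 8 178 285 248) ⟨0, 137438953472⟩ ⟨410049117683, 546732156911⟩ ⟨802643488276, 901599534776⟩ :=
  Cov.of (open T in (s2 (s0 (s1 (s2 (s0 (s1 (s0 (d 4) (d 4)) (s0 (d 4) (d 4))) (s0 (d 4) (d 4))) (s0 (s0 (s0 (d 4) (d 4)) (d 4)) (d 5))) (s2 (s0 (s0 (s0 (d 4) (d 4)) (d 4)) (s0 (d 4) (d 4))) (s0 (s0 (s0 (d 4) (d 4)) (d 4)) (d 6)))) (s0 (s0 (d 4) (d 4)) (d 4))) (s0 (s1 (s2 (s0 (s0 (d 4) (d 4)) (d 4)) (s0 (s0 (d 4) (d 4)) (d 4))) (s2 (s0 (s0 (d 4) (d 4)) (d 4)) (s0 (s0 (d 4) (d 4)) (d 4)))) (s0 (d 4) (d 3))))) (by decide +kernel)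

theorem twoC08_61 : Cov (esE 8 178 285 248) ⟨137438953472, 274877906944⟩ ⟨273366078455, 546732156911⟩ ⟨802643488276, 901599534776⟩ :=
  Cov.of (open T in (s1 (s2 (s0 (s0 (d 3) (d 3)) (d 4)) (s0 (s0 (d 3) (d 3)) (d 3))) (s0 (s0 (d 3) (d 3)) (d 3)))) (by decide +kernel)

theorem twoC08_62 : Cov (esE 8 178 285 248) ⟨274877906944, 549755813888⟩ ⟨0, 546732156911⟩ ⟨703687441776, 901599534776⟩ :=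
  Cov.of (open T in (s1 (s2 (s0 (s1 (s2 (s0 (s1 (s2 (s0 (s1 (s2 (d 1) (d 3)) (d 3)) (s1 (d 3) (d 1))) (s0 (d 3) (d 3))) (s0 (s0 (d 3) (d 3)) (d 3))) (s1 (s0 (d 3) (d 3)) (s0 (d 3) (d 3)))) (s0 (s0 (d 3) (d 3)) (s0 (d 3) (d 3)))) (s2 (s0 (s0 (d 3) (d 3)) (s0 (d 3) (d 3))) (s0 (s0 (d 3) (d 3)) (d 3)))) (s1 (s0 (s0 (d 3) (d 3)) (d 3)) (s0 (d 3) (d 3)))) (s0 (s0 (s0 (s1 (d 3) (d 3)) (s1 (d 3) (d 3))) (s0 (d 3) (d 3))) (s0 (s0 (d 3) (d 3)) (d 3)))) (s2 (s0 (s1 (s2 (s0 (d 4) (d 3)) (s0 (d 3) (d 3))) (s0 (d 3) (d 3))) (s0 (d 3) (d 3))) (s0 (s0 (d 4) (d 3)) (d 3))))) (by decide +kernel)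

theorem twoC08_66 : Cov (esE 8 178 285 248) ⟨0, 274877906944⟩ ⟨0, 273366078455⟩ ⟨901599534776, 1000555581276⟩ :=
  Cov.of (open T in (s0 (s1 (s2 (s0 (s1 (s2 (s0 (s1 (s2 (s0 (s1 (s2 (s0 (v 0) (v 3)) (s0 (v 0) (v 3))) (v 3)) (v 3)) (s0 (s1 (s0 (v 0) (v 3)) (v 3)) (v 3))) (v 3)) (s0 (v 3) (v 3))) (s0 (s1 (s0 (s2 (s1 (s0 (v 0) (v 3)) (v 3)) (s1 (s0 (v 0) (v 3)) (v 3))) (v 3)) (v 3)) (s0 (v 3) (v 3)))) (s2 (s0 (s1 (v 4) (s0 (v 3) (v 3))) (d 3)) (s0 (s1 (v 3) (v 4)) (d 3)))) (s0 (s0 (d 3) (d 3)) (d 3))) (s0 (s1 (s2 (s0 (s1 (s0 (s2 (s1 (s0 (v 0) (v 3)) (v 3)) (s1 (s0 (v 0) (v 3)) (v 3))) (v 3)) (v 3)) (s0 (v 3) (v 3))) (s0 (s1 (s0 (s2 (s1 (s0 (v 0) (v 3)) (v 3)) (s1 (s0 (v 0) (v 3)) (v 3))) (v 3)) (v 3)) (v 3))) (s2 (s0 (s1 (v 3) (v 4)) (d 3)) (s0 (v 5) (d 3))))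 (s0 (s0 (d 3) (d 3)) (d 3)))) (s2 (s0 (s1 (s2 (s0 (s0 (d 3) (d 3)) (d 3)) (s0 (s0 (d 3) (d 3)) (d 3))) (s2 (s0 (s0 (d 3) (d 3)) (d 3)) (s0 (s0 (d 3) (d 3)) (d 3)))) (s0 (d 4) (d 3))) (s0 (s1 (s2 (s0 (s0 (v 3) (v 3)) (d 3)) (s0 (s0 (v 3) (v 3)) (d 3))) (s0 (s0 (d 3) (d 3)) (d 3))) (s0 (d 3) (d 3))))) (s1 (s0 (s0 (d 3) (d 3)) (d 3)) (s0 (s0 (d 3) (d 3)) (d 3))))) (by decide +kernel)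

theorem twoC08_67 : Cov (esE 8 178 285 248) ⟨0, 274877906944⟩ ⟨0, 273366078455⟩ ⟨1000555581276, 1099511627776⟩ :=
  Cov.of (open T in (s0 (s1 (s2 (s0 (s1 (s0 (s2 (s1 (s0 (s2 (s1 (s0 (v 0) (v 3)) (v 3)) (s1 (s0 (v 0) (v 3)) (v 3))) (v 3)) (v 3)) (s1 (s0 (s2 (s1 (s0 (v 0) (v 3)) (v 3)) (s1 (s0 (v 0) (v 3)) (v 3))) (v 3)) (v 3))) (v 3)) (s2 (s0 (v 4) (d 3)) (s0 (v 4) (d 3)))) (s0 (d 3) (d 3))) (s0 (s1 (s0 (s2 (s1 (s0 (s2 (s1 (s0 (v 0) (v 3)) (v 3)) (s1 (s0 (v 0) (v 3)) (v 3))) (v 3)) (v 3)) (s1 (s0 (s2 (s1 (s0 (v 0) (v 3)) (v 3)) (s1 (s0 (v 0) (v 3)) (v 3))) (v 3)) (v 3))) (v 3)) (s0 (v 3) (d 3))) (s0 (d 3) (d 3)))) (s2 (s0 (s1 (s2 (s0 (s0 (v 3) (v 3)) (d 3)) (s0 (s0 (v 3) (v 3)) (d 3))) (s0 (s0 (d 3) (d 3)) (d 3))) (s0 (d 3) (d 3))) (s0 (s1 (s0 (s0 (v 3) (v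 3)) (d 3)) (s0 (d 3) (d 3))) (s0 (d 3) (d 3))))) (s0 (s0 (d 3) (d 3)) (d 3)))) (by decide +kernel)

theorem twoC08_69 : Cov (esE 8 178 285 248) ⟨0, 274877906944⟩ ⟨273366078455, 546732156911⟩ ⟨901599534776, 1000555581276⟩ :=
  Cov.of (open T in (s0 (s1 (s2 (s0 (s1 (s2 (s0 (s0 (d 4) (d 3)) (d 4)) (s0 (s0 (d 3) (d 3)) (d 3))) (s2 (s0 (s0 (d 4) (d 4)) (d 4)) (s0 (s0 (d 4) (d 4)) (d 4)))) (s0 (d 4) (d 3))) (s0 (s1 (s0 (s0 (d 3) (d 3)) (d 3)) (s0 (s0 (d 4) (d 3)) (d 4))) (s0 (d 3) (d 3)))) (s2 (s0 (s1 (s2 (s0 (s0 (d 4) (d 4)) (d 4)) (s0 (s0 (d 4) (d 4)) (d 4))) (s0 (s0 (d 4) (d 4)) (d 4))) (s0 (d 4) (d 3))) (s0 (s1 (s0 (s0 (d 4) (d 4)) (d 4)) (s0 (s0 (d 4) (d 4)) (d 4))) (s0 (d 3) (d 3))))) (s0 (s0 (d 3) (d 3)) (d 4)))) (by decide +kernel)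

theorem twoC08_70 : Cov (esE 8 178 285 248) ⟨0, 274877906944⟩ ⟨273366078455, 546732156911⟩ ⟨1000555581276, 1099511627776⟩ :=
  Cov.of (open T in (s0 (s1 (s2 (s0 (s0 (s0 (d 4) (d 4)) (d 4)) (s0 (d 3) (d 3))) (s0 (s0 (s0 (d 4) (d 3)) (d 3)) (d 4))) (s2 (s0 (s0 (s0 (d 4) (d 4)) (d 4)) (d 6)) (s0 (s0 (s0 (d 4) (d 4)) (d 4)) (d 4)))) (s0 (s0 (d 3) (d 3)) (d 3)))) (by decide +kernel)

theorem twoC08_71 : Cov (esE 8 178 285 248) ⟨274877906944, 549755813888⟩ ⟨0, 546732156911⟩ ⟨901599534776, 1099511627776⟩ :=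
  Cov.of (open T in (s1 (s2 (s0 (s0 (s0 (d 3) (d 3)) (d 3)) (s0 (d 3) (d 3))) (s0 (s0 (d 3) (d 3)) (d 3))) (s2 (s0 (s0 (d 3) (d 3)) (d 3)) (s0 (s0 (d 3) (d 3)) (d 3))))) (by decide +kernel)

theorem twoC08_82 : Cov (esE 8 178 285 248) ⟨0, 68719476736⟩ ⟨546732156911, 615073676525⟩ ⟨703687441776, 728426453401⟩ :=
  Cov.of (open T in (d 1)) (by decide +kernel)

theorem twoC08_83 : Cov (esE 8 178 285 248) ⟨0, 68719476736⟩ ⟨546732156911, 615073676525⟩ ⟨728426453401, 753165465026⟩ :=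
  Cov.of (open T in (s0 (s1 (s2 (s0 (s1 (s2 (d 1) (s0 (d 5) (d 5))) (s2 (v 1) (s0 (d 5) (d 5)))) (s1 (s2 (v 1) (s0 (d 5) (d 5))) (s2 (v 1) (d 1)))) (s0 (s1 (s2 (s0 (d 5) (d 5)) (s0 (d 4) (d 4))) (s2 (s0 (d 5) (d 5)) (s0 (d 4) (d 5)))) (s0 (d 5) (d 5)))) (s2 (s0 (s1 (s2 (v 1) (d 1)) (d 1)) (d 1)) (s0 (s1 (s2 (s0 (d 5) (d 5)) (s0 (d 5) (d 5))) (s2 (s0 (d 5) (d 5)) (s0 (d 5) (d 5)))) (s0 (d 5) (d 5))))) (s1 (s2 (s0 (s1 (d 6) (d 1)) (d 1)) (s0 (d 6) (d 4))) (s2 (d 1) (s0 (d 6) (d 4)))))) (by decide +kernel)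

end Ent
end Pool.Agent.Lib.MP_6947cd_al
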