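import Pool.Agent.Lib.MP_6947cd_al.T.TwoNum

/-!
Problem MP_6947cd_al (Chollet).  The numerical condition of the two-entry loss, level 8 / 10.
-/

set_option autoImplicit false

namespace Pool.Agent.Lib.MP_6947cd_al
namespace Ent
open IA

theorem twoC08_84 : Cov (esE 8 178 285 248) ⟨0, 68719476736⟩ ⟨615073676525, 683415196139⟩ ⟨703687441776, 753165465026⟩ :=
  Cov.of (open T in (s2 (d 1) (s0 (s1 (s2 (d 1) (s0 (s1 (s2 (s0 (d 6) (d 5)) (s0 (d 5) (d 5))) (s2 (s0 (d 6) (d 5)) (s0 (d 5) (d 5)))) (s0 (d 5) (d 5)))) (s2 (d 1) (s0 (s1 (s2 (s0 (d 6) (d 5)) (s0 (d 5) (d 5))) (s2 (s0 (d 6) (d 5)) (s0 (d 5) (d 5)))) (s0 (d 5) (d 5))))) (s1 (s2 (d 1) (s0 (d 6) (d 4))) (s2 (d 1) (s0 (d 6) (d 4))))))) (by decide +kernel)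

theorem twoC08_85 : Cov (esE 8 178 285 248) ⟨68719476736, 137438953472⟩ ⟨546732156911, 683415196139⟩ ⟨703687441776, 753165465026⟩ :=
  Cov.of (open T in (s1 (s2 (d 1) (s0 (s0 (d 4) (d 4)) (d 4))) (s2 (d 1) (s0 (s0 (d 4) (d 4)) (d 4))))) (by decide +kernel)

theorem twoC08_88 : Cov (esE 8 178 285 248) ⟨0, 68719476736⟩ ⟨546732156911, 615073676525⟩ ⟨753165465026, 802643488276⟩ :=
  Cov.of (open T in (s2 (s0 (s1 (s2 (s0 (s0 (d 5) (d 4)) (d 6)) (s0 (s0 (d 4) (d 4)) (d 5))) (s2 (s0 (s0 (d 5) (d 5)) (d 6)) (s0 (s0 (d 4) (d 4)) (d 5)))) (s0 (d 6) (d 4))) (s0 (s1 (s2 (s0 (s0 (d 4) (d 4)) (d 4)) (s0 (s0 (d 4) (d 4)) (d 4))) (s0 (s0 (d 4) (d 4)) (d 5))) (s0 (d 4) (d 4))))) (by decide +kernel)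

theorem twoC08_89 : Cov (esE 8 178 285 248) ⟨0, 68719476736⟩ ⟨615073676525, 683415196139⟩ ⟨753165465026, 802643488276⟩ :=
  Cov.of (open T in (s2 (s0 (s1 (s2 (s0 (s0 (d 5) (d 5)) (d 6)) (s0 (s0 (d 5) (d 4)) (d 5))) (s2 (s0 (s0 (d 5) (d 5)) (d 6)) (s0 (s0 (d 5) (d 4)) (d 5)))) (s0 (d 6) (d 4))) (s0 (s1 (s0 (s0 (d 4) (d 4)) (d 5)) (s0 (s0 (d 4) (d 4)) (d 5))) (s0 (d 4) (d 4))))) (by decide +kernel)

theorem twoC08_90 : Cov (esE 8 178 285 248) ⟨68719476736, 137438953472⟩ ⟨546732156911, 683415196139⟩ ⟨753165465026, 802643488276⟩ :=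
  Cov.of (open T in (s1 (s2 (s0 (s0 (d 4) (d 4)) (d 4)) (s0 (d 4) (d 4))) (s0 (s0 (d 4) (d 4)) (d 4)))) (by decide +kernel)

theorem twoC08_94 : Cov (esE 8 178 285 248) ⟨0, 68719476736⟩ ⟨683415196139, 820098235367⟩ ⟨703687441776, 728426453401⟩ :=
  Cov.of (open T in (d 1)) (by decide +kernel)

theorem twoC08_96 : Cov (esE 8 178 285 248) ⟨0, 68719476736⟩ ⟨683415196139, 751756715753⟩ ⟨728426453401, 753165465026⟩ :=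
  Cov.of (open T in (s0 (s1 (s2 (d 1) (s0 (s1 (s2 (s0 (d 6) (d 5)) (s0 (d 5) (d 5))) (s2 (s0 (d 6) (d 5)) (s0 (d 5) (d 5)))) (s0 (d 5) (d 5)))) (s2 (d 1) (s0 (s1 (s2 (s0 (d 6) (d 5)) (s0 (d 5) (d 5))) (s2 (s0 (d 6) (d 5)) (s0 (d 5) (d 5)))) (s0 (d 5) (d 5))))) (s2 (d 1) (s1 (s0 (d 6) (d 4)) (s0 (d 5) (d 4)))))) (by decide +kernel)

theorem twoC08_97 : Cov (esE 8 178 285 248) ⟨0, 68719476736⟩ ⟨751756715753, 820098235367⟩ ⟨728426453401, 753165465026⟩ :=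
  Cov.of (open T in (s0 (s2 (d 1) (s1 (s0 (s2 (s1 (s0 (d 6) (d 5)) (s0 (d 6) (d 5))) (s1 (s0 (d 5) (d 5)) (s0 (d 5) (d 5)))) (d 6)) (s0 (s2 (s1 (d 1) (d 1)) (s1 (s0 (d 5) (d 5)) (s0 (d 5) (d 5)))) (d 6)))) (s2 (d 1) (s1 (s0 (d 5) (d 4)) (s0 (d 5) (d 4)))))) (by decide +kernel)

theorem twoC08_98 : Cov (esE 8 178 285 248) ⟨68719476736, 137438953472⟩ ⟨683415196139, 820098235367⟩ ⟨703687441776, 753165465026⟩ :=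
  Cov.of (open T in (s2 (d 1) (s1 (s0 (s0 (d 4) (d 4)) (d 4)) (s0 (d 5) (d 4))))) (by decide +kernel)

theorem twoC08_101 : Cov (esE 8 178 285 248) ⟨0, 68719476736⟩ ⟨683415196139, 751756715753⟩ ⟨753165465026, 802643488276⟩ :=
  Cov.of (open T in (s2 (s0 (s1 (s2 (s0 (s0 (d 5) (d 5)) (d 6)) (s0 (s0 (d 5) (d 4)) (d 5))) (s2 (s0 (s0 (d 5) (d 5)) (d 6)) (s0 (s0 (d 5) (d 5)) (d 5)))) (s0 (d 6) (d 4))) (s0 (s1 (s0 (s0 (d 4) (d 4)) (d 5)) (s0 (s0 (d 4) (d 4)) (d 5))) (s0 (d 4) (d 4))))) (by decide +kernel)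

theorem twoC08_102 : Cov (esE 8 178 285 248) ⟨0, 68719476736⟩ ⟨751756715753, 820098235367⟩ ⟨753165465026, 802643488276⟩ :=
  Cov.of (open T in (s2 (s0 (s1 (s2 (s0 (s0 (d 5) (d 5)) (d 6)) (s0 (s0 (d 5) (d 5)) (d 5))) (s2 (s0 (s0 (d 5) (d 5)) (d 6)) (s0 (s0 (d 5) (d 5)) (d 5)))) (s0 (d 5) (d 4))) (s0 (s0 (s0 (d 5) (d 4)) (d 5)) (s0 (d 4) (d 4))))) (by decide +kernel)

theorem twoC08_103 : Cov (esE 8 178 285 248) ⟨68719476736, 137438953472⟩ ⟨683415196139, 820098235367⟩ ⟨753165465026, 802643488276⟩ :=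
  Cov.of (open T in (s2 (s1 (s0 (d 4) (d 4)) (s0 (d 4) (d 4))) (s0 (d 5) (d 4)))) (by decide +kernel)

theorem twoC08_104 : Cov (esE 8 178 285 248) ⟨137438953472, 274877906944⟩ ⟨546732156911, 820098235367⟩ ⟨703687441776, 802643488276⟩ :=
  Cov.of (open T in (s2 (s1 (s0 (s2 (d 1) (s1 (s0 (d 3) (d 3)) (d 4))) (d 3)) (s0 (s0 (d 4) (d 3)) (d 3))) (s1 (s0 (s0 (d 4) (d 3)) (d 3)) (s0 (d 4) (d 3))))) (by decide +kernel)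

theorem twoC08_108 : Cov (esE 8 178 285 248) ⟨0, 137438953472⟩ ⟨820098235367, 956781274595⟩ ⟨703687441776, 753165465026⟩ :=
  Cov.of (open T in (s0 (s2 (d 1) (s1 (s0 (s2 (d 1) (s1 (s0 (s2 (d 1) (s1 (s0 (d 5) (d 5)) (s0 (d 5) (d 5)))) (d 6)) (s0 (s2 (d 1) (s0 (d 5) (d 5))) (d 6)))) (s2 (d 1) (s1 (s0 (d 4) (d 4)) (s0 (d 4) (d 4))))) (s0 (s2 (d 1) (s1 (s0 (s0 (d 5) (d 5)) (d 5)) (s0 (d 6) (d 5)))) (s2 (d 1) (s1 (d 6) (d 6)))))) (s2 (d 1) (s1 (s0 (d 4) (d 4)) (s2 (d 1) (s0 (d 4) (d 3))))))) (by decide +kernel)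

theorem twoC08_109 : Cov (esE 8 178 285 248) ⟨0, 137438953472⟩ ⟨956781274595, 1093464313823⟩ ⟨703687441776, 753165465026⟩ :=
  Cov.of (open T in (s2 (d 1) (s0 (s1 (s2 (d 1) (s0 (s1 (s0 (d 6) (d 5)) (s2 (d 1) (s0 (d 5) (d 4)))) (d 6))) (s2 (d 1) (s0 (s1 (s2 (d 1) (s0 (d 5) (d 4))) (s2 (d 1) (s0 (d 5) (d 1)))) (d 5)))) (s1 (s2 (d 1) (s0 (d 4) (d 3))) (d 6))))) (by decide +kernel)

theorem twoC08_110 : Cov (esE 8 178 285 248) ⟨137438953472, 274877906944⟩ ⟨820098235367, 1093464313823⟩ ⟨703687441776, 753165465026⟩ :=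
  Cov.of (open T in (s1 (s2 (d 1) (s0 (d 4) (d 3))) (s2 (d 1) (s0 (d 3) (d 1))))) (by decide +kernel)

theorem twoC08_113 : Cov (esE 8 178 285 248) ⟨0, 137438953472⟩ ⟨820098235367, 956781274595⟩ ⟨753165465026, 802643488276⟩ :=
  Cov.of (open T in (s0 (s2 (s1 (s0 (s2 (s1 (s0 (s0 (d 5) (d 5)) (d 5)) (s0 (s0 (d 5) (d 5)) (d 5))) (s1 (s0 (d 6) (d 5)) (s0 (d 6) (d 5)))) (s0 (d 4) (d 4))) (s0 (s2 (s1 (s0 (d 6) (d 5)) (s0 (d 6) (d 5))) (s1 (s0 (d 6) (d 4)) (s0 (d 5) (d 4)))) (s0 (d 4) (d 4)))) (s1 (s0 (s0 (d 6) (d 5)) (d 6)) (s0 (s0 (d 6) (d 4)) (d 5)))) (s0 (d 4) (d 4)))) (by decide +kernel)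

theorem twoC08_114 : Cov (esE 8 178 285 248) ⟨0, 137438953472⟩ ⟨956781274595, 1093464313823⟩ ⟨753165465026, 802643488276⟩ :=
  Cov.of (open T in (s2 (s0 (s1 (s0 (s2 (s1 (s0 (d 5) (d 4)) (s0 (d 5) (d 4))) (s0 (d 5) (d 4))) (d 5)) (s2 (s0 (s1 (s2 (s0 (d 5) (d 4)) (s0 (d 5) (d 4))) (s0 (d 5) (d 4))) (d 4)) (s0 (s0 (d 5) (d 4)) (d 4)))) (s0 (d 4) (d 3))) (s0 (s1 (s0 (s0 (d 5) (d 4)) (d 4)) (s0 (s0 (d 5) (d 4)) (d 4))) (s0 (d 4) (d 3))))) (by decide +kernel)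

theorem twoC08_115 : Cov (esE 8 178 285 248) ⟨137438953472, 274877906944⟩ ⟨820098235367, 1093464313823⟩ ⟨753165465026, 802643488276⟩ :=
  Cov.of (open T in (s1 (s2 (s0 (d 4) (d 3)) (s0 (d 3) (d 3))) (s0 (d 3) (d 3)))) (by decide +kernel)

theorem twoC08_119 : Cov (esE 8 178 285 248) ⟨0, 137438953472⟩ ⟨546732156911, 683415196139⟩ ⟨802643488276, 901599534776⟩ :=
  Cov.of (open T in (s2 (s0 (s1 (s2 (s0 (s0 (s0 (d 4) (d 4)) (d 4)) (s0 (d 4) (d 4))) (s0 (s0 (s0 (d 4) (d 4)) (d 4)) (d 6))) (s2 (s0 (s0 (s0 (d 4) (d 4)) (d 4)) (s0 (d 4) (d 4))) (s0 (s0 (d 6) (d 4)) (d 6)))) (s0 (d 6) (d 4))) (s0 (s1 (s2 (s0 (s0 (d 4) (d 4)) (d 4)) (s0 (s0 (d 4) (d 4)) (d 4))) (s2 (s0 (s0 (d 4) (d 4)) (d 4)) (s0 (s0 (d 4) (d 4)) (d 4)))) (s0 (d 4) (d 3))))) (by decide +kernel)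

end Ent
end Pool.Agent.Lib.MP_6947cd_al
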