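import Pool.Agent.Lib.MP_6947cd_al.T.TwoNum

/-!
Problem MP_6947cd_al (Chollet).  The numerical condition of the two-entry loss, level 8 / 10.
-/

set_option autoImplicit false

namespace Pool.Agent.Lib.MP_6947cd_al
namespace Ent
open IA

theorem twoC08_120 : Cov (esE 8 178 285 248) ⟨0, 137438953472⟩ ⟨683415196139, 820098235367⟩ ⟨802643488276, 901599534776⟩ :=
  Cov.of (open T in (s2 (s0 (s1 (s2 (s0 (s0 (s0 (d 4) (d 4)) (d 4)) (s0 (d 4) (d 4))) (s0 (s0 (d 4) (d 4)) (d 5))) (s2 (s0 (s0 (d 6) (d 4)) (d 6)) (s0 (s0 (d 4) (d 4)) (d 4)))) (s0 (d 4) (d 4))) (s0 (s1 (s2 (s0 (s0 (d 4) (d 4)) (d 4)) (s0 (s0 (d 4) (d 4)) (d 4))) (s0 (s0 (d 4) (d 4)) (d 4))) (s0 (d 4) (d 3))))) (by decide +kernel)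

theorem twoC08_121 : Cov (esE 8 178 285 248) ⟨137438953472, 274877906944⟩ ⟨546732156911, 820098235367⟩ ⟨802643488276, 901599534776⟩ :=
  Cov.of (open T in (s1 (s0 (s0 (d 3) (d 3)) (d 3)) (s0 (d 4) (d 3)))) (by decide +kernel)

theorem twoC08_122 : Cov (esE 8 178 285 248) ⟨0, 274877906944⟩ ⟨820098235367, 1093464313823⟩ ⟨802643488276, 901599534776⟩ :=
  Cov.of (open T in (s0 (s2 (s1 (s0 (s2 (s1 (s0 (s0 (d 5) (d 4)) (d 5)) (s0 (s0 (d 5) (d 4)) (d 4))) (s1 (s0 (s0 (d 4) (d 4)) (d 4)) (s0 (s0 (d 4) (d 4)) (d 4)))) (s0 (d 4) (d 3))) (s0 (s2 (s1 (s0 (s0 (d 5) (d 4)) (d 4)) (s0 (s0 (d 4) (d 4)) (d 4))) (s1 (s0 (s0 (d 4) (d 4)) (d 4)) (s0 (d 6) (d 4)))) (s0 (d 4) (d 3)))) (s1 (s0 (s1 (s0 (s0 (d 4) (d 4)) (d 4)) (s0 (s0 (d 4) (d 4)) (d 4))) (s0 (d 4) (d 3))) (s0 (s0 (s0 (d 4) (d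 4)) (d 4)) (d 4)))) (s0 (d 4) (d 3)))) (by decide +kernel)

theorem twoC08_123 : Cov (esE 8 178 285 248) ⟨274877906944, 549755813888⟩ ⟨546732156911, 1093464313823⟩ ⟨703687441776, 901599534776⟩ :=
  Cov.of (open T in (s2 (s1 (s2 (s0 (s1 (s0 (d 3) (d 3)) (d 3)) (d 3)) (s0 (s0 (d 3) (d 3)) (d 3))) (s2 (s0 (d 3) (v 3)) (s0 (d 3) (v 3)))) (s1 (s0 (s0 (d 3) (d 3)) (d 3)) (s0 (d 3) (v 3))))) (by decide +kernel)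

theorem twoC08_126 : Cov (esE 8 178 285 248) ⟨0, 274877906944⟩ ⟨546732156911, 820098235367⟩ ⟨901599534776, 1099511627776⟩ :=
  Cov.of (open T in (s2 (s0 (s1 (s2 (s0 (s0 (s0 (d 4) (d 4)) (d 4)) (s0 (d 4) (d 3))) (s0 (s0 (s0 (d 4) (d 4)) (d 4)) (s0 (d 3) (d 3)))) (s2 (s0 (s0 (s0 (d 4) (d 4)) (d 4)) (s0 (d 4) (d 3))) (s0 (s0 (s0 (d 4) (d 4)) (d 4)) (d 4)))) (s0 (d 6) (d 3))) (s0 (s1 (s2 (s0 (s0 (s0 (d 4) (d 4)) (d 4)) (d 4)) (s0 (s0 (d 4) (d 4)) (d 4))) (s2 (s0 (s0 (d 4) (d 4)) (d 4)) (s0 (s0 (d 4) (d 4)) (d 4)))) (s0 (d 3) (d 3))))) (by decide +kernel)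

theorem twoC08_127 : Cov (esE 8 178 285 248) ⟨0, 274877906944⟩ ⟨820098235367, 1093464313823⟩ ⟨901599534776, 1099511627776⟩ :=
  Cov.of (open T in (s2 (s0 (s1 (s2 (s0 (s0 (s0 (d 4) (d 4)) (d 4)) (d 4)) (s0 (s0 (d 6) (d 4)) (d 4))) (s2 (s0 (s0 (d 6) (d 4)) (d 4)) (s0 (s0 (d 4) (d 4)) (d 4)))) (s0 (d 3) (d 3))) (s0 (s1 (s2 (s0 (s0 (d 4) (d 4)) (d 4)) (s0 (s0 (d 4) (d 4)) (d 4))) (s2 (s0 (s0 (d 4) (d 4)) (d 4)) (s0 (s0 (d 4) (d 4)) (d 3)))) (s0 (d 3) (v 3))))) (by decide +kernel)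

theorem twoC08_128 : Cov (esE 8 178 285 248) ⟨274877906944, 549755813888⟩ ⟨546732156911, 1093464313823⟩ ⟨901599534776, 1099511627776⟩ :=
  Cov.of (open T in (s1 (s0 (d 6) (d 3)) (s0 (d 3) (v 3)))) (by decide +kernel)

theorem twoC08_129 : Cov (esE 8 178 285 248) ⟨549755813888, 1099511627776⟩ ⟨0, 1093464313823⟩ ⟨703687441776, 1099511627776⟩ :=
  Cov.of (open T in (s2 (s1 (s0 (s2 (s1 (s0 (s0 (d 3) (d 3)) (d 3)) (s2 (s0 (d 3) (d 3)) (s0 (d 3) (v 3)))) (s1 (s0 (s0 (d 3) (d 3)) (d 3)) (s0 (d 3) (v 3)))) (s0 (s1 (d 3) (v 3)) (v 2))) (s2 (s0 (s0 (d 3) (v 3)) (v 2)) (s0 (s0 (d 3) (v 3)) (v 3)))) (s1 (s0 (s0 (s0 (d 3) (d 3)) (d 3)) (s0 (d 3) (v 3))) (s2 (s0 (d 3) (v 3)) (s0 (d 3) (v 3)))))) (by decide +kernel)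

theorem twoC08_137 : Cov (esE 8 178 285 248) ⟨0, 274877906944⟩ ⟨1093464313823, 1366830392278⟩ ⟨703687441776, 753165465026⟩ :=
  Cov.of (open T in (s0 (s1 (s2 (d 1) (s0 (s1 (s2 (d 1) (s0 (d 1) (d 1))) (d 1)) (d 1))) (s2 (v 1) (d 1))) (s1 (s2 (v 1) (d 1)) (d 1)))) (by decide +kernel)

theorem twoC08_140 : Cov (esE 8 178 285 248) ⟨0, 137438953472⟩ ⟨1093464313823, 1230147353050⟩ ⟨753165465026, 802643488276⟩ :=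
  Cov.of (open T in (s2 (s0 (s1 (s2 (s0 (s1 (s0 (d 5) (d 4)) (s0 (d 5) (d 4))) (d 4)) (s0 (s0 (d 5) (d 4)) (d 4))) (s2 (s0 (s0 (d 5) (d 4)) (d 4)) (s0 (s0 (d 4) (d 4)) (d 4)))) (d 5)) (s0 (s1 (s2 (s0 (s0 (d 4) (d 4)) (d 4)) (s0 (s0 (d 4) (d 4)) (d 4))) (s2 (s0 (d 6) (d 4)) (s0 (d 6) (d 4)))) (d 4)))) (by decide +kernel)

theorem twoC08_141 : Cov (esE 8 178 285 248) ⟨0, 137438953472⟩ ⟨1230147353050, 1366830392278⟩ ⟨753165465026, 802643488276⟩ :=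
  Cov.of (open T in (s2 (s0 (s1 (s2 (s0 (d 6) (d 4)) (s0 (d 6) (d 4))) (s2 (s0 (d 5) (d 4)) (s0 (d 5) (d 4)))) (d 4)) (s0 (s1 (s2 (s0 (d 5) (d 4)) (s0 (d 5) (d 4))) (s2 (s0 (d 5) (d 4)) (s0 (d 4) (d 4)))) (d 4)))) (by decide +kernel)

theorem twoC08_142 : Cov (esE 8 178 285 248) ⟨137438953472, 274877906944⟩ ⟨1093464313823, 1366830392278⟩ ⟨753165465026, 802643488276⟩ :=
  Cov.of (open T in (s0 (d 3) (d 3))) (by decide +kernel)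

theorem twoC08_143 : Cov (esE 8 178 285 248) ⟨0, 274877906944⟩ ⟨1366830392278, 1640196470734⟩ ⟨703687441776, 802643488276⟩ :=
  Cov.of (open T in (s2 (s0 (s1 (d 1) (d 1)) (d 1)) (s0 (s1 (s2 (s0 (s1 (s2 (s0 (d 4) (d 4)) (s0 (d 4) (d 4))) (s2 (s0 (d 4) (v 4)) (s0 (d 4) (v 4)))) (d 4)) (s0 (s1 (s2 (s0 (d 4) (d 4)) (s0 (d 4) (d 4))) (s0 (d 4) (v 4))) (d 4))) (s2 (s0 (s1 (s2 (s0 (d 4) (v 4)) (s0 (d 4) (v 4))) (s0 (d 4) (v 4))) (d 4)) (s0 (s0 (d 4) (v 4)) (d 3)))) (d 4)))) (by decide +kernel)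

theorem twoC08_144 : Cov (esE 8 178 285 248) ⟨274877906944, 549755813888⟩ ⟨1093464313823, 1640196470734⟩ ⟨703687441776, 802643488276⟩ :=
  Cov.of (open T in (s1 (s2 (s0 (d 3) (d 1)) (s0 (d 3) (v 3))) (s0 (v 3) (v 3)))) (by decide +kernel)

theorem twoC08_147 : Cov (esE 8 178 285 248) ⟨0, 274877906944⟩ ⟨1093464313823, 1366830392278⟩ ⟨802643488276, 901599534776⟩ :=
  Cov.of (open T in (s2 (s0 (s1 (s2 (s0 (s1 (s2 (s0 (d 6) (d 4)) (s0 (d 6) (d 4))) (s2 (s0 (d 5) (d 4)) (s0 (d 5) (d 4)))) (d 4)) (s0 (s1 (s0 (d 5) (d 4)) (s0 (d 5) (d 4))) (d 4))) (s2 (s0 (s1 (s0 (d 5) (d 4)) (s0 (d 4) (d 4))) (d 4)) (s0 (s0 (d 5) (d 4)) (d 4)))) (s0 (d 3) (v 3))) (s0 (s1 (s0 (s0 (d 6) (d 4)) (d 4)) (s2 (s0 (s0 (d 4) (d 4)) (d 4)) (s0 (s0 (d 4) (d 4)) (d 4)))) (s0 (d 3) (v 3))))) (by decide +kernel)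

theorem twoC08_148 : Cov (esE 8 178 285 248) ⟨0, 274877906944⟩ ⟨1366830392278, 1640196470734⟩ ⟨802643488276, 901599534776⟩ :=
  Cov.of (open T in (s2 (s0 (s1 (s2 (s0 (s0 (d 4) (d 4)) (d 4)) (s0 (s0 (d 4) (d 4)) (d 4))) (s2 (s0 (s0 (d 4) (v 4)) (d 3)) (s0 (s0 (d 4) (v 4)) (d 3)))) (d 4)) (s0 (s1 (s2 (s0 (s0 (d 4) (d 4)) (d 3)) (s0 (s0 (d 4) (v 4)) (d 3))) (s2 (s0 (s0 (d 4) (v 4)) (d 3)) (s0 (s0 (d 4) (d 3)) (d 3)))) (d 4)))) (by decide +kernel)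

theorem twoC08_149 : Cov (esE 8 178 285 248) ⟨274877906944, 549755813888⟩ ⟨1093464313823, 1640196470734⟩ ⟨802643488276, 901599534776⟩ :=
  Cov.of (open T in (s1 (s0 (v 3) (v 3)) (d 4))) (by decide +kernel)

theorem twoC08_150 : Cov (esE 8 178 285 248) ⟨0, 549755813888⟩ ⟨1640196470734, 2186928627646⟩ ⟨703687441776, 901599534776⟩ :=
  Cov.of (open T in (s2 (s0 (s1 (s2 (d 1) (s0 (s1 (s2 (s0 (s0 (d 4) (v 4)) (d 3)) (s0 (s0 (d 4) (v 4)) (d 3))) (s2 (s0 (d 5) (d 3)) (s0 (d 5) (d 3)))) (d 3))) (s2 (d 1) (s0 (s1 (s2 (s0 (d 4) (v 3)) (s0 (d 4) (v 3))) (s2 (s0 (d 4) (v 3)) (s0 (v 4) (v 3)))) (v 3)))) (v 4)) (s0 (s1 (s2 (s0 (s1 (s2 (s0 (s0 (d 4) (d 3)) (d 3)) (s0 (d 6) (d 3))) (s2 (s0 (d 4) (v 3)) (s0 (d 4) (v 3)))) (d 3)) (s0 (s1 (s2 (s0 (d 5) (d 3)) (s0 (d 4) (d 3))) (s2 (s0 (d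 4) (v 3)) (s0 (d 4) (v 3)))) (v 3))) (s2 (s0 (s1 (s2 (s0 (d 4) (v 3)) (s0 (d 4) (v 3))) (s2 (s0 (v 4) (v 3)) (s0 (v 4) (v 3)))) (v 3)) (s0 (s1 (s0 (d 4) (v 3)) (s0 (v 4) (v 3))) (v 3)))) (v 3)))) (by decide +kernel)

theorem twoC08_151 : Cov (esE 8 178 285 248) ⟨549755813888, 1099511627776⟩ ⟨1093464313823, 2186928627646⟩ ⟨703687441776, 901599534776⟩ :=
  Cov.of (open T in (s1 (s2 (s0 (v 3) (v 2)) (s0 (v 3) (v 3))) (v 3))) (by decide +kernel)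

theorem twoC08_155 : Cov (esE 8 178 285 248) ⟨0, 549755813888⟩ ⟨1093464313823, 1640196470734⟩ ⟨901599534776, 1000555581276⟩ :=
  Cov.of (open T in (s0 (s1 (s0 (s2 (s1 (s0 (s0 (d 4) (d 4)) (d 4)) (s0 (s0 (d 4) (d 4)) (d 4))) (s1 (s0 (s0 (d 4) (d 4)) (d 4)) (s0 (s0 (d 4) (v 4)) (d 3)))) (s0 (d 3) (v 3))) (s2 (s0 (s1 (s2 (s0 (s0 (d 4) (v 4)) (d 3)) (s0 (s0 (d 4) (d 3)) (d 3))) (s2 (s0 (d 6) (d 3)) (s0 (d 5) (d 3)))) (d 3)) (s0 (s1 (s2 (s0 (s0 (d 4) (d 3)) (d 3)) (s0 (d 6) (d 3))) (s0 (d 5) (d 3))) (d 3)))) (s0 (d 3) (v 3)))) (by decide +kernel)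

theorem twoC08_156 : Cov (esE 8 178 285 248) ⟨0, 549755813888⟩ ⟨1093464313823, 1640196470734⟩ ⟨1000555581276, 1099511627776⟩ :=
  Cov.of (open T in (s0 (s1 (s0 (s1 (s2 (s0 (s0 (d 4) (d 4)) (d 3)) (s0 (s0 (d 4) (d 3)) (d 3))) (s2 (s0 (s0 (d 4) (d 3)) (d 3)) (s0 (d 6) (d 3)))) (d 4)) (s0 (s2 (s1 (s0 (d 5) (d 3)) (s0 (d 4) (v 3))) (s0 (s0 (d 4) (d 3)) (d 3))) (d 3))) (s0 (v 3) (v 3)))) (by decide +kernel)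

theorem twoC08_157 : Cov (esE 8 178 285 248) ⟨0, 549755813888⟩ ⟨1640196470734, 2186928627646⟩ ⟨901599534776, 1099511627776⟩ :=
  Cov.of (open T in (s2 (s0 (s1 (s2 (s0 (s1 (s2 (s0 (d 4) (v 3)) (s0 (d 4) (v 3))) (s0 (d 4) (v 3))) (v 3)) (s0 (s1 (s0 (d 4) (v 3)) (s0 (d 4) (v 3))) (v 3))) (s2 (s0 (s0 (d 4) (v 3)) (v 3)) (s0 (s0 (d 4) (v 3)) (v 3)))) (v 3)) (s0 (s1 (s2 (s0 (s0 (d 4) (d 3)) (v 3)) (s0 (s0 (d 4) (v 3)) (v 3))) (s2 (s0 (s0 (v 4) (v 3)) (v 3)) (s0 (s0 (v 4) (v 3)) (v 3)))) (v 3)))) (by decide +kernel)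

theorem twoC08_158 : Cov (esE 8 178 285 248) ⟨549755813888, 1099511627776⟩ ⟨1093464313823, 2186928627646⟩ ⟨901599534776, 1099511627776⟩ :=
  Cov.of (open T in (s1 (s0 (v 3) (v 3)) (v 3))) (by decide +kernel)

theorem twoC08_159 : Cov (esE 8 178 285 248) ⟨0, 1099511627776⟩ ⟨2186928627646, 4373857255293⟩ ⟨703687441776, 1099511627776⟩ :=
  Cov.of (open T in (s2 (s1 (s0 (s2 (s1 (s0 (s1 (s2 (d 1) (s0 (s1 (s2 (s0 (v 4) (v 3)) (s0 (v 4) (v 3))) (s2 (s0 (v 4) (v 3)) (s0 (v 4) (v 3)))) (v 3))) (s2 (d 1) (s0 (s1 (v 4) (v 4)) (v 3)))) (v 3)) (s2 (d 1) (s0 (s1 (s0 (v 4) (v 3)) (v 4)) (v 3)))) (s1 (s0 (s1 (s2 (s0 (s1 (s0 (v 4) (v 3)) (v 6)) (v 3)) (s0 (s0 (v 4) (v 3)) (v 3))) (s2 (s0 (v 5) (v 3)) (s0 (v 4) (v 3)))) (v 3)) (s0 (s2 (s1 (s0 (v 4) (v 3)) (v 4)) (s1 (s0 (v 4) (v 3)) (v 4)))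 (v 3)))) (v 3)) (s2 (s0 (s1 (s2 (d 1) (s0 (v 4) (v 3))) (v 4)) (v 3)) (s0 (s1 (s2 (s0 (v 4) (v 3)) (s0 (v 3) (v 3))) (v 3)) (v 3)))) (s1 (s0 (s1 (s2 (s0 (s1 (s2 (s0 (s0 (v 4) (v 3)) (v 3)) (s0 (s0 (v 4) (v 3)) (v 3))) (s2 (s0 (v 4) (v 3)) (s0 (v 4) (v 3)))) (v 3)) (s0 (s1 (s2 (s0 (v 6) (v 3)) (s0 (v 4) (v 3))) (s2 (s0 (v 4) (v 3)) (s0 (v 4) (v 3)))) (v 3))) (s2 (s0 (s1 (s2 (s0 (v 3) (v 3)) (v 5)) (v 4)) (v 3)) (s0 (s1 (v 4) (v 3)) (v 3)))) (v 3)) (s0 (s2 (s1 (s0 (v 3) (v 3)) (v 3)) (s1 (s0 (v 3) (v 3)) (v 3))) (v 3))))) (by decide +kernel)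

end Ent
end Pool.Agent.Lib.MP_6947cd_al
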