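import Pool.Agent.Lib.MP_6947cd_al.T.TwoNum

/-!
Problem MP_6947cd_al (Chollet).  The numerical condition of the two-entry loss, level 9 / 10.
-/

set_option autoImplicit false

namespace Pool.Agent.Lib.MP_6947cd_al
namespace Ent
open IA

theorem twoC09_11 : Cov (esE 9 169 260 286) ⟨0, 137438953472⟩ ⟨0, 141149805215⟩ ⟨890604418498, 942831220817⟩ :=
  Cov.of (open T in (s1 (s0 (s2 (s1 (s0 (s2 (s1 (s0 (s2 (s1 (v 0) (v 3)) (s1 (v 0) (v 3))) (v 3)) (v 3)) (s1 (s0 (s2 (s1 (v 0) (v 3)) (s1 (v 0) (v 3))) (v 3)) (v 3))) (s2 (s1 (d 3) (d 3)) (s1 (d 3) (d 3)))) (s0 (s2 (s1 (v 3) (s0 (v 3) (v 3))) (s1 (v 3) (s0 (v 3) (v 3)))) (s2 (s1 (d 3) (d 3)) (s0 (v 3) (v 3))))) (s1 (s0 (s2 (s1 (s0 (s2 (s1 (v 0) (v 3)) (s1 (v 0) (v 3))) (v 3)) (v 3)) (s1 (s0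 (s2 (s1 (v 0) (v 3)) (s1 (v 0) (v 3))) (v 3)) (v 3))) (s0 (v 3) (v 3))) (s0 (s2 (s1 (v 3) (v 4)) (s1 (v 3) (v 4))) (s0 (v 3) (v 3))))) (s2 (s1 (s0 (d 3) (d 3)) (s0 (s0 (d 3) (d 3)) (s0 (d 3) (d 3)))) (s1 (s0 (d 3) (d 3)) (s0 (d 3) (d 3))))) (s0 (s2 (s1 (s0 (s2 (s1 (s0 (v 3) (v 3)) (s0 (v 3) (v 3))) (s1 (s0 (v 3) (v 3)) (s0 (v 3) (v 3)))) (s2 (s1 (d 3) (d 4)) (s0 (d 3) (d 3)))) (s0 (s2 (s1 (s0 (v 3) (v 3)) (s0 (v 3) (d 3))) (s1 (s0 (v 3) (v 3)) (s0 (v 3) (v 3)))) (s2 (s1 (s0 (d 3) (d 3)) (s0 (d 3) (d 3))) (s0 (d 3) (d 3))))) (s1 (s0 (s2 (s1 (s0 (v 3) (v 3)) (s0 (v 3) (v 3))) (s1 (s0 (v 3) (v 3)) (s0 (v 3) (v 3)))) (s0 (v 3) (d 3))) (s0 (s2 (s1 (s0 (v 3) (v 3)) (s0 (v 3) (v 3))) (s1 (s0 (v 3) (v 3)) (s0 (v 3) (v 3)))) (s0 (d 3) (d 3)))))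 (s2 (s1 (s0 (s0 (d 3) (d 3)) (s0 (d 3) (d 3))) (s0 (s0 (d 3) (d 3)) (s0 (d 3) (d 3)))) (s1 (s0 (d 3) (d 3)) (s0 (d 4) (d 4))))))) (by decide +kernel)

theorem twoC09_12 : Cov (esE 9 169 260 286) ⟨0, 137438953472⟩ ⟨0, 141149805215⟩ ⟨942831220817, 995058023137⟩ :=
  Cov.of (open T in (s1 (s0 (s2 (s1 (s0 (s2 (s1 (s0 (s2 (s1 (v 0) (v 3)) (s1 (v 0) (v 3))) (v 3)) (v 3)) (s1 (s0 (s2 (s1 (v 0) (v 3)) (s1 (v 0) (v 3))) (v 3)) (v 3))) (s0 (v 3) (v 3))) (s0 (v 4) (d 4))) (s1 (s0 (s2 (s1 (s0 (s2 (s1 (v 0) (v 3)) (s1 (v 0) (v 3))) (v 3)) (v 3)) (s1 (s0 (s1 (v 0) (v 3)) (v 3)) (v 3))) (s0 (v 3) (v 3))) (s0 (v 3) (d 3)))) (s2 (s1 (s0 (d 3) (d 3)) (s0 (d 3) (d 3))) (s1 (s0 (d 3) (d 3)) (s0 (d 3) (d 3))))) (s0 (s2 (s1 (s0 (s2 (s1 (v 6) (s0 (v 3) (v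 3))) (s1 (v 4) (s0 (v 3) (v 3)))) (d 4)) (s0 (s2 (s1 (s0 (v 3) (v 3)) (s0 (v 3) (v 3))) (s1 (s0 (v 3) (v 3)) (s0 (v 3) (v 3)))) (d 4))) (s1 (s0 (s2 (s1 (v 4) (s0 (v 3) (v 3))) (s1 (v 3) (v 4))) (d 3)) (s0 (s2 (s1 (s0 (v 3) (v 3)) (s0 (v 3) (v 3))) (s1 (s0 (v 3) (v 3)) (s0 (v 3) (v 3)))) (d 3)))) (s2 (s1 (s0 (d 3) (d 3)) (s0 (d 3) (d 3))) (s1 (s0 (d 3) (d 3)) (s0 (d 3) (d 3))))))) (by decide +kernel)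

theorem twoC09_13 : Cov (esE 9 169 260 286) ⟨137438953472, 274877906944⟩ ⟨0, 141149805215⟩ ⟨890604418498, 995058023137⟩ :=
  Cov.of (open T in (s2 (s1 (s0 (s2 (s1 (s0 (s0 (d 3) (d 3)) (s0 (d 3) (d 3))) (s0 (s0 (d 3) (d 3)) (s0 (d 3) (d 3)))) (s1 (s0 (d 3) (d 3)) (s0 (d 3) (d 3)))) (s2 (s1 (s0 (s0 (d 3) (d 3)) (s0 (d 3) (d 3))) (s0 (s0 (d 3) (d 3)) (s0 (d 3) (d 3)))) (s0 (d 3) (d 3)))) (s0 (s2 (s1 (s0 (s0 (d 3) (d 3)) (s0 (d 3) (d 3))) (s0 (s0 (d 3) (d 3)) (d 4))) (s1 (s0 (d 3) (d 3)) (s0 (d 3) (d 3)))) (s2 (s1 (s0 (d 6) (d 3)) (s0 (d 4) (d 3))) (s0 (d 3) (d 3))))) (s1 (s0 (s0 (d 3) (d 3)) (s0 (d 3) (d 3))) (s0 (s0 (d 3) (d 3)) (s0 (d 3) (d 3)))))) (by decide +kernel)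

theorem twoC09_17 : Cov (esE 9 169 260 286) ⟨0, 137438953472⟩ ⟨141149805215, 211724707823⟩ ⟨890604418498, 942831220817⟩ :=
  Cov.of (open T in (s0 (s2 (s1 (s0 (s2 (s1 (s0 (v 3) (d 3)) (s0 (d 3) (d 3))) (s1 (s0 (v 3) (d 3)) (s0 (d 3) (d 3)))) (s2 (s1 (s0 (d 3) (d 3)) (s0 (d 3) (d 3))) (s1 (s0 (d 3) (d 3)) (s0 (d 3) (d 3))))) (s0 (s2 (s1 (s0 (d 3) (d 3)) (s0 (d 3) (d 3))) (s1 (s0 (d 3) (d 3)) (s0 (d 3) (d 3)))) (s2 (s1 (s0 (d 3) (d 3)) (s0 (d 3) (d 3))) (s1 (s0 (d 3) (d 3)) (s0 (d 3) (d 3)))))) (s1 (s0 (s2 (s1 (s0 (v 3) (d 3)) (s0 (d 3) (d 3))) (s1 (s0 (v 3) (d 3)) (s0 (v 3) (d 3)))) (s0 (d 3) (d 3))) (s0 (s2 (s1 (s0 (d 3) (d 3)) (s0 (d 3) (d 3))) (s1 (s0 (d 3) (d 3)) (s0 (d 3) (d 3)))) (s0 (d 3) (d 3))))) (s2 (s1 (s0 (s0 (d 3) (d 3))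 (s0 (d 3) (d 3))) (s0 (s0 (d 4) (d 4)) (s0 (d 4) (d 3)))) (s1 (s0 (s0 (d 3) (d 3)) (d 4)) (s0 (s0 (d 3) (d 3)) (d 4)))))) (by decide +kernel)

theorem twoC09_19 : Cov (esE 9 169 260 286) ⟨0, 68719476736⟩ ⟨211724707823, 282299610431⟩ ⟨890604418498, 942831220817⟩ :=
  Cov.of (open T in (s2 (s1 (s0 (s2 (s1 (s0 (d 3) (d 3)) (s0 (d 4) (d 4))) (s1 (s0 (d 3) (d 3)) (s0 (d 3) (d 3)))) (s2 (s1 (s0 (d 3) (d 4)) (s0 (d 4) (d 4))) (s1 (s0 (d 3) (d 3)) (s0 (d 4) (d 4))))) (s0 (s2 (s1 (s0 (d 4) (d 4)) (s0 (d 4) (d 4))) (s1 (s0 (d 4) (d 4)) (s0 (d 4) (d 4)))) (s2 (s1 (s0 (d 4) (d 1)) (d 1)) (s1 (s0 (d 4) (d 4)) (s0 (d 4) (d 4)))))) (s1 (s0 (s2 (s1 (s0 (d 3) (d 3)) (s0 (d 3) (d 3))) (s1 (s0 (d 3) (d 3)) (s0 (d 3) (d 3)))) (s0 (d 4) (d 4))) (s0 (s2 (s1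 (s0 (d 4) (d 4)) (s0 (d 4) (d 4))) (s1 (s0 (d 3) (d 3)) (s0 (d 4) (d 4)))) (s0 (d 4) (d 4)))))) (by decide +kernel)

theorem twoC09_20 : Cov (esE 9 169 260 286) ⟨68719476736, 137438953472⟩ ⟨211724707823, 282299610431⟩ ⟨890604418498, 942831220817⟩ :=
  Cov.of (open T in (s2 (s1 (s0 (s2 (s1 (s0 (d 4) (d 1)) (d 1)) (s0 (d 4) (d 4))) (s0 (d 4) (d 4))) (s0 (s2 (d 1) (s0 (d 4) (d 4))) (s0 (d 4) (d 4)))) (s1 (s0 (s0 (d 3) (d 3)) (d 4)) (s0 (s0 (d 4) (d 4)) (d 4))))) (by decide +kernel)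

theorem twoC09_21 : Cov (esE 9 169 260 286) ⟨0, 137438953472⟩ ⟨141149805215, 282299610431⟩ ⟨942831220817, 995058023137⟩ :=
  Cov.of (open T in (s1 (s0 (s2 (s1 (s0 (s2 (s1 (s0 (v 3) (v 3)) (s0 (v 3) (d 3))) (s1 (s0 (v 3) (v 3)) (s0 (v 3) (d 3)))) (s0 (d 3) (d 3))) (s0 (s2 (s1 (s0 (d 3) (d 3)) (s0 (d 3) (d 3))) (s1 (s0 (d 3) (d 3)) (s0 (d 3) (d 3)))) (s0 (d 3) (d 3)))) (s1 (s0 (s0 (v 3) (d 3)) (d 4)) (s0 (s0 (d 3) (d 3)) (d 4)))) (s2 (s1 (s0 (d 3) (d 3)) (s0 (d 4) (d 3))) (s0 (d 4) (d 3)))) (s0 (s2 (s1 (s0 (s2 (s1 (s0 (d 3) (d 3)) (s0 (d 3) (d 3))) (s1 (s0 (d 3) (d 3)) (s0 (d 3) (d 3)))) (s0 (d 3) (d 3))) (s0 (s2 (s1 (s0 (d 3) (d 3)) (s0 (d 4) (d 3))) (s1 (s0 (d 3) (d 3)) (s0 (d 3) (d 3)))) (s0 (d 4) (d 3)))) (s1 (s0 (s0 (d 3) (d 3))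 (d 4)) (s0 (s0 (d 4) (d 3)) (d 6)))) (s0 (s0 (d 4) (d 4)) (d 4))))) (by decide +kernel)

theorem twoC09_22 : Cov (esE 9 169 260 286) ⟨137438953472, 274877906944⟩ ⟨141149805215, 282299610431⟩ ⟨890604418498, 995058023137⟩ :=
  Cov.of (open T in (s2 (s1 (s0 (s2 (s1 (s0 (s0 (d 3) (d 3)) (d 4)) (s0 (s0 (d 3) (d 3)) (d 4))) (s1 (s0 (d 3) (d 3)) (s0 (d 3) (d 3)))) (s0 (s0 (d 3) (d 3)) (d 3))) (s0 (s2 (s1 (s0 (s0 (d 4) (d 3)) (d 4)) (s0 (s0 (d 4) (d 3)) (d 4))) (s1 (s0 (d 4) (d 3)) (s0 (d 4) (d 3)))) (s0 (d 4) (d 3)))) (s1 (s0 (s0 (d 3) (d 3)) (s0 (d 3) (d 3))) (s0 (s0 (d 4) (d 3)) (s0 (d 3) (d 3)))))) (by decide +kernel)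

theorem twoC09_24 : Cov (esE 9 169 260 286) ⟨0, 274877906944⟩ ⟨0, 141149805215⟩ ⟨995058023137, 1099511627776⟩ :=
  Cov.of (open T in (s0 (s2 (s1 (s0 (s2 (s1 (s0 (s1 (s2 (s0 (s1 (v 0) (v 3)) (v 3)) (s0 (s1 (v 0) (v 3)) (v 3))) (v 3)) (d 3)) (s0 (v 3) (d 3))) (s1 (s0 (s1 (s2 (s0 (s1 (v 0) (v 3)) (v 3)) (s0 (s1 (v 0) (v 3)) (v 3))) (v 3)) (v 3)) (s0 (v 3) (d 3)))) (s2 (s1 (s0 (d 3) (d 3)) (s0 (d 3) (d 3))) (s0 (d 3) (d 3)))) (s0 (s2 (s1 (s0 (s2 (s1 (v 3) (v 4)) (v 4)) (d 3)) (s0 (s0 (v 3) (v 3)) (d 3))) (s1 (s0 (v 4) (d 3)) (s0 (s0 (v 3) (v 3)) (d 3)))) (s0 (d 3) (d 3)))) (s1 (s0 (s1 (s2 (s0 (s1 (s2 (s0 (s1 (v 0) (v 3)) (v 3)) (s0 (s1 (v 0) (v 3)) (v 3))) (v 3)) (v 3)) (s0 (s1 (s2 (s0 (s1 (v 0) (v 3)) (v 3)) (s0 (s1 (v 0) (v 3)) (v 3)))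 (v 3)) (v 3))) (s2 (s0 (v 3) (d 3)) (s0 (v 3) (v 3)))) (s0 (d 3) (d 3))) (s0 (s2 (s1 (s0 (v 4) (d 3)) (s0 (s0 (v 3) (v 3)) (d 3))) (s1 (s0 (v 3) (d 3)) (s0 (v 4) (d 3)))) (s0 (d 3) (d 3))))) (s2 (s1 (s0 (s0 (d 3) (d 3)) (s0 (d 3) (d 3))) (s0 (s0 (d 3) (d 3)) (d 3))) (s1 (s0 (s0 (d 3) (d 3)) (d 3)) (s0 (d 3) (d 3)))))) (by decide +kernel)

theorem twoC09_25 : Cov (esE 9 169 260 286) ⟨0, 274877906944⟩ ⟨141149805215, 282299610431⟩ ⟨995058023137, 1099511627776⟩ :=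
  Cov.of (open T in (s0 (s2 (s1 (s0 (s2 (s1 (s0 (s0 (v 3) (d 3)) (d 3)) (s0 (s0 (d 3) (d 3)) (d 3))) (s1 (s0 (s0 (v 3) (v 3)) (d 3)) (s0 (s0 (d 3) (d 3)) (d 3)))) (s0 (d 4) (d 3))) (s0 (s2 (s1 (s0 (s0 (d 3) (d 3)) (d 4)) (s0 (s0 (d 3) (d 3)) (d 4))) (s1 (s0 (s0 (d 3) (d 3)) (d 3)) (s0 (s0 (d 3) (d 3)) (d 3)))) (s0 (d 4) (d 3)))) (s1 (s0 (s2 (s1 (s0 (s0 (v 3) (v 3)) (d 3)) (s0 (s0 (v 3) (d 3)) (d 3))) (s1 (s0 (s0 (v 3) (v 3)) (d 3)) (s0 (s0 (v 3) (v 3)) (d 3)))) (s0 (d 3) (d 3))) (s0 (s2 (s1 (s0 (s0 (d 3) (d 3)) (d 3)) (s0 (s0 (d 3) (d 3)) (d 3))) (s1 (s0 (s0 (d 3) (d 3)) (d 3)) (s0 (s0 (d 3) (d 3)) (d 3)))) (s0 (d 3) (d 3))))) (s2 (s1 (s0 (s0 (d 3) (d 3)) (d 3)) (s0 (s0 (d 3) (d 3)) (d 3))) (s1 (s0 (d 3) (d 3)) (s0 (d 3) (d 3)))))) (by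 decide +kernel)

theorem twoC09_26 : Cov (esE 9 169 260 286) ⟨274877906944, 549755813888⟩ ⟨0, 282299610431⟩ ⟨890604418498, 1099511627776⟩ :=
  Cov.of (open T in (s2 (s1 (s0 (s2 (s1 (s0 (s0 (s0 (s0 (d 3) (d 3)) (d 3)) (s0 (d 3) (d 3))) (s0 (s0 (d 3) (d 3)) (d 3))) (s0 (s0 (s0 (d 3) (d 3)) (d 3)) (s0 (d 3) (d 3)))) (s1 (s0 (s0 (d 3) (d 3)) (d 3)) (s0 (s0 (d 3) (d 3)) (d 3)))) (s0 (s0 (d 3) (d 3)) (d 3))) (s0 (s2 (s1 (s0 (s0 (d 3) (d 3)) (d 3)) (s0 (s0 (d 3) (d 3)) (d 3))) (s1 (s0 (d 3) (d 3)) (s0 (d 3) (d 3)))) (s0 (d 3) (d 3)))) (s1 (s0 (s0 (s0 (d 3) (d 3)) (d 3)) (s0 (d 3) (d 3))) (s0 (s0 (d 3) (d 3)) (d 3))))) (by decide +kernel)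

theorem twoC09_34 : Cov (esE 9 169 260 286) ⟨0, 68719476736⟩ ⟨282299610431, 352874513039⟩ ⟨890604418498, 942831220817⟩ :=
  Cov.of (open T in (s2 (s1 (s0 (s2 (s1 (s0 (d 4) (d 1)) (d 1)) (s1 (s0 (d 4) (d 4)) (s0 (d 4) (d 4)))) (s2 (d 1) (s1 (s0 (d 4) (d 4)) (s0 (d 4) (d 4))))) (s0 (s2 (d 1) (s1 (s0 (d 4) (d 4)) (s0 (s0 (v 4) (d 4)) (d 4)))) (s2 (d 1) (s1 (s0 (d 4) (d 4)) (s0 (d 4) (d 4)))))) (s1 (s0 (s2 (s1 (s0 (d 4) (d 4)) (s0 (d 4) (d 4))) (s1 (s0 (d 4) (d 4)) (s0 (d 4) (d 4)))) (s0 (d 4) (d 4))) (s0 (s2 (s1 (s0 (d 4) (d 4)) (s0 (d 4) (d 4))) (s1 (s0 (d 4) (d 4)) (s0 (d 4) (d 4)))) (s0 (d 4) (d 4)))))) (by decide +kernel)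

theorem twoC09_35 : Cov (esE 9 169 260 286) ⟨68719476736, 137438953472⟩ ⟨282299610431, 352874513039⟩ ⟨890604418498, 942831220817⟩ :=
  Cov.of (open T in (s2 (s1 (s0 (s2 (d 1) (s0 (d 4) (d 4))) (s0 (d 4) (d 4))) (s0 (s2 (d 1) (s0 (d 4) (d 4))) (s0 (d 4) (d 4)))) (s1 (s0 (s0 (d 4) (d 4)) (d 4)) (s0 (s0 (d 4) (d 4)) (d 4))))) (by decide +kernel)

theorem twoC09_38 : Cov (esE 9 169 260 286) ⟨0, 68719476736⟩ ⟨352874513039, 423449415647⟩ ⟨890604418498, 916717819657⟩ :=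
  Cov.of (open T in (s1 (s0 (s2 (d 1) (s1 (s0 (s0 (v 4) (d 4)) (d 4)) (s0 (s0 (d 4) (d 4)) (d 4)))) (s2 (d 1) (s1 (s0 (d 4) (d 4)) (s0 (d 4) (d 4))))) (s0 (s2 (d 1) (s1 (s0 (s2 (s1 (s0 (d 4) (d 4)) (s0 (d 4) (d 4))) (s0 (d 4) (d 4))) (d 5)) (s0 (s2 (s1 (s0 (d 4) (d 4)) (s0 (d 4) (d 4))) (s1 (s0 (d 4) (d 4)) (s0 (d 4) (d 4)))) (d 6)))) (s2 (d 1) (s1 (s0 (d 4) (d 4)) (s0 (d 5) (d 4))))))) (by decide +kernel)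

theorem twoC09_39 : Cov (esE 9 169 260 286) ⟨0, 68719476736⟩ ⟨352874513039, 423449415647⟩ ⟨916717819657, 942831220817⟩ :=
  Cov.of (open T in (s1 (s0 (s2 (s1 (s0 (d 4) (d 4)) (s0 (s0 (d 4) (d 4)) (d 4))) (s1 (s0 (d 4) (d 4)) (s0 (d 4) (d 4)))) (s0 (d 4) (d 4))) (s0 (s2 (s1 (s0 (s0 (d 4) (d 4)) (d 4)) (s0 (s0 (d 4) (d 4)) (d 4))) (s1 (s0 (d 4) (d 4)) (s0 (s0 (d 4) (d 4)) (d 4)))) (s0 (d 4) (d 4))))) (by decide +kernel)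

theorem twoC09_40 : Cov (esE 9 169 260 286) ⟨68719476736, 137438953472⟩ ⟨352874513039, 423449415647⟩ ⟨890604418498, 942831220817⟩ :=
  Cov.of (open T in (s2 (s1 (s0 (s2 (d 1) (s1 (s0 (d 4) (d 4)) (s0 (d 4) (d 4)))) (s0 (d 4) (d 4))) (s0 (s2 (d 1) (s1 (s0 (d 4) (d 4)) (s0 (d 4) (d 4)))) (s0 (d 4) (d 4)))) (s1 (s0 (s0 (d 4) (d 4)) (d 4)) (s0 (s0 (d 4) (d 4)) (d 4))))) (by decide +kernel)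

theorem twoC09_42 : Cov (esE 9 169 260 286) ⟨0, 137438953472⟩ ⟨282299610431, 352874513039⟩ ⟨942831220817, 995058023137⟩ :=
  Cov.of (open T in (s0 (s2 (s1 (s0 (s2 (s1 (s0 (d 4) (d 4)) (s0 (d 4) (d 4))) (s1 (s0 (d 4) (d 4)) (s0 (d 4) (d 4)))) (s0 (d 4) (d 4))) (s0 (s2 (s1 (s0 (d 4) (d 4)) (s0 (d 4) (d 4))) (s1 (s0 (d 4) (d 4)) (s0 (d 4) (d 4)))) (s0 (d 4) (d 4)))) (s1 (s0 (s0 (d 4) (d 4)) (s0 (d 4) (d 3))) (s0 (s2 (s1 (s0 (d 4) (d 4)) (s0 (d 4) (d 4))) (s1 (s0 (d 4) (d 4)) (s0 (d 4) (d 4)))) (s0 (d 4) (d 4))))) (s0 (s0 (d 4) (d 4)) (d 4)))) (by decide +kernel)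

theorem twoC09_43 : Cov (esE 9 169 260 286) ⟨0, 137438953472⟩ ⟨352874513039, 423449415647⟩ ⟨942831220817, 995058023137⟩ :=
  Cov.of (open T in (s0 (s2 (s1 (s0 (s2 (s1 (s0 (d 4) (d 4)) (s0 (d 4) (d 4))) (s1 (s0 (d 4) (d 4)) (s0 (d 4) (d 4)))) (s0 (d 4) (d 4))) (s0 (s2 (s1 (s0 (d 4) (d 4)) (s0 (d 4) (d 4))) (s1 (s0 (d 4) (d 4)) (s0 (d 4) (d 4)))) (s0 (d 4) (d 4)))) (s1 (s0 (s2 (s1 (s0 (d 4) (d 4)) (s0 (d 4) (d 4))) (s1 (s0 (d 4) (d 4)) (s0 (d 4) (d 4)))) (s0 (d 4) (d 4))) (s0 (s2 (s1 (s0 (d 4) (d 4)) (s0 (d 4) (d 4))) (s1 (s0 (d 4) (d 4)) (s0 (d 4) (d 4)))) (s0 (d 4) (d 4))))) (s0 (s0 (d 4) (d 4)) (d 4)))) (by decide +kernel)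

theorem twoC09_44 : Cov (esE 9 169 260 286) ⟨137438953472, 274877906944⟩ ⟨282299610431, 423449415647⟩ ⟨890604418498, 995058023137⟩ :=
  Cov.of (open T in (s2 (s1 (s0 (s2 (s1 (s0 (d 6) (d 4)) (s0 (d 5) (d 4))) (s1 (s0 (d 4) (d 3)) (s0 (d 4) (d 3)))) (s0 (d 3) (d 3))) (s0 (s2 (s1 (s0 (d 4) (d 3)) (s0 (d 4) (d 3))) (s0 (d 4) (d 3))) (s0 (d 3) (d 3)))) (s1 (s0 (s0 (d 4) (d 3)) (d 4)) (s0 (s0 (d 4) (d 3)) (d 3))))) (by decide +kernel)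

theorem twoC09_51 : Cov (esE 9 169 260 286) ⟨0, 68719476736⟩ ⟨423449415647, 458736866951⟩ ⟨890604418498, 916717819657⟩ :=
  Cov.of (open T in (s0 (s2 (d 1) (s1 (s0 (s2 (s1 (s0 (d 4) (d 4)) (s0 (d 4) (d 4))) (s1 (s0 (d 4) (d 4)) (s0 (d 4) (d 4)))) (d 6)) (s0 (s2 (s1 (s0 (d 4) (d 4)) (s0 (d 4) (d 4))) (s1 (s0 (d 4) (d 4)) (s0 (d 4) (d 4)))) (d 6)))) (s2 (d 1) (s1 (s0 (d 5) (d 4)) (s0 (d 6) (d 5)))))) (by decide +kernel)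

theorem twoC09_52 : Cov (esE 9 169 260 286) ⟨0, 68719476736⟩ ⟨458736866951, 494024318255⟩ ⟨890604418498, 916717819657⟩ :=
  Cov.of (open T in (s0 (s2 (d 1) (s1 (s0 (s2 (s1 (s0 (d 4) (d 4)) (s0 (d 4) (d 4))) (s1 (s0 (d 4) (d 4)) (s0 (d 4) (d 4)))) (s0 (d 4) (d 4))) (s0 (s2 (s1 (s0 (d 4) (d 4)) (s0 (d 4) (d 4))) (s1 (s0 (d 4) (d 4)) (s0 (d 4) (d 4)))) (s0 (d 4) (d 4))))) (s2 (d 1) (s1 (s0 (d 6) (d 5)) (s0 (d 6) (d 5)))))) (by decide +kernel)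

end Ent
end Pool.Agent.Lib.MP_6947cd_al
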