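import Pool.Agent.Lib.MP_6947cd_al.T.TwoNum

/-!
Problem MP_6947cd_al (Chollet).  The numerical condition of the two-entry loss, level 9 / 10.
-/

set_option autoImplicit false

namespace Pool.Agent.Lib.MP_6947cd_al
namespace Ent
open IA

theorem twoC09_53 : Cov (esE 9 169 260 286) ⟨0, 68719476736⟩ ⟨423449415647, 494024318255⟩ ⟨916717819657, 942831220817⟩ :=
  Cov.of (open T in (s1 (s0 (s2 (s1 (s0 (s0 (d 4) (d 4)) (d 4)) (s0 (s0 (d 4) (d 4)) (d 5))) (s1 (s0 (s0 (d 4) (d 4)) (d 4)) (s0 (s0 (d 4) (d 4)) (d 4)))) (s0 (d 5) (d 4))) (s0 (s2 (s1 (s0 (s0 (d 4) (d 4)) (d 6)) (s0 (s0 (d 4) (d 4)) (d 6))) (s1 (s0 (s0 (d 4) (d 4)) (d 4)) (s0 (s0 (d 4) (d 4)) (d 4)))) (s0 (d 6) (d 4))))) (by decide +kernel)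

theorem twoC09_54 : Cov (esE 9 169 260 286) ⟨68719476736, 137438953472⟩ ⟨423449415647, 494024318255⟩ ⟨890604418498, 942831220817⟩ :=
  Cov.of (open T in (s2 (s1 (s0 (s2 (d 1) (s1 (s0 (d 4) (d 4)) (s0 (d 4) (d 4)))) (s0 (d 4) (d 4))) (s0 (s2 (d 1) (s1 (s0 (d 4) (d 4)) (s0 (d 4) (d 4)))) (s0 (d 4) (d 4)))) (s1 (s0 (s0 (d 4) (d 4)) (d 4)) (s0 (s0 (d 4) (d 4)) (d 4))))) (by decide +kernel)

theorem twoC09_58 : Cov (esE 9 169 260 286) ⟨0, 68719476736⟩ ⟨494024318255, 529311769559⟩ ⟨890604418498, 916717819657⟩ :=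
  Cov.of (open T in (s0 (s2 (d 1) (s1 (s0 (s2 (s1 (s0 (d 4) (d 4)) (s0 (d 4) (d 4))) (s1 (s0 (d 4) (d 4)) (s0 (d 4) (d 4)))) (s0 (d 4) (d 4))) (s0 (s2 (s1 (s0 (d 4) (d 4)) (s0 (d 4) (d 4))) (s1 (s0 (d 4) (d 4)) (s0 (d 4) (d 4)))) (s0 (d 5) (d 5))))) (s2 (d 1) (s1 (s0 (d 6) (d 6)) (s0 (d 6) (d 6)))))) (by decide +kernel)

theorem twoC09_59 : Cov (esE 9 169 260 286) ⟨0, 68719476736⟩ ⟨529311769559, 564599220863⟩ ⟨890604418498, 916717819657⟩ :=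
  Cov.of (open T in (s0 (s2 (d 1) (s1 (s0 (s2 (s1 (s0 (d 4) (d 1)) (d 1)) (s1 (s0 (d 4) (d 4)) (s0 (d 4) (d 4)))) (s0 (d 5) (d 5))) (s0 (s2 (d 1) (s1 (s0 (d 4) (d 4)) (s0 (d 4) (d 4)))) (s0 (d 5) (d 5))))) (s2 (d 1) (s1 (s0 (d 6) (d 6)) (s0 (d 6) (d 6)))))) (by decide +kernel)

theorem twoC09_61 : Cov (esE 9 169 260 286) ⟨0, 68719476736⟩ ⟨494024318255, 529311769559⟩ ⟨916717819657, 942831220817⟩ :=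
  Cov.of (open T in (s0 (s2 (s1 (s0 (s0 (d 4) (d 4)) (d 6)) (s0 (s2 (s1 (s0 (d 4) (d 4)) (s0 (d 4) (d 4))) (s0 (d 4) (d 4))) (d 6))) (s1 (s0 (s0 (d 4) (d 4)) (d 5)) (s0 (s0 (d 4) (d 4)) (d 5)))) (s0 (d 6) (d 5)))) (by decide +kernel)

theorem twoC09_62 : Cov (esE 9 169 260 286) ⟨0, 68719476736⟩ ⟨529311769559, 564599220863⟩ ⟨916717819657, 942831220817⟩ :=
  Cov.of (open T in (s0 (s2 (s1 (s0 (s2 (s1 (s0 (d 4) (d 4)) (s0 (d 4) (d 4))) (s0 (d 4) (d 4))) (d 6)) (s0 (s2 (s1 (s0 (d 4) (d 4)) (s0 (d 4) (d 4))) (s0 (d 4) (d 4))) (d 6))) (s1 (s0 (s0 (d 4) (d 4)) (d 6)) (s0 (s0 (d 4) (d 4)) (d 6)))) (s0 (d 6) (d 5)))) (by decide +kernel)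

theorem twoC09_63 : Cov (esE 9 169 260 286) ⟨68719476736, 137438953472⟩ ⟨494024318255, 564599220863⟩ ⟨890604418498, 942831220817⟩ :=
  Cov.of (open T in (s2 (s1 (s0 (s2 (d 1) (s1 (s0 (d 4) (d 4)) (s0 (d 4) (d 4)))) (s0 (d 4) (d 4))) (s0 (s2 (d 1) (s1 (s0 (d 4) (d 4)) (s0 (d 4) (d 4)))) (d 6))) (s1 (s0 (s0 (d 4) (d 4)) (d 4)) (s0 (s0 (d 4) (d 4)) (d 4))))) (by decide +kernel)

theorem twoC09_65 : Cov (esE 9 169 260 286) ⟨0, 137438953472⟩ ⟨423449415647, 494024318255⟩ ⟨942831220817, 995058023137⟩ :=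
  Cov.of (open T in (s0 (s2 (s1 (s0 (s2 (s1 (s0 (d 4) (d 4)) (s0 (d 4) (d 4))) (s1 (s0 (d 4) (d 4)) (s0 (d 4) (d 4)))) (s0 (d 4) (d 4))) (s0 (s2 (s1 (s0 (s0 (d 4) (d 4)) (d 4)) (s0 (s0 (d 4) (d 4)) (d 4))) (s1 (s0 (d 4) (d 4)) (s0 (d 4) (d 4)))) (s0 (d 4) (d 4)))) (s1 (s0 (s2 (s1 (s0 (d 4) (d 4)) (s0 (d 4) (d 4))) (s0 (d 4) (d 4))) (s0 (d 4) (d 4))) (s0 (s2 (s1 (s0 (d 4) (d 4)) (s0 (d 4) (d 4))) (s0 (d 4) (d 4))) (d 6)))) (s0 (s0 (d 4) (d 4)) (d 4)))) (by decide +kernel)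

theorem twoC09_66 : Cov (esE 9 169 260 286) ⟨0, 137438953472⟩ ⟨494024318255, 564599220863⟩ ⟨942831220817, 995058023137⟩ :=
  Cov.of (open T in (s0 (s2 (s1 (s0 (s2 (s1 (s0 (s0 (d 4) (d 4)) (d 4)) (s0 (s0 (d 4) (d 4)) (d 4))) (s1 (s0 (d 4) (d 4)) (s0 (s0 (d 4) (d 4)) (d 4)))) (s0 (d 4) (d 4))) (s0 (s2 (s1 (s0 (s0 (d 4) (d 4)) (d 4)) (s0 (s0 (d 4) (d 4)) (d 4))) (s1 (s0 (s0 (d 4) (d 4)) (d 4)) (s0 (s0 (d 4) (d 4)) (d 4)))) (s0 (d 4) (d 4)))) (s1 (s0 (s0 (s0 (d 4) (d 4)) (d 4)) (d 6)) (s0 (s0 (s0 (d 4) (d 4)) (d 4)) (s0 (d 4) (d 4))))) (s0 (s0 (d 4) (d 4)) (d 4)))) (by decide +kernel)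

theorem twoC09_67 : Cov (esE 9 169 260 286) ⟨137438953472, 274877906944⟩ ⟨423449415647, 564599220863⟩ ⟨890604418498, 995058023137⟩ :=
  Cov.of (open T in (s2 (s1 (s0 (s2 (s1 (s0 (d 4) (d 3)) (s0 (d 4) (d 3))) (s0 (d 4) (d 3))) (d 4)) (s0 (s0 (d 4) (d 3)) (d 3))) (s1 (s0 (s0 (d 4) (d 3)) (d 3)) (s0 (s0 (d 3) (d 3)) (d 3))))) (by decide +kernel)

theorem twoC09_71 : Cov (esE 9 169 260 286) ⟨0, 137438953472⟩ ⟨282299610431, 423449415647⟩ ⟨995058023137, 1047284825456⟩ :=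
  Cov.of (open T in (s1 (s0 (s2 (s1 (s0 (s0 (d 4) (d 3)) (d 4)) (s0 (s0 (d 4) (d 4)) (d 4))) (s1 (s0 (s0 (d 3) (d 3)) (d 4)) (s0 (s0 (d 4) (d 4)) (d 4)))) (s0 (d 4) (d 3))) (s0 (s2 (s1 (s0 (s0 (d 4) (d 4)) (d 4)) (s0 (s0 (d 4) (d 4)) (d 4))) (s1 (s0 (s0 (d 4) (d 4)) (d 4)) (s0 (s0 (d 4) (d 4)) (d 4)))) (s0 (d 4) (d 4))))) (by decide +kernel)

theorem twoC09_72 : Cov (esE 9 169 260 286) ⟨0, 137438953472⟩ ⟨282299610431, 423449415647⟩ ⟨1047284825456, 1099511627776⟩ :=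
  Cov.of (open T in (s1 (s0 (s2 (s1 (s0 (s0 (d 3) (d 3)) (d 3)) (s0 (s0 (d 4) (d 3)) (d 4))) (s1 (s0 (s0 (d 3) (d 3)) (d 3)) (s0 (s0 (d 3) (d 3)) (d 3)))) (s0 (d 3) (d 3))) (s0 (s2 (s1 (s0 (s0 (d 4) (d 4)) (d 4)) (s0 (s0 (d 4) (d 4)) (d 4))) (s1 (s0 (s0 (d 4) (d 3)) (d 4)) (s0 (s0 (d 4) (d 4)) (d 4)))) (s0 (d 4) (d 3))))) (by decide +kernel)

theorem twoC09_73 : Cov (esE 9 169 260 286) ⟨137438953472, 274877906944⟩ ⟨282299610431, 423449415647⟩ ⟨995058023137, 1099511627776⟩ :=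
  Cov.of (open T in (s2 (s1 (s0 (s0 (d 3) (d 3)) (d 3)) (s0 (s0 (d 3) (d 3)) (d 3))) (s0 (s0 (d 3) (d 3)) (d 3)))) (by decide +kernel)

theorem twoC09_76 : Cov (esE 9 169 260 286) ⟨0, 137438953472⟩ ⟨423449415647, 564599220863⟩ ⟨995058023137, 1047284825456⟩ :=
  Cov.of (open T in (s1 (s0 (s2 (s1 (s0 (s0 (d 4) (d 4)) (d 4)) (s0 (s0 (d 4) (d 4)) (d 4))) (s1 (s0 (s0 (d 4) (d 4)) (d 4)) (s0 (s0 (d 4) (d 4)) (d 4)))) (s0 (d 4) (d 4))) (s0 (s2 (s1 (s0 (s0 (d 4) (d 4)) (d 4)) (s0 (s0 (d 4) (d 4)) (d 4))) (s1 (s0 (s0 (d 4) (d 4)) (d 4)) (s0 (s0 (d 4) (d 4)) (d 4)))) (s0 (d 4) (d 4))))) (by decide +kernel)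

theorem twoC09_77 : Cov (esE 9 169 260 286) ⟨0, 137438953472⟩ ⟨423449415647, 564599220863⟩ ⟨1047284825456, 1099511627776⟩ :=
  Cov.of (open T in (s1 (s0 (s2 (s1 (s0 (s0 (d 4) (d 4)) (d 4)) (s0 (s0 (d 4) (d 4)) (d 4))) (s1 (s0 (s0 (d 4) (d 4)) (d 4)) (s0 (s0 (d 4) (d 4)) (d 4)))) (s0 (d 4) (d 3))) (s0 (s2 (s1 (s0 (s0 (d 4) (d 4)) (d 4)) (s0 (s0 (d 4) (d 4)) (d 4))) (s1 (s0 (s0 (d 4) (d 4)) (d 4)) (s0 (s0 (d 4) (d 4)) (d 4)))) (s0 (d 4) (d 3))))) (by decide +kernel)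

theorem twoC09_78 : Cov (esE 9 169 260 286) ⟨137438953472, 274877906944⟩ ⟨423449415647, 564599220863⟩ ⟨995058023137, 1099511627776⟩ :=
  Cov.of (open T in (s0 (s0 (d 3) (d 3)) (d 3))) (by decide +kernel)

theorem twoC09_79 : Cov (esE 9 169 260 286) ⟨274877906944, 549755813888⟩ ⟨282299610431, 564599220863⟩ ⟨890604418498, 1099511627776⟩ :=
  Cov.of (open T in (s2 (s1 (s0 (s2 (s1 (s0 (d 3) (d 3)) (s0 (d 3) (d 3))) (s0 (d 3) (d 3))) (s0 (d 3) (d 3))) (s0 (s0 (d 3) (d 3)) (d 3))) (s1 (s0 (s0 (d 3) (d 3)) (d 3)) (s0 (s0 (d 3) (d 3)) (d 3))))) (by decide +kernel)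

theorem twoC09_80 : Cov (esE 9 169 260 286) ⟨549755813888, 1099511627776⟩ ⟨0, 564599220863⟩ ⟨890604418498, 1099511627776⟩ :=
  Cov.of (open T in (s1 (s0 (s2 (s1 (s0 (s0 (d 3) (d 3)) (d 3)) (s0 (d 3) (d 3))) (s0 (s0 (d 3) (d 3)) (d 3))) (s0 (d 3) (d 3))) (s2 (s0 (s0 (d 3) (d 3)) (d 3)) (s0 (s0 (d 3) (v 3)) (v 3))))) (by decide +kernel)

theorem twoC09_92 : Cov (esE 9 169 260 286) ⟨0, 68719476736⟩ ⟨564599220863, 599886672166⟩ ⟨890604418498, 916717819657⟩ :=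
  Cov.of (open T in (s0 (s2 (d 1) (s1 (s0 (s2 (d 1) (s1 (s0 (d 4) (d 5)) (s0 (d 4) (d 5)))) (s2 (d 1) (s0 (d 5) (d 5)))) (s0 (s2 (d 1) (s1 (s0 (d 5) (d 5)) (s0 (d 5) (d 5)))) (s2 (d 1) (s0 (d 5) (d 5)))))) (s2 (d 1) (s1 (s0 (d 6) (d 6)) (s0 (d 6) (d 6)))))) (by decide +kernel)

theorem twoC09_93 : Cov (esE 9 169 260 286) ⟨0, 68719476736⟩ ⟨599886672166, 635174123470⟩ ⟨890604418498, 916717819657⟩ :=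
  Cov.of (open T in (s0 (s2 (d 1) (s1 (s0 (s2 (d 1) (s1 (s0 (d 5) (d 5)) (s0 (d 5) (d 5)))) (s2 (d 1) (s0 (d 5) (d 5)))) (s0 (s2 (d 1) (s1 (s0 (d 5) (d 5)) (s0 (d 5) (d 5)))) (s2 (d 1) (s0 (d 5) (d 5)))))) (s2 (d 1) (s1 (s0 (d 6) (d 6)) (s0 (s0 (d 6) (d 5)) (d 6)))))) (by decide +kernel)

theorem twoC09_95 : Cov (esE 9 169 260 286) ⟨0, 68719476736⟩ ⟨564599220863, 599886672166⟩ ⟨916717819657, 942831220817⟩ :=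
  Cov.of (open T in (s0 (s2 (s1 (s0 (s2 (s1 (s0 (d 4) (d 4)) (s0 (d 4) (d 4))) (s1 (s0 (d 4) (d 4)) (s0 (d 4) (d 4)))) (d 6)) (s0 (s2 (s1 (s0 (d 4) (d 4)) (s0 (d 4) (d 5))) (s1 (s0 (d 4) (d 4)) (s0 (d 4) (d 4)))) (s0 (d 5) (d 5)))) (s1 (s0 (s0 (d 4) (d 4)) (d 6)) (s0 (s0 (d 4) (d 4)) (d 6)))) (s0 (d 6) (d 5)))) (by decide +kernel)

theorem twoC09_96 : Cov (esE 9 169 260 286) ⟨0, 68719476736⟩ ⟨599886672166, 635174123470⟩ ⟨916717819657, 942831220817⟩ :=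
  Cov.of (open T in (s0 (s2 (s1 (s0 (s2 (s1 (s0 (d 4) (d 5)) (s0 (d 5) (d 5))) (s1 (s0 (d 4) (d 4)) (s0 (d 4) (d 4)))) (s0 (d 5) (d 5))) (s0 (s2 (s1 (s0 (d 5) (d 5)) (s0 (d 5) (d 5))) (s1 (s0 (d 4) (d 4)) (s0 (d 4) (d 5)))) (d 6))) (s1 (s0 (s0 (d 4) (d 4)) (d 6)) (s0 (s0 (d 4) (d 4)) (d 6)))) (s0 (d 6) (d 5)))) (by decide +kernel)

theorem twoC09_97 : Cov (esE 9 169 260 286) ⟨68719476736, 137438953472⟩ ⟨564599220863, 635174123470⟩ ⟨890604418498, 942831220817⟩ :=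
  Cov.of (open T in (s2 (s1 (s0 (s2 (d 1) (s1 (s0 (d 4) (d 4)) (s0 (d 4) (d 4)))) (d 4)) (s0 (s2 (d 1) (s1 (s0 (d 4) (d 4)) (s0 (d 4) (d 4)))) (d 4))) (s1 (s0 (s0 (d 4) (d 4)) (d 4)) (s0 (s0 (d 4) (d 4)) (d 4))))) (by decide +kernel)

theorem twoC09_101 : Cov (esE 9 169 260 286) ⟨0, 68719476736⟩ ⟨635174123470, 670461574774⟩ ⟨890604418498, 916717819657⟩ :=
  Cov.of (open T in (s0 (s2 (d 1) (s1 (s0 (s2 (d 1) (s1 (s0 (d 5) (d 5)) (s0 (d 5) (d 5)))) (s2 (d 1) (s0 (d 5) (d 5)))) (s0 (s2 (d 1) (s1 (s0 (d 6) (d 5)) (s0 (d 6) (d 6)))) (s2 (d 1) (s0 (d 6) (d 5)))))) (s2 (d 1) (s1 (s0 (s0 (d 6) (d 5)) (d 6)) (s0 (d 6) (d 5)))))) (by decide +kernel)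

theorem twoC09_102 : Cov (esE 9 169 260 286) ⟨0, 68719476736⟩ ⟨670461574774, 705749026078⟩ ⟨890604418498, 916717819657⟩ :=
  Cov.of (open T in (s0 (s2 (d 1) (s1 (s0 (s2 (d 1) (s1 (s0 (d 6) (d 6)) (s0 (d 6) (d 6)))) (s2 (d 1) (s0 (d 6) (d 5)))) (s0 (s2 (d 1) (s1 (s0 (d 6) (d 6)) (s0 (d 6) (d 6)))) (s2 (d 1) (s0 (d 5) (d 5)))))) (s2 (d 1) (s1 (s0 (d 6) (d 5)) (s0 (d 6) (d 5)))))) (by decide +kernel)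

theorem twoC09_104 : Cov (esE 9 169 260 286) ⟨0, 68719476736⟩ ⟨635174123470, 670461574774⟩ ⟨916717819657, 942831220817⟩ :=
  Cov.of (open T in (s0 (s2 (s1 (s0 (s2 (s1 (s0 (d 5) (d 5)) (s0 (d 5) (d 5))) (s1 (s0 (d 5) (d 5)) (s0 (d 5) (d 5)))) (d 6)) (s0 (s2 (s1 (s0 (d 5) (d 5)) (s0 (d 5) (d 5))) (s1 (s0 (d 5) (d 5)) (s0 (d 5) (d 5)))) (d 6))) (s1 (s0 (s0 (d 4) (d 4)) (d 6)) (s0 (s0 (d 5) (d 5)) (d 6)))) (s0 (d 6) (d 5)))) (by decide +kernel)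

end Ent
end Pool.Agent.Lib.MP_6947cd_al
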