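import Pool.Agent.Lib.MP_6947cd_al.T.TwoNum

/-!
Problem MP_6947cd_al (Chollet).  The numerical condition of the two-entry loss, level 9 / 10.
-/

set_option autoImplicit false

namespace Pool.Agent.Lib.MP_6947cd_al
namespace Ent
open IA

theorem twoC09_105 : Cov (esE 9 169 260 286) ⟨0, 68719476736⟩ ⟨670461574774, 705749026078⟩ ⟨916717819657, 942831220817⟩ :=
  Cov.of (open T in (s0 (s2 (s1 (s0 (s2 (s1 (s0 (d 5) (d 5)) (s0 (d 5) (d 5))) (s1 (s0 (d 5) (d 5)) (s0 (d 5) (d 5)))) (d 6)) (s0 (s2 (s1 (s0 (d 5) (d 5)) (s0 (d 5) (d 5))) (s1 (s0 (d 5) (d 5)) (s0 (d 5) (d 5)))) (d 6))) (s1 (s0 (s0 (d 5) (d 5)) (d 6)) (s0 (s0 (d 5) (d 5)) (d 6)))) (s0 (d 6) (d 4)))) (by decide +kernel)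

theorem twoC09_106 : Cov (esE 9 169 260 286) ⟨68719476736, 137438953472⟩ ⟨635174123470, 705749026078⟩ ⟨890604418498, 942831220817⟩ :=
  Cov.of (open T in (s2 (s1 (s0 (s2 (d 1) (s1 (s0 (d 4) (d 4)) (d 6))) (d 4)) (s0 (s2 (d 1) (s0 (d 4) (d 4))) (d 4))) (s1 (s0 (d 6) (d 4)) (s0 (d 6) (d 4))))) (by decide +kernel)

theorem twoC09_108 : Cov (esE 9 169 260 286) ⟨0, 137438953472⟩ ⟨564599220863, 635174123470⟩ ⟨942831220817, 995058023137⟩ :=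
  Cov.of (open T in (s0 (s2 (s1 (s0 (s2 (s1 (s0 (s0 (d 4) (d 4)) (d 4)) (s0 (s0 (d 4) (d 4)) (d 4))) (s1 (s0 (s0 (d 4) (d 4)) (d 4)) (s0 (s0 (d 4) (d 4)) (d 4)))) (s0 (d 4) (d 4))) (s0 (s2 (s1 (s0 (s0 (d 4) (d 4)) (d 4)) (s0 (s0 (d 4) (d 4)) (d 5))) (s1 (s0 (s0 (d 4) (d 4)) (d 4)) (s0 (s0 (d 4) (d 4)) (d 4)))) (s0 (d 4) (d 4)))) (s1 (s0 (s0 (s0 (d 4) (d 4)) (d 4)) (s0 (d 4) (d 4))) (s0 (s0 (s0 (d 4) (d 4)) (d 4)) (s0 (d 4) (d 4))))) (s0 (s0 (d 4) (d 4)) (d 4)))) (by decide +kernel)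

theorem twoC09_109 : Cov (esE 9 169 260 286) ⟨0, 137438953472⟩ ⟨635174123470, 705749026078⟩ ⟨942831220817, 995058023137⟩ :=
  Cov.of (open T in (s0 (s2 (s1 (s0 (s2 (s1 (s0 (s0 (d 4) (d 4)) (d 5)) (s0 (s0 (d 4) (d 4)) (d 5))) (s1 (s0 (s0 (d 4) (d 4)) (d 4)) (s0 (s0 (d 4) (d 4)) (d 4)))) (s0 (d 4) (d 4))) (s0 (s2 (s1 (s0 (s0 (d 4) (d 4)) (d 5)) (s0 (s0 (d 4) (d 4)) (d 5))) (s0 (s0 (d 4) (d 4)) (d 5))) (s0 (d 4) (d 4)))) (s1 (s0 (s0 (s0 (d 4) (d 4)) (d 4)) (s0 (d 4) (d 4))) (s0 (s0 (s0 (d 4) (d 4)) (d 4)) (s0 (d 4) (d 4))))) (s0 (d 6) (d 4)))) (by decide +kernel)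

theorem twoC09_110 : Cov (esE 9 169 260 286) ⟨137438953472, 274877906944⟩ ⟨564599220863, 705749026078⟩ ⟨890604418498, 995058023137⟩ :=
  Cov.of (open T in (s2 (s1 (s0 (s0 (d 4) (d 3)) (d 3)) (s0 (s0 (d 4) (d 3)) (d 3))) (s1 (s0 (d 6) (d 3)) (s0 (d 4) (d 3))))) (by decide +kernel)

theorem twoC09_117 : Cov (esE 9 169 260 286) ⟨0, 68719476736⟩ ⟨705749026078, 741036477382⟩ ⟨890604418498, 916717819657⟩ :=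
  Cov.of (open T in (s0 (s2 (d 1) (s1 (s0 (s2 (d 1) (s1 (s0 (d 6) (d 6)) (s0 (d 6) (d 6)))) (s2 (d 1) (s0 (d 5) (d 5)))) (s0 (s2 (d 1) (s1 (s0 (d 6) (d 6)) (s0 (d 6) (d 6)))) (s2 (d 1) (s0 (d 5) (d 5)))))) (s2 (d 1) (s1 (s0 (d 6) (d 5)) (s0 (d 6) (d 4)))))) (by decide +kernel)

theorem twoC09_118 : Cov (esE 9 169 260 286) ⟨0, 68719476736⟩ ⟨741036477382, 776323928686⟩ ⟨890604418498, 916717819657⟩ :=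
  Cov.of (open T in (s0 (s2 (d 1) (s1 (s0 (s2 (d 1) (s1 (s0 (d 6) (d 6)) (s0 (d 6) (d 6)))) (s2 (d 1) (s0 (d 5) (d 5)))) (s0 (s2 (d 1) (s1 (s0 (d 6) (d 6)) (s0 (d 6) (d 6)))) (s2 (d 1) (d 6))))) (s2 (d 1) (s1 (s0 (d 6) (d 4)) (s0 (d 6) (d 4)))))) (by decide +kernel)

theorem twoC09_120 : Cov (esE 9 169 260 286) ⟨0, 68719476736⟩ ⟨705749026078, 741036477382⟩ ⟨916717819657, 942831220817⟩ :=
  Cov.of (open T in (s0 (s2 (s1 (s0 (s2 (s1 (s0 (d 5) (d 5)) (s0 (d 5) (d 5))) (s0 (d 5) (d 5))) (d 6)) (s0 (s2 (s1 (s0 (d 5) (d 5)) (s0 (d 5) (d 5))) (s0 (d 5) (d 5))) (d 6))) (s1 (s0 (s0 (d 5) (d 5)) (d 6)) (s0 (s0 (d 5) (d 5)) (d 6)))) (s0 (d 6) (d 4)))) (by decide +kernel)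

theorem twoC09_121 : Cov (esE 9 169 260 286) ⟨0, 68719476736⟩ ⟨741036477382, 776323928686⟩ ⟨916717819657, 942831220817⟩ :=
  Cov.of (open T in (s0 (s2 (s1 (s0 (s2 (s1 (s0 (d 5) (d 5)) (s0 (d 5) (d 5))) (s0 (d 5) (d 5))) (d 6)) (s0 (s2 (s1 (s0 (d 5) (d 5)) (s0 (d 5) (d 5))) (s0 (d 5) (d 5))) (d 6))) (s1 (s0 (s0 (d 5) (d 5)) (d 6)) (s0 (s0 (d 5) (d 5)) (d 6)))) (s0 (d 6) (d 4)))) (by decide +kernel)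

theorem twoC09_122 : Cov (esE 9 169 260 286) ⟨68719476736, 137438953472⟩ ⟨705749026078, 776323928686⟩ ⟨890604418498, 942831220817⟩ :=
  Cov.of (open T in (s2 (s1 (s0 (s2 (d 1) (d 6)) (d 4)) (s0 (s0 (d 4) (d 4)) (d 4))) (s1 (s0 (d 5) (d 4)) (s0 (d 4) (d 4))))) (by decide +kernel)

theorem twoC09_126 : Cov (esE 9 169 260 286) ⟨0, 68719476736⟩ ⟨776323928686, 811611379990⟩ ⟨890604418498, 916717819657⟩ :=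
  Cov.of (open T in (s0 (s2 (d 1) (s1 (s0 (s2 (d 1) (s1 (s0 (d 6) (d 6)) (s0 (d 6) (d 6)))) (s2 (d 1) (d 6))) (s0 (s2 (d 1) (s1 (s0 (d 6) (d 5)) (s0 (d 6) (d 5)))) (s2 (d 1) (d 6))))) (s2 (v 1) (s1 (s0 (d 6) (d 4)) (s0 (d 6) (d 4)))))) (by decide +kernel)

theorem twoC09_127 : Cov (esE 9 169 260 286) ⟨0, 68719476736⟩ ⟨811611379990, 846898831294⟩ ⟨890604418498, 916717819657⟩ :=
  Cov.of (open T in (s0 (s2 (v 1) (s1 (s0 (s2 (d 1) (s1 (s0 (d 6) (d 5)) (s0 (d 6) (d 5)))) (s0 (d 6) (d 5))) (s0 (s2 (d 1) (s1 (s0 (d 6) (d 5)) (s0 (d 6) (d 5)))) (s0 (d 6) (d 5))))) (s2 (v 1) (s1 (s0 (d 6) (d 4)) (s0 (d 5) (d 4)))))) (by decide +kernel)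

theorem twoC09_128 : Cov (esE 9 169 260 286) ⟨0, 68719476736⟩ ⟨776323928686, 846898831294⟩ ⟨916717819657, 942831220817⟩ :=
  Cov.of (open T in (s1 (s0 (s2 (s1 (s0 (s0 (d 6) (d 5)) (d 6)) (s0 (s0 (d 6) (d 5)) (d 6))) (s1 (s0 (s0 (d 5) (d 5)) (d 6)) (s0 (s0 (d 5) (d 5)) (d 6)))) (s0 (d 6) (d 4))) (s0 (s2 (s1 (s0 (s0 (d 6) (d 5)) (d 6)) (s0 (s0 (d 5) (d 5)) (d 6))) (s1 (s0 (s0 (d 5) (d 5)) (d 5)) (s0 (s0 (d 5) (d 5)) (d 5)))) (s0 (d 5) (d 4))))) (by decide +kernel)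

theorem twoC09_129 : Cov (esE 9 169 260 286) ⟨68719476736, 137438953472⟩ ⟨776323928686, 846898831294⟩ ⟨890604418498, 942831220817⟩ :=
  Cov.of (open T in (s2 (s1 (s0 (d 6) (d 4)) (s0 (d 5) (d 4))) (s1 (s0 (d 4) (d 4)) (s0 (d 4) (d 4))))) (by decide +kernel)

theorem twoC09_131 : Cov (esE 9 169 260 286) ⟨0, 137438953472⟩ ⟨705749026078, 776323928686⟩ ⟨942831220817, 995058023137⟩ :=
  Cov.of (open T in (s0 (s2 (s1 (s0 (s2 (s1 (s0 (s0 (d 4) (d 4)) (d 5)) (s0 (s0 (d 4) (d 4)) (d 5))) (s0 (s0 (d 4) (d 4)) (d 5))) (s0 (d 4) (d 4))) (s0 (s2 (s1 (s0 (s0 (d 4) (d 4)) (d 5)) (s0 (s0 (d 4) (d 4)) (d 5))) (s0 (s0 (d 4) (d 4)) (d 5))) (s0 (d 4) (d 4)))) (s1 (s0 (s0 (d 6) (d 4)) (d 6)) (s0 (s0 (d 6) (d 4)) (d 6)))) (s0 (d 4) (d 4)))) (by decide +kernel)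

theorem twoC09_132 : Cov (esE 9 169 260 286) ⟨0, 137438953472⟩ ⟨776323928686, 846898831294⟩ ⟨942831220817, 995058023137⟩ :=
  Cov.of (open T in (s0 (s2 (s1 (s0 (s2 (s1 (s0 (s0 (d 4) (d 4)) (d 5)) (s0 (s0 (d 4) (d 4)) (d 5))) (s0 (d 6) (d 5))) (s0 (d 4) (d 4))) (s0 (s2 (s1 (s0 (d 6) (d 5)) (s0 (d 6) (d 5))) (s0 (d 6) (d 4))) (s0 (d 4) (d 4)))) (s1 (s0 (s0 (d 6) (d 4)) (d 6)) (s0 (s0 (d 6) (d 4)) (d 5)))) (s0 (d 4) (d 4)))) (by decide +kernel)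

theorem twoC09_133 : Cov (esE 9 169 260 286) ⟨137438953472, 274877906944⟩ ⟨705749026078, 846898831294⟩ ⟨890604418498, 995058023137⟩ :=
  Cov.of (open T in (s2 (s1 (s0 (d 5) (d 3)) (s2 (s0 (d 4) (d 3)) (s0 (d 4) (d 3)))) (s1 (s0 (d 4) (d 3)) (s0 (d 4) (d 3))))) (by decide +kernel)

theorem twoC09_137 : Cov (esE 9 169 260 286) ⟨0, 137438953472⟩ ⟨564599220863, 705749026078⟩ ⟨995058023137, 1047284825456⟩ :=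
  Cov.of (open T in (s1 (s0 (s2 (s1 (s0 (s0 (d 4) (d 4)) (d 5)) (s0 (s0 (d 4) (d 4)) (d 5))) (s1 (s0 (s0 (d 4) (d 4)) (d 4)) (s0 (s0 (d 4) (d 4)) (d 4)))) (s0 (d 4) (d 4))) (s0 (s2 (s1 (s0 (s0 (d 4) (d 4)) (d 5)) (s0 (s0 (d 4) (d 4)) (d 5))) (s1 (s0 (s0 (d 4) (d 4)) (d 4)) (s0 (s0 (d 4) (d 4)) (d 4)))) (s0 (d 4) (d 4))))) (by decide +kernel)

theorem twoC09_138 : Cov (esE 9 169 260 286) ⟨0, 137438953472⟩ ⟨564599220863, 705749026078⟩ ⟨1047284825456, 1099511627776⟩ :=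
  Cov.of (open T in (s1 (s0 (s2 (s1 (s0 (s0 (d 4) (d 4)) (d 4)) (s0 (s0 (d 4) (d 4)) (d 4))) (s0 (s0 (d 4) (d 4)) (d 4))) (s0 (d 4) (d 3))) (s0 (s2 (s1 (s0 (s0 (d 4) (d 4)) (d 4)) (s0 (s0 (d 4) (d 4)) (d 4))) (s0 (s0 (d 4) (d 4)) (d 4))) (s0 (d 4) (d 3))))) (by decide +kernel)

theorem twoC09_139 : Cov (esE 9 169 260 286) ⟨137438953472, 274877906944⟩ ⟨564599220863, 705749026078⟩ ⟨995058023137, 1099511627776⟩ :=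
  Cov.of (open T in (s0 (s0 (d 3) (d 3)) (d 3))) (by decide +kernel)

theorem twoC09_140 : Cov (esE 9 169 260 286) ⟨0, 274877906944⟩ ⟨705749026078, 846898831294⟩ ⟨995058023137, 1099511627776⟩ :=
  Cov.of (open T in (s0 (s2 (s1 (s0 (s2 (s1 (s0 (s0 (d 4) (d 4)) (d 4)) (s0 (s0 (d 4) (d 4)) (d 4))) (s1 (s0 (s0 (d 4) (d 4)) (d 4)) (s0 (s0 (d 4) (d 4)) (d 4)))) (s0 (d 4) (d 3))) (s0 (s2 (s1 (s0 (s0 (d 4) (d 4)) (d 4)) (s0 (s0 (d 4) (d 4)) (d 4))) (s1 (s0 (s0 (d 4) (d 4)) (d 4)) (s0 (s0 (d 4) (d 4)) (d 4)))) (s0 (d 4) (d 3)))) (s1 (s0 (s0 (s0 (d 4) (d 4)) (d 4)) (s0 (d 4) (d 3))) (s0 (s0 (s0 (d 4) (d 4)) (d 4)) (d 6)))) (s0 (d 4) (d 3)))) (by decide +kernel)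

theorem twoC09_141 : Cov (esE 9 169 260 286) ⟨274877906944, 549755813888⟩ ⟨564599220863, 846898831294⟩ ⟨890604418498, 1099511627776⟩ :=
  Cov.of (open T in (s2 (s1 (s2 (s0 (s0 (d 3) (d 3)) (d 3)) (s0 (d 3) (d 3))) (s2 (s0 (d 3) (v 3)) (s0 (d 3) (v 3)))) (s1 (s0 (d 3) (d 3)) (s0 (d 3) (v 3))))) (by decide +kernel)

theorem twoC09_150 : Cov (esE 9 169 260 286) ⟨0, 68719476736⟩ ⟨846898831294, 917473733902⟩ ⟨890604418498, 916717819657⟩ :=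
  Cov.of (open T in (s1 (s0 (s2 (v 1) (s1 (s0 (s2 (d 1) (s1 (s0 (d 6) (d 5)) (s0 (d 6) (d 5)))) (d 6)) (s0 (s2 (v 1) (s1 (s0 (d 6) (d 5)) (s0 (d 5) (d 5)))) (d 6)))) (s2 (v 1) (s1 (s0 (d 5) (d 4)) (s0 (d 5) (d 4))))) (s0 (s2 (v 1) (s1 (s0 (s2 (v 1) (s1 (s0 (d 5) (d 5)) (s0 (d 5) (d 5)))) (d 6)) (s0 (s2 (v 1) (s1 (s0 (d 5) (d 5)) (s0 (d 5) (d 5)))) (d 6)))) (s2 (v 1) (s1 (s0 (d 5) (d 1)) (d 1)))))) (by decide +kernel)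

theorem twoC09_151 : Cov (esE 9 169 260 286) ⟨0, 68719476736⟩ ⟨846898831294, 917473733902⟩ ⟨916717819657, 942831220817⟩ :=
  Cov.of (open T in (s1 (s0 (s2 (s1 (s0 (s0 (d 5) (d 5)) (d 6)) (s0 (s0 (d 5) (d 5)) (d 6))) (s1 (s0 (s0 (d 5) (d 5)) (d 5)) (s0 (s0 (d 5) (d 5)) (d 5)))) (s0 (d 5) (d 4))) (s0 (s2 (s1 (s0 (s0 (d 5) (d 5)) (d 6)) (s0 (s0 (d 5) (d 5)) (d 6))) (s1 (s0 (d 6) (d 5)) (s0 (d 6) (d 5)))) (s0 (d 4) (d 4))))) (by decide +kernel)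

end Ent
end Pool.Agent.Lib.MP_6947cd_al
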