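import Pool.Agent.Lib.MP_6947cd_al.T.TwoNum

/-!
Problem MP_6947cd_al (Chollet).  The numerical condition of the two-entry loss, level 9 / 10.
-/

set_option autoImplicit false

namespace Pool.Agent.Lib.MP_6947cd_al
namespace Ent
open IA

theorem twoC09_152 : Cov (esE 9 169 260 286) ⟨68719476736, 137438953472⟩ ⟨846898831294, 917473733902⟩ ⟨890604418498, 942831220817⟩ :=
  Cov.of (open T in (s2 (s1 (s2 (d 1) (s0 (d 4) (d 1))) (s2 (d 1) (s0 (d 1) (d 1)))) (s1 (s0 (d 4) (d 4)) (s0 (d 4) (d 4))))) (by decide +kernel)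

theorem twoC09_153 : Cov (esE 9 169 260 286) ⟨0, 137438953472⟩ ⟨917473733902, 988048636510⟩ ⟨890604418498, 942831220817⟩ :=
  Cov.of (open T in (s2 (s0 (s1 (s2 (d 1) (s0 (s1 (s0 (s2 (v 1) (s1 (s0 (d 5) (d 1)) (d 1))) (d 1)) (d 1)) (d 1))) (s2 (d 1) (s0 (d 1) (d 1)))) (s1 (d 1) (d 1))) (s0 (s1 (s0 (s2 (s1 (s0 (s0 (d 5) (d 5)) (d 5)) (s0 (d 6) (d 5))) (s1 (s0 (d 6) (d 5)) (s0 (d 6) (d 5)))) (s0 (d 4) (d 4))) (s2 (s0 (s1 (s2 (s0 (d 6) (d 5)) (s0 (d 6) (d 5))) (s2 (s0 (d 6) (d 5)) (s0 (d 6) (d 5)))) (d 6)) (s0 (s1 (s0 (d 6) (d 5)) (s0 (d 6) (d 4))) (d 5)))) (s0 (d 4) (d 4))))) (by decide +kernel)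

theorem twoC09_154 : Cov (esE 9 169 260 286) ⟨137438953472, 274877906944⟩ ⟨846898831294, 988048636510⟩ ⟨890604418498, 942831220817⟩ :=
  Cov.of (open T in (s1 (s2 (s0 (d 4) (d 1)) (s0 (d 4) (d 3))) (s2 (s0 (d 1) (d 1)) (s0 (d 3) (d 3))))) (by decide +kernel)

theorem twoC09_155 : Cov (esE 9 169 260 286) ⟨0, 274877906944⟩ ⟨846898831294, 988048636510⟩ ⟨942831220817, 995058023137⟩ :=
  Cov.of (open T in (s0 (s1 (s0 (s2 (s1 (s0 (s0 (s0 (d 5) (d 5)) (d 5)) (d 6)) (s0 (s0 (d 6) (d 5)) (d 6))) (s1 (s0 (s0 (d 5) (d 4)) (d 5)) (s0 (s0 (d 5) (d 4)) (d 4)))) (s0 (d 4) (d 4))) (s0 (s2 (s1 (s0 (s0 (d 6) (d 5)) (d 5)) (s0 (s0 (d 5) (d 4)) (d 5))) (s1 (s0 (s0 (d 5) (d 4)) (d 4)) (s0 (s0 (d 5) (d 4)) (d 4)))) (s0 (d 4) (d 3)))) (s0 (d 4) (d 3)))) (by decide +kernel)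

theorem twoC09_159 : Cov (esE 9 169 260 286) ⟨0, 137438953472⟩ ⟨988048636510, 1058623539118⟩ ⟨890604418498, 942831220817⟩ :=
  Cov.of (open T in (s2 (s0 (s1 (d 1) (d 1)) (d 1)) (s0 (s1 (s2 (s0 (s1 (s2 (s0 (d 6) (d 5)) (s0 (d 6) (d 5))) (s2 (s0 (d 6) (d 5)) (s0 (d 5) (d 4)))) (d 6)) (s0 (s0 (d 5) (d 4)) (d 5))) (s2 (s0 (s1 (s2 (s0 (d 5) (d 4)) (s0 (d 5) (d 4))) (s2 (s0 (d 5) (d 4)) (s0 (d 5) (d 4)))) (d 5)) (s0 (s0 (d 5) (d 4)) (d 4)))) (s0 (d 4) (d 3))))) (by decide +kernel)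

theorem twoC09_160 : Cov (esE 9 169 260 286) ⟨0, 137438953472⟩ ⟨1058623539118, 1129198441726⟩ ⟨890604418498, 942831220817⟩ :=
  Cov.of (open T in (s2 (s0 (d 1) (d 1)) (s0 (s1 (s2 (s0 (s1 (s2 (s0 (d 5) (d 4)) (s0 (d 5) (d 4))) (s2 (s0 (d 5) (d 4)) (s0 (d 5) (d 4)))) (d 4)) (s0 (s0 (d 5) (d 4)) (d 4))) (s2 (s0 (s1 (s2 (s0 (d 5) (d 4)) (s0 (d 5) (d 4))) (s2 (s0 (d 5) (d 4)) (s0 (d 5) (d 4)))) (d 4)) (s0 (s0 (d 5) (d 4)) (d 4)))) (d 6)))) (by decide +kernel)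

theorem twoC09_161 : Cov (esE 9 169 260 286) ⟨137438953472, 274877906944⟩ ⟨988048636510, 1129198441726⟩ ⟨890604418498, 942831220817⟩ :=
  Cov.of (open T in (s1 (s2 (d 1) (s0 (d 3) (v 3))) (s0 (d 3) (v 3)))) (by decide +kernel)

theorem twoC09_164 : Cov (esE 9 169 260 286) ⟨0, 137438953472⟩ ⟨988048636510, 1058623539118⟩ ⟨942831220817, 995058023137⟩ :=
  Cov.of (open T in (s2 (s0 (s1 (s2 (s0 (s0 (d 5) (d 4)) (d 4)) (s0 (s0 (d 5) (d 4)) (d 4))) (s2 (s0 (s0 (d 5) (d 4)) (d 4)) (s0 (s0 (d 5) (d 4)) (d 4)))) (d 6)) (s0 (s1 (s0 (s0 (d 4) (d 4)) (d 4)) (s2 (s0 (s0 (d 4) (d 4)) (d 4)) (s0 (d 6) (d 4)))) (d 5)))) (by decide +kernel)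

theorem twoC09_165 : Cov (esE 9 169 260 286) ⟨0, 137438953472⟩ ⟨1058623539118, 1129198441726⟩ ⟨942831220817, 995058023137⟩ :=
  Cov.of (open T in (s2 (s0 (s1 (s2 (s0 (s0 (d 5) (d 4)) (d 4)) (s0 (s0 (d 4) (d 4)) (d 4))) (s2 (s0 (s0 (d 5) (d 4)) (d 4)) (s0 (s0 (d 4) (d 4)) (d 4)))) (d 4)) (s0 (s1 (s2 (s0 (d 6) (d 4)) (s0 (d 6) (d 4))) (s2 (s0 (d 6) (d 4)) (s0 (d 6) (d 4)))) (d 4)))) (by decide +kernel)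

theorem twoC09_166 : Cov (esE 9 169 260 286) ⟨137438953472, 274877906944⟩ ⟨988048636510, 1129198441726⟩ ⟨942831220817, 995058023137⟩ :=
  Cov.of (open T in (s0 (d 3) (d 3))) (by decide +kernel)

theorem twoC09_167 : Cov (esE 9 169 260 286) ⟨274877906944, 549755813888⟩ ⟨846898831294, 1129198441726⟩ ⟨890604418498, 995058023137⟩ :=
  Cov.of (open T in (s2 (s1 (s0 (d 3) (v 3)) (s0 (d 3) (v 3))) (s1 (s0 (d 3) (v 3)) (s0 (d 3) (v 3))))) (by decide +kernel)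

theorem twoC09_170 : Cov (esE 9 169 260 286) ⟨0, 274877906944⟩ ⟨846898831294, 988048636510⟩ ⟨995058023137, 1099511627776⟩ :=
  Cov.of (open T in (s0 (s2 (s1 (s0 (s2 (s1 (s0 (s0 (d 4) (d 4)) (d 4)) (s0 (s0 (d 4) (d 4)) (d 4))) (s1 (s0 (s0 (d 4) (d 4)) (d 4)) (s0 (s0 (d 4) (d 4)) (d 4)))) (s0 (d 4) (d 3))) (s0 (s2 (s1 (s0 (s0 (d 4) (d 4)) (d 4)) (s0 (s0 (d 4) (d 4)) (d 4))) (s1 (s0 (s0 (d 4) (d 4)) (d 4)) (s0 (d 6) (d 4)))) (d 6))) (s1 (s0 (s0 (s0 (d 4) (d 4)) (d 4)) (d 4)) (s0 (s0 (s0 (d 4) (d 4)) (d 4)) (d 4)))) (s0 (d 3) (d 3)))) (by decide +kernel)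

theorem twoC09_171 : Cov (esE 9 169 260 286) ⟨0, 274877906944⟩ ⟨988048636510, 1129198441726⟩ ⟨995058023137, 1099511627776⟩ :=
  Cov.of (open T in (s2 (s0 (s1 (s0 (s2 (s1 (s0 (d 6) (d 4)) (s0 (d 6) (d 4))) (s0 (d 6) (d 4))) (d 4)) (s2 (s0 (s1 (s0 (d 6) (d 4)) (s0 (d 5) (d 4))) (d 4)) (s0 (s0 (d 5) (d 4)) (d 4)))) (s0 (d 3) (v 3))) (s0 (s1 (s0 (s0 (d 5) (d 4)) (d 4)) (s0 (s0 (d 5) (d 4)) (d 4))) (s0 (d 3) (v 3))))) (by decide +kernel)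

theorem twoC09_172 : Cov (esE 9 169 260 286) ⟨274877906944, 549755813888⟩ ⟨846898831294, 1129198441726⟩ ⟨995058023137, 1099511627776⟩ :=
  Cov.of (open T in (s0 (d 3) (v 3))) (by decide +kernel)

theorem twoC09_173 : Cov (esE 9 169 260 286) ⟨549755813888, 1099511627776⟩ ⟨564599220863, 1129198441726⟩ ⟨890604418498, 1099511627776⟩ :=
  Cov.of (open T in (s2 (s1 (s0 (d 3) (v 3)) (s0 (v 3) (v 3))) (s1 (s0 (d 3) (v 3)) (s0 (v 3) (v 3))))) (by decide +kernel)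

theorem twoC09_181 : Cov (esE 9 169 260 286) ⟨0, 274877906944⟩ ⟨1129198441726, 1270348246941⟩ ⟨890604418498, 942831220817⟩ :=
  Cov.of (open T in (s0 (s1 (s2 (d 1) (s0 (s1 (s2 (s0 (s1 (s0 (d 5) (d 4)) (s0 (d 5) (d 4))) (d 4)) (s0 (s0 (d 5) (d 4)) (d 4))) (s2 (s0 (s0 (d 5) (d 4)) (d 4)) (s0 (s0 (d 5) (d 4)) (d 4)))) (d 4))) (s2 (d 1) (s0 (s1 (s2 (s0 (s0 (d 5) (d 4)) (d 4)) (s0 (d 6) (d 4))) (s2 (s0 (d 6) (d 4)) (s0 (d 6) (d 4)))) (d 4)))) (s2 (d 1) (s0 (d 3) (v 3))))) (by decide +kernel)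

theorem twoC09_182 : Cov (esE 9 169 260 286) ⟨0, 274877906944⟩ ⟨1270348246941, 1411498052157⟩ ⟨890604418498, 942831220817⟩ :=
  Cov.of (open T in (s0 (s2 (d 1) (s1 (s0 (s2 (s1 (s0 (d 6) (d 4)) (s0 (d 5) (d 4))) (s1 (s0 (d 5) (d 4)) (s0 (d 5) (d 4)))) (d 4)) (s0 (s2 (s1 (s0 (d 5) (d 4)) (s0 (d 5) (d 4))) (s1 (s0 (d 5) (d 4)) (s0 (d 5) (d 4)))) (d 4)))) (d 4))) (by decide +kernel)

theorem twoC09_184 : Cov (esE 9 169 260 286) ⟨0, 274877906944⟩ ⟨1129198441726, 1270348246941⟩ ⟨942831220817, 995058023137⟩ :=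
  Cov.of (open T in (s0 (s1 (s2 (s0 (s1 (s2 (s0 (s0 (d 4) (d 4)) (d 4)) (s0 (d 6) (d 4))) (s2 (s0 (d 6) (d 4)) (s0 (d 6) (d 4)))) (d 4)) (s0 (s1 (s2 (s0 (d 6) (d 4)) (s0 (d 5) (d 4))) (s2 (s0 (d 5) (d 4)) (s0 (d 5) (d 4)))) (d 4))) (s2 (s0 (s1 (s2 (s0 (d 6) (d 4)) (s0 (d 5) (d 4))) (s2 (s0 (d 5) (d 4)) (s0 (d 5) (d 4)))) (d 4)) (s0 (s1 (s2 (s0 (d 5) (d 4)) (s0 (d 5) (d 4))) (s2 (s0 (d 5) (d 4)) (s0 (d 4) (d 4)))) (d 4)))) (s0 (d 3) (v 3)))) (by decide +kernel)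

theorem twoC09_185 : Cov (esE 9 169 260 286) ⟨0, 274877906944⟩ ⟨1270348246941, 1411498052157⟩ ⟨942831220817, 995058023137⟩ :=
  Cov.of (open T in (s0 (s2 (s1 (s0 (s1 (s2 (s0 (d 5) (d 4)) (s0 (d 5) (d 4))) (s2 (s0 (d 5) (d 4)) (s0 (d 5) (d 4)))) (d 4)) (s0 (s2 (s1 (s0 (d 5) (d 4)) (s0 (d 4) (d 4))) (s1 (s0 (d 4) (d 4)) (s0 (d 4) (d 4)))) (d 4))) (s1 (s0 (s1 (s0 (d 5) (d 4)) (s0 (d 4) (d 4))) (d 4)) (s0 (s0 (d 4) (d 4)) (d 4)))) (d 4))) (by decide +kernel)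

theorem twoC09_186 : Cov (esE 9 169 260 286) ⟨274877906944, 549755813888⟩ ⟨1129198441726, 1411498052157⟩ ⟨890604418498, 995058023137⟩ :=
  Cov.of (open T in (s2 (s1 (s0 (v 3) (v 3)) (s0 (v 3) (v 3))) (s0 (d 3) (v 3)))) (by decide +kernel)

theorem twoC09_189 : Cov (esE 9 169 260 286) ⟨0, 274877906944⟩ ⟨1411498052157, 1693797662589⟩ ⟨890604418498, 942831220817⟩ :=
  Cov.of (open T in (s1 (s0 (s2 (d 1) (s1 (s0 (s2 (s1 (s0 (d 4) (d 4)) (s0 (d 4) (d 4))) (s1 (s0 (d 4) (d 4)) (s0 (d 4) (d 4)))) (d 4)) (s0 (s2 (s1 (s0 (d 4) (v 4)) (s0 (d 4) (v 4))) (s1 (s0 (d 4) (v 4)) (s0 (d 4) (v 4)))) (d 4)))) (d 4)) (s0 (s2 (d 1) (s1 (s0 (s2 (s1 (s0 (d 4) (v 4)) (s0 (d 4) (v 4))) (s1 (s0 (d 4) (v 4)) (s0 (d 4) (v 4)))) (v 4)) (s0 (s2 (s1 (s0 (d 4) (v 4)) (s0 (d 4) (v 4))) (s0 (d 4) (v 4)))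 (d 3)))) (d 3)))) (by decide +kernel)

theorem twoC09_190 : Cov (esE 9 169 260 286) ⟨0, 274877906944⟩ ⟨1411498052157, 1693797662589⟩ ⟨942831220817, 995058023137⟩ :=
  Cov.of (open T in (s1 (s0 (s2 (s1 (s0 (s2 (s1 (s0 (d 4) (d 4)) (s0 (d 4) (v 4))) (s1 (s0 (d 4) (v 4)) (s0 (d 4) (v 4)))) (d 4)) (s0 (s0 (d 4) (d 4)) (d 4))) (s1 (s0 (s0 (d 4) (d 4)) (d 4)) (s0 (s0 (d 4) (v 4)) (d 3)))) (d 4)) (s0 (s2 (s1 (s0 (s0 (d 4) (v 4)) (d 3)) (s0 (s0 (d 4) (v 4)) (d 3))) (s1 (s0 (s0 (d 4) (v 4)) (d 3)) (s0 (d 6) (d 3)))) (d 3)))) (by decide +kernel)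

theorem twoC09_191 : Cov (esE 9 169 260 286) ⟨274877906944, 549755813888⟩ ⟨1411498052157, 1693797662589⟩ ⟨890604418498, 995058023137⟩ :=
  Cov.of (open T in (s0 (v 3) (v 3))) (by decide +kernel)

theorem twoC09_195 : Cov (esE 9 169 260 286) ⟨0, 274877906944⟩ ⟨1129198441726, 1270348246941⟩ ⟨995058023137, 1099511627776⟩ :=
  Cov.of (open T in (s2 (s0 (s1 (s2 (s0 (s0 (d 5) (d 4)) (d 4)) (s0 (s0 (d 5) (d 4)) (d 4))) (s2 (s0 (s0 (d 5) (d 4)) (d 4)) (s0 (s0 (d 4) (d 4)) (d 4)))) (d 4)) (s0 (s1 (s2 (s0 (s0 (d 4) (d 4)) (d 4)) (s0 (s0 (d 4) (d 4)) (d 4))) (s2 (s0 (s0 (d 4) (d 4)) (d 4)) (s0 (s0 (d 4) (d 4)) (d 4)))) (d 4)))) (by decide +kernel)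

theorem twoC09_196 : Cov (esE 9 169 260 286) ⟨0, 274877906944⟩ ⟨1270348246941, 1411498052157⟩ ⟨995058023137, 1099511627776⟩ :=
  Cov.of (open T in (s2 (s0 (s1 (s2 (s0 (s0 (d 4) (d 4)) (d 4)) (s0 (s0 (d 4) (d 4)) (d 4))) (s2 (s0 (s0 (d 4) (d 4)) (d 4)) (s0 (s0 (d 4) (d 4)) (d 4)))) (d 4)) (s0 (s1 (s2 (s0 (s0 (d 4) (d 4)) (d 4)) (s0 (s0 (d 4) (v 4)) (d 3))) (s2 (s0 (s0 (d 4) (v 4)) (d 3)) (s0 (s0 (d 4) (v 4)) (d 3)))) (d 3)))) (by decide +kernel)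

theorem twoC09_197 : Cov (esE 9 169 260 286) ⟨274877906944, 549755813888⟩ ⟨1129198441726, 1411498052157⟩ ⟨995058023137, 1099511627776⟩ :=
  Cov.of (open T in (s0 (v 3) (v 3))) (by decide +kernel)

theorem twoC09_198 : Cov (esE 9 169 260 286) ⟨0, 549755813888⟩ ⟨1411498052157, 1693797662589⟩ ⟨995058023137, 1099511627776⟩ :=
  Cov.of (open T in (s0 (s2 (s1 (s0 (s2 (s1 (s0 (s0 (d 4) (v 4)) (d 4)) (s0 (s0 (d 4) (v 4)) (d 3))) (s1 (s0 (s0 (d 4) (v 4)) (d 3)) (s0 (s0 (d 4) (v 4)) (d 3)))) (d 3)) (s0 (s2 (s1 (s0 (s0 (d 4) (v 4)) (d 3)) (s0 (d 5) (d 3))) (s1 (s0 (d 6) (d 3)) (s0 (d 5) (d 3)))) (d 3))) (s1 (s0 (s1 (s2 (s0 (s0 (d 4) (v 4)) (d 3)) (s0 (s0 (d 4) (v 4)) (d 3))) (s2 (s0 (d 6) (d 3)) (s0 (d 5) (d 3)))) (d 3)) (s0 (s2 (s1 (s0 (d 5) (d 3)) (s0 (d 4) (d 3))) (s1 (s0 (d 4)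 (d 3)) (s0 (d 4) (v 3)))) (v 3)))) (d 4))) (by decide +kernel)

theorem twoC09_199 : Cov (esE 9 169 260 286) ⟨549755813888, 1099511627776⟩ ⟨1129198441726, 1693797662589⟩ ⟨890604418498, 1099511627776⟩ :=
  Cov.of (open T in (s2 (s1 (s0 (v 3) (v 3)) (v 3)) (s1 (s0 (v 3) (v 3)) (v 3)))) (by decide +kernel)

theorem twoC09_202 : Cov (esE 9 169 260 286) ⟨0, 549755813888⟩ ⟨1693797662589, 2258396883452⟩ ⟨890604418498, 995058023137⟩ :=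
  Cov.of (open T in (s1 (s0 (s2 (s1 (s0 (s2 (d 1) (s1 (s0 (s0 (d 4) (v 4)) (d 3)) (s0 (d 5) (d 3)))) (d 3)) (s0 (s2 (d 1) (s1 (s0 (d 4) (d 3)) (s0 (d 4) (v 3)))) (v 3))) (s1 (s0 (s2 (s1 (s0 (d 6) (d 3)) (s0 (d 5) (d 3))) (s1 (s0 (d 5) (d 3)) (s0 (d 4) (d 3)))) (v 3)) (s0 (s2 (s1 (s0 (d 4) (v 3)) (s0 (d 4) (v 3))) (s1 (s0 (d 4) (v 3)) (s0 (d 4) (v 3)))) (v 3)))) (v 3)) (s0 (s2 (s1 (s0 (s2 (d 1) (s1 (s0 (d 4) (v 3)) (s0 (d 4) (v 3)))) (v 3)) (s0 (s2 (d 1) (s1 (s0 (v 4) (v 3)) (s0 (v 4) (v 3)))) (v 3))) (s1 (s0 (s2 (s1 (s0 (d 4) (v 3)) (s0 (d 4) (v 3))) (s1 (s0 (d 4) (v 3)) (s0 (v 4) (v 3)))) (v 3)) (s0 (s2 (s1 (s0 (v 4) (v 3)) (s0 (v 4) (v 3))) (s1 (s0 (v 4) (v 3)) (s0 (v 4) (v 3)))) (v 3)))) (v 3)))) (by decide +kernel)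

theorem twoC09_203 : Cov (esE 9 169 260 286) ⟨0, 549755813888⟩ ⟨1693797662589, 2258396883452⟩ ⟨995058023137, 1099511627776⟩ :=
  Cov.of (open T in (s1 (s0 (s2 (s1 (s0 (s2 (s1 (s0 (d 4) (d 3)) (s0 (d 4) (v 3))) (s1 (s0 (d 4) (d 3)) (s0 (d 4) (v 3)))) (v 3)) (s0 (s2 (s1 (s0 (d 4) (v 3)) (s0 (d 4) (v 3))) (s1 (s0 (d 4) (v 3)) (s0 (d 4) (v 3)))) (v 3))) (s1 (s0 (s2 (s1 (s0 (d 4) (v 3)) (s0 (d 4) (v 3))) (s1 (s0 (d 4) (v 3)) (s0 (d 4) (v 3)))) (v 3)) (s0 (s2 (s1 (s0 (d 4) (v 3)) (s0 (d 4) (v 3))) (s0 (d 4) (v 3))) (v 3)))) (v 3)) (s0 (s2 (s1 (s0 (s2 (s1 (s0 (d 4) (v 3)) (s0 (v 4) (v 3))) (s1 (s0 (v 4) (v 3)) (s0 (v 4) (v 3)))) (v 3)) (s0 (s0 (v 4) (v 3)) (v 3))) (s1 (s0 (s0 (d 4) (v 3)) (v 3)) (s0 (s0 (v 4) (v 3)) (v 3)))) (v 3)))) (by decide +kernel)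

theorem twoC09_204 : Cov (esE 9 169 260 286) ⟨549755813888, 1099511627776⟩ ⟨1693797662589, 2258396883452⟩ ⟨890604418498, 1099511627776⟩ :=
  Cov.of (open T in (v 3)) (by decide +kernel)

theorem twoC09_205 : Cov (esE 9 169 260 286) ⟨0, 1099511627776⟩ ⟨2258396883452, 4516793766904⟩ ⟨890604418498, 1099511627776⟩ :=
  Cov.of (open T in (s1 (s1 (s0 (s2 (s1 (s0 (s2 (s1 (s0 (s2 (d 1) (s1 (s0 (v 4) (v 3)) (s0 (v 4) (v 3)))) (v 3)) (s0 (s2 (d 1) (s1 (s0 (v 4) (v 3)) (v 4))) (v 3))) (s1 (s0 (s2 (s1 (s0 (v 4) (v 3)) (s0 (v 4) (v 3))) (s0 (v 4) (v 3))) (v 3)) (s0 (s0 (v 4) (v 3)) (v 3)))) (v 3)) (s0 (s2 (s1 (s0 (v 5) (v 3)) (s0 (v 4) (v 3))) (s1 (s0 (v 4) (v 3)) (s0 (v 4) (v 3)))) (v 3))) (s1 (s0 (s2 (s1 (s0 (s0 (v 4) (v 3)) (v 3)) (s0 (v 6) (v 3))) (s1 (s0 (s0 (v 4) (v 3)) (v 3))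 (s0 (v 4) (v 3)))) (v 3)) (s0 (s2 (s1 (s0 (v 4) (v 3)) (s0 (v 4) (v 3))) (s1 (s0 (v 4) (v 3)) (s0 (v 4) (v 3)))) (v 3)))) (v 3)) (s2 (s0 (s1 (s2 (s0 (s1 (s0 (v 4) (v 3)) (s2 (d 1) (s0 (v 3) (v 3)))) (v 3)) (s0 (s1 (s0 (v 4) (v 3)) (v 6)) (v 3))) (s2 (s0 (v 6) (v 3)) (s0 (v 4) (v 3)))) (v 3)) (s0 (s1 (s0 (s2 (s1 (s0 (v 3) (v 3)) (v 4)) (s1 (s0 (v 3) (v 3)) (v 4))) (v 3)) (s0 (v 4) (v 3))) (v 3)))) (s2 (s1 (s0 (s2 (s1 (s0 (v 3) (v 3)) (s0 (v 3) (v 3))) (s1 (s0 (v 3) (v 3)) (s0 (v 3) (v 3)))) (v 3)) (s0 (v 4) (v 3))) (s1 (s0 (s1 (s2 (s0 (v 3) (v 3)) (s0 (v 3) (v 3))) (v 4)) (v 3)) (s0 (v 3) (v 3)))))) (by decide +kernel)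

end Ent
end Pool.Agent.Lib.MP_6947cd_al
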