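import Pool.Agent.Lib.MP_6947cd_al.T.TwoNum

/-!
Problem MP_6947cd_al (Chollet).  The numerical condition of the two-entry loss, level 10 / 10.
-/

set_option autoImplicit false

namespace Pool.Agent.Lib.MP_6947cd_al
namespace Ent
open IA

theorem twoC10_8 : Cov (esE 10 161 240 333) ⟨0, 274877906944⟩ ⟨0, 144723218006⟩ ⟨1099511627776, 1099511627776⟩ :=
  Cov.of (open T in (s0 (s1 (s0 (s1 (s0 (s1 (s0 (v 0) (v 3)) (v 3)) (s1 (v 3) (d 3))) (s0 (v 3) (d 3))) (s1 (s0 (d 3) (d 3)) (s0 (d 3) (d 3)))) (s0 (s1 (s0 (s1 (v 4) (s0 (v 3) (v 3))) (d 3)) (s0 (s1 (s0 (v 3) (v 3)) (s0 (v 3) (v 3))) (d 4))) (s1 (s0 (d 3) (d 3)) (s0 (d 3) (d 3))))) (s1 (s0 (s1 (s0 (d 3) (d 3)) (s0 (d 3) (d 3))) (s1 (s0 (d 3) (d 3)) (s0 (d 3) (d 3)))) (s0 (s1 (s0 (d 3) (d 3)) (s0 (d 3) (d 3))) (s1 (s0 (d 3) (d 3)) (s0 (d 3) (d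 3))))))) (by decide +kernel)

theorem twoC10_9 : Cov (esE 10 161 240 333) ⟨0, 274877906944⟩ ⟨144723218006, 289446436012⟩ ⟨1099511627776, 1099511627776⟩ :=
  Cov.of (open T in (s0 (s1 (s0 (s1 (s0 (s1 (s0 (v 3) (v 3)) (s0 (v 3) (d 3))) (d 4)) (s0 (s1 (s0 (d 3) (d 3)) (s0 (d 3) (d 3))) (s1 (d 4) (d 4)))) (s1 (s0 (d 3) (d 3)) (s0 (d 4) (d 3)))) (s0 (s1 (s0 (s1 (s0 (d 3) (d 3)) (s0 (d 3) (d 3))) (s1 (d 4) (d 4))) (s0 (s1 (s0 (d 3) (d 3)) (s0 (d 3) (d 3))) (s1 (d 6) (s0 (d 3) (d 3))))) (s1 (s0 (d 4) (d 4)) (s0 (d 4) (d 4))))) (s1 (s0 (s1 (s0 (d 3) (d 3)) (s0 (d 3) (d 3))) (s1 (s0 (d 3) (d 3)) (s0 (d 3) (d 3)))) (s0 (s1 (s0 (d 3) (d 3)) (s0 (d 3) (d 3))) (s1 (d 5) (d 4)))))) (by decide +kernel)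

theorem twoC10_10 : Cov (esE 10 161 240 333) ⟨274877906944, 549755813888⟩ ⟨0, 289446436012⟩ ⟨1099511627776, 1099511627776⟩ :=
  Cov.of (open T in (s1 (s0 (s1 (s0 (s1 (s0 (d 3) (d 3)) (s0 (d 3) (d 3))) (s1 (d 3) (d 3))) (s0 (s1 (d 3) (d 3)) (d 3))) (s1 (s0 (d 3) (d 3)) (s0 (d 3) (d 3)))) (s0 (s1 (s0 (d 3) (d 3)) (s0 (d 3) (d 3))) (s1 (d 3) (d 3))))) (by decide +kernel)

theorem twoC10_14 : Cov (esE 10 161 240 333) ⟨0, 137438953472⟩ ⟨289446436012, 434169654018⟩ ⟨1099511627776, 1099511627776⟩ :=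
  Cov.of (open T in (s1 (s0 (s1 (s0 (s1 (s0 (d 4) (d 4)) (s0 (d 4) (d 4))) (s1 (s0 (d 4) (d 4)) (s0 (d 4) (d 4)))) (s0 (s1 (s0 (d 4) (d 4)) (s0 (d 4) (d 4))) (s1 (s0 (d 4) (d 4)) (s0 (d 4) (d 4))))) (s1 (s0 (d 4) (d 4)) (s0 (d 4) (d 4)))) (s0 (s1 (s0 (s1 (s0 (d 4) (d 4)) (s0 (d 4) (d 4))) (s1 (s0 (d 4) (d 4)) (s0 (d 4) (d 4)))) (s0 (s1 (s0 (d 4) (d 4)) (s0 (d 4) (d 4))) (s1 (s0 (d 4) (d 4)) (s0 (d 4) (d 4))))) (s1 (s0 (d 5) (d 4)) (s0 (d 6) (d 4)))))) (by decide +kernel)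

theorem twoC10_15 : Cov (esE 10 161 240 333) ⟨137438953472, 274877906944⟩ ⟨289446436012, 434169654018⟩ ⟨1099511627776, 1099511627776⟩ :=
  Cov.of (open T in (s1 (s0 (s1 (s0 (d 3) (d 3)) (s0 (d 4) (d 3))) (d 4)) (s0 (s1 (s0 (d 4) (d 3)) (s0 (d 4) (d 3))) (d 4)))) (by decide +kernel)

theorem twoC10_18 : Cov (esE 10 161 240 333) ⟨0, 137438953472⟩ ⟨434169654018, 506531263021⟩ ⟨1099511627776, 1099511627776⟩ :=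
  Cov.of (open T in (s0 (s1 (s0 (s1 (s0 (d 4) (d 4)) (s0 (d 4) (d 4))) (s1 (s0 (d 4) (d 4)) (s0 (d 4) (d 4)))) (s0 (s1 (s0 (s1 (d 4) (d 4)) (d 4)) (s0 (s1 (d 4) (s0 (d 4) (d 4))) (d 4))) (s1 (s0 (d 4) (d 4)) (s0 (d 4) (d 4))))) (s1 (s0 (d 6) (d 4)) (s0 (d 6) (d 4))))) (by decide +kernel)

theorem twoC10_19 : Cov (esE 10 161 240 333) ⟨0, 137438953472⟩ ⟨506531263021, 578892872024⟩ ⟨1099511627776, 1099511627776⟩ :=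
  Cov.of (open T in (s0 (s1 (s0 (s1 (s0 (s1 (s0 (d 4) (d 4)) (s0 (d 4) (d 4))) (d 4)) (s0 (s1 (s0 (d 4) (d 4)) (s0 (d 4) (d 4))) (d 5))) (s1 (s0 (d 4) (d 4)) (s0 (d 4) (d 4)))) (s0 (s1 (s0 (s1 (s0 (d 4) (d 4)) (s0 (d 4) (d 4))) (d 5)) (s0 (s1 (s0 (d 4) (d 4)) (s0 (d 4) (d 4))) (d 5))) (s1 (s0 (d 4) (d 4)) (s0 (d 4) (d 4))))) (s1 (s0 (d 6) (d 4)) (s0 (d 6) (d 4))))) (by decide +kernel)

theorem twoC10_20 : Cov (esE 10 161 240 333) ⟨137438953472, 274877906944⟩ ⟨434169654018, 578892872024⟩ ⟨1099511627776, 1099511627776⟩ :=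
  Cov.of (open T in (s1 (s0 (s1 (s0 (d 4) (d 3)) (s0 (d 4) (d 3))) (d 3)) (s0 (s1 (s0 (d 4) (d 3)) (d 5)) (d 3)))) (by decide +kernel)

theorem twoC10_21 : Cov (esE 10 161 240 333) ⟨274877906944, 549755813888⟩ ⟨289446436012, 578892872024⟩ ⟨1099511627776, 1099511627776⟩ :=
  Cov.of (open T in (s1 (s0 (s1 (s0 (d 3) (d 3)) (s0 (d 3) (d 3))) (d 3)) (s0 (s1 (s0 (d 3) (d 3)) (d 3)) (d 3)))) (by decide +kernel)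

theorem twoC10_22 : Cov (esE 10 161 240 333) ⟨549755813888, 1099511627776⟩ ⟨0, 578892872024⟩ ⟨1099511627776, 1099511627776⟩ :=
  Cov.of (open T in (s1 (s0 (s1 (s0 (d 3) (d 3)) (s0 (d 3) (d 3))) (s0 (d 3) (v 3))) (s0 (s1 (s0 (d 3) (v 3)) (d 3)) (d 3)))) (by decide +kernel)

theorem twoC10_29 : Cov (esE 10 161 240 333) ⟨0, 137438953472⟩ ⟨578892872024, 651254481027⟩ ⟨1099511627776, 1099511627776⟩ :=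
  Cov.of (open T in (s0 (s1 (s0 (s1 (s0 (s1 (s0 (d 4) (d 4)) (s0 (d 4) (d 4))) (d 5)) (s0 (s1 (s0 (d 4) (d 4)) (s0 (d 4) (d 4))) (d 6))) (s1 (s0 (d 4) (d 4)) (s0 (d 4) (d 4)))) (s0 (s1 (s0 (s1 (s0 (d 4) (d 4)) (s0 (d 4) (d 4))) (d 6)) (s0 (s1 (s0 (d 4) (d 4)) (s0 (d 4) (d 4))) (d 6))) (s1 (s0 (d 5) (d 4)) (s0 (d 5) (d 4))))) (s1 (s0 (d 6) (d 4)) (s0 (d 6) (d 4))))) (by decide +kernel)

theorem twoC10_30 : Cov (esE 10 161 240 333) ⟨0, 137438953472⟩ ⟨651254481027, 723616090030⟩ ⟨1099511627776, 1099511627776⟩ :=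
  Cov.of (open T in (s0 (s1 (s0 (s1 (s0 (s1 (s0 (d 4) (d 4)) (s0 (d 4) (d 4))) (d 6)) (s0 (s1 (s0 (d 4) (d 4)) (s0 (d 4) (d 4))) (d 6))) (s1 (s0 (d 5) (d 4)) (s0 (d 5) (d 4)))) (s0 (s1 (s0 (s1 (s0 (d 4) (d 4)) (s0 (d 4) (d 4))) (d 6)) (s0 (s1 (s0 (d 5) (d 5)) (s0 (d 5) (d 5))) (d 6))) (s1 (s0 (d 5) (d 4)) (s0 (d 5) (d 4))))) (s1 (s0 (d 5) (d 4)) (s0 (d 5) (d 4))))) (by decide +kernel)

theorem twoC10_31 : Cov (esE 10 161 240 333) ⟨137438953472, 274877906944⟩ ⟨578892872024, 723616090030⟩ ⟨1099511627776, 1099511627776⟩ :=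
  Cov.of (open T in (s1 (s0 (d 6) (d 3)) (s0 (d 4) (d 3)))) (by decide +kernel)

theorem twoC10_34 : Cov (esE 10 161 240 333) ⟨0, 137438953472⟩ ⟨723616090030, 795977699033⟩ ⟨1099511627776, 1099511627776⟩ :=
  Cov.of (open T in (s0 (s1 (s0 (s1 (s0 (s1 (s0 (d 5) (d 5)) (s0 (d 5) (d 5))) (d 6)) (s0 (s1 (s0 (d 5) (d 5)) (s0 (d 5) (d 5))) (d 6))) (s1 (s0 (d 5) (d 4)) (s0 (d 5) (d 4)))) (s0 (s1 (s0 (s1 (s0 (d 5) (d 5)) (s0 (d 5) (d 5))) (d 6)) (s0 (s1 (s0 (d 5) (d 5)) (s0 (d 5) (d 5))) (d 6))) (s1 (s0 (d 5) (d 4)) (s0 (d 5) (d 4))))) (s1 (s0 (d 4) (d 4)) (s0 (d 4) (d 4))))) (by decide +kernel)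

theorem twoC10_35 : Cov (esE 10 161 240 333) ⟨0, 137438953472⟩ ⟨795977699033, 868339308036⟩ ⟨1099511627776, 1099511627776⟩ :=
  Cov.of (open T in (s0 (s1 (s0 (s1 (s0 (s1 (s0 (d 5) (d 5)) (s0 (d 5) (d 5))) (d 6)) (s0 (s1 (s0 (d 5) (d 5)) (s0 (d 5) (d 5))) (d 6))) (s1 (s0 (d 5) (d 4)) (s0 (d 4) (d 4)))) (s0 (s1 (s0 (s1 (s0 (d 5) (d 5)) (s0 (d 5) (d 5))) (d 5)) (s0 (s1 (s0 (d 5) (d 5)) (s0 (d 5) (d 5))) (d 5))) (s1 (s0 (d 4) (d 4)) (s0 (d 4) (d 4))))) (s1 (s0 (d 4) (d 4)) (s0 (d 4) (d 4))))) (by decide +kernel)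

theorem twoC10_36 : Cov (esE 10 161 240 333) ⟨137438953472, 274877906944⟩ ⟨723616090030, 868339308036⟩ ⟨1099511627776, 1099511627776⟩ :=
  Cov.of (open T in (s1 (s0 (d 4) (d 3)) (s0 (d 4) (d 3)))) (by decide +kernel)

theorem twoC10_37 : Cov (esE 10 161 240 333) ⟨274877906944, 549755813888⟩ ⟨578892872024, 868339308036⟩ ⟨1099511627776, 1099511627776⟩ :=
  Cov.of (open T in (s1 (s0 (d 4) (d 3)) (s0 (d 3) (v 3)))) (by decide +kernel)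

theorem twoC10_42 : Cov (esE 10 161 240 333) ⟨0, 137438953472⟩ ⟨868339308036, 940700917039⟩ ⟨1099511627776, 1099511627776⟩ :=
  Cov.of (open T in (s0 (s1 (s0 (s1 (s0 (s1 (s0 (d 5) (d 5)) (s0 (d 5) (d 5))) (d 5)) (s0 (s1 (s0 (d 5) (d 5)) (d 6)) (d 5))) (s1 (s0 (d 4) (d 4)) (d 6))) (s0 (s1 (s0 (d 6) (d 5)) (s0 (d 6) (d 5))) (s1 (d 6) (d 6)))) (s1 (s0 (d 4) (d 4)) (s0 (d 4) (d 4))))) (by decide +kernel)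

theorem twoC10_43 : Cov (esE 10 161 240 333) ⟨0, 137438953472⟩ ⟨940700917039, 1013062526042⟩ ⟨1099511627776, 1099511627776⟩ :=
  Cov.of (open T in (s0 (s1 (s0 (s1 (s0 (d 6) (d 5)) (s0 (d 6) (d 5))) (d 6)) (s0 (s1 (s0 (d 6) (d 5)) (s0 (d 6) (d 5))) (d 6))) (s1 (s0 (d 4) (d 4)) (s0 (d 4) (d 4))))) (by decide +kernel)

theorem twoC10_44 : Cov (esE 10 161 240 333) ⟨137438953472, 274877906944⟩ ⟨868339308036, 1013062526042⟩ ⟨1099511627776, 1099511627776⟩ :=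
  Cov.of (open T in (s1 (s0 (d 4) (d 3)) (s0 (d 3) (d 3)))) (by decide +kernel)

theorem twoC10_45 : Cov (esE 10 161 240 333) ⟨0, 274877906944⟩ ⟨1013062526042, 1157785744048⟩ ⟨1099511627776, 1099511627776⟩ :=
  Cov.of (open T in (s0 (s1 (s0 (s1 (s0 (s1 (s0 (d 5) (d 5)) (s0 (d 5) (d 4))) (d 5)) (s0 (s1 (s0 (d 5) (d 4)) (s0 (d 5) (d 4))) (d 5))) (s1 (d 6) (d 5))) (s0 (s1 (s0 (s1 (s0 (d 5) (d 4)) (s0 (d 5) (d 4))) (d 4)) (s0 (s1 (s0 (d 5) (d 4)) (s0 (d 5) (d 4))) (d 4))) (d 5))) (s1 (s0 (d 3) (v 3)) (s0 (d 3) (v 3))))) (by decide +kernel)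

theorem twoC10_46 : Cov (esE 10 161 240 333) ⟨274877906944, 549755813888⟩ ⟨868339308036, 1157785744048⟩ ⟨1099511627776, 1099511627776⟩ :=
  Cov.of (open T in (s1 (s0 (d 3) (v 3)) (s0 (d 3) (v 3)))) (by decide +kernel)

theorem twoC10_47 : Cov (esE 10 161 240 333) ⟨549755813888, 1099511627776⟩ ⟨578892872024, 1157785744048⟩ ⟨1099511627776, 1099511627776⟩ :=
  Cov.of (open T in (s1 (s0 (d 3) (v 3)) (s0 (v 3) (v 3)))) (by decide +kernel)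

theorem twoC10_51 : Cov (esE 10 161 240 333) ⟨0, 549755813888⟩ ⟨1157785744048, 1447232180060⟩ ⟨1099511627776, 1099511627776⟩ :=
  Cov.of (open T in (s0 (s1 (s0 (s1 (s0 (s1 (s0 (s1 (s0 (d 5) (d 4)) (s0 (d 5) (d 4))) (d 4)) (s0 (s1 (s0 (d 5) (d 4)) (d 6)) (d 4))) (d 4)) (s0 (s1 (s0 (d 6) (d 4)) (s0 (d 6) (d 4))) (d 4))) (s1 (d 4) (d 4))) (s0 (s1 (s0 (s1 (s0 (d 6) (d 4)) (s0 (d 5) (d 4))) (d 4)) (s0 (s1 (s0 (d 5) (d 4)) (s0 (d 5) (d 4))) (d 4))) (d 4))) (s1 (s0 (v 3) (v 3)) (d 4)))) (by decide +kernel)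

theorem twoC10_52 : Cov (esE 10 161 240 333) ⟨0, 549755813888⟩ ⟨1447232180060, 1736678616072⟩ ⟨1099511627776, 1099511627776⟩ :=
  Cov.of (open T in (s0 (s1 (s0 (s1 (s0 (s1 (s0 (d 4) (d 4)) (s0 (d 4) (d 4))) (d 4)) (s0 (s1 (s0 (d 4) (v 4)) (s0 (d 4) (v 4))) (d 4))) (d 4)) (s0 (s1 (s0 (s1 (s0 (d 4) (v 4)) (s0 (d 4) (v 4))) (v 4)) (s0 (s1 (s0 (d 4) (v 4)) (d 6)) (d 3))) (d 3))) (d 4))) (by decide +kernel)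

theorem twoC10_53 : Cov (esE 10 161 240 333) ⟨549755813888, 1099511627776⟩ ⟨1157785744048, 1736678616072⟩ ⟨1099511627776, 1099511627776⟩ :=
  Cov.of (open T in (s1 (s0 (v 3) (v 3)) (v 3))) (by decide +kernel)

theorem twoC10_54 : Cov (esE 10 161 240 333) ⟨0, 1099511627776⟩ ⟨1736678616072, 2315571488096⟩ ⟨1099511627776, 1099511627776⟩ :=
  Cov.of (open T in (s0 (s1 (s0 (s1 (s0 (s1 (s0 (d 6) (d 3)) (s0 (d 5) (d 3))) (d 3)) (s0 (s1 (s0 (d 4) (d 3)) (s0 (d 4) (v 3))) (v 3))) (v 3)) (s0 (s1 (s0 (s1 (s0 (d 4) (v 3)) (s0 (d 4) (v 3))) (v 3)) (s0 (s1 (s0 (v 4) (v 3)) (s0 (v 4) (v 3))) (v 3))) (v 3))) (v 3))) (by decide +kernel)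

theorem twoC10_55 : Cov (esE 10 161 240 333) ⟨0, 1099511627776⟩ ⟨2315571488096, 4631142976193⟩ ⟨1099511627776, 1099511627776⟩ :=
  Cov.of (open T in (s1 (s1 (s0 (s1 (s0 (s1 (s0 (s1 (s0 (v 4) (v 3)) (s0 (v 4) (v 3))) (v 3)) (s0 (s1 (s0 (v 4) (v 3)) (v 5)) (v 3))) (v 3)) (s0 (s1 (s0 (v 4) (v 3)) (s0 (v 4) (v 3))) (v 3))) (v 3)) (s0 (s1 (s0 (s1 (s0 (v 4) (v 3)) (s0 (v 3) (v 3))) (v 3)) (s0 (v 4) (v 3))) (v 3))) (s1 (s0 (s1 (s0 (v 3) (v 3)) (s0 (v 3) (v 3))) (v 3)) (s0 (v 4) (v 3))))) (by decide +kernel)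

end Ent
end Pool.Agent.Lib.MP_6947cd_al
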