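import Pool.Agent.Lib.MP_6947cd_al.T.Two
import Pool.Agent.Lib.Interval.Fast

/-!
Problem MP_6947cd_al (Chollet).  The numerical conditions of the two-entry loss: convex quadrature and the
reduction to a kernel checked branch and bound.
-/

set_option autoImplicit false
open Finset

namespace Pool.Agent.Lib.MP_6947cd_al
namespace Ent

/-- convex quadrature, one cell, general weight -/
lemma cellW (w W M : ℝ → ℝ) (hw : Continuous w) (hw0 : ∀ u, 0 ≤ u → u ≤ 1 → 0 ≤ w u)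
    (hW : ∀ u, HasDerivAt W (w u) u) (hM : ∀ u, HasDerivAt M (w u * u) u) (f : ℝ → ℝ)
    (hf : ConvexOn ℝ (Set.Ici 0) f) (hcont : ContinuousOn f (Set.Icc 0 1))
    (hd : ∀ c : ℝ, 0 < c → ∃ f', HasDerivAt f f' c) (L a b c : ℝ)
    (hL : L ≤ ∫ u in (0 : ℝ)..a, w u * f u)
    (ha : 0 ≤ a) (hac : a < c) (hcb : c < b) (hb1 : b ≤ 1) (hcc : (W b - W a) * c = M b - M a) :
    L + (W b - W a) * f c ≤ ∫ u in (0 : ℝ)..b, w u * f u := by
  obtain ⟨f', hd⟩ := hd c (by linarith)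
  have hint : ∀ p q : ℝ, 0 ≤ p → p ≤ 1 → 0 ≤ q → q ≤ 1 →
      IntervalIntegrable (fun u => w u * f u) MeasureTheory.volume p q := by
    intro p q hp hp1 hq hq1
    refine ContinuousOn.intervalIntegrable ?_
    refine ContinuousOn.mul hw.continuousOn (hcont.mono ?_)
    intro u hu
    rcases Set.mem_uIcc.mp hu with h | h
    · exact ⟨hp.trans h.1, h.2.trans hq1⟩
    · exact ⟨hq.trans h.1, h.2.trans hp1⟩
  have h1 : (∫ u in a..b, (w u * (f c + f' * (u - c)))) = (W b - W a) * f c := by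
    have hG : ∀ u ∈ Set.uIcc a b, HasDerivAt (fun u : ℝ => W u * f c + f' * (M u - c * W u))
        (w u * (f c + f' * (u - c))) u := by
      intro u _
      have := ((hW u).mul_const (f c)).add (((hM u).sub ((hW u).const_mul c)).const_mul f')
      refine this.congr_deriv ?_
      ring
    rw [intervalIntegral.integral_eq_sub_of_hasDerivAt hG
      ((hw.mul (by fun_prop)).intervalIntegrable _ _)]
    linear_combination (-f') * hcc
  have h2 : (W b - W a) * f c ≤ ∫ u in a..b, w u * f u := by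
    rw [← h1]
    refine intervalIntegral.integral_mono_on (by linarith)
      ((hw.mul (by fun_prop)).intervalIntegrable _ _)
      (hint a b ha (by linarith) (by linarith) hb1) fun u hu => ?_
    have hu0 : (0 : ℝ) ≤ u := ha.trans hu.1
    have hc0 : (0 : ℝ) ≤ c := by linarith
    refine mul_le_mul_of_nonneg_left ?_ (hw0 u hu0 (hu.2.trans hb1))
    rcases lt_trichotomy u c with h | h | h
    · have h2 := hf.slope_le_of_hasDerivAt hu0 hc0 h hd
      rw [slope_def_field, div_le_iff₀ (by linarith)] at h2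
      linarith
    · rw [h]; simp
    · have h2 := hf.le_slope_of_hasDerivAt hc0 hu0 h hd
      rw [slope_def_field, le_div_iff₀ (by linarith)] at h2
      linarith
  rw [← intervalIntegral.integral_add_adjacent_intervals (hint 0 a le_rfl zero_le_one ha
    (by linarith)) (hint a b ha (by linarith) (by linarith) hb1)]
  linarith

/-- the integrand -/
noncomputable def qf (x y Y u : ℝ) : ℝ := Real.log (1 + (y + u * Y)) - Real.log (x + (y + u * Y))

lemma qf_convex (x y Y : ℝ) (hx : 0 < x) (hx1 : x ≤ 1) (hy : 0 ≤ y) (hY : 0 ≤ Y) :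
    ConvexOn ℝ (Set.Ici 0) (qf x y Y) := by
  have h1 := (concave_log_sub x 1 hx hx1).neg
  refine ⟨convex_Ici 0, fun u hu v hv a b ha hb hab => ?_⟩
  have hu' : y + u * Y ∈ Set.Ici (0 : ℝ) := add_nonneg hy (mul_nonneg hu hY)
  have hv' : y + v * Y ∈ Set.Ici (0 : ℝ) := add_nonneg hy (mul_nonneg hv hY)
  have h2 := h1.2 hu' hv' ha hb hab
  simp only [smul_eq_mul, Pi.neg_apply] at h2 ⊢
  have e : y + (a * u + b * v) * Y = a * (y + u * Y) + b * (y + v * Y) := by
    have : y = (a + b) * y := by rw [hab, one_mul]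
    linear_combination this
  simp only [qf]
  rw [e]
  linarith

lemma qf_cont (x y Y : ℝ) (hx : 0 < x) (hy : 0 ≤ y) (hY : 0 ≤ Y) :
    ContinuousOn (qf x y Y) (Set.Icc 0 1) := by
  refine ContinuousOn.sub ?_ ?_
  · refine ContinuousOn.log (by fun_prop) fun u hu => ?_
    have := mul_nonneg hu.1 hY
    linarith
  · refine ContinuousOn.log (by fun_prop) fun u hu => ?_
    have := mul_nonneg hu.1 hY
    linarith

lemma qf_diff (x y Y : ℝ) (hx : 0 < x) (hy : 0 ≤ y) (hY : 0 ≤ Y) (c : ℝ) (hc : 0 < c) :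
    ∃ f', HasDerivAt (qf x y Y) f' c := by
  have hcY := mul_nonneg hc.le hY
  have h0 : HasDerivAt (fun u : ℝ => y + u * Y) Y c := by
    simpa using ((hasDerivAt_id c).mul_const Y).const_add y
  have h1 : HasDerivAt (fun u : ℝ => 1 + (y + u * Y)) Y c := h0.const_add 1
  have h2 : HasDerivAt (fun u : ℝ => x + (y + u * Y)) Y c := h0.const_add x
  exact ⟨_, (h1.log (by linarith)).sub (h2.log (by linarith))⟩

/-- weight `(1 - u) u` -/
noncomputable def W1 (u : ℝ) : ℝ := u ^ 2 / 2 - u ^ 3 / 3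
noncomputable def M1 (u : ℝ) : ℝ := u ^ 3 / 3 - u ^ 4 / 4
/-- weight `(1 - u)²` -/
noncomputable def W2 (u : ℝ) : ℝ := u - u ^ 2 + u ^ 3 / 3
noncomputable def M2 (u : ℝ) : ℝ := u ^ 2 / 2 - 2 * u ^ 3 / 3 + u ^ 4 / 4

lemma W1_deriv (u : ℝ) : HasDerivAt W1 ((1 - u) * u) u := by
  have h := (((hasDerivAt_id u).pow 2).div_const 2).sub (((hasDerivAt_id u).pow 3).div_const 3)
  refine h.congr_deriv ?_
  simp
  ring

lemma M1_deriv (u : ℝ) : HasDerivAt M1 ((1 - u) * u * u) u := by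
  have h := (((hasDerivAt_id u).pow 3).div_const 3).sub (((hasDerivAt_id u).pow 4).div_const 4)
  refine h.congr_deriv ?_
  simp
  ring

lemma W2_deriv (u : ℝ) : HasDerivAt W2 ((1 - u) * (1 - u)) u := by
  have h := ((hasDerivAt_id u).sub ((hasDerivAt_id u).pow 2)).add
    (((hasDerivAt_id u).pow 3).div_const 3)
  refine h.congr_deriv ?_
  simp
  ring

lemma M2_deriv (u : ℝ) : HasDerivAt M2 ((1 - u) * (1 - u) * u) u := by
  have h := ((((hasDerivAt_id u).pow 2).div_const 2).sub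
    ((((hasDerivAt_id u).pow 3).const_mul 2).div_const 3)).add
    (((hasDerivAt_id u).pow 4).div_const 4)
  refine h.congr_deriv ?_
  simp
  ring

lemma J2_split (x d Y : ℝ) (hx : 0 < x) (hd : 0 ≤ d) (hY : 0 ≤ Y) :
    J2 x d Y = (∫ u in (0 : ℝ)..1, (1 - u) * u * qf x d Y u)
      + ∫ u in (0 : ℝ)..1, (1 - u) * (1 - u) * qf x 0 Y u := by
  have h1 : IntervalIntegrable (fun u : ℝ => (1 - u) * u * qf x d Y u) MeasureTheory.volume 0 1 := by
    refine ContinuousOn.intervalIntegrable ?_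
    rw [Set.uIcc_of_le zero_le_one]
    exact ContinuousOn.mul (by fun_prop) (qf_cont x d Y hx hd hY)
  have h2 : IntervalIntegrable (fun u : ℝ => (1 - u) * (1 - u) * qf x 0 Y u)
      MeasureTheory.volume 0 1 := by
    refine ContinuousOn.intervalIntegrable ?_
    rw [Set.uIcc_of_le zero_le_one]
    exact ContinuousOn.mul (by fun_prop) (qf_cont x 0 Y hx le_rfl hY)
  rw [← intervalIntegral.integral_add h1 h2]
  unfold J2 qf
  simp only [zero_add]

lemma J2_nonneg (x d Y : ℝ) (hx : 0 < x) (hx1 : x ≤ 1) (hd : 0 ≤ d) (hY : 0 ≤ Y) : 0 ≤ J2 x d Y := by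
  refine intervalIntegral.integral_nonneg zero_le_one fun u hu => ?_
  have huY := mul_nonneg hu.1 hY
  have h1 : 0 ≤ (1 - u) := sub_nonneg.mpr hu.2
  refine add_nonneg (mul_nonneg (mul_nonneg h1 hu.1) (sub_nonneg.mpr ?_))
    (mul_nonneg (mul_nonneg h1 h1) (sub_nonneg.mpr ?_))
  · exact Real.log_le_log (by linarith) (by linarith)
  · exact Real.log_le_log (by linarith) (by linarith)

lemma J2_ge (x d Y : ℝ) (hx : 0 < x) (hx1 : x ≤ 1) (hd : 0 ≤ d) (hY : 0 ≤ Y) :
    -(1 / 3 * Real.log (x + Y)) ≤ J2 x d Y := by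
  rw [J2_split x d Y hx hd hY]
  have h0 : 0 ≤ ∫ u in (0 : ℝ)..1, (1 - u) * u * qf x d Y u := by
    refine intervalIntegral.integral_nonneg zero_le_one fun u hu => ?_
    have huY := mul_nonneg hu.1 hY
    refine mul_nonneg (mul_nonneg (sub_nonneg.mpr hu.2) hu.1) (sub_nonneg.mpr ?_)
    exact Real.log_le_log (by linarith) (by linarith)
  have h1 : (∫ u in (0 : ℝ)..1, (1 - u) * (1 - u) * (-Real.log (x + Y)))
      ≤ ∫ u in (0 : ℝ)..1, (1 - u) * (1 - u) * qf x 0 Y u := by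
    refine intervalIntegral.integral_mono_on zero_le_one
      (Continuous.intervalIntegrable (by fun_prop) _ _) ?_ fun u hu => ?_
    · refine ContinuousOn.intervalIntegrable ?_
      rw [Set.uIcc_of_le zero_le_one]
      exact ContinuousOn.mul (by fun_prop) (qf_cont x 0 Y hx le_rfl hY)
    · refine mul_le_mul_of_nonneg_left ?_ (mul_nonneg (sub_nonneg.mpr hu.2) (sub_nonneg.mpr hu.2))
      have huY := mul_nonneg hu.1 hY
      have huY' : u * Y ≤ Y := by
        have := mul_le_mul_of_nonneg_right hu.2 hY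
        linarith
      have h2 : 0 ≤ Real.log (1 + (0 + u * Y)) := Real.log_nonneg (by linarith)
      have h3 : Real.log (x + (0 + u * Y)) ≤ Real.log (x + Y) :=
        Real.log_le_log (by linarith) (by linarith)
      unfold qf
      linarith
  have h2 : (∫ u in (0 : ℝ)..1, (1 - u) * (1 - u) * (-Real.log (x + Y)))
      = -(1 / 3 * Real.log (x + Y)) := by
    rw [intervalIntegral.integral_mul_const,
      intervalIntegral.integral_eq_sub_of_hasDerivAt (fun u _ => W2_deriv u)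
        (Continuous.intervalIntegrable (by fun_prop) _ _)]
    unfold W2
    ring
  linarith

section Check
open IA

/-- a node of the quadrature -/
def nd (p : ℤ) (q : ℕ) (t : E) : E :=
  .mul (.cst p q) (.sub (.log (.add (.cst 1 1) t)) (.log (.add .x0 t)))
/-- `1 + x + d + Y` -/
def ZE : E := .add (.add (.add (.cst 1 1) .x0) .x2) .x1
def AE (a : ℤ) : E := .mul (.cst a 1000) ZE
def mainE (a b : ℤ) (J : E) : E := .sub (.sub (.log (.cst 2 1)) (.log (.add (AE a)
  (.exp (.mul (.cst 1 2) (.log (.add (.mul (AE a) (AE a))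
    (.mul (.mul (.cst (4 * b) 1000) .x0) ZE)))))))) J
def smallE (m : ℤ) : E := .sub (.add .x0 .x1) (.cst m 10000)
def ordE : E := .sub (.add .x2 (.cst 1 1000)) .x0
def conE (k : ℤ) : E := .sub (.add (.mul (.cst 2 3) (.log .x2)) (.mul (.cst 1 6)
  (.sub (.log (.add (.add (.cst 1 1) .x0) .x1)) (.log (.add (.add .x2 .x0) .x1)))))
  (.sub (.log (.cst k 10)) (.cst 1 1000000))

def JE0 : E := (.add (nd 1 6 (.add .x2 (.mul (.cst 1 2) .x1))) (nd 1 3 (.mul (.cst 1 4) .x1)))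

lemma JE0_le (x d Y : ℝ) (hx : 0 < x) (hx1 : x ≤ 1) (hd : 0 ≤ d) (hY : 0 ≤ Y) :
    JE0.ev x Y d ≤ J2 x d Y := by
  rw [J2_split x d Y hx hd hY]
  have hw1 : ∀ u : ℝ, 0 ≤ u → u ≤ 1 → 0 ≤ (1 - u) * u := fun u h0 h1 =>
    mul_nonneg (sub_nonneg.mpr h1) h0
  have hw2 : ∀ u : ℝ, 0 ≤ u → u ≤ 1 → 0 ≤ (1 - u) * (1 - u) := fun u h0 h1 =>
    mul_nonneg (sub_nonneg.mpr h1) (sub_nonneg.mpr h1)
  have a0 : (0 : ℝ) ≤ ∫ u in (0 : ℝ)..0, (1 - u) * u * qf x d Y u := by simp
  have a1 := cellW _ W1 M1 (by fun_prop) hw1 W1_deriv M1_deriv _ (qf_convex x d Y hx hx1 hd hY)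
    (qf_cont x d Y hx hd hY) (qf_diff x d Y hx hd hY) _ 0 1 (1 / 2) a0 (by norm_num) (by norm_num)
    (by norm_num) (by norm_num) (by norm_num [W1, M1])
  have b0 : (0 : ℝ) ≤ ∫ u in (0 : ℝ)..0, (1 - u) * (1 - u) * qf x 0 Y u := by simp
  have b1 := cellW _ W2 M2 (by fun_prop) hw2 W2_deriv M2_deriv _ (qf_convex x 0 Y hx hx1 le_rfl hY)
    (qf_cont x 0 Y hx le_rfl hY) (qf_diff x 0 Y hx le_rfl hY) _ 0 1 (1 / 4) b0 (by norm_num) (by norm_num)
    (by norm_num) (by norm_num) (by norm_num [W2, M2])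
  simp only [JE0, nd, IA.E.ev, qf, W1, W2] at *
  norm_num at a1 b1 ⊢
  linarith

def JE1 : E := (.add (.add (.add (nd 1 6 (.add .x2 (.mul (.cst 1 2) .x1))) (nd 3458 46875 (.mul (.cst 1681 43225) .x1))) (nd 54461 375000 (.mul (.cst 178337 990200) .x1))) (nd 343 3000 (.mul (.cst 19 40) .x1)))

lemma JE1_le (x d Y : ℝ) (hx : 0 < x) (hx1 : x ≤ 1) (hd : 0 ≤ d) (hY : 0 ≤ Y) :
    JE1.ev x Y d ≤ J2 x d Y := by
  rw [J2_split x d Y hx hd hY]
  have hw1 : ∀ u : ℝ, 0 ≤ u → u ≤ 1 → 0 ≤ (1 - u) * u := fun u h0 h1 =>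
    mul_nonneg (sub_nonneg.mpr h1) h0
  have hw2 : ∀ u : ℝ, 0 ≤ u → u ≤ 1 → 0 ≤ (1 - u) * (1 - u) := fun u h0 h1 =>
    mul_nonneg (sub_nonneg.mpr h1) (sub_nonneg.mpr h1)
  have a0 : (0 : ℝ) ≤ ∫ u in (0 : ℝ)..0, (1 - u) * u * qf x d Y u := by simp
  have a1 := cellW _ W1 M1 (by fun_prop) hw1 W1_deriv M1_deriv _ (qf_convex x d Y hx hx1 hd hY)
    (qf_cont x d Y hx hd hY) (qf_diff x d Y hx hd hY) _ 0 1 (1 / 2) a0 (by norm_num) (by norm_num)
    (by norm_num) (by norm_num) (by norm_num [W1, M1])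
  have b0 : (0 : ℝ) ≤ ∫ u in (0 : ℝ)..0, (1 - u) * (1 - u) * qf x 0 Y u := by simp
  have b1 := cellW _ W2 M2 (by fun_prop) hw2 W2_deriv M2_deriv _ (qf_convex x 0 Y hx hx1 le_rfl hY)
    (qf_cont x 0 Y hx le_rfl hY) (qf_diff x 0 Y hx le_rfl hY) _ 0 (2 / 25) (1681 / 43225) b0 (by norm_num) (by norm_num)
    (by norm_num) (by norm_num) (by norm_num [W2, M2])
  have b2 := cellW _ W2 M2 (by fun_prop) hw2 W2_deriv M2_deriv _ (qf_convex x 0 Y hx hx1 le_rfl hY)
    (qf_cont x 0 Y hx le_rfl hY) (qf_diff x 0 Y hx le_rfl hY) _ (2 / 25) (3 / 10) (178337 / 990200) b1 (by norm_num) (by norm_num)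
    (by norm_num) (by norm_num) (by norm_num [W2, M2])
  have b3 := cellW _ W2 M2 (by fun_prop) hw2 W2_deriv M2_deriv _ (qf_convex x 0 Y hx hx1 le_rfl hY)
    (qf_cont x 0 Y hx le_rfl hY) (qf_diff x 0 Y hx le_rfl hY) _ (3 / 10) 1 (19 / 40) b2 (by norm_num) (by norm_num)
    (by norm_num) (by norm_num) (by norm_num [W2, M2])
  simp only [JE1, nd, IA.E.ev, qf, W1, W2] at *
  norm_num at a1 b3 ⊢
  linarith

def JE2 : E := (.add (.add (.add (.add (.add (nd 1127 24000 (.add .x2 (.mul (.cst 413 1840) .x1))) (nd 2873 24000 (.add .x2 (.mul (.cst 827 1360) .x1)))) (nd 29109 1000000 (.mul (.cst 57627 3881200) .x1))) (nd 183673 3000000 (.mul (.cst 673051 10495600) .x1))) (nd 193 1500 (.mul (.cst 37 193) .x1))) (nd 343 3000 (.mul (.cst 19 40) .x1)))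

lemma JE2_le (x d Y : ℝ) (hx : 0 < x) (hx1 : x ≤ 1) (hd : 0 ≤ d) (hY : 0 ≤ Y) :
    JE2.ev x Y d ≤ J2 x d Y := by
  rw [J2_split x d Y hx hd hY]
  have hw1 : ∀ u : ℝ, 0 ≤ u → u ≤ 1 → 0 ≤ (1 - u) * u := fun u h0 h1 =>
    mul_nonneg (sub_nonneg.mpr h1) h0
  have hw2 : ∀ u : ℝ, 0 ≤ u → u ≤ 1 → 0 ≤ (1 - u) * (1 - u) := fun u h0 h1 =>
    mul_nonneg (sub_nonneg.mpr h1) (sub_nonneg.mpr h1)
  have a0 : (0 : ℝ) ≤ ∫ u in (0 : ℝ)..0, (1 - u) * u * qf x d Y u := by simp
  have a1 := cellW _ W1 M1 (by fun_prop) hw1 W1_deriv M1_deriv _ (qf_convex x d Y hx hx1 hd hY)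
    (qf_cont x d Y hx hd hY) (qf_diff x d Y hx hd hY) _ 0 (7 / 20) (413 / 1840) a0 (by norm_num) (by norm_num)
    (by norm_num) (by norm_num) (by norm_num [W1, M1])
  have a2 := cellW _ W1 M1 (by fun_prop) hw1 W1_deriv M1_deriv _ (qf_convex x d Y hx hx1 hd hY)
    (qf_cont x d Y hx hd hY) (qf_diff x d Y hx hd hY) _ (7 / 20) 1 (827 / 1360) a1 (by norm_num) (by norm_num)
    (by norm_num) (by norm_num) (by norm_num [W1, M1])
  have b0 : (0 : ℝ) ≤ ∫ u in (0 : ℝ)..0, (1 - u) * (1 - u) * qf x 0 Y u := by simp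
  have b1 := cellW _ W2 M2 (by fun_prop) hw2 W2_deriv M2_deriv _ (qf_convex x 0 Y hx hx1 le_rfl hY)
    (qf_cont x 0 Y hx le_rfl hY) (qf_diff x 0 Y hx le_rfl hY) _ 0 (3 / 100) (57627 / 3881200) b0 (by norm_num) (by norm_num)
    (by norm_num) (by norm_num) (by norm_num [W2, M2])
  have b2 := cellW _ W2 M2 (by fun_prop) hw2 W2_deriv M2_deriv _ (qf_convex x 0 Y hx hx1 le_rfl hY)
    (qf_cont x 0 Y hx le_rfl hY) (qf_diff x 0 Y hx le_rfl hY) _ (3 / 100) (1 / 10) (673051 / 10495600) b1 (by norm_num) (by norm_num)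
    (by norm_num) (by norm_num) (by norm_num [W2, M2])
  have b3 := cellW _ W2 M2 (by fun_prop) hw2 W2_deriv M2_deriv _ (qf_convex x 0 Y hx hx1 le_rfl hY)
    (qf_cont x 0 Y hx le_rfl hY) (qf_diff x 0 Y hx le_rfl hY) _ (1 / 10) (3 / 10) (37 / 193) b2 (by norm_num) (by norm_num)
    (by norm_num) (by norm_num) (by norm_num [W2, M2])
  have b4 := cellW _ W2 M2 (by fun_prop) hw2 W2_deriv M2_deriv _ (qf_convex x 0 Y hx hx1 le_rfl hY)
    (qf_cont x 0 Y hx le_rfl hY) (qf_diff x 0 Y hx le_rfl hY) _ (3 / 10) 1 (19 / 40) b3 (by norm_num) (by norm_num)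
    (by norm_num) (by norm_num) (by norm_num [W2, M2])
  simp only [JE2, nd, IA.E.ev, qf, W1, W2] at *
  norm_num at a2 b4 ⊢
  linarith

def JE3 : E := (.add (.add (.add (.add (.add (.add (.add (nd 1127 24000 (.add .x2 (.mul (.cst 413 1840) .x1))) (nd 2873 24000 (.add .x2 (.mul (.cst 827 1360) .x1)))) (nd 29109 1000000 (.mul (.cst 57627 3881200) .x1))) (nd 26797 600000 (.mul (.cst 584809 10718800) .x1))) (nd 68967 1000000 (.mul (.cst 15137 122608) .x1))) (nd 228787 3000000 (.mul (.cst 1628449 7039600) .x1))) (nd 109 1500 (.mul (.cst 212 545) .x1))) (nd 1 24 (.mul (.cst 5 8) .x1)))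

lemma JE3_le (x d Y : ℝ) (hx : 0 < x) (hx1 : x ≤ 1) (hd : 0 ≤ d) (hY : 0 ≤ Y) :
    JE3.ev x Y d ≤ J2 x d Y := by
  rw [J2_split x d Y hx hd hY]
  have hw1 : ∀ u : ℝ, 0 ≤ u → u ≤ 1 → 0 ≤ (1 - u) * u := fun u h0 h1 =>
    mul_nonneg (sub_nonneg.mpr h1) h0
  have hw2 : ∀ u : ℝ, 0 ≤ u → u ≤ 1 → 0 ≤ (1 - u) * (1 - u) := fun u h0 h1 =>
    mul_nonneg (sub_nonneg.mpr h1) (sub_nonneg.mpr h1)
  have a0 : (0 : ℝ) ≤ ∫ u in (0 : ℝ)..0, (1 - u) * u * qf x d Y u := by simp
  have a1 := cellW _ W1 M1 (by fun_prop) hw1 W1_deriv M1_deriv _ (qf_convex x d Y hx hx1 hd hY)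
    (qf_cont x d Y hx hd hY) (qf_diff x d Y hx hd hY) _ 0 (7 / 20) (413 / 1840) a0 (by norm_num) (by norm_num)
    (by norm_num) (by norm_num) (by norm_num [W1, M1])
  have a2 := cellW _ W1 M1 (by fun_prop) hw1 W1_deriv M1_deriv _ (qf_convex x d Y hx hx1 hd hY)
    (qf_cont x d Y hx hd hY) (qf_diff x d Y hx hd hY) _ (7 / 20) 1 (827 / 1360) a1 (by norm_num) (by norm_num)
    (by norm_num) (by norm_num) (by norm_num [W1, M1])
  have b0 : (0 : ℝ) ≤ ∫ u in (0 : ℝ)..0, (1 - u) * (1 - u) * qf x 0 Y u := by simp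
  have b1 := cellW _ W2 M2 (by fun_prop) hw2 W2_deriv M2_deriv _ (qf_convex x 0 Y hx hx1 le_rfl hY)
    (qf_cont x 0 Y hx le_rfl hY) (qf_diff x 0 Y hx le_rfl hY) _ 0 (3 / 100) (57627 / 3881200) b0 (by norm_num) (by norm_num)
    (by norm_num) (by norm_num) (by norm_num [W2, M2])
  have b2 := cellW _ W2 M2 (by fun_prop) hw2 W2_deriv M2_deriv _ (qf_convex x 0 Y hx hx1 le_rfl hY)
    (qf_cont x 0 Y hx le_rfl hY) (qf_diff x 0 Y hx le_rfl hY) _ (3 / 100) (2 / 25) (584809 / 10718800) b1 (by norm_num) (by norm_num)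
    (by norm_num) (by norm_num) (by norm_num [W2, M2])
  have b3 := cellW _ W2 M2 (by fun_prop) hw2 W2_deriv M2_deriv _ (qf_convex x 0 Y hx hx1 le_rfl hY)
    (qf_cont x 0 Y hx le_rfl hY) (qf_diff x 0 Y hx le_rfl hY) _ (2 / 25) (17 / 100) (15137 / 122608) b2 (by norm_num) (by norm_num)
    (by norm_num) (by norm_num) (by norm_num [W2, M2])
  have b4 := cellW _ W2 M2 (by fun_prop) hw2 W2_deriv M2_deriv _ (qf_convex x 0 Y hx hx1 le_rfl hY)
    (qf_cont x 0 Y hx le_rfl hY) (qf_diff x 0 Y hx le_rfl hY) _ (17 / 100) (3 / 10) (1628449 / 7039600) b3 (by norm_num) (by norm_num)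
    (by norm_num) (by norm_num) (by norm_num [W2, M2])
  have b5 := cellW _ W2 M2 (by fun_prop) hw2 W2_deriv M2_deriv _ (qf_convex x 0 Y hx hx1 le_rfl hY)
    (qf_cont x 0 Y hx le_rfl hY) (qf_diff x 0 Y hx le_rfl hY) _ (3 / 10) (1 / 2) (212 / 545) b4 (by norm_num) (by norm_num)
    (by norm_num) (by norm_num) (by norm_num [W2, M2])
  have b6 := cellW _ W2 M2 (by fun_prop) hw2 W2_deriv M2_deriv _ (qf_convex x 0 Y hx hx1 le_rfl hY)
    (qf_cont x 0 Y hx le_rfl hY) (qf_diff x 0 Y hx le_rfl hY) _ (1 / 2) 1 (5 / 8) b5 (by norm_num) (by norm_num)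
    (by norm_num) (by norm_num) (by norm_num [W2, M2])
  simp only [JE3, nd, IA.E.ev, qf, W1, W2] at *
  norm_num at a2 b6 ⊢
  linarith


def esE (k a b m : ℤ) : List E :=
  [smallE m, conE k, ordE, mainE a b JE0, mainE a b JE1, mainE a b JE2, mainE a b JE3]

lemma main_sound (a b : ℤ) (J : E) (x d Y : ℝ) (hx : 0 < x) (hd : 0 ≤ d) (hY : 0 ≤ Y)
    (ha : (0 : ℝ) < (a : ℝ)) (hb : (0 : ℝ) ≤ (b : ℝ)) (hJ : J.ev x Y d ≤ J2 x d Y)
    (h : (mainE a b J).ev x Y d ≤ 0) :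
    1 ≤ Real.exp (J2 x d Y) * (1 + x + d + Y)
      * ((a : ℝ) / 1000 + (b : ℝ) / 1000 * x * Real.exp (J2 x d Y)) := by
  set α : ℝ := (a : ℝ) / 1000 with hα
  set β : ℝ := (b : ℝ) / 1000 with hβ
  have hα0 : 0 < α := by positivity
  have hβ0 : 0 ≤ β := by positivity
  have hle : Real.exp (J.ev x Y d) ≤ Real.exp (J2 x d Y) := Real.exp_le_exp.mpr hJ
  have hE' : 0 < Real.exp (J.ev x Y d) := Real.exp_pos _
  set E := Real.exp (J.ev x Y d) with hEdef
  set z := 1 + x + d + Y with hzdef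
  have hz0 : 0 < z := by linarith
  simp only [mainE, AE, ZE, IA.E.ev] at h
  push_cast at h
  have e1 : (1 / 1 + x + d + Y : ℝ) = z := by rw [hzdef]; ring
  have e2 : (4 * (b : ℝ) / 1000) = 4 * β := by rw [hβ]; ring
  rw [e1, e2, ← hα, show (2 / 1 : ℝ) = 2 by norm_num] at h
  set D := α * z * (α * z) + 4 * β * x * z with hD
  have hD0 : 0 < D := by
    have h1 : 0 < α * z * (α * z) := by positivity
    have h2 : 0 ≤ 4 * β * x * z := by positivity
    linarith
  set R := Real.exp (1 / 2 * Real.log D) with hR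
  have hR0 : 0 < R := Real.exp_pos _
  have hRR : R * R = D := by
    rw [hR, ← Real.exp_add, show 1 / 2 * Real.log D + 1 / 2 * Real.log D = Real.log D by ring,
      Real.exp_log hD0]
  have hb0 : 0 < α * z := by positivity
  have h3 : 2 ≤ E * (α * z + R) := by
    have h4 : Real.log 2 ≤ Real.log (E * (α * z + R)) := by
      rw [Real.log_mul hE'.ne' (by linarith), hEdef, Real.log_exp]
      linarith
    exact (Real.log_le_log_iff (by norm_num) (by positivity)).mp h4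
  have h5 : 1 ≤ E * z * (α + β * x * E) := by
    have e5 : E * z * (α + β * x * E) = E * (α * z) + β * x * z * (E * E) := by ring
    rw [e5]
    rcases le_or_gt 2 (E * (α * z)) with h6 | h6
    · have : 0 ≤ β * x * z * (E * E) := by positivity
      linarith
    · have h7 : 2 - E * (α * z) ≤ E * R := by linarith
      have h8 : (2 - E * (α * z)) * (2 - E * (α * z)) ≤ E * R * (E * R) :=
        mul_le_mul h7 h7 (by linarith) (by positivity)
      have h9 : E * R * (E * R) = E * E * D := by rw [← hRR]; ring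
      rw [h9, hD] at h8
      have e8 : (2 - E * (α * z)) * (2 - E * (α * z))
          = 4 - 4 * (E * (α * z)) + E * E * (α * z * (α * z)) := by ring
      have e9 : E * E * (α * z * (α * z) + 4 * β * x * z)
          = E * E * (α * z * (α * z)) + 4 * (β * x * z * (E * E)) := by ring
      rw [e8, e9] at h8
      linarith
  refine h5.trans ?_
  refine mul_le_mul (mul_le_mul_of_nonneg_right hle hz0.le) ?_ (by positivity) (by positivity)
  have := mul_le_mul_of_nonneg_left hle (show 0 ≤ β * x by positivity)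
  linarith

/-- one of the expressions is `≤ 0` at every point of the box -/
def Cov (es : List E) (X Y Z : I) : Prop :=
  ∀ x y z : ℝ, X.Mem x → Y.Mem y → Z.Mem z → ∃ e ∈ es, F.evF [] e x y z ≤ 0

lemma Cov.of {es : List E} {X Y Z : I} (t : T) (h : F.chkF [] es t X Y Z = true) : Cov es X Y Z :=
  F.chkF_sound _ _ t X Y Z h

lemma Cov.s0 {es : List E} {a b : ℤ} {Y Z : I} (m : ℤ) (h1 : Cov es ⟨a, m⟩ Y Z)
    (h2 : Cov es ⟨m, b⟩ Y Z) : Cov es ⟨a, b⟩ Y Z := by
  intro x y z hx hy hz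
  rcases split_mem m hx with hx | hx
  · exact h1 x y z hx hy hz
  · exact h2 x y z hx hy hz

lemma Cov.s1 {es : List E} {a b : ℤ} {X Z : I} (m : ℤ) (h1 : Cov es X ⟨a, m⟩ Z)
    (h2 : Cov es X ⟨m, b⟩ Z) : Cov es X ⟨a, b⟩ Z := by
  intro x y z hx hy hz
  rcases split_mem m hy with hy | hy
  · exact h1 x y z hx hy hz
  · exact h2 x y z hx hy hz

lemma Cov.s2 {es : List E} {a b : ℤ} {X Y : I} (m : ℤ) (h1 : Cov es X Y ⟨a, m⟩)
    (h2 : Cov es X Y ⟨m, b⟩) : Cov es X Y ⟨a, b⟩ := by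
  intro x y z hx hy hz
  rcases split_mem m hz with hz | hz
  · exact h1 x y z hx hy hz
  · exact h2 x y z hx hy hz

theorem two_chk (k a b m Yh Zl : ℤ)
    (hc : Cov (esE k a b m) ⟨0, 1099511627776⟩ ⟨0, Yh⟩ ⟨Zl, 1099511627776⟩)
    (hk : 0 < k) (ha : 0 < a) (hb : 0 ≤ b) (hm0 : 0 < m)
    (hl : (Zl : ℝ) ≤ ((k : ℝ) / 10) ^ 2 * 1099511627776)
    (hS : 1 ≤ (a : ℝ) / 1000 * (1 + ((k : ℝ) / 10) ^ 2 + (Yh : ℝ) / 1099511627776))
    (hm : (m : ℝ) / 10000 ≤ ((a : ℝ) / 1000 * (1 + ((k : ℝ) / 10) ^ 2)) ^ 3) :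
    TwoHyp ((k : ℝ) / 10) ((a : ℝ) / 1000) ((b : ℝ) / 1000) := by
  have hk' : (0 : ℝ) < k := by exact_mod_cast hk
  have ha' : (0 : ℝ) < a := by exact_mod_cast ha
  have hb' : (0 : ℝ) ≤ b := by exact_mod_cast hb
  have hm' : (0 : ℝ) < m := by exact_mod_cast hm0
  intro x d Y hx hxd hd1 hY hcon
  have hx1 : x ≤ 1 := hxd.trans hd1
  have hd0 : 0 < d := lt_of_lt_of_le hx hxd
  have hE : 0 < Real.exp (J2 x d Y) := Real.exp_pos _
  have hpos : 0 < 1 + x + d + Y := by linarith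
  have key : 1 ≤ Real.exp (J2 x d Y) * (1 + x + d + Y)
      * ((a : ℝ) / 1000 + (b : ℝ) / 1000 * x * Real.exp (J2 x d Y)) →
      Real.exp (-J2 x d Y) / (1 + x + d + Y)
        ≤ (a : ℝ) / 1000 + (b : ℝ) / 1000 * (x * Real.exp (J2 x d Y)) := by
    intro h
    rw [Real.exp_neg, div_le_iff₀ hpos, inv_le_iff_one_le_mul₀ hE]
    linarith
  apply key
  -- the second entry is large
  have hda : ((k : ℝ) / 10) ^ 2 ≤ d := by
    have h1 : Real.log (1 + x + Y) - Real.log (d + x + Y) ≤ -Real.log d := by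
      have h2 : Real.log (1 + x + Y) + Real.log d ≤ Real.log (d + x + Y) := by
        rw [← Real.log_mul (by linarith) hd0.ne']
        refine Real.log_le_log (by positivity) ?_
        have := mul_nonneg (show 0 ≤ x + Y by linarith) (sub_nonneg.mpr hd1)
        nlinarith
      linarith
    have h2 : 2 * Real.log ((k : ℝ) / 10) ≤ Real.log d := by linarith
    have h3 : Real.log (((k : ℝ) / 10) ^ 2) ≤ Real.log d := by
      rw [Real.log_pow]
      push_cast
      exact h2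
    exact (Real.log_le_log_iff (by positivity) hd0).mp h3
  have hx2 : 0 ≤ (b : ℝ) / 1000 * x * Real.exp (J2 x d Y) := by positivity
  have hA : 0 < (a : ℝ) / 1000 := by positivity
  have hsmall : x + Y ≤ (m : ℝ) / 10000 → 1 ≤ Real.exp (J2 x d Y) * (1 + x + d + Y)
      * ((a : ℝ) / 1000 + (b : ℝ) / 1000 * x * Real.exp (J2 x d Y)) := by
    intro hs
    have h1 := J2_ge x d Y hx hx1 hd0.le hY
    have hS0 : 0 < x + Y := by linarith
    set q : ℝ := (a : ℝ) / 1000 * (1 + ((k : ℝ) / 10) ^ 2) with hq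
    have hq0 : 0 < q := by positivity
    have h2 : Real.log (x + Y) ≤ 3 * Real.log q := by
      have : Real.log (x + Y) ≤ Real.log (q ^ 3) := Real.log_le_log hS0 (hs.trans hm)
      rw [Real.log_pow] at this
      push_cast at this
      exact this
    have h3 : -Real.log q ≤ J2 x d Y := by linarith
    have h4 : q⁻¹ ≤ Real.exp (J2 x d Y) := by
      have := Real.exp_le_exp.mpr h3
      rwa [Real.exp_neg, Real.exp_log hq0] at this
    have h5 : 1 ≤ Real.exp (J2 x d Y) * q := by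
      rw [← inv_le_iff_one_le_mul₀ hq0]
      exact h4
    calc (1 : ℝ) ≤ Real.exp (J2 x d Y) * q := h5
      _ ≤ Real.exp (J2 x d Y) * ((a : ℝ) / 1000 * (1 + x + d + Y)) := by
          refine mul_le_mul_of_nonneg_left ?_ hE.le
          exact mul_le_mul_of_nonneg_left (by linarith) hA.le
      _ = Real.exp (J2 x d Y) * (1 + x + d + Y) * ((a : ℝ) / 1000) := by ring
      _ ≤ _ := mul_le_mul_of_nonneg_left (by linarith) (by positivity)
  rcases le_or_gt ((Yh : ℝ) / 1099511627776) Y with hbig | hbig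
  · have hE1 : 1 ≤ Real.exp (J2 x d Y) :=
      Real.one_le_exp (J2_nonneg x d Y hx hx1 hd0.le hY)
    calc (1 : ℝ) ≤ (a : ℝ) / 1000 * (1 + ((k : ℝ) / 10) ^ 2 + (Yh : ℝ) / 1099511627776) := hS
      _ ≤ (a : ℝ) / 1000 * (1 + x + d + Y) := mul_le_mul_of_nonneg_left (by linarith) hA.le
      _ ≤ Real.exp (J2 x d Y) * (1 + x + d + Y) * ((a : ℝ) / 1000) := by
          have := mul_le_mul_of_nonneg_right hE1
            (show 0 ≤ (1 + x + d + Y) * ((a : ℝ) / 1000) by positivity)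
          linarith
      _ ≤ _ := mul_le_mul_of_nonneg_left (by linarith) (by positivity)
  · obtain ⟨e, he, h⟩ := hc x Y d
      ⟨by simpa using hx.le, by simp only; push_cast; linarith⟩
      ⟨by simpa using hY, by
        rw [lt_div_iff₀ (by norm_num)] at hbig
        simp only
        linarith⟩
      ⟨by simp only
          have := mul_le_mul_of_nonneg_right hda (show (0 : ℝ) ≤ 1099511627776 by norm_num)
          linarith, by simp only; push_cast; linarith⟩
    have h : e.ev x Y d ≤ 0 := h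
    simp only [esE, List.mem_cons, List.not_mem_nil, or_false] at he
    rcases he with rfl | rfl | rfl | rfl | rfl | rfl | rfl
    · refine hsmall ?_
      simp only [smallE, IA.E.ev] at h
      push_cast at h
      linarith
    · exfalso
      simp only [conE, IA.E.ev] at h
      push_cast at h
      norm_num at h hcon
      linarith
    · exfalso
      simp only [ordE, IA.E.ev] at h
      push_cast at h
      linarith
    · exact main_sound a b _ x d Y hx hd0.le hY ha' hb' (JE0_le x d Y hx hx1 hd0.le hY) h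
    · exact main_sound a b _ x d Y hx hd0.le hY ha' hb' (JE1_le x d Y hx hx1 hd0.le hY) h
    · exact main_sound a b _ x d Y hx hd0.le hY ha' hb' (JE2_le x d Y hx hx1 hd0.le hY) h
    · exact main_sound a b _ x d Y hx hd0.le hY ha' hb' (JE3_le x d Y hx hx1 hd0.le hY) h

end Check
end Ent
end Pool.Agent.Lib.MP_6947cd_al
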