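import Pool.Agent.Lib.MP_6947cd_al.EntropicInt

/-!
Problem MP_6947cd_al (Chollet).  The row function `F` of the entropic bound: definition as a maximum,
Gibbs' inequality, certificates, existence of the maximiser, the bound `log per M ≤ ∑ F (M i)`.
-/

set_option autoImplicit false
open scoped Matrix
open Matrix Finset

namespace Pool.Agent.Lib.MP_6947cd_al
namespace Ent

variable {κ : Type} [Fintype κ] [DecidableEq κ]

/-- the value of a distribution `p` for the row `b` -/
noncomputable def val (b p : κ → ℝ) : ℝ :=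
  ∑ j, p j * (Real.log (b j) - Real.log (p j) + ell Finset.univ p j)

/-- the distributions carried by the support of `b` -/
def adm (b : κ → ℝ) : Set (κ → ℝ) :=
  {p | (∀ j, 0 ≤ p j) ∧ ∑ j, p j = 1 ∧ ∀ j, b j = 0 → p j = 0}

/-- the row function -/
noncomputable def F (b : κ → ℝ) : ℝ := sSup (val b '' adm b)

/-- sum over pairs (element, set of later elements) as a sum over sets -/
lemma sum_ell_form (f : κ → Finset κ → ℝ) :
    ∑ j, ∑ K ∈ ((Finset.univ : Finset κ).erase j).powerset, f j K
      = ∑ A : Finset κ, ∑ j ∈ A, f j (A.erase j) := by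
  rw [Finset.sum_sigma', Finset.sum_sigma']
  refine Finset.sum_bij' (fun x _ => ⟨insert x.1 x.2, x.1⟩) (fun y _ => ⟨y.2, y.1.erase y.2⟩)
    ?_ ?_ ?_ ?_ ?_
  · rintro ⟨j, K⟩ _
    simp
  · rintro ⟨A, j⟩ h
    simp only [Finset.mem_sigma, Finset.mem_univ, true_and] at h
    simp only [Finset.mem_sigma, Finset.mem_univ, true_and, Finset.mem_powerset]
    exact Finset.erase_subset_erase _ (Finset.subset_univ _)
  · rintro ⟨j, K⟩ h
    simp only [Finset.mem_sigma, Finset.mem_univ, true_and, Finset.mem_powerset] at h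
    have hj : j ∉ K := fun hh => Finset.notMem_erase j _ (h hh)
    simp [Finset.erase_insert hj]
  · rintro ⟨A, j⟩ h
    simp only [Finset.mem_sigma, Finset.mem_univ, true_and] at h
    simp [Finset.insert_erase h]
  · rintro ⟨j, K⟩ h
    simp only [Finset.mem_sigma, Finset.mem_univ, true_and, Finset.mem_powerset] at h
    have hj : j ∉ K := fun hh => Finset.notMem_erase j _ (h hh)
    simp [Finset.erase_insert hj]

lemma w_nonneg (n k : ℕ) : 0 ≤ w n k := by unfold w; positivity

/-- total weight one -/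
lemma sum_w (j : κ) : ∑ K ∈ ((Finset.univ : Finset κ).erase j).powerset,
    w (Fintype.card κ) K.card = 1 := by
  have h := ell_eq (Finset.univ : Finset κ) (fun _ : κ => if True then (0 : ℝ) else 0) j
    (Finset.mem_univ j)
  have h2 : ∑ K ∈ ((Finset.univ : Finset κ).erase j).powerset,
      w (Fintype.card κ) K.card = ∫ u in (0 : ℝ)..1,
        bern u ((Finset.univ : Finset κ).erase j) (fun _ => (1 : ℝ)) := by
    unfold bern
    have hD : ((Finset.univ : Finset κ).erase j).card = Fintype.card κ - 1 := by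
      rw [Finset.card_erase_of_mem (Finset.mem_univ j), Finset.card_univ]
    have hC : 0 < Fintype.card κ := Fintype.card_pos_iff.mpr ⟨j⟩
    rw [intervalIntegral.integral_finsetSum]
    · refine Finset.sum_congr rfl fun K hK => ?_
      have hK' := Finset.card_le_card (Finset.mem_powerset.mp hK)
      rw [intervalIntegral.integral_mul_const, w_eq (Fintype.card κ) K.card (by omega), hD, mul_one]
    · intro K _
      exact Continuous.intervalIntegrable (by fun_prop) _ _
  rw [h2]
  simp [bern_const]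

omit [Fintype κ] [DecidableEq κ] in
/-- log-sum inequality on a set -/
lemma log_sum (A : Finset κ) (p x : κ → ℝ) (hp : ∀ j, 0 ≤ p j) (hx : ∀ j, 0 ≤ x j)
    (hpx : ∀ j, p j ≠ 0 → 0 < x j) :
    ∑ j ∈ A, p j * (Real.log (∑ k ∈ A, p k) - Real.log (p j))
      ≤ ∑ j ∈ A, p j * (Real.log (∑ k ∈ A, x k) - Real.log (x j)) := by
  set P := ∑ k ∈ A, p k with hP
  set X := ∑ k ∈ A, x k with hX
  have hP0 : 0 ≤ P := Finset.sum_nonneg fun k _ => hp k
  rcases eq_or_lt_of_le hP0 with h0 | h0
  · have hz : ∀ j ∈ A, p j = 0 := fun j hj =>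
      (Finset.sum_eq_zero_iff_of_nonneg (fun k _ => hp k)).mp (by rw [← hP]; exact h0.symm) j hj
    rw [Finset.sum_eq_zero fun j hj => by rw [hz j hj, zero_mul],
      Finset.sum_eq_zero fun j hj => by rw [hz j hj, zero_mul]]
  · have hX0 : 0 < X := by
      obtain ⟨j, hj, hj'⟩ : ∃ j ∈ A, p j ≠ 0 := by
        by_contra hcon
        push Not at hcon
        exact absurd (Finset.sum_eq_zero hcon) (by rw [← hP]; exact h0.ne')
      exact lt_of_lt_of_le (hpx j hj') (Finset.single_le_sum (fun k _ => hx k) hj)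
    have key : ∀ j ∈ A, p j * (Real.log P - Real.log (p j)) - p j * (Real.log X - Real.log (x j))
        ≤ P * x j / X - p j := by
      intro j _
      rcases eq_or_lt_of_le (hp j) with hj | hj
      · rw [← hj]
        have : 0 ≤ P * x j / X := div_nonneg (mul_nonneg hP0 (hx j)) hX0.le
        linarith
      · have hxj := hpx j hj.ne'
        have h1 : Real.log P - Real.log (p j) - (Real.log X - Real.log (x j))
            = Real.log (P * x j / (X * p j)) := by
          rw [Real.log_div (by positivity) (by positivity), Real.log_mul (by positivity) (by positivity),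
            Real.log_mul (by positivity) (by positivity)]
          ring
        have h2 := Real.log_le_sub_one_of_pos (show 0 < P * x j / (X * p j) by positivity)
        have h3 : p j * (P * x j / (X * p j) - 1) = P * x j / X - p j := by
          field_simp
        calc p j * (Real.log P - Real.log (p j)) - p j * (Real.log X - Real.log (x j))
            = p j * (Real.log P - Real.log (p j) - (Real.log X - Real.log (x j))) := by ring
          _ = p j * Real.log (P * x j / (X * p j)) := by rw [h1]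
          _ ≤ p j * (P * x j / (X * p j) - 1) := mul_le_mul_of_nonneg_left h2 hj.le
          _ = _ := h3
    have hs := Finset.sum_le_sum key
    rw [Finset.sum_sub_distrib, Finset.sum_sub_distrib] at hs
    have : ∑ j ∈ A, P * x j / X = P := by
      rw [← Finset.sum_div, ← Finset.mul_sum, ← hX, mul_div_assoc, div_self hX0.ne', mul_one]
    rw [this, ← hP] at hs
    linarith

/-- the sum of the availability terms, in the form of a sum over sets -/
lemma sum_ell_sub (p x : κ → ℝ) :
    ∑ j, p j * (ell Finset.univ x j - Real.log (x j))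
      = ∑ A : Finset κ, w (Fintype.card κ) (A.card - 1) *
          ∑ j ∈ A, p j * (Real.log (∑ k ∈ A, x k) - Real.log (x j)) := by
  have h1 : ∀ j, p j * (ell Finset.univ x j - Real.log (x j))
      = ∑ K ∈ ((Finset.univ : Finset κ).erase j).powerset,
          w (Fintype.card κ) K.card * (p j * (Real.log (x j + ∑ k ∈ K, x k) - Real.log (x j))) := by
    intro j
    have : Real.log (x j) = (∑ K ∈ ((Finset.univ : Finset κ).erase j).powerset,
        w (Fintype.card κ) K.card) * Real.log (x j) := by rw [sum_w, one_mul]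
    conv_lhs => rw [this]
    unfold ell
    rw [Finset.card_univ, Finset.sum_mul, ← Finset.sum_sub_distrib, Finset.mul_sum]
    refine Finset.sum_congr rfl fun K _ => ?_
    ring
  rw [Finset.sum_congr rfl fun j _ => h1 j, sum_ell_form]
  refine Finset.sum_congr rfl fun A _ => ?_
  rw [Finset.mul_sum]
  refine Finset.sum_congr rfl fun j hj => ?_
  rw [Finset.card_erase_of_mem hj, Finset.add_sum_erase A x hj]

/-- Gibbs' inequality -/
theorem val_le (b p x : κ → ℝ) (hp : p ∈ adm b) (hx : ∀ j, 0 ≤ x j)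
    (hbx : ∀ j, b j ≠ 0 → 0 < x j) :
    val b p ≤ ∑ j, p j * (Real.log (b j) - Real.log (x j) + ell Finset.univ x j) := by
  obtain ⟨hp0, _, hpb⟩ := hp
  have hpx : ∀ j, p j ≠ 0 → 0 < x j := fun j h => hbx j fun h' => h (hpb j h')
  have e : ∀ y : κ → ℝ, ∑ j, p j * (Real.log (b j) - Real.log (y j) + ell Finset.univ y j)
      = ∑ j, p j * Real.log (b j) + ∑ j, p j * (ell Finset.univ y j - Real.log (y j)) := by
    intro y
    rw [← Finset.sum_add_distrib]
    exact Finset.sum_congr rfl fun j _ => by ring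
  unfold val
  rw [e p, e x, sum_ell_sub, sum_ell_sub]
  refine add_le_add le_rfl (Finset.sum_le_sum fun A _ => ?_)
  exact mul_le_mul_of_nonneg_left (log_sum A p x hp0 hx hpx) (w_nonneg _ _)

/-- A certificate bounds all values. -/
theorem val_le_of_cert (b x : κ → ℝ) (V : ℝ) (hx : ∀ j, 0 ≤ x j) (hbx : ∀ j, b j ≠ 0 → 0 < x j)
    (hV : ∀ j, b j ≠ 0 → Real.log (b j) - Real.log (x j) + ell Finset.univ x j ≤ V)
    (p : κ → ℝ) (hp : p ∈ adm b) : val b p ≤ V := by
  refine (val_le b p x hp hx hbx).trans ?_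
  calc ∑ j, p j * (Real.log (b j) - Real.log (x j) + ell Finset.univ x j)
      ≤ ∑ j, p j * V := by
        refine Finset.sum_le_sum fun j _ => ?_
        by_cases h : b j = 0
        · rw [hp.2.2 j h, zero_mul, zero_mul]
        · exact mul_le_mul_of_nonneg_left (hV j h) (hp.1 j)
    _ = V := by rw [← Finset.sum_mul, hp.2.1, one_mul]

/-- The row function is at most the value of every certificate. -/
theorem F_le_of_cert (b x : κ → ℝ) (V : ℝ) (hb : ∃ j, b j ≠ 0) (hx : ∀ j, 0 ≤ x j)
    (hbx : ∀ j, b j ≠ 0 → 0 < x j)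
    (hV : ∀ j, b j ≠ 0 → Real.log (b j) - Real.log (x j) + ell Finset.univ x j ≤ V) :
    F b ≤ V := by
  obtain ⟨i, hi⟩ := hb
  refine csSup_le ?_ ?_
  · refine ⟨_, ⟨Pi.single i 1, ⟨fun j => ?_, ?_, fun j hj => ?_⟩, rfl⟩⟩
    · by_cases h : j = i
      · subst h; simp
      · simp [Pi.single_eq_of_ne h]
    · simp
    · by_cases h : j = i
      · subst h; exact absurd hj hi
      · simp [Pi.single_eq_of_ne h]
  · rintro _ ⟨p, hp, rfl⟩
    exact val_le_of_cert b x V hx hbx hV p hp

/-- closed form of the value -/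
lemma val_eq (b p : κ → ℝ) : val b p = ∑ j, p j * Real.log (b j)
    + ∑ A : Finset κ, w (Fintype.card κ) (A.card - 1) *
        ((∑ k ∈ A, p k) * Real.log (∑ k ∈ A, p k) - ∑ j ∈ A, p j * Real.log (p j)) := by
  have e : val b p = ∑ j, p j * Real.log (b j)
      + ∑ j, p j * (ell Finset.univ p j - Real.log (p j)) := by
    unfold val
    rw [← Finset.sum_add_distrib]
    exact Finset.sum_congr rfl fun j _ => by ring
  rw [e, sum_ell_sub]
  congr 1
  refine Finset.sum_congr rfl fun A _ => ?_
  congr 1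
  rw [Finset.sum_mul, ← Finset.sum_sub_distrib]
  exact Finset.sum_congr rfl fun j _ => by ring

lemma continuous_val (b : κ → ℝ) : Continuous (val b) := by
  have : val b = fun p => ∑ j, p j * Real.log (b j)
    + ∑ A : Finset κ, w (Fintype.card κ) (A.card - 1) *
        ((∑ k ∈ A, p k) * Real.log (∑ k ∈ A, p k) - ∑ j ∈ A, p j * Real.log (p j)) :=
    funext fun p => val_eq b p
  rw [this]
  refine Continuous.add (by fun_prop) (continuous_finsetSum _ fun A _ => ?_)
  refine continuous_const.mul (Continuous.sub ?_ (continuous_finsetSum _ fun j _ => ?_))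
  · exact Real.continuous_mul_log.comp (by fun_prop : Continuous fun p : κ → ℝ => ∑ k ∈ A, p k)
  · exact Real.continuous_mul_log.comp (by fun_prop : Continuous fun p : κ → ℝ => p j)

omit [DecidableEq κ] in
lemma isCompact_adm (b : κ → ℝ) : IsCompact (adm b) := by
  refine IsCompact.of_isClosed_subset (isCompact_Icc (a := (0 : κ → ℝ)) (b := 1)) ?_ ?_
  · have : adm b = (⋂ j, {p : κ → ℝ | 0 ≤ p j}) ∩ {p | ∑ j, p j = 1} ∩
        (⋂ j, {p : κ → ℝ | b j = 0 → p j = 0}) := by
      ext p
      simp only [adm, Set.mem_ofPred_eq, Set.mem_inter_iff, Set.mem_iInter]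
      tauto
    rw [this]
    refine (IsClosed.inter ?_ ?_).inter ?_
    · exact isClosed_iInter fun j => isClosed_le continuous_const (continuous_apply j)
    · exact isClosed_eq (by fun_prop) continuous_const
    · refine isClosed_iInter fun j => ?_
      by_cases h : b j = 0
      · simp only [h, true_implies]
        exact isClosed_eq (continuous_apply j) continuous_const
      · simp [h]
  · intro p hp
    rw [Set.mem_Icc]
    refine ⟨fun j => hp.1 j, fun j => ?_⟩
    have := Finset.single_le_sum (fun k _ => hp.1 k) (Finset.mem_univ j)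
    rw [hp.2.1] at this
    exact this

lemma single_mem_adm (b : κ → ℝ) (i : κ) (hi : b i ≠ 0) : Pi.single i 1 ∈ adm b := by
  refine ⟨fun j => ?_, ?_, fun j hj => ?_⟩
  · by_cases h : j = i
    · subst h; simp
    · simp [Pi.single_eq_of_ne h]
  · simp
  · by_cases h : j = i
    · subst h; exact absurd hj hi
    · simp [Pi.single_eq_of_ne h]

lemma bddAbove_val (b : κ → ℝ) : BddAbove (val b '' adm b) :=
  (isCompact_adm b).bddAbove_image (continuous_val b).continuousOn

lemma val_le_F (b p : κ → ℝ) (hp : p ∈ adm b) : val b p ≤ F b :=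
  le_csSup (bddAbove_val b) ⟨p, hp, rfl⟩

/-- The maximum is attained. -/
theorem exists_val_eq_F (b : κ → ℝ) (hb : ∃ j, b j ≠ 0) : ∃ p ∈ adm b, val b p = F b := by
  obtain ⟨i, hi⟩ := hb
  obtain ⟨p, hp, hmax⟩ := (isCompact_adm b).exists_isMaxOn ⟨_, single_mem_adm b i hi⟩
    (continuous_val b).continuousOn
  refine ⟨p, hp, le_antisymm (val_le_F b p hp) ?_⟩
  refine csSup_le ⟨_, ⟨p, hp, rfl⟩⟩ ?_
  rintro _ ⟨q, hq, rfl⟩
  exact hmax hq

lemma permanent_pos_of_diag (M : Matrix κ κ ℝ) (h0 : ∀ i j, 0 ≤ M i j) (hd : ∀ i, M i i = 1) :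
    0 < M.permanent := by
  rw [permanent_rows]
  refine lt_of_lt_of_le zero_lt_one ?_
  have h1 : ∏ k, M k ((1 : Equiv.Perm κ) k) = 1 := by simp [hd]
  rw [← h1]
  exact Finset.single_le_sum (f := fun σ : Equiv.Perm κ => ∏ k, M k (σ k))
    (fun σ _ => Finset.prod_nonneg fun k _ => h0 _ _) (Finset.mem_univ 1)

lemma pm_pos (M : Matrix κ κ ℝ) (h0 : ∀ i j, 0 ≤ M i j) (hs : ∀ i j, M i j = M j i)
    (hd : ∀ i, M i i = 1) (i j : κ) (h : M i j ≠ 0) : 0 < pm M i j := by
  have hM := permanent_pos_of_diag M h0 hd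
  unfold pm
  refine div_pos ?_ hM
  have h1 : ∏ k, M k (Equiv.swap i j k) ≠ 0 := by
    rw [Finset.prod_ne_zero_iff]
    intro k _
    by_cases hki : k = i
    · subst hki; rw [Equiv.swap_apply_left]; exact h
    · by_cases hkj : k = j
      · subst hkj; rw [Equiv.swap_apply_right, hs]; exact h
      · rw [Equiv.swap_apply_of_ne_of_ne hki hkj, hd]; exact one_ne_zero
  have h2 : 0 < ∏ k, M k (Equiv.swap i j k) :=
    lt_of_le_of_ne (Finset.prod_nonneg fun k _ => h0 _ _) (Ne.symm h1)
  refine lt_of_lt_of_le h2 ?_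
  have h3 := Finset.single_le_sum
    (f := fun σ : Equiv.Perm κ => if σ i = j then ∏ k, M k (σ k) else 0)
    (fun σ _ => ite_nonneg (Finset.prod_nonneg fun k _ => h0 _ _) le_rfl)
    (Finset.mem_univ (Equiv.swap i j))
  simpa using h3

/-- The entropic bound: `log per M ≤ ∑ F (M i)`. -/
theorem log_permanent_le_F (M : Matrix κ κ ℝ) (h0 : ∀ i j, 0 ≤ M i j) (hs : ∀ i j, M i j = M j i)
    (hd : ∀ i, M i i = 1) : Real.log M.permanent ≤ ∑ i, F (M i) := by
  have hM := permanent_pos_of_diag M h0 hd
  refine (log_permanent_le M h0 hM (pm M) (pm_nonneg M h0)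
    (fun i j h => pm_pos M h0 hs hd i j h)).trans ?_
  refine Finset.sum_le_sum fun i _ => ?_
  refine val_le_F (M i) (pm M i) ⟨pm_nonneg M h0 i, sum_pm M hM.ne' i, fun j hj => ?_⟩
  unfold pm
  rw [div_eq_zero_iff]
  left
  refine Finset.sum_eq_zero fun σ _ => ?_
  split_ifs with h
  · rw [← h] at hj
    exact Finset.prod_eq_zero (Finset.mem_univ i) hj
  · rfl

/-- `F` is nonnegative when an entry is `1`. -/
lemma F_nonneg (b : κ → ℝ) (i : κ) (hi : b i = 1) : 0 ≤ F b := by
  have h := val_le_F b _ (single_mem_adm b i (by rw [hi]; exact one_ne_zero))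
  have h2 : val b (Pi.single i 1) = 0 := by
    rw [val_eq, Finset.sum_eq_single i (fun j _ hj => by rw [Pi.single_eq_of_ne hj, zero_mul])
      (fun h => absurd (Finset.mem_univ i) h), hi, Real.log_one, mul_zero, zero_add]
    refine Finset.sum_eq_zero fun A _ => ?_
    have h3 : ∑ k ∈ A, (Pi.single i 1 : κ → ℝ) k = if i ∈ A then 1 else 0 := by
      simp [Pi.single_apply]
    have h4 : ∑ j ∈ A, (Pi.single i 1 : κ → ℝ) j * Real.log ((Pi.single i 1 : κ → ℝ) j) = 0 := by
      refine Finset.sum_eq_zero fun j _ => ?_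
      by_cases hj : j = i
      · subst hj; simp
      · simp [Pi.single_eq_of_ne hj]
    rw [h3, h4]
    split_ifs <;> simp
  linarith

/-- `F` is monotone. -/
lemma F_mono (b b' : κ → ℝ) (hb : ∀ j, 0 ≤ b j) (h : ∀ j, b j ≤ b' j) (hne : ∃ j, b j ≠ 0) :
    F b ≤ F b' := by
  obtain ⟨p, hp, hv⟩ := exists_val_eq_F b hne
  have hp' : p ∈ adm b' := ⟨hp.1, hp.2.1, fun j hj => hp.2.2 j
    (le_antisymm (by rw [← hj]; exact h j) (hb j))⟩
  rw [← hv]
  refine le_trans ?_ (val_le_F b' p hp')
  unfold val
  refine Finset.sum_le_sum fun j _ => ?_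
  by_cases hj : b j = 0
  · rw [hp.2.2 j hj, zero_mul, zero_mul]
  · refine mul_le_mul_of_nonneg_left ?_ (hp.1 j)
    have := Real.log_le_log (lt_of_le_of_ne (hb j) (Ne.symm hj)) (h j)
    linarith

end Ent
end Pool.Agent.Lib.MP_6947cd_al
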